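import Pool.Agent.Lib.MP_9dcace_sx.CDefs
import Pool.Agent.Lib.MP_9dcace_sx.G0

/-!
MP_9dcace_co, polytopes with arbitrary facets (library RP, blueprint m3_REAL_h83.md in the store).
Frozen definitions, part 1.
* `Pol x q` : a 3-polytope around the origin with vertices `x v` and polar facet vectors `q f`
  (symmetric in the two).
* `Real3 inc N` : a realization with margins `1 / N` (symmetric too).
* `StP V A` : the stellated sphere of a polytope with one triangular facet (the outer triangle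
  `a 0, a 1, a 2`; `A` = all the other facets), as an `Sph (V ⊕ A)`.
* `RkOrd` : the rank function of the order of section 1.
* `SchP` : the Schnyder structure (wood) of section 2; `SchPS` : the same with its regions (section 3).
Indices `k : Fin 3`, additions modulo 3. Facets are counterclockwise: `T u v f` : `f` is on the left of `u → v`.
-/

set_option autoImplicit false

open Classical

namespace Pool.RP

open Pool.SX

/-! ### polytopes -/

/-- A three-dimensional polytope with the origin in its interior, given by its vertices `x v` and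
its facets `{y | dp (q f) y = 1}`. -/
structure Pol {V A : Type} [Fintype V] [Fintype A] (x : V → E3) (q : A → E3) : Prop where
  le : ∀ v f, dp (q f) (x v) ≤ 1
  hullV : ∀ y : E3, (∀ f, dp (q f) y ≤ 1) → y ∈ convexHull ℝ (Set.range x)
  hullA : ∀ z : E3, (∀ v, dp z (x v) ≤ 1) → z ∈ convexHull ℝ (Set.range q)
  extV : ∀ v, x v ∉ convexHull ℝ (x '' {u | u ≠ v})
  extA : ∀ f, q f ∉ convexHull ℝ (q '' {g | g ≠ f})

/-- a realization of the incidences `inc` with size `N` and margins `1 / N` -/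
def Real3 {V A : Type} (inc : V → A → Prop) (N : ℝ) : Prop :=
  ∃ (x : V → E3) (q : A → E3), (∀ v i, |x v i| ≤ N) ∧ (∀ f i, |q f i| ≤ N) ∧
    (∀ v f, inc v f → dp (q f) (x v) = 1) ∧ ∀ v f, ¬ inc v f → dp (q f) (x v) ≤ 1 - 1 / N

/-! ### the stellated sphere -/

/-- The stellated sphere of a polytope with a triangular facet. -/
structure StP (V A : Type) [Fintype V] [Fintype A] where
  S : Sph (V ⊕ A)
  a : Fin 3 → V
  a_inj : Function.Injective a
  out : S.T (Sum.inl (a 1)) (Sum.inl (a 0)) (Sum.inl (a 2))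
  vvv : ∀ u v w : V, S.T (Sum.inl u) (Sum.inl v) (Sum.inl w) → (u = a 1 ∧ v = a 0 ∧ w = a 2) ∨
    (u = a 0 ∧ v = a 2 ∧ w = a 1) ∨ (u = a 2 ∧ v = a 1 ∧ w = a 0)
  ff : ∀ (f g : A) (z : V ⊕ A), ¬ S.T (Sum.inr f) (Sum.inr g) z
  /-- (E) two facets with two common vertices share an edge -/
  two : ∀ (f g : A) (u v u1 v1 u2 v2 : V), f ≠ g → u ≠ v →
    S.T (Sum.inl u) (Sum.inl u1) (Sum.inr f) → S.T (Sum.inl v) (Sum.inl v1) (Sum.inr f) →
    S.T (Sum.inl u) (Sum.inl u2) (Sum.inr g) → S.T (Sum.inl v) (Sum.inl v2) (Sum.inr g) →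
    (S.T (Sum.inl u) (Sum.inl v) (Sum.inr f) ∧ S.T (Sum.inl v) (Sum.inl u) (Sum.inr g)) ∨
    (S.T (Sum.inl u) (Sum.inl v) (Sum.inr g) ∧ S.T (Sum.inl v) (Sum.inl u) (Sum.inr f))
  /-- (E) with the outer facet -/
  twoo : ∀ (f : A) (k : Fin 3) (u1 v1 : V), S.T (Sum.inl (a k)) (Sum.inl u1) (Sum.inr f) →
    S.T (Sum.inl (a (k + 1))) (Sum.inl v1) (Sum.inr f) →
    S.T (Sum.inl (a k)) (Sum.inl (a (k + 1))) (Sum.inr f)
  /-- (D) an inner vertex lies on at least three facets -/
  deg : ∀ v : V, (∀ k, v ≠ a k) → ∀ f g : A, ∃ (h : A) (w : V), h ≠ f ∧ h ≠ g ∧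
    S.T (Sum.inl v) (Sum.inl w) (Sum.inr h)
  /-- (D) an outer vertex lies on at least two facets other than the outer one -/
  dego : ∀ (k : Fin 3) (f : A), ∃ (h : A) (w : V), h ≠ f ∧
    S.T (Sum.inl (a k)) (Sum.inl w) (Sum.inr h)

namespace StP

variable {V A : Type} [Fintype V] [Fintype A] (P : StP V A)

/-- `u → v` is an edge with the inner facet `f` on its left -/
def T (u v : V) (f : A) : Prop := P.S.T (Sum.inl u) (Sum.inl v) (Sum.inr f)

/-- `v` is a vertex of the inner facet `f` -/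
def inc (v : V) (f : A) : Prop := ∃ w, P.T v w f

/-- `v` is not an outer vertex -/
def inn (v : V) : Prop := ∀ k, v ≠ P.a k

/-- the highest rank of a vertex of `f` -/
noncomputable def top (rk : V → ℕ) (f : A) : ℕ :=
  Finset.univ.sup (fun v => if P.inc v f then rk v else 0)

/-- the facet `z` (`inl _` stands for the outer facet) is not inside `{rk ≤ t}` -/
def hi (rk : V → ℕ) (t : ℕ) : V ⊕ A → Prop
  | Sum.inl _ => True
  | Sum.inr f => t < P.top rk f

/-- incidence with the outer facet `none` included -/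
def incO (v : V) : Option A → Prop
  | none => ∃ k, v = P.a k
  | some f => P.inc v f

end StP

/-- The rank function of section 1 (facts K1 - K5 of the blueprint). -/
structure RkOrd {V A : Type} [Fintype V] [Fintype A] (P : StP V A) (rk : V → ℕ) : Prop where
  z0 : rk (P.a 0) = 0
  z1 : rk (P.a 1) = 0
  pos : ∀ v, v ≠ P.a 0 → v ≠ P.a 1 → 0 < rk v
  high : ∀ v, v ≠ P.a 2 → rk v < rk (P.a 2)
  /-- at most one edge `v → w` has its left facet not inside and its right facet inside `{rk ≤ t}` -/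
  k1L : ∀ (t : ℕ) (v w w' : V) (z y z' y' : V ⊕ A), rk v ≤ t →
    P.S.T (Sum.inl v) (Sum.inl w) z → P.S.T (Sum.inl w) (Sum.inl v) y →
    P.S.T (Sum.inl v) (Sum.inl w') z' → P.S.T (Sum.inl w') (Sum.inl v) y' →
    P.hi rk t z → ¬ P.hi rk t y → P.hi rk t z' → ¬ P.hi rk t y' → w = w'
  k1R : ∀ (t : ℕ) (v w w' : V) (z y z' y' : V ⊕ A), rk v ≤ t →
    P.S.T (Sum.inl v) (Sum.inl w) z → P.S.T (Sum.inl w) (Sum.inl v) y →
    P.S.T (Sum.inl v) (Sum.inl w') z' → P.S.T (Sum.inl w') (Sum.inl v) y' →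
    ¬ P.hi rk t z → P.hi rk t y → ¬ P.hi rk t z' → P.hi rk t y' → w = w'
  /-- `D(v)` is not empty -/
  dne : ∀ v, P.inn v → ∃ f, P.inc v f ∧ P.top rk f = rk v
  /-- `U(v)` has at least two facets -/
  une : ∀ v, P.inn v → ∀ f, ∃ g, g ≠ f ∧ P.inc v g ∧ rk v < P.top rk g
  k2 : ∀ (u v : V) (z y : V ⊕ A), P.S.T (Sum.inl u) (Sum.inl v) z → P.S.T (Sum.inl v) (Sum.inl u) y →
    ¬ (u = P.a 0 ∧ v = P.a 1) → ¬ (u = P.a 1 ∧ v = P.a 0) →
    ¬ (P.hi rk (max (rk u) (rk v)) z ∧ P.hi rk (max (rk u) (rk v)) y)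
  /-- at least two vertices of `f` are below the top -/
  k3a : ∀ (f : A) (u : V), ∃ u', u' ≠ u ∧ P.inc u' f ∧ rk u' < P.top rk f
  /-- the top vertices of `f` are an interval -/
  k3u : ∀ (f : A) (u v u' v' : V), P.T u v f → P.T u' v' f → rk u < P.top rk f → rk v = P.top rk f →
    rk u' < P.top rk f → rk v' = P.top rk f → u = u' ∧ v = v'
  k3d : ∀ (f : A) (u v u' v' : V), P.T u v f → P.T u' v' f → rk u = P.top rk f → rk v < P.top rk f →
    rk u' = P.top rk f → rk v' < P.top rk f → u = u' ∧ v = v'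
  /-- if `f` has two top vertices then `D(z) = {f}` for each of them -/
  k3c : ∀ (f : A) (z z' : V), z ≠ z' → P.inc z f → P.inc z' f → rk z = P.top rk f →
    rk z' = P.top rk f → ∀ g, P.inc z g → P.top rk g = rk z → g = f
  k4 : ∀ (u v : V) (f g : A), P.T u v f → P.T v u g → rk u < rk v → P.top rk f ≤ rk v →
    P.top rk g ≤ rk v → P.inn u ∧ ∀ h, P.inc u h → P.top rk h ≤ rk v
  k5a : ∀ (s : ℕ) (v : V) (z y : V ⊕ A), rk v ≤ s → P.S.T (Sum.inl v) (Sum.inl (P.a 0)) z →
    P.S.T (Sum.inl (P.a 0)) (Sum.inl v) y → P.hi rk s z → ¬ P.hi rk s y → v = P.a 1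
  k5b : ∀ (s : ℕ) (v : V) (z y : V ⊕ A), rk v ≤ s → P.S.T (Sum.inl (P.a 1)) (Sum.inl v) z →
    P.S.T (Sum.inl v) (Sum.inl (P.a 1)) y → P.hi rk s z → ¬ P.hi rk s y → v = P.a 0

/-! ### Schnyder structures -/

/-- A Schnyder structure of a plane map with polygonal inner faces: vertices `V`, inner faces `F`,
outer vertices `a 0, a 1, a 2`. -/
structure SchP (V F : Type) [Fintype V] [Fintype F] where
  /-- `L k g v` : `v` is a vertex of `g` and has the label `k` in `g` -/
  L : Fin 3 → F → V → Prop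
  /-- the next vertex of the polygon `g` (counterclockwise) -/
  nx : F → V → V
  /-- the last vertex of `g` with the label `k` (counterclockwise) -/
  t : Fin 3 → F → V
  /-- the outer vertices -/
  a : Fin 3 → V
  /-- the outgoing edge of colour `c` of an inner vertex -/
  out : Fin 3 → V → V
  /-- the face on the left of the edge `v → out c v` -/
  gL : Fin 3 → V → F
  /-- the face on the right of the edge `v → out c v` -/
  gR : Fin 3 → V → F
  /-- the inner face at the outer edge `a k, a (k+1)` -/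
  o : Fin 3 → F
  /-- potentials -/
  r : Fin 3 → V → ℝ
  a_inj : Function.Injective a
  Luniq : ∀ {k l : Fin 3} {g : F} {v : V}, L k g v → L l g v → k = l
  /-- the next vertex has the same label or the next label -/
  nxL : ∀ {k : Fin 3} {g : F} {v : V}, L k g v → L k g (nx g v) ∨ L (k + 1) g (nx g v)
  nxinj : ∀ {k l : Fin 3} {g : F} {v w : V}, L k g v → L l g w → nx g v = nx g w → v = w
  /-- the vertices of a face form one cycle -/
  cyc : ∀ {k l : Fin 3} {g : F} {v w : V}, L k g v → L l g w → ∃ n : ℕ, (nx g)^[n] v = w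
  /-- a directed edge has at most one face on its left -/
  dart : ∀ {k l : Fin 3} {g h : F} {v : V}, L k g v → L l h v → nx g v = nx h v → g = h
  tL : ∀ (k : Fin 3) (g : F), L k g (t k g)
  tN : ∀ (k : Fin 3) (g : F), L (k + 1) g (nx g (t k g))
  tU : ∀ {k : Fin 3} {g : F} {v : V}, L k g v → L (k + 1) g (nx g v) → v = t k g
  lL : ∀ (c : Fin 3) (v : V), (∀ k, v ≠ a k) → L (c + 2) (gL c v) v
  nL : ∀ (c : Fin 3) (v : V), (∀ k, v ≠ a k) → nx (gL c v) v = out c v
  lR : ∀ (c : Fin 3) (v : V), (∀ k, v ≠ a k) → L (c + 1) (gR c v) v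
  nR : ∀ (c : Fin 3) (v : V), (∀ k, v ≠ a k) → nx (gR c v) (out c v) = v
  /-- `out c v` is a vertex of `gR c v` -/
  iR : ∀ (c : Fin 3) (v : V), (∀ k, v ≠ a k) → ∃ l, L l (gR c v) (out c v)
  /-- `out c v` has the label `c` on at least one side -/
  lLR : ∀ (c : Fin 3) (v : V), (∀ k, v ≠ a k) → L c (gL c v) (out c v) ∨ L c (gR c v) (out c v)
  o0 : ∀ k : Fin 3, L k (o k) (a k)
  o1 : ∀ k : Fin 3, L (k + 1) (o k) (a (k + 1))
  on : ∀ k : Fin 3, nx (o k) (a k) = a (k + 1)
  /-- the edge rule -/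
  edge : ∀ {k : Fin 3} {g : F} {v : V}, L k g v →
    (L (k + 1) g (nx g v) ∧ ((g = o k ∧ v = a k) ∨ ((∀ j, v ≠ a j) ∧ g = gL (k + 1) v) ∨
      ((∀ j, nx g v ≠ a j) ∧ g = gR k (nx g v)))) ∨
    (L k g (nx g v) ∧ (∀ j, v ≠ a j) ∧ (∀ j, nx g v ≠ a j) ∧ g = gL (k + 1) v ∧
      g = gR (k + 2) (nx g v))
  pot : ∀ {k l : Fin 3} {g : F} {u v : V}, L k g v → L l g u → l ≠ k → r k u < r k v
  potE : ∀ {k : Fin 3} {g : F} {u v : V}, L k g v → L k g u → r k u = r k v
  /-- the label of an outer vertex is its own number -/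
  lab : ∀ {j k : Fin 3} {g : F}, L j g (a k) → j = k
  cov : ∀ v : V, ∃ (k : Fin 3) (g : F), L k g v
  /-- connectedness of the inner faces across inner edges -/
  conn : ∀ X : F → ℝ, (∀ (c : Fin 3) (v : V), (∀ k, v ≠ a k) → X (gL c v) = X (gR c v)) →
    ∀ g g', X g = X g'

namespace SchP

variable {V F : Type} [Fintype V] [Fintype F] (s : SchP V F)

/-- inner vertices -/
def inn (v : V) : Prop := ∀ k, v ≠ s.a k

/-- `v` is a vertex of the face `g` -/
def Inc (v : V) (g : F) : Prop := ∃ k, s.L k g v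

/-- the first vertex of `g` with the label `k` -/
def b (k : Fin 3) (g : F) : V := s.nx g (s.t (k + 2) g)

/-- one step of the order `≤_k` (`u` below `v`) -/
def step (k : Fin 3) (u v : V) : Prop :=
  (s.inn u ∧ v = s.out k u) ∨ (∃ j, j ≠ k ∧ s.inn v ∧ u = s.out j v) ∨
    (∃ j, j ≠ k ∧ u = s.a j ∧ v = s.a k)

/-- the order `≤_k` -/
def Le (k : Fin 3) (u v : V) : Prop := Relation.ReflTransGen (s.step k) u v

/-- `u` lies on the path `P_c(z)` -/
def Pth (c : Fin 3) (z u : V) : Prop :=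
  Relation.ReflTransGen (fun x y => s.inn x ∧ y = s.out c x) z u

/-- `(c', w)` is the reverse name of the (bidirected) edge `(c, v)` -/
def Rev (c : Fin 3) (v : V) (c' : Fin 3) (w : V) : Prop :=
  s.inn v ∧ s.inn w ∧ w = s.out c v ∧ v = s.out c' w

/-- the edge `(c, v)` has the label `c + 2` at both ends on its left side
(then it is bidirected, the reverse colour is `c + 1`) -/
def monoL (c : Fin 3) (v : V) : Prop := s.L (c + 2) (s.gL c v) (s.out c v)

/-- the edge `(c, v)` has the label `c + 1` at both ends on its right side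
(then it is bidirected, the reverse colour is `c + 2`) -/
def monoR (c : Fin 3) (v : V) : Prop := s.L (c + 1) (s.gR c v) (s.out c v)

end SchP

/-- A Schnyder structure together with its regions `S k z` (section 3 of the blueprint). -/
structure SchPS (V F : Type) [Fintype V] [Fintype F] extends SchP V F where
  S : Fin 3 → V → Finset F
  part : ∀ (z : V) (g : F), ∃! k, g ∈ S k z
  self : ∀ {k : Fin 3} {g : F} {v : V}, L k g v → g ∈ S k v
  mono : ∀ (k : Fin 3) (u v : V), toSchP.Le k u v → S k u ⊆ S k v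
  vert : ∀ (k : Fin 3) (z v : V) (g : F), g ∈ S k z → toSchP.Inc v g → toSchP.Le k v z
  crossL : ∀ (i c : Fin 3) (y v : V), toSchP.inn v → gL c v ∈ S i y → gR c v ∉ S i y →
    (c = i + 1 ∧ toSchP.Pth (i + 1) y v) ∨ ∃ u, toSchP.Rev c v (i + 2) u ∧ toSchP.Pth (i + 2) y u
  crossR : ∀ (i c : Fin 3) (y v : V), toSchP.inn v → gR c v ∈ S i y → gL c v ∉ S i y →
    (c = i + 2 ∧ toSchP.Pth (i + 2) y v) ∨ ∃ u, toSchP.Rev c v (i + 1) u ∧ toSchP.Pth (i + 1) y u
  /-- the two sides of an edge of the path `P_c(y)` lie in different regions -/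
  pathcross : ∀ (c : Fin 3) (y v : V), toSchP.inn v → toSchP.Pth c y v →
    gL c v ∈ S (c + 2) y ∧ gR c v ∈ S (c + 1) y
  outer0 : ∀ k : Fin 3, S k (a k) = Finset.univ
  outer1 : ∀ k j : Fin 3, j ≠ k → S k (a j) = ∅

/-- `s` is a Schnyder structure of `P` -/
structure SchPOf {V A : Type} [Fintype V] [Fintype A] (P : StP V A) (s : SchP V A) : Prop where
  ha : s.a = P.a
  hT : ∀ (k : Fin 3) (g : A) (v : V), s.L k g v → P.T v (s.nx g v) g
  hI : ∀ (v w : V) (g : A), P.T v w g → s.Inc v g ∧ s.nx g v = w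

end Pool.RP
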