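import Pool.Agent.Lib.MP_9dcace_rp.Base

/-!
MP_9dcace_co, library RP, section 2 (wood): the vertices of a facet, the labels, basic facts.
`nx f v` : next vertex of the facet `f` after `v`, `pv f v` : the previous one,
`LL rk k f v` : `v` has the label `k` in `f`.
-/

set_option autoImplicit false

open Classical

namespace Pool.RP

open Pool.SX Relation

/-- crossing lemma in the link of a vertex of a sphere -/
theorem sph_cross {W : Type} [Fintype W] (S : Sph W) {u v w v' w' : W} (X : W → Prop)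
    (h : S.T u v w) (h' : S.T u v' w') (hv : X v) (hv' : ¬ X v') :
    ∃ x y, S.T u x y ∧ X x ∧ ¬ X y := by
  by_contra hcon
  push Not at hcon
  have key : ∀ z, ReflTransGen (fun x y => S.T u x y) v z → X z := by
    intro z hz
    induction hz with
    | refl => exact hv
    | tail _ h2 ih => exact hcon _ _ h2 ih
  exact hv' (key _ (S.link h h'))

namespace StP

variable {V A : Type} [Fintype V] [Fintype A] (P : StP V A)

/-- the next vertex of the facet `f` after `v` -/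
noncomputable def nx (f : A) (v : V) : V := if h : P.inc v f then Classical.choose h else v

/-- the vertex of the facet `f` before `v` -/
noncomputable def pv (f : A) (v : V) : V := if h : ∃ u, P.T u v f then Classical.choose h else v

/-- `v` has the label `k` in the facet `f` -/
def LL (rk : V → ℕ) (k : Fin 3) (f : A) (v : V) : Prop := P.inc v f ∧
  ((k = 2 ∧ rk v = P.top rk f) ∨
   (k = 0 ∧ rk v < P.top rk f ∧ rk (P.nx f v) < P.top rk f ∧ rk v < rk (P.pv f v)) ∨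
   (k = 1 ∧ rk v < P.top rk f ∧ ¬ (rk (P.nx f v) < P.top rk f ∧ rk v < rk (P.pv f v))))

variable {P}

theorem T_ne {u v : V} {f : A} (h : P.T u v f) : u ≠ v := by
  intro e
  exact P.S.ne h (by rw [e])

theorem T_uniqR {v w w' : V} {f : A} (h : P.T v w f) (h' : P.T v w' f) : w = w' :=
  Sum.inl_injective (P.S.uniq (P.S.rot (P.S.rot h)) (P.S.rot (P.S.rot h')))

theorem T_uniqL {u u' v : V} {f : A} (h : P.T u v f) (h' : P.T u' v f) : u = u' :=
  Sum.inl_injective (P.S.uniq (P.S.rot h) (P.S.rot h'))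

theorem T_dart {u v : V} {f g : A} (h : P.T u v f) (h' : P.T u v g) : f = g :=
  Sum.inr_injective (P.S.uniq h h')

theorem inc_of_T {v w : V} {f : A} (h : P.T v w f) : P.inc v f := ⟨w, h⟩

/-- every vertex of a facet has a previous vertex -/
theorem exists_pv {v : V} {f : A} (h : P.inc v f) : ∃ u, P.T u v f := by
  obtain ⟨w, hw⟩ := h
  have h1 : P.S.T (Sum.inr f) (Sum.inl v) (Sum.inl w) := P.S.rot (P.S.rot hw)
  obtain ⟨z, -, hz⟩ := P.S.opp h1
  have h2 : P.S.T (Sum.inr f) z (Sum.inl v) := P.S.rot hz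
  rcases z with u | g
  · exact ⟨u, P.S.rot h2⟩
  · exact absurd h2 (P.ff f g _)

theorem exists_nx {u v : V} {f : A} (h : P.T u v f) : ∃ w, P.T v w f := by
  have h1 : P.S.T (Sum.inl v) (Sum.inr f) (Sum.inl u) := P.S.rot h
  obtain ⟨z, -, hz⟩ := P.S.opp h1
  rcases z with w | g
  · exact ⟨w, P.S.rot hz⟩
  · exact absurd (P.S.rot (P.S.rot hz)) (P.ff g f _)

theorem inc_of_T' {u v : V} {f : A} (h : P.T u v f) : P.inc v f := exists_nx h

theorem inc_iff {v : V} {f : A} : P.inc v f ↔ ∃ u, P.T u v f :=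
  ⟨exists_pv, fun ⟨_, h⟩ => inc_of_T' h⟩

theorem T_nx {v : V} {f : A} (h : P.inc v f) : P.T v (P.nx f v) f := by
  unfold nx
  rw [dif_pos h]
  exact Classical.choose_spec h

theorem nx_eq {v w : V} {f : A} (h : P.T v w f) : P.nx f v = w :=
  T_uniqR (T_nx ⟨w, h⟩) h

theorem T_pv {v : V} {f : A} (h : P.inc v f) : P.T (P.pv f v) v f := by
  unfold pv
  rw [dif_pos (exists_pv h)]
  exact Classical.choose_spec (exists_pv h)

theorem pv_eq {u v : V} {f : A} (h : P.T u v f) : P.pv f v = u :=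
  T_uniqL (T_pv (inc_of_T' h)) h

theorem inc_nx {v : V} {f : A} (h : P.inc v f) : P.inc (P.nx f v) f := inc_of_T' (T_nx h)

theorem inc_pv {v : V} {f : A} (h : P.inc v f) : P.inc (P.pv f v) f := inc_of_T (T_pv h)

theorem nx_pv {v : V} {f : A} (h : P.inc v f) : P.nx f (P.pv f v) = v := nx_eq (T_pv h)

theorem pv_nx {v : V} {f : A} (h : P.inc v f) : P.pv f (P.nx f v) = v := pv_eq (T_nx h)

/-- every facet has an edge -/
theorem exists_T (f : A) : ∃ v w, P.T v w f := by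
  obtain ⟨v, w, h⟩ := P.S.cov (Sum.inr f)
  rcases v with v | g
  · rcases w with w | g
    · exact ⟨v, w, P.S.rot h⟩
    · exact absurd (P.S.rot (P.S.rot h)) (P.ff g f _)
  · exact absurd h (P.ff f g _)

/-- the outer triangle, all rotations -/
theorem out_T (k : Fin 3) : P.S.T (Sum.inl (P.a (k + 1))) (Sum.inl (P.a k)) (Sum.inl (P.a (k + 2))) := by
  have h := P.out
  fin_cases k
  · exact h
  · exact P.S.rot (P.S.rot h)
  · exact P.S.rot h

/-- a triangle with three vertices is a rotation of the outer one -/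
theorem vvv_k {u v w : V} (h : P.S.T (Sum.inl u) (Sum.inl v) (Sum.inl w)) :
    ∃ k : Fin 3, u = P.a (k + 1) ∧ v = P.a k ∧ w = P.a (k + 2) := by
  rcases P.vvv u v w h with h | h | h
  · exact ⟨0, h⟩
  · exact ⟨2, h⟩
  · exact ⟨1, h⟩

theorem no_out {k : Fin 3} {f : A} : ¬ P.T (P.a (k + 1)) (P.a k) f := by
  intro h
  have := P.S.uniq h (out_T k)
  cases this

/-- the other side of a directed edge of a facet: a facet, or the edge is outer -/
theorem opp_T {u v : V} {f : A} (h : P.T u v f) :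
    (∃ g, g ≠ f ∧ P.T v u g) ∨ ∃ k : Fin 3, u = P.a k ∧ v = P.a (k + 1) := by
  obtain ⟨z, hz, h1⟩ := P.S.opp h
  rcases z with w | g
  · obtain ⟨k, h2, h3, -⟩ := vvv_k h1
    exact Or.inr ⟨k, h3, h2⟩
  · exact Or.inl ⟨g, fun e => hz (by rw [e]), h1⟩

/-- a triangle at an inner vertex is at a facet -/
theorem inn_side {v w : V} {z : V ⊕ A} (hv : P.inn v) (h : P.S.T (Sum.inl v) (Sum.inl w) z) :
    ∃ f, z = Sum.inr f := by
  rcases z with x | f
  · obtain ⟨k, h2, -⟩ := vvv_k h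
    exact absurd h2 (hv _)
  · exact ⟨f, rfl⟩

theorem inn_opp {v w : V} {f : A} (hv : P.inn v) (h : P.T v w f) : ∃ g, g ≠ f ∧ P.T w v g := by
  rcases opp_T h with h1 | ⟨k, h1, -⟩
  · exact h1
  · exact absurd h1 (hv k)

theorem inn_opp' {v w : V} {f : A} (hv : P.inn v) (h : P.T w v f) : ∃ g, g ≠ f ∧ P.T v w g := by
  rcases opp_T h with h1 | ⟨k, -, h1⟩
  · exact h1
  · exact absurd h1 (hv _)

/-- the facet at an outer edge -/
theorem exists_o (k : Fin 3) : ∃ f, P.T (P.a k) (P.a (k + 1)) f := by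
  obtain ⟨z, -, h⟩ := P.S.opp (out_T (P := P) k)
  rcases z with w | f
  · obtain ⟨j, h1, h2, -⟩ := vvv_k h
    have h3 := P.a_inj h1
    have h4 := P.a_inj h2
    have key : ∀ k j : Fin 3, k = j + 1 → k + 1 = j → False := by decide
    exact (key k j h3 h4).elim
  · exact ⟨f, h⟩

/-- crossing lemma along a facet -/
theorem face_cross {f : A} (X : V → Prop) {v v' : V} (h : P.inc v f) (h' : P.inc v' f)
    (hv : X v) (hv' : ¬ X v') : ∃ y y', P.T y y' f ∧ X y ∧ ¬ X y' := by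
  have h1 : P.S.T (Sum.inr f) (Sum.inl v) (Sum.inl (P.nx f v)) := P.S.rot (P.S.rot (T_nx h))
  have h2 : P.S.T (Sum.inr f) (Sum.inl v') (Sum.inl (P.nx f v')) := P.S.rot (P.S.rot (T_nx h'))
  obtain ⟨x, y, h3, h4, h5⟩ := sph_cross P.S (Sum.elim X (fun _ => True)) h1 h2 hv hv'
  rcases x with x | g
  · rcases y with y | g
    · exact ⟨x, y, P.S.rot h3, h4, h5⟩
    · exact absurd trivial h5
  · exact absurd h3 (P.ff f g _)

/-- crossing lemma around an inner vertex: there is an edge `v → w` with its right facet in `X` and its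
left facet not in `X` -/
theorem around {v : V} (hv : P.inn v) (X : A → Prop) {f g : A} (hf : P.inc v f) (hg : P.inc v g)
    (Xf : X f) (Xg : ¬ X g) : ∃ w f' g', P.T w v g' ∧ P.T v w f' ∧ X g' ∧ ¬ X f' := by
  have h1 : P.S.T (Sum.inl v) (Sum.inr f) (Sum.inl (P.pv f v)) := P.S.rot (T_pv hf)
  have h2 : P.S.T (Sum.inl v) (Sum.inr g) (Sum.inl (P.pv g v)) := P.S.rot (T_pv hg)
  obtain ⟨x, y, h3, h4, h5⟩ := sph_cross P.S
    (Sum.elim (fun w => ∃ g', P.T w v g' ∧ X g') X) h1 h2 Xf Xg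
  rcases x with w | f1
  · obtain ⟨g', h6, h7⟩ := h4
    obtain ⟨f', rfl⟩ := inn_side hv h3
    exact ⟨w, f', g', h6, h3, h7, h5⟩
  · rcases y with w | g1
    · exact absurd ⟨f1, P.S.rot (P.S.rot h3), h4⟩ h5
    · exact absurd (P.S.rot h3) (P.ff f1 g1 _)

/-- if the entry into `X` around the inner vertex `v` is unique then so is the exit -/
theorem uniq_exit {v : V} (hv : P.inn v) (X : A → Prop)
    (hent : ∀ y1 y2 f1 g1 f2 g2, P.T y1 v g1 → P.T v y1 f1 → ¬ X g1 → X f1 →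
      P.T y2 v g2 → P.T v y2 f2 → ¬ X g2 → X f2 → y1 = y2)
    {y1 y2 : V} {f1 g1 f2 g2 : A} (h1 : P.T y1 v g1) (h1' : P.T v y1 f1) (hg1 : X g1) (hf1 : ¬ X f1)
    (h2 : P.T y2 v g2) (h2' : P.T v y2 f2) (hg2 : X g2) (hf2 : ¬ X f2) : y1 = y2 := by
  by_contra hne
  -- one step inside X
  set r : A → A → Prop := fun g f => X g ∧ X f ∧ ∃ y, P.T y v g ∧ P.T v y f with hr
  have hru : Relator.RightUnique r := by
    rintro a b c ⟨-, -, y, ha, hb⟩ ⟨-, -, y', ha', hc⟩
    have e : y = y' := T_uniqL ha ha'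
    subst e
    exact T_dart hb hc
  have hend : ∀ {y : V} {f g : A}, P.T y v g → P.T v y f → ¬ X f → ∀ {h : A},
      ReflTransGen r g h → h = g := by
    intro y f g hy hy' hf h hh
    rcases ReflTransGen.cases_head hh with e | ⟨c, ⟨-, hc, y', ha, hb⟩, -⟩
    · exact e.symm
    · have e : y = y' := T_uniqL hy ha
      subst e
      rw [T_dart hy' hb] at hf
      exact absurd hc hf
  have hgg : g1 ≠ g2 := by
    intro e
    subst e
    exact hne (T_uniqL h1 h2)
  -- the set of facets which reach g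
  have key : ∀ {y y' : V} {f g f' g' : A}, P.T y v g → P.T v y f → X g → ¬ X f →
      P.T y' v g' → P.T v y' f' → X g' → ¬ X f' → g ≠ g' →
      ∃ w fw gw, P.T w v gw ∧ P.T v w fw ∧ ¬ X gw ∧ X fw ∧ ReflTransGen r fw g := by
    intro y y' f g f' g' hy1 hy2 hg hf hy1' hy2' hg' hf' hgg'
    have hnot : ¬ (X g' ∧ ReflTransGen r g' g) := by
      rintro ⟨-, h⟩
      exact hgg' (hend hy1' hy2' hf' h)
    obtain ⟨w, fw, gw, k1, k2, k3, k4⟩ := around hv
      (fun h => ¬ (X h ∧ ReflTransGen r h g)) (inc_of_T' hy1') (inc_of_T' hy1) hnot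
      (fun h => h ⟨hg, ReflTransGen.refl⟩)
    have k4 : X fw ∧ ReflTransGen r fw g := not_not.1 k4
    refine ⟨w, fw, gw, k1, k2, ?_, k4.1, k4.2⟩
    intro hX
    exact k3 ⟨hX, ReflTransGen.head ⟨hX, k4.1, w, k1, k2⟩ k4.2⟩
  obtain ⟨w1, a1, b1, p1, p2, p3, p4, p5⟩ := key h1 h1' hg1 hf1 h2 h2' hg2 hf2 hgg
  obtain ⟨w2, a2, b2, q1, q2, q3, q4, q5⟩ := key h2 h2' hg2 hf2 h1 h1' hg1 hf1 hgg.symm
  have e := hent w1 w2 a1 b1 a2 b2 p1 p2 p3 p4 q1 q2 q3 q4
  subst e
  have e := T_dart p2 q2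
  subst e
  rcases ReflTransGen.total_of_right_unique hru p5 q5 with h | h
  · exact hgg (hend h1 h1' hf1 h).symm
  · exact hgg (hend h2 h2' hf2 h)

/-! ### tops -/

theorem le_top (rk : V → ℕ) {v : V} {f : A} (h : P.inc v f) : rk v ≤ P.top rk f := by
  have h1 := Finset.le_sup (f := fun v => if P.inc v f then rk v else 0) (Finset.mem_univ v)
  simp only [if_pos h] at h1
  exact h1

theorem exists_top (rk : V → ℕ) (f : A) : ∃ v, P.inc v f ∧ rk v = P.top rk f := by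
  obtain ⟨v0, w0, h0⟩ := exists_T (P := P) f
  have hi0 : P.inc v0 f := ⟨w0, h0⟩
  obtain ⟨v, -, hv⟩ := Finset.exists_mem_eq_sup (Finset.univ : Finset V) ⟨v0, Finset.mem_univ _⟩
    (fun v => if P.inc v f then rk v else 0)
  by_cases h : P.inc v f
  · refine ⟨v, h, ?_⟩
    unfold top
    rw [hv, if_pos h]
  · refine ⟨v0, hi0, ?_⟩
    have h1 := le_top rk hi0
    have h2 : P.top rk f = 0 := by
      unfold top
      rw [hv, if_neg h]
    omega

theorem hi_inr {rk : V → ℕ} {t : ℕ} {f : A} : P.hi rk t (Sum.inr f) ↔ t < P.top rk f := Iff.rfl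

theorem inn_or (v : V) : P.inn v ∨ ∃ k, v = P.a k := by
  by_cases h : P.inn v
  · exact Or.inl h
  · unfold inn at h
    push Not at h
    exact Or.inr h

/-! ### labels -/

theorem LL.inc {rk : V → ℕ} {k : Fin 3} {f : A} {v : V} (h : P.LL rk k f v) : P.inc v f := h.1

theorem LL_two {rk : V → ℕ} {f : A} {v : V} : P.LL rk 2 f v ↔ P.inc v f ∧ rk v = P.top rk f := by
  unfold LL
  constructor
  · rintro ⟨h, h1 | h1 | h1⟩
    · exact ⟨h, h1.2⟩
    · exact absurd h1.1 (by decide)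
    · exact absurd h1.1 (by decide)
  · rintro ⟨h, h1⟩
    exact ⟨h, Or.inl ⟨rfl, h1⟩⟩

theorem LL_zero {rk : V → ℕ} {f : A} {v : V} : P.LL rk 0 f v ↔ P.inc v f ∧ rk v < P.top rk f ∧
    rk (P.nx f v) < P.top rk f ∧ rk v < rk (P.pv f v) := by
  unfold LL
  constructor
  · rintro ⟨h, h1 | h1 | h1⟩
    · exact absurd h1.1 (by decide)
    · exact ⟨h, h1.2⟩
    · exact absurd h1.1 (by decide)
  · rintro ⟨h, h1⟩
    exact ⟨h, Or.inr (Or.inl ⟨rfl, h1⟩)⟩

theorem LL_one {rk : V → ℕ} {f : A} {v : V} : P.LL rk 1 f v ↔ P.inc v f ∧ rk v < P.top rk f ∧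
    ¬ (rk (P.nx f v) < P.top rk f ∧ rk v < rk (P.pv f v)) := by
  unfold LL
  constructor
  · rintro ⟨h, h1 | h1 | h1⟩
    · exact absurd h1.1 (by decide)
    · exact absurd h1.1 (by decide)
    · exact ⟨h, h1.2⟩
  · rintro ⟨h, h1⟩
    exact ⟨h, Or.inr (Or.inr ⟨rfl, h1⟩)⟩

theorem LL_uniq {rk : V → ℕ} {k l : Fin 3} {f : A} {v : V} (h : P.LL rk k f v)
    (h' : P.LL rk l f v) : k = l := by
  obtain ⟨-, h⟩ := h
  obtain ⟨-, h'⟩ := h'
  rcases h with ⟨rfl, h1⟩ | ⟨rfl, h1, h2⟩ | ⟨rfl, h1, h2⟩ <;>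
    rcases h' with ⟨rfl, h1'⟩ | ⟨rfl, h1', h2'⟩ | ⟨rfl, h1', h2'⟩ <;>
    first | rfl | (exfalso; omega)

theorem exists_LL {rk : V → ℕ} {f : A} {v : V} (h : P.inc v f) : ∃ k, P.LL rk k f v := by
  have h1 := le_top rk h
  rcases h1.eq_or_lt with h2 | h2
  · exact ⟨2, LL_two.2 ⟨h, h2⟩⟩
  · by_cases h3 : rk (P.nx f v) < P.top rk f ∧ rk v < rk (P.pv f v)
    · exact ⟨0, LL_zero.2 ⟨h, h2, h3⟩⟩
    · exact ⟨1, LL_one.2 ⟨h, h2, h3⟩⟩

end StP

end Pool.RP
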