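import Pool.Agent.Lib.MP_9dcace_rp.CS0
import Pool.Agent.Lib.MP_9dcace_sx.C1
set_option autoImplicit false

/-!
Row CSa (helper76). The labels in a facet, from the facts `RkOrd P rk`.
label 2: rk v = top f; label 0: rk v < top f, rk (nx f v) < top f, rk v < rk (pv f v); label 1: the others.
-/

open Classical

namespace Pool.RP
open Pool.SX
open Relation

variable {V A : Type} [Fintype V] [Fintype A] {P : StP V A}

private theorem fin3 : ∀ k : Fin 3, k = 0 ∨ k = 1 ∨ k = 2 := by decide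

namespace StP

/-- induction around the polygon `f` -/
theorem poly_ind {f : A} {v w : V} (hv : P.inc v f) (hw : P.inc w f) (Z : V → Prop) (h0 : Z v)
    (hs : ∀ x y, P.T x y f → Z x → Z y) : Z w := by
  obtain ⟨v', hv'⟩ := hv
  obtain ⟨w', hw'⟩ := hw
  have hl := P.S.link (P.S.rot2 hv') (P.S.rot2 hw')
  have claim : ∀ y, ReflTransGen (fun x y => P.S.T (Sum.inr f) x y) (Sum.inl v) y →
      ∃ u, y = Sum.inl u ∧ Z u := by
    intro y hy
    induction hy with
    | refl => exact ⟨v, rfl, h0⟩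
    | @tail x y _ hstep ih =>
      obtain ⟨u, rfl, hu⟩ := ih
      rcases y with y | g
      · exact ⟨y, rfl, hs u y (P.S.rot hstep) hu⟩
      · exact absurd (P.S.rot2 hstep) (P.ff g f _)
  obtain ⟨u, hu, hZ⟩ := claim _ hl
  rw [Sum.inl.inj hu]
  exact hZ

theorem cyc {f : A} {v w : V} (hv : P.inc v f) (hw : P.inc w f) :
    ∃ n : ℕ, (P.nx f)^[n] v = w := by
  refine poly_ind hv hw (fun u => ∃ n : ℕ, (P.nx f)^[n] v = u) ⟨0, rfl⟩ ?_
  rintro x y hxy ⟨n, hn⟩
  refine ⟨n + 1, ?_⟩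
  rw [Function.iterate_succ_apply', hn, nx_eq hxy]

theorem LL_lt {rk : V → ℕ} {k : Fin 3} {f : A} {v : V} (h : P.LL rk k f v) (hk : k ≠ 2) :
    rk v < P.top rk f := by
  obtain ⟨-, h1 | h1 | h1⟩ := h
  · exact absurd h1.1 hk
  · exact h1.2.1
  · exact h1.2.1

end StP

namespace RkOrd

open StP

variable {rk : V → ℕ}

/-- a vertex between two top vertices is a top vertex -/
theorem sandwich (R : RkOrd P rk) {f : A} {u w z : V} (h1 : P.T u w f) (h2 : P.T w z f)
    (hu : rk u = P.top rk f) (hw : rk w < P.top rk f) : rk z < P.top rk f := by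
  by_contra hz
  have hz' : rk z = P.top rk f := le_antisymm (le_top rk (inc_of_T' h2)) (not_lt.mp hz)
  obtain ⟨u', hne, hi, hlt⟩ := R.k3a f w
  have := poly_ind (inc_of_T h2) hi (fun x => x = w ∨ rk x = P.top rk f) (Or.inl rfl) (by
    rintro x y hxy (rfl | hx)
    · right
      rw [← T_uniqR h2 hxy]
      exact hz'
    · rcases (le_top rk (inc_of_T' hxy)).lt_or_eq with hy | hy
      · left
        exact (R.k3d f u w x y h1 hxy hu hw hx hy).2.symm
      · exact Or.inr hy)
  rcases this with h | h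
  · exact hne h
  · exact hlt.ne h

theorem xleft (R : RkOrd P rk) {f : A} {u v : V} (h : P.T u v f) (hu : rk u = P.top rk f)
    (hv : rk v < P.top rk f) : P.LL rk 0 f v := by
  rw [LL_zero]
  refine ⟨inc_of_T' h, hv, R.sandwich h (T_nx (inc_of_T' h)) hu hv, ?_⟩
  rw [pv_eq h, hu]
  exact hv

theorem xright {f : A} {u v : V} (h : P.T u v f) (hu : rk u < P.top rk f)
    (hv : rk v = P.top rk f) : P.LL rk 1 f u := by
  rw [LL_one]
  refine ⟨inc_of_T h, hu, ?_⟩
  rintro ⟨h1, -⟩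
  rw [nx_eq h, hv] at h1
  exact lt_irrefl _ h1

/-- (K6) -/
theorem k6 (R : RkOrd P rk) {f : A} {v : V} (hv : P.inn v) (hi : P.inc v f)
    (ht : rk v < P.top rk f) : rk v < rk (P.pv f v) ∨ rk v < rk (P.nx f v) := by
  by_contra hcon
  push Not at hcon
  obtain ⟨hu, hw⟩ := hcon
  have hvw : P.T v (P.nx f v) f := T_nx hi
  have huv : P.T (P.pv f v) v f := T_pv hi
  obtain ⟨y, -, hy⟩ := P.S.opp hvw
  obtain ⟨z, -, hz⟩ := P.S.opp huv
  have hhf : P.hi rk (rk v) (Sum.inr f) := ht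
  have hy' : ¬ P.hi rk (rk v) y := by
    intro hh
    have h := R.k2 v (P.nx f v) (Sum.inr f) y hvw hy (fun h => hv 0 h.1) (fun h => hv 1 h.1)
    rw [max_eq_left hw] at h
    exact h ⟨hhf, hh⟩
  have hz' : ¬ P.hi rk (rk v) z := by
    intro hh
    have h := R.k2 v (P.pv f v) z (Sum.inr f) hz huv (fun h => hv 0 h.1) (fun h => hv 1 h.1)
    rw [max_eq_left hu] at h
    exact h ⟨hh, hhf⟩
  obtain ⟨g, hgf, ⟨x0, hg⟩, hgt⟩ := R.une v hv f
  have hl := P.S.link (P.S.rot huv) (P.S.rot (T_pv (inc_of_T hg)))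
  have claim : ∀ y', ReflTransGen (fun x y => P.S.T (Sum.inl v) x y) (Sum.inr f) y' →
      (∃ g', y' = Sum.inr g' ∧ (g' = f ∨ ¬ rk v < P.top rk g')) ∨
      (∃ x g', y' = Sum.inl x ∧ P.T x v g' ∧ (g' = f ∨ ¬ rk v < P.top rk g')) := by
    intro y' hy'
    induction hy' with
    | refl => exact Or.inl ⟨f, rfl, Or.inl rfl⟩
    | @tail p q _ hstep ih =>
      have hstep' : P.S.T (Sum.inl v) p q := hstep
      rcases ih with ⟨g', rfl, hg'⟩ | ⟨x, g', rfl, hx, hg'⟩
      · rcases q with x | h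
        · exact Or.inr ⟨x, g', rfl, P.S.rot2 hstep', hg'⟩
        · exact absurd (P.S.rot hstep') (P.ff g' h _)
      · obtain ⟨g'', rfl⟩ := inn_side hv hstep'
        left
        refine ⟨g'', rfl, ?_⟩
        by_cases hh : rk v < P.top rk g''
        · left
          rcases hg' with rfl | hg'
          · exfalso
            have e : x = P.pv g' v := T_uniqL hx huv
            rw [e] at hstep'
            have e2 := P.S.uniq hz hstep'
            rw [e2] at hz'
            exact hz' hh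
          · have e : P.nx f v = x := R.k1L (rk v) v (P.nx f v) x (Sum.inr f) y (Sum.inr g'')
              (Sum.inr g') le_rfl hvw hy hstep' hx hhf hy' hh hg'
            rw [← e] at hstep'
            exact Sum.inr.inj (P.S.uniq hstep' hvw)
        · exact Or.inr hh
  rcases claim _ hl with ⟨g', e, hg'⟩ | ⟨x, g', e, -⟩
  · have e' := Sum.inr.inj e
    rw [← e'] at hg'
    rcases hg' with h | h
    · exact hgf h
    · exact h hgt
  · exact absurd e (by simp)

theorem top_le (R : RkOrd P rk) (f : A) : P.top rk f ≤ rk (P.a 2) := by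
  obtain ⟨v, -, hv⟩ := exists_top (P := P) rk f
  rw [← hv]
  by_cases h : v = P.a 2
  · rw [h]
  · exact (R.high v h).le

theorem top_pos (R : RkOrd P rk) (f : A) : 0 < P.top rk f := by
  obtain ⟨u', -, -, h⟩ := R.k3a f (P.a 0)
  omega

/-- the next vertex has the same label or the next label -/
theorem nxl (R : RkOrd P rk) {k : Fin 3} {f : A} {v : V} (h : P.LL rk k f v) :
    P.LL rk k f (P.nx f v) ∨ P.LL rk (k + 1) f (P.nx f v) := by
  have hi := LL.inc h
  have hT : P.T v (P.nx f v) f := T_nx hi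
  have hk : k = 0 ∨ k = 1 ∨ k = 2 := fin3 k
  rcases hk with rfl | rfl | rfl
  · obtain ⟨-, h1, h2, h3⟩ := LL_zero.mp h
    obtain ⟨l, hl⟩ := exists_LL (rk := rk) (inc_nx hi)
    have hl' : l = 0 ∨ l = 1 ∨ l = 2 := fin3 l
    rcases hl' with rfl | rfl | rfl
    · exact Or.inl hl
    · exact Or.inr hl
    · exact absurd (LL_two.mp hl).2 h2.ne
  · obtain ⟨-, h1, h2⟩ := LL_one.mp h
    rcases (le_top rk (inc_nx hi)).lt_or_eq with h3 | h3
    · left
      obtain ⟨l, hl⟩ := exists_LL (rk := rk) (inc_nx hi)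
      have hl' : l = 0 ∨ l = 1 ∨ l = 2 := fin3 l
      rcases hl' with rfl | rfl | rfl
      · exfalso
        obtain ⟨-, -, h4, h5⟩ := LL_zero.mp hl
        rw [pv_nx hi] at h5
        have hv : P.inn v := by
          intro k hk
          have hk' : k = 0 ∨ k = 1 ∨ k = 2 := fin3 k
          rcases hk' with rfl | rfl | rfl
          · rw [hk, R.z0] at h5
            omega
          · rw [hk, R.z1] at h5
            omega
          · have := R.top_le f
            rw [hk] at h1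
            omega
        rcases R.k6 hv hi h1 with h6 | h6
        · exact h2 ⟨h3, h6⟩
        · omega
      · exact hl
      · exact absurd (LL_two.mp hl).2 h3.ne
    · right
      exact LL_two.mpr ⟨inc_nx hi, h3⟩
  · obtain ⟨-, h1⟩ := LL_two.mp h
    rcases (le_top rk (inc_nx hi)).lt_or_eq with h3 | h3
    · exact Or.inr (R.xleft hT h1 h3)
    · exact Or.inl (LL_two.mpr ⟨inc_nx hi, h3⟩)

theorem exists_change (R : RkOrd P rk) {k : Fin 3} {f : A} {v w : V} (h : P.LL rk k f v)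
    (hw : P.inc w f) (hn : ¬ P.LL rk k f w) :
    ∃ u, P.LL rk k f u ∧ P.LL rk (k + 1) f (P.nx f u) := by
  by_contra hcon
  push Not at hcon
  refine hn (poly_ind (LL.inc h) hw (fun u => P.LL rk k f u) h ?_)
  intro x y hxy hx
  rcases R.nxl hx with h1 | h1
  · rw [← nx_eq hxy]
    exact h1
  · exact absurd h1 (hcon x hx)

theorem tN_ex (R : RkOrd P rk) (k : Fin 3) (f : A) :
    ∃ u, P.LL rk k f u ∧ P.LL rk (k + 1) f (P.nx f u) := by
  obtain ⟨v2, hv2, hv2'⟩ := exists_top (P := P) rk f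
  have h2 : P.LL rk 2 f v2 := LL_two.mpr ⟨hv2, hv2'⟩
  obtain ⟨w, -, hw, hw'⟩ := R.k3a f v2
  obtain ⟨d, hd, hd'⟩ := R.exists_change h2 hw (fun h => hw'.ne (LL_two.mp h).2)
  have e0 : (2 : Fin 3) + 1 = 0 := by decide
  have e1 : (0 : Fin 3) + 1 = 1 := by decide
  have e2 : (1 : Fin 3) + 1 = 2 := by decide
  have hd0 : P.LL rk 0 f (P.nx f d) := by
    rw [← e0]; exact hd'
  obtain ⟨d0, h0, h0'⟩ := R.exists_change hd0 hv2 (fun h => by
    have := LL_uniq h h2
    revert this
    decide)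
  have hd1 : P.LL rk 1 f (P.nx f d0) := by
    rw [← e1]; exact h0'
  obtain ⟨d1, h1, h1'⟩ := R.exists_change hd1 hv2 (fun h => by
    have := LL_uniq h h2
    revert this
    decide)
  have hk : k = 0 ∨ k = 1 ∨ k = 2 := fin3 k
  rcases hk with rfl | rfl | rfl
  · exact ⟨d0, h0, h0'⟩
  · exact ⟨d1, h1, h1'⟩
  · exact ⟨d, hd, hd'⟩

/-- there is only one change from the label `k` to the label `k + 1` -/
theorem tU (R : RkOrd P rk) {k : Fin 3} {f : A} {v v' : V} (h1 : P.LL rk k f v)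
    (h2 : P.LL rk (k + 1) f (P.nx f v)) (h1' : P.LL rk k f v')
    (h2' : P.LL rk (k + 1) f (P.nx f v')) : v = v' := by
  have hT := T_nx (LL.inc h1)
  have hT' := T_nx (LL.inc h1')
  have e0 : (2 : Fin 3) + 1 = 0 := by decide
  have e1 : (0 : Fin 3) + 1 = 1 := by decide
  have e2 : (1 : Fin 3) + 1 = 2 := by decide
  have hk : k = 0 ∨ k = 1 ∨ k = 2 := fin3 k
  rcases hk with rfl | rfl | rfl
  · obtain ⟨d, hd, hd'⟩ := R.tN_ex 2 f
    rw [e0] at hd'
    have key : ∀ y, P.inc y f → P.LL rk 0 f y →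
        ReflTransGen (fun x y => P.T x y f ∧ P.LL rk 0 f y) (P.nx f d) y := by
      intro y hy
      refine poly_ind (LL.inc hd) hy (fun y => P.LL rk 0 f y →
        ReflTransGen (fun x y => P.T x y f ∧ P.LL rk 0 f y) (P.nx f d) y) ?_ ?_
      · intro h
        have := LL_uniq h hd
        exact absurd this (by decide)
      · intro x z hxz ih hz
        obtain ⟨l, hl⟩ := exists_LL (rk := rk) (inc_of_T hxz)
        have hz' := R.nxl hl
        rw [nx_eq hxz] at hz'
        have hl' : l = 0 ∨ l = 1 ∨ l = 2 := fin3 l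
        rcases hl' with rfl | rfl | rfl
        · exact ReflTransGen.tail (ih hl) ⟨hxz, hz⟩
        · exfalso
          rcases hz' with h | h
          · exact absurd (LL_uniq h hz) (by decide)
          · exact absurd (LL_uniq h hz) (by decide)
        · have e := (R.k3d f d (P.nx f d) x z (T_nx (LL.inc hd)) hxz (LL_two.mp hd).2
            (LL_lt hd' (by decide)) (LL_two.mp hl).2 (LL_lt hz (by decide))).2
          rw [e]
    have hstop : ∀ u u', P.LL rk 0 f u → P.LL rk (0 + 1) f (P.nx f u) →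
        ReflTransGen (fun x y => P.T x y f ∧ P.LL rk 0 f y) u u' → u = u' := by
      intro u u' _ hu2 hr
      rcases ReflTransGen.cases_head hr with h | ⟨c, ⟨hc1, hc2⟩, -⟩
      · exact h
      · exfalso
        rw [nx_eq hc1] at hu2
        exact absurd (LL_uniq hc2 hu2) (by decide)
    have hu : Relator.RightUnique (fun x y => P.T x y f ∧ P.LL rk 0 f y) :=
      fun x y z hy hz => T_uniqR hy.1 hz.1
    rcases ReflTransGen.total_of_right_unique hu (key v (LL.inc h1) h1)
      (key v' (LL.inc h1') h1') with h | h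
    · exact hstop v v' h1 h2 h
    · exact (hstop v' v h1' h2' h).symm
  · rw [e2] at h2 h2'
    exact (R.k3u f v _ v' _ hT hT' (LL_lt h1 (by decide)) (LL_two.mp h2).2
      (LL_lt h1' (by decide)) (LL_two.mp h2').2).1
  · rw [e0] at h2 h2'
    exact (R.k3d f v _ v' _ hT hT' (LL_two.mp h1).2 (LL_lt h2 (by decide)) (LL_two.mp h1').2
      (LL_lt h2' (by decide))).1

/-- `a 0` comes directly after the top vertices -/
theorem pv_a0 (R : RkOrd P rk) {f : A} (hi : P.inc (P.a 0) f) :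
    rk (P.pv f (P.a 0)) = P.top rk f := by
  have hT : P.T (P.pv f (P.a 0)) (P.a 0) f := T_pv hi
  by_contra hne
  have hlt : rk (P.pv f (P.a 0)) < P.top rk f := lt_of_le_of_ne (le_top rk (inc_pv hi)) hne
  have h1 : P.pv f (P.a 0) ≠ P.a 1 := by
    intro h
    rw [h] at hT
    exact no_out (k := 0) hT
  obtain ⟨y, -, hy⟩ := P.S.opp hT
  have h01 : P.a 0 ≠ P.a 1 := fun h => absurd (P.a_inj h) (by decide)
  have h2 := R.k2 (P.pv f (P.a 0)) (P.a 0) (Sum.inr f) y hT hy (fun h => h01 h.2)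
    (fun h => h1 h.1)
  rw [R.z0, Nat.max_zero] at h2
  by_cases h3 : P.hi rk (rk (P.pv f (P.a 0))) y
  · exact h2 ⟨hlt, h3⟩
  · exact h1 (R.k5a _ _ (Sum.inr f) y le_rfl hT hy hlt h3)

/-- `a 1` comes directly before the top vertices -/
theorem nx_a1 (R : RkOrd P rk) {f : A} (hi : P.inc (P.a 1) f) :
    rk (P.nx f (P.a 1)) = P.top rk f := by
  have hT : P.T (P.a 1) (P.nx f (P.a 1)) f := T_nx hi
  by_contra hne
  have hlt : rk (P.nx f (P.a 1)) < P.top rk f := lt_of_le_of_ne (le_top rk (inc_nx hi)) hne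
  have h1 : P.nx f (P.a 1) ≠ P.a 0 := by
    intro h
    rw [h] at hT
    exact no_out (k := 0) hT
  obtain ⟨y, -, hy⟩ := P.S.opp hT
  have h01 : P.a 1 ≠ P.a 0 := fun h => absurd (P.a_inj h) (by decide)
  have h2 := R.k2 (P.a 1) (P.nx f (P.a 1)) (Sum.inr f) y hT hy (fun h => h01 h.1)
    (fun h => h1 h.2)
  rw [R.z1, Nat.zero_max] at h2
  by_cases h3 : P.hi rk (rk (P.nx f (P.a 1))) y
  · exact h2 ⟨hlt, h3⟩
  · exact h1 (R.k5b _ _ (Sum.inr f) y le_rfl hT hy hlt h3)

theorem a0_top (R : RkOrd P rk) {f : A} (hi : P.inc (P.a 0) f) :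
    rk (P.pv f (P.a 0)) = P.top rk f := R.pv_a0 hi

theorem a1_top (R : RkOrd P rk) {f : A} (hi : P.inc (P.a 1) f) :
    rk (P.nx f (P.a 1)) = P.top rk f := R.nx_a1 hi

theorem top_a2 (R : RkOrd P rk) {f : A} (hi : P.inc (P.a 2) f) : rk (P.a 2) = P.top rk f :=
  le_antisymm (le_top rk hi) (R.top_le f)

/-- the label of an outer vertex is its own number -/
theorem lab' (R : RkOrd P rk) {k : Fin 3} {f : A} (hi : P.inc (P.a k) f) :
    P.LL rk k f (P.a k) := by
  have hk : k = 0 ∨ k = 1 ∨ k = 2 := fin3 k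
  rcases hk with rfl | rfl | rfl
  · refine R.xleft (T_pv hi) (R.pv_a0 hi) ?_
    rw [R.z0]
    exact R.top_pos f
  · refine xright (T_nx hi) ?_ (R.nx_a1 hi)
    rw [R.z1]
    exact R.top_pos f
  · exact LL_two.mpr ⟨hi, R.top_a2 hi⟩

theorem lab (R : RkOrd P rk) {j k : Fin 3} {f : A} (h : P.LL rk j f (P.a k)) : j = k :=
  LL_uniq h (R.lab' (LL.inc h))

end RkOrd

end Pool.RP
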