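import Pool.Agent.Lib.MP_9dcace_rp.CSa

/-!
MP_9dcace_co, library RP, section 2 (wood): the outgoing edges of an inner vertex and the edge rule.
Going counterclockwise around an inner vertex `v` the label of `v` grows by one at exactly three edges:
`outB c v` is the edge with the label `c + 1` on the right and `c + 2` on the left.
-/

set_option autoImplicit false

open Classical

namespace Pool.RP

open Pool.SX Relation

private theorem CSb_i1 : ∀ c : Fin 3, c + 1 + 1 = c + 2 := by decide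

private theorem CSb_i2 : ∀ c : Fin 3, c + 1 + 2 = c := by decide

private theorem CSb_i3 : ∀ c : Fin 3, c + 2 + 2 = c + 1 := by decide

private theorem CSb_i4 : ∀ c : Fin 3, c + 2 + 1 = c := by decide

private theorem CSb_i5 : ∀ j k : Fin 3, k = j + 1 → j = k + 2 := by decide

private theorem CSb_fin : ∀ k : Fin 3, k = 0 ∨ k = 1 ∨ k = 2 := by decide

variable {V A : Type} [Fintype V] [Fintype A]

namespace StP

/-- the two sides of an edge are different -/
theorem T_opp_ne {P : StP V A} {u v : V} {f g : A} (h : P.T u v f) (h' : P.T v u g) : g ≠ f := by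
  obtain ⟨z, hz, h1⟩ := P.S.opp h
  have h2 := P.S.uniq h1 h'
  intro e
  exact hz (by rw [h2, e])

/-- a label other than 2 : the facet is above -/
theorem LL.lt {P : StP V A} {rk : V → ℕ} {v : V} {f : A} {l : Fin 3} (h : P.LL rk l f v)
    (hl : l ≠ 2) : rk v < P.top rk f := by
  rcases (le_top rk h.inc).eq_or_lt with h1 | h1
  · exact absurd (LL_uniq h (LL_two.2 ⟨h.inc, h1⟩)) hl
  · exact h1

theorem LL.is2 {P : StP V A} {rk : V → ℕ} {v : V} {f : A} {l : Fin 3} (h : P.LL rk l f v)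
    (hl : P.top rk f ≤ rk v) : l = 2 :=
  LL_uniq h (LL_two.2 ⟨h.inc, le_antisymm (le_top rk h.inc) hl⟩)

variable (P : StP V A) (rk : V → ℕ)

/-- `v → y` is the edge of colour `c`: `v` has the label `c + 2` on its left, `c + 1` on its right -/
def IsOut (c : Fin 3) (v y : V) (f g : A) : Prop :=
  P.T v y f ∧ P.T y v g ∧ P.LL rk (c + 2) f v ∧ P.LL rk (c + 1) g v

/-- the outgoing edge of colour `c` -/
noncomputable def outB (c : Fin 3) (v : V) : V :=
  if h : ∃ y f g, P.IsOut rk c v y f g then Classical.choose h else v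

/-- the facet on the left of the outgoing edge -/
noncomputable def gLB (c : Fin 3) (v : V) : A :=
  if h : ∃ f, P.T v (P.outB rk c v) f then Classical.choose h else Classical.choose (exists_o (P := P) 0)

/-- the facet on the right of the outgoing edge -/
noncomputable def gRB (c : Fin 3) (v : V) : A :=
  if h : ∃ f, P.T (P.outB rk c v) v f then Classical.choose h else Classical.choose (exists_o (P := P) 0)

end StP

/-- the outgoing edges `v → out c v` and the facets `gL c v`, `gR c v` on their sides form a wood for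
the labels `LL rk` -/
structure Wood (P : StP V A) (rk : V → ℕ) (out : Fin 3 → V → V) (gL gR : Fin 3 → V → A) : Prop where
  lL : ∀ {v : V}, P.inn v → ∀ c, P.LL rk (c + 2) (gL c v) v
  nL : ∀ {v : V}, P.inn v → ∀ c, P.nx (gL c v) v = out c v
  lR : ∀ {v : V}, P.inn v → ∀ c, P.LL rk (c + 1) (gR c v) v
  nR : ∀ {v : V}, P.inn v → ∀ c, P.nx (gR c v) (out c v) = v
  iR : ∀ {v : V}, P.inn v → ∀ c, P.inc (out c v) (gR c v)
  lLR : ∀ {v : V}, P.inn v → ∀ c, P.LL rk c (gL c v) (out c v) ∨ P.LL rk c (gR c v) (out c v)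
  edge : ∀ {k : Fin 3} {g : A} {v : V}, P.LL rk k g v →
    (P.LL rk (k + 1) g (P.nx g v) ∧ ((v = P.a k ∧ P.nx g v = P.a (k + 1)) ∨
      (P.inn v ∧ g = gL (k + 1) v) ∨ (P.inn (P.nx g v) ∧ g = gR k (P.nx g v)))) ∨
    (P.LL rk k g (P.nx g v) ∧ P.inn v ∧ P.inn (P.nx g v) ∧ g = gL (k + 1) v ∧
      g = gR (k + 2) (P.nx g v))

namespace RkOrd

variable {P : StP V A} {rk : V → ℕ} (R : RkOrd P rk)

include R

theorem k2_inn {v y : V} {f g : A} (hv : P.inn v) (h : P.T v y f) (h' : P.T y v g) :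
    ¬ (max (rk v) (rk y) < P.top rk f ∧ max (rk v) (rk y) < P.top rk g) :=
  R.k2 v y (Sum.inr f) (Sum.inr g) h h' (fun e => hv 0 e.1) (fun e => hv 1 e.1)

/-- an edge with facets on both sides is not the base edge -/
theorem k2_T {v y : V} {f g : A} (h : P.T v y f) (h' : P.T y v g) :
    ¬ (max (rk v) (rk y) < P.top rk f ∧ max (rk v) (rk y) < P.top rk g) := by
  refine R.k2 v y (Sum.inr f) (Sum.inr g) h h' ?_ ?_
  · rintro ⟨rfl, rfl⟩
    exact StP.no_out (k := 0) h'
  · rintro ⟨rfl, rfl⟩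
    exact StP.no_out (k := 0) h

omit R in
private theorem CSb_e02 {v y : V} {f g : A} (h : P.T v y f) (h' : P.T y v g)
    (hf : P.LL rk 2 f v) (hg : P.LL rk 0 g v) : False := by
  have h1 := (StP.LL_two.1 hf).2
  have h2 := (StP.LL_zero.1 hg).2.2.2
  rw [StP.pv_eq h'] at h2
  have h3 := StP.le_top rk (StP.inc_of_T' h)
  omega

private theorem CSb_e10 {v y : V} {f g : A} (hv : P.inn v) (h : P.T v y f) (h' : P.T y v g)
    (hf : P.LL rk 0 f v) (hg : P.LL rk 1 g v) : False := by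
  obtain ⟨-, h1, h2, -⟩ := StP.LL_zero.1 hf
  rw [StP.nx_eq h] at h2
  obtain ⟨-, h3, h4⟩ := StP.LL_one.1 hg
  rw [StP.pv_eq h'] at h4
  have h5 := R.k2_inn hv h h'
  have h6 : max (rk v) (rk y) < P.top rk f := max_lt h1 h2
  have h7 : P.top rk g ≤ max (rk v) (rk y) := not_lt.1 fun h8 => h5 ⟨h6, h8⟩
  have h8 : P.top rk g ≤ rk y := by
    rcases le_max_iff.1 h7 with h8 | h8
    · omega
    · exact h8
  have h9 := StP.le_top rk (StP.inc_of_T h')
  have h10 := (StP.LL_zero.1 (R.xleft h' (by omega) h3)).2.2.1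
  exact h4 ⟨h10, by omega⟩

private theorem CSb_e21 {v y : V} {f g : A} (hv : P.inn v) (h : P.T v y f) (h' : P.T y v g)
    (hf : P.LL rk 1 f v) (hg : P.LL rk 2 g v) : False := by
  obtain ⟨h0, h1, h2⟩ := StP.LL_one.1 hf
  have h3 := (StP.LL_two.1 hg).2
  have h4 := StP.le_top rk (StP.inc_of_T h')
  have h5 := R.k6 hv h0 h1
  rw [StP.nx_eq h] at h2 h5
  rcases h5 with h5 | h5
  · exact h2 ⟨by omega, h5⟩
  · omega

/-- going counterclockwise around an inner vertex its label does not change or grows by one -/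
theorem step_lab {v y : V} {f g : A} {l m : Fin 3} (hv : P.inn v) (h : P.T v y f) (h' : P.T y v g)
    (hf : P.LL rk l f v) (hg : P.LL rk m g v) : l = m ∨ l = m + 1 := by
  have e1 : ∀ l m : Fin 3, (l = m ∨ l = m + 1) ∨ (l = 2 ∧ m = 0) ∨ (l = 0 ∧ m = 1) ∨ (l = 1 ∧ m = 2) := by
    decide
  rcases e1 l m with e | ⟨rfl, rfl⟩ | ⟨rfl, rfl⟩ | ⟨rfl, rfl⟩
  · exact e
  · exact (CSb_e02 h h' hf hg).elim
  · exact (R.CSb_e10 hv h h' hf hg).elim
  · exact (R.CSb_e21 hv h h' hf hg).elim

/-- there is only one edge at `v` where the label grows from `m` to `m + 1` -/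
theorem out_uniq {v y y' : V} {f g f' g' : A} {m : Fin 3} (hv : P.inn v)
    (h : P.T v y f) (h' : P.T y v g) (hf : P.LL rk (m + 1) f v) (hg : P.LL rk m g v)
    (k : P.T v y' f') (k' : P.T y' v g') (kf : P.LL rk (m + 1) f' v) (kg : P.LL rk m g' v) :
    y = y' := by
  have e1 : ∀ m : Fin 3, m = 0 ∨ m = 1 ∨ m = 2 := by decide
  rcases e1 m with rfl | rfl | rfl
  · -- exit from the label 0
    refine StP.uniq_exit hv (fun g => P.LL rk 0 g v) ?_ h' h hg
      (fun hh => absurd (StP.LL_uniq hf hh) (by decide)) k' k kg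
      (fun hh => absurd (StP.LL_uniq kf hh) (by decide))
    intro y1 y2 f1 g1 f2 g2 p1 p2 p3 p4 q1 q2 q3 q4
    have two : ∀ {y f g}, P.T y v g → P.T v y f → ¬ P.LL rk 0 g v → P.LL rk 0 f v → P.LL rk 2 g v := by
      intro y f g r1 r2 r3 r4
      obtain ⟨j, hj⟩ := StP.exists_LL (rk := rk) (StP.inc_of_T' r1)
      rcases R.step_lab hv r2 r1 r4 hj with e | e
      · subst e
        exact absurd hj r3
      · have e2 : ∀ j : Fin 3, 0 = j + 1 → j = 2 := by decide
        rw [e2 j e] at hj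
        exact hj
    have t1 := two p1 p2 p3 p4
    have t2 := two q1 q2 q3 q4
    refine R.k1L (rk v) v y1 y2 (Sum.inr f1) (Sum.inr g1) (Sum.inr f2) (Sum.inr g2) le_rfl p2 p1 q2 q1
      (p4.lt (by decide)) ?_ (q4.lt (by decide)) ?_
    · exact not_lt.2 (StP.LL_two.1 t1).2.ge
    · exact not_lt.2 (StP.LL_two.1 t2).2.ge
  · refine R.k1R (rk v) v y y' (Sum.inr f) (Sum.inr g) (Sum.inr f') (Sum.inr g') le_rfl h h' k k'
      ?_ (hg.lt (by decide)) ?_ (kg.lt (by decide))
    · exact not_lt.2 (StP.LL_two.1 hf).2.ge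
    · exact not_lt.2 (StP.LL_two.1 kf).2.ge
  · refine R.k1L (rk v) v y y' (Sum.inr f) (Sum.inr g) (Sum.inr f') (Sum.inr g') le_rfl h h' k k'
      (hf.lt (by decide)) ?_ (kf.lt (by decide)) ?_
    · exact not_lt.2 (StP.LL_two.1 hg).2.ge
    · exact not_lt.2 (StP.LL_two.1 kg).2.ge

/-- there is an edge at `v` where the label grows from `m` to `m + 1` -/
theorem out_ex {v : V} (hv : P.inn v) (m : Fin 3) :
    ∃ y f g, P.T v y f ∧ P.T y v g ∧ P.LL rk (m + 1) f v ∧ P.LL rk m g v := by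
  obtain ⟨d, hd, hd2⟩ := R.dne v hv
  obtain ⟨u, -, hu, hu2⟩ := R.une v hv d
  have m2 : ∃ y f g, P.T v y f ∧ P.T y v g ∧ P.LL rk 0 f v ∧ P.LL rk 2 g v := by
    obtain ⟨y, f, g, h1, h2, h3, h4⟩ := StP.around hv (fun g => P.LL rk 2 g v) hd hu
      (StP.LL_two.2 ⟨hd, hd2.symm⟩) (fun h => by have := (StP.LL_two.1 h).2; omega)
    obtain ⟨j, hj⟩ := StP.exists_LL (rk := rk) (StP.inc_of_T h2)
    rcases R.step_lab hv h2 h1 hj h3 with e | e
    · subst e
      exact absurd hj h4
    · rw [e] at hj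
      exact ⟨y, f, g, h2, h1, hj, h3⟩
  have e1 : ∀ m : Fin 3, m = 0 ∨ m = 1 ∨ m = 2 := by decide
  rcases e1 m with rfl | rfl | rfl
  · obtain ⟨y0, f0, g0, -, -, h0, -⟩ := m2
    obtain ⟨y, f, g, h1, h2, h3, h4⟩ := StP.around hv (fun g => P.LL rk 0 g v) h0.inc hd h0
      (fun h => absurd (StP.LL_uniq h (StP.LL_two.2 ⟨hd, hd2.symm⟩)) (by decide))
    obtain ⟨j, hj⟩ := StP.exists_LL (rk := rk) (StP.inc_of_T h2)
    rcases R.step_lab hv h2 h1 hj h3 with e | e
    · subst e
      exact absurd hj h4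
    · rw [e] at hj
      exact ⟨y, f, g, h2, h1, hj, h3⟩
  · obtain ⟨y, f, g, h1, h2, h3, h4⟩ := StP.around hv (fun g => ¬ P.LL rk 2 g v) hu hd
      (fun h => by have := (StP.LL_two.1 h).2; omega)
      (fun h => h (StP.LL_two.2 ⟨hd, hd2.symm⟩))
    have h4 : P.LL rk 2 f v := not_not.1 h4
    obtain ⟨j, hj⟩ := StP.exists_LL (rk := rk) (StP.inc_of_T' h1)
    rcases R.step_lab hv h2 h1 h4 hj with e | e
    · subst e
      exact absurd hj h3
    · have e2 : ∀ j : Fin 3, 2 = j + 1 → j = 1 := by decide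
      rw [e2 j e] at hj
      exact ⟨y, f, g, h2, h1, h4, hj⟩
  · exact m2

theorem out_isOut {v : V} (hv : P.inn v) (c : Fin 3) :
    P.IsOut rk c v (P.outB rk c v) (P.gLB rk c v) (P.gRB rk c v) := by
  have hex : ∃ y f g, P.IsOut rk c v y f g := by
    obtain ⟨y, f, g, h1, h2, h3, h4⟩ := R.out_ex hv (c + 1)
    rw [CSb_i1] at h3
    exact ⟨y, f, g, h1, h2, h3, h4⟩
  have e0 : P.outB rk c v = Classical.choose hex := by
    unfold StP.outB
    rw [dif_pos hex]
  obtain ⟨f, g, h1, h2, h3, h4⟩ := Classical.choose_spec hex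
  rw [← e0] at h1 h2
  have eL : P.gLB rk c v = f := by
    unfold StP.gLB
    have hx : ∃ f, P.T v (P.outB rk c v) f := ⟨f, h1⟩
    rw [dif_pos hx]
    exact StP.T_dart (Classical.choose_spec hx) h1
  have eR : P.gRB rk c v = g := by
    unfold StP.gRB
    have hx : ∃ f, P.T (P.outB rk c v) v f := ⟨g, h2⟩
    rw [dif_pos hx]
    exact StP.T_dart (Classical.choose_spec hx) h2
  rw [eL, eR]
  exact ⟨h1, h2, h3, h4⟩

theorem isOut_uniq {c : Fin 3} {v y : V} {f g : A} (hv : P.inn v) (h : P.IsOut rk c v y f g) :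
    y = P.outB rk c v ∧ f = P.gLB rk c v ∧ g = P.gRB rk c v := by
  have h' := R.out_isOut hv c
  obtain ⟨h1, h2, h3, h4⟩ := h
  obtain ⟨k1, k2, k3, k4⟩ := h'
  rw [← CSb_i1] at h3 k3
  have e1 : y = P.outB rk c v := R.out_uniq hv h1 h2 h3 h4 k1 k2 k3 k4
  refine ⟨e1, ?_, ?_⟩
  · rw [e1] at h1
    exact StP.T_dart h1 k1
  · rw [e1] at h2
    exact StP.T_dart h2 k2

/-- rule (I): the label of the inner vertex `v` is `k` on the left of `v → w` and not `k` on the right -/
theorem ruleI {k : Fin 3} {v w : V} {f f2 : A} (hv : P.inn v) (h : P.T v w f) (h2 : P.T w v f2)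
    (hk : P.LL rk k f v) (hn : ¬ P.LL rk k f2 v) : f = P.gLB rk (k + 1) v := by
  obtain ⟨j, hj⟩ := StP.exists_LL (rk := rk) (StP.inc_of_T' h2)
  have e : j = k + 2 := by
    rcases R.step_lab hv h h2 hk hj with e | e
    · subst e
      exact absurd hj hn
    · exact CSb_i5 j k e
  subst e
  refine (R.isOut_uniq (c := k + 1) hv ⟨h, h2, ?_, ?_⟩).2.1
  · rw [CSb_i2]
    exact hk
  · rw [CSb_i1]
    exact hj

/-- rule (II): the label of the inner vertex `w` is `k` on the right of `w → v` and not `k` on the left -/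
theorem ruleII {k : Fin 3} {v w : V} {f f2 : A} (hw : P.inn w) (h : P.T v w f) (h2 : P.T w v f2)
    (hk : P.LL rk k f w) (hn : ¬ P.LL rk k f2 w) : f = P.gRB rk (k + 2) w := by
  obtain ⟨j, hj⟩ := StP.exists_LL (rk := rk) (StP.inc_of_T h2)
  have e : j = k + 1 := by
    rcases R.step_lab hw h2 h hj hk with e | e
    · subst e
      exact absurd hj hn
    · exact e
  subst e
  refine (R.isOut_uniq (c := k + 2) hw ⟨h2, h, ?_, ?_⟩).2.2
  · rw [CSb_i3]
    exact hj
  · rw [CSb_i4]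
    exact hk

/-- a vertex of rank above another one is not a base vertex -/
private theorem CSb_ne {u v : V} (h : rk u < rk v) : v ≠ P.a 0 ∧ v ≠ P.a 1 := by
  constructor
  · rintro rfl
    have := R.z0
    omega
  · rintro rfl
    have := R.z1
    omega

omit R in
/-- a vertex which is not `a 0`, `a 1`, `a 2` is inner -/
private theorem CSb_inn {v : V} (h0 : v ≠ P.a 0) (h1 : v ≠ P.a 1) (h2 : v ≠ P.a 2) : P.inn v := by
  intro k
  rcases CSb_fin k with rfl | rfl | rfl
  · exact h0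
  · exact h1
  · exact h2

/-- `a 2` has the highest rank -/
private theorem CSb_top2 (v : V) : rk v ≤ rk (P.a 2) := by
  by_cases h : v = P.a 2
  · rw [h]
  · exact (R.high v h).le

/-- edge rule, equal labels -/
theorem er_eq {k : Fin 3} {v w : V} {f : A} (h : P.T v w f)
    (hv : P.LL rk k f v) (hw : P.LL rk k f w) :
    P.inn v ∧ P.inn w ∧ ∀ f2, P.T w v f2 → ¬ P.LL rk k f2 v ∧ ¬ P.LL rk k f2 w := by
  have hne : v ≠ w := StP.T_ne h
  -- equal labels in one facet: not both outer vertices; an outer vertex has its own label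
  rcases CSb_fin k with rfl | rfl | rfl
  · -- label 0
    obtain ⟨-, v1, v2, v3⟩ := StP.LL_zero.1 hv
    obtain ⟨-, w1, w2, w3⟩ := StP.LL_zero.1 hw
    rw [StP.nx_eq h] at v2
    rw [StP.pv_eq h] at w3
    obtain ⟨n0, n1⟩ := R.CSb_ne w3
    have n2 : v ≠ P.a 2 := by
      rintro rfl
      exact absurd (R.lab hv) (by decide)
    have iv : P.inn v := CSb_inn n0 n1 n2
    have iw : P.inn w := by
      obtain ⟨g, -, hg⟩ := StP.inn_opp iv h
      have hk2 := R.k2_inn iv h hg
      rw [max_eq_left w3.le] at hk2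
      have hg2 : ¬ rk v < P.top rk g := fun h8 => hk2 ⟨v1, h8⟩
      refine CSb_inn ?_ ?_ ?_
      · rintro rfl
        have := R.k5a (rk v) v (Sum.inr f) (Sum.inr g) le_rfl h hg v1 hg2
        exact n1 this
      · rintro rfl
        exact absurd (R.lab hw) (by decide)
      · rintro rfl
        exact absurd (R.lab hw) (by decide)
    refine ⟨iv, iw, fun g hg => ?_⟩
    have hk2 := R.k2_inn iv h hg
    rw [max_eq_left w3.le] at hk2
    have hg2 : ¬ rk v < P.top rk g := fun h8 => hk2 ⟨v1, h8⟩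
    have hg3 : rk v = P.top rk g := le_antisymm (StP.le_top rk (StP.inc_of_T' hg)) (not_lt.1 hg2)
    refine ⟨fun hh => ?_, fun hh => ?_⟩
    · exact absurd (hh.is2 (not_lt.1 hg2)) (by decide)
    · have h9 := xright hg (by omega) hg3
      exact absurd (StP.LL_uniq hh h9) (by decide)
  · -- label 1
    obtain ⟨v0, v1, v2⟩ := StP.LL_one.1 hv
    obtain ⟨-, w1, -⟩ := StP.LL_one.1 hw
    rw [StP.nx_eq h] at v2
    have n0 : v ≠ P.a 0 := by
      rintro rfl
      exact absurd (R.lab hv) (by decide)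
    have n2 : v ≠ P.a 2 := by
      rintro rfl
      exact absurd (R.lab hv) (by decide)
    have n1 : v ≠ P.a 1 := by
      rintro rfl
      have hs : P.hi rk (rk w) (Sum.inr f) := w1
      obtain ⟨z, -, hz⟩ := P.S.opp h
      have hk2 := R.k2 _ _ _ _ h hz (fun e => absurd (P.a_inj e.1) (by decide)) (by
        rintro ⟨-, rfl⟩
        exact StP.no_out (k := 0) h)
      have hm : max (rk (P.a 1)) (rk w) = rk w := by
        rw [R.z1]
        exact max_eq_right (Nat.zero_le _)
      rw [hm] at hk2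
      have := R.k5b (rk w) w (Sum.inr f) z le_rfl h hz hs (fun h8 => hk2 ⟨hs, h8⟩)
      subst this
      exact StP.no_out (k := 0) h
    have iv : P.inn v := CSb_inn n0 n1 n2
    have hlt : rk v < rk w := by
      rcases R.k6 iv v0 v1 with h5 | h5
      · exact absurd ⟨w1, h5⟩ v2
      · rwa [StP.nx_eq h] at h5
    obtain ⟨m0, m1⟩ := R.CSb_ne hlt
    have iw : P.inn w := CSb_inn m0 m1 (by
      rintro rfl
      exact absurd (R.lab hw) (by decide))
    refine ⟨iv, iw, fun g hg => ?_⟩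
    have hk2 := R.k2_inn iv h hg
    rw [max_eq_right hlt.le] at hk2
    have hg2 : ¬ rk w < P.top rk g := fun h8 => hk2 ⟨w1, h8⟩
    have hg3 : rk w = P.top rk g := le_antisymm (StP.le_top rk (StP.inc_of_T hg)) (not_lt.1 hg2)
    refine ⟨fun hh => ?_, fun hh => ?_⟩
    · have h9 := R.xleft hg hg3 (by omega)
      exact absurd (StP.LL_uniq hh h9) (by decide)
    · exact absurd (hh.is2 (not_lt.1 hg2)) (by decide)
  · -- label 2
    obtain ⟨v0, v1⟩ := StP.LL_two.1 hv
    obtain ⟨w0, w1⟩ := StP.LL_two.1 hw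
    have hpos : 0 < P.top rk f := by
      obtain ⟨u, -, -, hu⟩ := R.k3a f v
      omega
    have aux : ∀ x, rk x = P.top rk f → x ≠ P.a 2 → P.inn x := by
      intro x hx hx2
      refine CSb_inn ?_ ?_ hx2
      · rintro rfl
        have := R.z0
        omega
      · rintro rfl
        have := R.z1
        omega
    have nv : v ≠ P.a 2 := by
      rintro rfl
      have := R.high w (fun e => hne e.symm)
      omega
    have nw : w ≠ P.a 2 := by
      rintro rfl
      have := R.high v hne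
      omega
    refine ⟨aux v v1 nv, aux w w1 nw, fun g hg => ?_⟩
    have hgf : g ≠ f := StP.T_opp_ne h hg
    refine ⟨fun hh => ?_, fun hh => ?_⟩
    · exact hgf (R.k3c f v w hne v0 w0 v1 w1 g hh.inc (StP.LL_two.1 hh).2.symm)
    · exact hgf (R.k3c f w v hne.symm w0 v0 w1 v1 g hh.inc (StP.LL_two.1 hh).2.symm)

/-- edge rule, different labels -/
theorem er_ne {k : Fin 3} {v w : V} {f f2 : A} (h : P.T v w f) (h2 : P.T w v f2)
    (hv : P.LL rk k f v) (hw : P.LL rk (k + 1) f w) :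
    (P.inn v ∧ ¬ P.LL rk k f2 v) ∨ (P.inn w ∧ ¬ P.LL rk (k + 1) f2 w) := by
  have hk2 := R.k2_T h h2
  have tv := StP.le_top rk (StP.inc_of_T' h2)
  have tw := StP.le_top rk (StP.inc_of_T h2)
  rcases CSb_fin k with rfl | rfl | rfl
  · -- 0, 1
    have v1 := hv.lt (by decide)
    have w1 := hw.lt (by decide)
    have h3 : ¬ max (rk v) (rk w) < P.top rk f2 := fun h8 => hk2 ⟨max_lt v1 w1, h8⟩
    have v2 : v ≠ P.a 2 := by
      rintro rfl
      exact absurd (R.lab hv) (by decide)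
    have w2 : w ≠ P.a 2 := by
      rintro rfl
      exact absurd (R.lab hw) (by decide)
    have vn1 : v ≠ P.a 1 := by
      rintro rfl
      exact absurd (R.lab hv) (by decide)
    have wn0 : w ≠ P.a 0 := by
      rintro rfl
      exact absurd (R.lab hw) (by decide)
    rcases le_or_gt (rk w) (rk v) with h4 | h4
    · rw [max_eq_left h4] at h3
      left
      refine ⟨CSb_inn ?_ vn1 v2, fun hh => absurd (hh.is2 (not_lt.1 h3)) (by decide)⟩
      rintro rfl
      have hw0 : w = P.a 1 := by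
        by_contra hw1
        have := R.pos w wn0 hw1
        have := R.z0
        omega
      subst hw0
      exact StP.no_out (k := 0) h2
    · rw [max_eq_right h4.le] at h3
      right
      obtain ⟨m0, m1⟩ := R.CSb_ne h4
      exact ⟨CSb_inn m0 m1 w2, fun hh => absurd (hh.is2 (not_lt.1 h3)) (by decide)⟩
  · -- 1, 2
    have v1 := hv.lt (by decide)
    have w1 : rk w = P.top rk f := (StP.LL_two.1 hw).2
    obtain ⟨m0, m1⟩ := R.CSb_ne (u := v) (v := w) (by omega)
    rcases lt_or_ge (rk w) (P.top rk f2) with h4 | h4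
    · right
      refine ⟨CSb_inn m0 m1 ?_, fun hh => ?_⟩
      · rintro rfl
        obtain ⟨x, -, hx⟩ := StP.exists_top (P := P) rk f2
        have := R.CSb_top2 x
        omega
      · have := (StP.LL_two.1 hh).2
        omega
    · left
      have h5 := (R.k4 v w f f2 h h2 (by omega) (by omega) h4).1
      refine ⟨h5, fun hh => ?_⟩
      have h6 := R.xleft h2 (by omega) (by omega)
      exact absurd (StP.LL_uniq hh h6) (by decide)
  · -- 2, 0
    have hw : P.LL rk 0 f w := hw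
    have w1 := hw.lt (by decide)
    have v1 : rk v = P.top rk f := (StP.LL_two.1 hv).2
    obtain ⟨m0, m1⟩ := R.CSb_ne (u := w) (v := v) (by omega)
    rcases lt_or_ge (rk v) (P.top rk f2) with h4 | h4
    · left
      refine ⟨CSb_inn m0 m1 ?_, fun hh => ?_⟩
      · rintro rfl
        obtain ⟨x, -, hx⟩ := StP.exists_top (P := P) rk f2
        have := R.CSb_top2 x
        omega
      · have := (StP.LL_two.1 hh).2
        omega
    · right
      have h5 := (R.k4 w v f2 f h2 h (by omega) h4 (by omega)).1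
      refine ⟨h5, fun hh => ?_⟩
      have h6 := xright (rk := rk) h2 (by omega) (by omega)
      exact absurd (StP.LL_uniq (show P.LL rk 0 f2 w from hh) h6) (by decide)

/-- **the edge rule (ER)** for `outB`, `gLB`, `gRB` -/
theorem edgeB {k : Fin 3} {g : A} {v : V} (hv : P.LL rk k g v) :
    (P.LL rk (k + 1) g (P.nx g v) ∧ ((v = P.a k ∧ P.nx g v = P.a (k + 1)) ∨
      (P.inn v ∧ g = P.gLB rk (k + 1) v) ∨
      (P.inn (P.nx g v) ∧ g = P.gRB rk k (P.nx g v)))) ∨
    (P.LL rk k g (P.nx g v) ∧ P.inn v ∧ P.inn (P.nx g v) ∧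
      g = P.gLB rk (k + 1) v ∧ g = P.gRB rk (k + 2) (P.nx g v)) := by
  have h := StP.T_nx hv.inc
  rcases R.nxl hv with hw | hw
  · right
    obtain ⟨iv, iw, h3⟩ := R.er_eq h hv hw
    obtain ⟨f2, -, hf2⟩ := StP.inn_opp iv h
    obtain ⟨h4, h5⟩ := h3 f2 hf2
    exact ⟨hw, iv, iw, R.ruleI iv h hf2 hv h4, R.ruleII iw h hf2 hw h5⟩
  · left
    refine ⟨hw, ?_⟩
    rcases StP.opp_T h with ⟨f2, -, hf2⟩ | ⟨j, hj, hj'⟩
    · rcases R.er_ne h hf2 hv hw with ⟨iv, h4⟩ | ⟨iw, h4⟩
      · exact Or.inr (Or.inl ⟨iv, R.ruleI iv h hf2 hv h4⟩)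
      · refine Or.inr (Or.inr ⟨iw, ?_⟩)
        have h5 := R.ruleII iw h hf2 hw h4
        have e : k + 1 + 2 = k := CSb_i2 k
        rwa [e] at h5
    · left
      have e : k = j := by
        rw [hj] at hv
        exact R.lab hv
      subst e
      exact ⟨hj, hj'⟩

theorem lLB {v : V} (hv : P.inn v) (c : Fin 3) : P.LL rk (c + 2) (P.gLB rk c v) v :=
  (R.out_isOut hv c).2.2.1

theorem TLB {v : V} (hv : P.inn v) (c : Fin 3) : P.T v (P.outB rk c v) (P.gLB rk c v) :=
  (R.out_isOut hv c).1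

theorem nLB {v : V} (hv : P.inn v) (c : Fin 3) : P.nx (P.gLB rk c v) v = P.outB rk c v :=
  StP.nx_eq (R.TLB hv c)

theorem lRB {v : V} (hv : P.inn v) (c : Fin 3) : P.LL rk (c + 1) (P.gRB rk c v) v :=
  (R.out_isOut hv c).2.2.2

theorem TRB {v : V} (hv : P.inn v) (c : Fin 3) : P.T (P.outB rk c v) v (P.gRB rk c v) :=
  (R.out_isOut hv c).2.1

theorem nRB {v : V} (hv : P.inn v) (c : Fin 3) : P.nx (P.gRB rk c v) (P.outB rk c v) = v :=
  StP.nx_eq (R.TRB hv c)

theorem iRB {v : V} (hv : P.inn v) (c : Fin 3) : ∃ l, P.LL rk l (P.gRB rk c v) (P.outB rk c v) :=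
  StP.exists_LL (StP.inc_of_T (R.TRB hv c))

/-- `out c v` has the label `c` on at least one side -/
theorem lLRB {v : V} (hv : P.inn v) (c : Fin 3) :
    P.LL rk c (P.gLB rk c v) (P.outB rk c v) ∨ P.LL rk c (P.gRB rk c v) (P.outB rk c v) := by
  obtain ⟨h1, h2, h3, h4⟩ := R.out_isOut hv c
  rcases R.nxl h3 with h5 | h5
  · rw [StP.nx_eq h1] at h5
    obtain ⟨-, iy, -⟩ := R.er_eq h1 h3 h5
    right
    obtain ⟨j, hj⟩ := R.iRB hv c
    have h6 := R.nxl hj
    rw [StP.nx_eq h2] at h6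
    have h7 := R.step_lab iy h2 h1 hj h5
    have e : ∀ c j : Fin 3, (c + 1 = j ∨ c + 1 = j + 1) → (j = c + 2 ∨ j = c + 2 + 1) → j = c := by
      decide
    have h8 : c + 1 = j ∨ c + 1 = j + 1 := by
      rcases h6 with h6 | h6
      · exact Or.inl (StP.LL_uniq h4 h6)
      · exact Or.inr (StP.LL_uniq h4 h6)
    rw [e c j h8 h7] at hj
    exact hj
  · left
    rwa [StP.nx_eq h1, CSb_i4] at h5

/-- **the wood of a rank function** -/
theorem exists_wood : ∃ (out : Fin 3 → V → V) (gL gR : Fin 3 → V → A), Wood P rk out gL gR :=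
  ⟨P.outB rk, P.gLB rk, P.gRB rk,
    { lL := fun hv c => R.lLB hv c
      nL := fun hv c => R.nLB hv c
      lR := fun hv c => R.lRB hv c
      nR := fun hv c => R.nRB hv c
      iR := fun hv c => StP.inc_of_T (R.TRB hv c)
      lLR := fun hv c => R.lLRB hv c
      edge := fun h => R.edgeB h }⟩

end RkOrd

end Pool.RP
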