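import Pool.Agent.Lib.MP_9dcace_rp.Base

/-!
Row CSc (helper12). Potentials of the colours 0 and 1 of the Schnyder structure of section 2.
`CSc_H` : the facts on ranks and labels that are used (for colour 1 they hold in the mirror image).
`CSc_pot` : there is `r` which is constant on the labelled vertices of every facet and smaller at the
other vertices of the facet.
`CSc_pot0`, `CSc_pot1` : the same for an `RkOrd`, for the label 0 and in the mirror image for the label 1.
Induction on `t`: on the contour of `{rk ≤ t}` the values decrease in the direction of `a 1`, with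
equality exactly at the edges whose two ends are labelled in their left facet.
-/

set_option autoImplicit false

open Classical

namespace Pool.RP

open Pool.SX Relation

variable {V A : Type} [Fintype V] [Fintype A]

/-- the facet `z` is not inside `{rk ≤ t}` -/
def CSc_hi (top : A → ℕ) (t : ℕ) : V ⊕ A → Prop
  | Sum.inl _ => True
  | Sum.inr f => t < top f

/-- the facts used for the potential -/
structure CSc_H (S : Sph (V ⊕ A)) (a0 a1 : V) (rk : V → ℕ) (top : A → ℕ)
    (lab : A → V → Prop) : Prop where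
  z0 : rk a0 = 0
  z1 : rk a1 = 0
  ne : a0 ≠ a1
  ff : ∀ (f g : A) (z : V ⊕ A), ¬ S.T (Sum.inr f) (Sum.inr g) z
  tle : ∀ (v w : V) (f : A), S.T (Sum.inl v) (Sum.inl w) (Sum.inr f) → rk v ≤ top f
  tex : ∀ f : A, ∃ v w : V, S.T (Sum.inl v) (Sum.inl w) (Sum.inr f) ∧ rk v = top f
  k1 : ∀ (t : ℕ) (v w w' : V) (z y z' y' : V ⊕ A), rk v ≤ t →
    S.T (Sum.inl v) (Sum.inl w) z → S.T (Sum.inl w) (Sum.inl v) y →
    S.T (Sum.inl v) (Sum.inl w') z' → S.T (Sum.inl w') (Sum.inl v) y' →
    CSc_hi top t z → ¬ CSc_hi top t y → CSc_hi top t z' → ¬ CSc_hi top t y' → w = w'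
  k2 : ∀ (u v : V) (z y : V ⊕ A), S.T (Sum.inl u) (Sum.inl v) z → S.T (Sum.inl v) (Sum.inl u) y →
    ¬ (u = a0 ∧ v = a1) → ¬ (u = a1 ∧ v = a0) →
    ¬ (CSc_hi top (max (rk u) (rk v)) z ∧ CSc_hi top (max (rk u) (rk v)) y)
  k3a : ∀ f : A, ∃ u w : V, S.T (Sum.inl u) (Sum.inl w) (Sum.inr f) ∧ rk u < top f
  k3d : ∀ (f : A) (u v u' v' : V), S.T (Sum.inl u) (Sum.inl v) (Sum.inr f) →
    S.T (Sum.inl u') (Sum.inl v') (Sum.inr f) → rk u = top f → rk v < top f →
    rk u' = top f → rk v' < top f → v = v'
  k3c : ∀ (f : A) (u v : V), S.T (Sum.inl u) (Sum.inl v) (Sum.inr f) → rk u = top f →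
    rk v = top f → ∀ (w : V) (g : A), (S.T (Sum.inl u) (Sum.inl w) (Sum.inr g) ∨
      S.T (Sum.inl v) (Sum.inl w) (Sum.inr g)) → top g = top f → g = f
  b1 : ∀ (w : V) (f : A), S.T (Sum.inl a1) (Sum.inl w) (Sum.inr f) → rk w = top f
  pos : ∀ v, v ≠ a0 → v ≠ a1 → 0 < rk v
  l1 : ∀ (f : A) (v : V), lab f v → rk v < top f ∧ ∃ w, S.T (Sum.inl v) (Sum.inl w) (Sum.inr f)
  l2 : ∀ (f : A) (u v : V), S.T (Sum.inl u) (Sum.inl v) (Sum.inr f) → rk u = top f →
    rk v < top f → lab f v
  l3 : ∀ (f : A) (v w : V), S.T (Sum.inl v) (Sum.inl w) (Sum.inr f) → rk v < top f →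
    lab f w → lab f v
  l4 : ∀ (f : A) (v w : V), S.T (Sum.inl v) (Sum.inl w) (Sum.inr f) → rk w = top f → ¬ lab f v
  l5 : ∀ (f : A) (v w : V), S.T (Sum.inl v) (Sum.inl w) (Sum.inr f) → lab f v → lab f w →
    rk w < rk v

private theorem CSc_between (r : V → ℝ) (B : V → Prop) (b : ℝ) (hb : ∀ p, B p → b < r p) :
    ∃ z : ℝ, b < z ∧ ∀ p : V, B p → z < r p := by
  have h1 : ∀ᶠ z in nhdsWithin b (Set.Ioi b), ∀ p : V, B p → z < r p := by
    rw [Filter.eventually_all]
    intro p
    by_cases hp : B p
    · filter_upwards [(eventually_lt_nhds (hb p hp)).filter_mono nhdsWithin_le_nhds] with z hz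
      intro _
      exact hz
    · exact Filter.Eventually.of_forall (fun z h => absurd h hp)
  have h2 : ∀ᶠ z in nhdsWithin b (Set.Ioi b), b < z := self_mem_nhdsWithin
  obtain ⟨z, hz1, hz2⟩ := (h1.and h2).exists
  exact ⟨z, hz2, hz1⟩

private theorem CSc_below (r : V → ℝ) : ∃ z : ℝ, ∀ p : V, z < r p := by
  rcases isEmpty_or_nonempty V with hV | hV
  · exact ⟨0, fun p => (hV.false p).elim⟩
  · obtain ⟨p, hp⟩ := Finite.exists_min r
    exact ⟨r p - 1, fun q => by have := hp q; linarith⟩

/-- extension of the potential to the new vertices `N`; `K v w` : `w` is the successor of `v`,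
`E v w` : equal values are wanted, `B v x` : `x` is admissible at `v` -/
private theorem CSc_ext (N : V → Prop) (K E : V → V → Prop) (B : V → ℝ → Prop) (r : V → ℝ)
    (hK : ∀ v w w', N v → K v w → K v w' → w = w')
    (hwf : WellFounded (fun w v => N v ∧ N w ∧ K v w))
    (hB0 : ∀ v, N v → ∃ x, B v x)
    (hB : ∀ v b, N v → B v b → ∃ z, b < z ∧ B v z)
    (hBo : ∀ v w, N v → K v w → ¬ N w → B v (r w))
    (hBn : ∀ v w x, N v → N w → K v w → B w x → B v x) :
    ∃ r' : V → ℝ, (∀ v, ¬ N v → r' v = r v) ∧ ∀ v, N v → B v (r' v) ∧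
      (∀ w, N w → K v w → r' w < r' v) ∧
      (∀ w, ¬ N w → K v w → (E v w → r' v = r w) ∧ (¬ E v w → r w < r' v)) := by
  let F : (v : V) → ((w : V) → (N v ∧ N w ∧ K v w) → ℝ) → ℝ := fun v ih =>
    if hN : N v then
      (if h : ∃ w, N w ∧ K v w then
        Classical.epsilon (fun z : ℝ => ih h.choose ⟨hN, h.choose_spec.1, h.choose_spec.2⟩ < z ∧ B v z)
      else (if h' : ∃ w, K v w then
        (if E v h'.choose then r h'.choose else
          Classical.epsilon (fun z : ℝ => r h'.choose < z ∧ B v z))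
      else Classical.epsilon (fun z : ℝ => B v z)))
    else r v
  let r' : V → ℝ := hwf.fix F
  have hr' : ∀ v, r' v = F v (fun w _ => r' w) := fun v => hwf.fix_eq F v
  refine ⟨r', ?_, ?_⟩
  · intro v hv
    rw [hr' v]
    simp only [F]
    rw [dif_neg hv]
  · intro v
    induction v using hwf.induction with
    | _ v ih =>
      intro hN
      by_cases h : ∃ w, N w ∧ K v w
      · have hw := h.choose_spec
        have e : r' v = Classical.epsilon (fun z : ℝ => r' h.choose < z ∧ B v z) := by
          rw [hr' v]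
          simp only [F]
          rw [dif_pos hN, dif_pos h]
        have hBw : B h.choose (r' h.choose) := (ih h.choose ⟨hN, hw.1, hw.2⟩ hw.1).1
        have hex := hB v (r' h.choose) hN (hBn v h.choose _ hN hw.1 hw.2 hBw)
        have hsp := Classical.epsilon_spec hex
        rw [← e] at hsp
        refine ⟨hsp.2, ?_, ?_⟩
        · intro w _ hKw
          rw [hK v w h.choose hN hKw hw.2]
          exact hsp.1
        · intro w hNw hKw
          rw [hK v w h.choose hN hKw hw.2] at hNw
          exact absurd hw.1 hNw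
      · by_cases h' : ∃ w, K v w
        · have hw := h'.choose_spec
          have hNw : ¬ N h'.choose := fun hn => h ⟨_, hn, hw⟩
          by_cases hE : E v h'.choose
          · have e : r' v = r h'.choose := by
              rw [hr' v]
              simp only [F]
              rw [dif_pos hN, dif_neg h, dif_pos h', if_pos hE]
            refine ⟨?_, ?_, ?_⟩
            · rw [e]
              exact hBo v _ hN hw hNw
            · intro w hn hKw
              exact absurd ⟨w, hn, hKw⟩ h
            · intro w _ hKw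
              rw [hK v w h'.choose hN hKw hw]
              exact ⟨fun _ => e, fun hc => absurd hE hc⟩
          · have e : r' v = Classical.epsilon (fun z : ℝ => r h'.choose < z ∧ B v z) := by
              rw [hr' v]
              simp only [F]
              rw [dif_pos hN, dif_neg h, dif_pos h', if_neg hE]
            have hex := hB v (r h'.choose) hN (hBo v _ hN hw hNw)
            have hsp := Classical.epsilon_spec hex
            rw [← e] at hsp
            refine ⟨hsp.2, ?_, ?_⟩
            · intro w hn hKw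
              exact absurd ⟨w, hn, hKw⟩ h
            · intro w _ hKw
              rw [hK v w h'.choose hN hKw hw]
              exact ⟨fun hc => absurd hc hE, fun _ => hsp.1⟩
        · have e : r' v = Classical.epsilon (fun z : ℝ => B v z) := by
            rw [hr' v]
            simp only [F]
            rw [dif_pos hN, dif_neg h, dif_neg h']
          have hsp := Classical.epsilon_spec (hB0 v hN)
          rw [← e] at hsp
          refine ⟨hsp, ?_, ?_⟩
          · intro w _ hKw
            exact absurd ⟨w, hKw⟩ h'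
          · intro w _ hKw
            exact absurd ⟨w, hKw⟩ h'

namespace CSc_H

variable {S : Sph (V ⊕ A)} {a0 a1 : V} {rk : V → ℕ} {top : A → ℕ} {lab : A → V → Prop}

private theorem nxt (H : CSc_H S a0 a1 rk top lab) {v w : V} {f : A}
    (h : S.T (Sum.inl v) (Sum.inl w) (Sum.inr f)) :
    ∃ w', S.T (Sum.inl w) (Sum.inl w') (Sum.inr f) := by
  obtain ⟨x, _, hx⟩ := S.opp (S.rot h)
  have hx' := S.rot hx
  cases x with
  | inl w' => exact ⟨w', hx'⟩
  | inr g => exact absurd (S.rot hx') (H.ff _ _ _)

private theorem prv (H : CSc_H S a0 a1 rk top lab) {v w : V} {f : A}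
    (h : S.T (Sum.inl v) (Sum.inl w) (Sum.inr f)) :
    ∃ u, S.T (Sum.inl u) (Sum.inl v) (Sum.inr f) := by
  obtain ⟨x, _, hx⟩ := S.opp (S.rot (S.rot h))
  have hx' := S.rot (S.rot hx)
  cases x with
  | inl w' => exact ⟨w', hx'⟩
  | inr g => exact absurd (S.rot hx) (H.ff _ _ _)


/-- the invariant on the contour of `{rk ≤ t}` and on the facets inside -/
private def Inv (S : Sph (V ⊕ A)) (a0 a1 : V) (rk : V → ℕ) (top : A → ℕ) (lab : A → V → Prop)
    (t : ℕ) (r : V → ℝ) : Prop :=
  (∀ (v w : V) (z : V ⊕ A) (g : A), rk v ≤ t → rk w ≤ t → v ≠ a1 →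
    S.T (Sum.inl v) (Sum.inl w) z → CSc_hi top t z → S.T (Sum.inl w) (Sum.inl v) (Sum.inr g) →
    top g ≤ t →
    ((∃ f, z = Sum.inr f ∧ lab f v ∧ lab f w) → r w = r v) ∧
    ((¬ ∃ f, z = Sum.inr f ∧ lab f v ∧ lab f w) → r w < r v)) ∧
  r a1 < r a0 ∧
  (∀ (f : A) (u v w : V), top f ≤ t → S.T (Sum.inl u) (Sum.inl w) (Sum.inr f) → lab f v →
    (lab f u → r u = r v) ∧ (¬ lab f u → r u < r v))

/-- lower arc of a new facet -/
private theorem low (H : CSc_H S a0 a1 rk top lab) {t : ℕ} {r : V → ℝ}
    (I : Inv S a0 a1 rk top lab t r) {f : A} (hf : top f = t + 1) {v w : V}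
    (h : S.T (Sum.inl v) (Sum.inl w) (Sum.inr f)) (hv : rk v < top f) (hw : rk w < top f) :
    (lab f v ∧ lab f w → r w = r v) ∧ (¬ (lab f v ∧ lab f w) → r w < r v) := by
  have hva : v ≠ a1 := by
    rintro rfl
    have := H.b1 w f h
    omega
  by_cases h01 : v = a0 ∧ w = a1
  · obtain ⟨rfl, rfl⟩ := h01
    obtain ⟨w', hw'⟩ := H.nxt h
    have h1 : ¬ lab f w := H.l4 f w w' hw' (H.b1 w' f hw')
    exact ⟨fun hc => absurd hc.2 h1, fun _ => I.2.1⟩
  · obtain ⟨y, hy1, hy⟩ := S.opp h
    have hk := H.k2 v w (Sum.inr f) y h hy h01 (fun hc => hva hc.1)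
    have hs : ¬ CSc_hi top (max (rk v) (rk w)) y := by
      intro hc
      apply hk
      refine ⟨?_, hc⟩
      show max (rk v) (rk w) < top f
      exact max_lt hv hw
    cases y with
    | inl y => exact absurd trivial hs
    | inr g =>
      have hg : top g ≤ t := by
        have : ¬ (max (rk v) (rk w) < top g) := hs
        have h2 : max (rk v) (rk w) < t + 1 := max_lt (by omega) (by omega)
        omega
      have hI := I.1 v w (Sum.inr f) g (by omega) (by omega) hva h
        (show t < top f by omega) hy hg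
      refine ⟨fun hc => hI.1 ⟨f, rfl, hc.1, hc.2⟩, fun hc => hI.2 ?_⟩
      rintro ⟨f', e, h1, h2⟩
      have e' : f = f' := Sum.inr_injective e
      rw [← e'] at h1 h2
      exact hc ⟨h1, h2⟩

/-- every facet has a first lower vertex -/
private theorem first (H : CSc_H S a0 a1 rk top lab) (f : A) :
    ∃ u x, S.T (Sum.inl u) (Sum.inl x) (Sum.inr f) ∧ rk u = top f ∧ rk x < top f := by
  obtain ⟨v, w, hvw, hv⟩ := H.tex f
  obtain ⟨u, w', huw, hu⟩ := H.k3a f
  have hl := S.link (S.rot (S.rot hvw)) (S.rot (S.rot huw))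
  by_contra hno
  have key : ∀ z, ReflTransGen (fun x y => S.T (Sum.inr f) x y) (Sum.inl v) z →
      ∀ y, z = Sum.inl y → rk y = top f := by
    intro z hz
    induction hz with
    | refl =>
      intro y hy
      rw [← Sum.inl_injective hy]
      exact hv
    | @tail b c _ hbc ih =>
      intro y hy
      subst hy
      cases b with
      | inr g => exact absurd hbc (H.ff _ _ _)
      | inl x =>
        have hx := ih x rfl
        have h1 : S.T (Sum.inl x) (Sum.inl y) (Sum.inr f) := S.rot hbc
        by_contra hne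
        obtain ⟨y', hy'⟩ := H.nxt h1
        have := H.tle y y' f hy'
        exact hno ⟨x, y, h1, hx, by omega⟩
  have := key _ hl u rfl
  omega

/-- values at the lower vertices of a new facet -/
private theorem face (H : CSc_H S a0 a1 rk top lab) {t : ℕ} {r : V → ℝ}
    (I : Inv S a0 a1 rk top lab t r) {f : A} (hf : top f = t + 1) {u x : V}
    (h : S.T (Sum.inl u) (Sum.inl x) (Sum.inr f)) (hu : rk u = top f) (hx : rk x < top f)
    {y w : V} (hy : S.T (Sum.inl y) (Sum.inl w) (Sum.inr f)) (hy1 : rk y < top f) :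
    (lab f y → r y = r x) ∧ (¬ lab f y → r y < r x) := by
  obtain ⟨x', hx'⟩ := H.nxt h
  have hl := S.link (S.rot (S.rot hx')) (S.rot (S.rot hy))
  have hlx : lab f x := H.l2 f u x h hu hx
  have key : ∀ z, ReflTransGen (fun x y => S.T (Sum.inr f) x y) (Sum.inl x) z →
      ∀ y, z = Sum.inl y → rk y < top f → (lab f y → r y = r x) ∧ (¬ lab f y → r y < r x) := by
    intro z hz
    induction hz with
    | refl =>
      intro y hy _
      rw [← Sum.inl_injective hy]
      exact ⟨fun _ => rfl, fun hc => absurd hlx hc⟩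
    | @tail b c _ hbc ih =>
      intro y hy hy1
      subst hy
      cases b with
      | inr g => exact absurd hbc (H.ff _ _ _)
      | inl b =>
        have h1 : S.T (Sum.inl b) (Sum.inl y) (Sum.inr f) := S.rot hbc
        by_cases hb : rk b < top f
        · have hA := H.low I hf h1 hb hy1
          have hB := ih b rfl hb
          constructor
          · intro hl'
            have hlb := H.l3 f b y h1 hb hl'
            rw [hA.1 ⟨hlb, hl'⟩]
            exact hB.1 hlb
          · intro hl'
            have h3 := hA.2 (fun hc => hl' hc.2)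
            by_cases hlb : lab f b
            · have := hB.1 hlb
              linarith
            · have := hB.2 hlb
              linarith
        · have hb' : rk b = top f := by
            have := H.tle b y f h1
            omega
          have e : x = y := H.k3d f u x b y h h1 hu hx hb' hy1
          rw [← e]
          exact ⟨fun _ => rfl, fun hc => absurd hlx hc⟩
  exact key _ hl y rfl hy1

/-- the old successor of a new vertex has a smaller value than the labelled vertices -/
private theorem around (H : CSc_H S a0 a1 rk top lab) {t : ℕ} {r : V → ℝ}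
    (I : Inv S a0 a1 rk top lab t r) {v y' : V} {z : V ⊕ A} {g' : A} (hv : rk v = t + 1)
    (hy : rk y' ≤ t) (h1 : S.T (Sum.inl v) (Sum.inl y') z) (h2 : CSc_hi top (t + 1) z)
    (h3 : S.T (Sum.inl y') (Sum.inl v) (Sum.inr g')) (h4 : top g' ≤ t + 1) {f : A} {w : V}
    (hf : S.T (Sum.inl v) (Sum.inl w) (Sum.inr f)) (hf' : top f ≤ t + 1) {p : V}
    (hp : lab f p) : r y' < r p := by
  obtain ⟨u0, hu0⟩ := H.prv hf
  have hl := S.link (S.rot hu0) h1
  have key : ∀ x, ReflTransGen (fun x y => S.T (Sum.inl v) x y) x (Sum.inl y') →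
      (∀ f, x = Sum.inr f → top f ≤ t + 1 → ∀ p, lab f p → r y' < r p) ∧
      (∀ u f, x = Sum.inl u → S.T (Sum.inl u) (Sum.inl v) (Sum.inr f) → top f ≤ t + 1 →
        rk u ≤ t → r y' ≤ r u) := by
    intro x hx
    induction hx using ReflTransGen.head_induction_on with
    | refl =>
      refine ⟨fun f e => absurd e (by simp), fun u f e _ _ _ => ?_⟩
      rw [Sum.inl_injective e]
    | @head x x' hxx _ ih =>
      refine ⟨?_, ?_⟩
      · intro f e hf1 p hp
        subst e
        cases x' with
        | inr g => exact absurd (S.rot hxx) (H.ff _ _ _)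
        | inl u =>
          have hT : S.T (Sum.inl u) (Sum.inl v) (Sum.inr f) := S.rot (S.rot hxx)
          obtain ⟨w1, hw1⟩ := H.nxt hT
          have hf2 : top f = t + 1 := by
            have := H.tle v w1 f hw1
            omega
          have hu : rk u ≤ t := by
            by_contra hc
            have hu1 := H.tle u v f hT
            obtain ⟨z2, hz2, hz3⟩ := S.opp hT
            have hhi : CSc_hi top (t + 1) z2 := by
              cases z2 with
              | inl _ => trivial
              | inr g2 =>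
                show t + 1 < top g2
                by_contra hc2
                have h6 := H.tle v u g2 hz3
                have e2 := H.k3c f u v hT (by omega) (by omega) u g2 (Or.inr hz3) (by omega)
                exact hz2 (by rw [e2])
            have e3 : u = y' := H.k1 (t + 1) v u y' z2 (Sum.inr f) z (Sum.inr g') (by omega)
              hz3 hT h1 h3 hhi (show ¬ (t + 1 < top f) by omega) h2
              (show ¬ (t + 1 < top g') by omega)
            rw [e3] at hc
            exact hc hy
          have h7 := ih.2 u f rfl hT hf1 hu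
          obtain ⟨u1, x1, hux, hu1, hx1⟩ := H.first f
          obtain ⟨hp1, w2, hw2⟩ := H.l1 f p hp
          have h8 := (H.face I hf2 hux hu1 hx1 hw2 hp1).1 hp
          have h9 := (H.face I hf2 hux hu1 hx1 hT (by omega)).2
            (H.l4 f u v hT (by omega))
          linarith
      · intro u f e hT hf1 hu
        subst e
        by_cases hhi : CSc_hi top (t + 1) x'
        · have e3 : u = y' := H.k1 (t + 1) v u y' x' (Sum.inr f) z (Sum.inr g') (by omega)
              hxx hT h1 h3 hhi (show ¬ (t + 1 < top f) by omega) h2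
              (show ¬ (t + 1 < top g') by omega)
          rw [e3]
        · cases x' with
          | inl _ => exact absurd trivial hhi
          | inr g =>
            have hg : top g ≤ t + 1 := by
              have : ¬ (t + 1 < top g) := hhi
              omega
            have hg2 := H.tle v u g hxx
            exact (ih.1 g rfl hg u (H.l2 g v u hxx (by omega) (by omega))).le
  exact (key _ hl).1 f rfl hf' p hp


/-- there is no cycle of top vertices in a facet -/
private theorem nocyc (H : CSc_H S a0 a1 rk top lab) {g : A} {x : V}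
    (h : TransGen (fun x y => S.T (Sum.inl x) (Sum.inl y) (Sum.inr g) ∧ rk x = top g ∧
      rk y = top g) x x) : False := by
  obtain ⟨u, w', huw, hu⟩ := H.k3a g
  obtain ⟨x1, ⟨hx1, _, _⟩, _⟩ := TransGen.head'_iff.1 h
  have hl := S.link (S.rot (S.rot hx1)) (S.rot (S.rot huw))
  have key : ∀ z, ReflTransGen (fun x y => S.T (Sum.inr g) x y) (Sum.inl x) z →
      ∀ y, z = Sum.inl y → ReflTransGen (fun x y => S.T (Sum.inl x) (Sum.inl y) (Sum.inr g) ∧
        rk x = top g ∧ rk y = top g) y x := by
    intro z hz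
    induction hz with
    | refl =>
      intro y hy
      rw [Sum.inl_injective hy]
    | @tail b c _ hbc ih =>
      intro y hy
      subst hy
      cases b with
      | inr g => exact absurd hbc (H.ff _ _ _)
      | inl b =>
        have h1 := ih b rfl
        have h2 := TransGen.trans_right h1 h
        obtain ⟨y2, ⟨hy2, _, _⟩, hr⟩ := TransGen.head'_iff.1 h2
        have e : (Sum.inl y : V ⊕ A) = Sum.inl y2 := S.uniq hbc (S.rot (S.rot hy2))
        rw [Sum.inl_injective e]
        exact hr
  have h3 := TransGen.trans_right (key _ hl u rfl) h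
  obtain ⟨_, ⟨_, hu2, _⟩, _⟩ := TransGen.head'_iff.1 h3
  omega

/-- the successor relation of the contour of `{rk ≤ t}` -/
private def K (S : Sph (V ⊕ A)) (top : A → ℕ) (t : ℕ) (v w : V) : Prop :=
  ∃ (z : V ⊕ A) (g : A), S.T (Sum.inl v) (Sum.inl w) z ∧ CSc_hi top t z ∧
    S.T (Sum.inl w) (Sum.inl v) (Sum.inr g) ∧ top g ≤ t

private theorem wf (H : CSc_H S a0 a1 rk top lab) (t : ℕ) :
    WellFounded (fun w v => rk v = t ∧ rk w = t ∧ K S top t v w) := by
  have hstep : ∀ x y, TransGen (fun w v => rk v = t ∧ rk w = t ∧ K S top t v w) x y →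
      ∃ g, top g = t ∧ TransGen (fun x y => S.T (Sum.inl x) (Sum.inl y) (Sum.inr g) ∧
        rk x = top g ∧ rk y = top g) x y := by
    intro x y h
    induction h with
    | single h =>
      obtain ⟨h1, h2, z, g, _, _, h3, h4⟩ := h
      have h5 := H.tle _ _ _ h3
      refine ⟨g, by omega, TransGen.single ⟨h3, by omega, by omega⟩⟩
    | @tail b c _ hbc ih =>
      obtain ⟨g, hg, hT⟩ := ih
      obtain ⟨h1, h2, z, g', _, _, h3, h4⟩ := hbc
      have h5 := H.tle _ _ _ h3
      obtain ⟨b0, _, hb0, hb1, hb2⟩ := TransGen.tail'_iff.1 hT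
      have e : g' = g := H.k3c g b0 b hb0 hb1 hb2 c g' (Or.inr h3) (by omega)
      rw [e] at h3
      exact ⟨g, hg, TransGen.tail hT ⟨h3, by omega, by omega⟩⟩
  have hirr : ∀ x, ¬ TransGen (fun w v => rk v = t ∧ rk w = t ∧ K S top t v w) x x := by
    intro x h
    obtain ⟨g, _, hT⟩ := hstep x x h
    exact H.nocyc hT
  have h1 : WellFounded (TransGen (fun w v => rk v = t ∧ rk w = t ∧ K S top t v w)) := by
    have : IsTrans V (TransGen (fun w v => rk v = t ∧ rk w = t ∧ K S top t v w)) :=
      ⟨fun _ _ _ h1 h2 => h1.trans h2⟩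
    have : Std.Irrefl (TransGen (fun w v => rk v = t ∧ rk w = t ∧ K S top t v w)) := ⟨hirr⟩
    exact Finite.wellFounded_of_trans_of_irrefl _
  have h2 : Subrelation (fun w v => rk v = t ∧ rk w = t ∧ K S top t v w)
      (TransGen (fun w v => rk v = t ∧ rk w = t ∧ K S top t v w)) := fun h => TransGen.single h
  exact h2.wf h1

private theorem main (H : CSc_H S a0 a1 rk top lab) (t : ℕ) :
    ∃ r : V → ℝ, Inv S a0 a1 rk top lab t r := by
  induction t with
  | zero =>
    refine ⟨fun v => if v = a0 then 1 else 0, ?_, ?_, ?_⟩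
    · intro v w z g _ _ _ _ _ _ hg
      obtain ⟨u, _, _, hu⟩ := H.k3a g
      omega
    · simp [H.ne.symm]
    · intro f u v w hf _ _
      obtain ⟨u, _, _, hu⟩ := H.k3a f
      omega
  | succ t ih =>
    obtain ⟨r, I⟩ := ih
    obtain ⟨r', hold, hnew⟩ := CSc_ext (fun v => rk v = t + 1) (K S top (t + 1))
      (fun v w => ∃ f, S.T (Sum.inl v) (Sum.inl w) (Sum.inr f) ∧ lab f v ∧ lab f w)
      (fun v x => ∀ (f : A) (w p : V), S.T (Sum.inl v) (Sum.inl w) (Sum.inr f) →
        top f ≤ t + 1 → lab f p → x < r p) r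
      (by
        rintro v w w' hv ⟨z, g, h1, h2, h3, h4⟩ ⟨z', g', h1', h2', h3', h4'⟩
        exact H.k1 (t + 1) v w w' z (Sum.inr g) z' (Sum.inr g') hv.le h1 h3 h1' h3' h2
          (show ¬ (t + 1 < top g) by omega) h2' (show ¬ (t + 1 < top g') by omega))
      (H.wf (t + 1))
      (by
        intro v _
        obtain ⟨z, hz⟩ := CSc_below r
        exact ⟨z, fun _ _ p _ _ _ => hz p⟩)
      (by
        intro v b _ hb
        obtain ⟨z, hz1, hz2⟩ := CSc_between r (fun p => ∃ (f : A) (w : V),
          S.T (Sum.inl v) (Sum.inl w) (Sum.inr f) ∧ top f ≤ t + 1 ∧ lab f p) b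
          (fun p ⟨f, w, h1, h2, h3⟩ => hb f w p h1 h2 h3)
        exact ⟨z, hz1, fun f w p h1 h2 h3 => hz2 p ⟨f, w, h1, h2, h3⟩⟩)
      (by
        rintro v w hv ⟨z, g, h1, h2, h3, h4⟩ hw f w1 p hf1 hf2 hp
        have h5 := H.tle w v g h3
        exact H.around I hv (by omega) h1 h2 h3 h4 hf1 hf2 hp)
      (by
        rintro v w x hv hw ⟨z, g, h1, h2, h3, h4⟩ hB f w1 p hf1 hf2 hp
        have h5 := H.tle w v g h3
        have h6 := H.tle v w1 f hf1
        have e : f = g := H.k3c g w v h3 (by omega) (by omega) w1 f (Or.inr hf1) (by omega)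
        rw [e] at hp
        exact hB g v p h3 h4 hp)
    have hold' : ∀ v, rk v ≤ t → r' v = r v := fun v hv => hold v (by omega)
    refine ⟨r', ?_, ?_, ?_⟩
    · intro v w z g hv hw hva h1 h2 h3 h4
      have hE : ∀ f, z = Sum.inr f → (lab f v → lab f w → rk w < rk v) := by
        intro f e hl1 hl2
        subst e
        exact H.l5 f v w h1 hl1 hl2
      by_cases hv1 : rk v = t + 1
      · have hn := hnew v hv1
        by_cases hw1 : rk w = t + 1
        · refine ⟨?_, fun _ => hn.2.1 w hw1 ⟨z, g, h1, h2, h3, h4⟩⟩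
          rintro ⟨f, e, hl1, hl2⟩
          have := hE f e hl1 hl2
          omega
        · have hn2 := hn.2.2 w hw1 ⟨z, g, h1, h2, h3, h4⟩
          rw [hold w hw1]
          refine ⟨?_, ?_⟩
          · rintro ⟨f, e, hl1, hl2⟩
            subst e
            exact (hn2.1 ⟨f, h1, hl1, hl2⟩).symm
          · intro hc
            apply hn2.2
            rintro ⟨f, hT, hl1, hl2⟩
            exact hc ⟨f, S.uniq h1 hT, hl1, hl2⟩
      · by_cases hw1 : rk w = t + 1
        · have h5 := H.tle w v g h3
          refine ⟨?_, fun _ => ?_⟩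
          · rintro ⟨f, e, hl1, hl2⟩
            have := hE f e hl1 hl2
            omega
          · rw [hold v hv1]
            exact (hnew w hw1).1 g v v h3 h4 (H.l2 g w v h3 (by omega) (by omega))
        · rw [hold v hv1, hold w hw1]
          have hg : top g ≤ t := by
            by_contra hc
            have hbase : ¬ (v = a0 ∧ w = a1) := by
              rintro ⟨rfl, rfl⟩
              have := H.b1 v g h3
              have h0 := H.z0
              omega
            apply H.k2 v w z (Sum.inr g) h1 h3 hbase (fun hc => hva hc.1)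
            constructor
            · cases z with
              | inl _ => trivial
              | inr f =>
                have h6 : t + 1 < top f := h2
                show max (rk v) (rk w) < top f
                exact max_lt (by omega) (by omega)
            · show max (rk v) (rk w) < top g
              exact max_lt (by omega) (by omega)
          have h2' : CSc_hi top t z := by
            cases z with
            | inl _ => trivial
            | inr f =>
              have h6 : t + 1 < top f := h2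
              show t < top f
              omega
          exact I.1 v w z g (by omega) (by omega) hva h1 h2' h3 hg
    · rw [hold' a1 (by have := H.z1; omega), hold' a0 (by have := H.z0; omega)]
      exact I.2.1
    · intro f u v w hf hu hlv
      obtain ⟨hv1, wv, hwv⟩ := H.l1 f v hlv
      have hu1 := H.tle u w f hu
      by_cases hft : top f ≤ t
      · rw [hold' u (by omega), hold' v (by omega)]
        exact I.2.2 f u v w hft hu hlv
      · have hft' : top f = t + 1 := by omega
        rw [hold' v (by omega)]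
        obtain ⟨x0, x, hx0, hx1, hx2⟩ := H.first f
        have hvx := (H.face I hft' hx0 hx1 hx2 hwv hv1).1 hlv
        by_cases hu2 : rk u = t + 1
        · refine ⟨fun hl => ?_, fun _ => (hnew u hu2).1 f w v hu hf hlv⟩
          have := (H.l1 f u hl).1
          omega
        · rw [hold u hu2]
          have h7 := H.face I hft' hx0 hx1 hx2 hu (by omega)
          rw [hvx]
          exact h7

end CSc_H

/-- The potential: constant on the labelled vertices of a facet, smaller at the others. -/
theorem CSc_pot {S : Sph (V ⊕ A)} {a0 a1 : V} {rk : V → ℕ} {top : A → ℕ} {lab : A → V → Prop}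
    (H : CSc_H S a0 a1 rk top lab) : ∃ r : V → ℝ, ∀ (f : A) (u v w : V),
      S.T (Sum.inl u) (Sum.inl w) (Sum.inr f) → lab f v →
      (lab f u → r u = r v) ∧ (¬ lab f u → r u < r v) := by
  obtain ⟨r, hr⟩ := H.main (Finset.univ.sup top)
  exact ⟨r, fun f u v w => hr.2.2 f u v w (Finset.le_sup (Finset.mem_univ f))⟩

/-- the mirror image of a sphere -/
def CSc_mir {W : Type} [Fintype W] (S : Sph W) : Sph W where
  T u v w := S.T v u w
  rot h := S.rot (S.rot h)
  ne h := (S.ne h).symm
  uniq h h' := S.uniq h h'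
  opp h := S.opp h
  link := by
    intro u v w v' w' h h'
    obtain ⟨x, _, hx⟩ := S.opp h
    obtain ⟨x', _, hx'⟩ := S.opp h'
    have h1 := S.link hx' hx
    have h2 : ReflTransGen (Function.swap (fun x y => S.T u x y)) v v' := reflTransGen_swap.2 h1
    exact ReflTransGen.mono (fun a b (hab : S.T u b a) => S.rot (S.rot hab)) v v' h2
  conn := by
    intro u v
    refine ReflTransGen.mono ?_ u v (S.conn u v)
    rintro a b ⟨z, hz⟩
    obtain ⟨x, _, hx⟩ := S.opp hz
    exact ⟨x, hx⟩
  cov := by
    intro u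
    obtain ⟨v, w, h⟩ := S.cov u
    exact ⟨w, v, S.rot (S.rot h)⟩
  count := by
    have e : Nat.card {p : W × W × W // S.T p.2.1 p.1 p.2.2} =
        Nat.card {p : W × W × W // S.T p.1 p.2.1 p.2.2} :=
      Nat.card_congr
        { toFun := fun p => ⟨(p.1.2.1, p.1.1, p.1.2.2), p.2⟩
          invFun := fun p => ⟨(p.1.2.1, p.1.1, p.1.2.2), p.2⟩
          left_inv := fun p => rfl
          right_inv := fun p => rfl }
    rw [e]
    exact S.count

namespace StP

variable (P : StP V A)

/-- the next vertex of a facet -/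
theorem CSc_nxt {v w : V} {f : A} (h : P.T v w f) : ∃ w', P.T w w' f := by
  obtain ⟨x, _, hx⟩ := P.S.opp (P.S.rot h)
  have hx' := P.S.rot hx
  cases x with
  | inl w' => exact ⟨w', hx'⟩
  | inr g => exact absurd (P.S.rot hx') (P.ff _ _ _)

/-- the previous vertex of a facet -/
theorem CSc_prv {v w : V} {f : A} (h : P.T v w f) : ∃ u, P.T u v f := by
  obtain ⟨x, _, hx⟩ := P.S.opp (P.S.rot (P.S.rot h))
  have hx' := P.S.rot (P.S.rot hx)
  cases x with
  | inl w' => exact ⟨w', hx'⟩
  | inr g => exact absurd (P.S.rot hx) (P.ff _ _ _)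

theorem CSc_le_top {rk : V → ℕ} {v : V} {f : A} (h : P.inc v f) : rk v ≤ P.top rk f := by
  have h1 := Finset.le_sup (f := fun v => if P.inc v f then rk v else 0) (Finset.mem_univ v)
  simp only [if_pos h] at h1
  exact h1

theorem CSc_hi_iff {rk : V → ℕ} {t : ℕ} {z : V ⊕ A} :
    CSc_hi (P.top rk) t z ↔ P.hi rk t z := by
  cases z <;> exact Iff.rfl

end StP

namespace RkOrd

variable {P : StP V A} {rk : V → ℕ}

theorem CSc_tex (h : RkOrd P rk) (f : A) : ∃ v, P.inc v f ∧ rk v = P.top rk f := by
  obtain ⟨u, _, _, hu⟩ := h.k3a f (P.a 0)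
  have : Nonempty V := ⟨u⟩
  obtain ⟨v, _, hv⟩ := Finset.exists_mem_eq_sup Finset.univ Finset.univ_nonempty
    (fun v => if P.inc v f then rk v else 0)
  have hv' : P.top rk f = if P.inc v f then rk v else 0 := hv
  by_cases hi : P.inc v f
  · rw [if_pos hi] at hv'
    exact ⟨v, hi, hv'.symm⟩
  · rw [if_neg hi] at hv'
    omega

/-- in every facet the vertex after `a 1` is a top vertex -/
theorem CSc_a1 (h : RkOrd P rk) {w : V} {f : A} (hT : P.T (P.a 1) w f) : rk w = P.top rk f := by
  have h0 : w ≠ P.a 0 := by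
    rintro rfl
    exact absurd (P.S.uniq hT P.out) (by simp)
  have h01 : P.a 1 ≠ P.a 0 := fun e => absurd (P.a_inj e) (by decide)
  obtain ⟨w', hw'⟩ := P.CSc_nxt hT
  have hle := P.CSc_le_top (rk := rk) ⟨w', hw'⟩
  by_contra hne
  obtain ⟨y, _, hy⟩ := P.S.opp hT
  have hf : P.hi rk (rk w) (Sum.inr f) := by
    show rk w < P.top rk f
    omega
  by_cases hy1 : P.hi rk (rk w) y
  · apply h.k2 (P.a 1) w (Sum.inr f) y hT hy (fun hc => h01 hc.1) (fun hc => h0 hc.2)
    rw [h.z1, Nat.zero_max]
    exact ⟨hf, hy1⟩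
  · exact h0 (h.k5b (rk w) w (Sum.inr f) y le_rfl hT hy hf hy1)

/-- in every facet the vertex before `a 0` is a top vertex -/
theorem CSc_a0 (h : RkOrd P rk) {w : V} {f : A} (hT : P.T w (P.a 0) f) : rk w = P.top rk f := by
  have h0 : w ≠ P.a 1 := by
    rintro rfl
    exact absurd (P.S.uniq hT P.out) (by simp)
  have h01 : P.a 0 ≠ P.a 1 := fun e => absurd (P.a_inj e) (by decide)
  have hle := P.CSc_le_top (rk := rk) ⟨P.a 0, hT⟩
  by_contra hne
  obtain ⟨y, _, hy⟩ := P.S.opp hT
  have hf : P.hi rk (rk w) (Sum.inr f) := by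
    show rk w < P.top rk f
    omega
  by_cases hy1 : P.hi rk (rk w) y
  · apply h.k2 w (P.a 0) (Sum.inr f) y hT hy (fun hc => h01 hc.2) (fun hc => h0 hc.1)
    rw [h.z0, Nat.max_zero]
    exact ⟨hf, hy1⟩
  · exact h0 (h.k5a (rk w) w (Sum.inr f) y le_rfl hT hy hf hy1)

/-- the potential of colour 0 -/
theorem CSc_pot0 (h : RkOrd P rk) (lab : A → V → Prop)
    (l1 : ∀ (f : A) (v : V), lab f v → rk v < P.top rk f ∧ P.inc v f)
    (l2 : ∀ (f : A) (u v : V), P.T u v f → rk u = P.top rk f → rk v < P.top rk f → lab f v)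
    (l3 : ∀ (f : A) (v w : V), P.T v w f → rk v < P.top rk f → lab f w → lab f v)
    (l4 : ∀ (f : A) (v w : V), P.T v w f → rk w = P.top rk f → ¬ lab f v)
    (l5 : ∀ (f : A) (v w : V), P.T v w f → lab f v → lab f w → rk w < rk v) :
    ∃ r : V → ℝ, ∀ (f : A) (u v : V), P.inc u f → lab f v →
      (lab f u → r u = r v) ∧ (¬ lab f u → r u < r v) := by
  have H : CSc_H P.S (P.a 0) (P.a 1) rk (P.top rk) lab :=
    { z0 := h.z0
      z1 := h.z1
      ne := fun e => absurd (P.a_inj e) (by decide)
      ff := P.ff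
      tle := fun v w f hT => P.CSc_le_top ⟨w, hT⟩
      tex := fun f => by
        obtain ⟨v, ⟨w, hw⟩, hv⟩ := h.CSc_tex f
        exact ⟨v, w, hw, hv⟩
      k1 := by
        intro t v w w' z y z' y' hv h1 h2 h3 h4 h5 h6 h7 h8
        rw [P.CSc_hi_iff] at h5 h6 h7 h8
        exact h.k1L t v w w' z y z' y' hv h1 h2 h3 h4 h5 h6 h7 h8
      k2 := by
        intro u v z y h1 h2 h3 h4
        rw [P.CSc_hi_iff, P.CSc_hi_iff]
        exact h.k2 u v z y h1 h2 h3 h4
      k3a := fun f => by
        obtain ⟨u, _, ⟨w, hw⟩, hu⟩ := h.k3a f (P.a 0)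
        exact ⟨u, w, hw, hu⟩
      k3d := fun f u v u' v' h1 h2 h3 h4 h5 h6 => (h.k3d f u v u' v' h1 h2 h3 h4 h5 h6).2
      k3c := by
        intro f u v h1 h2 h3 w g h4 h5
        have hne : u ≠ v := fun e => P.S.ne h1 (by rw [e])
        obtain ⟨v', hv'⟩ := P.CSc_nxt h1
        rcases h4 with h4 | h4
        · exact h.k3c f u v hne ⟨v, h1⟩ ⟨v', hv'⟩ h2 h3 g ⟨w, h4⟩ (by omega)
        · exact h.k3c f v u hne.symm ⟨v', hv'⟩ ⟨v, h1⟩ h3 h2 g ⟨w, h4⟩ (by omega)
      b1 := fun w f hT => h.CSc_a1 hT
      pos := h.pos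
      l1 := l1
      l2 := l2
      l3 := l3
      l4 := l4
      l5 := l5 }
  obtain ⟨r, hr⟩ := CSc_pot H
  exact ⟨r, fun f u v ⟨w, hw⟩ => hr f u v w hw⟩

/-- the potential of colour 1 (mirror image: the labelled vertices of `f` are an interval which
ends at the last lower vertex of `f`) -/
theorem CSc_pot1 (h : RkOrd P rk) (lab : A → V → Prop)
    (l1 : ∀ (f : A) (v : V), lab f v → rk v < P.top rk f ∧ P.inc v f)
    (l2 : ∀ (f : A) (u v : V), P.T v u f → rk u = P.top rk f → rk v < P.top rk f → lab f v)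
    (l3 : ∀ (f : A) (v w : V), P.T w v f → rk v < P.top rk f → lab f w → lab f v)
    (l4 : ∀ (f : A) (v w : V), P.T w v f → rk w = P.top rk f → ¬ lab f v)
    (l5 : ∀ (f : A) (v w : V), P.T w v f → lab f v → lab f w → rk w < rk v) :
    ∃ r : V → ℝ, ∀ (f : A) (u v : V), P.inc u f → lab f v →
      (lab f u → r u = r v) ∧ (¬ lab f u → r u < r v) := by
  have H : CSc_H (CSc_mir P.S) (P.a 1) (P.a 0) rk (P.top rk) lab :=
    { z0 := h.z1
      z1 := h.z0
      ne := fun e => absurd (P.a_inj e) (by decide)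
      ff := fun f g z => P.ff g f z
      tle := fun v w f hT => P.CSc_le_top (P.CSc_nxt hT)
      tex := fun f => by
        obtain ⟨v, ⟨w, hw⟩, hv⟩ := h.CSc_tex f
        obtain ⟨u, hu⟩ := P.CSc_prv hw
        exact ⟨v, u, hu, hv⟩
      k1 := by
        intro t v w w' z y z' y' hv h1 h2 h3 h4 h5 h6 h7 h8
        rw [P.CSc_hi_iff] at h5 h6 h7 h8
        exact h.k1R t v w w' y z y' z' hv h2 h1 h4 h3 h6 h5 h8 h7
      k2 := by
        intro u v z y h1 h2 h3 h4
        rw [P.CSc_hi_iff, P.CSc_hi_iff]
        intro h5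
        exact h.k2 u v y z h2 h1 h4 h3 ⟨h5.2, h5.1⟩
      k3a := fun f => by
        obtain ⟨u, _, ⟨w, hw⟩, hu⟩ := h.k3a f (P.a 0)
        obtain ⟨u', hu'⟩ := P.CSc_prv hw
        exact ⟨u, u', hu', hu⟩
      k3d := fun f u v u' v' h1 h2 h3 h4 h5 h6 => (h.k3u f v u v' u' h1 h2 h4 h3 h6 h5).1
      k3c := by
        intro f u v h1 h2 h3 w g h4 h5
        have h1' : P.T v u f := h1
        have hne : u ≠ v := fun e => P.S.ne h1' (by rw [e])
        obtain ⟨u', hu'⟩ := P.CSc_nxt h1'
        rcases h4 with h4 | h4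
        · exact h.k3c f u v hne ⟨u', hu'⟩ ⟨u, h1'⟩ h2 h3 g (P.CSc_nxt h4) (by omega)
        · exact h.k3c f v u hne.symm ⟨u, h1'⟩ ⟨u', hu'⟩ h3 h2 g (P.CSc_nxt h4) (by omega)
      b1 := fun w f hT => h.CSc_a0 hT
      pos := fun v h1 h2 => h.pos v h2 h1
      l1 := fun f v hl => by
        obtain ⟨h1, w, hw⟩ := l1 f v hl
        exact ⟨h1, P.CSc_prv hw⟩
      l2 := l2
      l3 := l3
      l4 := l4
      l5 := l5 }
  obtain ⟨r, hr⟩ := CSc_pot H
  refine ⟨r, ?_⟩
  rintro f u v ⟨w, hw⟩
  obtain ⟨u', hu'⟩ := P.CSc_prv hw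
  exact hr f u v u' hu'

end RkOrd

end Pool.RP
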