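import Pool.Agent.Lib.MP_9dcace_rp.CSa
import Pool.Agent.Lib.MP_9dcace_rp.CSc

/-!
Row CSc, second part (helper12). The potentials of the colours 0 and 1 for the labels `LL`.
-/

set_option autoImplicit false

open Classical

namespace Pool.RP

variable {V A : Type} [Fintype V] [Fintype A] {P : StP V A} {rk : V → ℕ}

namespace RkOrd

open StP

/-- the potential of colour 0 -/
theorem exists_pot0 (R : RkOrd P rk) : ∃ r : V → ℝ,
    (∀ {l : Fin 3} {g : A} {u v : V}, P.LL rk 0 g v → P.LL rk l g u → l ≠ 0 → r u < r v) ∧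
    (∀ {g : A} {u v : V}, P.LL rk 0 g v → P.LL rk 0 g u → r u = r v) := by
  obtain ⟨r, hr⟩ := R.CSc_pot0 (fun f v => P.LL rk 0 f v)
    (fun f v h => ⟨LL_lt h (by decide), LL.inc h⟩)
    (fun f u v h h1 h2 => R.xleft h h1 h2)
    (by
      intro f v w h h1 h2
      obtain ⟨k, hk⟩ := exists_LL (rk := rk) (inc_of_T h)
      have hkk : k = 0 ∨ k = 1 ∨ k = 2 := (by decide : ∀ k : Fin 3, k = 0 ∨ k = 1 ∨ k = 2) k
      rcases hkk with rfl | rfl | rfl
      · exact hk
      · have h3 := R.nxl hk
        rw [nx_eq h] at h3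
        rcases h3 with h3 | h3
        · exact absurd (LL_uniq h2 h3) (by decide)
        · exact absurd (LL_uniq h2 h3) (by decide)
      · have := (LL_two.mp hk).2
        omega)
    (by
      intro f v w h h1 h2
      exact absurd (LL_uniq h2 (xright h (LL_lt h2 (by decide)) h1)) (by decide))
    (by
      intro f v w h h1 h2
      have h3 := (LL_zero.mp h2).2.2.2
      rw [pv_eq h] at h3
      exact h3)
  refine ⟨r, ?_, ?_⟩
  · intro l g u v hv hu hl
    exact (hr g u v (LL.inc hu) hv).2 (fun hc => hl (LL_uniq hu hc))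
  · intro g u v hv hu
    exact (hr g u v (LL.inc hu) hv).1 hu

/-- the potential of colour 1 -/
theorem exists_pot1 (R : RkOrd P rk) : ∃ r : V → ℝ,
    (∀ {l : Fin 3} {g : A} {u v : V}, P.LL rk 1 g v → P.LL rk l g u → l ≠ 1 → r u < r v) ∧
    (∀ {g : A} {u v : V}, P.LL rk 1 g v → P.LL rk 1 g u → r u = r v) := by
  obtain ⟨r, hr⟩ := R.CSc_pot1 (fun f v => P.LL rk 1 f v)
    (fun f v h => ⟨LL_lt h (by decide), LL.inc h⟩)
    (fun f u v h h1 h2 => xright h h2 h1)
    (by
      intro f v w h h1 h2
      have h3 := R.nxl h2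
      rw [nx_eq h] at h3
      rcases h3 with h3 | h3
      · exact h3
      · have := (LL_two.mp h3).2
        omega)
    (by
      intro f v w h h1 h2
      exact absurd (LL_uniq h2 (R.xleft h h1 (LL_lt h2 (by decide)))) (by decide))
    (by
      intro f v w h h1 h2
      have h3 : P.inn w := by
        rcases inn_or (P := P) w with h3 | ⟨k, rfl⟩
        · exact h3
        · have hk := R.lab h2
          subst hk
          have h4 := R.nx_a1 (LL.inc h2)
          rw [nx_eq h] at h4
          have h5 := LL_lt h1 (by decide)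
          omega
      have h4 := R.k6 h3 (LL.inc h2) (LL_lt h2 (by decide))
      rw [nx_eq h] at h4
      rcases h4 with h4 | h4
      · exfalso
        apply (LL_one.mp h2).2.2
        rw [nx_eq h]
        exact ⟨LL_lt h1 (by decide), h4⟩
      · exact h4)
  refine ⟨r, ?_, ?_⟩
  · intro l g u v hv hu hl
    exact (hr g u v (LL.inc hu) hv).2 (fun hc => hl (LL_uniq hu hc))
  · intro g u v hv hu
    exact (hr g u v (LL.inc hu) hv).1 hu

end RkOrd

end Pool.RP
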