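import Pool.Agent.Lib.MP_9dcace_rp.P3

/-! Row P5 (helper22). The rank function of the order from the sequence of steps. -/

set_option autoImplicit false

open Classical

namespace Pool.RP
open Pool.SX Relation

namespace StP
variable {V A : Type} [Fintype V] [Fintype A] (P : StP V A)

/-! ### the ranks of a state -/

/-- a rank function with its sequence of states -/
private structure P5S (W : Finset V) (rk : V → ℕ) (N : ℕ) : Prop where
  le : ∀ v ∈ W, rk v ≤ N
  gd : ∀ t ≤ N, P.Gd (W.filter (fun v => rk v ≤ t))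
  st : ∀ t, 1 ≤ t → t ≤ N → P.Step (W.filter (fun v => rk v ≤ t)) (W.filter (fun v => rk v = t))
  z : ∀ v ∈ W, (rk v = 0 ↔ v = P.a 0 ∨ v = P.a 1)

private theorem P5_ex (h1 : ∀ W : Finset V, P.Gd W → (∃ x ∈ W, x ≠ P.a 0 ∧ x ≠ P.a 1) →
    ∃ Z : Finset V, P.Step W Z ∧ P.Gd (W \ Z)) :
    ∀ (n : ℕ) (W : Finset V), W.card ≤ n → P.Gd W → ∃ rk N, P.P5S W rk N := by
  intro n
  induction n with
  | zero =>
    intro W hn hG
    exact absurd (Finset.card_pos.mpr ⟨_, P.Gd_a0 hG⟩) (by omega)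
  | succ n ih =>
    intro W hn hG
    by_cases hx : ∃ x ∈ W, x ≠ P.a 0 ∧ x ≠ P.a 1
    · obtain ⟨Z, hZ, hG'⟩ := h1 W hG hx
      have hlt : (W \ Z).card < W.card := by
        apply Finset.card_lt_card
        rw [Finset.ssubset_iff_of_subset Finset.sdiff_subset]
        obtain ⟨z, hz⟩ := hZ.ne
        exact ⟨z, hZ.sub hz, fun h => (Finset.mem_sdiff.mp h).2 hz⟩
      obtain ⟨rk', N', h'⟩ := ih (W \ Z) (by omega) hG'
      refine ⟨fun v => if v ∈ Z then N' + 1 else rk' v, N' + 1, ?_, ?_, ?_, ?_⟩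
      · intro v hv
        by_cases hvZ : v ∈ Z
        · simp only [if_pos hvZ, le_refl]
        · simp only [if_neg hvZ]
          exact (h'.le v (Finset.mem_sdiff.mpr ⟨hv, hvZ⟩)).trans (Nat.le_succ _)
      · intro t ht
        rcases Nat.lt_or_ge N' t with h2 | h2
        · have e : W.filter (fun v => (if v ∈ Z then N' + 1 else rk' v) ≤ t) = W := by
            apply Finset.filter_true_of_mem
            intro v hv
            by_cases hvZ : v ∈ Z
            · rw [if_pos hvZ]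
              omega
            · rw [if_neg hvZ]
              have := h'.le v (Finset.mem_sdiff.mpr ⟨hv, hvZ⟩)
              omega
          rw [e]
          exact hG
        · have e : W.filter (fun v => (if v ∈ Z then N' + 1 else rk' v) ≤ t) =
              (W \ Z).filter (fun v => rk' v ≤ t) := by
            ext v
            rw [Finset.mem_filter, Finset.mem_filter, Finset.mem_sdiff]
            by_cases hvZ : v ∈ Z
            · rw [if_pos hvZ]
              exact ⟨fun h => by omega, fun h => absurd hvZ h.1.2⟩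
            · rw [if_neg hvZ]
              exact ⟨fun h => ⟨⟨h.1, hvZ⟩, h.2⟩, fun h => ⟨h.1.1, h.2⟩⟩
          rw [e]
          exact h'.gd t h2
      · intro t ht1 ht
        rcases Nat.lt_or_ge N' t with h2 | h2
        · have h3 : t = N' + 1 := by omega
          subst h3
          have e : W.filter (fun v => (if v ∈ Z then N' + 1 else rk' v) ≤ N' + 1) = W := by
            apply Finset.filter_true_of_mem
            intro v hv
            by_cases hvZ : v ∈ Z
            · rw [if_pos hvZ]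
            · rw [if_neg hvZ]
              have := h'.le v (Finset.mem_sdiff.mpr ⟨hv, hvZ⟩)
              omega
          have e2 : W.filter (fun v => (if v ∈ Z then N' + 1 else rk' v) = N' + 1) = Z := by
            ext v
            rw [Finset.mem_filter]
            by_cases hvZ : v ∈ Z
            · rw [if_pos hvZ]
              exact ⟨fun _ => hvZ, fun _ => ⟨hZ.sub hvZ, rfl⟩⟩
            · rw [if_neg hvZ]
              refine ⟨fun h => ?_, fun h => absurd h hvZ⟩
              have := h'.le v (Finset.mem_sdiff.mpr ⟨h.1, hvZ⟩)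
              omega
          rw [e, e2]
          exact hZ
        · have e : W.filter (fun v => (if v ∈ Z then N' + 1 else rk' v) ≤ t) =
              (W \ Z).filter (fun v => rk' v ≤ t) := by
            ext v
            rw [Finset.mem_filter, Finset.mem_filter, Finset.mem_sdiff]
            by_cases hvZ : v ∈ Z
            · rw [if_pos hvZ]
              exact ⟨fun h => by omega, fun h => absurd hvZ h.1.2⟩
            · rw [if_neg hvZ]
              exact ⟨fun h => ⟨⟨h.1, hvZ⟩, h.2⟩, fun h => ⟨h.1.1, h.2⟩⟩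
          have e2 : W.filter (fun v => (if v ∈ Z then N' + 1 else rk' v) = t) =
              (W \ Z).filter (fun v => rk' v = t) := by
            ext v
            rw [Finset.mem_filter, Finset.mem_filter, Finset.mem_sdiff]
            by_cases hvZ : v ∈ Z
            · rw [if_pos hvZ]
              exact ⟨fun h => by omega, fun h => absurd hvZ h.1.2⟩
            · rw [if_neg hvZ]
              exact ⟨fun h => ⟨⟨h.1, hvZ⟩, h.2⟩, fun h => ⟨h.1.1, h.2⟩⟩
          rw [e, e2]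
          exact h'.st t ht1 h2
      · intro v hv
        by_cases hvZ : v ∈ Z
        · simp only [if_pos hvZ]
          refine ⟨fun h => by omega, ?_⟩
          rintro (rfl | rfl)
          · exact absurd hvZ hZ.n0
          · exact absurd hvZ hZ.n1
        · simp only [if_neg hvZ]
          exact h'.z v (Finset.mem_sdiff.mpr ⟨hv, hvZ⟩)
    · refine ⟨fun _ => 0, 0, fun _ _ => le_rfl, ?_, fun t h2 h3 => by omega, ?_⟩
      · intro t _
        have e : W.filter (fun _ => 0 ≤ t) = W :=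
          Finset.filter_true_of_mem (fun _ _ => Nat.zero_le t)
        rw [e]
        exact hG
      · intro v hv
        refine ⟨fun _ => ?_, fun _ => rfl⟩
        by_contra hcon
        push Not at hcon
        exact hx ⟨v, hv, hcon⟩

/-! ### the ranks of all vertices -/

/-- the vertices of rank at most `t` -/
private noncomputable def P5W (rk : V → ℕ) (t : ℕ) : Finset V :=
  Finset.univ.filter (fun v => rk v ≤ t)

/-- the vertices of rank `t` -/
private noncomputable def P5Z (rk : V → ℕ) (t : ℕ) : Finset V :=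
  Finset.univ.filter (fun v => rk v = t)

/-- the ranks of all vertices -/
private structure P5R (rk : V → ℕ) (N : ℕ) : Prop where
  top : rk (P.a 2) = N + 1
  le : ∀ v, v ≠ P.a 2 → rk v ≤ N
  gd : ∀ t ≤ N, P.Gd (P5W rk t)
  st : ∀ t, 1 ≤ t → t ≤ N → P.Step (P5W rk t) (P5Z rk t)
  z : ∀ v, (rk v = 0 ↔ v = P.a 0 ∨ v = P.a 1)

omit [Fintype A] in
private theorem P5_mem {rk : V → ℕ} {t : ℕ} {v : V} : v ∈ P5W rk t ↔ rk v ≤ t := by
  unfold P5W
  rw [Finset.mem_filter]
  exact ⟨fun h => h.2, fun h => ⟨Finset.mem_univ _, h⟩⟩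

omit [Fintype A] in
private theorem P5_memZ {rk : V → ℕ} {t : ℕ} {v : V} : v ∈ P5Z rk t ↔ rk v = t := by
  unfold P5Z
  rw [Finset.mem_filter]
  exact ⟨fun h => h.2, fun h => ⟨Finset.mem_univ _, h⟩⟩

private theorem P5_exR (h0 : P.Gd (Finset.univ.erase (P.a 2)))
    (h1 : ∀ W : Finset V, P.Gd W → (∃ x ∈ W, x ≠ P.a 0 ∧ x ≠ P.a 1) →
      ∃ Z : Finset V, P.Step W Z ∧ P.Gd (W \ Z)) : ∃ rk N, P.P5R rk N := by
  obtain ⟨rk, N, h⟩ := P.P5_ex h1 _ _ le_rfl h0
  have h02 : P.a 0 ≠ P.a 2 := P.o_ane (by decide)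
  have h12 : P.a 1 ≠ P.a 2 := P.o_ane (by decide)
  refine ⟨fun v => if v = P.a 2 then N + 1 else rk v, N, ?_, ?_, ?_, ?_, ?_⟩
  · simp only [if_true]
  · intro v hv
    simp only [if_neg hv]
    exact h.le v (Finset.mem_erase.mpr ⟨hv, Finset.mem_univ _⟩)
  · intro t ht
    have e : P5W (fun v => if v = P.a 2 then N + 1 else rk v) t =
        (Finset.univ.erase (P.a 2)).filter (fun v => rk v ≤ t) := by
      ext v
      rw [P5_mem, Finset.mem_filter, Finset.mem_erase]
      by_cases hv : v = P.a 2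
      · simp only [if_pos hv]
        exact ⟨fun h => by omega, fun h => absurd hv h.1.1⟩
      · simp only [if_neg hv]
        exact ⟨fun h => ⟨⟨hv, Finset.mem_univ _⟩, h⟩, fun h => h.2⟩
    rw [e]
    exact h.gd t ht
  · intro t ht1 ht
    have e : P5W (fun v => if v = P.a 2 then N + 1 else rk v) t =
        (Finset.univ.erase (P.a 2)).filter (fun v => rk v ≤ t) := by
      ext v
      rw [P5_mem, Finset.mem_filter, Finset.mem_erase]
      by_cases hv : v = P.a 2
      · simp only [if_pos hv]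
        exact ⟨fun h => by omega, fun h => absurd hv h.1.1⟩
      · simp only [if_neg hv]
        exact ⟨fun h => ⟨⟨hv, Finset.mem_univ _⟩, h⟩, fun h => h.2⟩
    have e2 : P5Z (fun v => if v = P.a 2 then N + 1 else rk v) t =
        (Finset.univ.erase (P.a 2)).filter (fun v => rk v = t) := by
      ext v
      rw [P5_memZ, Finset.mem_filter, Finset.mem_erase]
      by_cases hv : v = P.a 2
      · simp only [if_pos hv]
        exact ⟨fun h => by omega, fun h => absurd hv h.1.1⟩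
      · simp only [if_neg hv]
        exact ⟨fun h => ⟨⟨hv, Finset.mem_univ _⟩, h⟩, fun h => h.2⟩
    rw [e, e2]
    exact h.st t ht1 ht
  · intro v
    by_cases hv : v = P.a 2
    · simp only [if_pos hv]
      refine ⟨fun h => by omega, ?_⟩
      rintro (h3 | h3)
      · exact absurd (h3.symm.trans hv) h02
      · exact absurd (h3.symm.trans hv) h12
    · simp only [if_neg hv]
      exact h.z v (Finset.mem_erase.mpr ⟨hv, Finset.mem_univ _⟩)

/-! ### tops -/

private theorem P5_le_top {rk : V → ℕ} {v : V} {f : A} (h : P.inc v f) : rk v ≤ P.top rk f := by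
  unfold top
  have h1 := Finset.le_sup (f := fun v => if P.inc v f then rk v else 0) (Finset.mem_univ v)
  simp only [if_pos h] at h1
  exact h1

private theorem P5_top_le {rk : V → ℕ} {f : A} {t : ℕ} : P.top rk f ≤ t ↔ ∀ v, P.inc v f → rk v ≤ t := by
  constructor
  · intro h v hv
    exact (P.P5_le_top hv).trans h
  · intro h
    unfold top
    rw [Finset.sup_le_iff]
    intro v _
    by_cases hv : P.inc v f
    · rw [if_pos hv]
      exact h v hv
    · rw [if_neg hv]
      exact Nat.zero_le t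

private theorem P5_attained (rk : V → ℕ) {f : A} (hf : ∃ v, P.inc v f) :
    ∃ v, P.inc v f ∧ rk v = P.top rk f := by
  by_contra hcon
  push Not at hcon
  have h1 : ∀ v, P.inc v f → rk v < P.top rk f := fun v hv =>
    lt_of_le_of_ne (P.P5_le_top hv) (hcon v hv)
  obtain ⟨v, hv⟩ := hf
  have h2 := h1 v hv
  have h3 : P.top rk f ≤ P.top rk f - 1 := by
    rw [P.P5_top_le]
    intro w hw
    have := h1 w hw
    omega
  omega

/-- every facet has a vertex -/
private theorem P5_ex_inc (f : A) : ∃ v, P.inc v f := by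
  obtain ⟨x, y, h⟩ := P.S.cov (Sum.inr f)
  rcases x with u | g
  · exact ⟨u, P.o_inc_iff.mpr (P.S.adj_symm ⟨_, h⟩)⟩
  · exact absurd h (P.ff f g y)

private theorem P5_Pin {rk : V → ℕ} {t : ℕ} {f : A} : P.Pin (P5W rk t) f ↔ P.top rk f ≤ t := by
  rw [P.P5_top_le]
  unfold Pin
  exact ⟨fun h v hv => P5_mem.mp (h v hv), fun h v hv => P5_mem.mpr (h v hv)⟩

/-! ### the facts K1 - K5 -/

section facts

variable {P} {rk : V → ℕ} {N : ℕ}

private theorem P5_hi_inr {t : ℕ} {f : A} : P.hi rk t (Sum.inr f) ↔ t < P.top rk f := Iff.rfl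

private theorem P5_nhi {t : ℕ} {z : V ⊕ A} (h : ¬ P.hi rk t z) :
    ∃ f, z = Sum.inr f ∧ P.top rk f ≤ t := by
  rcases z with x | f
  · exact absurd trivial h
  · exact ⟨f, rfl, not_lt.mp h⟩

private theorem P5R.bound (R : P.P5R rk N) (v : V) : rk v ≤ N + 1 := by
  by_cases hv : v = P.a 2
  · rw [hv, R.top]
  · exact (R.le v hv).trans (Nat.le_succ N)

private theorem P5R.topb (R : P.P5R rk N) (f : A) : P.top rk f ≤ N + 1 :=
  P.P5_top_le.mpr fun v _ => R.bound v

private theorem P5R.inl_of (R : P.P5R rk N) {t : ℕ} (ht : ¬ t ≤ N) {z : V ⊕ A}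
    (h : P.hi rk t z) : ∃ x, z = Sum.inl x := by
  rcases z with x | f
  · exact ⟨x, rfl⟩
  · exfalso
    have h1 := R.topb f
    have h2 : t < P.top rk f := h
    omega

private theorem P5R.ne2 (R : P.P5R rk N) {t : ℕ} (ht : t ≤ N) {v : V} (hv : rk v ≤ t) :
    v ≠ P.a 2 := by
  intro h
  rw [h, R.top] at hv
  omega

private theorem P5R.notin (R : P.P5R rk N) {t : ℕ} (ht : t ≤ N) {v w : V} {z : V ⊕ A}
    (hv : rk v ≤ t) (hw : rk w ≤ t) (hT : P.S.T (Sum.inl v) (Sum.inl w) z)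
    (hz : P.hi rk t z) : z ∉ P.st (P5W rk t) := by
  rcases z with x | f
  · intro h
    have h1 := P5_mem.mp (P.st_inl.mp h)
    rcases P.vvv v w x hT with ⟨-, -, h2⟩ | ⟨-, h2, -⟩ | ⟨h2, -, -⟩
    · exact R.ne2 ht h1 h2
    · exact R.ne2 ht hw h2
    · exact R.ne2 ht hv h2
  · intro h
    have h1 := P.P5_Pin.mp (P.st_inr.mp h)
    have h2 : t < P.top rk f := hz
    omega

private theorem P5R.nxt (R : P.P5R rk N) {t : ℕ} (ht : t ≤ N) {v w : V} {z : V ⊕ A}
    (hv : rk v ≤ t) (hw : rk w ≤ t) (hT : P.S.T (Sum.inl v) (Sum.inl w) z)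
    (hz : P.hi rk t z) : P.S.Nxt (P.st (P5W rk t)) (Sum.inl v) (Sum.inl w) :=
  ⟨P.st_inl.mpr (P5_mem.mpr hv), P.st_inl.mpr (P5_mem.mpr hw), z, R.notin ht hv hw hT hz, hT⟩

private theorem P5_rk_of {t : ℕ} {v w : V} {z : V ⊕ A}
    (hT : P.S.T (Sum.inl v) (Sum.inl w) z) (hz : ¬ P.hi rk t z) : rk v ≤ t ∧ rk w ≤ t := by
  obtain ⟨f, rfl, hf⟩ := P5_nhi hz
  have h := P.o_inc (show P.T v w f from hT)
  exact ⟨P.P5_top_le.mp hf v h.1, P.P5_top_le.mp hf w h.2⟩

private theorem P5R.k1L (R : P.P5R rk N) (t : ℕ) (v w w' : V) (z y z' y' : V ⊕ A)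
    (hv : rk v ≤ t) (h1 : P.S.T (Sum.inl v) (Sum.inl w) z) (h2 : P.S.T (Sum.inl w) (Sum.inl v) y)
    (h3 : P.S.T (Sum.inl v) (Sum.inl w') z') (h4 : P.S.T (Sum.inl w') (Sum.inl v) y')
    (hz : P.hi rk t z) (hy : ¬ P.hi rk t y) (hz' : P.hi rk t z') (hy' : ¬ P.hi rk t y') :
    w = w' := by
  have hw := (P5_rk_of h2 hy).1
  have hw' := (P5_rk_of h4 hy').1
  by_cases ht : t ≤ N
  · exact Sum.inl_injective ((R.gd t ht).nxt_uniq P.S (R.nxt ht hv hw h1 hz)
      (R.nxt ht hv hw' h3 hz'))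
  · obtain ⟨x, rfl⟩ := R.inl_of ht hz
    obtain ⟨x', rfl⟩ := R.inl_of ht hz'
    obtain ⟨k, e1, e2, -⟩ := P.o_vvv h1
    obtain ⟨k', e1', e2', -⟩ := P.o_vvv h3
    have h5 : k + 1 = k' + 1 := P.a_inj (e1.symm.trans e1')
    have h6 : k = k' := add_right_cancel h5
    rw [e2, e2', h6]

private theorem P5R.k1R (R : P.P5R rk N) (t : ℕ) (v w w' : V) (z y z' y' : V ⊕ A)
    (hv : rk v ≤ t) (h1 : P.S.T (Sum.inl v) (Sum.inl w) z) (h2 : P.S.T (Sum.inl w) (Sum.inl v) y)
    (h3 : P.S.T (Sum.inl v) (Sum.inl w') z') (h4 : P.S.T (Sum.inl w') (Sum.inl v) y')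
    (hz : ¬ P.hi rk t z) (hy : P.hi rk t y) (hz' : ¬ P.hi rk t z') (hy' : P.hi rk t y') :
    w = w' := by
  have hw := (P5_rk_of h1 hz).2
  have hw' := (P5_rk_of h3 hz').2
  by_cases ht : t ≤ N
  · exact Sum.inl_injective ((R.gd t ht).prv_uniq P.S (R.nxt ht hw hv h2 hy)
      (R.nxt ht hw' hv h4 hy'))
  · obtain ⟨x, rfl⟩ := R.inl_of ht hy
    obtain ⟨x', rfl⟩ := R.inl_of ht hy'
    obtain ⟨k, e1, e2, -⟩ := P.o_vvv h2
    obtain ⟨k', e1', e2', -⟩ := P.o_vvv h4
    have h5 : k = k' := P.a_inj (e2.symm.trans e2')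
    rw [e1, e1', h5]

private theorem P5R.inner (R : P.P5R rk N) {v : V} (hv : P.inn v) : 1 ≤ rk v ∧ rk v ≤ N := by
  refine ⟨?_, R.le v (hv 2)⟩
  by_contra h
  have h1 : rk v = 0 := by omega
  rcases (R.z v).mp h1 with h2 | h2
  · exact hv 0 h2
  · exact hv 1 h2

private theorem P5R.dne (R : P.P5R rk N) (v : V) (hv : P.inn v) :
    ∃ f, P.inc v f ∧ P.top rk f = rk v := by
  obtain ⟨h1, h2⟩ := R.inner hv
  have hZ : v ∈ P5Z rk (rk v) := P5_memZ.mpr rfl
  rcases (R.st _ h1 h2).kind with ⟨x, hx, -, f, g, -, hf, -, hfW, -⟩ | ⟨g, hg⟩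
  · rw [hx, Finset.mem_singleton] at hZ
    rw [← hZ] at hf
    exact ⟨f, hf, le_antisymm (P.P5_Pin.mp hfW) (P.P5_le_top hf)⟩
  · have h3 := (hg.only v hZ).1
    exact ⟨g, h3, le_antisymm (P.P5_Pin.mp hg.pin) (P.P5_le_top h3)⟩

private theorem P5R.une (R : P.P5R rk N) (v : V) (hv : P.inn v) (f : A) :
    ∃ g, g ≠ f ∧ P.inc v g ∧ rk v < P.top rk g := by
  obtain ⟨h1, h2⟩ := R.inner hv
  have hZ : v ∈ P5Z rk (rk v) := P5_memZ.mpr rfl
  obtain ⟨u, hu, hadj⟩ := (R.st _ h1 h2).up v hZ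
  have hu' : rk v < rk u := by
    by_contra h
    exact hu (P5_mem.mpr (not_lt.mp h))
  rcases P.o_adj_iff.mp hadj with ⟨f1, hf1⟩ | ⟨k, hk, -⟩
  · rcases P.o_other hf1 with ⟨f2, hf2⟩ | ⟨k, hk, -⟩
    · have i1 := P.o_inc hf1
      have i2 := P.o_inc hf2
      by_cases h : f1 = f
      · refine ⟨f2, ?_, i2.2, lt_of_lt_of_le hu' (P.P5_le_top i2.1)⟩
        intro e
        rw [e, ← h] at hf2
        exact P.o_rev hf1 hf2
      · exact ⟨f1, h, i1.1, lt_of_lt_of_le hu' (P.P5_le_top i1.2)⟩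
    · exact absurd hk (hv k)
  · exact absurd hk (hv (k + 1))

private theorem P5R.k2 (R : P.P5R rk N) (u v : V) (z y : V ⊕ A)
    (h1 : P.S.T (Sum.inl u) (Sum.inl v) z) (h2 : P.S.T (Sum.inl v) (Sum.inl u) y)
    (h3 : ¬ (u = P.a 0 ∧ v = P.a 1)) (h4 : ¬ (u = P.a 1 ∧ v = P.a 0)) :
    ¬ (P.hi rk (max (rk u) (rk v)) z ∧ P.hi rk (max (rk u) (rk v)) y) := by
  rintro ⟨hz, hy⟩
  have hu := le_max_left (rk u) (rk v)
  have hv := le_max_right (rk u) (rk v)
  by_cases ht : max (rk u) (rk v) ≤ N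
  · rcases (R.gd _ ht).i2 (Sum.inl u) (P.st_inl.mpr (P5_mem.mpr hu)) (Sum.inl v)
      (P.st_inl.mpr (P5_mem.mpr hv)) z y (R.notin ht hu hv h1 hz) (R.notin ht hv hu h2 hy) h1 h2
      with ⟨e1, e2⟩ | ⟨e1, e2⟩
    · exact h3 ⟨Sum.inl_injective e1, Sum.inl_injective e2⟩
    · exact h4 ⟨Sum.inl_injective e1, Sum.inl_injective e2⟩
  · obtain ⟨x, rfl⟩ := R.inl_of ht hz
    obtain ⟨x', rfl⟩ := R.inl_of ht hy
    obtain ⟨k, e1, e2, -⟩ := P.o_vvv h1
    obtain ⟨k', e1', e2', -⟩ := P.o_vvv h2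
    have h5 : k + 1 = k' := P.a_inj (e1.symm.trans e2')
    have h6 : k = k' + 1 := P.a_inj (e2.symm.trans e1')
    rw [← h5] at h6
    exact absurd h6 ((by decide : ∀ k : Fin 3, k ≠ k + 1 + 1) k)

/-- the description of the top vertices of a facet -/
private theorem P5R.facet (R : P.P5R rk N) (f : A) :
    (∃ x, P.inc x f ∧ ∀ v, P.inc v f → rk v = P.top rk f → v = x) ∨
      (1 ≤ P.top rk f ∧ P.top rk f ≤ N ∧
        P.StepC (P5W rk (P.top rk f)) (P5Z rk (P.top rk f)) f) := by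
  obtain ⟨v, hv, hvt⟩ := P.P5_attained rk (P.P5_ex_inc f)
  by_cases ht : P.top rk f ≤ N
  · have ht1 : 1 ≤ P.top rk f := by
      by_contra h
      have h0 : P.top rk f ≤ 0 := by omega
      -- at most two vertices of rank 0
      obtain ⟨w, hw⟩ := hv
      obtain ⟨u, hu⟩ := P.o_pv ⟨w, hw⟩
      have r1 := P.P5_top_le.mp h0 v ⟨w, hw⟩
      have r2 := P.P5_top_le.mp h0 w (P.o_inc hw).2
      have r3 := P.P5_top_le.mp h0 u (P.o_inc hu).1
      have e1 := (R.z v).mp (by omega)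
      have e2 := (R.z w).mp (by omega)
      have e3 := (R.z u).mp (by omega)
      have n1 := P.o_ne hw
      have n2 := P.o_ne hu
      have n3 := P.o_np hu hw
      rcases e1 with e1 | e1 <;> rcases e2 with e2 | e2 <;> rcases e3 with e3 | e3
      · exact n1 (e1.trans e2.symm)
      · exact n1 (e1.trans e2.symm)
      · exact n2 (e3.trans e1.symm)
      · exact n3 (e3.trans e2.symm)
      · exact n3 (e3.trans e2.symm)
      · exact n2 (e3.trans e1.symm)
      · exact n1 (e1.trans e2.symm)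
      · exact n1 (e1.trans e2.symm)
    have hZ : v ∈ P5Z rk (P.top rk f) := P5_memZ.mpr hvt
    have hpin : P.Pin (P5W rk (P.top rk f)) f := P.P5_Pin.mpr le_rfl
    rcases (R.st _ ht1 ht).kind with ⟨x, hx, -⟩ | ⟨g, hg⟩
    · left
      refine ⟨v, hv, fun w _ hwt => ?_⟩
      have hw : w ∈ P5Z rk (P.top rk f) := P5_memZ.mpr hwt
      rw [hx, Finset.mem_singleton] at hZ hw
      rw [hZ, hw]
    · right
      have h1 := (hg.only v hZ).2 f hv hpin
      rw [← h1] at hg
      exact ⟨ht1, ht, hg⟩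
  · left
    have h1 := R.topb f
    have h2 : ∀ w, rk w = P.top rk f → w = P.a 2 := by
      intro w hw
      by_contra hne
      have := R.le w hne
      omega
    exact ⟨v, hv, fun w _ hwt => (h2 w hwt).trans (h2 v hvt).symm⟩

private theorem P5R.k3a (R : P.P5R rk N) (f : A) (u : V) :
    ∃ u', u' ≠ u ∧ P.inc u' f ∧ rk u' < P.top rk f := by
  rcases R.facet f with ⟨x, hx, hxu⟩ | ⟨-, -, hC⟩
  · obtain ⟨w, hw⟩ := hx
    obtain ⟨p, hp⟩ := P.o_pv ⟨w, hw⟩
    have iw := (P.o_inc hw).2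
    have ip := (P.o_inc hp).1
    have lw : rk w < P.top rk f := lt_of_le_of_ne (P.P5_le_top iw)
      (fun h => P.o_ne hw (hxu w iw h).symm)
    have lp : rk p < P.top rk f := lt_of_le_of_ne (P.P5_le_top ip)
      (fun h => P.o_ne hp (hxu p ip h))
    by_cases h : w = u
    · exact ⟨p, fun e => P.o_np hp hw (e.trans h.symm), ip, lp⟩
    · exact ⟨w, h, iw, lw⟩
  · obtain ⟨u', h1, h2, h3⟩ := hC.two u
    exact ⟨u', h1, h2, lt_of_le_of_ne (P.P5_le_top h2) (fun h => h3 (P5_memZ.mpr h))⟩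

private theorem P5R.k3u (R : P.P5R rk N) (f : A) (u v u' v' : V) (h1 : P.T u v f)
    (h2 : P.T u' v' f) (h3 : rk u < P.top rk f) (h4 : rk v = P.top rk f)
    (h5 : rk u' < P.top rk f) (h6 : rk v' = P.top rk f) : u = u' ∧ v = v' := by
  have hv : v = v' := by
    rcases R.facet f with ⟨x, hx, hxu⟩ | ⟨-, -, hC⟩
    · rw [hxu v (P.o_inc h1).2 h4, hxu v' (P.o_inc h2).2 h6]
    · exact hC.entry v (P5_memZ.mpr h4) v' (P5_memZ.mpr h6) u u' h1 h2
        (fun h => absurd (P5_memZ.mp h) h3.ne) (fun h => absurd (P5_memZ.mp h) h5.ne)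
  refine ⟨?_, hv⟩
  rw [← hv] at h2
  exact P.o_pvu h1 h2

private theorem P5R.k3d (R : P.P5R rk N) (f : A) (u v u' v' : V) (h1 : P.T u v f)
    (h2 : P.T u' v' f) (h3 : rk u = P.top rk f) (h4 : rk v < P.top rk f)
    (h5 : rk u' = P.top rk f) (h6 : rk v' < P.top rk f) : u = u' ∧ v = v' := by
  have hu : u = u' := by
    rcases R.facet f with ⟨x, hx, hxu⟩ | ⟨-, -, hC⟩
    · rw [hxu u (P.o_inc h1).1 h3, hxu u' (P.o_inc h2).1 h5]
    · exact hC.exit u (P5_memZ.mpr h3) u' (P5_memZ.mpr h5) v v' h1 h2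
        (fun h => absurd (P5_memZ.mp h) h4.ne) (fun h => absurd (P5_memZ.mp h) h6.ne)
  refine ⟨hu, ?_⟩
  rw [← hu] at h2
  exact P.o_nxu h1 h2

private theorem P5R.k3c (R : P.P5R rk N) (f : A) (z z' : V) (hne : z ≠ z') (h1 : P.inc z f)
    (h2 : P.inc z' f) (h3 : rk z = P.top rk f) (h4 : rk z' = P.top rk f) (g : A)
    (h5 : P.inc z g) (h6 : P.top rk g = rk z) : g = f := by
  rcases R.facet f with ⟨x, hx, hxu⟩ | ⟨-, -, hC⟩
  · exact absurd ((hxu z h1 h3).trans (hxu z' h2 h4).symm) hne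
  · refine (hC.only z (P5_memZ.mpr h3)).2 g h5 (P.P5_Pin.mpr ?_)
    rw [h6, h3]

private theorem P5R.k4 (R : P.P5R rk N) (u v : V) (f g : A) (h1 : P.T u v f) (h2 : P.T v u g)
    (h3 : rk u < rk v) (h4 : P.top rk f ≤ rk v) (h5 : P.top rk g ≤ rk v) :
    P.inn u ∧ ∀ h, P.inc u h → P.top rk h ≤ rk v := by
  by_cases ht : rk v ≤ N
  · have hZ : v ∈ P5Z rk (rk v) := P5_memZ.mpr rfl
    have hf : P.Pin (P5W rk (rk v)) f := P.P5_Pin.mpr h4
    have hg : P.Pin (P5W rk (rk v)) g := P.P5_Pin.mpr h5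
    have hv0 : v ≠ P.a 0 := fun e => by
      have := (R.z v).mpr (Or.inl e)
      omega
    have hv1 : v ≠ P.a 1 := fun e => by
      have := (R.z v).mpr (Or.inr e)
      omega
    rcases (R.st _ (by omega) ht).kind with ⟨x, hx, hX, -⟩ | ⟨c, hC⟩
    · have hxv : v = x := by
        rw [hx, Finset.mem_singleton] at hZ
        exact hZ
      rw [← hxv] at hX
      have hadj : P.S.Adj (Sum.inl v) (Sum.inl u) := ⟨_, h2⟩
      have key : ¬ P.S.Cont (P.st (P5W rk (rk v))) (Sum.inl u) := by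
        intro hc
        rcases hX.2 _ hc hadj with h6 | h6
        · rcases ((P.nxt_iff (R.gd _ ht)).mp h6).2.2 with ⟨f', hf', hn⟩ | ⟨e, -⟩
          · rw [P.o_side hf' h2] at hn
            exact hn hg
          · exact hv1 e
        · rcases ((P.nxt_iff (R.gd _ ht)).mp h6).2.2 with ⟨f', hf', hn⟩ | ⟨-, e⟩
          · rw [P.o_side hf' h1] at hn
            exact hn hf
          · exact hv0 e
      refine ⟨?_, ?_⟩
      · intro k hk
        have ha2 : (Sum.inl (P.a 2) : V ⊕ A) ∉ P.st (P5W rk (rk v)) := by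
          intro h6
          exact R.ne2 ht (P5_mem.mp (P.st_inl.mp h6)) rfl
        apply key
        refine ⟨P.st_inl.mpr (P5_mem.mpr h3.le), Sum.inl (P.a 2), ha2, ?_⟩
        rw [hk]
        fin_cases k
        · exact (P.S.adj_of_T P.out).2.2
        · exact (P.S.adj_of_T P.out).2.1
        · exact absurd hk (R.ne2 ht h3.le)
      · intro h hh
        by_contra hn
        exact key (P.cont_of_out (P5_mem.mpr h3.le) hh (fun h6 => hn (P.P5_Pin.mp h6)))
    · exfalso
      have e1 := (hC.only v hZ).2 f (P.o_inc h1).2 hf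
      have e2 := (hC.only v hZ).2 g (P.o_inc h2).1 hg
      rw [e1] at h1
      rw [e2] at h2
      exact P.o_rev h1 h2
  · have hb := R.bound v
    have hv2 : v = P.a 2 := by
      by_contra hne
      exact ht (R.le v hne)
    refine ⟨?_, fun h _ => ?_⟩
    · intro k hk
      rw [hk, hv2] at h1 h2
      have h6 : k = 0 ∨ k = 1 := by
        have h7 : k ≠ 2 := by
          intro e
          rw [hk, hv2, e] at h3
          exact absurd h3 (lt_irrefl _)
        exact (by decide : ∀ k : Fin 3, k ≠ 2 → k = 0 ∨ k = 1) k h7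
      rcases h6 with rfl | rfl
      · have h8 := P.S.rot (P.S.rot (P.o_outer 0))
        have h9 := P.o_outer 2
        have h10 : P.S.T (Sum.inl (P.a 0)) (Sum.inl (P.a 2)) (Sum.inl (P.a 1)) := h9
        have h11 := P.S.uniq h10 h1
        exact absurd h11 (by simp)
      · have h9 := P.o_outer 1
        have h10 : P.S.T (Sum.inl (P.a 2)) (Sum.inl (P.a 1)) (Sum.inl (P.a 0)) := h9
        have h11 := P.S.uniq h10 h2
        exact absurd h11 (by simp)
    · have := R.topb h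
      omega

private theorem P5R.k5a (R : P.P5R rk N) (s : ℕ) (v : V) (z y : V ⊕ A) (hv : rk v ≤ s)
    (h1 : P.S.T (Sum.inl v) (Sum.inl (P.a 0)) z) (h2 : P.S.T (Sum.inl (P.a 0)) (Sum.inl v) y)
    (hz : P.hi rk s z) (hy : ¬ P.hi rk s y) : v = P.a 1 := by
  by_cases ht : s ≤ N
  · have h3 := (P5_rk_of h2 hy).1
    exact Sum.inl_injective ((R.gd s ht).prv_uniq P.S (R.nxt ht hv h3 h1 hz)
      ((R.gd s ht).nxt_a1 P.S P.out))
  · obtain ⟨x, rfl⟩ := R.inl_of ht hz
    obtain ⟨k, e1, e2, -⟩ := P.o_vvv h1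
    have h3 : (0 : Fin 3) = k := P.a_inj e2
    rw [e1, ← h3]
    rfl

private theorem P5R.k5b (R : P.P5R rk N) (s : ℕ) (v : V) (z y : V ⊕ A) (hv : rk v ≤ s)
    (h1 : P.S.T (Sum.inl (P.a 1)) (Sum.inl v) z) (h2 : P.S.T (Sum.inl v) (Sum.inl (P.a 1)) y)
    (hz : P.hi rk s z) (hy : ¬ P.hi rk s y) : v = P.a 0 := by
  by_cases ht : s ≤ N
  · have h3 := (P5_rk_of h2 hy).2
    exact Sum.inl_injective ((R.gd s ht).nxt_uniq P.S (R.nxt ht h3 hv h1 hz)
      ((R.gd s ht).nxt_a1 P.S P.out))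
  · obtain ⟨x, rfl⟩ := R.inl_of ht hz
    obtain ⟨k, e1, e2, -⟩ := P.o_vvv h1
    have h3 : (1 : Fin 3) = k + 1 := P.a_inj e1
    have h4 : k = 0 := (by decide : ∀ k : Fin 3, 1 = k + 1 → k = 0) k h3
    rw [e2, h4]

end facts

/-- the rank function of section 1, from the existence of steps -/
theorem exists_rk_of (h0 : P.Gd (Finset.univ.erase (P.a 2)))
    (h1 : ∀ W : Finset V, P.Gd W → (∃ x ∈ W, x ≠ P.a 0 ∧ x ≠ P.a 1) →
      ∃ Z : Finset V, P.Step W Z ∧ P.Gd (W \ Z)) : ∃ rk : V → ℕ, RkOrd P rk := by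
  obtain ⟨rk, N, R⟩ := P.P5_exR h0 h1
  refine ⟨rk, ?_⟩
  exact
    { z0 := (R.z _).mpr (Or.inl rfl)
      z1 := (R.z _).mpr (Or.inr rfl)
      pos := by
        intro v hv0 hv1
        rw [pos_iff_ne_zero]
        intro h
        rcases (R.z v).mp h with e | e
        · exact hv0 e
        · exact hv1 e
      high := by
        intro v hv
        rw [R.top]
        exact Nat.lt_succ_of_le (R.le v hv)
      k1L := R.k1L
      k1R := R.k1R
      dne := R.dne
      une := R.une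
      k2 := R.k2
      k3a := R.k3a
      k3u := R.k3u
      k3d := R.k3d
      k3c := R.k3c
      k4 := R.k4
      k5a := R.k5a
      k5b := R.k5b }

end StP
end Pool.RP
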