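import Pool.Agent.Lib.MP_9dcace_rp.P4d
import Pool.Agent.Lib.MP_9dcace_rp.P5
set_option autoImplicit false

/-! Row P6 (helper94). Every stellated sphere has a rank function with the facts K1 - K5. -/

open Classical

namespace Pool.RP

theorem StP.exists_rk {V A : Type} [Fintype V] [Fintype A] (P : StP V A) :
    ∃ rk : V → ℕ, RkOrd P rk :=
  P.exists_rk_of P.Gd_init P.exists_step

end Pool.RP
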