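import Pool.Agent.Lib.MP_9dcace_rp.CSdC
import Pool.Agent.Lib.MP_9dcace_rp.P6
set_option autoImplicit false

/-!
Row CSd, end (helper76). Every stellated sphere has a Schnyder structure
(rows CSa, CSb, CSc, CSd; the rank function is in row P6).
-/

open Classical

namespace Pool.RP
open Pool.SX

variable {V A : Type} [Fintype V] [Fintype A]

theorem StP.exists_schP (P : StP V A) : ∃ s : SchP V A, SchPOf P s := by
  obtain ⟨rk, R⟩ := P.exists_rk
  exact R.exists_schP

end Pool.RP
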