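import Pool.Agent.Lib.MP_9dcace_rp.CSa
import Pool.Agent.Lib.MP_9dcace_sx.CS5
set_option autoImplicit false

/-!
Row CSd, part A (helper76). Connectedness of the facets across edges, every vertex lies in a facet,
the facets at the outer edges.
-/

open Classical

namespace Pool.RP
open Pool.SX
open Relation

variable {V A : Type} [Fintype V] [Fintype A] {P : StP V A}

namespace StP

/-- every vertex lies in a facet -/
theorem exists_inc_v (P : StP V A) (v : V) : ∃ f, P.inc v f := by
  obtain ⟨f0, -⟩ := exists_o (P := P) 0
  by_cases hv : ∀ k, v ≠ P.a k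
  · obtain ⟨h, w, -, -, hT⟩ := P.deg v hv f0 f0
    exact ⟨h, w, hT⟩
  · push Not at hv
    obtain ⟨k, rfl⟩ := hv
    obtain ⟨h, w, -, hT⟩ := P.dego k f0
    exact ⟨h, w, hT⟩

/-- connectedness of the facets (the outer one excepted) across the inner edges -/
theorem conn_facets (P : StP V A) (X : A → ℝ)
    (hX : ∀ (u v : V) (f g : A), P.T u v f → P.T v u g → X f = X g) (g g' : A) : X g = X g' := by
  set val : V ⊕ A → ℝ := Sum.elim (fun _ => 0) X with hval
  have hvl : ∀ v : V, val (Sum.inl v) = 0 := fun v => rfl
  have hvr : ∀ f : A, val (Sum.inr f) = X f := fun f => rfl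
  have hedge : ∀ u v w w' : V ⊕ A, P.S.T u v w → P.S.T v u w' →
      ¬ OutF (fun k => (Sum.inl (P.a k) : V ⊕ A)) u v w →
      ¬ OutF (fun k => (Sum.inl (P.a k) : V ⊕ A)) v u w' →
      val u + val v + val w = val v + val u + val w' := by
      intro u v w w' h h' hn hn'
      rcases u with u | f
      · rcases v with v | f
        · have hi : ∀ (x y z : V ⊕ A), P.S.T x y z → ¬ OutF (fun k => (Sum.inl (P.a k) : V ⊕ A)) x y z →
              ∀ p q : V, x = Sum.inl p → y = Sum.inl q → ∃ f, z = Sum.inr f := by
            rintro x y z hT hO p q rfl rfl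
            rcases z with z | f
            · exfalso
              apply hO
              rcases P.vvv p q z hT with ⟨h1, h2, h3⟩ | ⟨h1, h2, h3⟩ | ⟨h1, h2, h3⟩
              · exact Or.inl ⟨congrArg Sum.inl h1, congrArg Sum.inl h2, congrArg Sum.inl h3⟩
              · exact Or.inr (Or.inl ⟨congrArg Sum.inl h1, congrArg Sum.inl h2,
                  congrArg Sum.inl h3⟩)
              · exact Or.inr (Or.inr ⟨congrArg Sum.inl h1, congrArg Sum.inl h2,
                  congrArg Sum.inl h3⟩)
            · exact ⟨f, rfl⟩
          obtain ⟨f, rfl⟩ := hi _ _ _ h hn u v rfl rfl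
          obtain ⟨f', rfl⟩ := hi _ _ _ h' hn' v u rfl rfl
          rw [hvl, hvl, hvr, hvr, hX u v f f' h h']
        · have h1 : ∀ z : V ⊕ A, P.S.T (Sum.inl u) (Sum.inr f) z → val z = 0 := by
            intro z hz
            rcases z with z | g
            · exact hvl z
            · exact absurd (P.S.rot hz) (P.ff f g _)
          have h2 : ∀ z : V ⊕ A, P.S.T (Sum.inr f) (Sum.inl u) z → val z = 0 := by
            intro z hz
            rcases z with z | g
            · exact hvl z
            · exact absurd (P.S.rot (P.S.rot hz)) (P.ff g f _)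
          rw [h1 w h, h2 w' h']
          ring
      · rcases v with v | g
        · have h1 : ∀ z : V ⊕ A, P.S.T (Sum.inl v) (Sum.inr f) z → val z = 0 := by
            intro z hz
            rcases z with z | g
            · exact hvl z
            · exact absurd (P.S.rot hz) (P.ff f g _)
          have h2 : ∀ z : V ⊕ A, P.S.T (Sum.inr f) (Sum.inl v) z → val z = 0 := by
            intro z hz
            rcases z with z | g
            · exact hvl z
            · exact absurd (P.S.rot (P.S.rot hz)) (P.ff g f _)
          rw [h2 w h, h1 w' h']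
          ring
        · exact absurd h (P.ff f g _)
  obtain ⟨v, w, hT⟩ := exists_T (P := P) g
  obtain ⟨v', w', hT'⟩ := exists_T (P := P) g'
  have hno : ∀ (x y : V) (f : A),
      ¬ OutF (fun k => (Sum.inl (P.a k) : V ⊕ A)) (Sum.inl x) (Sum.inl y) (Sum.inr f) := by
    rintro x y f (⟨-, -, h⟩ | ⟨-, -, h⟩ | ⟨-, -, h⟩)
    · exact absurd h (by simp)
    · exact absurd h (by simp)
    · exact absurd h (by simp)
  have h := P.S.conn_faces (a := fun k => (Sum.inl (P.a k) : V ⊕ A)) P.out
    (fun x y z => val x + val y + val z) (fun u v w _ => by ring) hedge hT (hno v w g) hT'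
    (hno v' w' g')
  simp only [hvl, hvr] at h
  linarith

end StP

end Pool.RP
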