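import Pool.Agent.Lib.MP_9dcace_rp.CSdA
import Pool.Agent.Lib.MP_9dcace_rp.CSc
set_option autoImplicit false

/-!
Row CSd, part B (helper76). The potentials for the labels `LL`, and the assembly of the Schnyder
structure from the outgoing edges of row CSb.
-/

open Classical

namespace Pool.RP
open Pool.SX
open Relation

variable {V A : Type} [Fintype V] [Fintype A] {P : StP V A}

namespace RkOrd

open StP

variable {rk : V → ℕ}

private theorem CSdB_fin3 : ∀ k : Fin 3, k = 0 ∨ k = 1 ∨ k = 2 := by decide

theorem pots (R : RkOrd P rk) : ∃ r : Fin 3 → V → ℝ, ∀ (k : Fin 3) (g : A) (u v : V),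
    P.inc u g → P.LL rk k g v →
      (P.LL rk k g u → r k u = r k v) ∧ (¬ P.LL rk k g u → r k u < r k v) := by
  obtain ⟨r0, h0⟩ := R.CSc_pot0 (fun f v => P.LL rk 0 f v)
    (fun f v h => ⟨LL_lt h (by decide), h.1⟩)
    (fun f u v hT hu hv => R.xleft hT hu hv)
    (fun f v w hT hv hw => by
      obtain ⟨l, hl⟩ := exists_LL (rk := rk) (inc_of_T hT)
      have hl2 := R.nxl hl
      rw [nx_eq hT] at hl2
      rcases CSdB_fin3 l with rfl | rfl | rfl
      · exact hl
      · exfalso
        rcases hl2 with h | h
        · exact absurd (LL_uniq h hw) (by decide)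
        · exact absurd (LL_uniq h hw) (by decide)
      · exact absurd (LL_two.mp hl).2 hv.ne)
    (fun f v w hT hw hv => by
      have h := (LL_zero.mp hv).2.2.1
      rw [nx_eq hT] at h
      exact h.ne hw)
    (fun f v w hT hv hw => by
      have h := (LL_zero.mp hw).2.2.2
      rwa [pv_eq hT] at h)
  obtain ⟨r1, h1⟩ := R.CSc_pot1 (fun f v => P.LL rk 1 f v)
    (fun f v h => ⟨LL_lt h (by decide), h.1⟩)
    (fun f u v hT hu hv => xright hT hv hu)
    (fun f v w hT hv hw => by
      have hl2 := R.nxl hw
      rw [nx_eq hT] at hl2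
      rcases hl2 with h | h
      · exact h
      · exact absurd (LL_two.mp h).2 hv.ne)
    (fun f v w hT hw hv => by
      have h := R.xleft hT hw (LL_lt hv (by decide))
      exact absurd (LL_uniq h hv) (by decide))
    (fun f v w hT hv hw => by
      obtain ⟨hwi, hwt, hwn⟩ := LL_one.mp hw
      have hvt := LL_lt hv (by decide)
      rw [nx_eq hT] at hwn
      have hinn : P.inn w := by
        intro k hk
        rw [hk] at hw
        have hk1 := R.lab hw
        rw [← hk1] at hk
        rw [hk] at hT hwi
        have h := R.nx_a1 hwi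
        rw [nx_eq hT] at h
        exact hvt.ne h
      rcases R.k6 hinn hwi hwt with h | h
      · exact absurd ⟨hvt, h⟩ hwn
      · rwa [nx_eq hT] at h)
  refine ⟨![r0, r1, fun v => (rk v : ℝ)], ?_⟩
  intro k g u v hu hv
  rcases CSdB_fin3 k with rfl | rfl | rfl
  · exact h0 g u v hu hv
  · exact h1 g u v hu hv
  · have hv2 := (LL_two.mp hv).2
    constructor
    · intro h
      show ((rk u : ℕ) : ℝ) = rk v
      rw [(LL_two.mp h).2, hv2]
    · intro h
      show ((rk u : ℕ) : ℝ) < rk v
      have h1 : rk u < rk v := by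
        rw [hv2]
        exact lt_of_le_of_ne (le_top rk hu) (fun e => h (LL_two.mpr ⟨hu, e⟩))
      exact_mod_cast h1

/-- the assembly of the Schnyder structure from the outgoing edges -/
theorem schP_of (R : RkOrd P rk) (out : Fin 3 → V → V) (gL gR : Fin 3 → V → A)
    (lL : ∀ (c : Fin 3) (v : V), P.inn v → P.LL rk (c + 2) (gL c v) v)
    (nL : ∀ (c : Fin 3) (v : V), P.inn v → P.nx (gL c v) v = out c v)
    (lR : ∀ (c : Fin 3) (v : V), P.inn v → P.LL rk (c + 1) (gR c v) v)
    (nR : ∀ (c : Fin 3) (v : V), P.inn v → P.nx (gR c v) (out c v) = v)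
    (iR : ∀ (c : Fin 3) (v : V), P.inn v → P.inc (out c v) (gR c v))
    (lLR : ∀ (c : Fin 3) (v : V), P.inn v →
      P.LL rk c (gL c v) (out c v) ∨ P.LL rk c (gR c v) (out c v))
    (edge : ∀ {k : Fin 3} {g : A} {v : V}, P.LL rk k g v →
      (P.LL rk (k + 1) g (P.nx g v) ∧ ((v = P.a k ∧ P.nx g v = P.a (k + 1)) ∨
        (P.inn v ∧ g = gL (k + 1) v) ∨ (P.inn (P.nx g v) ∧ g = gR k (P.nx g v)))) ∨
      (P.LL rk k g (P.nx g v) ∧ P.inn v ∧ P.inn (P.nx g v) ∧ g = gL (k + 1) v ∧
        g = gR (k + 2) (P.nx g v))) :
    ∃ s : SchP V A, SchPOf P s := by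
  obtain ⟨r, hr⟩ := R.pots
  choose t ht1 ht2 using R.tN_ex
  choose o ho using (fun k => exists_o (P := P) k)
  have hTL : ∀ (c : Fin 3) (v : V), P.inn v → P.T v (out c v) (gL c v) := by
    intro c v hv
    have h := T_nx (lL c v hv).1
    rwa [nL c v hv] at h
  have hTR : ∀ (c : Fin 3) (v : V), P.inn v → P.T (out c v) v (gR c v) := by
    intro c v hv
    have h := T_nx (iR c v hv)
    rwa [nR c v hv] at h
  refine ⟨{
      L := fun k g v => P.LL rk k g v
      nx := P.nx
      t := t
      a := P.a
      out := out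
      gL := gL
      gR := gR
      o := o
      r := r
      a_inj := P.a_inj
      Luniq := fun h h' => LL_uniq h h'
      nxL := fun h => R.nxl h
      nxinj := fun h h' e => by
        have h1 := T_nx h.1
        have h2 := T_nx h'.1
        rw [e] at h1
        exact T_uniqL h1 h2
      cyc := fun h h' => StP.cyc h.1 h'.1
      dart := fun h h' e => by
        have h1 := T_nx h.1
        have h2 := T_nx h'.1
        rw [e] at h1
        exact T_dart h1 h2
      tL := fun k g => ht1 k g
      tN := fun k g => ht2 k g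
      tU := fun {k g v} h h' => R.tU h h' (ht1 k g) (ht2 k g)
      lL := lL
      nL := nL
      lR := lR
      nR := nR
      iR := fun c v hv => exists_LL (iR c v hv)
      lLR := lLR
      o0 := fun k => R.lab' (inc_of_T (ho k))
      o1 := fun k => R.lab' (inc_of_T' (ho k))
      on := fun k => nx_eq (ho k)
      edge := fun {k g v} h => by
        rcases edge h with ⟨h1, h2⟩ | h1
        · left
          refine ⟨h1, ?_⟩
          rcases h2 with ⟨h3, h4⟩ | h3
          · left
            refine ⟨?_, h3⟩
            have h5 := T_nx h.1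
            rw [h4] at h5
            rw [h3] at h5
            exact T_dart h5 (ho k)
          · exact Or.inr h3
        · exact Or.inr h1
      pot := fun {k l g u v} h h' hlk =>
        (hr k g u v h'.1 h).2 (fun h'' => hlk (LL_uniq h' h''))
      potE := fun {k g u v} h h' => (hr k g u v h'.1 h).1 h'
      lab := fun h => R.lab h
      cov := fun v => by
        obtain ⟨f, hf⟩ := P.exists_inc_v v
        obtain ⟨k, hk⟩ := exists_LL (rk := rk) hf
        exact ⟨k, f, hk⟩
      conn := fun X hX g g' => by
        refine P.conn_facets X ?_ g g'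
        intro u v f g hf hg
        obtain ⟨k, hk⟩ := exists_LL (rk := rk) (inc_of_T hf)
        have hnx := nx_eq hf
        have key1 : ∀ c, P.inn u → f = gL c u → X f = X g := by
          intro c hu e
          have h1 := hTL c u hu
          rw [← e] at h1
          have e2 := T_uniqR hf h1
          have h2 := hTR c u hu
          rw [← e2] at h2
          rw [T_dart hg h2, e]
          exact hX c u hu
        have key2 : ∀ c, P.inn v → f = gR c v → X f = X g := by
          intro c hv e
          have h1 := hTR c v hv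
          rw [← e] at h1
          have e2 := T_uniqL hf h1
          have h2 := hTL c v hv
          rw [← e2] at h2
          rw [T_dart hg h2, e]
          exact (hX c v hv).symm
        rcases edge hk with ⟨h1, ⟨h2, h3⟩ | ⟨h2, h3⟩ | ⟨h2, h3⟩⟩ | ⟨h1, h2, h3, h4, h5⟩
        · exfalso
          rw [hnx] at h3
          rw [h2, h3] at hg
          exact no_out hg
        · exact key1 _ h2 h3
        · rw [hnx] at h2 h3
          exact key2 _ h2 h3
        · exact key1 _ h2 h4 }, ?_⟩
  refine ⟨rfl, ?_, ?_⟩
  · intro k g v h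
    exact T_nx h.1
  · intro v w g h
    exact ⟨exists_LL (inc_of_T h), nx_eq h⟩

end RkOrd

end Pool.RP
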