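import Pool.Agent.Lib.MP_9dcace_rp.CSdB
import Pool.Agent.Lib.MP_9dcace_rp.CSb
set_option autoImplicit false

/-!
Row CSd, part C (helper76). Every rank function with the facts `RkOrd` gives a Schnyder structure.
-/

open Classical

namespace Pool.RP
open Pool.SX

variable {V A : Type} [Fintype V] [Fintype A] {P : StP V A}

theorem RkOrd.exists_schP {rk : V → ℕ} (R : RkOrd P rk) : ∃ s : SchP V A, SchPOf P s := by
  obtain ⟨out, gL, gR, W⟩ := R.exists_wood
  exact R.schP_of out gL gR (fun c v hv => W.lL hv c) (fun c v hv => W.nL hv c)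
    (fun c v hv => W.lR hv c) (fun c v hv => W.nR hv c) (fun c v hv => W.iR hv c)
    (fun c v hv => W.lLR hv c) (fun h => W.edge h)

end Pool.RP
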