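import Pool.Agent.Lib.MP_9dcace_sx.T7
import Pool.Agent.Lib.MP_9dcace_sx.T8

/-!
Section 6 (margins) of the REAL blueprint, the cone lemma: in a drawing of a Schnyder structure whose
triangles are all positive, the cone of a triangle at a vertex `v` contains no edge at `v` of another
triangle.
-/

set_option autoImplicit false

open Classical

namespace Pool.SX

variable {V F : Type} [Fintype V] [Fintype F]

/-- an affine function along the curve `P + e (X - P) + e^2 (X' - P)` -/
theorem ar_curve2 (a b P X X' : ℝ × ℝ) (e : ℝ) :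
    ar a b (P.1 + e * (X.1 - P.1) + e ^ 2 * (X'.1 - P.1),
      P.2 + e * (X.2 - P.2) + e ^ 2 * (X'.2 - P.2)) =
      ar a b P + e * (ar a b X - ar a b P) + e ^ 2 * (ar a b X' - ar a b P) := by
  unfold ar; ring

/-- the Pluecker relation at `P` -/
theorem ar_pluecker (P A B X X' : ℝ × ℝ) :
    ar P A X' * ar P X B = ar P A B * ar P X X' - ar P A X * ar P B X' := by
  unfold ar; ring

/-- cone lemma for plane points -/
theorem cone_eventually (P A B X X' : ℝ × ℝ) (h1 : 0 < ar P A B) (h2 : 0 < ar P X X')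
    (h3 : 0 ≤ ar P A X) (h4 : 0 < ar P X B) :
    ∃ y : ℝ × ℝ, 0 < ar P A y ∧ 0 < ar A B y ∧ 0 < ar B P y ∧
      0 < ar P X y ∧ 0 < ar X X' y ∧ 0 < ar X' P y := by
  have hP1 : ar P A P = 0 := by unfold ar; ring
  have hP2 : ar B P P = 0 := by unfold ar; ring
  have hP3 : ar P X P = 0 := by unfold ar; ring
  have hP4 : ar X' P P = 0 := by unfold ar; ring
  have hX1 : ar P X X = 0 := by unfold ar; ring
  have hX2 : ar X X' X = 0 := by unfold ar; ring
  have hX3 : ar X X' X' = 0 := by unfold ar; ring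
  have hX4 : ar X' P X' = 0 := by unfold ar; ring
  have r1 : ar A B P = ar P A B := by unfold ar; ring
  have r2 : ar B P X = ar P X B := by unfold ar; ring
  have r3 : ar X X' P = ar P X X' := by unfold ar; ring
  have r4 : ar X' P X = ar P X X' := by unfold ar; ring
  have hcase : 0 < ar P A X ∨ (ar P A X = 0 ∧ 0 < ar P A X') := by
    rcases h3.lt_or_eq with h | h
    · exact Or.inl h
    · right
      refine ⟨h.symm, ?_⟩
      have e := ar_pluecker P A B X X'
      rw [← h, zero_mul, sub_zero] at e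
      have h5 : 0 < ar P A X' * ar P X B := by rw [e]; exact mul_pos h1 h2
      exact (pos_iff_pos_of_mul_pos h5).mpr h4
  have lin1 : ∀ a b : ℝ, 0 < a → ∀ᶠ e in nhdsWithin (0 : ℝ) (Set.Ioi 0), 0 < a + e * b := by
    intro a b ha
    have hc : Continuous fun e : ℝ => a + e * b := by fun_prop
    have h0 : (0 : ℝ) < a + 0 * b := by simpa using ha
    exact nhdsWithin_le_nhds (hc.continuousAt.eventually (lt_mem_nhds h0))
  have E1 : ∀ᶠ e in nhdsWithin (0 : ℝ) (Set.Ioi 0), 0 < e * ar P A X + e ^ 2 * ar P A X' := by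
    rcases hcase with h | ⟨h, h'⟩
    · filter_upwards [lin1 _ (ar P A X') h, self_mem_nhdsWithin] with e he he0
      have he0' : 0 < e := he0
      have := mul_pos he0' he
      nlinarith
    · filter_upwards [self_mem_nhdsWithin] with e he0
      have he0' : 0 < e := he0
      rw [h, mul_zero, zero_add]
      positivity
  have E2 : ∀ᶠ e in nhdsWithin (0 : ℝ) (Set.Ioi 0), 0 < e * ar B P X + e ^ 2 * ar B P X' := by
    filter_upwards [lin1 (ar B P X) (ar B P X') (by rw [r2]; exact h4), self_mem_nhdsWithin]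
      with e he he0
    have he0' : 0 < e := he0
    have := mul_pos he0' he
    nlinarith
  have E3 : ∀ᶠ e in nhdsWithin (0 : ℝ) (Set.Ioi 0),
      0 < ar A B P + e * (ar A B X - ar A B P) + e ^ 2 * (ar A B X' - ar A B P) := by
    have hc : Continuous fun e : ℝ =>
      ar A B P + e * (ar A B X - ar A B P) + e ^ 2 * (ar A B X' - ar A B P) := by fun_prop
    have h0 : (0 : ℝ) < ar A B P + 0 * (ar A B X - ar A B P) +
        0 ^ 2 * (ar A B X' - ar A B P) := by
      rw [r1]; simpa using h1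
    exact nhdsWithin_le_nhds (hc.continuousAt.eventually (lt_mem_nhds h0))
  have E4 : ∀ᶠ e in nhdsWithin (0 : ℝ) (Set.Ioi 0), 0 < 1 - e - e ^ 2 := by
    have hc : Continuous fun e : ℝ => 1 - e - e ^ 2 := by fun_prop
    have h0 : (0 : ℝ) < 1 - 0 - 0 ^ 2 := by norm_num
    exact nhdsWithin_le_nhds (hc.continuousAt.eventually (lt_mem_nhds h0))
  obtain ⟨e, ⟨h5, h6, h7, h8⟩, h9⟩ :=
    ((E1.and (E2.and (E3.and E4))).and self_mem_nhdsWithin).exists
  have h9' : 0 < e := h9
  refine ⟨(P.1 + e * (X.1 - P.1) + e ^ 2 * (X'.1 - P.1),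
      P.2 + e * (X.2 - P.2) + e ^ 2 * (X'.2 - P.2)), ?_, ?_, ?_, ?_, ?_, ?_⟩
  · rw [ar_curve2, hP1]; linarith
  · rw [ar_curve2]; exact h7
  · rw [ar_curve2, hP2]; linarith
  · rw [ar_curve2, hP3, hX1]
    have := mul_pos (pow_pos h9' 2) h2
    linarith
  · rw [ar_curve2, hX2, hX3, r3]
    have := mul_pos h8 h2
    nlinarith
  · rw [ar_curve2, hP4, hX4, r4]
    have := mul_pos h9' h2
    linarith

/-- the cone lemma: `g = (v, a, b)`, `g' = (v, x, x')` two different triangles at `v` -/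
theorem Sch.cone (s : Sch V F) (p : V → ℝ × ℝ)
    (hout : 0 < ar (p (s.a 0)) (p (s.a 1)) (p (s.a 2)))
    (harea : ∀ g : F, 0 < ar (p (s.t 0 g)) (p (s.t 1 g)) (p (s.t 2 g)))
    (g g' : F) (j j' : Fin 3) (hv : s.t j g = s.t j' g') (hne : g ≠ g')
    (h3 : 0 ≤ ar (p (s.t j g)) (p (s.t (j + 1) g)) (p (s.t (j' + 1) g')))
    (h4 : 0 < ar (p (s.t j g)) (p (s.t (j' + 1) g')) (p (s.t (j + 2) g))) : False := by
  have h12 : ∀ j : Fin 3, j + 1 + 1 = j + 2 := by decide
  have h120 : ∀ j : Fin 3, j + 2 + 1 = j := by decide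
  have hg : 0 < ar (p (s.t j g)) (p (s.t (j + 1) g)) (p (s.t (j + 2) g)) := by
    rw [s.area_rot p g j]; exact harea g
  have hg' : 0 < ar (p (s.t j g)) (p (s.t (j' + 1) g')) (p (s.t (j' + 2) g')) := by
    rw [hv, s.area_rot p g' j']; exact harea g'
  obtain ⟨y, q1, q2, q3, q4, q5, q6⟩ := cone_eventually _ _ _ _ _ hg hg' h3 h4
  have a1 : ∀ k, 0 < ar (p (s.t k g)) (p (s.t (k + 1) g)) y := by
    intro k
    have : ∀ j k : Fin 3, k = j ∨ k = j + 1 ∨ k = j + 2 := by decide
    rcases this j k with rfl | rfl | rfl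
    · exact q1
    · rw [h12]; exact q2
    · rw [h120]; exact q3
  have a2 : ∀ k, 0 < ar (p (s.t k g')) (p (s.t (k + 1) g')) y := by
    intro k
    have : ∀ j k : Fin 3, k = j ∨ k = j + 1 ∨ k = j + 2 := by decide
    rcases this j' k with rfl | rfl | rfl
    · rw [← hv]; exact q4
    · rw [h12]; exact q5
    · rw [h120, ← hv]; exact q6
  obtain ⟨x, b1, b2, b3⟩ := s.generic_pt p harea g g' y a1 (fun k => (a2 k).le)
  exact hne (s.cover_one p hout harea x b1 g g' b2 b3)

end Pool.SX
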