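import Pool.Agent.Lib.MP_9dcace_rp.NDefs
import Pool.Agent.Lib.MP_9dcace_sx.CS7
import Pool.Agent.Lib.MP_9dcace_sx.F3c
import Pool.Agent.Lib.MP_9dcace_sx.F5

/-!
ROW Fa (F3 of the simplicial library for polygons, sign lemma through the stellated sphere).
For a forest of nonzero weight the colours of a counterclockwise triple of vertices of a facet are
either not all different or an even permutation: hence `area_eqP` : `DF * det H = ZF` for all
counterclockwise triples of a facet.  The centres of the facets are added to the forest with an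
arbitrary vertex of the facet as parent; at most one triangle of the stellated sphere has three colours
and it is positive (`sign_sum`, `one_tri`).
-/

set_option autoImplicit false

open Classical

namespace Pool.RP

open Pool.SX

/-! ### the colours along a facet -/

/-- a sequence of colours with steps 0 or 1, with at most one step from `c 0` to `c 0 + 1`,
cannot meet `c 0 + 2` before `c 0 + 1` -/
theorem Fa_cyc (c : ℕ → Fin 3) (i j : ℕ) (hij : i < j)
    (h2 : ∀ m, m < j → c (m + 1) = c m ∨ c (m + 1) = c m + 1)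
    (h1 : ∀ m m', m < m' → m' < j → c m = c 0 → c (m + 1) = c 0 + 1 → c m' = c 0 →
      c (m' + 1) = c 0 + 1 → False)
    (hc : c i = c 0 + 2) (hc' : c j = c 0 + 1) : False := by
  have e1 : ∀ x : Fin 3, x + 2 ≠ x := by decide
  have e2 : ∀ x : Fin 3, x + 2 ≠ x + 1 := by decide
  have e3 : ∀ x y : Fin 3, x + 1 = y + 1 → x = y := by decide
  -- the first step
  have hex : ∃ m, m < i ∧ c m = c 0 ∧ c (m + 1) = c 0 + 1 := by
    by_contra hcon
    push Not at hcon
    have hall : ∀ m, m ≤ i → c m = c 0 := by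
      intro m
      induction m with
      | zero => intro _; rfl
      | succ m ih =>
        intro hm
        have h3 := ih (by omega)
        rcases h2 m (by omega) with h4 | h4
        · rw [h4, h3]
        · exact absurd (by rw [h4, h3]) (hcon m (by omega) h3)
    exact e1 (c 0) (hc.symm.trans (hall i le_rfl))
  -- the second step
  have hex' : ∃ m, i ≤ m ∧ m < j ∧ c m = c 0 ∧ c (m + 1) = c 0 + 1 := by
    by_contra hcon
    push Not at hcon
    have hall : ∀ m, i + m ≤ j → c (i + m) ≠ c 0 + 1 := by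
      intro m
      induction m with
      | zero =>
        intro _ h3
        rw [Nat.add_zero, hc] at h3
        exact e2 _ h3
      | succ m ih =>
        intro hm h3
        have h4 := ih (by omega)
        rcases h2 (i + m) (by omega) with h5 | h5
        · exact h4 (h5.symm.trans h3)
        · have h6 : c (i + m) = c 0 := e3 _ _ (h5.symm.trans h3)
          exact hcon (i + m) (by omega) (by omega) h6 h3
    have h7 := hall (j - i) (by omega)
    rw [Nat.add_sub_cancel' hij.le] at h7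
    exact h7 hc'
  obtain ⟨m, hm, ha, hb⟩ := hex
  obtain ⟨m', hm', hm'', ha', hb'⟩ := hex'
  exact h1 m m' (by omega) hm'' ha hb ha' hb'

private theorem Fa_det3 (x y z : Fin 3) :
    (Matrix.of (fun j k => if (![x, y, z] : Fin 3 → Fin 3) j = k then (1 : ℝ) else 0) :
      Matrix (Fin 3) (Fin 3) ℝ).det = if y = x + 1 ∧ z = x + 2 then 1 else
        if y = x + 2 ∧ z = x + 1 then -1 else 0 := by
  rw [Matrix.det_fin_three]
  fin_cases x <;> fin_cases y <;> fin_cases z <;> simp

/-- the determinant of three colours -/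
theorem Fa_det (c : Fin 3 → Fin 3) :
    (Matrix.of (fun j k => if c j = k then (1 : ℝ) else 0) :
      Matrix (Fin 3) (Fin 3) ℝ).det = if c 1 = c 0 + 1 ∧ c 2 = c 0 + 2 then 1 else
        if c 1 = c 0 + 2 ∧ c 2 = c 0 + 1 then -1 else 0 := by
  have h : c = ![c 0, c 1, c 2] := by
    funext j
    fin_cases j <;> rfl
  have h1 := Fa_det3 (c 0) (c 1) (c 2)
  rw [← h] at h1
  exact h1

/-- three different colours: one of the two cyclic orders -/
theorem Fa_inj (c : Fin 3 → Fin 3) : Function.Injective c ↔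
    (c 1 = c 0 + 1 ∧ c 2 = c 0 + 2) ∨ (c 1 = c 0 + 2 ∧ c 2 = c 0 + 1) := by
  revert c
  decide

/-! ### a triangulation: the three-coloured face is positive -/

section tri

variable {W G : Type} [Fintype W] [Fintype G]

omit [Fintype G] in
theorem Fa_memFor {I : Finset W} {π : W → W} : π ∈ For I ↔
    (∀ v, v ∉ I → π v = v) ∧ ∀ v, ∃ n : ℕ, π^[n] v ∉ I := by
  simp [For]

theorem Fa_tri (S : Sch W G) (col : W → Fin 3) (h : ∀ k, col (S.a k) = k) (π : W → W)
    (hπ : π ∈ For S.VI) (hc : ∀ v, S.inn v → S.Edge v (π v) ∧ col (π v) = col v) (g : G)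
    (hg : Function.Injective (fun j => col (S.t j g))) (k : Fin 3) :
    col (S.t (k + 1) g) = col (S.t k g) + 1 := by
  have hsum := S.sign_sum col h
  rw [Finset.sum_eq_single g] at hsum
  · rw [Fa_det (fun j => col (S.t j g))] at hsum
    have h1 : col (S.t 1 g) = col (S.t 0 g) + 1 ∧ col (S.t 2 g) = col (S.t 0 g) + 2 := by
      by_contra hcon
      rw [if_neg hcon] at hsum
      split_ifs at hsum
      · norm_num at hsum
      · norm_num at hsum
    have e1 : ∀ x : Fin 3, x + 2 = x + 1 + 1 := by decide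
    have e2 : ∀ x : Fin 3, x = x + 2 + 1 := by decide
    fin_cases k
    · exact h1.1
    · show col (S.t 2 g) = col (S.t 1 g) + 1
      rw [h1.1, h1.2, e1]
    · show col (S.t 0 g) = col (S.t 2 g) + 1
      rw [h1.2, ← e2]
  · intro g' _ hne
    apply Sch.det_not_inj_F3c (fun j => col (S.t j g'))
    intro hg'
    exact hne (S.one_tri col h π hπ hc g' g hg' hg)
  · intro h
    exact absurd (Finset.mem_univ g) h

theorem Fa_edge {S : Sph W} {s : Sch W G}
    (hall : ∀ u v w : W, S.T u v w → ¬ OutF s.a u v w →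
      ∃ (g : G) (k : Fin 3), s.t k g = u ∧ s.t (k + 1) g = v ∧ s.t (k + 2) g = w)
    {u v : W} (h : S.Adj u v) (hu : s.inn u) : s.Edge u v := by
  obtain ⟨w, hw⟩ := h
  have ho : ¬ OutF s.a u v w := by
    rintro (⟨h1, _, _⟩ | ⟨h1, _, _⟩ | ⟨h1, _, _⟩)
    · exact hu 1 h1
    · exact hu 0 h1
    · exact hu 2 h1
  obtain ⟨g, k, h1, h2, h3⟩ := hall u v w hw ho
  rcases s.edge g k with he | ⟨hi, he⟩ | ⟨hi, he⟩
  · exfalso
    apply hu k
    rw [← h1, he, s.o0]
  · left
    refine ⟨k + 1, hu, ?_⟩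
    have h4 := s.tL0 (k + 1) (s.t k g) hi
    rw [← he] at h4
    rw [← h2, ← h1]
    exact h4
  · right
    refine ⟨k, ?_, ?_⟩
    · rw [← h2]; exact hi
    · have h4 := s.tR0 k (s.t (k + 1) g) hi
      rw [← he] at h4
      rw [← h2, ← h1]
      exact h4

end tri

/-! ### the fan of a facet -/

variable {V A : Type} [Fintype V] [Fintype A]

theorem Fa_fan {P : StP V A} {s : SchP V A} (hs : SchPOf P s) (col : V → Fin 3)
    (h : ∀ k, col (s.a k) = k) (π : V → V) (hπ : π ∈ For s.VI)
    (hc : ∀ v, s.inn v → P.S.Adj (Sum.inl v) (Sum.inl (π v)) ∧ col (π v) = col v)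
    (f : A) (x : V) (hx : P.inc x f) :
    (∀ v w, P.T v w f → col v ≠ col w → col w ≠ col x → col x ≠ col v → col w = col v + 1) ∧
    (∀ v w v' w', P.T v w f → P.T v' w' f → col v ≠ col w → col w ≠ col x → col x ≠ col v →
      col v' ≠ col w' → col w' ≠ col x → col x ≠ col v' → v = v') := by
  obtain ⟨G, hG, S, hSa, _, _, hall, _⟩ := P.S.exists_sch (fun k => Sum.inl (P.a k)) P.out
  have hall' : ∀ u v w : V ⊕ A, P.S.T u v w → ¬ OutF S.a u v w →
      ∃ (g : G) (k : Fin 3), S.t k g = u ∧ S.t (k + 1) g = v ∧ S.t (k + 2) g = w := by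
    rw [hSa]; exact hall
  -- a vertex for every facet
  have hex : ∀ g : A, ∃ y : V, P.inc y g := fun g =>
    ⟨s.t 0 g, s.nx g (s.t 0 g), hs.hT 0 g _ (s.tL 0 g)⟩
  choose y0 hy0 using hex
  let y : A → V := fun g => if g = f then x else y0 g
  have hy : ∀ g, P.inc (y g) g := by
    intro g
    by_cases hg : g = f
    · simp only [y, if_pos hg]
      rw [hg]
      exact hx
    · simp only [y, if_neg hg]
      exact hy0 g
  have hyf : y f = x := by simp [y]
  let col' : V ⊕ A → Fin 3 := Sum.elim col (fun g => col (y g))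
  let π' : V ⊕ A → V ⊕ A := Sum.elim (fun v => Sum.inl (π v)) (fun g => Sum.inl (y g))
  have hcol' : ∀ k, col' (S.a k) = k := by
    intro k
    rw [hSa]
    show col (P.a k) = k
    rw [← hs.ha]
    exact h k
  have hVI : ∀ v, v ∈ s.VI ↔ s.inn v := fun v => by simp [SchP.VI]
  have hVI' : ∀ z, z ∈ S.VI ↔ S.inn z := fun z => by simp [Sch.VI]
  have hinn : ∀ v, S.inn (Sum.inl v) ↔ s.inn v := by
    intro v
    unfold Sch.inn SchP.inn
    rw [hSa, hs.ha]
    constructor
    · intro h1 k h2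
      exact h1 k (congrArg Sum.inl h2)
    · intro h1 k h2
      exact h1 k (Sum.inl_injective h2)
  have hinr : ∀ g, S.inn (Sum.inr g) := by
    intro g k h1
    rw [hSa] at h1
    exact Sum.inr_ne_inl h1
  have hπ0 := Fa_memFor.1 hπ
  have hit : ∀ (n : ℕ) (v : V), π'^[n] (Sum.inl v) = Sum.inl (π^[n] v) := by
    intro n
    induction n with
    | zero => intro v; rfl
    | succ n ih =>
      intro v
      rw [Function.iterate_succ_apply, Function.iterate_succ_apply]
      exact ih (π v)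
  have hπ' : π' ∈ For S.VI := by
    refine Fa_memFor.2 ⟨?_, ?_⟩
    · rintro (v | g) hv
      · rw [hVI', hinn, ← hVI] at hv
        show Sum.inl (π v) = Sum.inl v
        rw [hπ0.1 v hv]
      · exact absurd ((hVI' _).2 (hinr g)) hv
    · rintro (v | g)
      · obtain ⟨n, hn⟩ := hπ0.2 v
        refine ⟨n, ?_⟩
        rw [hit, hVI', hinn, ← hVI]
        exact hn
      · obtain ⟨n, hn⟩ := hπ0.2 (y g)
        refine ⟨n + 1, ?_⟩
        rw [Function.iterate_succ_apply]
        show π'^[n] (Sum.inl (y g)) ∉ S.VI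
        rw [hit, hVI', hinn, ← hVI]
        exact hn
  have hc' : ∀ z, S.inn z → S.Edge z (π' z) ∧ col' (π' z) = col' z := by
    rintro (v | g) hz
    · obtain ⟨h1, h2⟩ := hc v ((hinn v).1 hz)
      exact ⟨Fa_edge hall' h1 hz, h2⟩
    · obtain ⟨w, hw⟩ := hy g
      exact ⟨Fa_edge hall' ⟨Sum.inl w, P.S.rot (P.S.rot hw)⟩ hz, rfl⟩
  -- the triangle of S on the edge `v → w` of `f`
  have hface : ∀ v w, P.T v w f → ∃ (g : G) (k : Fin 3), S.t k g = Sum.inl v ∧
      S.t (k + 1) g = Sum.inl w ∧ S.t (k + 2) g = Sum.inr f := by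
    intro v w hT
    apply hall' _ _ _ hT
    rw [hSa]
    rintro (⟨_, _, h3⟩ | ⟨_, _, h3⟩ | ⟨_, _, h3⟩) <;> exact Sum.inr_ne_inl h3
  have hinj : ∀ v w g k, S.t k g = Sum.inl v → S.t (k + 1) g = Sum.inl w →
      S.t (k + 2) g = Sum.inr f → col v ≠ col w → col w ≠ col x → col x ≠ col v →
      Function.Injective (fun j => col' (S.t j g)) := by
    intro v w g k h1 h2 h3 n1 n2 n3
    have e1 : col' (S.t k g) = col v := by rw [h1]; rfl
    have e2 : col' (S.t (k + 1) g) = col w := by rw [h2]; rfl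
    have e3 : col' (S.t (k + 2) g) = col x := by
      rw [h3]
      show col (y f) = col x
      rw [hyf]
    have key : ∀ (d : Fin 3 → Fin 3) (k : Fin 3), d k ≠ d (k + 1) → d (k + 1) ≠ d (k + 2) →
        d (k + 2) ≠ d k → Function.Injective d := by decide
    exact key (fun j => col' (S.t j g)) k (by simp only [e1, e2]; exact n1)
      (by simp only [e2, e3]; exact n2) (by simp only [e3, e1]; exact n3)
  constructor
  · intro v w hT n1 n2 n3
    obtain ⟨g, k, h1, h2, h3⟩ := hface v w hT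
    have h4 := Fa_tri S col' hcol' π' hπ' hc' g (hinj v w g k h1 h2 h3 n1 n2 n3) k
    rw [h1, h2] at h4
    exact h4
  · intro v w v' w' hT hT' n1 n2 n3 n1' n2' n3'
    obtain ⟨g, k, h1, h2, h3⟩ := hface v w hT
    obtain ⟨g', k', h1', h2', h3'⟩ := hface v' w' hT'
    have i1 := hinj v w g k h1 h2 h3 n1 n2 n3
    have i2 := hinj v' w' g' k' h1' h2' h3' n1' n2' n3'
    have hg := S.one_tri col' hcol' π' hπ' hc' g g' i1 i2
    subst hg
    have h5 : k + 2 = k' + 2 := i1 (by simp only [h3, h3'])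
    have h6 : k = k' := add_right_cancel h5
    subst h6
    exact Sum.inl_injective (h1.symm.trans h1')

/-! ### facts on the cyclic order of a facet -/

theorem Fa_inc_iter (s : SchP V A) {g : A} {u : V} (hu : s.Inc u g) (m : ℕ) :
    s.Inc ((s.nx g)^[m] u) g := by
  induction m with
  | zero => exact hu
  | succ m ih =>
    rw [Function.iterate_succ_apply']
    obtain ⟨k, hk⟩ := ih
    rcases s.nxL hk with h | h
    · exact ⟨_, h⟩
    · exact ⟨_, h⟩

theorem Fa_iter_inj (s : SchP V A) {g : A} {u : V} (hu : s.Inc u g) {m m' : ℕ} (hm : m ≤ m')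
    (h : (s.nx g)^[m] u = (s.nx g)^[m'] u) : (s.nx g)^[m' - m] u = u := by
  induction m generalizing m' with
  | zero => rw [Nat.sub_zero]; exact h.symm
  | succ m ih =>
    obtain ⟨n, rfl⟩ : ∃ n, m' = n + 1 := ⟨m' - 1, by omega⟩
    rw [Function.iterate_succ_apply', Function.iterate_succ_apply'] at h
    obtain ⟨k, hk⟩ := Fa_inc_iter s hu m
    obtain ⟨l, hl⟩ := Fa_inc_iter s hu n
    have h1 := ih (m' := n) (by omega) (s.nxinj hk hl h)
    rw [Nat.succ_sub_succ]
    exact h1

/-- the colours of a counterclockwise triple of a facet: the determinant is 0 or 1 -/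
theorem Fa_sign {P : StP V A} {s : SchP V A} (hs : SchPOf P s) (col : V → Fin 3)
    (h : ∀ k, col (s.a k) = k) (π : V → V) (hπ : π ∈ For s.VI)
    (hc : ∀ v, s.inn v → P.S.Adj (Sum.inl v) (Sum.inl (π v)) ∧ col (π v) = col v)
    (g : A) (p : Fin 3 → V) (hp : s.Ccw g (p 0) (p 1) (p 2)) :
    (Matrix.of (fun j k => if col (p j) = k then (1 : ℝ) else 0) :
      Matrix (Fin 3) (Fin 3) ℝ).det =
      if Function.Injective (fun j => col (p j)) then 1 else 0 := by
  rw [Fa_det (fun j => col (p j))]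
  by_cases h1 : col (p 1) = col (p 0) + 1 ∧ col (p 2) = col (p 0) + 2
  · rw [if_pos h1, if_pos]
    exact (Fa_inj (fun j => col (p j))).2 (Or.inl h1)
  · rw [if_neg h1]
    by_cases h2 : col (p 1) = col (p 0) + 2 ∧ col (p 2) = col (p 0) + 1
    · exfalso
      obtain ⟨hu, i, j, hi, hij, hv, hw, hno⟩ := hp
      have hT : ∀ m, P.T ((s.nx g)^[m] (p 0)) ((s.nx g)^[m + 1] (p 0)) g := by
        intro m
        obtain ⟨k, hk⟩ := Fa_inc_iter s hu m
        rw [Function.iterate_succ_apply']
        exact hs.hT k g _ hk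
      have hin : ∀ m, P.inc ((s.nx g)^[m] (p 0)) g := fun m => ⟨_, hT m⟩
      -- every colour occurs in the facet
      have hall : ∀ a b : Fin 3, a ≠ b → ∃ x, P.inc x g ∧ b ≠ col x ∧ col x ≠ a := by
        intro a b hab
        have h3 : ∀ a b x : Fin 3, a ≠ b → (b ≠ x ∧ x ≠ a) ∨ (b ≠ x + 2 ∧ x + 2 ≠ a) ∨
            (b ≠ x + 1 ∧ x + 1 ≠ a) := by decide
        rcases h3 a b (col (p 0)) hab with h4 | h4 | h4
        · exact ⟨p 0, hin 0, h4⟩
        · refine ⟨p 1, ?_, ?_⟩
          · rw [hv]; exact hin i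
          · rw [h2.1]; exact h4
        · refine ⟨p 2, ?_, ?_⟩
          · rw [hw]; exact hin j
          · rw [h2.2]; exact h4
      refine Fa_cyc (fun m => col ((s.nx g)^[m] (p 0))) i j hij ?_ ?_ ?_ ?_
      · intro m _
        by_cases h5 : col ((s.nx g)^[m + 1] (p 0)) = col ((s.nx g)^[m] (p 0))
        · exact Or.inl h5
        · right
          obtain ⟨x, hx, hx1, hx2⟩ := hall _ _ (Ne.symm h5)
          exact (Fa_fan hs col h π hπ hc g x hx).1 _ _ (hT m) (Ne.symm h5) hx1 hx2
      · intro m m' hm hm' a1 a2 a3 a4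
        have e1 : ∀ x : Fin 3, x ≠ x + 1 ∧ x + 1 ≠ x + 2 ∧ x + 2 ≠ x := by decide
        have hx : P.inc (p 1) g := by rw [hv]; exact hin i
        simp only [Function.iterate_zero, id_eq] at a1 a2 a3 a4
        have h6 := (Fa_fan hs col h π hπ hc g (p 1) hx).2 _ _ _ _ (hT m) (hT m')
          (by rw [a1, a2]; exact (e1 _).1) (by rw [a2, h2.1]; exact (e1 _).2.1)
          (by rw [a1, h2.1]; exact (e1 _).2.2)
          (by rw [a3, a4]; exact (e1 _).1) (by rw [a4, h2.1]; exact (e1 _).2.1)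
          (by rw [a3, h2.1]; exact (e1 _).2.2)
        exact hno (m' - m) (by omega) (by omega) (Fa_iter_inj s hu hm.le h6)
      · show col ((s.nx g)^[i] (p 0)) = col (p 0) + 2
        rw [← hv]; exact h2.1
      · show col ((s.nx g)^[j] (p 0)) = col (p 0) + 1
        rw [← hw]; exact h2.2
    · rw [if_neg h2, if_neg]
      intro h3
      rcases (Fa_inj (fun j => col (p j))).1 h3 with h4 | h4
      · exact h1 h4
      · exact h2 h4

/-- F3 for polygons -/
theorem area_eqP {P : StP V A} {s : SchP V A} (hs : SchPOf P s) (om : V → V → ℝ)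
    (hE : ∀ u v, om u v ≠ 0 → ∃ c, (s.inn u ∧ v = s.out c u) ∨ (s.inn v ∧ u = s.out c v))
    (χ : V → Fin 3) (hχ : ∀ k, χ (s.a k) = k) (H : V → Fin 3 → ℝ)
    (h1 : ∀ k j, H (s.a k) j = if k = j then 1 else 0)
    (h2 : ∀ v, s.inn v → ∀ k, lap om (fun u => H u k) v = 0) (g : A) (p : Fin 3 → V)
    (hp : s.Ccw g (p 0) (p 1) (p 2)) :
    DF om s.VI * (Matrix.of (fun j k => H (p j) k) : Matrix (Fin 3) (Fin 3) ℝ).det =
      ZF om s.VI χ p := by
  have hmem : ∀ v, v ∈ s.VI ↔ s.inn v := fun v => by simp [SchP.VI]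
  have hout : ∀ v, v ∉ s.VI → ∃ k, v = s.a k := by
    intro v hv
    rw [hmem, SchP.inn] at hv
    push Not at hv
    exact hv
  have ha : ∀ k, s.a k ∉ s.VI := by
    intro k hk
    rw [hmem] at hk
    exact hk k rfl
  have key := DF_mul_det om s.VI χ H (by
      intro v hv k
      obtain ⟨i, rfl⟩ := hout v hv
      rw [h1, hχ]) (fun v hv k => h2 v ((hmem v).1 hv) k) p
  rw [key]
  unfold ZF
  rw [Finset.sum_filter]
  apply Finset.sum_congr rfl
  intro π hπ
  by_cases hW : WF om s.VI π = 0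
  · rw [hW]
    simp
  have hcol : ∀ k, (fun v => χ (root π v)) (s.a k) = k := by
    intro k
    show χ (root π (s.a k)) = k
    rw [root_of_not_mem s.VI π hπ _ (ha k), hχ]
  have hadj : ∀ c v, s.inn v → P.S.Adj (Sum.inl v) (Sum.inl (s.out c v)) ∧
      P.S.Adj (Sum.inl (s.out c v)) (Sum.inl v) := by
    intro c v hv
    constructor
    · have h3 := hs.hT _ _ _ (s.lL c v hv)
      rw [s.nL c v hv] at h3
      exact ⟨_, h3⟩
    · obtain ⟨l, hl⟩ := s.iR c v hv
      have h3 := hs.hT _ _ _ hl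
      rw [s.nR c v hv] at h3
      exact ⟨_, h3⟩
  have hc : ∀ v, s.inn v → P.S.Adj (Sum.inl v) (Sum.inl (π v)) ∧
      (fun v => χ (root π v)) (π v) = (fun v => χ (root π v)) v := by
    intro v hv
    refine ⟨?_, ?_⟩
    · have h3 : om v (π v) ≠ 0 := fun h0 => hW (Finset.prod_eq_zero ((hmem v).2 hv) h0)
      obtain ⟨c, ⟨hi, hc⟩ | ⟨hi, hc⟩⟩ := hE _ _ h3
      · rw [hc]; exact (hadj c v hi).1
      · have h4 := (hadj c (π v) hi).2
        rw [← hc] at h4
        exact h4
    · show χ (root π (π v)) = χ (root π v)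
      rw [root_step s.VI π hπ]
  rw [Fa_sign hs (fun v => χ (root π v)) hcol π hπ hc g p hp]
  by_cases hg : Function.Injective (fun j => χ (root π (p j)))
  · rw [if_pos hg, if_pos hg, mul_one]
  · rw [if_neg hg, if_neg hg, mul_zero]

/-- the vertices with the labels 0, 1, 2 are in counterclockwise order -/
theorem ccw_of_Tp (s : SchP V A) {g : A} {p : Fin 3 → V} (hp : s.Tp g p) :
    s.Ccw g (p 0) (p 1) (p 2) := by
  have hu : s.Inc (p 0) g := ⟨0, hp 0⟩
  -- the period
  have hper : ∃ n, 0 < n ∧ (s.nx g)^[n] (p 0) = p 0 := by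
    obtain ⟨l, hl⟩ := Fa_inc_iter s hu 1
    obtain ⟨n, hn⟩ := s.cyc hl (hp 0)
    exact ⟨n + 1, Nat.succ_pos _, hn⟩
  set N := Nat.find hper with hN
  obtain ⟨hN0, hN1⟩ := Nat.find_spec hper
  have hmin : ∀ m, 0 < m → m < N → (s.nx g)^[m] (p 0) ≠ p 0 := fun m hm hmN hh =>
    Nat.find_min hper hmN ⟨hm, hh⟩
  -- every vertex of g appears before N
  have hmul : ∀ n q, (s.nx g)^[n + N * q] (p 0) = (s.nx g)^[n] (p 0) := by
    intro n q
    induction q with
    | zero => rfl
    | succ q ih =>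
      have e : n + N * (q + 1) = (n + N * q) + N := by ring
      rw [e, Function.iterate_add_apply, hN1, ih]
  have hreach : ∀ l v, s.L l g v → ∃ n, n < N ∧ (s.nx g)^[n] (p 0) = v := by
    intro l v hv
    obtain ⟨n, hn⟩ := s.cyc (hp 0) hv
    refine ⟨n % N, Nat.mod_lt _ hN0, ?_⟩
    rw [← hn]
    conv_rhs => rw [← Nat.mod_add_div n N]
    rw [hmul]
  obtain ⟨i, hiN, hi⟩ := hreach 1 (p 1) (hp 1)
  obtain ⟨j, hjN, hj⟩ := hreach 2 (p 2) (hp 2)
  -- the labels
  have hlab : ∀ m, ∃ l, s.L l g ((s.nx g)^[m] (p 0)) := fun m => Fa_inc_iter s hu m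
  choose c hc using hlab
  have c0 : c 0 = 0 := s.Luniq (hc 0) (hp 0)
  have ci : c i = 1 := by
    have h1 := hc i
    rw [hi] at h1
    exact s.Luniq h1 (hp 1)
  have cj : c j = 2 := by
    have h1 := hc j
    rw [hj] at h1
    exact s.Luniq h1 (hp 2)
  have hstep : ∀ m, c (m + 1) = c m ∨ c (m + 1) = c m + 1 := by
    intro m
    have h1 := hc (m + 1)
    rw [Function.iterate_succ_apply'] at h1
    rcases s.nxL (hc m) with h2 | h2
    · exact Or.inl (s.Luniq h1 h2)
    · exact Or.inr (s.Luniq h1 h2)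
  have hi0 : 0 < i := by
    rcases Nat.eq_zero_or_pos i with h0 | h0
    · rw [h0, c0] at ci
      exact absurd ci (by decide)
    · exact h0
  have hij : i < j := by
    rcases lt_trichotomy i j with h0 | h0 | h0
    · exact h0
    · rw [h0, cj] at ci
      exact absurd ci (by decide)
    · exfalso
      refine Fa_cyc c j i h0 (fun m _ => hstep m) ?_ ?_ ?_
      · intro m m' hm hm' a1 a2 a3 a4
        have hone : ∀ m, c m = c 0 → c (m + 1) = c 0 + 1 → (s.nx g)^[m] (p 0) = s.t (c 0) g := by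
          intro m b1 b2
          have b3 := hc m
          have b4 := hc (m + 1)
          rw [b1] at b3
          rw [b2, Function.iterate_succ_apply'] at b4
          exact s.tU b3 b4
        have h5 := (hone m a1 a2).trans (hone m' a3 a4).symm
        exact hmin (m' - m) (by omega) (by omega) (Fa_iter_inj s hu hm.le h5)
      · rw [cj, c0]; rfl
      · rw [ci, c0]; rfl
  refine ⟨hu, i, j, hi0, hij, hi.symm, hj.symm, ?_⟩
  intro m hm hmj
  exact hmin m hm (by omega)

end Pool.RP
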