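import Pool.Agent.Lib.MP_9dcace_rp.REdge

/-!
ROW Wa (port of W1): the network of an edge weight on a Schnyder structure with polygonal faces.
A bidirected edge has two names `(c, v)` and `(c', w)` (`Rev`), and `om` is the sum of the two weights.
-/

set_option autoImplicit false

open Classical

namespace Pool.RP.SchP

open Pool.SX

variable {V F : Type} [Fintype V] [Fintype F] (s : SchP V F)

theorem W1_fin : ∀ c c' : Fin 3, c' = c ∨ c' = c + 1 ∨ c' = c + 2 := by decide

theorem W1_fin2 : ∀ c : Fin 3, c + 1 + 2 = c := by decide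

theorem W1_A (wt : Fin 3 → V → ℝ) (u : V) (φ : V → ℝ) :
    ∑ v, (∑ c, if s.inn u ∧ v = s.out c u then wt c u else 0) * φ v =
      ∑ c, if s.inn u then wt c u * φ (s.out c u) else 0 := by
  simp only [Finset.sum_mul]
  rw [Finset.sum_comm]
  refine Finset.sum_congr rfl fun c _ => ?_
  by_cases hu : s.inn u
  · simp only [hu, true_and, if_true, ite_mul, zero_mul]
    rw [Finset.sum_ite_eq']
    simp
  · simp only [hu, false_and, if_false, zero_mul, Finset.sum_const_zero]

theorem om_symm (wt : Fin 3 → V → ℝ) (u v : V) : s.om wt u v = s.om wt v u := by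
  unfold om
  exact add_comm _ _

theorem om_nonneg (wt : Fin 3 → V → ℝ) (h : ∀ c v, s.inn v → 0 ≤ wt c v) (u v : V) :
    0 ≤ s.om wt u v := by
  unfold om
  refine add_nonneg (Finset.sum_nonneg fun c _ => ?_) (Finset.sum_nonneg fun c _ => ?_)
  · split_ifs with h1
    · exact h c u h1.1
    · exact le_rfl
  · split_ifs with h1
    · exact h c v h1.1
    · exact le_rfl

theorem om_edge (wt : Fin 3 → V → ℝ) (u v : V) (h : s.om wt u v ≠ 0) : s.Edge u v := by
  by_contra hE
  apply h
  unfold om
  rw [Finset.sum_eq_zero, Finset.sum_eq_zero, add_zero]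
  · intro c _
    exact if_neg fun h1 => hE (Or.inr ⟨c, h1⟩)
  · intro c _
    exact if_neg fun h1 => hE (Or.inl ⟨c, h1⟩)

theorem le_om (wt : Fin 3 → V → ℝ) (h : ∀ c v, s.inn v → 0 ≤ wt c v) (c : Fin 3) (v : V)
    (hv : s.inn v) : wt c v ≤ s.om wt v (s.out c v) := by
  have h1 : wt c v ≤ ∑ c', if s.inn v ∧ s.out c v = s.out c' v then wt c' v else 0 := by
    have h2 := Finset.single_le_sum (s := (Finset.univ : Finset (Fin 3)))
      (f := fun c' => if s.inn v ∧ s.out c v = s.out c' v then wt c' v else 0)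
      (fun c' _ => by
        split_ifs with h3
        · exact h c' v hv
        · exact le_rfl) (Finset.mem_univ c)
    simpa [hv] using h2
  have h2 : 0 ≤ ∑ c', if s.inn (s.out c v) ∧ v = s.out c' (s.out c v) then
      wt c' (s.out c v) else 0 := by
    refine Finset.sum_nonneg fun c' _ => ?_
    split_ifs with h3
    · exact h c' _ h3.1
    · exact le_rfl
  unfold om
  linarith

private theorem Wa_fin3 : ∀ c : Fin 3, c + 2 + 1 = c ∧ c + 2 ≠ c ∧ c + 1 ≠ c ∧ c ≠ c + 1 ∧
    c ≠ c + 2 := by decide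

private theorem Wa_other : ∀ c j : Fin 3, j ≠ c → j = c + 1 ∨ j = c + 2 := by decide

/-- the potentials along an outgoing edge -/
private theorem Wa_pot {v : V} (hv : s.inn v) (c : Fin 3) :
    s.r c v < s.r c (s.out c v) ∧ ∀ j, j ≠ c → s.r j (s.out c v) ≤ s.r j v := by
  obtain ⟨h1, h2, h3, h4, h5⟩ := Wa_fin3 c
  have hL := s.lL c v hv
  have hR := s.lR c v hv
  have hLo : s.L (c + 2) (s.gL c v) (s.out c v) ∨ s.L c (s.gL c v) (s.out c v) := by
    have h := s.nxL hL
    rw [s.nL c v hv, h1] at h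
    exact h
  have hRo : s.L (c + 1) (s.gR c v) (s.out c v) ∨ s.L c (s.gR c v) (s.out c v) := by
    obtain ⟨l, hl⟩ := s.iR c v hv
    have h := s.nxL hl
    rw [s.nR c v hv] at h
    rcases h with h | h
    · have := s.Luniq h hR
      subst this
      exact Or.inl hl
    · have := s.Luniq h hR
      have h6 : l = c := add_right_cancel this
      subst h6
      exact Or.inr hl
  refine ⟨?_, ?_⟩
  · rcases s.lLR c v hv with h | h
    · exact s.pot h hL h2
    · exact s.pot h hR h3
  · intro j hj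
    rcases Wa_other c j hj with rfl | rfl
    · rcases hRo with h | h
      · exact (s.potE hR h).le
      · exact (s.pot hR h h4).le
    · rcases hLo with h | h
      · exact (s.potE hL h).le
      · exact (s.pot hL h h5).le

/-- two different colours go to different vertices -/
theorem Wa_out_ne {v : V} (hv : s.inn v) {c c' : Fin 3} (h : s.out c v = s.out c' v) : c = c' := by
  by_contra hc
  have h1 := (s.Wa_pot hv c).1
  have h2 := (s.Wa_pot hv c').2 c hc
  rw [← h] at h2
  exact lt_irrefl _ (lt_of_lt_of_le h1 h2)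

/-- the reverse name has a different colour -/
theorem Wa_Rev_ne {c c' : Fin 3} {v w : V} (h : s.Rev c v c' w) : c' ≠ c := by
  obtain ⟨hv, hw, h1, h2⟩ := h
  rintro rfl
  have h3 := (s.Wa_pot hv c').1
  have h4 := (s.Wa_pot hw c').1
  rw [← h1] at h3
  rw [← h2] at h4
  exact lt_asymm h3 h4

/-- the reverse name is unique -/
theorem Wa_Rev_uniq {c c1 c2 : Fin 3} {v w1 w2 : V} (h1 : s.Rev c v c1 w1) (h2 : s.Rev c v c2 w2) :
    c1 = c2 ∧ w1 = w2 := by
  obtain ⟨_, hw, e1, e2⟩ := h1
  obtain ⟨_, _, e3, e4⟩ := h2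
  have h5 : w1 = w2 := e1.trans e3.symm
  subst h5
  exact ⟨s.Wa_out_ne hw (e2.symm.trans e4), rfl⟩

theorem Wa_Rev_symm {c c' : Fin 3} {v w : V} (h : s.Rev c v c' w) : s.Rev c' w c v :=
  ⟨h.2.1, h.1, h.2.2.2, h.2.2.1⟩

/-- the weight of the edge `v → out c v` is `wt c v` plus the weights of the reverse names -/
theorem om_out_add (wt : Fin 3 → V → ℝ) (c : Fin 3) (v : V) (hv : s.inn v) :
    s.om wt v (s.out c v) = wt c v +
      ∑ c', if s.inn (s.out c v) ∧ v = s.out c' (s.out c v) then wt c' (s.out c v) else 0 := by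
  unfold om
  congr 1
  rw [Finset.sum_eq_single c]
  · rw [if_pos ⟨hv, rfl⟩]
  · intro c' _ hc
    exact if_neg fun h2 => hc (s.Wa_out_ne hv h2.2).symm
  · intro h
    exact absurd (Finset.mem_univ c) h

/-- a bidirected edge has the sum of the two weights -/
theorem om_rev (wt : Fin 3 → V → ℝ) {c c' : Fin 3} {v w : V} (h : s.Rev c v c' w) :
    s.om wt v (s.out c v) = wt c v + wt c' w := by
  obtain ⟨hv, hw, h1, h2⟩ := h
  rw [s.om_out_add wt c v hv, ← h1, Finset.sum_eq_single c']
  · rw [if_pos ⟨hw, h2⟩]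
  · intro c2 _ hc
    exact if_neg fun h3 => hc (s.Wa_out_ne hw (h3.2.symm.trans h2))
  · intro h
    exact absurd (Finset.mem_univ c') h

/-- an edge which has only one name -/
theorem om_single (wt : Fin 3 → V → ℝ) {c : Fin 3} {v : V} (hv : s.inn v)
    (h : ∀ c' w, ¬ s.Rev c v c' w) : s.om wt v (s.out c v) = wt c v := by
  rw [s.om_out_add wt c v hv, Finset.sum_eq_zero, add_zero]
  intro c' _
  exact if_neg fun h3 => h c' (s.out c v) ⟨hv, h3.1, rfl, h3.2⟩

/-- if the reverse names have weight 0 then the weight of the edge is `wt c v` -/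
theorem om_out (wt : Fin 3 → V → ℝ) (c : Fin 3) (v : V) (hv : s.inn v)
    (h : ∀ c' w, s.Rev c v c' w → wt c' w = 0) :
    s.om wt v (s.out c v) = wt c v := by
  rw [s.om_out_add wt c v hv, Finset.sum_eq_zero, add_zero]
  intro c' _
  split_ifs with h3
  · exact h c' (s.out c v) ⟨hv, h3.1, rfl, h3.2⟩
  · rfl

theorem om_congr (wt wt' : Fin 3 → V → ℝ) (u v : V)
    (h1 : ∀ c, s.inn u → v = s.out c u → wt c u = wt' c u)
    (h2 : ∀ c, s.inn v → u = s.out c v → wt c v = wt' c v) : s.om wt u v = s.om wt' u v := by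
  unfold om
  congr 1
  · refine Finset.sum_congr rfl fun c _ => ?_
    split_ifs with h3
    · exact h1 c h3.1 h3.2
    · rfl
  · refine Finset.sum_congr rfl fun c _ => ?_
    split_ifs with h3
    · exact h2 c h3.1 h3.2
    · rfl

theorem En_om (wt : Fin 3 → V → ℝ) (x : V → ℝ) : En (s.om wt) x = s.enw wt x := by
  unfold En
  have h1 : ∀ u v, s.om wt u v * (x u - x v) ^ 2 =
      (∑ c, if s.inn u ∧ v = s.out c u then wt c u else 0) * (x u - x v) ^ 2 +
      (∑ c, if s.inn v ∧ u = s.out c v then wt c v else 0) * (x v - x u) ^ 2 := by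
    intro u v
    unfold om
    ring
  have h2 : ∑ u, ∑ v, (∑ c, if s.inn u ∧ v = s.out c u then wt c u else 0) * (x u - x v) ^ 2 =
      s.enw wt x := by
    have h3 : ∀ u, ∑ v, (∑ c, if s.inn u ∧ v = s.out c u then wt c u else 0) *
        (x u - x v) ^ 2 = ∑ c, if s.inn u then wt c u * (x u - x (s.out c u)) ^ 2 else 0 :=
      fun u => s.W1_A wt u (fun v => (x u - x v) ^ 2)
    simp only [h3]
    rw [Finset.sum_comm]
    unfold enw VI
    refine Finset.sum_congr rfl fun c _ => ?_
    rw [Finset.sum_filter]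
  have h4 : ∑ u, ∑ v, (∑ c, if s.inn v ∧ u = s.out c v then wt c v else 0) * (x v - x u) ^ 2 =
      s.enw wt x := by
    rw [Finset.sum_comm]
    exact h2
  simp only [h1, Finset.sum_add_distrib]
  rw [h2, h4]
  ring

theorem lap_om (wt : Fin 3 → V → ℝ) (x : V → ℝ) (u : V) (hu : s.inn u) :
    lap (s.om wt) x u = ∑ c, wt c u * (x u - x (s.out c u)) +
      ∑ c, ∑ v ∈ s.VI, if s.out c v = u then wt c v * (x u - x v) else 0 := by
  unfold lap
  have h1 : ∀ v, s.om wt u v * (x u - x v) =
      (∑ c, if s.inn u ∧ v = s.out c u then wt c u else 0) * (x u - x v) +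
      (∑ c, if s.inn v ∧ u = s.out c v then wt c v else 0) * (x u - x v) := by
    intro v
    unfold om
    ring
  simp only [h1, Finset.sum_add_distrib]
  congr 1
  · rw [s.W1_A wt u (fun v => x u - x v)]
    simp only [hu, if_true]
  · simp only [Finset.sum_mul]
    rw [Finset.sum_comm]
    refine Finset.sum_congr rfl fun c _ => ?_
    unfold VI
    rw [Finset.sum_filter]
    refine Finset.sum_congr rfl fun v _ => ?_
    by_cases hv : s.inn v
    · by_cases he : u = s.out c v
      · rw [if_pos ⟨hv, he⟩, if_pos hv, if_pos he.symm]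
      · rw [if_neg (fun h => he h.2), if_pos hv, if_neg (fun h => he h.symm), zero_mul]
    · rw [if_neg (fun h => hv h.1), if_neg hv, zero_mul]

end Pool.RP.SchP
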