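import Pool.Agent.Lib.MP_9dcace_rp.Fa
import Pool.Agent.Lib.MP_9dcace_rp.Wa

/-!
ROW Fb, part A (port of T12): from harmonic coordinates to the drawing `Drw`; the sign lemma in the form of
the interface (`SchPOf.sign_ccw`, `SchP.Ccw_of_Tp`).
-/

set_option autoImplicit false

open Classical

namespace Pool.RP

open Pool.SX

variable {V A : Type} [Fintype V] [Fintype A]

theorem SchPOf.adj_out {P : StP V A} {s : SchP V A} (hs : SchPOf P s) (c : Fin 3) {v : V}
    (hv : s.inn v) : P.S.Adj (Sum.inl v) (Sum.inl (s.out c v)) ∧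
      P.S.Adj (Sum.inl (s.out c v)) (Sum.inl v) := by
  constructor
  · have h3 := hs.hT _ _ _ (s.lL c v hv)
    rw [s.nL c v hv] at h3
    exact ⟨_, h3⟩
  · obtain ⟨l, hl⟩ := s.iR c v hv
    have h3 := hs.hT _ _ _ hl
    rw [s.nR c v hv] at h3
    exact ⟨_, h3⟩

theorem SchPOf.adj_of_Edge {P : StP V A} {s : SchP V A} (hs : SchPOf P s) {u v : V}
    (h : s.Edge u v) : P.S.Adj (Sum.inl u) (Sum.inl v) := by
  rcases h with ⟨c, hu, rfl⟩ | ⟨c, hv, rfl⟩
  · exact (hs.adj_out c hu).1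
  · exact (hs.adj_out c hv).2

/-- the sign lemma F3' -/
theorem SchPOf.sign_ccw {P : StP V A} {s : SchP V A} (hs : SchPOf P s) (χ : V → Fin 3)
    (hχ : ∀ k, χ (s.a k) = k) (π : V → V) (hπ : π ∈ For s.VI)
    (hE : ∀ v, s.inn v → s.Edge v (π v)) (g : A) (u v w : V) (hc : s.Ccw g u v w) :
    (Matrix.of (fun j k => if χ (root π (![u, v, w] j)) = k then (1 : ℝ) else 0) :
      Matrix (Fin 3) (Fin 3) ℝ).det =
      if Function.Injective (fun j => χ (root π (![u, v, w] j))) then 1 else 0 := by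
  have ha : ∀ k, s.a k ∉ s.VI := by
    intro k hk
    have h1 : s.inn (s.a k) := by simpa [SchP.VI] using hk
    exact h1 k rfl
  refine Fa_sign hs (fun v => χ (root π v)) ?_ π hπ ?_ g ![u, v, w] hc
  · intro k
    show χ (root π (s.a k)) = k
    rw [root_of_not_mem s.VI π hπ _ (ha k), hχ]
  · intro z hz
    refine ⟨hs.adj_of_Edge (hE z hz), ?_⟩
    show χ (root π (π z)) = χ (root π z)
    rw [root_step s.VI π hπ]

theorem SchP.Ccw_of_Tp (s : SchP V A) {g : A} {p : Fin 3 → V} (h : s.Tp g p) :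
    s.Ccw g (p 0) (p 1) (p 2) := ccw_of_Tp s h

/-- the potential increases along an outgoing edge -/
theorem SchP.Fb_pot (s : SchP V A) {v : V} (hv : s.inn v) (c : Fin 3) :
    s.r c v < s.r c (s.out c v) := by
  have e1 : ∀ c : Fin 3, c + 2 ≠ c := by decide
  have e2 : ∀ c : Fin 3, c + 1 ≠ c := by decide
  rcases s.lLR c v hv with h | h
  · exact s.pot h (s.lL c v hv) (e1 c)
  · exact s.pot h (s.lR c v hv) (e2 c)

/-- the minimum principle -/
theorem SchP.Fb_min (s : SchP V A) (om : V → V → ℝ) (hn : ∀ u v, 0 ≤ om u v)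
    (hp : ∀ v, s.inn v → 0 < om v (s.out 0 v)) (f : V → ℝ)
    (hf : ∀ u, s.inn u → lap om f u = 0) (h0 : ∀ k, 0 ≤ f (s.a k)) (v : V) : 0 ≤ f v := by
  by_contra hv
  push Not at hv
  obtain ⟨w0, -, hw0⟩ := Finset.exists_min_image Finset.univ f ⟨v, Finset.mem_univ v⟩
  obtain ⟨w, hwm, hwr⟩ := Finset.exists_max_image (Finset.univ.filter (fun u => f u = f w0))
    (s.r 0) ⟨w0, by simp⟩
  have hfw : f w = f w0 := (Finset.mem_filter.1 hwm).2
  have hmin : ∀ u, f w ≤ f u := fun u => by rw [hfw]; exact hw0 u (Finset.mem_univ u)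
  have hinn : s.inn w := by
    intro k hk
    have h1 := h0 k
    rw [← hk] at h1
    have h2 := hmin v
    linarith
  have hsum : ∑ u, om w u * (f u - f w) = 0 := by
    have h1 := hf w hinn
    unfold lap at h1
    have h2 : ∑ u, om w u * (f u - f w) = -∑ u, om w u * (f w - f u) := by
      rw [← Finset.sum_neg_distrib]
      exact Finset.sum_congr rfl fun u _ => by ring
    rw [h2, h1, neg_zero]
  have h3 : ∀ u ∈ (Finset.univ : Finset V), 0 ≤ om w u * (f u - f w) :=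
    fun u _ => mul_nonneg (hn w u) (sub_nonneg.2 (hmin u))
  have h4 := (Finset.sum_eq_zero_iff_of_nonneg h3).1 hsum (s.out 0 w) (Finset.mem_univ _)
  rcases mul_eq_zero.1 h4 with h5 | h5
  · exact absurd h5 (hp w hinn).ne'
  · have h6 : s.out 0 w ∈ Finset.univ.filter (fun u => f u = f w0) := by
      rw [Finset.mem_filter]
      exact ⟨Finset.mem_univ _, by linarith⟩
    have h7 := hwr _ h6
    have h8 := s.Fb_pot hinn 0
    linarith

/-- there is a colouring with the colour `k` at `a k` -/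
theorem SchP.exists_chi (s : SchP V A) : ∃ χ : V → Fin 3, ∀ k, χ (s.a k) = k := by
  refine ⟨fun v => if h : ∃ k, v = s.a k then h.choose else 0, fun k => ?_⟩
  have hh : ∃ k', s.a k = s.a k' := ⟨k, rfl⟩
  simp only
  rw [dif_pos hh]
  exact (s.a_inj hh.choose_spec).symm

/-- from harmonic coordinates to the drawing -/
theorem SchPOf.drw_of {P : StP V A} {s : SchP V A} (hs : SchPOf P s) {wt : Fin 3 → V → ℝ}
    {lo hi D : ℝ} (hlo : 0 < lo) (hD : 0 < D) (wnn : ∀ c v, 0 ≤ wt c v)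
    (wlo : ∀ c v, s.inn v → lo ≤ s.om wt v (s.out c v)) (whi : ∀ u v, s.om wt u v ≤ hi)
    (H : V → Fin 3 → ℝ) (h1 : ∀ k j, H (s.a k) j = if k = j then 1 else 0)
    (h2 : ∀ v, s.inn v → ∀ k, lap (s.om wt) (fun u => H u k) v = 0)
    (hDF : 0 < DF (s.om wt) s.VI)
    (h3 : ∀ χ : V → Fin 3, (∀ k, χ (s.a k) = k) → ∀ g p, s.Tp g p →
      D * DF (s.om wt) s.VI ≤ ZF (s.om wt) s.VI χ p) :
    s.Drw (s.om wt) (fun v => (H v 0, H v 1)) lo hi D := by
  have hn : ∀ u v, 0 ≤ s.om wt u v := s.om_nonneg wt (fun c v _ => wnn c v)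
  have hp : ∀ v, s.inn v → 0 < s.om wt v (s.out 0 v) := fun v hv =>
    lt_of_lt_of_le hlo (wlo 0 v hv)
  have hs0 : ∀ k, H (s.a k) 0 + H (s.a k) 1 + H (s.a k) 2 = 1 := by
    intro k
    rw [h1, h1, h1]
    fin_cases k <;> simp
  have hl1 : ∀ u, s.inn u → lap (s.om wt) (fun v => H v 0 + H v 1 + H v 2 - 1) u = 0 := by
    intro u hu
    have e : lap (s.om wt) (fun v => H v 0 + H v 1 + H v 2 - 1) u =
        lap (s.om wt) (fun v => H v 0) u + lap (s.om wt) (fun v => H v 1) u +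
          lap (s.om wt) (fun v => H v 2) u := by
      unfold lap
      rw [← Finset.sum_add_distrib, ← Finset.sum_add_distrib]
      refine Finset.sum_congr rfl fun w _ => ?_
      ring
    rw [e, h2 u hu 0, h2 u hu 1, h2 u hu 2]
    norm_num
  have hl2 : ∀ u, s.inn u → lap (s.om wt) (fun v => 1 - (H v 0 + H v 1 + H v 2)) u = 0 := by
    intro u hu
    have e : lap (s.om wt) (fun v => 1 - (H v 0 + H v 1 + H v 2)) u =
        -lap (s.om wt) (fun v => H v 0 + H v 1 + H v 2 - 1) u := by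
      unfold lap
      rw [← Finset.sum_neg_distrib]
      refine Finset.sum_congr rfl fun w _ => ?_
      ring
    rw [e, hl1 u hu, neg_zero]
  have hsum : ∀ v, H v 2 = 1 - H v 0 - H v 1 := by
    intro v
    have i1 := s.Fb_min (s.om wt) hn hp (fun v => H v 0 + H v 1 + H v 2 - 1) hl1
      (fun k => by rw [hs0 k]; norm_num) v
    have i2 := s.Fb_min (s.om wt) hn hp (fun v => 1 - (H v 0 + H v 1 + H v 2)) hl2
      (fun k => by rw [hs0 k]; norm_num) v
    linarith
  have hdet : ∀ p : Fin 3 → V, (Matrix.of (fun j k => H (p j) k) : Matrix (Fin 3) (Fin 3) ℝ).det =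
      ar (H (p 0) 0, H (p 0) 1) (H (p 1) 0, H (p 1) 1) (H (p 2) 0, H (p 2) 1) := by
    intro p
    rw [Matrix.det_fin_three]
    simp only [Matrix.of_apply]
    rw [hsum (p 0), hsum (p 1), hsum (p 2)]
    unfold ar
    ring
  have hE : ∀ u v, s.om wt u v ≠ 0 → ∃ c, (s.inn u ∧ v = s.out c u) ∨ (s.inn v ∧ u = s.out c v) := by
    intro u v h
    rcases s.om_edge wt u v h with ⟨c, hc⟩ | ⟨c, hc⟩
    · exact ⟨c, Or.inl hc⟩
    · exact ⟨c, Or.inr hc⟩
  obtain ⟨χ, hχ⟩ := s.exists_chi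
  have hArea : ∀ (g : A) (p : Fin 3 → V), s.Ccw g (p 0) (p 1) (p 2) →
      DF (s.om wt) s.VI * ar (H (p 0) 0, H (p 0) 1) (H (p 1) 0, H (p 1) 1)
        (H (p 2) 0, H (p 2) 1) = ZF (s.om wt) s.VI χ p := by
    intro g p hp
    rw [← hdet]
    exact area_eqP hs (s.om wt) hE χ hχ H h1 h2 g p hp
  refine ⟨hlo, hD, s.om_symm wt, hn, hE, wlo, whi, ?_, ?_, ?_, ?_, ?_, ?_⟩
  · simp [h1]
  · simp [h1]
  · simp [h1]
  · intro u hu
    have key : ∀ k, ∑ v, s.om wt u v * (H v k - H u k) = 0 := by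
      intro k
      have h4 := h2 u hu k
      unfold lap at h4
      have h5 : ∑ v, s.om wt u v * (H v k - H u k) = -∑ v, s.om wt u v * (H u k - H v k) := by
        rw [← Finset.sum_neg_distrib]
        exact Finset.sum_congr rfl fun u _ => by ring
      rw [h5, h4, neg_zero]
    refine Prod.ext ?_ ?_
    · simp only [Prod.fst_sum, Prod.smul_fst, Prod.fst_sub, smul_eq_mul, Prod.fst_zero]
      exact key 0
    · simp only [Prod.snd_sum, Prod.smul_snd, Prod.snd_sub, smul_eq_mul, Prod.snd_zero]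
      exact key 1
  · intro g p hp
    have h4 := hArea g p (s.Ccw_of_Tp hp)
    have h5 := h3 χ hχ g p hp
    rw [← h4, mul_comm D] at h5
    exact le_of_mul_le_mul_left h5 hDF
  · intro g u v w hc
    have h4 := hArea g ![u, v, w] hc
    have h5 : 0 ≤ ZF (s.om wt) s.VI χ ![u, v, w] :=
      Finset.sum_nonneg fun π _ => Finset.prod_nonneg fun _ _ => hn _ _
    rw [← h4] at h5
    exact nonneg_of_mul_nonneg_right h5 hDF

end Pool.RP
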