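import Pool.Agent.Lib.MP_9dcace_rp.Wi
import Pool.Agent.Lib.MP_9dcace_rp.FbA

/-!
ROW Fb: the result (R0).
-/

set_option autoImplicit false

open Classical

namespace Pool.RP

open Pool.SX

variable {V A : Type} [Fintype V] [Fintype A]

private theorem Fb_sum_le (s : SchP V A) (wt : Fin 3 → V → ℝ) (u v : V) {M : ℝ} (hM : 0 ≤ M)
    (h : ∀ c v, s.inn v → wt c v ≤ M) :
    ∑ c, (if s.inn u ∧ v = s.out c u then wt c u else 0) ≤ M := by
  by_cases hex : ∃ c, s.inn u ∧ v = s.out c u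
  · obtain ⟨c, hu, hv⟩ := hex
    rw [Finset.sum_eq_single c]
    · rw [if_pos ⟨hu, hv⟩]
      exact h c u hu
    · intro c' _ hc'
      rw [if_neg]
      rintro ⟨_, hv'⟩
      exact hc' (s.Wa_out_ne hu (hv'.symm.trans hv))
    · intro hc
      exact absurd (Finset.mem_univ c) hc
  · rw [Finset.sum_eq_zero]
    · exact hM
    · intro c _
      exact if_neg fun hc => hex ⟨c, hc⟩

/-- the result (R0) -/
theorem SchPOf.exists_Drw {P : StP V A} {s : SchP V A} (hs : SchPOf P s) :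
    ∃ (om : V → V → ℝ) (p : V → ℝ × ℝ), s.Drw om p (1 / (3 * (Fintype.card A : ℝ)) ^ 7)
      (4 * Fintype.card A) (1 / (3 * (Fintype.card A : ℝ)) ^ 18) := by
  obtain ⟨wt, H, w0, w1, w2, h1, h2, h3, h4⟩ := s.exists_weights
  have hN : 0 < Fintype.card A := Fintype.card_pos_iff.mpr ⟨s.o 0⟩
  have hNr : (0 : ℝ) < (Fintype.card A : ℝ) := by exact_mod_cast hN
  refine ⟨s.om wt, fun v => (H v 0, H v 1), ?_⟩
  refine hs.drw_of (by positivity) (by positivity) w0 w1 ?_ H h1 h2 h3 h4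
  intro u v
  have a1 := Fb_sum_le s wt u v (by positivity : (0 : ℝ) ≤ 2 * Fintype.card A) w2
  have a2 := Fb_sum_le s wt v u (by positivity : (0 : ℝ) ≤ 2 * Fintype.card A) w2
  unfold SchP.om
  linarith

end Pool.RP
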