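import Pool.Agent.Lib.MP_9dcace_rp.Ge1

/-!
MP_9dcace_co, row Ge0, part 1: more elementary facts on `Pol x q` (uniqueness of facets and vertices from their
incidences, no three vertices on a line, supporting planes with three vertices). The centres of the facets and the
stacked configuration are in Ge1.
-/

set_option autoImplicit false

open Classical

namespace Pool.RP

open Pool.SX

theorem dp_sum {ι : Type} (a : E3) (s : Finset ι) (y : ι → E3) :
    dp a (∑ i ∈ s, y i) = ∑ i ∈ s, dp a (y i) := by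
  induction s using Finset.induction_on with
  | empty => simp [dp_def]
  | insert i s hi ih => rw [Finset.sum_insert hi, Finset.sum_insert hi, dp_add, ih]

theorem dp_zero_right (a : E3) : dp a 0 = 0 := by simp [dp_def]

theorem dp_zero_left (a : E3) : dp 0 a = 0 := by simp [dp_def]

theorem convex_dp_le (a : E3) (c : ℝ) : Convex ℝ {y : E3 | dp a y ≤ c} := by
  intro y hy z hz s t hs ht hst
  have hy' : dp a y ≤ c := hy
  have hz' : dp a z ≤ c := hz
  show dp a (s • y + t • z) ≤ c
  rw [dp_add, dp_smul, dp_smul]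
  calc s * dp a y + t * dp a z ≤ s * c + t * c :=
        add_le_add (mul_le_mul_of_nonneg_left hy' hs) (mul_le_mul_of_nonneg_left hz' ht)
    _ = c := by rw [← add_mul, hst, one_mul]

theorem dp_hull_le {ι : Type} {x : ι → E3} {a y : E3} {c : ℝ}
    (hy : y ∈ convexHull ℝ (Set.range x)) (h : ∀ v, dp a (x v) ≤ c) : dp a y ≤ c := by
  have h1 : convexHull ℝ (Set.range x) ⊆ {y | dp a y ≤ c} :=
    convexHull_min (by rintro _ ⟨v, rfl⟩; exact h v) (convex_dp_le a c)
  exact h1 hy

/-- a convex combination of the points `x v` -/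
theorem exists_weights {ι : Type} [Fintype ι] {x : ι → E3} {y : E3}
    (hy : y ∈ convexHull ℝ (Set.range x)) :
    ∃ w : ι → ℝ, (∀ i, 0 ≤ w i) ∧ ∑ i, w i = 1 ∧ y = ∑ i, w i • x i := by
  rw [mem_convexHull_iff_exists_fintype] at hy
  obtain ⟨κ, _, w, z, hw, hs, hz, e⟩ := hy
  choose g hg using hz
  refine ⟨fun i => ∑ j ∈ Finset.univ.filter (fun j => g j = i), w j,
    fun i => Finset.sum_nonneg fun j _ => hw j, ?_, ?_⟩
  · rw [← hs]
    exact Finset.sum_fiberwise Finset.univ g w
  · rw [← e]
    have : ∀ i, (∑ j ∈ Finset.univ.filter (fun j => g j = i), w j) • x i =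
        ∑ j ∈ Finset.univ.filter (fun j => g j = i), w j • z j := by
      intro i
      rw [Finset.sum_smul]
      refine Finset.sum_congr rfl fun j hj => ?_
      rw [← hg j, (Finset.mem_filter.mp hj).2]
    rw [Finset.sum_congr rfl fun i _ => this i]
    exact (Finset.sum_fiberwise Finset.univ g (fun j => w j • z j)).symm

variable {V A : Type} [Fintype V] [Fintype A] {x : V → E3} {q : A → E3}

theorem Pol.swap (h : Pol x q) : Pol q x where
  le := fun f v => by rw [dp_comm]; exact h.le v f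
  hullV := fun y hy => h.hullA y (fun v => by rw [dp_comm]; exact hy v)
  hullA := fun z hz => h.hullV z (fun f => by rw [dp_comm]; exact hz f)
  extV := h.extA
  extA := h.extV

/-- every vertex is exposed -/
theorem Pol.exposeV (h : Pol x q) (v : V) : ∃ a : E3, ∀ u, u ≠ v → dp a (x u) < dp a (x v) := by
  have hfin : (x '' {u | u ≠ v}).Finite := Set.toFinite _
  have hcl : IsClosed (convexHull ℝ (x '' {u | u ≠ v})) :=
    (Set.Finite.isCompact_convexHull ℝ hfin).isClosed
  obtain ⟨f, u, hf1, hf2⟩ := geometric_hahn_banach_point_closed (convex_convexHull ℝ _) hcl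
    (h.extV v)
  obtain ⟨a, ha⟩ := exists_dp_of_clm f
  refine ⟨a, fun z hz => ?_⟩
  have hz' : x z ∈ convexHull ℝ (x '' {u | u ≠ v}) := by
    apply subset_convexHull
    exact ⟨z, hz, rfl⟩
  have := hf2 _ hz'
  rw [ha, ha]
  linarith

theorem Pol.cr_ne (h : Pol x q) {u v w : V} (huv : u ≠ v) (hvw : v ≠ w) (hwu : w ≠ u) :
    cr (x v - x u) (x w - x u) ≠ 0 := by
  intro hcr
  obtain ⟨X, hx⟩ : ∃ X, X = x v - x u := ⟨_, rfl⟩
  obtain ⟨Y, hy⟩ : ∃ Y, Y = x w - x u := ⟨_, rfl⟩
  rw [← hx, ← hy] at hcr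
  have hx0 : X ≠ 0 := fun h0 => huv.symm (h.injV (sub_eq_zero.mp (hx ▸ h0)))
  have hxx := dp_self_pos hx0
  have c0 : X 1 * Y 2 - X 2 * Y 1 = 0 := by
    have := congrFun hcr 0
    simpa [cr] using this
  have c1 : X 2 * Y 0 - X 0 * Y 2 = 0 := by
    have := congrFun hcr 1
    simpa [cr] using this
  have c2 : X 0 * Y 1 - X 1 * Y 0 = 0 := by
    have := congrFun hcr 2
    simpa [cr] using this
  obtain ⟨t, ht⟩ : ∃ t : ℝ, t = dp X Y / dp X X := ⟨_, rfl⟩
  have htx : t * dp X X = dp X Y := by
    rw [ht]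
    field_simp
  have e0 : Y 0 = t * X 0 := by
    have h1 : dp X X * (Y 0 - t * X 0) = 0 := by
      have h2 : dp X X * (Y 0 - t * X 0) = dp X X * Y 0 - (t * dp X X) * X 0 := by ring
      rw [h2, htx, dp_def, dp_def]
      linear_combination (-(X 1)) * c2 + (X 2) * c1
    have h3 := (mul_eq_zero.mp h1).resolve_left hxx.ne'
    linarith
  have e1 : Y 1 = t * X 1 := by
    have h1 : dp X X * (Y 1 - t * X 1) = 0 := by
      have h2 : dp X X * (Y 1 - t * X 1) = dp X X * Y 1 - (t * dp X X) * X 1 := by ring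
      rw [h2, htx, dp_def, dp_def]
      linear_combination (X 0) * c2 - (X 2) * c0
    have h3 := (mul_eq_zero.mp h1).resolve_left hxx.ne'
    linarith
  have e2 : Y 2 = t * X 2 := by
    have h1 : dp X X * (Y 2 - t * X 2) = 0 := by
      have h2 : dp X X * (Y 2 - t * X 2) = dp X X * Y 2 - (t * dp X X) * X 2 := by ring
      rw [h2, htx, dp_def, dp_def]
      linear_combination (X 1) * c0 - (X 0) * c1
    have h3 := (mul_eq_zero.mp h1).resolve_left hxx.ne'
    linarith
  have key : ∀ a : E3, dp a (x w) - dp a (x u) = t * (dp a (x v) - dp a (x u)) := by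
    intro a
    rw [← dp_sub, ← dp_sub, ← hx, ← hy, dp_def, dp_def, e0, e1, e2]
    ring
  rcases le_or_gt t 0 with h1 | h1
  · obtain ⟨a, ha⟩ := h.exposeV u
    have k1 := ha v huv.symm
    have k2 := ha w hwu
    have k3 := key a
    nlinarith
  · rcases le_or_gt t 1 with h2 | h2
    · obtain ⟨a, ha⟩ := h.exposeV w
      have k1 := ha u hwu.symm
      have k2 := ha v hvw
      have k3 := key a
      nlinarith
    · obtain ⟨a, ha⟩ := h.exposeV v
      have k1 := ha u huv
      have k2 := ha w hvw.symm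
      have k3 := key a
      nlinarith

/-- `q f` is an extreme point of the polar polytope -/
theorem Pol.ext_mid (h : Pol x q) {f : A} {y : E3}
    (h1 : ∀ v, dp (q f + y) (x v) ≤ 1) (h2 : ∀ v, dp (q f - y) (x v) ≤ 1) : y = 0 := by
  obtain ⟨a, ha⟩ := h.swap.exposeV f
  have hle : ∀ g, dp a (q g) ≤ dp a (q f) := fun g => by
    by_cases hg : g = f
    · rw [hg]
    · exact (ha g hg).le
  obtain ⟨w, hw, hs, e⟩ := exists_weights (h.hullA _ h1)
  have k1 := dp_hull_le (h.hullA _ h1) hle
  have k2 := dp_hull_le (h.hullA _ h2) hle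
  rw [dp_add] at k1
  rw [dp_sub] at k2
  have k3 : dp a (q f + y) = dp a (q f) := by rw [dp_add]; linarith
  rw [e, dp_sum] at k3
  have k4 : ∑ g, w g * (dp a (q f) - dp a (q g)) = 0 := by
    simp only [mul_sub, Finset.sum_sub_distrib, ← Finset.sum_mul, hs]
    rw [one_mul, ← k3, sub_eq_zero]
    exact Finset.sum_congr rfl fun g _ => dp_smul _ _ _
  have k5 := (Finset.sum_eq_zero_iff_of_nonneg (fun g _ =>
    mul_nonneg (hw g) (sub_nonneg.2 (hle g)))).1 k4
  have k6 : ∀ g, g ≠ f → w g = 0 := by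
    intro g hg
    have := k5 g (Finset.mem_univ g)
    exact (mul_eq_zero.1 this).resolve_right (sub_pos.2 (ha g hg)).ne'
  have k7 : w f = 1 := by
    rw [← hs]
    exact (Finset.sum_eq_single f (fun g _ hg => k6 g hg) (fun hf => absurd (Finset.mem_univ f) hf)).symm
  rw [Finset.sum_eq_single f (fun g _ hg => by rw [k6 g hg, zero_smul])
    (fun hf => absurd (Finset.mem_univ f) hf), k7, one_smul] at e
  exact left_eq_add.mp e.symm

/-- a facet is determined by its vertices -/
theorem Pol.uniqA (h : Pol x q) {f : A} {z : E3}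
    (hz : ∀ v, dp (q f) (x v) = 1 → dp z (x v) = 1) : z = q f := by
  have hev : ∀ v : V, ∀ᶠ t : ℝ in nhdsWithin 0 (Set.Ioi 0),
      t * |dp (z - q f) (x v)| ≤ 1 - dp (q f) (x v) := by
    intro v
    by_cases hv : dp (q f) (x v) = 1
    · refine Filter.Eventually.of_forall fun t => ?_
      rw [dp_sub_left, hz v hv, hv, sub_self, abs_zero, mul_zero]
    · have hlt : dp (q f) (x v) < 1 := lt_of_le_of_ne (h.le v f) hv
      have hc : Filter.Tendsto (fun t : ℝ => t * |dp (z - q f) (x v)|) (nhdsWithin 0 (Set.Ioi 0))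
          (nhds 0) := by
        have : Continuous fun t : ℝ => t * |dp (z - q f) (x v)| := by fun_prop
        have h1 := this.tendsto 0
        rw [zero_mul] at h1
        exact h1.mono_left nhdsWithin_le_nhds
      exact (hc.eventually_lt_const (sub_pos.2 hlt)).mono fun t ht => ht.le
  obtain ⟨t, ht, ht0⟩ := ((Filter.eventually_all.2 hev).and self_mem_nhdsWithin).exists
  have ht0' : 0 < t := ht0
  have key := h.ext_mid (f := f) (y := t • (z - q f))
    (fun v => by
      rw [dp_add_left, dp_smul_left]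
      have h1 := ht v
      have h2 : t * dp (z - q f) (x v) ≤ t * |dp (z - q f) (x v)| :=
        mul_le_mul_of_nonneg_left (le_abs_self _) ht0'.le
      linarith)
    (fun v => by
      rw [dp_sub_left, dp_smul_left]
      have h1 := ht v
      have h2 : -(t * dp (z - q f) (x v)) ≤ t * |dp (z - q f) (x v)| := by
        rw [← mul_neg]
        exact mul_le_mul_of_nonneg_left (neg_le_abs _) ht0'.le
      linarith)
  have h0 := (smul_eq_zero.mp key).resolve_left ht0'.ne'
  exact sub_eq_zero.mp h0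

/-- a vertex is determined by its facets -/
theorem Pol.uniqV (h : Pol x q) {v : V} {y : E3}
    (hy : ∀ f, dp (q f) (x v) = 1 → dp (q f) y = 1) : y = x v :=
  h.swap.uniqA (f := v) (fun f hf => by
    rw [dp_comm]
    exact hy f (by rw [dp_comm]; exact hf))

/-- the vertices are not in a plane -/
theorem Pol.spanP (h : Pol x q) (a : E3) (c : ℝ) (hc : ∀ v, dp a (x v) = c) : a = 0 := by
  by_contra hne
  have hpos := dp_self_pos hne
  have hev : ∀ f : A, ∀ᶠ t : ℝ in nhdsWithin 0 (Set.Ioi 0), t * |dp (q f) a| ≤ 1 := by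
    intro f
    have hcn : Filter.Tendsto (fun t : ℝ => t * |dp (q f) a|) (nhdsWithin 0 (Set.Ioi 0))
        (nhds 0) := by
      have : Continuous fun t : ℝ => t * |dp (q f) a| := by fun_prop
      have h1 := this.tendsto 0
      rw [zero_mul] at h1
      exact h1.mono_left nhdsWithin_le_nhds
    exact (hcn.eventually_lt_const one_pos).mono fun t ht => ht.le
  obtain ⟨t, ht, ht0⟩ := ((Filter.eventually_all.2 hev).and self_mem_nhdsWithin).exists
  have ht0' : 0 < t := ht0
  have h1 : t • a ∈ convexHull ℝ (Set.range x) := h.hullV _ fun f => by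
    rw [dp_smul]
    exact le_trans (mul_le_mul_of_nonneg_left (le_abs_self _) ht0'.le) (ht f)
  have h2 : -(t • a) ∈ convexHull ℝ (Set.range x) := h.hullV _ fun f => by
    rw [dp_neg, dp_smul, ← mul_neg]
    exact le_trans (mul_le_mul_of_nonneg_left (neg_le_abs _) ht0'.le) (ht f)
  have k1 : dp (-a) (t • a) ≤ -c := dp_hull_le h1 fun v => by rw [dp_neg_left, hc v]
  have k2 : dp a (-(t • a)) ≤ c := dp_hull_le h2 fun v => (hc v).le
  have k3 : dp (-a) (-(t • a)) ≤ -c := dp_hull_le h2 fun v => by rw [dp_neg_left, hc v]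
  have k4 : dp a (t • a) ≤ c := dp_hull_le h1 fun v => (hc v).le
  rw [dp_neg_left, dp_smul] at k1
  rw [dp_neg, dp_smul] at k2
  rw [dp_neg_left, dp_neg, dp_smul, neg_neg] at k3
  rw [dp_smul] at k4
  have := mul_pos ht0' hpos
  linarith

/-- two planes through three different vertices are equal -/
theorem Pol.plane_eq (h : Pol x q) {u v w : V} (huv : u ≠ v) (hvw : v ≠ w) (hwu : w ≠ u)
    {a b : E3} (au : dp a (x u) = 1) (av : dp a (x v) = 1) (aw : dp a (x w) = 1)
    (bu : dp b (x u) = 1) (bv : dp b (x v) = 1) (bw : dp b (x w) = 1) : a = b := by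
  have hn := h.cr_ne huv hvw hwu
  obtain ⟨n, hn'⟩ : ∃ n, n = cr (x v - x u) (x w - x u) := ⟨_, rfl⟩
  rw [← hn'] at hn
  have hnn := dp_self_pos hn
  have pa : ∀ i, dp n n * a i = dp n a * n i := fun i => by
    rw [hn']
    exact G3_par (by rw [dp_sub, av, au, sub_self]) (by rw [dp_sub, aw, au, sub_self]) i
  have pb : ∀ i, dp n n * b i = dp n b * n i := fun i => by
    rw [hn']
    exact G3_par (by rw [dp_sub, bv, bu, sub_self]) (by rw [dp_sub, bw, bu, sub_self]) i
  have ea : dp n n = dp n a * dp n (x u) := by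
    have : dp n n * dp a (x u) = dp n a * dp n (x u) := by
      rw [dp_def a, dp_def n (x u)]
      linear_combination x u 0 * pa 0 + x u 1 * pa 1 + x u 2 * pa 2
    rw [au, mul_one] at this
    exact this
  have eb : dp n n = dp n b * dp n (x u) := by
    have : dp n n * dp b (x u) = dp n b * dp n (x u) := by
      rw [dp_def b, dp_def n (x u)]
      linear_combination x u 0 * pb 0 + x u 1 * pb 1 + x u 2 * pb 2
    rw [bu, mul_one] at this
    exact this
  have hne : dp n (x u) ≠ 0 := by
    intro h0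
    rw [h0, mul_zero] at ea
    exact hnn.ne' ea
  have hab : dp n a = dp n b := mul_right_cancel₀ hne (ea.symm.trans eb)
  funext i
  have h1 := pa i
  rw [hab, ← pb i] at h1
  exact mul_left_cancel₀ hnn.ne' h1

/-- a supporting plane with three vertices is a facet -/
theorem Pol.of_three (h : Pol x q) {a : E3} (ha : ∀ z, dp a (x z) ≤ 1) {u v w : V} (huv : u ≠ v)
    (hvw : v ≠ w) (hwu : w ≠ u) (hu : dp a (x u) = 1) (hv : dp a (x v) = 1)
    (hw : dp a (x w) = 1) : ∃ g, q g = a := by
  obtain ⟨l, hl, hs, e⟩ := exists_weights (h.hullA a ha)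
  have hg : ∃ g, 0 < l g := by
    by_contra hno
    push Not at hno
    have : ∑ g, l g ≤ 0 := Finset.sum_nonpos fun g _ => hno g
    rw [hs] at this
    linarith
  obtain ⟨g, hg⟩ := hg
  have key : ∀ z, dp a (x z) = 1 → dp (q g) (x z) = 1 := by
    intro z hz
    rw [e, dp_comm, dp_sum] at hz
    have k4 : ∑ g, l g * (1 - dp (q g) (x z)) = 0 := by
      simp only [mul_sub, mul_one, Finset.sum_sub_distrib, hs]
      rw [← hz, sub_eq_zero]
      exact Finset.sum_congr rfl fun g _ => by rw [dp_smul, dp_comm]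
    have k5 := (Finset.sum_eq_zero_iff_of_nonneg (fun g _ =>
      mul_nonneg (hl g) (sub_nonneg.2 (h.le z g)))).1 k4 g (Finset.mem_univ g)
    have := (mul_eq_zero.1 k5).resolve_left hg.ne'
    linarith
  exact ⟨g, h.plane_eq huv hvw hwu (key u hu) (key v hv) (key w hw) hu hv hw⟩

/-- two facets have at most two common vertices -/
theorem Pol.two (h : Pol x q) {u v w : V} (huv : u ≠ v) (hvw : v ≠ w) (hwu : w ≠ u)
    {f g : A} (fu : dp (q f) (x u) = 1) (fv : dp (q f) (x v) = 1) (fw : dp (q f) (x w) = 1)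
    (gu : dp (q g) (x u) = 1) (gv : dp (q g) (x v) = 1) (gw : dp (q g) (x w) = 1) : f = g :=
  h.injA (h.plane_eq huv hvw hwu fu fv fw gu gv gw)

/-- a facet has at least three vertices -/
theorem Pol.fac3 (h : Pol x q) (f : A) (u v : V) : ∃ w, w ≠ u ∧ w ≠ v ∧ dp (q f) (x w) = 1 := by
  by_contra hno
  push Not at hno
  obtain ⟨d, hd, d1, d2⟩ := exists_orthG1 (x u) (x v)
  have h1 : q f + d = q f := h.uniqA fun w hw => by
    rw [dp_add_left, hw]
    by_cases hwu : w = u
    · rw [hwu, d1, add_zero]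
    · by_cases hwv : w = v
      · rw [hwv, d2, add_zero]
      · exact absurd hw (hno w hwu hwv)
  exact hd (by simpa using h1)

/-- a vertex lies on at least three facets -/
theorem Pol.deg3 (h : Pol x q) (v : V) (f g : A) : ∃ k, k ≠ f ∧ k ≠ g ∧ dp (q k) (x v) = 1 := by
  obtain ⟨k, h1, h2, h3⟩ := h.swap.fac3 v f g
  exact ⟨k, h1, h2, by rw [dp_comm]; exact h3⟩

end Pool.RP
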