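import Pool.Agent.Lib.MP_9dcace_rp.Ge1

/-!
MP_9dcace_co, library RP, row Ge2: the stellated sphere of a polytope with a triangular facet.
helper24.
-/

set_option autoImplicit false

open Classical

namespace Pool.RP

open Pool.SX

theorem Ge2_no_rev {V : Type} [Fintype V] (S : Sph V) {u v w : V} (h : S.T u v w) :
    ¬ S.T v u w := by
  intro h'
  obtain ⟨w', hw, h2⟩ := S.opp h
  exact hw (S.uniq h2 h')

variable {V A : Type} [Fintype V] [Fintype A]

section

variable {x : V → E3} {q : A → E3} {o : A} {a : Fin 3 → V} {ε : ℝ}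

omit [Fintype A] in
theorem Ge2_range {f : A} (hf : f ∉ Set.range (Subtype.val : {f : A // f ≠ o} → A)) : f = o := by
  by_contra h
  exact hf ⟨⟨f, h⟩, rfl⟩

theorem Ge2_vvv (h : StkOK x q (Subtype.val : {f : A // f ≠ o} → A) ε)
    (ha : ∀ v, (∃ k, v = a k) ↔ dp (q o) (x v) = 1)
    (ht : h.spoly.sph.T (Sum.inl (a 1)) (Sum.inl (a 0)) (Sum.inl (a 2))) (u v w : V)
    (huvw : h.spoly.sph.T (Sum.inl u) (Sum.inl v) (Sum.inl w)) :
    (u = a 1 ∧ v = a 0 ∧ w = a 2) ∨ (u = a 0 ∧ v = a 2 ∧ w = a 1) ∨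
      (u = a 2 ∧ v = a 1 ∧ w = a 0) := by
  set S := h.spoly.sph with hS
  obtain ⟨f, hf, h1, h2, h3⟩ := h.tri_vvv huvw
  have hfo := Ge2_range hf
  subst hfo
  obtain ⟨i, rfl⟩ := (ha u).2 h1
  obtain ⟨j, rfl⟩ := (ha v).2 h2
  obtain ⟨k, rfl⟩ := (ha w).2 h3
  have hij : i ≠ j := fun h0 => S.ne huvw (by rw [h0])
  have hjk : j ≠ k := fun h0 => S.ne (S.rot huvw) (by rw [h0])
  have hki : k ≠ i := fun h0 => S.ne (S.rot (S.rot huvw)) (by rw [h0])
  have n1 := Ge2_no_rev S ht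
  have n2 := Ge2_no_rev S (S.rot ht)
  have n3 := Ge2_no_rev S (S.rot (S.rot ht))
  fin_cases i <;> fin_cases j <;> fin_cases k <;>
    first
    | exact absurd rfl hij
    | exact absurd rfl hjk
    | exact absurd rfl hki
    | exact Or.inl ⟨rfl, rfl, rfl⟩
    | exact Or.inr (Or.inl ⟨rfl, rfl, rfl⟩)
    | exact Or.inr (Or.inr ⟨rfl, rfl, rfl⟩)
    | exact absurd huvw n1
    | exact absurd huvw n2
    | exact absurd huvw n3

/-- what lies on the left of an edge contains its two ends -/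
theorem Ge2_left (h : StkOK x q (Subtype.val : {f : A // f ≠ o} → A) ε) {u v : V}
    {z : V ⊕ {f : A // f ≠ o}} (ht : h.spoly.sph.T (Sum.inl u) (Sum.inl v) z) :
    (∃ w, z = Sum.inl w ∧ dp (q o) (x u) = 1 ∧ dp (q o) (x v) = 1) ∨
    (∃ b : {f : A // f ≠ o}, z = Sum.inr b ∧ dp (q b.1) (x u) = 1 ∧ dp (q b.1) (x v) = 1) := by
  rcases z with w | b
  · left
    obtain ⟨f, hf, h1, h2, -⟩ := h.tri_vvv ht
    rw [← Ge2_range hf]
    exact ⟨w, rfl, h1, h2⟩
  · right
    exact ⟨b, rfl, (h.tri_vvf ht).1, (h.tri_vvf ht).2⟩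

/-- the structure for a given orientation of the outer facet -/
theorem Ge2_exists (h : StkOK x q (Subtype.val : {f : A // f ≠ o} → A) ε)
    (hinj : Function.Injective a) (ha : ∀ v, (∃ k, v = a k) ↔ dp (q o) (x v) = 1)
    (ht : h.spoly.sph.T (Sum.inl (a 1)) (Sum.inl (a 0)) (Sum.inl (a 2))) :
    ∃ P : StP V {f : A // f ≠ o}, (∀ v f, P.inc v f ↔ dp (q f.1) (x v) = 1) ∧
      ∀ v, (∃ k, v = P.a k) ↔ dp (q o) (x v) = 1 := by
  set S := h.spoly.sph with hS
  have hvvv := Ge2_vvv h ha ht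
  have hpol := h.pol
  have hak : ∀ k, dp (q o) (x (a k)) = 1 := fun k => (ha _).1 ⟨k, rfl⟩
  -- two inner facets
  have htwo : ∀ (f g : {f : A // f ≠ o}) (u v : V), f ≠ g → u ≠ v →
      dp (q f.1) (x u) = 1 → dp (q f.1) (x v) = 1 → dp (q g.1) (x u) = 1 → dp (q g.1) (x v) = 1 →
      (S.T (Sum.inl u) (Sum.inl v) (Sum.inr f) ∧ S.T (Sum.inl v) (Sum.inl u) (Sum.inr g)) ∨
      (S.T (Sum.inl u) (Sum.inl v) (Sum.inr g) ∧ S.T (Sum.inl v) (Sum.inl u) (Sum.inr f)) := by
    intro f g u v hfg huv fu fv gu gv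
    have hfg' : f.1 ≠ g.1 := fun h0 => hfg (Subtype.ext h0)
    have key : ∀ z : V ⊕ {f : A // f ≠ o}, (S.T (Sum.inl u) (Sum.inl v) z ∨
        S.T (Sum.inl v) (Sum.inl u) z) → z = Sum.inr f ∨ z = Sum.inr g := by
      intro z hz
      have hz' : (∃ w, z = Sum.inl w ∧ dp (q o) (x u) = 1 ∧ dp (q o) (x v) = 1) ∨
          (∃ b : {f : A // f ≠ o}, z = Sum.inr b ∧ dp (q b.1) (x u) = 1 ∧
            dp (q b.1) (x v) = 1) := by
        rcases hz with hz | hz
        · exact Ge2_left h hz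
        · rcases Ge2_left h hz with ⟨w, e1, e2, e3⟩ | ⟨b, e1, e2, e3⟩
          · exact Or.inl ⟨w, e1, e3, e2⟩
          · exact Or.inr ⟨b, e1, e3, e2⟩
      rcases hz' with ⟨w, -, h1, h2⟩ | ⟨b, hb, h1, h2⟩
      · exact absurd (hpol.vertex_unique (f := f.1) (g := g.1) (k := o) hfg' g.2 f.2.symm
          fu gu h1 fv gv h2) huv
      · by_contra hcon
        push Not at hcon
        have hbf : b.1 ≠ f.1 := fun h0 => hcon.1 (by rw [hb, Subtype.ext h0])
        have hbg : b.1 ≠ g.1 := fun h0 => hcon.2 (by rw [hb, Subtype.ext h0])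
        exact absurd (hpol.vertex_unique (f := f.1) (g := g.1) (k := b.1) hfg' hbg.symm hbf
          fu gu h1 fv gv h2) huv
    obtain ⟨z, hz⟩ := h.tri_of_two hfg' huv fu fv gu gv
    obtain ⟨z', hzz, hz'⟩ := S.opp (u := Sum.inl u) (v := Sum.inl v) (w := z) hz
    rcases key z (Or.inl hz) with rfl | rfl
    · rcases key z' (Or.inr hz') with rfl | rfl
      · exact absurd rfl hzz
      · exact Or.inl ⟨hz, hz'⟩
    · rcases key z' (Or.inr hz') with rfl | rfl
      · exact Or.inr ⟨hz, hz'⟩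
      · exact absurd rfl hzz
  refine ⟨{
    S := S
    a := a
    a_inj := hinj
    out := ht
    vvv := hvvv
    ff := fun f g z hz => h.tri_ff hz
    two := fun f g u v u1 v1 u2 v2 hfg huv h1 h2 h3 h4 =>
      htwo f g u v hfg huv (h.tri_vvf h1).1 (h.tri_vvf h2).1 (h.tri_vvf h3).1 (h.tri_vvf h4).1
    twoo := ?_
    deg := ?_
    dego := ?_ }, ?_, ?_⟩
  · intro f k u1 v1 h1 h2
    have fu := (h.tri_vvf h1).1
    have fv := (h.tri_vvf h2).1
    have hne : a k ≠ a (k + 1) := fun h0 => by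
      have := hinj h0
      fin_cases k <;> simp at this
    obtain ⟨z, hz⟩ := h.tri_of_two f.2 hne fu fv (hak k) (hak (k + 1))
    rcases z with w | b
    · exfalso
      rcases hvvv _ _ _ hz with ⟨e1, e2, -⟩ | ⟨e1, e2, -⟩ | ⟨e1, e2, -⟩
      · rw [hinj e1] at e2
        exact absurd (hinj e2) (by decide)
      · rw [hinj e1] at e2
        exact absurd (hinj e2) (by decide)
      · rw [hinj e1] at e2
        exact absurd (hinj e2) (by decide)
    · have h3 := h.tri_vvf hz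
      by_cases hbf : b = f
      · rw [hbf] at hz
        exact hz
      · exfalso
        have hbf' : b.1 ≠ f.1 := fun h0 => hbf (Subtype.ext h0)
        exact hne (hpol.vertex_unique (f := f.1) (g := o) (k := b.1) f.2 b.2.symm hbf'
          fu (hak k) h3.1 fv (hak (k + 1)) h3.2)
  · intro v hv f g
    obtain ⟨k, hkf, hkg, hk⟩ := hpol.exV v f.1 g.1
    have hko : k ≠ o := by
      rintro rfl
      obtain ⟨j, hj⟩ := (ha v).2 hk
      exact hv j hj
    obtain ⟨w, hw⟩ := h.tri_of_inc (v := v) (b := ⟨k, hko⟩) hk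
    exact ⟨⟨k, hko⟩, w, fun h0 => hkf (by rw [← h0]), fun h0 => hkg (by rw [← h0]), hw⟩
  · intro k f
    obtain ⟨g, hgf, hgo, hg⟩ := hpol.exV (a k) f.1 o
    obtain ⟨w, hw⟩ := h.tri_of_inc (v := a k) (b := ⟨g, hgo⟩) hg
    exact ⟨⟨g, hgo⟩, w, fun h0 => hgf (by rw [← h0]), hw⟩
  · intro v f
    constructor
    · rintro ⟨w, hw⟩
      exact (h.tri_vvf hw).1
    · intro hv
      obtain ⟨w, hw⟩ := h.tri_of_inc (v := v) (b := f) hv
      exact ⟨w, hw⟩
  · exact ha

end

/-- row Ge2 -/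
theorem Pol.exists_StP {x : V → E3} {q : A → E3} (h : Pol x q) (o : A)
    (ho : (Finset.univ.filter (fun v => dp (q o) (x v) = 1)).card = 3) :
    ∃ P : StP V {f : A // f ≠ o}, (∀ v f, P.inc v f ↔ dp (q f.1) (x v) = 1) ∧
      ∀ v, (∃ k, v = P.a k) ↔ dp (q o) (x v) = 1 := by
  obtain ⟨b0, b1, b2, h01, h02, h12, hs⟩ := Finset.card_eq_three.mp ho
  have hmem : ∀ v, dp (q o) (x v) = 1 ↔ v = b0 ∨ v = b1 ∨ v = b2 := by
    intro v
    have h1 : v ∈ Finset.univ.filter (fun v => dp (q o) (x v) = 1) ↔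
        v ∈ ({b0, b1, b2} : Finset V) := by rw [hs]
    simpa using h1
  obtain ⟨ε, hok⟩ := exists_stkOK h (Subtype.val : {f : A // f ≠ o} → A) Subtype.val_injective
    (fun f hf => by rw [Ge2_range hf]; exact ho)
  have hno : o ∉ Set.range (Subtype.val : {f : A // f ≠ o} → A) := by
    rintro ⟨f, hf⟩
    exact f.2 hf
  have h3 := hok.tri_of_not hno (u := b1) (v := b0) (w := b2) h01.symm h02 h12.symm
    ((hmem _).2 (Or.inr (Or.inl rfl))) ((hmem _).2 (Or.inl rfl)) ((hmem _).2 (Or.inr (Or.inr rfl)))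
  rcases h3 with h3 | h3
  · refine Ge2_exists (a := ![b0, b1, b2]) hok ?_ ?_ h3
    · intro i j hij
      fin_cases i <;> fin_cases j <;> simp_all
    · intro v
      rw [hmem]
      constructor
      · rintro ⟨k, hk⟩
        fin_cases k
        · exact Or.inl hk
        · exact Or.inr (Or.inl hk)
        · exact Or.inr (Or.inr hk)
      · rintro (hk | hk | hk)
        · exact ⟨0, hk⟩
        · exact ⟨1, hk⟩
        · exact ⟨2, hk⟩
  · refine Ge2_exists (a := ![b2, b1, b0]) hok ?_ ?_ h3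
    · intro i j hij
      fin_cases i <;> fin_cases j <;> simp_all
    · intro v
      rw [hmem]
      constructor
      · rintro ⟨k, hk⟩
        fin_cases k
        · exact Or.inr (Or.inr hk)
        · exact Or.inr (Or.inl hk)
        · exact Or.inl hk
      · rintro (hk | hk | hk)
        · exact ⟨2, hk⟩
        · exact ⟨1, hk⟩
        · exact ⟨0, hk⟩

end Pool.RP
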