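import Pool.Agent.Lib.MP_9dcace_rp.Ge1

/-!
Row Ge3 (Euler): a 3-polytope has a facet with exactly three vertices or a vertex on exactly three facets.
Stack all facets: the sphere has `2 (n + a) - 4` triangles, every incidence gives one of them.
-/

set_option autoImplicit false

open Classical

namespace Pool.RP

open Pool.SX

variable {V A : Type} [Fintype V] [Fintype A] {x : V → E3} {q : A → E3}

private theorem Ge3_card_ge (h : Pol x q) (f : A) :
    3 ≤ (Finset.univ.filter (fun v => dp (q f) (x v) = 1)).card := by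
  have hp := h.card_pos f
  obtain ⟨u, -⟩ : ∃ u : V, u ∈ Finset.univ.filter (fun v => dp (q f) (x v) = 1) :=
    Finset.card_pos.1 (by exact_mod_cast hp)
  obtain ⟨a, -, -, ha⟩ := h.exF f u u
  obtain ⟨b, hba, -, hb⟩ := h.exF f a a
  obtain ⟨c, hca, hcb, hc⟩ := h.exF f a b
  have hsub : ({a, b, c} : Finset V) ⊆ Finset.univ.filter (fun v => dp (q f) (x v) = 1) := by
    intro z hz
    simp only [Finset.mem_insert, Finset.mem_singleton] at hz
    rw [Finset.mem_filter]
    rcases hz with rfl | rfl | rfl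
    · exact ⟨Finset.mem_univ _, ha⟩
    · exact ⟨Finset.mem_univ _, hb⟩
    · exact ⟨Finset.mem_univ _, hc⟩
  have h3 : ({a, b, c} : Finset V).card = 3 := Finset.card_eq_three.2
    ⟨a, b, c, hba.symm, hca.symm, hcb.symm, rfl⟩
  rw [← h3]
  exact Finset.card_le_card hsub

private theorem Ge3_sum {V A : Type} [Fintype V] [Fintype A] {m : ℕ} (inc : V → A → Prop)
    (h4 : ∀ f, m ≤ (Finset.univ.filter (fun v => inc v f)).card) :
    m * Fintype.card A ≤ Nat.card {p : V × A // inc p.1 p.2} := by
  have h1 : Nat.card {p : V × A // inc p.1 p.2} = ∑ f : A, (Finset.univ.filter (fun v => inc v f)).card := by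
    rw [Nat.card_eq_fintype_card]
    have e : {p : V × A // inc p.1 p.2} ≃ Σ f : A, {v : V // inc v f} :=
      { toFun := fun p => ⟨p.1.2, p.1.1, p.2⟩
        invFun := fun s => ⟨(s.2.1, s.1), s.2.2⟩
        left_inv := fun p => rfl
        right_inv := fun s => rfl }
    rw [Fintype.card_congr e, Fintype.card_sigma]
    refine Finset.sum_congr rfl fun f _ => ?_
    rw [Fintype.card_subtype]
  rw [h1]
  calc m * Fintype.card A = ∑ _f : A, m := by
        rw [Finset.sum_const, Finset.card_univ, smul_eq_mul, mul_comm]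
    _ ≤ _ := Finset.sum_le_sum fun f _ => h4 f

/-- three times the number of incidences plus 12 is at most six times the number of vertices and facets -/
theorem Pol.card_inc_le {x : V → E3} {q : A → E3} (h : Pol x q) :
    3 * Nat.card {p : V × A // dp (q p.2) (x p.1) = 1} + 12 ≤
      6 * (Fintype.card V + Fintype.card A) := by
  obtain ⟨ε, hs⟩ := exists_stkOK h (id : A → A) Function.injective_id (fun f hf => absurd ⟨f, rfl⟩ hf)
  have hc := hs.spoly.sph.count
  have hw : ∀ p : {p : V × A // dp (q p.2) (x p.1) = 1}, ∃ w,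
      Tri (stk x q id ε) (Sum.inl p.1.1) (Sum.inl w) (Sum.inr p.1.2) := fun p => hs.tri_of_inc p.2
  choose w hw using hw
  let X := {p : (V ⊕ A) × (V ⊕ A) × (V ⊕ A) // hs.spoly.sph.T p.1 p.2.1 p.2.2}
  let g : Fin 3 × {p : V × A // dp (q p.2) (x p.1) = 1} → X := fun s =>
    if s.1 = 0 then ⟨(Sum.inl s.2.1.1, Sum.inl (w s.2), Sum.inr s.2.1.2), hw s.2⟩
    else if s.1 = 1 then ⟨(Sum.inl (w s.2), Sum.inr s.2.1.2, Sum.inl s.2.1.1), (hw s.2).rot⟩
    else ⟨(Sum.inr s.2.1.2, Sum.inl s.2.1.1, Sum.inl (w s.2)), (hw s.2).rot.rot⟩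
  have hg : Function.Injective g := by
    rintro ⟨i, p⟩ ⟨j, p'⟩ hij
    have hv := congrArg Subtype.val hij
    fin_cases i <;> fin_cases j <;> simp [g, Prod.ext_iff] at hv <;>
      · try exact Prod.ext rfl (Subtype.ext (Prod.ext (by tauto) (by tauto)))
  have hcard : 3 * Nat.card {p : V × A // dp (q p.2) (x p.1) = 1} ≤ Nat.card X := by
    have := Nat.card_le_card_of_injective g hg
    rwa [Nat.card_prod, Nat.card_eq_fintype_card, Fintype.card_fin] at this
  have hs1 : Fintype.card (V ⊕ A) = Fintype.card V + Fintype.card A := Fintype.card_sum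
  rw [hs1] at hc
  have hX : Nat.card X = Nat.card {p : (V ⊕ A) × (V ⊕ A) × (V ⊕ A) //
    hs.spoly.sph.T p.1 p.2.1 p.2.2} := rfl
  rw [← hX] at hc
  omega

/-- a polytope with `n` vertices has at most `2 n - 4` facets -/
theorem Pol.card_A_le {x : V → E3} {q : A → E3} (h : Pol x q) :
    Fintype.card A + 4 ≤ 2 * Fintype.card V := by
  have h1 := Ge3_sum (fun v f => dp (q f) (x v) = 1) (Ge3_card_ge h)
  have h2 := h.card_inc_le
  omega

/-- row Ge3: Euler -/
theorem Pol.euler {x : V → E3} {q : A → E3} (h : Pol x q) :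
    (∃ f, (Finset.univ.filter (fun v => dp (q f) (x v) = 1)).card = 3) ∨
    (∃ v, (Finset.univ.filter (fun f => dp (q f) (x v) = 1)).card = 3) := by
  by_contra hne
  push Not at hne
  obtain ⟨hA, hV⟩ := hne
  have h4 : ∀ f, 4 ≤ (Finset.univ.filter (fun v => dp (q f) (x v) = 1)).card := by
    intro f
    have h1 := Ge3_card_ge h f
    have h2 := hA f
    omega
  have h4' : ∀ v, 4 ≤ (Finset.univ.filter (fun f => dp (q f) (x v) = 1)).card := by
    intro v
    have h1 := Ge3_card_ge h.symm1 v
    have h2 := hV v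
    have h3 : (Finset.univ.filter (fun f => dp (x v) (q f) = 1)) =
        (Finset.univ.filter (fun f => dp (q f) (x v) = 1)) := by
      refine Finset.filter_congr fun f _ => ?_
      rw [dp_comm]
    rw [h3] at h1
    omega
  have hI1 := Ge3_sum (fun v f => dp (q f) (x v) = 1) h4
  have hI2 := Ge3_sum (fun (f : A) (v : V) => dp (q f) (x v) = 1) h4'
  have hsw : Nat.card {p : A × V // dp (q p.1) (x p.2) = 1} =
      Nat.card {p : V × A // dp (q p.2) (x p.1) = 1} := by
    refine Nat.card_congr
      { toFun := fun p => ⟨(p.1.2, p.1.1), p.2⟩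
        invFun := fun p => ⟨(p.1.2, p.1.1), p.2⟩
        left_inv := fun p => rfl
        right_inv := fun p => rfl }
  have hI3 := h.card_inc_le
  rw [hsw] at hI2
  omega

end Pool.RP
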