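import Pool.Agent.Lib.MP_9dcace_rp.N3

/-!
REAL, section 6 (margins): (6.5), (6.6), an equilibrium drawing has strictly convex faces with a margin
which is polynomial in the data: `PG.drwS`.
-/

set_option autoImplicit false

open Classical

namespace Pool.RP.PG

open Pool.SX (ar Sch OutF)

variable {V F : Type} [Fintype V] [Fintype F] {P : StP V F} {s : SchP V F}
variable {om : V → V → ℝ} {p : V → ℝ × ℝ} {lo hi A : ℝ}

theorem avg_pos0 (hd : s.Drw om p lo hi A) (f : F) (v : V) (hv : s.Inc v f) :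
    0 < ar (p v) (p (s.nx f v)) (s.avg p f) := by
  have h := avg_far hd hv
  have hA := hd.A_pos
  have : Nonempty V := ⟨v⟩
  have h1 : (0 : ℝ) < Fintype.card V := by exact_mod_cast Fintype.card_pos
  exact lt_of_lt_of_le (by positivity) h

/-! ### the sphere -/

/-- CONE in the stellated sphere -/
theorem cone_S (hP : SchPOf P s) (hd : s.Drw om p lo hi A) {v w c u x x' : V ⊕ F}
    (hin : ∀ k, v ≠ Sum.inl (P.a k)) (h1 : P.S.T v w c) (h2 : P.S.T v c u) (h3 : P.S.T v x x')
    (hxw : x ≠ w) (hxc : x ≠ c) :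
    ¬ (0 < ar (s.pS p v) (s.pS p w) (s.pS p x) ∧ 0 < ar (s.pS p v) (s.pS p x) (s.pS p u)) := by
  obtain ⟨F', _, s', hS⟩ := exists_stSch P
  have hno : ∀ y z, ¬ OutF (fun k => Sum.inl (P.a k)) v y z := by
    rintro y z (⟨h, -, -⟩ | ⟨h, -, -⟩ | ⟨h, -, -⟩)
    · exact hin 1 h
    · exact hin 0 h
    · exact hin 2 h
  have hout : 0 < ar (s.pS p (s'.a 0)) (s.pS p (s'.a 1)) (s.pS p (s'.a 2)) := by
    rw [hS.ha]
    show 0 < ar (p (P.a 0)) (p (P.a 1)) (p (P.a 2))
    rw [← hP.ha]
    exact SchP.outer_pos hd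
  have harea := hS.area_pos hP (avg_pos0 hd)
  obtain ⟨g1, k1, a1, a2, a3⟩ := hS.hall v w c h1 (hno _ _)
  obtain ⟨g2, k2, b1, b2, b3⟩ := hS.hall v c u h2 (hno _ _)
  obtain ⟨g3, k3, c1, c2, c3⟩ := hS.hall v x x' h3 (hno _ _)
  have hne : ∀ (g : F') (k : Fin 3), s'.t k g = v → k ≠ k3 → g ≠ g3 := by
    intro g k e1 e2 e3
    subst e3
    exact s'.t_ne g e2 (e1.trans c1.symm)
  refine cone s' (s.pS p) hout harea a1 a2 a3 b1 b2 b3 c1 c2 ?_ ?_
  · by_cases hk : k1 = k3
    · intro e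
      subst e
      subst hk
      exact hxw (c2.symm.trans a2)
    · exact hne g1 k1 a1 hk
  · by_cases hk : k2 = k3
    · intro e
      subst e
      subst hk
      exact hxc (c2.symm.trans b2)
    · exact hne g2 k2 b1 hk

theorem opp_f (P : StP V F) {u v : V} {f : F} (h : P.T u v f) (hv : P.inn v) :
    ∃ f1, P.T v u f1 := by
  obtain ⟨z, -, hz⟩ := P.S.opp h
  rcases z with w | f1
  · exfalso
    rcases P.vvv v u w hz with ⟨h1, -, -⟩ | ⟨h1, -, -⟩ | ⟨h1, -, -⟩
    · exact hv 1 h1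
    · exact hv 0 h1
    · exact hv 2 h1
  · exact ⟨f1, hz⟩

/-- an inner vertex has at least three facets -/
theorem deg3 (P : StP V F) {u v w y : V} {f f1 f2 : F} (hin : P.inn v) (h1 : P.T v w f)
    (h2 : P.T u v f) (h3 : P.T v u f1) (h4 : P.T y v f1) (h5 : P.T v y f2) : f2 ≠ f := by
  intro e
  subst e
  have hyw : (Sum.inl y : V ⊕ F) = Sum.inl w := P.S.prv_uniq h5 h1
  obtain ⟨h, w', n1, n2, hT⟩ := P.deg v hin f2 f1
  have hl := P.S.link h1 hT
  have key : ∀ z : V ⊕ F, Relation.ReflTransGen (fun x y => P.S.T (Sum.inl v) x y) (Sum.inl w) z →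
      z = Sum.inl w ∨ z = Sum.inr f2 ∨ z = Sum.inl u ∨ z = Sum.inr f1 := by
    intro z hz
    induction hz with
    | refl => exact Or.inl rfl
    | tail _ hb ih =>
      rcases ih with e | e | e | e
      · rw [e] at hb
        exact Or.inr (Or.inl (P.S.uniq hb h1))
      · rw [e] at hb
        exact Or.inr (Or.inr (Or.inl (P.S.uniq hb (P.S.rot h2))))
      · rw [e] at hb
        exact Or.inr (Or.inr (Or.inr (P.S.uniq hb h3)))
      · rw [e] at hb
        exact Or.inl ((P.S.uniq hb (P.S.rot h4)).trans hyw)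
  rcases key _ hl with e | e | e | e
  · rw [e] at hT
    exact n1 (Sum.inr_injective (P.S.uniq hT h1))
  · exact absurd e (by simp)
  · rw [e] at hT
    exact n2 (Sum.inr_injective (P.S.uniq hT h3))
  · exact absurd e (by simp)

/-! ### weights -/

theorem om_face (hd : s.Drw om p lo hi A) {g : F} {v : V} (hv : s.Inc v g)
    (h : s.inn v ∨ s.inn (s.nx g v)) : lo ≤ om v (s.nx g v) := by
  obtain ⟨k, hk⟩ := hv
  have hleft : ∀ c, s.inn v → g = s.gL c v → lo ≤ om v (s.nx g v) := by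
    intro c h2 h4
    have h5 := hd.wlo c v h2
    rw [← s.nL c v h2, ← h4] at h5
    exact h5
  rcases s.edge hk with ⟨-, h1⟩ | ⟨-, h2, -, h4, -⟩
  · rcases h1 with ⟨h1, h2⟩ | ⟨h2, h4⟩ | ⟨h2, h4⟩
    · exfalso
      rcases h with h | h
      · exact h k h2
      · apply h (k + 1)
        rw [h1, h2]
        exact s.on k
    · exact hleft _ h2 h4
    · have e1 := s.nR k _ h2
      obtain ⟨l, e2⟩ := s.iR k _ h2
      rw [← h4] at e1 e2
      have e3 : s.out k (s.nx g v) = v := s.nxinj e2 hk e1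
      have h5 := hd.wlo k _ h2
      rw [e3, hd.symm] at h5
      exact h5
  · exact hleft _ h2 h4

theorem nbr_face (hd : s.Drw om p lo hi A) {v x : V} (h : om v x ≠ 0) :
    (∃ g, s.Inc v g ∧ s.nx g v = x) ∨ (∃ g, s.Inc x g ∧ s.nx g x = v) := by
  obtain ⟨c, ⟨h1, h2⟩ | ⟨h1, h2⟩⟩ := hd.supp v x h
  · exact Or.inl ⟨s.gL c v, ⟨_, s.lL c v h1⟩, (s.nL c v h1).trans h2.symm⟩
  · exact Or.inr ⟨s.gL c x, ⟨_, s.lL c x h1⟩, (s.nL c x h1).trans h2.symm⟩

theorem om_lo (hd : s.Drw om p lo hi A) {v x : V} (h : om v x ≠ 0) : lo ≤ om v x := by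
  obtain ⟨c, ⟨h1, h2⟩ | ⟨h1, h2⟩⟩ := hd.supp v x h
  · rw [h2]
    exact hd.wlo c v h1
  · rw [h2, hd.symm]
    exact hd.wlo c x h1

/-! ### the corners -/

/-- the margin -/
noncomputable def marg (n : ℕ) (lo hi A : ℝ) : ℝ := lo * A ^ 12 / (16384 * n ^ 2 * hi)

/-- (6.5) at an inner vertex -/
theorem corner_inn (hP : SchPOf P s) (hd : s.Drw om p lo hi A) {g : F} {u v w : V}
    (hu : s.Inc u g) (hv : s.nx g u = v) (hw : s.nx g v = w) (hin : s.inn v) :
    marg (Fintype.card V) lo hi A ≤ ar (p u) (p v) (p w) := by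
  have hinP : P.inn v := by
    intro k
    rw [← hP.ha]
    exact hin k
  have hA := hd.A_pos
  have hA2 := A_le hd g
  have hlo := hd.lo_pos
  have hvg : s.Inc v g := by
    rw [← hv]
    exact s.inc_nx hu
  have hcV : (0 : ℝ) < Fintype.card V := by
    have : Nonempty V := ⟨v⟩
    exact_mod_cast Fintype.card_pos
  have tT : ∀ {g : F} {x y : V}, s.Inc x g → s.nx g x = y → P.T x y g := by
    intro g x y h1 h2
    obtain ⟨k, hk⟩ := h1
    have := hP.hT k g x hk
    rw [h2] at this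
    exact this
  have t1 : P.T v w g := tT hvg hw
  have t2 : P.T u v g := tT hu hv
  obtain ⟨f1, t3⟩ := opp_f P t2 hinP
  obtain ⟨i1, n1⟩ := hP.hI v u f1 t3
  obtain ⟨y, i2, n2⟩ := s.prev i1
  have t4 : P.T y v f1 := tT i2 n2
  obtain ⟨f2, t5⟩ := opp_f P t4 hinP
  obtain ⟨i3, n3⟩ := hP.hI v y f2 t5
  have hne : f2 ≠ g := deg3 P hinP t1 t2 t3 t4 t5
  have hinl : ∀ k, (Sum.inl v : V ⊕ F) ≠ Sum.inl (P.a k) := fun k e => hinP k (Sum.inl_injective e)
  -- weights
  have omu : lo ≤ om v u := by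
    have := om_face hd i1 (Or.inl hin)
    rw [n1] at this
    exact this
  have omw : lo ≤ om v w := by
    have := om_face hd hvg (Or.inl hin)
    rw [hw] at this
    exact this
  have omy : lo ≤ om v y := by
    have := om_face hd i3 (Or.inl hin)
    rw [n3] at this
    exact this
  set N : Finset V := Finset.univ.filter (fun x => om v x ≠ 0) with hN
  have memN : ∀ x, x ∈ N ↔ om v x ≠ 0 := by
    intro x
    rw [hN, Finset.mem_filter]
    exact ⟨fun h => h.2, fun h => ⟨Finset.mem_univ _, h⟩⟩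
  have hNu : u ∈ N := (memN u).mpr (by linarith)
  have hNw : w ∈ N := (memN w).mpr (by linarith)
  have hNy : y ∈ N := (memN y).mpr (by linarith)
  have hhi : 0 < hi := hlo.trans_le (omu.trans (hd.whi v u))
  have hlen : ∀ x ∈ N, A ^ 2 / 2 ≤ dp (p x - p v) (p x - p v) := by
    intro x hx
    rcases nbr_face hd ((memN x).mp hx) with ⟨h, e1, e2⟩ | ⟨h, e1, e2⟩
    · have := edge_len hd e1
      rw [e2] at this
      exact this
    · have := edge_len hd e1
      rw [e2] at this
      have h9 : dp (p x - p v) (p x - p v) = dp (p v - p x) (p v - p x) := by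
        simp only [dp, Prod.fst_sub, Prod.snd_sub]
        ring
      rw [h9]
      exact this
  have he := hd.equi v hin
  have he1 : ∑ x ∈ N, om v x * (p x - p v).1 = 0 := by
    have h1 : ∑ x, om v x * (p x - p v).1 = 0 := by
      have h := congrArg Prod.fst he
      simpa [Prod.fst_sum] using h
    rw [hN, Finset.sum_filter]
    refine Eq.trans (Finset.sum_congr rfl fun x _ => ?_) h1
    split_ifs with h
    · rfl
    · push Not at h
      rw [h, zero_mul]
  have he2 : ∑ x ∈ N, om v x * (p x - p v).2 = 0 := by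
    have h1 : ∑ x, om v x * (p x - p v).2 = 0 := by
      have h := congrArg Prod.snd he
      simpa [Prod.snd_sum] using h
    rw [hN, Finset.sum_filter]
    refine Eq.trans (Finset.sum_congr rfl fun x _ => ?_) h1
    split_ifs with h
    · rfl
    · push Not at h
      rw [h, zero_mul]
  have hdel : 0 ≤ cr (p w - p v) (p u - p v) := by
    have := side_nn0 hd hvg hu
    rw [hw, ar_cr] at this
    exact this
  have hcone : ∀ x ∈ N, x ≠ u → x ≠ w →
      ¬ (0 < cr (p w - p v) (p x - p v) ∧ 0 < cr (p x - p v) (p u - p v)) := by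
    intro x hx hxu hxw
    obtain ⟨x', hx'⟩ : ∃ x', P.S.T (Sum.inl v) (Sum.inl x) x' := by
      rcases nbr_face hd ((memN x).mp hx) with ⟨h, e1, e2⟩ | ⟨h, e1, e2⟩
      · exact ⟨_, tT e1 e2⟩
      · obtain ⟨z, -, hz⟩ := P.S.opp (tT e1 e2)
        exact ⟨z, hz⟩
    have h := cone_S hP hd hinl t1 (P.S.rot t2) hx' (fun e => hxw (Sum.inl_injective e)) (by simp)
    simp only [SchP.pS_inl, ar_cr] at h
    exact h
  have hconec : ¬ (0 < cr (p w - p v) (s.avg p f2 - p v) ∧
      0 < cr (s.avg p f2 - p v) (p u - p v)) := by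
    obtain ⟨x', hx'⟩ := P.S.nxt t5
    have h := cone_S hP hd hinl t1 (P.S.rot t2) hx' (by simp)
      (fun e => hne (Sum.inr_injective e))
    simp only [SchP.pS_inl, SchP.pS_inr, ar_cr] at h
    exact h
  have hc : A ^ 2 / 2 * A / 4 / Fintype.card V ≤ cr (p y - p v) (s.avg p f2 - p v) := by
    have := avg_far hd i3
    rw [n3, ar_cr] at this
    exact this
  have hD2 : A ^ 2 / 2 * A / 4 * (A ^ 2 / 2) / 2 ≤ 2 := by
    have h1 : A ^ 5 ≤ 2 ^ 5 := pow_le_pow_left₀ hA.le hA2 5
    have h2 : A ^ 2 / 2 * A / 4 * (A ^ 2 / 2) / 2 = A ^ 5 / 32 := by ring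
    rw [h2]
    linarith
  have hcore := strict_core N (fun x => p x - p v) (om v) hlo (L := A ^ 2 / 2)
    (D := A ^ 2 / 2 * A / 4 * (A ^ 2 / 2) / 2) (M := A ^ 2 / 2 * A / 4 / Fintype.card V)
    (c := s.avg p f2 - p v) (hi := hi) (by positivity) (by positivity) (by positivity) hD2
    (fun x hx => ⟨om_lo hd ((memN x).mp hx), hd.whi v x⟩) he1 he2
    (fun x _ => sm hd x v) (sm_sub (avg_tri hd f2) (SchP.in_tri hd v))
    (by
      have h1 : (p w - p v) - (p u - p v) = p w - p u := by abel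
      show Sm ((p w - p v) - (p u - p v))
      rw [h1]
      exact sm hd w u) hlen hNu hNw hNy hdel hcone hconec
    (spike_at hd hu hv hw) (spike_at hd i2 n2 n1) hc
  have e1 : ar (p u) (p v) (p w) = cr (p w - p v) (p u - p v) := by
    simp only [cr, ar, Prod.fst_sub, Prod.snd_sub]
    ring
  rw [e1]
  refine le_trans ?_ hcore
  have hcN : (N.card : ℝ) ≤ Fintype.card V := by exact_mod_cast Finset.card_le_univ _
  have hcN0 : (0 : ℝ) < N.card := by exact_mod_cast Finset.card_pos.mpr ⟨u, hNu⟩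
  have e2 : marg (Fintype.card V) lo hi A = lo * (A ^ 2 / 2) ^ 2 *
      (A ^ 2 / 2 * A / 4 / Fintype.card V) * (A ^ 2 / 2 * A / 4 * (A ^ 2 / 2) / 2) /
        (16 * Fintype.card V * hi) := by
    unfold marg
    field_simp
    ring
  rw [e2]
  refine div_le_div_of_nonneg_left (by positivity) (by positivity) ?_
  have : 16 * (N.card : ℝ) ≤ 16 * Fintype.card V := by linarith
  exact mul_le_mul_of_nonneg_right this hhi.le

theorem marg_le (hd : s.Drw om p lo hi A) (hlh : lo ≤ hi) (g : F) (v : V) :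
    marg (Fintype.card V) lo hi A ≤ A := by
  have hA := hd.A_pos
  have hA2 := A_le hd g
  have hlo := hd.lo_pos
  have hhi : 0 < hi := hlo.trans_le hlh
  have hcV : (1 : ℝ) ≤ Fintype.card V := by
    have : Nonempty V := ⟨v⟩
    have := Fintype.card_pos (α := V)
    exact_mod_cast this
  unfold marg
  rw [div_le_iff₀ (by positivity)]
  have h1 : A ^ 11 ≤ 2 ^ 11 := pow_le_pow_left₀ hA.le hA2 11
  have h2 : (1 : ℝ) ≤ (Fintype.card V : ℝ) ^ 2 := one_le_pow₀ hcV
  have h3 : lo * A ^ 12 ≤ hi * (A * 16384) := by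
    have e : lo * A ^ 12 = lo * (A * A ^ 11) := by ring
    rw [e]
    refine mul_le_mul hlh ?_ (by positivity) hhi.le
    refine mul_le_mul_of_nonneg_left ?_ hA.le
    linarith
  have h4 : hi * (A * 16384) * 1 ≤ hi * (A * 16384) * (Fintype.card V : ℝ) ^ 2 :=
    mul_le_mul_of_nonneg_left h2 (by positivity)
  calc lo * A ^ 12 ≤ hi * (A * 16384) := h3
    _ = hi * (A * 16384) * 1 := by ring
    _ ≤ hi * (A * 16384) * (Fintype.card V : ℝ) ^ 2 := h4
    _ = A * (16384 * (Fintype.card V : ℝ) ^ 2 * hi) := by ring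

/-- (6.5) at every vertex -/
theorem corner (hP : SchPOf P s) (hd : s.Drw om p lo hi A) (hlh : lo ≤ hi) {g : F} {u v w : V}
    (hu : s.Inc u g) (hv : s.nx g u = v) (hw : s.nx g v = w) :
    marg (Fintype.card V) lo hi A ≤ ar (p u) (p v) (p w) := by
  by_cases hin : s.inn v
  · exact corner_inn hP hd hu hv hw hin
  refine (marg_le hd hlh g v).trans ?_
  have hex : ∃ k, v = s.a k := by
    by_contra hc
    push Not at hc
    exact hin hc
  obtain ⟨k, hk⟩ := hex
  have hvg : s.Inc v g := by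
    rw [← hv]
    exact s.inc_nx hu
  have hLv : s.L k g v := by
    obtain ⟨j, hj⟩ := hvg
    rw [hk] at hj
    have := s.lab hj
    rw [← this, hk]
    exact hj
  have hLw : s.L (k + 1) g w := by
    rcases s.edge hLv with ⟨h1, -⟩ | ⟨-, h2, -⟩
    · rw [hw] at h1
      exact h1
    · exact absurd hk (h2 k)
  obtain ⟨l, hl⟩ := hu
  have hLu : l + 1 = k := by
    rcases s.edge hl with ⟨h1, -⟩ | ⟨-, -, h3, -⟩
    · rw [hv] at h1
      exact s.Luniq h1 hLv
    · rw [hv] at h3
      exact absurd hk (h3 k)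
  have e12 : ∀ l : Fin 3, l + 1 + 2 = l := by decide
  have hl2 : k + 2 = l := by
    rw [← hLu]
    exact e12 l
  have h := tri_area hd hLv hLw (hl2.symm ▸ hl : s.L (k + 2) g u)
  rw [ar_rot (p u)] at h
  exact h

/-- the result of section 6 -/
theorem drwS (hP : SchPOf P s) (hd : s.Drw om p lo hi A) (hlh : lo ≤ hi) :
    s.DrwS om p lo hi A (marg (Fintype.card V) lo hi A) := by
  have hA := hd.A_pos
  have hlo := hd.lo_pos
  have hhi : 0 < hi := hlo.trans_le hlh
  have hcV : (0 : ℝ) < Fintype.card V := by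
    have : Nonempty V := ⟨s.a 0⟩
    exact_mod_cast Fintype.card_pos
  have hm : 0 < marg (Fintype.card V) lo hi A := by
    unfold marg
    positivity
  refine { hd with B_pos := hm, side := ?_ }
  intro g v u hv hu h1 h2
  set b := s.nx g v with hb
  have hbg : s.Inc b g := s.inc_nx hv
  obtain ⟨m, hm1, hm2, hm3⟩ := first hbg hv
  obtain ⟨i, hi1, hi2, hi3⟩ := first hbg hu
  have hi0 : 1 ≤ i := by
    rcases Nat.eq_zero_or_pos i with h | h
    · rw [h] at hi1
      exact absurd hi1.symm h2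
    · exact h
  have hret : (s.nx g)^[m + 1] b = b := by
    rw [Function.iterate_succ_apply', hm1]
  have him : i < m := by
    rcases lt_trichotomy i m with h | h | h
    · exact h
    · rw [h, hm1] at hi1
      exact absurd hi1.symm h1
    · exact absurd hret (hi3 (m + 1) (by omega) (by omega))
  have hcor : ∀ j, marg (Fintype.card V) lo hi A ≤ ar (p ((s.nx g)^[j] b))
      (p ((s.nx g)^[j + 1] b)) (p ((s.nx g)^[j + 2] b)) := by
    intro j
    refine corner hP hd hlh (s.inc_iter hbg j) ?_ ?_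
    · exact (Function.iterate_succ_apply' _ _ _).symm
    · exact (Function.iterate_succ_apply' _ _ _).symm
  have hpe := poly_edge (fun j => p ((s.nx g)^[j] b)) (m := m) (by omega) hm
    (fun i j k hij hjk hkm => hd.conv g _ _ _ (ccw_iter hbg hm3 hij hjk hkm))
    (fun j _ => hcor j) ?_ ?_ i hi0 (by omega)
  · have e0 : (s.nx g)^[m] b = v := hm1
    have e1 : (s.nx g)^[i] b = u := hi1
    simp only [e0, e1, Function.iterate_zero, id] at hpe
    exact hpe
  · have h3 := hcor (m - 1)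
    have e1 : m - 1 + 1 = m := by omega
    have e2 : m - 1 + 2 = m + 1 := by omega
    rw [e1, e2, hret] at h3
    exact h3
  · have h3 := hcor m
    have e2 : (s.nx g)^[m + 2] b = (s.nx g)^[1] b := by
      have : m + 2 = 1 + (m + 1) := by omega
      rw [this, Function.iterate_add_apply, hret]
    rw [hret, e2] at h3
    exact h3

end Pool.RP.PG
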