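import Pool.Agent.Lib.MP_9dcace_rp.NDefs
import Pool.Agent.Lib.MP_9dcace_sx.CMain
import Pool.Agent.Lib.MP_9dcace_sx.T12
import Pool.Agent.Lib.MP_9dcace_sx.T3
import Pool.Agent.Lib.MP_9dcace_sx.T5

/-!
ROW Ta (section 7 of m3_REAL_h83.md): the piecewise linear function over an equilibrium drawing of a plane map
with polygonal faces, from the one for the stellated sphere (weight 0 on the spokes).
* `StP.exists_ss` : the Schnyder structure of the stellated sphere, each inner triangle has one centre.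
* `SchP.crs_exists`, `SchP.height`.
-/

set_option autoImplicit false

open Classical

namespace Pool.RP

open Pool.SX

section names

variable {V F : Type} [Fintype V] [Fintype F] (s : Sch V F)

private theorem ta_third : ∀ c c' : Fin 3, ∃ j, j ≠ c ∧ j ≠ c' := by decide

private theorem ta_out_inj {u : V} (hu : s.inn u) {c c' : Fin 3} (h : s.out c u = s.out c' u) :
    c = c' := by
  by_contra hne
  have h1 := (s.out_pot hu c).1
  have h2 := (s.out_pot hu c').2 c hne
  rw [h] at h1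
  exact lt_irrefl _ (h1.trans h2)

private theorem ta_not_both {u v : V} (hu : s.inn u) (hv : s.inn v) {c c' : Fin 3}
    (h : s.out c u = v) (h' : s.out c' v = u) : False := by
  by_cases hcc : c = c'
  · subst hcc
    have h1 := (s.out_pot hu c).1
    have h2 := (s.out_pot hv c).1
    rw [h] at h1
    rw [h'] at h2
    exact lt_irrefl _ (h1.trans h2)
  · obtain ⟨j, h1, h2⟩ := ta_third c c'
    have h3 := (s.out_pot hu c).2 j h1
    have h4 := (s.out_pot hv c').2 j h2
    rw [h] at h3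
    rw [h'] at h4
    exact lt_irrefl _ (h3.trans h4)

/-- a weight given on the pairs of vertices, symmetric and zero on the pairs without a name -/
theorem ta_omT (om : V → V → ℝ) (hs : ∀ u v, om u v = om v u) {u v : V} (hu : s.inn u)
    (hn : om u v ≠ 0 → (∃ c, s.out c u = v) ∨ (s.inn v ∧ ∃ c, s.out c v = u)) :
    s.omT (fun c w => om w (s.out c w)) u v = om u v := by
  unfold Sch.omT
  have e1 : ∀ c, (if s.inn u ∧ s.out c u = v then om u (s.out c u) else 0) =
      if s.out c u = v then om u v else 0 := by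
    intro c
    by_cases h : s.out c u = v
    · rw [if_pos ⟨hu, h⟩, if_pos h, h]
    · rw [if_neg (fun hh => h hh.2), if_neg h]
  have e2 : ∀ c, (if s.inn v ∧ s.out c v = u then om v (s.out c v) else 0) =
      if s.inn v ∧ s.out c v = u then om u v else 0 := by
    intro c
    by_cases h : s.inn v ∧ s.out c v = u
    · rw [if_pos h, if_pos h, h.2, hs]
    · rw [if_neg h, if_neg h]
  rw [Finset.sum_congr rfl fun c _ => e1 c, Finset.sum_congr rfl fun c _ => e2 c]
  by_cases h0 : om u v = 0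
  · rw [h0]
    simp
  · rcases hn h0 with ⟨c, hc⟩ | ⟨hv, c, hc⟩
    · rw [Finset.sum_eq_single c, if_pos hc, Finset.sum_eq_zero, add_zero]
      · intro c' _
        rw [if_neg]
        rintro ⟨hv, hc'⟩
        exact ta_not_both s hu hv hc hc'
      · intro c' _ hne
        rw [if_neg]
        intro hc'
        exact hne (ta_out_inj s hu (hc'.trans hc.symm))
      · intro h
        exact absurd (Finset.mem_univ _) h
    · rw [Finset.sum_eq_zero, zero_add, Finset.sum_eq_single c, if_pos ⟨hv, hc⟩]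
      · intro c' _ hne
        rw [if_neg]
        rintro ⟨_, hc'⟩
        exact hne (ta_out_inj s hv (hc'.trans hc.symm))
      · intro h
        exact absurd (Finset.mem_univ _) h
      · intro c' _
        rw [if_neg]
        intro hc'
        exact ta_not_both s hu hv hc' hc

/-- the piecewise linear function for a symmetric weight given on the pairs of vertices -/
theorem ta_crs (om : V → V → ℝ) (hs : ∀ u v, om u v = om v u)
    (hn : ∀ u v, s.inn u → om u v ≠ 0 → (∃ c, s.out c u = v) ∨ (s.inn v ∧ ∃ c, s.out c v = u))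
    (p : V → ℝ × ℝ) (he : ∀ u, s.inn u → ∑ v, om u v • (p v - p u) = 0) (g0 : F) :
    ∃ (q : F → ℝ × ℝ) (b : F → ℝ), s.Crs (fun c w => om w (s.out c w)) p q b ∧
      q g0 = (0, 0) ∧ b g0 = 0 := by
  have hlap : ∀ (f : V → ℝ) (u : V), s.inn u → ∑ v, om u v * (f v - f u) = 0 →
      ∑ c, om u (s.out c u) * (f (s.out c u) - f u) +
      (∑ c, ∑ v ∈ s.VI, if s.out c v = u then om v (s.out c v) * (f v - f u) else 0) = 0 := by
    intro f u hu hf
    have h := s.lap_omT (fun c w => om w (s.out c w)) f u hu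
    have h1 : lap (s.omT (fun c w => om w (s.out c w))) f u = ∑ v, om u v * (f u - f v) := by
      unfold lap
      exact Finset.sum_congr rfl fun v _ => by rw [ta_omT s om hs hu (hn u v hu)]
    have h2 : ∑ v, om u v * (f u - f v) = 0 := by
      rw [← neg_eq_zero, ← Finset.sum_neg_distrib, ← hf]
      refine Finset.sum_congr rfl fun v _ => ?_
      ring
    rw [h1, h2] at h
    linarith
  refine s.crs_exists (wt := fun c w => om w (s.out c w)) (p := p) ?_ g0
  intro u hu
  refine Prod.ext ?_ ?_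
  · have h := hlap (fun v => (p v).1) u hu (by
      have h1 := congrArg Prod.fst (he u hu)
      simpa [Prod.fst_sum] using h1)
    simp only [Prod.fst_add, Prod.fst_sum, apply_ite Prod.fst, Prod.smul_fst, Prod.fst_sub,
      smul_eq_mul, Prod.fst_zero]
    exact h
  · have h := hlap (fun v => (p v).2) u hu (by
      have h1 := congrArg Prod.snd (he u hu)
      simpa [Prod.snd_sum] using h1)
    simp only [Prod.snd_add, Prod.snd_sum, apply_ite Prod.snd, Prod.smul_snd, Prod.snd_sub,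
      smul_eq_mul, Prod.snd_zero]
    exact h

end names

/-- a Schnyder structure `s` of the stellated sphere: `phi t` is the centre of the triangle `t` -/
structure SSt {V A F : Type} [Fintype V] [Fintype A] [Fintype F] (P : StP V A)
    (s : Sch (V ⊕ A) F) (phi : F → A) : Prop where
  ha : ∀ k, s.a k = Sum.inl (P.a k)
  hT : ∀ (g : F) (k : Fin 3), P.S.T (s.t k g) (s.t (k + 1) g) (s.t (k + 2) g)
  all : ∀ u v w, P.S.T u v w → ¬ OutF (fun k => Sum.inl (P.a k)) u v w →
    ∃ (g : F) (k : Fin 3), s.t k g = u ∧ s.t (k + 1) g = v ∧ s.t (k + 2) g = w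
  cen : ∀ g, ∃ k, s.t k g = Sum.inr (phi g)
  cen_eq : ∀ g k f, s.t k g = Sum.inr f → f = phi g

theorem StP.exists_ss {V A : Type} [Fintype V] [Fintype A] (P : StP V A) :
    ∃ (F : Type) (_ : Fintype F) (s : Sch (V ⊕ A) F) (phi : F → A), SSt P s phi := by
  obtain ⟨F, hF, s, hsa, hT, hno, hall, -⟩ :=
    P.S.exists_sch (fun k => Sum.inl (P.a k)) P.out
  have hcen : ∀ g, ∃ (f : A) (k : Fin 3), s.t k g = Sum.inr f := by
    intro g
    by_contra hcon
    push Not at hcon
    have hl : ∀ k, ∃ v, s.t k g = Sum.inl v := by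
      intro k
      rcases h : s.t k g with v | f
      · exact ⟨v, rfl⟩
      · exact absurd h (hcon f k)
    obtain ⟨v0, h0⟩ := hl 0
    obtain ⟨v1, h1⟩ := hl 1
    obtain ⟨v2, h2⟩ := hl 2
    have ht : P.S.T (s.t 0 g) (s.t 1 g) (s.t 2 g) := hT g 0
    have hn : ¬ OutF (fun k => Sum.inl (P.a k)) (s.t 0 g) (s.t 1 g) (s.t 2 g) := hno g 0
    rw [h0, h1, h2] at ht hn
    apply hn
    rcases P.vvv v0 v1 v2 ht with ⟨e1, e2, e3⟩ | ⟨e1, e2, e3⟩ | ⟨e1, e2, e3⟩
    · left
      subst e1 e2 e3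
      exact ⟨rfl, rfl, rfl⟩
    · right; left
      subst e1 e2 e3
      exact ⟨rfl, rfl, rfl⟩
    · right; right
      subst e1 e2 e3
      exact ⟨rfl, rfl, rfl⟩
  choose phi hphi using hcen
  refine ⟨F, hF, s, phi, fun k => by rw [hsa], hT, hall, hphi, ?_⟩
  intro g k f hf
  obtain ⟨k', hk'⟩ := hphi g
  have h3 : ∀ k k' : Fin 3, k = k' ∨ k' = k + 1 ∨ k = k' + 1 := by decide
  rcases h3 k k' with h | h | h
  · subst h
    rw [hf] at hk'
    exact Sum.inr.inj hk'
  · subst h
    have ht := hT g k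
    rw [hf, hk'] at ht
    exact absurd ht (P.ff _ _ _)
  · subst h
    have ht := hT g k'
    rw [hf, hk'] at ht
    exact absurd ht (P.ff _ _ _)

section main

variable {V A F : Type} [Fintype V] [Fintype A] [Fintype F] {P : StP V A}
  {ss : Sch (V ⊕ A) F} {phi : F → A}

private theorem ta_f1 (k : Fin 3) : k + 1 + 1 = k + 2 := by revert k; decide
private theorem ta_f2 (k : Fin 3) : k + 1 + 2 = k := by revert k; decide
private theorem ta_f3 (k : Fin 3) : k + 2 + 1 = k := by revert k; decide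
private theorem ta_f4 (k : Fin 3) : k + 2 + 2 = k + 1 := by revert k; decide

/-- a triangle with a centre is a face of the Schnyder structure -/
theorem SSt.face (h : SSt P ss phi) {u v : V ⊕ A} {f : A} (ht : P.S.T u v (Sum.inr f)) :
    ∃ (g : F) (k : Fin 3), ss.t k g = u ∧ ss.t (k + 1) g = v ∧ ss.t (k + 2) g = Sum.inr f ∧
      phi g = f := by
  have hno : ¬ OutF (fun k => (Sum.inl (P.a k) : V ⊕ A)) u v (Sum.inr f) := by
    rintro (⟨-, -, h3⟩ | ⟨-, -, h3⟩ | ⟨-, -, h3⟩)
    · exact absurd h3 (by simp)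
    · exact absurd h3 (by simp)
    · exact absurd h3 (by simp)
  obtain ⟨g, k, h1, h2, h3⟩ := h.all u v _ ht hno
  exact ⟨g, k, h1, h2, h3, (h.cen_eq g _ f h3).symm⟩

/-- the edge of an inner triangle `u, v` with inner `u` has a name -/
theorem SSt.name (h : SSt P ss phi) {u v w : V ⊕ A} (hu : ss.inn u) (ht : P.S.T u v w) :
    (∃ c, ss.out c u = v) ∨ (ss.inn v ∧ ∃ c, ss.out c v = u) := by
  have hno : ¬ OutF (fun k => (Sum.inl (P.a k) : V ⊕ A)) u v w := by
    rintro (⟨h3, -, -⟩ | ⟨h3, -, -⟩ | ⟨h3, -, -⟩)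
    · exact hu 1 (by rw [h.ha]; exact h3)
    · exact hu 0 (by rw [h.ha]; exact h3)
    · exact hu 2 (by rw [h.ha]; exact h3)
  obtain ⟨g, k, h1, h2, h3⟩ := h.all u v _ ht hno
  rcases ss.edge g k with h4 | ⟨h4, h5⟩ | ⟨h4, h5⟩
  · exfalso
    apply hu k
    rw [← h1, h4, ss.o0]
  · left
    refine ⟨k + 1, ?_⟩
    rw [h1] at h4 h5
    rw [← h2, h5, ss.tL0 (k + 1) u h4]
  · right
    rw [h2] at h4 h5
    refine ⟨h4, k, ?_⟩
    rw [← h1, h5, ss.tR0 k v h4]

/-- the two triangles at a named edge -/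
theorem SSt.two (h : SSt P ss phi) {c : Fin 3} {u : V ⊕ A} (hu : ss.inn u) :
    ∃ z y, P.S.T u (ss.out c u) z ∧ P.S.T (ss.out c u) u y ∧
      (∃ j, ss.t j (ss.gL c u) = z) ∧ (∃ j, ss.t j (ss.gR c u) = y) := by
  refine ⟨ss.t (c + 1) (ss.gL c u), ss.t (c + 2) (ss.gR c u), ?_, ?_, ⟨_, rfl⟩, ⟨_, rfl⟩⟩
  · have h1 := h.hT (ss.gL c u) (c + 2)
    rw [ta_f3, ta_f4, ss.tL2 c u hu, ss.tL0 c u hu] at h1
    exact h1
  · have h1 := h.hT (ss.gR c u) c
    rw [ss.tR0 c u hu, ss.tR1 c u hu] at h1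
    exact h1

/-- at an edge between two vertices of the polytope, the triangles have centres -/
theorem SSt.two' (h : SSt P ss phi) {c : Fin 3} {u w : V} (hu : ss.inn (Sum.inl u))
    (ho : ss.out c (Sum.inl u) = Sum.inl w) :
    P.T u w (phi (ss.gL c (Sum.inl u))) ∧ P.T w u (phi (ss.gR c (Sum.inl u))) := by
  have hl : ∀ (z : V ⊕ A) (a b : V), P.S.T (Sum.inl a) (Sum.inl b) z → (a = u ∨ b = u) →
      ∃ f, z = Sum.inr f := by
    intro z a b ht hab
    rcases z with v | f
    · exfalso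
      have hk : ∀ k, u ≠ P.a k := by
        intro k hk
        apply hu k
        rw [h.ha, hk]
      rcases P.vvv a b v ht with ⟨e1, e2, -⟩ | ⟨e1, e2, -⟩ | ⟨e1, e2, -⟩ <;>
      rcases hab with rfl | rfl
      · exact hk _ e1
      · exact hk _ e2
      · exact hk _ e1
      · exact hk _ e2
      · exact hk _ e1
      · exact hk _ e2
    · exact ⟨f, rfl⟩
  obtain ⟨z, y, h1, h2, ⟨j, hj⟩, ⟨i, hi⟩⟩ := h.two (c := c) hu
  rw [ho] at h1 h2
  obtain ⟨f, rfl⟩ := hl z u w h1 (Or.inl rfl)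
  obtain ⟨f', rfl⟩ := hl y w u h2 (Or.inr rfl)
  rw [h.cen_eq _ _ _ hj] at h1
  rw [h.cen_eq _ _ _ hi] at h2
  exact ⟨h1, h2⟩

end main

/-- the weight on the stellated sphere -/
def om2 {V A : Type} (om : V → V → ℝ) : V ⊕ A → V ⊕ A → ℝ
  | Sum.inl u, Sum.inl v => om u v
  | _, _ => 0

private theorem om2_inr {V A : Type} (om : V → V → ℝ) (f : A) (v : V ⊕ A) :
    om2 om (Sum.inr f) v = 0 := by
  cases v <;> rfl

private theorem om2_inr' {V A : Type} (om : V → V → ℝ) (f : A) (v : V ⊕ A) :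
    om2 om v (Sum.inr f) = 0 := by
  cases v <;> rfl

private theorem om2_symm {V A : Type} (om : V → V → ℝ) (hs : ∀ u v, om u v = om v u)
    (u v : V ⊕ A) : om2 om u v = om2 om v u := by
  rcases u with u | u <;> rcases v with v | v
  · exact hs u v
  · rfl
  · rfl
  · rfl

private theorem lin_ext {q q' : ℝ × ℝ} {b b' : ℝ} (h : ∀ x, lin q b x = lin q' b' x) :
    q = q' ∧ b = b' := by
  have h0 := h (0, 0)
  have h1 := h (1, 0)
  have h2 := h (0, 1)
  simp only [lin] at h0 h1 h2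
  have hb : b = b' := by linarith
  subst hb
  refine ⟨Prod.ext ?_ ?_, rfl⟩
  · linarith
  · linarith

namespace SchP

variable {V A : Type} [Fintype V] [Fintype A]

theorem crs_exists (P : StP V A) (s : SchP V A) (hP : SchPOf P s) {om : V → V → ℝ}
    {p : V → ℝ × ℝ} {lo hi B : ℝ} (hd : s.Drw om p lo hi B) (g0 : A) :
    ∃ (q : A → ℝ × ℝ) (b : A → ℝ), s.Crs om p q b ∧ q g0 = (0, 0) ∧ b g0 = 0 := by
  obtain ⟨F, hF, ss, phi, hss⟩ := P.exists_ss
  -- a face at every centre
  have hface : ∀ f : A, ∃ (t : F) (j : Fin 3), ss.t j t = Sum.inr f := fun f =>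
    ss.cov (Sum.inr f)
  choose tf jf htf using hface
  -- an edge of positive weight has a triangle
  have hadj : ∀ u v : V, om u v ≠ 0 → ∃ w, P.S.T (Sum.inl u) (Sum.inl v) w := by
    intro u v h0
    obtain ⟨c, h | h⟩ := hd.supp u v h0
    · obtain ⟨h1, h2⟩ := h
      have h3 := hP.hT _ _ _ (s.lL c u h1)
      rw [s.nL c u h1, ← h2] at h3
      exact ⟨_, h3⟩
    · obtain ⟨h1, h2⟩ := h
      have h3 := hP.hT _ _ _ (s.lL c v h1)
      rw [s.nL c v h1, ← h2] at h3
      obtain ⟨w', -, h4⟩ := P.S.opp h3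
      exact ⟨w', h4⟩
  set p2 : V ⊕ A → ℝ × ℝ := Sum.elim p (fun _ => (0, 0)) with hp2
  have hequi : ∀ u, ss.inn u → ∑ v, om2 om u v • (p2 v - p2 u) = 0 := by
    intro u hu
    rw [Fintype.sum_sum_type]
    have h3 : ∑ a : A, om2 om u (Sum.inr a) • (p2 (Sum.inr a) - p2 u) = 0 :=
      Finset.sum_eq_zero fun a _ => by rw [om2_inr', zero_smul]
    rw [h3, add_zero]
    rcases u with u | u
    · have hinn : s.inn u := by
        intro k hk
        apply hu k
        rw [hss.ha, hk, hP.ha]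
      exact hd.equi u hinn
    · exact Finset.sum_eq_zero fun a _ => by rw [om2_inr, zero_smul]
  obtain ⟨q', b', hcr, hq0, hb0⟩ := ta_crs ss (om2 om) (om2_symm om hd.symm) (by
    intro u v hu h0
    rcases u with u | u
    · rcases v with v | v
      · obtain ⟨w, hw⟩ := hadj u v h0
        exact hss.name hu hw
      · exact absurd rfl h0
    · exact absurd (om2_inr om u v) h0) p2 hequi (tf g0)
  have hcr' : ∀ c v, ss.inn v → ∀ x, lin (q' (ss.gL c v)) (b' (ss.gL c v)) x -
      lin (q' (ss.gR c v)) (b' (ss.gR c v)) x =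
        om2 om v (ss.out c v) * ar (p2 v) (p2 (ss.out c v)) x := hcr
  -- constant on the triangles of a face
  have hconst : ∀ (f : A) (t t' : F), ss.Inc (Sum.inr f) t → ss.Inc (Sum.inr f) t' →
      (q' t, b' t) = (q' t', b' t') := by
    intro f t t' h1 h2
    refine ss.star_constT (Sum.inr f) (fun t => (q' t, b' t)) (fun c hv => ?_)
      (fun c u hu ho => ?_) t t' h1 h2
    · have h3 : ∀ x, lin (q' (ss.gL c (Sum.inr f))) (b' (ss.gL c (Sum.inr f))) x =
          lin (q' (ss.gR c (Sum.inr f))) (b' (ss.gR c (Sum.inr f))) x := by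
        intro x
        have h4 := hcr' c (Sum.inr f) hv x
        rw [om2_inr, zero_mul, sub_eq_zero] at h4
        exact h4
      obtain ⟨h5, h6⟩ := lin_ext h3
      exact Prod.ext h5 h6
    · have h3 : ∀ x, lin (q' (ss.gL c u)) (b' (ss.gL c u)) x =
          lin (q' (ss.gR c u)) (b' (ss.gR c u)) x := by
        intro x
        have h4 := hcr' c u hu x
        rw [ho, om2_inr', zero_mul, sub_eq_zero] at h4
        exact h4
      obtain ⟨h5, h6⟩ := lin_ext h3
      exact Prod.ext h5 h6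
  have hval : ∀ (f : A) (t : F), ss.Inc (Sum.inr f) t → q' t = q' (tf f) ∧ b' t = b' (tf f) := by
    intro f t ht
    have h1 := hconst f t (tf f) ht ⟨jf f, htf f⟩
    exact ⟨congrArg Prod.fst h1, congrArg Prod.snd h1⟩
  refine ⟨fun f => q' (tf f), fun f => b' (tf f), ?_, hq0, hb0⟩
  intro g h v hvg hwh hnx x
  set w := s.nx g v with hw
  obtain ⟨k1, hk1⟩ := hvg
  obtain ⟨k2, hk2⟩ := hwh
  have hT1 : P.S.T (Sum.inl v) (Sum.inl w) (Sum.inr g) := hP.hT _ _ _ hk1
  have hT2 : P.S.T (Sum.inl w) (Sum.inl v) (Sum.inr h) := by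
    have h1 := hP.hT _ _ _ hk2
    rw [hnx] at h1
    exact h1
  obtain ⟨t1, k, e1, e2, e3, -⟩ := hss.face hT1
  rcases ss.edge t1 k with h4 | ⟨h4, h5⟩ | ⟨h4, h5⟩
  · exfalso
    have h6 : (Sum.inl v : V ⊕ A) = Sum.inl (P.a k) := by rw [← e1, h4, ss.o0, hss.ha]
    have h7 : (Sum.inl w : V ⊕ A) = Sum.inl (P.a (k + 1)) := by rw [← e2, h4, ss.o1, hss.ha]
    have hout : ∀ k, P.S.T (Sum.inl (P.a (k + 1))) (Sum.inl (P.a k)) (Sum.inl (P.a (k + 2))) := by
      intro k
      fin_cases k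
      · exact P.out
      · exact P.S.rot (P.S.rot P.out)
      · exact P.S.rot P.out
    have h8 := hout k
    rw [← h6, ← h7] at h8
    exact absurd (P.S.uniq hT2 h8) (by simp)
  · rw [e1] at h4 h5
    have h6 : ss.out (k + 1) (Sum.inl v) = Sum.inl w := by
      rw [← e2, h5, ss.tL0 (k + 1) _ h4]
    have h7 := hcr' (k + 1) (Sum.inl v) h4 x
    obtain ⟨z, y, -, g2, -, ⟨j, hj⟩⟩ := hss.two (c := k + 1) h4
    rw [h6] at g2
    have h8 : y = Sum.inr h := P.S.uniq g2 hT2
    obtain ⟨e4, e5⟩ := hval h _ ⟨j, hj.trans h8⟩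
    obtain ⟨e6, e7⟩ := hval g t1 ⟨_, e3⟩
    rw [← h5, e6, e7, e4, e5, h6] at h7
    exact h7
  · rw [e2] at h4 h5
    have h6 : ss.out k (Sum.inl w) = Sum.inl v := by
      rw [← e1, h5, ss.tR0 k _ h4]
    have h7 := hcr' k (Sum.inl w) h4 x
    obtain ⟨z, y, g1, -, ⟨j, hj⟩, -⟩ := hss.two (c := k) h4
    rw [h6] at g1
    have h8 : z = Sum.inr h := P.S.uniq g1 hT2
    obtain ⟨e4, e5⟩ := hval h _ ⟨j, hj.trans h8⟩
    obtain ⟨e6, e7⟩ := hval g t1 ⟨_, e3⟩
    rw [← h5, e6, e7, e4, e5, h6] at h7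
    have h9 : om w v * ar (p w) (p v) x = -(om v w * ar (p v) (p w) x) := by
      rw [hd.symm w v, ar_swap]
      ring
    have h10 : lin (q' (tf h)) (b' (tf h)) x - lin (q' (tf g)) (b' (tf g)) x =
        om w v * ar (p w) (p v) x := h7
    show lin (q' (tf g)) (b' (tf g)) x - lin (q' (tf h)) (b' (tf h)) x = om v w * ar (p v) (p w) x
    linarith

theorem height (P : StP V A) (s : SchP V A) (hP : SchPOf P s) {om : V → V → ℝ}
    {p : V → ℝ × ℝ} {q : A → ℝ × ℝ} {b : A → ℝ} (hc : s.Crs om p q b) (v : V) (g g' : A)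
    (hg : s.Inc v g) (hg' : s.Inc v g') :
    lin (q g) (b g) (p v) = lin (q g') (b g') (p v) := by
  obtain ⟨F, hF, ss, phi, hss⟩ := P.exists_ss
  -- the crease between the two faces at an edge
  have hedge : ∀ (u w : V) (g h : A), P.T u w g → P.T w u h → ∀ x,
      lin (q g) (b g) x - lin (q h) (b h) x = om u w * ar (p u) (p w) x := by
    intro u w g h h1 h2 x
    obtain ⟨h3, h4⟩ := hP.hI _ _ _ h1
    obtain ⟨h5, h6⟩ := hP.hI _ _ _ h2
    have h7 := hc g h u h3 (by rw [h4]; exact h5) (by rw [h4]; exact h6) x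
    rw [h4] at h7
    exact h7
  have hinc : ∀ g, s.Inc v g → ∃ t, ss.Inc (Sum.inl v) t ∧ phi t = g := by
    rintro g ⟨k, hk⟩
    obtain ⟨t, j, h1, -, -, h2⟩ := hss.face (hP.hT _ _ _ hk)
    exact ⟨t, ⟨j, h1⟩, h2⟩
  obtain ⟨t, ht, rfl⟩ := hinc g hg
  obtain ⟨t', ht', rfl⟩ := hinc g' hg'
  refine ss.star_constT (Sum.inl v) (fun t => lin (q (phi t)) (b (phi t)) (p v))
    (fun c hv => ?_) (fun c u hu ho => ?_) t t' ht ht'
  · rcases hw : ss.out c (Sum.inl v) with w | f
    · obtain ⟨h1, h2⟩ := hss.two' hv hw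
      have h3 := hedge _ _ _ _ h1 h2 (p v)
      have h0 : ar (p v) (p w) (p v) = 0 := by
        unfold ar
        ring
      rw [h0, mul_zero, sub_eq_zero] at h3
      exact h3
    · have h1 : f = phi (ss.gL c (Sum.inl v)) :=
        hss.cen_eq _ c f (by rw [ss.tL0 c _ hv, hw])
      have h2 : f = phi (ss.gR c (Sum.inl v)) :=
        hss.cen_eq _ c f (by rw [ss.tR0 c _ hv, hw])
      simp only [← h1, ← h2]
  · rcases u with u | f
    · obtain ⟨h1, h2⟩ := hss.two' hu ho
      have h3 := hedge _ _ _ _ h1 h2 (p v)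
      have h0 : ar (p u) (p v) (p v) = 0 := by
        unfold ar
        ring
      rw [h0, mul_zero, sub_eq_zero] at h3
      exact h3
    · have h1 : f = phi (ss.gL c (Sum.inr f)) :=
        hss.cen_eq _ (c + 2) f (ss.tL2 c _ hu)
      have h2 : f = phi (ss.gR c (Sum.inr f)) :=
        hss.cen_eq _ (c + 1) f (ss.tR1 c _ hu)
      simp only [← h1, ← h2]

end SchP

end Pool.RP
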