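import Pool.Agent.Lib.MP_9dcace_rp.Tc
import Pool.Agent.Lib.MP_9dcace_rp.Ta
import Pool.Agent.Lib.MP_9dcace_rp.N4
import Pool.Agent.Lib.MP_9dcace_rp.Fb
import Pool.Agent.Lib.MP_9dcace_rp.CSd
import Pool.Agent.Lib.MP_9dcace_rp.Ge2
import Pool.Agent.Lib.MP_9dcace_rp.Ge3
import Pool.Agent.Lib.MP_9dcace_rp.Ge0a

/-!
MP_9dcace_co, (REAL): every 3-polytope has a realization with polynomial margins. Assembly.
-/

set_option autoImplicit false

open Classical

namespace Pool.RP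

open Pool.SX

theorem Real3.fi_swap {V A : Type} {inc : V → A → Prop} {N : ℝ} (h : Real3 inc N) :
    Real3 (fun f v => inc v f) N := by
  obtain ⟨x, q, h1, h2, h3, h4⟩ := h
  refine ⟨q, x, h2, h1, fun f v hi => ?_, fun f v hi => ?_⟩
  · rw [dp_comm]
    exact h3 v f hi
  · rw [dp_comm]
    exact h4 v f hi

theorem Real3.fi_mono {V A : Type} {inc : V → A → Prop} {N N' : ℝ} (h : Real3 inc N) (h0 : 0 < N)
    (hN : N ≤ N') : Real3 inc N' := by
  obtain ⟨x, q, h1, h2, h3, h4⟩ := h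
  refine ⟨x, q, fun v i => (h1 v i).trans hN, fun f i => (h2 f i).trans hN, h3, fun v f hi => ?_⟩
  have h5 := h4 v f hi
  have h6 : 1 / N' ≤ 1 / N := one_div_le_one_div_of_le h0 hN
  linarith

theorem Real3.fi_comap {V A V' A' : Type} {inc : V → A → Prop} {N : ℝ} (h : Real3 inc N)
    (φ : V' → V) (ψ : A' → A) {inc' : V' → A' → Prop}
    (hi : ∀ v f, inc' v f ↔ inc (φ v) (ψ f)) : Real3 inc' N := by
  obtain ⟨x, q, h1, h2, h3, h4⟩ := h
  refine ⟨fun v => x (φ v), fun f => q (ψ f), fun v i => h1 _ i, fun f i => h2 _ i,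
    fun v f hv => h3 _ _ ((hi v f).1 hv), fun v f hv => h4 _ _ fun hh => hv ((hi v f).2 hh)⟩

/-- the bound -/
theorem fi_bound {v a m : ℝ} (ha : 1 ≤ a) (hv : 1 ≤ v) (hm : v + a ≤ m) :
    let lo : ℝ := 1 / (3 * a) ^ 7
    let D : ℝ := 1 / (3 * a) ^ 18
    let hi : ℝ := 4 * a
    let B : ℝ := lo * D ^ 12 / (16384 * v ^ 2 * hi)
    0 < (10 * hi * (v + a) / (lo * D * B)) ^ 7 ∧
    (10 * hi * (v + a) / (lo * D * B)) ^ 7 ≤ (3 * m) ^ 1834 ∧ B ≤ 1 := by
  intro lo D hi B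
  have h3a : (0 : ℝ) < 3 * a := by linarith
  have hlo : 0 < lo := by positivity
  have hD : 0 < D := by positivity
  have hva : 0 < v + a := by linarith
  have hBp : 0 < B := by positivity
  have hm1 : (1 : ℝ) ≤ m := by linarith
  have e : 10 * hi * (v + a) / (lo * D * B) =
      2621440 * (a ^ 2 * v ^ 2 * (v + a)) * (3 * a) ^ 248 := by
    show 10 * (4 * a) * (v + a) / (1 / (3 * a) ^ 7 * (1 / (3 * a) ^ 18) *
      (1 / (3 * a) ^ 7 * (1 / (3 * a) ^ 18) ^ 12 / (16384 * v ^ 2 * (4 * a)))) = _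
    generalize hx : 3 * a = x at h3a ⊢
    have hx0 : x ≠ 0 := h3a.ne'
    field_simp
    ring
  have e2 : 2621440 * (a ^ 2 * v ^ 2 * (v + a)) * (3 * a) ^ 248 ≤ (3 * m) ^ 262 := by
    have k1 : a ^ 2 * v ^ 2 * (v + a) ≤ m ^ 5 := by
      have q1 : a ≤ m := by linarith
      have q2 : v ≤ m := by linarith
      calc a ^ 2 * v ^ 2 * (v + a) ≤ m ^ 2 * m ^ 2 * m := by gcongr
        _ = m ^ 5 := by ring
    have k2 : m ^ 5 ≤ m ^ 14 := pow_le_pow_right₀ hm1 (by norm_num)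
    have k3 : (2621440 : ℝ) ≤ 3 ^ 14 := by norm_num
    have k4 : (3 * a) ^ 248 ≤ (3 * m) ^ 248 := by
      have : 3 * a ≤ 3 * m := by linarith
      gcongr
    calc 2621440 * (a ^ 2 * v ^ 2 * (v + a)) * (3 * a) ^ 248
        ≤ 3 ^ 14 * m ^ 14 * (3 * m) ^ 248 := by
          have k5 : 2621440 * (a ^ 2 * v ^ 2 * (v + a)) ≤ 3 ^ 14 * m ^ 14 :=
            mul_le_mul k3 (k1.trans k2) (by positivity) (by positivity)
          exact mul_le_mul k5 k4 (by positivity) (by positivity)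
      _ = (3 * m) ^ 262 := by rw [← mul_pow, ← pow_add]
  refine ⟨by positivity, ?_, ?_⟩
  · rw [e]
    calc (2621440 * (a ^ 2 * v ^ 2 * (v + a)) * (3 * a) ^ 248) ^ 7 ≤ ((3 * m) ^ 262) ^ 7 :=
          pow_le_pow_left₀ (by positivity) e2 7
      _ = (3 * m) ^ 1834 := by rw [← pow_mul]
  · have h1 : lo ≤ 1 := by
      show 1 / (3 * a) ^ 7 ≤ 1
      rw [div_le_one (by positivity)]
      exact one_le_pow₀ (by linarith)
    have h2 : D ≤ 1 := by
      show 1 / (3 * a) ^ 18 ≤ 1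
      rw [div_le_one (by positivity)]
      exact one_le_pow₀ (by linarith)
    have h3 : D ^ 12 ≤ 1 := pow_le_one₀ hD.le h2
    have h4 : lo * D ^ 12 ≤ 1 := mul_le_one₀ h1 (by positivity) h3
    show lo * D ^ 12 / (16384 * v ^ 2 * hi) ≤ 1
    rw [div_le_one (by positivity)]
    refine h4.trans ?_
    have h5 : (1 : ℝ) ≤ v ^ 2 := one_le_pow₀ hv
    have h6 : (1 : ℝ) ≤ hi := by
      show (1 : ℝ) ≤ 4 * a
      linarith
    have h7 : (1 : ℝ) ≤ v ^ 2 * hi := one_le_mul_of_one_le_of_one_le h5 h6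
    have e8 : 16384 * v ^ 2 * hi = 16384 * (v ^ 2 * hi) := by ring
    rw [e8]
    linarith

/-- REAL, for a polytope with a triangular facet -/
theorem real_tri {V A : Type} [Fintype V] [Fintype A] {x : V → E3}
    {q : A → E3} (h : Pol x q) (o : A)
    (ho : (Finset.univ.filter (fun v => dp (q o) (x v) = 1)).card = 3) :
    Real3 (fun v f => dp (q f) (x v) = 1)
      ((3 * ((Fintype.card V : ℝ) + Fintype.card A)) ^ 1834) := by
  obtain ⟨P, hP1, hP2⟩ := h.exists_StP o ho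
  obtain ⟨s, hs⟩ := P.exists_schP
  obtain ⟨om, p, hd⟩ := hs.exists_Drw
  have ha : (1 : ℝ) ≤ (Fintype.card {f : A // f ≠ o} : ℝ) := by
    have : 0 < Fintype.card {f : A // f ≠ o} := Fintype.card_pos_iff.mpr ⟨s.o 0⟩
    exact_mod_cast this
  have hv : (1 : ℝ) ≤ (Fintype.card V : ℝ) := by
    have : 0 < Fintype.card V := Fintype.card_pos_iff.mpr ⟨s.a 0⟩
    exact_mod_cast this
  have hle : (Fintype.card {f : A // f ≠ o} : ℝ) ≤ Fintype.card A := by
    exact_mod_cast Fintype.card_subtype_le _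
  have hlo : 1 / (3 * (Fintype.card {f : A // f ≠ o} : ℝ)) ^ 7 ≤ 1 := by
    rw [div_le_one (by positivity)]
    exact one_le_pow₀ (by linarith)
  have hD : 1 / (3 * (Fintype.card {f : A // f ≠ o} : ℝ)) ^ 18 ≤ 1 := by
    rw [div_le_one (by positivity)]
    exact one_le_pow₀ (by linarith)
  have hhi : (1 : ℝ) ≤ 4 * Fintype.card {f : A // f ≠ o} := by linarith
  have hS := PG.drwS hs hd (hlo.trans hhi)
  obtain ⟨q', b, hc, hq0, hb0⟩ := SchP.crs_exists P s hs hd (s.o 0)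
  obtain ⟨b0, b1, b2⟩ := fi_bound (v := (Fintype.card V : ℝ))
    (m := (Fintype.card V : ℝ) + Fintype.card A) ha hv (by linarith)
  have hR := SchPOf.real3_of_crs hs hS hc (fun v g g' hg hg' =>
    SchP.height P s hs hc v g g' hg hg') (s.o 0) hq0 hb0 hlo hhi hD b2
  have hR' := hR.fi_mono b0 b1
  refine hR'.fi_comap id (fun f => if hf : f = o then none else some ⟨f, hf⟩) fun v f => ?_
  by_cases hf : f = o
  · subst hf
    rw [dif_pos rfl]
    exact (hP2 v).symm
  · rw [dif_neg hf]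
    exact (hP1 v ⟨f, hf⟩).symm

/-- the polynomial `(9 n)^1834` -/
noncomputable def realPoly : Polynomial ℕ := (9 * Polynomial.X) ^ 1834

theorem realPoly_eval (n : ℕ) : realPoly.eval n = (9 * n) ^ 1834 := by
  unfold realPoly
  simp

/-- REAL -/
theorem real_all {V A : Type} [Fintype V] [Fintype A] {x : V → E3}
    {q : A → E3} (h : Pol x q) : Real3 (fun v f => dp (q f) (x v) = 1)
      (realPoly.eval (Fintype.card V) : ℕ) := by
  have hA : (Fintype.card A : ℝ) + 4 ≤ 2 * Fintype.card V := by exact_mod_cast h.card_A_le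
  have hA0 : (0 : ℝ) ≤ (Fintype.card A : ℝ) := by positivity
  have hm : 3 * ((Fintype.card V : ℝ) + Fintype.card A) ≤ 9 * Fintype.card V := by linarith
  have hm0 : (0 : ℝ) < 3 * ((Fintype.card V : ℝ) + Fintype.card A) := by linarith
  have key : Real3 (fun v f => dp (q f) (x v) = 1)
      ((3 * ((Fintype.card V : ℝ) + Fintype.card A)) ^ 1834) := by
    rcases h.euler with ⟨f, hf⟩ | ⟨v, hv⟩
    · exact real_tri h f hf
    · have h1 := real_tri h.swap v (by simpa only [dp_comm] using hv)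
      rw [add_comm] at h1
      have h2 := h1.fi_swap
      simpa only [dp_comm] using h2
  rw [realPoly_eval]
  push_cast
  exact key.fi_mono (by positivity) (pow_le_pow_left₀ hm0.le hm 1834)

end Pool.RP
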