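import Pool.Agent.Lib.MP_9dcace_rp.Ge0a
import Pool.Agent.Lib.MP_9dcace_sd.HDefs

/-!
MP_9dcace_co, row Fj: the facets `f : A` of `Pol` are the maximal proper supporting sets of the point set.
-/

set_option autoImplicit false

open Classical

namespace Pool.RP

open Pool.SX

variable {V A : Type} [Fintype V] [Fintype A] {x : V → E3} {q : A → E3}

theorem Pol.fj_pos (h : Pol x q) {a : E3} (ha : a ≠ 0) {c : ℝ} (hc : ∀ v, dp a (x v) ≤ c) :
    0 < c := by
  by_contra hc0
  push Not at hc0
  have haa := dp_self_pos ha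
  set M : ℝ := ∑ f, |dp (q f) a| with hM
  have hM' : ∀ f, dp a (q f) ≤ M := fun f => by
    rw [dp_comm]
    exact (le_abs_self _).trans (Finset.single_le_sum (f := fun f => |dp (q f) a|)
      (fun i _ => abs_nonneg _) (Finset.mem_univ f))
  have hM0 : 0 ≤ M := Finset.sum_nonneg fun i _ => abs_nonneg _
  have h1 : ((M + 1) / dp a a) • a ∈ convexHull ℝ (Set.range q) := by
    apply h.hullA
    intro v
    rw [dp_smul_left]
    have h2 : 0 ≤ (M + 1) / dp a a := by positivity
    have h3 : dp a (x v) ≤ 0 := (hc v).trans hc0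
    nlinarith [mul_nonneg h2 (neg_nonneg.mpr h3)]
  have h2 := dp_hull_le h1 hM'
  rw [dp_smul, div_mul_cancel₀ _ haa.ne'] at h2
  linarith

/-- a supporting functional is bounded by a facet: every facet with positive weight contains the
touching set -/
theorem Pol.fj_sub (h : Pol x q) {z : E3} (hz : ∀ v, dp z (x v) ≤ 1) :
    ∃ g, ∀ v, dp z (x v) = 1 → dp (q g) (x v) = 1 := by
  obtain ⟨l, hl, hs, e⟩ := exists_weights (h.hullA z hz)
  have hg : ∃ g, 0 < l g := by
    by_contra hno
    push Not at hno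
    have : ∑ g, l g ≤ 0 := Finset.sum_nonpos fun g _ => hno g
    rw [hs] at this
    linarith
  obtain ⟨g, hg⟩ := hg
  refine ⟨g, fun v hv => ?_⟩
  rw [e, dp_comm, dp_sum] at hv
  have k4 : ∑ g, l g * (1 - dp (q g) (x v)) = 0 := by
    simp only [mul_sub, mul_one, Finset.sum_sub_distrib, hs]
    rw [← hv, sub_eq_zero]
    exact Finset.sum_congr rfl fun g _ => by rw [dp_smul, dp_comm]
  have k5 := (Finset.sum_eq_zero_iff_of_nonneg (fun g _ =>
    mul_nonneg (hl g) (sub_nonneg.2 (h.le v g)))).1 k4 g (Finset.mem_univ g)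
  have := (mul_eq_zero.1 k5).resolve_left hg.ne'
  linarith

theorem fj_facet_iff {V0 : Finset E3} {c : E3} {A : Type} [Fintype A] {q : A → E3}
    (h : Pol (fun v : {v // v ∈ V0} => (v : E3) - c) q) (B : Finset E3) :
    Pool.SD.IsFacet V0 B ↔
      ∃ f : A, ∀ y, y ∈ B ↔ y ∈ V0 ∧ dp (q f) (y - c) = 1 := by
  have hspan : ∀ (a : E3) (d : ℝ), (∀ y ∈ V0, dp a y = d) → a = 0 := by
    intro a d hd
    refine h.spanP a (d - dp a c) fun v => ?_
    rw [dp_sub, hd v v.2]
  have hexp : ∀ f : A, Pool.SD.IsSupp V0 (V0.filter (fun y => dp (q f) (y - c) = 1)) := by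
    intro f
    refine ⟨q f, 1 + dp (q f) c, fun y hy => ?_, fun y => ?_⟩
    · have h1 := h.le ⟨y, hy⟩ f
      simp only [dp_sub] at h1
      change dp (q f) y ≤ _
      linarith
    · rw [Finset.mem_filter, dp_sub]
      refine and_congr_right fun hy => ?_
      change _ ↔ dp (q f) y = _
      constructor <;> intro h1 <;> linarith
  have hneq : ∀ f : A, V0.filter (fun y => dp (q f) (y - c) = 1) ≠ V0 := by
    intro f he
    have h1 : q f = 0 := hspan (q f) (1 + dp (q f) c) fun y hy => by
      rw [← he, Finset.mem_filter, dp_sub] at hy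
      linarith [hy.2]
    obtain ⟨w, -, -, hw⟩ := h.fac3 f (Classical.choice (by
      by_contra hne
      rw [not_nonempty_iff] at hne
      have h2 := h.spanP (fun _ => 1) 0 (fun v => hne.elim v)
      have := congrFun h2 0
      simp at this)) (Classical.choice (by
      by_contra hne
      rw [not_nonempty_iff] at hne
      have h2 := h.spanP (fun _ => 1) 0 (fun v => hne.elim v)
      have := congrFun h2 0
      simp at this))
    rw [h1, dp_zero_left] at hw
    exact zero_ne_one hw
  have hNV : Nonempty {v // v ∈ V0} := by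
    by_contra hne
    rw [not_nonempty_iff] at hne
    have h2 := h.spanP (fun _ => 1) 0 (fun v => hne.elim v)
    have := congrFun h2 0
    simp at this
  obtain ⟨v0⟩ := hNV
  have hne : ∀ f : A, ∃ y ∈ V0, dp (q f) (y - c) = 1 := by
    intro f
    obtain ⟨w, -, -, hw⟩ := h.fac3 f v0 v0
    exact ⟨w, w.2, hw⟩
  -- a proper nonempty supporting set is contained in a facet
  have key : ∀ B : Finset E3, Pool.SD.IsSupp V0 B → B ≠ V0 →
      ∃ f, ∀ y ∈ B, y ∈ V0 ∧ dp (q f) (y - c) = 1 := by
    rintro B ⟨a, d, hle, hB⟩ hBV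
    by_cases ha : a = 0
    · by_cases hd : d = 0
      · exfalso
        apply hBV
        ext y
        rw [hB y, ha, hd]
        simp
      · have hBe : ∀ y, y ∉ B := by
          intro y hy
          have := ((hB y).1 hy).2
          rw [ha] at this
          simp at this
          exact hd this.symm
        obtain ⟨f, -⟩ : ∃ f : A, True := by
          obtain ⟨g, _⟩ := h.fj_sub (z := 0) (fun v => by rw [dp_zero_left]; exact zero_le_one)
          exact ⟨g, trivial⟩
        exact ⟨f, fun y hy => absurd hy (hBe y)⟩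
    · have hle' : ∀ v : {v // v ∈ V0}, dp a ((v : E3) - c) ≤ d - dp a c := by
        intro v
        rw [dp_sub]
        have : dp a (v : E3) ≤ d := hle v v.2
        linarith
      have hpos := h.fj_pos ha hle'
      obtain ⟨g, hg⟩ := h.fj_sub (z := (d - dp a c)⁻¹ • a) (fun v => by
        rw [dp_smul_left, inv_mul_le_iff₀ hpos, mul_one]
        exact hle' v)
      refine ⟨g, fun y hy => ⟨((hB y).1 hy).1, ?_⟩⟩
      refine hg ⟨y, ((hB y).1 hy).1⟩ ?_
      have h1 : dp a y = d := ((hB y).1 hy).2
      show dp ((d - dp a c)⁻¹ • a) (y - c) = 1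
      rw [dp_smul_left, dp_sub, h1, inv_mul_cancel₀ hpos.ne']
  constructor
  · rintro ⟨hS, hBV, hmax⟩
    obtain ⟨f, hf⟩ := key B hS hBV
    have h1 := hmax _ (hexp f) (fun y hy => Finset.mem_filter.mpr (hf y hy)) (hneq f)
    refine ⟨f, fun y => ?_⟩
    rw [← h1, Finset.mem_filter]
  · rintro ⟨f, hf⟩
    have hBf : B = V0.filter (fun y => dp (q f) (y - c) = 1) := by
      ext y
      rw [hf y, Finset.mem_filter]
    rw [hBf]
    refine ⟨hexp f, hneq f, fun B' hB' hsub hV => ?_⟩
    obtain ⟨g, hg⟩ := key B' hB' hV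
    have hgf : q g = q f := h.uniqA fun v hv =>
      (hg v (hsub (Finset.mem_filter.mpr ⟨v.2, hv⟩))).2
    refine Finset.Subset.antisymm (fun y hy => ?_) hsub
    rw [Finset.mem_filter, ← hgf]
    exact hg y hy

end Pool.RP
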