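import Pool.Agent.Lib.MP_9dcace_rp.Ge0a

/-!
MP_9dcace_co, row Ge0: a finite set of points in convex position that spans space is the vertex set of a
`Pol` (after a translation). The facet vectors are the extreme points of the polar set.
-/

set_option autoImplicit false

open Classical

namespace Pool.RP

open Pool.SX

/-- the polar set -/
def Ge0_K {W : Type} (x : W → E3) : Set E3 := {z | ∀ v, dp z (x v) ≤ 1}

theorem Ge0_continuous_left (y : E3) : Continuous fun z : E3 => dp z y := by
  simp only [dp_def]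
  fun_prop

theorem Ge0_K_closed {W : Type} (x : W → E3) : IsClosed (Ge0_K x) := by
  have : Ge0_K x = ⋂ v, {z : E3 | dp z (x v) ≤ 1} := by
    ext z
    rw [Set.mem_iInter]
    exact Iff.rfl
  rw [this]
  exact isClosed_iInter fun v => isClosed_le (Ge0_continuous_left _) continuous_const

theorem Ge0_K_convex {W : Type} (x : W → E3) : Convex ℝ (Ge0_K x) := by
  intro y hy z hz s t hs ht hst v
  have hy' : dp y (x v) ≤ 1 := hy v
  have hz' : dp z (x v) ≤ 1 := hz v
  rw [dp_add_left, dp_smul_left, dp_smul_left]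
  calc s * dp y (x v) + t * dp z (x v) ≤ s * 1 + t * 1 :=
        add_le_add (mul_le_mul_of_nonneg_left hy' hs) (mul_le_mul_of_nonneg_left hz' ht)
    _ = 1 := by rw [mul_one, mul_one, hst]

/-- the polar set is compact if the origin is an interior point -/
theorem Ge0_K_compact {W : Type} (x : W → E3) {r : ℝ} (hr : 0 < r)
    (hb : Metric.ball (0 : E3) r ⊆ convexHull ℝ (Set.range x)) : IsCompact (Ge0_K x) := by
  refine Metric.isCompact_of_isClosed_isBounded (Ge0_K_closed x) ?_
  rw [Metric.isBounded_iff_subset_closedBall (0 : E3)]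
  refine ⟨2 / r, fun z hz => ?_⟩
  rw [mem_closedBall_zero_iff, pi_norm_le_iff_of_nonneg (by positivity)]
  intro i
  have key : ∀ s : ℝ, |s| ≤ r / 2 → s * z i ≤ 1 := by
    intro s hs
    have h1 : (Pi.single i s : E3) ∈ convexHull ℝ (Set.range x) := by
      apply hb
      rw [mem_ball_zero_iff]
      refine lt_of_le_of_lt ?_ (half_lt_self hr)
      rw [pi_norm_le_iff_of_nonneg (by positivity)]
      intro j
      by_cases hj : j = i
      · subst hj
        rw [Pi.single_eq_same, Real.norm_eq_abs]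
        exact hs
      · rw [Pi.single_eq_of_ne hj, norm_zero]
        positivity
    have h2 := dp_hull_le h1 (a := z) (c := 1) hz
    have h3 : dp z (Pi.single i s : E3) = s * z i := by
      rw [dp, Finset.sum_eq_single i (fun j _ hj => by rw [Pi.single_eq_of_ne hj, mul_zero])
        (fun h => absurd (Finset.mem_univ i) h), Pi.single_eq_same, mul_comm]
    rwa [h3] at h2
  have h1 := key (r / 2) (by rw [abs_of_pos (by positivity)])
  have h2 := key (-(r / 2)) (by rw [abs_neg, abs_of_pos (by positivity)])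
  rw [Real.norm_eq_abs, abs_le, le_div_iff₀ hr, ← neg_div, div_le_iff₀ hr]
  constructor <;> linarith

/-- an extreme point of the polar set is determined by its active constraints -/
theorem Ge0_ext_inj {W : Type} [Fintype W] (x : W → E3) {z1 z2 : E3}
    (h1 : z1 ∈ (Ge0_K x).extremePoints ℝ) (hz2 : ∀ v, dp z1 (x v) = 1 → dp z2 (x v) = 1) :
    z1 = z2 := by
  have hev : ∀ v : W, ∀ᶠ t : ℝ in nhdsWithin 0 (Set.Ioi 0),
      t * |dp (z2 - z1) (x v)| ≤ 1 - dp z1 (x v) := by
    intro v
    by_cases hv : dp z1 (x v) = 1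
    · refine Filter.Eventually.of_forall fun t => ?_
      rw [dp_sub_left, hz2 v hv, hv, sub_self, abs_zero, mul_zero]
    · have hlt : dp z1 (x v) < 1 := lt_of_le_of_ne (h1.1 v) hv
      have hc : Filter.Tendsto (fun t : ℝ => t * |dp (z2 - z1) (x v)|) (nhdsWithin 0 (Set.Ioi 0))
          (nhds 0) := by
        have : Continuous fun t : ℝ => t * |dp (z2 - z1) (x v)| := by fun_prop
        have h1 := this.tendsto 0
        rw [zero_mul] at h1
        exact h1.mono_left nhdsWithin_le_nhds
      exact (hc.eventually_lt_const (sub_pos.2 hlt)).mono fun t ht => ht.le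
  obtain ⟨t, ht, ht0⟩ := ((Filter.eventually_all.2 hev).and self_mem_nhdsWithin).exists
  have ht0' : 0 < t := ht0
  have k1 : z1 + t • (z2 - z1) ∈ Ge0_K x := fun v => by
    rw [dp_add_left, dp_smul_left]
    have h1 := ht v
    have h2 : t * dp (z2 - z1) (x v) ≤ t * |dp (z2 - z1) (x v)| :=
      mul_le_mul_of_nonneg_left (le_abs_self _) ht0'.le
    linarith
  have k2 : z1 - t • (z2 - z1) ∈ Ge0_K x := fun v => by
    rw [dp_sub_left, dp_smul_left]
    have h1 := ht v
    have h2 : -(t * dp (z2 - z1) (x v)) ≤ t * |dp (z2 - z1) (x v)| := by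
      rw [← mul_neg]
      exact mul_le_mul_of_nonneg_left (neg_le_abs _) ht0'.le
    linarith
  have k3 : z1 ∈ openSegment ℝ (z1 + t • (z2 - z1)) (z1 - t • (z2 - z1)) := by
    refine ⟨1 / 2, 1 / 2, by norm_num, by norm_num, by norm_num, ?_⟩
    rw [← smul_add, add_add_sub_cancel, ← two_smul ℝ z1, smul_smul]
    norm_num
  have k4 := (mem_extremePoints.mp h1).2 _ k1 _ k2 k3
  have k5 : t • (z2 - z1) = 0 := by
    have := k4.1
    exact add_eq_left.mp this
  have k6 := (smul_eq_zero.mp k5).resolve_left ht0'.ne'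
  exact (sub_eq_zero.mp k6).symm

theorem Ge0_ext_finite {W : Type} [Fintype W] (x : W → E3) :
    ((Ge0_K x).extremePoints ℝ).Finite := by
  refine Set.Finite.of_injOn (f := fun z : E3 => Finset.univ.filter fun v : W => dp z (x v) = 1)
    (t := Set.univ) (fun _ _ => Set.mem_univ _) ?_ Set.finite_univ
  intro z1 h1 z2 h2 h12
  refine Ge0_ext_inj x h1 fun v hv => ?_
  have h3 : v ∈ Finset.univ.filter fun v : W => dp z1 (x v) = 1 :=
    Finset.mem_filter.mpr ⟨Finset.mem_univ _, hv⟩
  have h12' : (Finset.univ.filter fun v : W => dp z1 (x v) = 1) =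
    Finset.univ.filter fun v : W => dp z2 (x v) = 1 := h12
  rw [h12'] at h3
  exact (Finset.mem_filter.mp h3).2

/-- the polytope with the origin in the interior and its polar -/
theorem Ge0_pol {W : Type} [Fintype W] (x : W → E3) {r : ℝ} (hr : 0 < r)
    (hb : Metric.ball (0 : E3) r ⊆ convexHull ℝ (Set.range x))
    (hx : ∀ v, x v ∉ convexHull ℝ (x '' {u | u ≠ v})) :
    ∃ (A : Type) (_ : Fintype A) (q : A → E3), Pol x q := by
  have hfin := Ge0_ext_finite x
  have hcomp := Ge0_K_compact x hr hb
  have hconv := Ge0_K_convex x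
  have hrange : Set.range (fun f : {z // z ∈ (Ge0_K x).extremePoints ℝ} => (f : E3)) =
      (Ge0_K x).extremePoints ℝ := Subtype.range_coe
  have hKM : convexHull ℝ (Set.range (fun f : {z // z ∈ (Ge0_K x).extremePoints ℝ} => (f : E3))) =
      Ge0_K x := by
    rw [hrange]
    have h1 := closure_convexHull_extremePoints hcomp hconv
    have h2 : IsClosed (convexHull ℝ ((Ge0_K x).extremePoints ℝ)) :=
      (Set.Finite.isCompact_convexHull ℝ hfin).isClosed
    rwa [h2.closure_eq] at h1
  refine ⟨{z // z ∈ (Ge0_K x).extremePoints ℝ}, hfin.fintype, fun f => (f : E3), ?_⟩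
  let _ : Fintype {z // z ∈ (Ge0_K x).extremePoints ℝ} := hfin.fintype
  constructor
  · intro v f
    exact f.2.1 v
  · intro y hy
    by_contra hne
    have hcl : IsClosed (convexHull ℝ (Set.range x)) :=
      (Set.Finite.isCompact_convexHull ℝ (Set.finite_range x)).isClosed
    obtain ⟨f, u, hf1, hf2⟩ := geometric_hahn_banach_point_closed (convex_convexHull ℝ _) hcl hne
    obtain ⟨a, ha⟩ := exists_dp_of_clm f
    have h0 : (0 : E3) ∈ convexHull ℝ (Set.range x) := hb (Metric.mem_ball_self hr)
    have hu : u < 0 := by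
      have := hf2 0 h0
      rwa [map_zero] at this
    have hz : (-u)⁻¹ • a ∈ Ge0_K x := fun v => by
      rw [dp_smul_left, inv_mul_le_iff₀ (by linarith), mul_one, ha]
      have := hf2 (x v) (subset_convexHull ℝ _ ⟨v, rfl⟩)
      linarith
    rw [← hKM] at hz
    have h1 : dp y ((-u)⁻¹ • a) ≤ 1 := dp_hull_le hz fun f => by
      rw [dp_comm]
      exact hy f
    rw [dp_comm, dp_smul_left, inv_mul_le_iff₀ (by linarith), mul_one, ha] at h1
    linarith
  · intro z hz
    rw [hKM]
    exact hz
  · exact hx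
  · intro f hf
    have h1 := (hconv.mem_extremePoints_iff_convex_sdiff.mp f.2).2
    have h2 : convexHull ℝ ((fun g : {z // z ∈ (Ge0_K x).extremePoints ℝ} => (g : E3)) ''
        {g | g ≠ f}) ⊆ Ge0_K x \ {(f : E3)} := by
      refine convexHull_min ?_ h1
      rintro _ ⟨g, hg, rfl⟩
      exact ⟨g.2.1, fun e => hg (Subtype.ext e)⟩
    exact (h2 hf).2 rfl

/-- Row Ge0. -/
theorem exists_Pol (V : Finset E3)
    (hconv : ∀ v ∈ V, v ∉ convexHull ℝ ((V : Set E3) \ {v}))
    (hspan : affineSpan ℝ (V : Set E3) = ⊤) :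
    ∃ (c : E3) (A : Type) (_ : Fintype A) (q : A → E3),
      Pol (fun v : {v // v ∈ V} => (v : E3) - c) q := by
  obtain ⟨c, hc⟩ := interior_convexHull_nonempty_iff_affineSpan_eq_top.mpr hspan
  obtain ⟨r, hr, hb⟩ := Metric.isOpen_iff.mp isOpen_interior c hc
  refine ⟨c, ?_⟩
  refine Ge0_pol _ hr ?_ ?_
  · intro y hy
    have h1 : y + c ∈ convexHull ℝ (V : Set E3) := by
      apply interior_subset
      apply hb
      rw [Metric.mem_ball, dist_eq_norm, add_sub_cancel_right]
      rwa [mem_ball_zero_iff] at hy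
    have h2 : convexHull ℝ (V : Set E3) ⊆ (fun z => z + -c) ⁻¹' convexHull ℝ
        (Set.range fun v : {v // v ∈ V} => (v : E3) - c) := by
      refine convexHull_min ?_ ((convex_convexHull ℝ _).translate_preimage_left _)
      intro v hv
      refine subset_convexHull ℝ _ ⟨⟨v, hv⟩, ?_⟩
      show v - c = v + -c
      rw [sub_eq_add_neg]
    have h3 := h2 h1
    have h4 : y + c + -c ∈ convexHull ℝ (Set.range fun v : {v // v ∈ V} => (v : E3) - c) := h3
    rwa [add_neg_cancel_right] at h4
  · intro v hv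
    have h2 : convexHull ℝ ((fun v : {v // v ∈ V} => (v : E3) - c) '' {u | u ≠ v}) ⊆
        (fun z => z + c) ⁻¹' convexHull ℝ ((V : Set E3) \ {(v : E3)}) := by
      refine convexHull_min ?_ ((convex_convexHull ℝ _).translate_preimage_left _)
      rintro _ ⟨u, hu, rfl⟩
      refine subset_convexHull ℝ _ ?_
      show (u : E3) - c + c ∈ (V : Set E3) \ {(v : E3)}
      rw [sub_add_cancel]
      exact ⟨u.2, fun e => hu (Subtype.ext e)⟩
    have h3 := h2 hv
    have h4 : (v : E3) - c + c ∈ convexHull ℝ ((V : Set E3) \ {(v : E3)}) := h3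
    rw [sub_add_cancel] at h4
    exact hconv v v.2 h4

end Pool.RP
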