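import Pool.Agent.Lib.MP_9dcace_rp.M7a

/-!
MP_9dcace_co, row M7, part 2: the supporting sets of points and planes with the incidences of a polytope.
* `M7bLoc inc v N`: `N` is a set of neighbours of `v`.
* `M7b_cone`: if `a` is not positive on the edges at `v` then `a` is in the cone of the normals at `v`
  (subtract a multiple of one normal until `a` vanishes on an edge; then `a` is a combination of the two
  normals at that edge).
-/

set_option autoImplicit false

open Classical

namespace Pool.RP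

open Pool.SX

/-! ### abstract part -/

/-- `N` is a set of neighbours of `v`: every `u` in `N` lies on exactly two facets at `v`, and each
of the two has another member of `N`, not on the other facet -/
structure M7bLoc {V A : Type} (inc : V → A → Prop) (v : V) (N : V → Prop) : Prop where
  ne : ∃ u, N u
  nb : ∀ u, N u → ∃ f g, f ≠ g ∧ inc v f ∧ inc v g ∧ inc u f ∧ inc u g ∧
    (∀ h, inc v h → inc u h → h = f ∨ h = g) ∧
    (∃ u', N u' ∧ inc u' f ∧ ¬ inc u' g) ∧ (∃ u', N u' ∧ inc u' g ∧ ¬ inc u' f)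

section

variable {V A : Type} {inc : V → A → Prop} {X : V → E3} {al : A → E3} {be : A → ℝ}

private theorem M7b_prod (a b c x y z : E3) : dt a b c * dt x y z =
    dp a x * (dp b y * dp c z - dp b z * dp c y) - dp a y * (dp b x * dp c z - dp b z * dp c x) +
      dp a z * (dp b x * dp c y - dp b y * dp c x) := by
  simp only [dt, dp_def]
  ring

private theorem M7b_zero {x y z D : E3} (hd : dt x y z ≠ 0)
    (hx : dp D x = 0) (hy : dp D y = 0) (hz : dp D z = 0) : D = 0 := by
  by_contra hD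
  have h3 := dp_self_pos hD
  have h5 : dt x y z * dp D D = dp D x * dt D y z + dp D y * dt x D z + dp D z * dt x y D := by
    simp only [dt, dp_def]
    ring
  rw [hx, hy, hz] at h5
  have h6 : dt x y z * dp D D = 0 := by linarith
  rcases mul_eq_zero.1 h6 with h | h
  · exact hd h
  · linarith

/-- three independent edge vectors at `v` -/
theorem M7b_basis (hs : Pla inc X al be) {v : V} {N : V → Prop} (hL : M7bLoc inc v N) {u u' u'' : V}
    {f g : A} (hu' : N u') (hvf : inc v f) (hvg : inc v g) (huf : inc u f)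
    (hug : inc u g) (huniq : ∀ h, inc v h → inc u h → h = f ∨ h = g) (h1f : inc u' f)
    (h1g : ¬ inc u' g) (h2g : inc u'' g) (h2f : ¬ inc u'' f) :
    dt (X u - X v) (X u' - X v) (X u'' - X v) ≠ 0 := by
  obtain ⟨k, l, hkl, hvk, hvl, hk, hl, -, -, -⟩ := hL.nb u' hu'
  obtain ⟨h, hvh, hh, hhf⟩ : ∃ h, inc v h ∧ inc u' h ∧ h ≠ f := by
    by_cases e : k = f
    · exact ⟨l, hvl, hl, fun e' => hkl (e.trans e'.symm)⟩
    · exact ⟨k, hvk, hk, e⟩
  have hhg : h ≠ g := by
    rintro rfl
    exact h1g hh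
  have huh : ¬ inc u h := by
    intro hc
    rcases huniq h hvh hc with e | e
    · exact hhf e
    · exact hhg e
  have e1 : dp (al f) (X u - X v) = 0 := by rw [dp_sub, hs.on _ _ huf, hs.on _ _ hvf, sub_self]
  have e2 : dp (al f) (X u' - X v) = 0 := by rw [dp_sub, hs.on _ _ h1f, hs.on _ _ hvf, sub_self]
  have e3 : dp (al f) (X u'' - X v) < 0 := by
    rw [dp_sub, hs.on _ _ hvf]; linarith [hs.lt _ _ h2f]
  have e4 : dp (al g) (X u - X v) = 0 := by rw [dp_sub, hs.on _ _ hug, hs.on _ _ hvg, sub_self]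
  have e5 : dp (al g) (X u' - X v) < 0 := by
    rw [dp_sub, hs.on _ _ hvg]; linarith [hs.lt _ _ h1g]
  have e7 : dp (al h) (X u - X v) < 0 := by
    rw [dp_sub, hs.on _ _ hvh]; linarith [hs.lt _ _ huh]
  intro h0
  have hp := M7b_prod (al f) (al g) (al h) (X u - X v) (X u' - X v) (X u'' - X v)
  rw [h0, mul_zero, e1, e2, e4] at hp
  have h8 := mul_ne_zero e3.ne (mul_ne_zero e5.ne e7.ne)
  apply h8
  linarith

/-- the local structure at a vertex -/
theorem Inc3.loc [hA : Nonempty A] (h : Inc3 inc) (v : V) :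
    M7bLoc inc v (fun u => u ≠ v ∧ ∃ f g, f ≠ g ∧ inc v f ∧ inc v g ∧ inc u f ∧ inc u g) where
  ne := by
    obtain ⟨f0⟩ := hA
    obtain ⟨f, -, -, hf⟩ := h.degV v f0 f0
    obtain ⟨u, u', g, g', hu, hu', huu, hg, hg', hgg, huf, huf', hvg, hug, hvg', hug'⟩ :=
      h.flag v f hf
    exact ⟨u, hu, f, g, hg.symm, hf, hvg, huf, hug⟩
  nb := by
    rintro u ⟨huv, f, g, hfg, hvf, hvg, huf, hug⟩
    have hother : ∀ f g : A, f ≠ g → inc v f → inc v g → inc u f → inc u g →
        ∃ u', (u' ≠ v ∧ ∃ f g, f ≠ g ∧ inc v f ∧ inc v g ∧ inc u' f ∧ inc u' g) ∧ inc u' f ∧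
          ¬ inc u' g := by
      intro f g hfg hvf hvg huf hug
      obtain ⟨u1, u2, g1, g2, h1v, h2v, h12, hg1, hg2, hgg, h1f, h2f, hvg1, h1g1, hvg2, h2g2⟩ :=
        h.flag v f hvf
      by_cases h1 : u1 = u
      · refine ⟨u2, ⟨h2v, f, g2, hg2.symm, hvf, hvg2, h2f, h2g2⟩, h2f, ?_⟩
        exact h.twoV f g v u u2 hfg huv.symm (fun e => h12 (h1.trans e)) h2v hvf huf h2f hvg hug
      · refine ⟨u1, ⟨h1v, f, g1, hg1.symm, hvf, hvg1, h1f, h1g1⟩, h1f, ?_⟩
        exact h.twoV f g v u u1 hfg huv.symm (Ne.symm h1) h1v hvf huf h1f hvg hug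
    refine ⟨f, g, hfg, hvf, hvg, huf, hug, ?_, hother f g hfg hvf hvg huf hug,
      hother g f hfg.symm hvg hvf hug huf⟩
    intro k hvk huk
    by_contra hcon
    push Not at hcon
    exact h.twoA u v f g k huv hfg (Ne.symm hcon.2) hcon.1 huf hug huk hvf hvg hvk

variable [Fintype V] [Fintype A]

omit [Fintype V] in
/-- the case where `a` vanishes on an edge -/
private theorem M7b_cone0 (hs : Pla inc X al be) {v : V} {N : V → Prop} (hL : M7bLoc inc v N)
    (a : E3) (ha : ∀ u, N u → dp a (X u - X v) ≤ 0) {u : V} (hu : N u)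
    (hz : dp a (X u - X v) = 0) :
    ∃ l : A → ℝ, (∀ f, 0 ≤ l f) ∧ (∀ f, ¬ inc v f → l f = 0) ∧ a = fun i => ∑ f, l f * al f i := by
  obtain ⟨f, g, hfg, hvf, hvg, huf, hug, huniq, ⟨u', hu', h1f, h1g⟩, ⟨u'', hu'', h2g, h2f⟩⟩ :=
    hL.nb u hu
  have hd := M7b_basis hs hL hu' hvf hvg huf hug huniq h1f h1g h2g h2f
  have e1 : dp (al f) (X u - X v) = 0 := by rw [dp_sub, hs.on _ _ huf, hs.on _ _ hvf, sub_self]
  have e2 : dp (al f) (X u' - X v) = 0 := by rw [dp_sub, hs.on _ _ h1f, hs.on _ _ hvf, sub_self]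
  have e3 : dp (al f) (X u'' - X v) < 0 := by
    rw [dp_sub, hs.on _ _ hvf]; linarith [hs.lt _ _ h2f]
  have e4 : dp (al g) (X u - X v) = 0 := by rw [dp_sub, hs.on _ _ hug, hs.on _ _ hvg, sub_self]
  have e5 : dp (al g) (X u' - X v) < 0 := by
    rw [dp_sub, hs.on _ _ hvg]; linarith [hs.lt _ _ h1g]
  have e6 : dp (al g) (X u'' - X v) = 0 := by rw [dp_sub, hs.on _ _ h2g, hs.on _ _ hvg, sub_self]
  set lf := dp a (X u'' - X v) / dp (al f) (X u'' - X v) with hlf
  set lg := dp a (X u' - X v) / dp (al g) (X u' - X v) with hlg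
  have hD : a - (lf • al f + lg • al g) = 0 := by
    refine M7b_zero hd ?_ ?_ ?_
    · rw [dp_sub_left, dp_add_left, dp_smul_left, dp_smul_left, e1, e4, hz]; ring
    · rw [dp_sub_left, dp_add_left, dp_smul_left, dp_smul_left, e2, hlg, div_mul_cancel₀ _ e5.ne]
      ring
    · rw [dp_sub_left, dp_add_left, dp_smul_left, dp_smul_left, e6, hlf, div_mul_cancel₀ _ e3.ne]
      ring
  refine ⟨fun k => if k = f then lf else if k = g then lg else 0, ?_, ?_, ?_⟩
  · intro k
    have h1 : 0 ≤ lf := div_nonneg_of_nonpos (ha _ hu'') e3.le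
    have h2 : 0 ≤ lg := div_nonneg_of_nonpos (ha _ hu') e5.le
    show 0 ≤ if k = f then lf else if k = g then lg else 0
    split_ifs
    · exact h1
    · exact h2
    · exact le_rfl
  · intro k hk
    have h1 : k ≠ f := by rintro rfl; exact hk hvf
    have h2 : k ≠ g := by rintro rfl; exact hk hvg
    show (if k = f then lf else if k = g then lg else 0) = 0
    rw [if_neg h1, if_neg h2]
  · rw [sub_eq_zero.1 hD]
    funext i
    have h1 : ∀ k, (if k = f then lf else if k = g then lg else 0) * al k i =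
        (if k = f then lf * al k i else 0) + (if k = g then lg * al k i else 0) := by
      intro k
      by_cases hk : k = f
      · subst hk
        rw [if_pos rfl, if_pos rfl, if_neg hfg, add_zero]
      · rw [if_neg hk, if_neg hk, zero_add]
        by_cases hk2 : k = g
        · rw [if_pos hk2, if_pos hk2]
        · rw [if_neg hk2, if_neg hk2, zero_mul]
    simp only [h1, Finset.sum_add_distrib, Finset.sum_ite_eq', Finset.mem_univ, if_true,
      Pi.add_apply, Pi.smul_apply, smul_eq_mul]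

/-- the cone of the normals at `v` -/
theorem M7b_cone (hs : Pla inc X al be) {v : V} {N : V → Prop} (hL : M7bLoc inc v N)
    (a : E3) (ha : ∀ u, N u → dp a (X u - X v) ≤ 0) :
    ∃ l : A → ℝ, (∀ f, 0 ≤ l f) ∧ (∀ f, ¬ inc v f → l f = 0) ∧ a = fun i => ∑ f, l f * al f i := by
  by_cases h0 : ∃ u, N u ∧ dp a (X u - X v) = 0
  · obtain ⟨u, hu, hz⟩ := h0
    exact M7b_cone0 hs hL a ha hu hz
  push Not at h0
  obtain ⟨u, hu⟩ := hL.ne
  obtain ⟨f, g, hfg, hvf, hvg, huf, hug, huniq, -, ⟨u'', hu'', h2g, h2f⟩⟩ := hL.nb u hu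
  have hneg : ∀ z, ¬ inc z f → dp (al f) (X z - X v) < 0 := by
    intro z hz
    rw [dp_sub, hs.on _ _ hvf]; linarith [hs.lt _ _ hz]
  have hzero : ∀ z, inc z f → dp (al f) (X z - X v) = 0 := by
    intro z hz
    rw [dp_sub, hs.on _ _ hvf, hs.on _ _ hz, sub_self]
  obtain ⟨w, hw, hmin⟩ := Finset.exists_min_image
    (Finset.univ.filter fun z : V => N z ∧ ¬ inc z f)
    (fun z => dp a (X z - X v) / dp (al f) (X z - X v)) ⟨u'', by simp [hu'', h2f]⟩
  simp only [Finset.mem_filter, Finset.mem_univ, true_and] at hw hmin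
  set t := dp a (X w - X v) / dp (al f) (X w - X v) with ht
  have ht0 : 0 ≤ t := div_nonneg_of_nonpos (ha w hw.1) (hneg w hw.2).le
  have hval : ∀ z, dp (a - t • al f) (X z - X v) = dp a (X z - X v) - t * dp (al f) (X z - X v) := by
    intro z
    rw [dp_sub_left, dp_smul_left]
  obtain ⟨l, hl0, hlz, hla⟩ := M7b_cone0 hs hL (a - t • al f) (fun z hz => by
      rw [hval]
      by_cases hzf : inc z f
      · rw [hzero z hzf, mul_zero, sub_zero]; exact ha z hz
      · have h1 := hmin z ⟨hz, hzf⟩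
        have h2 := hneg z hzf
        rw [le_div_iff_of_neg h2] at h1
        linarith) hw.1 (by
      rw [hval, ht, div_mul_cancel₀ _ (hneg w hw.2).ne, sub_self])
  refine ⟨fun k => l k + if k = f then t else 0, ?_, ?_, ?_⟩
  · intro k
    show 0 ≤ l k + if k = f then t else 0
    split_ifs
    · exact add_nonneg (hl0 k) ht0
    · rw [add_zero]; exact hl0 k
  · intro k hk
    have h1 : k ≠ f := by rintro rfl; exact hk hvf
    show (l k + if k = f then t else 0) = 0
    rw [if_neg h1, hlz k hk, add_zero]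
  · have h1 : a = (fun i => ∑ f, l f * al f i) + t • al f := by
      rw [← hla]; abel
    rw [h1]
    funext i
    have h2 : ∀ k, (l k + if k = f then t else 0) * al k i =
        l k * al k i + (if k = f then t * al k i else 0) := by
      intro k
      split_ifs <;> ring
    simp only [h2, Finset.sum_add_distrib, Finset.sum_ite_eq', Finset.mem_univ, if_true,
      Pi.add_apply, Pi.smul_apply, smul_eq_mul]

omit [Fintype V] [Fintype A] in
private theorem M7b_le (hs : Pla inc X al be) (v : V) (f : A) : dp (al f) (X v) ≤ be f := by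
  by_cases h : inc v f
  · exact (hs.on v f h).le
  · exact (hs.lt v f h).le

omit [Fintype V] [Fintype A] in
private theorem M7b_eq (hs : Pla inc X al be) (v : V) (f : A) :
    dp (al f) (X v) = be f ↔ inc v f := by
  constructor
  · intro h
    by_contra hc
    exact absurd h (hs.lt v f hc).ne
  · exact hs.on v f

private theorem M7b_dps {ι : Type} (s : Finset ι) (g : ι → E3) (x : E3) :
    dp (fun i => ∑ e ∈ s, g e i) x = ∑ e ∈ s, dp (g e) x := by
  simp only [dp, Finset.sum_mul]
  rw [Finset.sum_comm]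

private theorem M7b_dps' {ι : Type} (s : Finset ι) (l : ι → ℝ) (g : ι → E3) (x : E3) :
    dp (fun i => ∑ e ∈ s, l e * g e i) x = ∑ e ∈ s, l e * dp (g e) x := by
  simp only [dp, Finset.sum_mul, Finset.mul_sum]
  rw [Finset.sum_comm]
  refine Finset.sum_congr rfl fun e _ => Finset.sum_congr rfl fun i _ => by ring

/-- the supporting sets are the intersections of facets (and the empty set) -/
theorem Pla.supp_iff (hI : Inc3 inc) (hs : Pla inc X al be) (B : Finset V) :
    Supp X B ↔ B = ∅ ∨ ∃ F : Finset A, ∀ v, v ∈ B ↔ ∀ f ∈ F, inc v f := by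
  rcases isEmpty_or_nonempty A with hA | hA
  · refine ⟨fun _ => ?_, fun hB => ?_⟩
    · have hsub : ∀ u v : V, u = v := by
        intro u v
        by_contra huv
        obtain ⟨f, -⟩ := hI.sepV u v huv
        exact hA.elim f
      rcases B.eq_empty_or_nonempty with rfl | ⟨v, hv⟩
      · exact Or.inl rfl
      · refine Or.inr ⟨∅, fun u => ?_⟩
        rw [hsub u v]
        simp [hv]
    · rcases hB with rfl | ⟨F, hF⟩
      · exact ⟨0, 1, fun v => by simp, fun v => by simp⟩
      · refine ⟨0, 0, fun v => by simp, fun v => ?_⟩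
        rw [hF v]
        simp only [Pi.zero_apply, zero_mul, Finset.sum_const_zero, iff_true]
        exact fun f => hA.elim f
  constructor
  · rintro ⟨a, c, hle, hiff⟩
    rcases B.eq_empty_or_nonempty with rfl | ⟨v, hv⟩
    · exact Or.inl rfl
    have hN := hI.loc v
    have hc : dp a (X v) = c := (hiff v).mp hv
    obtain ⟨l, hl0, hlz, hla⟩ := M7b_cone hs hN a (fun u _ => by
      rw [dp_sub, hc]
      have : dp a (X u) ≤ c := hle u
      linarith)
    have hdp : ∀ v', dp a (X v') = ∑ f, l f * dp (al f) (X v') := by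
      intro v'
      conv_lhs => rw [hla]
      exact M7b_dps' Finset.univ l al (X v')
    have hc' : c = ∑ f, l f * be f := by
      rw [← hc, hdp v]
      refine Finset.sum_congr rfl fun f _ => ?_
      by_cases hf : inc v f
      · rw [hs.on v f hf]
      · rw [hlz f hf, zero_mul, zero_mul]
    have hB : ∀ v', v' ∈ B ↔ ∀ f, 0 < l f → inc v' f := by
      intro v'
      rw [hiff v']
      change dp a (X v') = c ↔ _
      rw [hdp v', hc', Finset.sum_eq_sum_iff_of_le
        (fun f _ => mul_le_mul_of_nonneg_left (M7b_le hs v' f) (hl0 f))]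
      constructor
      · intro h1 f hf
        exact (M7b_eq hs v' f).mp (mul_left_cancel₀ hf.ne' (h1 f (Finset.mem_univ f)))
      · intro h1 f _
        rcases (hl0 f).eq_or_lt with h2 | h2
        · rw [← h2, zero_mul, zero_mul]
        · rw [(M7b_eq hs v' f).mpr (h1 f h2)]
    refine Or.inr ⟨Finset.univ.filter fun f : A => 0 < l f, fun v' => ?_⟩
    rw [hB v']
    simp only [Finset.mem_filter, Finset.mem_univ, true_and]
  · rintro (rfl | ⟨T, hB⟩)
    · exact ⟨0, 1, fun v => by simp, fun v => by simp⟩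
    · refine ⟨fun i => ∑ e ∈ T, al e i, ∑ e ∈ T, be e, fun v' => ?_, fun v' => ?_⟩
      · change dp (fun i => ∑ e ∈ T, al e i) (X v') ≤ _
        rw [M7b_dps]
        exact Finset.sum_le_sum fun e _ => M7b_le hs v' e
      · change _ ↔ dp (fun i => ∑ e ∈ T, al e i) (X v') = _
        rw [M7b_dps, Finset.sum_eq_sum_iff_of_le (fun e _ => M7b_le hs v' e), hB v']
        exact forall₂_congr fun e _ => (M7b_eq hs v' e).symm

/-- a single vertex is a supporting set -/
theorem Pla.single (hI : Inc3 inc) (hs : Pla inc X al be) (v : V) : Supp X ({v} : Finset V) := by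
  rw [Pla.supp_iff hI hs]
  refine Or.inr ⟨Finset.univ.filter fun f : A => inc v f, fun u => ?_⟩
  simp only [Finset.mem_filter, Finset.mem_univ, true_and, Finset.mem_singleton]
  constructor
  · rintro rfl f hf
    exact hf
  · intro hu
    by_contra huv
    obtain ⟨f, hf, hf'⟩ := hI.sepV u v huv
    exact hf' (hu f hf)

/-- a vertex is not in the hull of the others -/
theorem Pla.conv (hI : Inc3 inc) (hs : Pla inc X al be) (v : V) :
    X v ∉ convexHull ℝ (X '' {v}ᶜ) := by
  intro hmem
  obtain ⟨a, c, hle, hiff⟩ := Pla.single hI hs v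
  have hlin : IsLinearMap ℝ (fun z : Fin 3 → ℝ => dp a z) := by
    refine ⟨fun p q => dp_add _ _ _, fun t p => ?_⟩
    rw [dp_smul, smul_eq_mul]
  have h3 : convexHull ℝ (X '' {v}ᶜ) ⊆ {z : Fin 3 → ℝ | dp a z < c} := by
    refine convexHull_min ?_ (convex_halfSpace_lt hlin _)
    rintro _ ⟨w, hw, rfl⟩
    change dp a (X w) < c
    refine lt_of_le_of_ne (hle w) fun he => hw ?_
    have := (hiff w).mpr he
    rw [Finset.mem_singleton] at this
    rw [Set.mem_singleton_iff]
    exact this
  have h5 : dp a (X v) < c := h3 hmem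
  have h6 : dp a (X v) = c := (hiff v).mp (Finset.mem_singleton_self v)
  linarith

omit [Fintype V] [Fintype A] in
theorem Pla.inj (hI : Inc3 inc) (hs : Pla inc X al be) : Function.Injective X := by
  intro v w hvw
  by_contra hne
  obtain ⟨f, hf, hf'⟩ := hI.sepV v w hne
  have h1 := hs.on w f hf
  have h2 := hs.lt v f hf'
  rw [hvw] at h2
  linarith

omit [Fintype V] [Fintype A] in
theorem Pla.span [Nonempty A] (hI : Inc3 inc) (hs : Pla inc X al be) :
    affineSpan ℝ (Set.range X) = ⊤ := by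
  obtain ⟨v⟩ := hI.ne
  have hL := hI.loc v
  obtain ⟨u, hu⟩ := hL.ne
  obtain ⟨f, g, hfg, hvf, hvg, huf, hug, huniq, ⟨u', hu', h1f, h1g⟩, ⟨u'', hu'', h2g, h2f⟩⟩ :=
    hL.nb u hu
  have hD := M7b_basis hs hL hu' hvf hvg huf hug huniq h1f h1g h2g h2f
  rw [eq_top_iff]
  intro x _
  have hm : ∀ t, X t ∈ affineSpan ℝ (Set.range X) := fun t =>
    subset_affineSpan ℝ _ (Set.mem_range_self t)
  have m1 := (affineSpan ℝ (Set.range X)).smul_vsub_vadd_mem
    (dt (x - X v) (X u' - X v) (X u'' - X v) /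
      dt (X u - X v) (X u' - X v) (X u'' - X v)) (hm u) (hm v) (hm v)
  have m2 := (affineSpan ℝ (Set.range X)).smul_vsub_vadd_mem
    (dt (X u - X v) (x - X v) (X u'' - X v) /
      dt (X u - X v) (X u' - X v) (X u'' - X v)) (hm u') (hm v) m1
  have m3 := (affineSpan ℝ (Set.range X)).smul_vsub_vadd_mem
    (dt (X u - X v) (X u' - X v) (x - X v) /
      dt (X u - X v) (X u' - X v) (X u'' - X v)) (hm u'') (hm v) m2
  convert m3 using 1
  set D := dt (X u - X v) (X u' - X v) (X u'' - X v) with hDdef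
  have key : ∀ i, D * (x i - X v i) =
      dt (x - X v) (X u' - X v) (X u'' - X v) * (X u i - X v i) +
      dt (X u - X v) (x - X v) (X u'' - X v) * (X u' i - X v i) +
      dt (X u - X v) (X u' - X v) (x - X v) * (X u'' i - X v i) := by
    intro i
    rw [hDdef]
    fin_cases i <;> simp [dt] <;> ring
  ext i
  simp only [vsub_eq_sub, vadd_eq_add, Pi.add_apply, Pi.smul_apply, Pi.sub_apply, smul_eq_mul]
  have h5 := key i
  field_simp
  linarith


/-- points and planes with the incidences of a polytope have the same supporting sets -/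
theorem m7 {x : V → E3} {q : A → E3} (h : Pol x q) {X : V → E3} {al : A → E3} {be : A → ℝ}
    (hon : ∀ v f, dp (q f) (x v) = 1 → dp (al f) (X v) = be f)
    (hlt : ∀ v f, dp (q f) (x v) ≠ 1 → dp (al f) (X v) < be f) :
    (∀ B : Finset V, Supp x B ↔ Supp X B) ∧ Function.Injective X ∧
      (∀ v, X v ∉ convexHull ℝ (X '' {v}ᶜ)) ∧ affineSpan ℝ (Set.range X) = ⊤ := by
  have hI := inc3_of_pol h
  have h1 : Pla (fun v f => dp (q f) (x v) = 1) X al be := ⟨hon, hlt⟩
  have h2 : Pla (fun v f => dp (q f) (x v) = 1) x q (fun _ => 1) :=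
    ⟨fun v f hf => hf, fun v f hf => lt_of_le_of_ne (h.le v f) hf⟩
  have : Nonempty A := by
    by_contra hne
    have := h.swap.spanP (fun _ => 1) 0 (fun v => absurd ⟨v⟩ hne)
    have := congrFun this 0
    simp at this
  exact ⟨fun B => (Pla.supp_iff hI h2 B).trans (Pla.supp_iff hI h1 B).symm, Pla.inj hI h1,
    Pla.conv hI h1, Pla.span hI h1⟩

end

end Pool.RP
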