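import Pool.Agent.Lib.MP_9dcace_rp.Fi
import Pool.Agent.Lib.MP_9dcace_rp.Fj
import Pool.Agent.Lib.MP_9dcace_rp.M7b
import Pool.Agent.Lib.MP_9dcace_rp.Ge0

/-!
MP_9dcace_co, (REAL) in the formulation of the problem: every 3-polytope with `n` vertices has a
combinatorially equivalent copy with coordinates, facet functionals and inverse margins at most `f n`.
-/

set_option autoImplicit false

open Classical

namespace Pool.RP

open Pool.SX

private noncomputable def fkG (V : Finset (Fin 3 → ℝ)) (X : {v // v ∈ V} → E3)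
    (x : Fin 3 → ℝ) : Fin 3 → ℝ :=
  if h : x ∈ V then X ⟨x, h⟩ else 0

private theorem fkG_mem (V : Finset (Fin 3 → ℝ)) (X : {v // v ∈ V} → E3) (x : Fin 3 → ℝ)
    (hx : x ∈ V) : fkG V X x = X ⟨x, hx⟩ := by
  unfold fkG
  rw [dif_pos hx]

/-- the set form of the supporting property -/
private theorem fk_supp (V : Finset (Fin 3 → ℝ)) (G : (Fin 3 → ℝ) → (Fin 3 → ℝ))
    (P : {v // v ∈ V} → Fin 3 → ℝ) (hP : ∀ v : {v // v ∈ V}, G v = P v)
    (B : Finset (Fin 3 → ℝ)) (A : Finset {v // v ∈ V})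
    (hA : ∀ v : {v // v ∈ V}, v ∈ A ↔ (v : Fin 3 → ℝ) ∈ B) :
    (∃ a : Fin 3 → ℝ, ∃ c : ℝ,
        (∀ x ∈ V, ∑ i, a i * G x i ≤ c) ∧
        ∀ x ∈ V, (x ∈ B ↔ ∑ i, a i * G x i = c)) ↔ Pool.SX.Supp P A := by
  constructor
  · rintro ⟨a, c, h1, h2⟩
    refine ⟨a, c, fun v => ?_, fun v => ?_⟩
    · have := h1 v v.2
      rw [hP v] at this
      exact this
    · have := h2 v v.2
      rw [hP v] at this
      exact (hA v).trans this
  · rintro ⟨a, c, h1, h2⟩
    refine ⟨a, c, fun x hx => ?_, fun x hx => ?_⟩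
    · have := h1 ⟨x, hx⟩
      rw [← hP ⟨x, hx⟩] at this
      exact this
    · have := h2 ⟨x, hx⟩
      rw [← hP ⟨x, hx⟩] at this
      exact (hA ⟨x, hx⟩).symm.trans this

theorem fk_shift {V : Type} [Fintype V] (x : V → E3) (c : E3) (B : Finset V) :
    Supp (fun v => x v - c) B ↔ Supp x B := by
  constructor
  · rintro ⟨a, d, h1, h2⟩
    refine ⟨a, d + dp a c, fun v => ?_, fun v => ?_⟩
    · have h3 : dp a (x v - c) ≤ d := h1 v
      rw [dp_sub] at h3
      change dp a (x v) ≤ _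
      linarith
    · rw [h2 v]
      change dp a (x v - c) = d ↔ dp a (x v) = _
      rw [dp_sub]
      constructor <;> intro h3 <;> linarith
  · rintro ⟨a, d, h1, h2⟩
    refine ⟨a, d - dp a c, fun v => ?_, fun v => ?_⟩
    · have h3 : dp a (x v) ≤ d := h1 v
      change dp a (x v - c) ≤ _
      rw [dp_sub]
      linarith
    · rw [h2 v]
      change dp a (x v) = d ↔ dp a (x v - c) = _
      rw [dp_sub]
      constructor <;> intro h3 <;> linarith

/-- every 3-polytope has a combinatorially equivalent copy with polynomial margins -/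
theorem real_margins : ∃ f : Polynomial ℕ, ∀ V : Finset (Fin 3 → ℝ),
      (∀ v ∈ V, v ∉ convexHull ℝ ((V : Set (Fin 3 → ℝ)) \ {v})) →
      affineSpan ℝ (V : Set (Fin 3 → ℝ)) = ⊤ →
      ∃ g : (Fin 3 → ℝ) → (Fin 3 → ℝ),
        Set.InjOn g (V : Set (Fin 3 → ℝ)) ∧
        (∀ v ∈ V, ∀ i : Fin 3, |g v i| ≤ (f.eval V.card : ℕ)) ∧
        affineSpan ℝ (g '' (V : Set (Fin 3 → ℝ))) = ⊤ ∧
        (∀ v ∈ V, g v ∉ convexHull ℝ (g '' ((V : Set (Fin 3 → ℝ)) \ {v}))) ∧
        (∀ S ⊆ V,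
          ((∃ a : Fin 3 → ℝ, ∃ c : ℝ,
              (∀ x ∈ V, ∑ i, a i * x i ≤ c) ∧
              ∀ x ∈ V, (x ∈ S ↔ ∑ i, a i * x i = c)) ↔
           (∃ a : Fin 3 → ℝ, ∃ c : ℝ,
              (∀ x ∈ V, ∑ i, a i * g x i ≤ c) ∧
              ∀ x ∈ V, (x ∈ S ↔ ∑ i, a i * g x i = c)))) ∧
        ∀ B, Pool.SD.IsFacet V B → ∃ a : Fin 3 → ℝ, (∀ i, |a i| ≤ (f.eval V.card : ℕ)) ∧
          (∀ v ∈ B, ∑ i, a i * g v i = 1) ∧
          ∀ v ∈ V, v ∉ B → ∑ i, a i * g v i ≤ 1 - 1 / ((f.eval V.card : ℕ) : ℝ) := by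
  refine ⟨realPoly, fun V hconv hspan => ?_⟩
  obtain ⟨c, A, instA, q, hP⟩ := exists_Pol V hconv hspan
  obtain ⟨X, al, hX, hal, hon, hoff⟩ := real_all hP
  have hcard : Fintype.card {v // v ∈ V} = V.card := Fintype.card_coe V
  rw [hcard] at hX hal hoff
  have hne : Nonempty {v // v ∈ V} := by
    by_contra hne
    rw [not_nonempty_iff] at hne
    have h2 := hP.spanP (fun _ => 1) 0 (fun v => hne.elim v)
    have := congrFun h2 0
    simp at this
  have hVpos : 0 < V.card := by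
    rw [← hcard]
    exact Fintype.card_pos
  have hfpos : (0 : ℝ) < (realPoly.eval V.card : ℕ) := by
    rw [realPoly_eval]
    have : 0 < (9 * V.card) ^ 1834 := by positivity
    exact_mod_cast this
  obtain ⟨h1, h2, h3, h4⟩ := m7 hP (X := X) (al := al) (be := fun _ => 1)
    (fun v f hf => hon v f hf) (fun v f hf => by
      have h5 := hoff v f hf
      have h6 : 0 < 1 / ((realPoly.eval V.card : ℕ) : ℝ) := by positivity
      linarith)
  refine ⟨fkG V X, ?_, ?_, ?_, ?_, ?_, ?_⟩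
  · intro x hx y hy hxy
    have hx' : x ∈ V := Finset.mem_coe.mp hx
    have hy' : y ∈ V := Finset.mem_coe.mp hy
    rw [fkG_mem V X x hx', fkG_mem V X y hy'] at hxy
    exact congrArg Subtype.val (h2 hxy)
  · intro v hv i
    rw [fkG_mem V X v hv]
    exact hX _ i
  · have e : fkG V X '' (V : Set (Fin 3 → ℝ)) = Set.range X := by
      ext y
      constructor
      · rintro ⟨x, hx, rfl⟩
        have hx' : x ∈ V := Finset.mem_coe.mp hx
        exact ⟨⟨x, hx'⟩, (fkG_mem V X x hx').symm⟩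
      · rintro ⟨v, rfl⟩
        exact ⟨v.1, Finset.mem_coe.mpr v.2, fkG_mem V X v.1 v.2⟩
    rw [e]
    exact h4
  · intro v hv
    have e : fkG V X '' ((V : Set (Fin 3 → ℝ)) \ {v}) = X '' {(⟨v, hv⟩ : {v // v ∈ V})}ᶜ := by
      ext y
      constructor
      · rintro ⟨x, ⟨hx, hxv⟩, rfl⟩
        have hx' : x ∈ V := Finset.mem_coe.mp hx
        refine ⟨⟨x, hx'⟩, ?_, (fkG_mem V X x hx').symm⟩
        intro h
        exact hxv (congrArg Subtype.val (Set.mem_singleton_iff.mp h))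
      · rintro ⟨w, hw, rfl⟩
        refine ⟨w.1, ⟨Finset.mem_coe.mpr w.2, ?_⟩, fkG_mem V X w.1 w.2⟩
        intro h
        exact hw (Set.mem_singleton_iff.mpr (Subtype.ext (Set.mem_singleton_iff.mp h)))
    rw [e, fkG_mem V X v hv]
    exact h3 ⟨v, hv⟩
  · intro B _
    have hA : ∀ v : {v // v ∈ V}, v ∈ Finset.univ.filter
        (fun v : {v // v ∈ V} => (v : Fin 3 → ℝ) ∈ B) ↔ (v : Fin 3 → ℝ) ∈ B := by
      intro v
      simp
    have k1 := fk_supp V (fun x => x) (fun v => (v : Fin 3 → ℝ)) (fun _ => rfl) B _ hA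
    have k2 := fk_supp V (fkG V X) X (fun v => fkG_mem V X v.1 v.2) B _ hA
    exact k1.trans ((fk_shift (fun v : {v // v ∈ V} => (v : E3)) c _).symm.trans
      ((h1 _).trans k2.symm))
  · intro B hB
    obtain ⟨f, hf⟩ := (fj_facet_iff hP B).1 hB
    refine ⟨al f, hal f, fun v hv => ?_, fun v hv hvB => ?_⟩
    · have h5 := (hf v).1 hv
      rw [fkG_mem V X v h5.1]
      exact hon ⟨v, h5.1⟩ f h5.2
    · rw [fkG_mem V X v hv]
      exact hoff ⟨v, hv⟩ f fun h5 => hvB ((hf v).2 ⟨hv, h5⟩)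

end Pool.RP
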