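import Pool.Agent.Lib.MP_9dcace_rp.Base
import Pool.Agent.Lib.MP_9dcace_sx.G11

/-!
MP_9dcace_co, RP library, row Ge1: elementary facts on `Pol x q`, and the stacked polytope
`P : V ⊕ B → E3` (a point `(1 + ε) * average` over each facet `e b`; the facets outside the range of
`e` are triangles). Main result: `Pol.stack`.
-/

set_option autoImplicit false

open Classical

namespace Pool.RP

open Pool.SX

/-! ### general lemmas -/

theorem Ge1_dp_sum {ι : Type} (a : E3) (s : Finset ι) (y : ι → E3) :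
    dp a (∑ i ∈ s, y i) = ∑ i ∈ s, dp a (y i) := by
  induction s using Finset.induction_on with
  | empty => simp [dp_def]
  | insert i s hi ih => rw [Finset.sum_insert hi, Finset.sum_insert hi, dp_add, ih]

theorem Ge1_lin_left (y : E3) : IsLinearMap ℝ (fun z : E3 => dp z y) :=
  ⟨fun a b => dp_add_left a b y, fun t a => by rw [dp_smul_left, smul_eq_mul]⟩

theorem Ge1_hull_lt {ι : Type} {p : ι → E3} {a y : E3} {c : ℝ}
    (ha : a ∈ convexHull ℝ (Set.range p)) (hy : ∀ i, dp (p i) y < c) : dp a y < c :=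
  convexHull_min (s := Set.range p) (t := {z | dp z y < c}) (by rintro _ ⟨i, rfl⟩; exact hy i)
    (convex_halfSpace_lt (Ge1_lin_left y) c) ha

theorem Ge1_hull_le {ι : Type} {p : ι → E3} {a y : E3} {c : ℝ}
    (ha : a ∈ convexHull ℝ (Set.range p)) (hy : ∀ i, dp (p i) y ≤ c) : dp a y ≤ c :=
  convexHull_min (s := Set.range p) (t := {z | dp z y ≤ c}) (by rintro _ ⟨i, rfl⟩; exact hy i)
    (convex_halfSpace_le (Ge1_lin_left y) c) ha

theorem Ge1_small {ι : Type} [Finite ι] (s t : ι → ℝ) (hs : ∀ i, s i < 1) :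
    ∃ δ : ℝ, 0 < δ ∧ ∀ i, s i + δ * t i < 1 ∧ s i - δ * t i < 1 := by
  have h1 : ∀ᶠ δ in nhdsWithin (0 : ℝ) (Set.Ioi 0), ∀ i, s i + δ * t i < 1 ∧ s i - δ * t i < 1 := by
    rw [Filter.eventually_all]
    intro i
    have c1 : Filter.Tendsto (fun δ : ℝ => s i + δ * t i) (nhdsWithin 0 (Set.Ioi 0))
        (nhds (s i + 0 * t i)) :=
      ((continuous_const.add (continuous_id.mul continuous_const)).tendsto 0).mono_left
        nhdsWithin_le_nhds
    have c2 : Filter.Tendsto (fun δ : ℝ => s i - δ * t i) (nhdsWithin 0 (Set.Ioi 0))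
        (nhds (s i - 0 * t i)) :=
      ((continuous_const.sub (continuous_id.mul continuous_const)).tendsto 0).mono_left
        nhdsWithin_le_nhds
    have e1 := c1.eventually_lt_const (u := 1) (by rw [zero_mul, add_zero]; exact hs i)
    have e2 := c2.eventually_lt_const (u := 1) (by rw [zero_mul, sub_zero]; exact hs i)
    exact e1.and e2
  obtain ⟨δ, h2, h3⟩ := (h1.and self_mem_nhdsWithin).exists
  exact ⟨δ, h3, h2⟩

/-- an extreme point is not the middle of a segment -/
theorem Ge1_ext_mid {ι : Type} (p : ι → E3) (i : ι) (hi : p i ∉ convexHull ℝ (p '' {j | j ≠ i}))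
    (d : E3) (h1 : p i + d ∈ convexHull ℝ (Set.range p)) (h2 : p i - d ∈ convexHull ℝ (Set.range p)) :
    d = 0 := by
  by_contra hd
  have hr : Set.range p = insert (p i) (p '' {j | j ≠ i}) := by
    ext z
    constructor
    · rintro ⟨j, rfl⟩
      by_cases hj : j = i
      · left; rw [hj]
      · right; exact ⟨j, hj, rfl⟩
    · rintro (rfl | ⟨j, _, rfl⟩)
      · exact ⟨i, rfl⟩
      · exact ⟨j, rfl⟩
  rcases (p '' {j | j ≠ i}).eq_empty_or_nonempty with he | hne
  · rw [hr, he, insert_empty_eq, convexHull_singleton, Set.mem_singleton_iff] at h1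
    exact hd (by simpa using h1)
  · rw [hr, convexHull_insert hne, convexJoin_singleton_left] at h1 h2
    simp only [Set.mem_iUnion] at h1 h2
    obtain ⟨w1, hw1, a1, b1, ha1, hb1, hab1, e1⟩ := h1
    obtain ⟨w2, hw2, a2, b2, ha2, hb2, hab2, e2⟩ := h2
    have f1 : d = b1 • (w1 - p i) := by
      have : a1 = 1 - b1 := by linarith
      rw [this] at e1
      have e3 : d = (1 - b1) • p i + b1 • w1 - p i := by rw [e1]; abel
      rw [e3, sub_smul, one_smul, smul_sub]
      abel
    have f2 : -d = b2 • (w2 - p i) := by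
      have : a2 = 1 - b2 := by linarith
      rw [this] at e2
      have e3 : -d = (1 - b2) • p i + b2 • w2 - p i := by rw [e2]; abel
      rw [e3, sub_smul, one_smul, smul_sub]
      abel
    have g1 : 0 < b1 := lt_of_le_of_ne hb1 (fun h0 => hd (by rw [f1, ← h0, zero_smul]))
    have g2 : 0 < b2 := lt_of_le_of_ne hb2
      (fun h0 => hd (by rw [← neg_neg d, f2, ← h0, zero_smul, neg_zero]))
    have hs : (0 : ℝ) < b1 + b2 := by linarith
    apply hi
    have e4 : p i = (b1 / (b1 + b2)) • w1 + (b2 / (b1 + b2)) • w2 := by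
      funext k
      have k1 := congrFun f1 k
      have k2 := congrFun f2 k
      simp only [Pi.smul_apply, Pi.sub_apply, Pi.neg_apply, smul_eq_mul, Pi.add_apply] at k1 k2 ⊢
      field_simp
      linarith
    rw [e4]
    refine (convex_convexHull ℝ _) hw1 hw2 (by positivity) (by positivity) ?_
    field_simp

variable {V A : Type} [Fintype V] [Fintype A] {x : V → E3} {q : A → E3}

/-! ### elementary facts -/

theorem Pol.symm1 (h : Pol x q) : Pol q x where
  le := fun f v => by rw [dp_comm]; exact h.le v f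
  hullV := fun y hy => h.hullA y (fun v => by rw [dp_comm]; exact hy v)
  hullA := fun z hz => h.hullV z (fun f => by rw [dp_comm]; exact hz f)
  extV := h.extA
  extA := h.extV

theorem Pol.injV (h : Pol x q) : Function.Injective x := by
  intro u v huv
  by_contra hne
  exact h.extV v (by rw [← huv]; exact subset_convexHull ℝ _ ⟨u, hne, rfl⟩)

theorem Pol.injA (h : Pol x q) : Function.Injective q := h.symm1.injV

/-- a point strictly inside all facets is strictly inside every supporting half space -/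
theorem Pol.int_lt (h : Pol x q) {a y : E3} (ha : ∀ v, dp a (x v) ≤ 1) (hy : ∀ g, dp (q g) y < 1) :
    dp a y < 1 :=
  Ge1_hull_lt (h.hullA a ha) hy

theorem Pol.spanF (h : Pol x q) (f : A) (d : E3)
    (hd : ∀ v, dp (q f) (x v) = 1 → dp d (x v) = 0) : d = 0 := by
  obtain ⟨δ, hδ, h1⟩ := Ge1_small (ι := {v : V // dp (q f) (x v) < 1})
    (fun v => dp (q f) (x v.1)) (fun v => dp d (x v.1)) (fun v => v.2)
  have h2 : δ • d = 0 := by
    refine Ge1_ext_mid q f (h.extA f) (δ • d) (h.hullA _ fun v => ?_) (h.hullA _ fun v => ?_)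
    · rw [dp_add_left, dp_smul_left]
      rcases (h.le v f).lt_or_eq with h3 | h3
      · exact (h1 ⟨v, h3⟩).1.le
      · rw [hd v h3, h3]; simp
    · rw [dp_sub_left, dp_smul_left]
      rcases (h.le v f).lt_or_eq with h3 | h3
      · exact (h1 ⟨v, h3⟩).2.le
      · rw [hd v h3, h3]; simp
  exact (smul_eq_zero.mp h2).resolve_left hδ.ne'

theorem Pol.spanV (h : Pol x q) (v : V) (d : E3)
    (hd : ∀ f, dp (q f) (x v) = 1 → dp (q f) d = 0) : d = 0 :=
  h.symm1.spanF v d (fun f hf => by rw [dp_comm]; exact hd f (by rw [dp_comm]; exact hf))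

/-- a facet has a third vertex -/
theorem Pol.exF (h : Pol x q) (f : A) (u v : V) : ∃ w, w ≠ u ∧ w ≠ v ∧ dp (q f) (x w) = 1 := by
  by_contra hcon
  push Not at hcon
  obtain ⟨d, hd, h1, h2⟩ := exists_orthG1 (x u) (x v)
  refine hd (h.spanF f d fun w hw => ?_)
  by_cases hu : w = u
  · rw [hu]; exact h1
  · by_cases hv : w = v
    · rw [hv]; exact h2
    · exact absurd hw (hcon w hu hv)

/-- a vertex lies on a third facet -/
theorem Pol.exV (h : Pol x q) (v : V) (f g : A) : ∃ k, k ≠ f ∧ k ≠ g ∧ dp (q k) (x v) = 1 := by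
  obtain ⟨k, h1, h2, h3⟩ := h.symm1.exF v f g
  exact ⟨k, h1, h2, by rw [dp_comm]; exact h3⟩

/-- no three vertices on a line -/
theorem Pol.line3 (h : Pol x q) {a b : E3} (hab : a ≠ b) {u v w : V} (huv : u ≠ v) (hvw : v ≠ w)
    (hwu : w ≠ u) (au : dp a (x u) = 1) (av : dp a (x v) = 1) (aw : dp a (x w) = 1)
    (bu : dp b (x u) = 1) (bv : dp b (x v) = 1) (bw : dp b (x w) = 1) : False := by
  obtain ⟨n, hn⟩ : ∃ n, n = cr a b := ⟨_, rfl⟩
  have hn0 : n ≠ 0 := by
    intro h0
    apply hab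
    funext i
    have e : a i * dp b (x u) - b i * dp a (x u) = cr (x u) n i := by
      rw [hn]
      fin_cases i <;>
        simp only [dp_def, cr, Matrix.cons_val_zero, Matrix.cons_val_one, Matrix.cons_val,
          Fin.zero_eta, Fin.mk_one, Fin.reduceFinMk] <;> ring
    rw [bu, au, h0] at e
    have e2 : cr (x u) 0 i = 0 := by
      fin_cases i <;> simp [cr]
    rw [e2] at e
    linarith
  have hN : dp n n ≠ 0 := (dp_self_pos hn0).ne'
  have key : ∀ z z' : V, dp a (x z) = 1 → dp a (x z') = 1 → dp b (x z) = 1 → dp b (x z') = 1 →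
      ∀ i, dp n n * (x z i - x z' i) = (dp n (x z) - dp n (x z')) * n i := by
    intro z z' h1 h2 h3 h4 i
    have e := G3_par (a := x z - x z') (x := a) (y := b)
      (by rw [dp_comm, dp_sub, h1, h2, sub_self]) (by rw [dp_comm, dp_sub, h3, h4, sub_self]) i
    rw [← hn, dp_sub, Pi.sub_apply] at e
    exact e
  have mid : ∀ z1 z2 z3 : V, (∀ z, z = z1 ∨ z = z2 ∨ z = z3 → dp a (x z) = 1 ∧ dp b (x z) = 1) →
      dp n (x z1) < dp n (x z2) → dp n (x z2) < dp n (x z3) → False := by
    intro z1 z2 z3 hz h12 h23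
    have a1 := hz z1 (Or.inl rfl)
    have a2 := hz z2 (Or.inr (Or.inl rfl))
    have a3 := hz z3 (Or.inr (Or.inr rfl))
    apply h.extV z2
    have hs : 0 < dp n (x z3) - dp n (x z1) := by linarith
    have e : x z2 = ((dp n (x z3) - dp n (x z2)) / (dp n (x z3) - dp n (x z1))) • x z1 +
        ((dp n (x z2) - dp n (x z1)) / (dp n (x z3) - dp n (x z1))) • x z3 := by
      funext i
      have k1 := key z2 z1 a2.1 a1.1 a2.2 a1.2 i
      have k3 := key z3 z1 a3.1 a1.1 a3.2 a1.2 i
      have k4 : (dp n (x z3) - dp n (x z1)) * (x z2 i - x z1 i) =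
          (dp n (x z2) - dp n (x z1)) * (x z3 i - x z1 i) := by
        apply mul_left_cancel₀ hN
        linear_combination (dp n (x z3) - dp n (x z1)) * k1 - (dp n (x z2) - dp n (x z1)) * k3
      simp only [Pi.smul_apply, smul_eq_mul, Pi.add_apply]
      field_simp
      linarith
    rw [e]
    have n1 : z1 ≠ z2 := fun h0 => by rw [h0] at h12; exact lt_irrefl _ h12
    have n3 : z3 ≠ z2 := fun h0 => by rw [h0] at h23; exact lt_irrefl _ h23
    have m1 : x z1 ∈ convexHull ℝ (x '' {z | z ≠ z2}) := subset_convexHull ℝ _ ⟨z1, n1, rfl⟩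
    have m3 : x z3 ∈ convexHull ℝ (x '' {z | z ≠ z2}) := subset_convexHull ℝ _ ⟨z3, n3, rfl⟩
    refine (convex_convexHull ℝ _) m1 m3 (div_nonneg (by linarith) hs.le)
      (div_nonneg (by linarith) hs.le) ?_
    rw [← add_div, div_eq_one_iff_eq hs.ne']
    ring
  have ne : ∀ z z' : V, z ≠ z' → dp a (x z) = 1 → dp a (x z') = 1 → dp b (x z) = 1 →
      dp b (x z') = 1 → dp n (x z) ≠ dp n (x z') := by
    intro z z' hzz h1 h2 h3 h4 he
    apply hzz
    apply h.injV
    funext i
    have k := key z z' h1 h2 h3 h4 i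
    rw [he, sub_self, zero_mul] at k
    have := (mul_eq_zero.mp k).resolve_left hN
    linarith
  have all : ∀ z, (z = u ∨ z = v ∨ z = w) → dp a (x z) = 1 ∧ dp b (x z) = 1 := by
    rintro z (rfl | rfl | rfl)
    · exact ⟨au, bu⟩
    · exact ⟨av, bv⟩
    · exact ⟨aw, bw⟩
  rcases lt_or_gt_of_ne (ne u v huv au av bu bv) with h1 | h1 <;>
    rcases lt_or_gt_of_ne (ne v w hvw av aw bv bw) with h2 | h2 <;>
    rcases lt_or_gt_of_ne (ne w u hwu aw au bw bu) with h3 | h3
  · linarith
  · exact mid u v w (fun z hz => all z (by tauto)) h1 h2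
  · exact mid w u v (fun z hz => all z (by tauto)) h3 h1
  · exact mid u w v (fun z hz => all z (by tauto)) h3 h2
  · exact mid v w u (fun z hz => all z (by tauto)) h2 h3
  · exact mid v u w (fun z hz => all z (by tauto)) h1 h3
  · exact mid w v u (fun z hz => all z (by tauto)) h2 h1
  · linarith

/-- three different vertices determine their facet -/
theorem Pol.facet_unique (h : Pol x q) {f g : A} {u v w : V} (huv : u ≠ v) (hvw : v ≠ w)
    (hwu : w ≠ u) (fu : dp (q f) (x u) = 1) (fv : dp (q f) (x v) = 1) (fw : dp (q f) (x w) = 1)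
    (gu : dp (q g) (x u) = 1) (gv : dp (q g) (x v) = 1) (gw : dp (q g) (x w) = 1) : f = g := by
  by_contra hfg
  exact h.line3 (fun h0 => hfg (h.injA h0)) huv hvw hwu fu fv fw gu gv gw

/-- three different facets have at most one common vertex -/
theorem Pol.vertex_unique (h : Pol x q) {u v : V} {f g k : A} (hfg : f ≠ g) (hgk : g ≠ k)
    (hkf : k ≠ f) (fu : dp (q f) (x u) = 1) (gu : dp (q g) (x u) = 1) (ku : dp (q k) (x u) = 1)
    (fv : dp (q f) (x v) = 1) (gv : dp (q g) (x v) = 1) (kv : dp (q k) (x v) = 1) : u = v := by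
  refine h.symm1.facet_unique hfg hgk hkf ?_ ?_ ?_ ?_ ?_ ?_ <;> (rw [dp_comm]; assumption)

theorem Pol.pos_of_le (h : Pol x q) {a : E3} (ha : a ≠ 0) {c : ℝ} (hc : ∀ v, dp a (x v) ≤ c) :
    0 < c := by
  by_contra hc0
  push Not at hc0
  have haa := dp_self_pos ha
  set M : ℝ := ∑ f, |dp (q f) a| with hM
  have hM' : ∀ f, dp (q f) a ≤ M := fun f =>
    (le_abs_self _).trans (Finset.single_le_sum (f := fun f => |dp (q f) a|)
      (fun i _ => abs_nonneg _) (Finset.mem_univ f))
  have hM0 : 0 ≤ M := Finset.sum_nonneg fun i _ => abs_nonneg _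
  have h1 : ((M + 1) / dp a a) • a ∈ convexHull ℝ (Set.range q) := by
    apply h.hullA
    intro v
    rw [dp_smul_left]
    have h2 : 0 ≤ (M + 1) / dp a a := by positivity
    have h3 : dp a (x v) ≤ 0 := (hc v).trans hc0
    nlinarith [mul_nonneg h2 (neg_nonneg.mpr h3)]
  have h2 := Ge1_hull_le h1 hM'
  rw [dp_smul_left, div_mul_cancel₀ _ haa.ne'] at h2
  linarith

/-! ### centres of the facets -/

/-- the average of the vertices of the facet `f` -/
noncomputable def cen (x : V → E3) (q : A → E3) (f : A) : E3 :=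
  ((Finset.univ.filter (fun v => dp (q f) (x v) = 1)).card : ℝ)⁻¹ •
    ∑ v ∈ Finset.univ.filter (fun v => dp (q f) (x v) = 1), x v

omit [Fintype A] in
theorem Ge1_dp_cen (a : E3) (f : A) : dp a (cen x q f) =
    ((Finset.univ.filter (fun v => dp (q f) (x v) = 1)).card : ℝ)⁻¹ *
      ∑ v ∈ Finset.univ.filter (fun v => dp (q f) (x v) = 1), dp a (x v) := by
  rw [cen, dp_smul, Ge1_dp_sum]

theorem Pol.card_pos (h : Pol x q) (f : A) :
    (0 : ℝ) < ((Finset.univ.filter (fun v => dp (q f) (x v) = 1)).card : ℝ) := by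
  rw [Nat.cast_pos, Finset.card_pos]
  obtain ⟨d, hd, h1, -⟩ := exists_orthG1 (0 : E3) 0
  by_contra hne
  rw [Finset.not_nonempty_iff_eq_empty, Finset.filter_eq_empty_iff] at hne
  exact hd (h.spanF f d fun v hv => absurd hv (hne (Finset.mem_univ v)))

theorem Pol.cen_self (h : Pol x q) (f : A) : dp (q f) (cen x q f) = 1 := by
  rw [Ge1_dp_cen, Finset.sum_congr rfl (g := fun _ => (1 : ℝ))
    (fun v hv => (Finset.mem_filter.mp hv).2), Finset.sum_const, nsmul_eq_mul, mul_one,
    inv_mul_cancel₀ (h.card_pos f).ne']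

theorem Pol.cen_lt (h : Pol x q) (f : A) {a : E3} (ha : ∀ v, dp a (x v) ≤ 1) {v : V}
    (hv : dp (q f) (x v) = 1) (hlt : dp a (x v) < 1) : dp a (cen x q f) < 1 := by
  rw [Ge1_dp_cen, inv_mul_lt_iff₀ (h.card_pos f), mul_one]
  have h1 : ∑ v ∈ Finset.univ.filter (fun v => dp (q f) (x v) = 1), dp a (x v) <
      ∑ v ∈ Finset.univ.filter (fun v => dp (q f) (x v) = 1), (1 : ℝ) :=
    Finset.sum_lt_sum (fun v _ => ha v) ⟨v, Finset.mem_filter.mpr ⟨Finset.mem_univ _, hv⟩, hlt⟩
  rw [Finset.sum_const, nsmul_eq_mul, mul_one] at h1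
  exact h1

theorem Pol.cen_lt_of_ne (h : Pol x q) {f g : A} (hfg : g ≠ f) : dp (q g) (cen x q f) < 1 := by
  by_contra hcon
  apply hfg
  apply h.injA
  rw [← sub_eq_zero]
  refine h.spanF f _ fun v hv => ?_
  rcases (h.le v g).lt_or_eq with h1 | h1
  · exact absurd (h.cen_lt f (fun v => h.le v g) hv h1) hcon
  · rw [dp_sub_left, hv, h1, sub_self]

/-- the average of the facets at `v` exposes `v` -/
theorem Pol.av_self (h : Pol x q) (v : V) : dp (cen q x v) (x v) = 1 := by
  rw [dp_comm]; exact h.symm1.cen_self v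

theorem Pol.av_lt (h : Pol x q) {u v : V} (huv : u ≠ v) : dp (cen q x v) (x u) < 1 := by
  rw [dp_comm]; exact h.symm1.cen_lt_of_ne huv

theorem Pol.av_le (h : Pol x q) (u v : V) : dp (cen q x v) (x u) ≤ 1 := by
  by_cases huv : u = v
  · rw [huv, h.av_self]
  · exact (h.av_lt huv).le

theorem Pol.av_cen (h : Pol x q) (v : V) (f : A) : dp (cen q x v) (cen x q f) < 1 := by
  obtain ⟨u, hu, -, hf⟩ := h.exF f v v
  exact h.cen_lt f (fun u => h.av_le u v) hf (h.av_lt hu)

/-! ### the stacked polytope -/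

section stack

variable {B : Type} [Fintype B]

/-- the stacked polytope -/
noncomputable def stk (x : V → E3) (q : A → E3) (e : B → A) (ε : ℝ) : V ⊕ B → E3 :=
  Sum.elim x (fun b => (1 + ε) • cen x q (e b))

omit [Fintype A] [Fintype B] in
theorem stk_inl (x : V → E3) (q : A → E3) (e : B → A) (ε : ℝ) (v : V) :
    stk x q e ε (Sum.inl v) = x v := rfl

omit [Fintype A] [Fintype B] in
theorem stk_inr (x : V → E3) (q : A → E3) (e : B → A) (ε : ℝ) (b : B) :
    stk x q e ε (Sum.inr b) = (1 + ε) • cen x q (e b) := rfl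

/-- the height `ε` is small enough -/
structure StkOK (x : V → E3) (q : A → E3) (e : B → A) (ε : ℝ) : Prop where
  pol : Pol x q
  inj : Function.Injective e
  tri : ∀ f, f ∉ Set.range e → (Finset.univ.filter (fun v => dp (q f) (x v) = 1)).card = 3
  pos : 0 < ε
  e1 : ∀ b g, g ≠ e b → (1 + ε) * ((1 + dp (q g) (cen x q (e b))) / 2) < 1
  e2 : ∀ v b, (1 + ε) * dp (cen q x v) (cen x q (e b)) < 1

theorem exists_stkOK (h : Pol x q) (e : B → A) (he : Function.Injective e)
    (h3 : ∀ f, f ∉ Set.range e → (Finset.univ.filter (fun v => dp (q f) (x v) = 1)).card = 3) :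
    ∃ ε : ℝ, StkOK x q e ε := by
  let s1 : B × A → ℝ := fun p => if p.2 = e p.1 then 0 else (1 + dp (q p.2) (cen x q (e p.1))) / 2
  let s2 : V × B → ℝ := fun p => dp (cen q x p.1) (cen x q (e p.2))
  obtain ⟨ε, hε, h1⟩ := Ge1_small (ι := (B × A) ⊕ (V × B)) (Sum.elim s1 s2) (Sum.elim s1 s2) (by
    rintro (p | p)
    · show s1 p < 1
      show (if p.2 = e p.1 then 0 else (1 + dp (q p.2) (cen x q (e p.1))) / 2) < (1 : ℝ)
      split_ifs with hp
      · norm_num
      · have := h.cen_lt_of_ne hp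
        linarith
    · exact h.av_cen p.1 (e p.2))
  refine ⟨ε, h, he, h3, hε, fun b g hg => ?_, fun v b => ?_⟩
  · have h2 := (h1 (Sum.inl (b, g))).1
    have h4 : Sum.elim s1 s2 (Sum.inl (b, g)) = (1 + dp (q g) (cen x q (e b))) / 2 := by
      show (if g = e b then 0 else (1 + dp (q g) (cen x q (e b))) / 2) = _
      rw [if_neg hg]
    rw [h4] at h2
    linarith
  · have h2 := (h1 (Sum.inr (v, b))).1
    have h4 : Sum.elim s1 s2 (Sum.inr (v, b)) = dp (cen q x v) (cen x q (e b)) := rfl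
    rw [h4] at h2
    linarith

namespace StkOK

variable {e : B → A} {ε : ℝ}

theorem lt1 (h : StkOK x q e ε) {b : B} {g : A} (hg : g ≠ e b) :
    dp (q g) (stk x q e ε (Sum.inr b)) < 1 := by
  rw [stk_inr, dp_smul]
  have h1 := h.e1 b g hg
  have h2 := h.pol.cen_lt_of_ne hg
  have h3 : 0 < 1 + ε := by linarith [h.pos]
  nlinarith

theorem eq1 (h : StkOK x q e ε) (b : B) :
    dp (q (e b)) (stk x q e ε (Sum.inr b)) = 1 + ε := by
  rw [stk_inr, dp_smul, h.pol.cen_self, mul_one]

theorem le1 (h : StkOK x q e ε) (f : A) {z : V ⊕ B} (hz : ∀ b, e b = f → z ≠ Sum.inr b) :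
    dp (q f) (stk x q e ε z) ≤ 1 := by
  rcases z with v | b
  · exact h.pol.le v f
  · by_cases hb : f = e b
    · exact absurd rfl (hz b hb.symm)
    · exact (h.lt1 hb).le

theorem av (h : StkOK x q e ε) (v : V) {z : V ⊕ B} (hz : z ≠ Sum.inl v) :
    dp (cen q x v) (stk x q e ε z) < 1 := by
  rcases z with u | b
  · exact h.pol.av_lt (fun h0 => hz (by rw [h0]))
  · rw [stk_inr, dp_smul]
    exact h.e2 v b

/-- a supporting plane through a stacked point touches only the facet below it -/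
theorem above (h : StkOK x q e ε) {a : E3} (ha : ∀ z, dp a (stk x q e ε z) ≤ 1) {b : B}
    (hb : dp a (stk x q e ε (Sum.inr b)) = 1) {z : V ⊕ B} (hz : dp a (stk x q e ε z) = 1)
    (hzb : z ≠ Sum.inr b) : ∃ v, z = Sum.inl v ∧ dp (q (e b)) (x v) = 1 := by
  have ha' : ∀ v, dp a (x v) ≤ 1 := fun v => ha (Sum.inl v)
  rcases z with v | b'
  · refine ⟨v, rfl, ?_⟩
    by_contra hv
    have hv' : dp (q (e b)) (x v) < 1 := lt_of_le_of_ne (h.pol.le v (e b)) hv
    have hav : dp a (x v) = 1 := hz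
    set s := dp (q (e b)) (x v) with hs
    set t : ℝ := (1 - s) / (2 * (1 + ε - s)) with ht
    have hden : 0 < 1 + ε - s := by linarith [h.pos]
    have ht0 : 0 < t := by
      rw [ht]; exact div_pos (by linarith) (by linarith)
    have ht1 : t < 1 := by
      rw [ht, div_lt_one (by linarith)]
      linarith [h.pos]
    have ht2 : t * (1 + ε - s) = (1 - s) / 2 := by
      rw [ht]; field_simp
    have h1 := h.pol.int_lt ha' (y := t • stk x q e ε (Sum.inr b) + (1 - t) • x v) (by
      intro g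
      rw [dp_add, dp_smul, dp_smul]
      by_cases hg : g = e b
      · rw [hg, h.eq1, ← hs]
        nlinarith
      · have h2 := h.lt1 hg
        have h3 := h.pol.le v g
        nlinarith)
    rw [dp_add, dp_smul, dp_smul, hb, hav] at h1
    linarith
  · exfalso
    have hne : e b ≠ e b' := fun h0 => hzb (by rw [h.inj h0])
    have h1 := h.pol.int_lt ha' (y := (1 / 2 : ℝ) • stk x q e ε (Sum.inr b) +
      (1 / 2 : ℝ) • stk x q e ε (Sum.inr b')) (by
      intro g
      rw [dp_add, dp_smul, dp_smul]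
      by_cases hg : g = e b
      · rw [hg, h.eq1, stk_inr, dp_smul]
        have h2 := h.e1 b' (e b) hne
        linarith
      · by_cases hg' : g = e b'
        · rw [hg', h.eq1, stk_inr, dp_smul]
          have h2 := h.e1 b (e b') hne.symm
          linarith
        · have h2 := h.lt1 hg
          have h3 := h.lt1 hg'
          linarith)
    rw [dp_add, dp_smul, dp_smul, hb, hz] at h1
    linarith

/-- a supporting plane through three old vertices is a facet which is not stacked, or goes through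
a stacked point -/
theorem below (h : StkOK x q e ε) {a : E3} (ha : ∀ z, dp a (stk x q e ε z) ≤ 1) {u v w : V}
    (huv : u ≠ v) (hvw : v ≠ w) (hwu : w ≠ u) (hu : dp a (x u) = 1) (hv : dp a (x v) = 1)
    (hw : dp a (x w) = 1) : ∃ f, f ∉ Set.range e ∧ a = q f := by
  have ha' : ∀ v, dp a (x v) ≤ 1 := fun v => ha (Sum.inl v)
  have h1 : ∃ f, ¬ dp (q f) ((1 / 3 : ℝ) • (x u + x v + x w)) < 1 := by
    by_contra hcon
    push Not at hcon
    have h2 := h.pol.int_lt ha' hcon
    rw [dp_smul, dp_add, dp_add, hu, hv, hw] at h2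
    linarith
  obtain ⟨f, hf⟩ := h1
  rw [dp_smul, dp_add, dp_add] at hf
  have h2 := h.pol.le u f
  have h3 := h.pol.le v f
  have h4 := h.pol.le w f
  have haf : a = q f := by
    by_contra hne
    exact h.pol.line3 hne huv hvw hwu hu hv hw (by linarith) (by linarith) (by linarith)
  refine ⟨f, ?_, haf⟩
  rintro ⟨b, hb⟩
  have h5 := ha (Sum.inr b)
  rw [haf, ← hb, h.eq1] at h5
  linarith [h.pos]

/-- at most two old vertices on a supporting plane through a stacked point -/
theorem above2 (h : StkOK x q e ε) {a : E3} (ha : ∀ z, dp a (stk x q e ε z) ≤ 1) {b : B}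
    (hb : dp a (stk x q e ε (Sum.inr b)) = 1) {u v w : V} (huv : u ≠ v) (hvw : v ≠ w)
    (hwu : w ≠ u) (hu : dp a (x u) = 1) (hv : dp a (x v) = 1) (hw : dp a (x w) = 1) : False := by
  have h1 : ∀ z, dp a (x z) = 1 → dp (q (e b)) (x z) = 1 := by
    intro z hz
    obtain ⟨v', h2, h3⟩ := h.above ha hb (z := Sum.inl z) hz (by simp)
    rw [Sum.inl.inj h2]; exact h3
  refine h.pol.line3 ?_ huv hvw hwu hu hv hw (h1 u hu) (h1 v hv) (h1 w hw)
  intro h0
  rw [h0, h.eq1] at hb
  linarith [h.pos]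

theorem card_le (h : StkOK x q e ε) {a : E3} (ha : ∀ z, dp a (stk x q e ε z) ≤ 1) :
    (Finset.univ.filter fun z => dp a (stk x q e ε z) = 1).card ≤ 3 := by
  by_cases hex : ∃ b, dp a (stk x q e ε (Sum.inr b)) = 1
  · obtain ⟨b, hb⟩ := hex
    have h1 : (Finset.univ.filter fun z => dp a (stk x q e ε z) = 1) ⊆
        insert (Sum.inr b) ((Finset.univ.filter fun v => dp a (x v) = 1).image Sum.inl) := by
      intro z hz
      rw [Finset.mem_filter] at hz
      rw [Finset.mem_insert, Finset.mem_image]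
      by_cases hzb : z = Sum.inr b
      · exact Or.inl hzb
      · right
        obtain ⟨v, hv, -⟩ := h.above ha hb hz.2 hzb
        refine ⟨v, Finset.mem_filter.mpr ⟨Finset.mem_univ _, ?_⟩, hv.symm⟩
        have := hz.2
        rw [hv] at this
        exact this
    have h2 : (Finset.univ.filter fun v => dp a (x v) = 1).card ≤ 2 := by
      by_contra hlt
      push Not at hlt
      obtain ⟨u, v, w, hu, hv, hw, huv, huw, hvw⟩ := Finset.two_lt_card_iff.mp hlt
      rw [Finset.mem_filter] at hu hv hw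
      exact h.above2 ha hb huv hvw huw.symm hu.2 hv.2 hw.2
    calc _ ≤ _ := Finset.card_le_card h1
      _ ≤ ((Finset.univ.filter fun v => dp a (x v) = 1).image Sum.inl).card + 1 :=
        Finset.card_insert_le _ _
      _ ≤ (Finset.univ.filter fun v => dp a (x v) = 1).card + 1 := by
        gcongr
        exact Finset.card_image_le
      _ ≤ 3 := by omega
  · push Not at hex
    have h1 : (Finset.univ.filter fun z => dp a (stk x q e ε z) = 1) ⊆
        (Finset.univ.filter fun v => dp a (x v) = 1).image Sum.inl := by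
      intro z hz
      rw [Finset.mem_filter] at hz
      rw [Finset.mem_image]
      rcases z with v | b
      · exact ⟨v, Finset.mem_filter.mpr ⟨Finset.mem_univ _, hz.2⟩, rfl⟩
      · exact absurd hz.2 (hex b)
    have h2 : (Finset.univ.filter fun v => dp a (x v) = 1).card ≤ 3 := by
      by_contra hlt
      push Not at hlt
      obtain ⟨u, v, w, hu, hv, hw, huv, huw, hvw⟩ :=
        Finset.two_lt_card_iff.mp (show 2 < _ from lt_trans (by norm_num) hlt)
      rw [Finset.mem_filter] at hu hv hw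
      obtain ⟨f, hf, haf⟩ := h.below ha huv hvw huw.symm hu.2 hv.2 hw.2
      rw [haf, h.tri f hf] at hlt
      exact lt_irrefl _ hlt
    exact (Finset.card_le_card h1).trans (Finset.card_image_le.trans h2)

theorem spoly (h : StkOK x q e ε) : SPoly (stk x q e ε) where
  ext := by
    rintro (v | b)
    · refine ⟨cen q x v, fun z hz => ?_⟩
      rw [stk_inl, h.pol.av_self]
      exact h.av v hz
    · refine ⟨q (e b), fun z hz => ?_⟩
      rw [h.eq1]
      refine lt_of_le_of_lt (h.le1 (e b) (fun b' hb' h0 => hz ?_)) (by linarith [h.pos])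
      rw [h0, h.inj hb']
  span := by
    intro a c hc
    by_contra ha
    have h1 := h.pol.pos_of_le ha (c := c) (fun v => (hc (Sum.inl v)).le)
    have h2 := h.pol.pos_of_le (neg_ne_zero.mpr ha) (c := -c)
      (fun v => by rw [dp_neg_left]; exact (neg_le_neg (hc (Sum.inl v)).ge))
    linarith
  simp := by
    intro a c ha hc
    have hc0 : 0 < c := h.pol.pos_of_le ha (fun v => hc (Sum.inl v))
    have h1 := h.card_le (a := c⁻¹ • a) (fun z => by
      rw [dp_smul_left, inv_mul_le_iff₀ hc0, mul_one]; exact hc z)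
    have h2 : (Finset.univ.filter fun z => dp a (stk x q e ε z) = c) =
        (Finset.univ.filter fun z => dp (c⁻¹ • a) (stk x q e ε z) = 1) := by
      ext z
      rw [Finset.mem_filter, Finset.mem_filter, dp_smul_left, inv_mul_eq_one₀ hc0.ne']
      exact ⟨fun h => ⟨h.1, h.2.symm⟩, fun h => ⟨h.1, h.2.symm⟩⟩
    rw [h2]
    exact h1

/-- the plane of an oriented triangle, in normalised form -/
theorem plane (h : StkOK x q e ε) {z1 z2 z3 : V ⊕ B} (ht : Tri (stk x q e ε) z1 z2 z3) :
    ∃ a : E3, (∀ z, dp a (stk x q e ε z) ≤ 1) ∧ dp a (stk x q e ε z1) = 1 ∧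
      dp a (stk x q e ε z2) = 1 ∧ dp a (stk x q e ε z3) = 1 := by
  set P := stk x q e ε with hP
  have hn := h.spoly.cr_ne ht.1 ht.2.1 ht.2.2.1
  rw [← hP] at hn
  obtain ⟨n, hn'⟩ : ∃ n, n = cr (P z2 - P z1) (P z3 - P z1) := ⟨_, rfl⟩
  rw [← hn'] at hn
  have hD : ∀ z, dp n (P z) - dp n (P z1) = D4 P z1 z2 z3 z := by
    intro z
    rw [← dp_sub, hn', dp_cr]
    rfl
  have e1 : D4 P z1 z2 z3 z1 = 0 := by simp only [D4, dt, Pi.sub_apply]; ring
  have e2 : D4 P z1 z2 z3 z2 = 0 := by simp only [D4, dt, Pi.sub_apply]; ring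
  have e3 : D4 P z1 z2 z3 z3 = 0 := by simp only [D4, dt, Pi.sub_apply]; ring
  have hle : ∀ z, dp n (P z) ≤ dp n (P z1) := by
    intro z
    have h1 : D4 P z1 z2 z3 z ≤ 0 := by
      by_cases h1 : z = z1
      · rw [h1, e1]
      · by_cases h2 : z = z2
        · rw [h2, e2]
        · by_cases h3 : z = z3
          · rw [h3, e3]
          · exact (ht.2.2.2 z h1 h2 h3).le
    linarith [hD z]
  have hc : 0 < dp n (P z1) := h.pol.pos_of_le hn (fun v => hle (Sum.inl v))
  refine ⟨(dp n (P z1))⁻¹ • n, fun z => ?_, ?_, ?_, ?_⟩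
  · rw [dp_smul_left, inv_mul_le_iff₀ hc, mul_one]; exact hle z
  · rw [dp_smul_left, inv_mul_cancel₀ hc.ne']
  · rw [dp_smul_left, show dp n (P z2) = dp n (P z1) by linarith [hD z2], inv_mul_cancel₀ hc.ne']
  · rw [dp_smul_left, show dp n (P z3) = dp n (P z1) by linarith [hD z3], inv_mul_cancel₀ hc.ne']

/-- triangles without stacked points -/
theorem tri_vvv (h : StkOK x q e ε) {u v w : V}
    (ht : Tri (stk x q e ε) (Sum.inl u) (Sum.inl v) (Sum.inl w)) :
    ∃ f, f ∉ Set.range e ∧ dp (q f) (x u) = 1 ∧ dp (q f) (x v) = 1 ∧ dp (q f) (x w) = 1 := by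
  obtain ⟨a, ha, h1, h2, h3⟩ := h.plane ht
  obtain ⟨f, hf, haf⟩ := h.below ha (fun h0 => ht.1 (by rw [h0])) (fun h0 => ht.2.1 (by rw [h0]))
    (fun h0 => ht.2.2.1 (by rw [h0])) h1 h2 h3
  exact ⟨f, hf, by rw [← haf]; exact h1, by rw [← haf]; exact h2, by rw [← haf]; exact h3⟩

/-- two stacked points are not adjacent -/
theorem tri_ff (h : StkOK x q e ε) {b b' : B} {z : V ⊕ B}
    (ht : Tri (stk x q e ε) (Sum.inr b) (Sum.inr b') z) : False := by
  obtain ⟨a, ha, h1, h2, -⟩ := h.plane ht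
  obtain ⟨v, hv, -⟩ := h.above ha h1 h2 ht.1.symm
  exact absurd hv (by simp)

/-- triangles with a stacked point -/
theorem tri_vvf (h : StkOK x q e ε) {u v : V} {b : B}
    (ht : Tri (stk x q e ε) (Sum.inl u) (Sum.inl v) (Sum.inr b)) :
    dp (q (e b)) (x u) = 1 ∧ dp (q (e b)) (x v) = 1 := by
  obtain ⟨a, ha, h1, h2, h3⟩ := h.plane ht
  obtain ⟨u', hu, hu'⟩ := h.above ha h3 h1 (by simp)
  obtain ⟨v', hv, hv'⟩ := h.above ha h3 h2 (by simp)
  rw [Sum.inl.inj hu, Sum.inl.inj hv]
  exact ⟨hu', hv'⟩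

/-- a stacked point is adjacent to all vertices of its facet -/
theorem tri_of_inc (h : StkOK x q e ε) {v : V} {b : B} (hv : dp (q (e b)) (x v) = 1) :
    ∃ w, Tri (stk x q e ε) (Sum.inl v) (Sum.inl w) (Sum.inr b) := by
  have hs := h.spoly
  have hc := hs.four_le hs.nonempty
  have hxi : ∀ z, z ≠ Sum.inr b → 0 < dp (-q (e b)) (stk x q e ε z - stk x q e ε (Sum.inr b)) := by
    intro z hz
    rw [dp_neg_left, dp_sub, h.eq1]
    have := h.le1 (e b) (z := z) (fun b' hb' h0 => hz (by rw [h0, h.inj hb']))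
    linarith [h.pos]
  obtain ⟨w0, w1, hw⟩ := hs.exists_tri hc (Sum.inr b)
  obtain ⟨y, -, hy, hmax⟩ := hs.max_in_orbit hc hxi (cen q x v) (fun _ => True)
    ⟨w0, trivial, w1, hw⟩ (fun _ _ _ _ => trivial) (fun _ _ _ _ => trivial)
  have hyb : y ≠ Sum.inr b := by
    obtain ⟨y', hy'⟩ := hy
    exact hy'.1.symm
  have hyv : y = Sum.inl v := by
    by_contra hne
    have h1 := hmax (Sum.inl v) (by simp)
    rw [dp_neg_left, dp_neg_left, dp_sub, dp_sub, dp_sub, dp_sub, h.eq1, stk_inl, hv,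
      h.pol.av_self] at h1
    have h2 := h.av v (z := Sum.inr b) (by simp)
    have h3 := h.av v hne
    have h4 := h.le1 (e b) (z := y) (fun b' hb' h0 => hyb (by rw [h0, h.inj hb']))
    have h5 := h.pos
    nlinarith
  obtain ⟨y', hy'⟩ := hy
  rw [hyv] at hy'
  rcases y' with w | b'
  · exact ⟨w, hy'.rot⟩
  · exact absurd hy'.rot.rot (fun h0 => h.tri_ff h0)

/-- two common vertices of two facets are adjacent -/
theorem tri_of_two (h : StkOK x q e ε) {f g : A} (hfg : f ≠ g) {u v : V} (huv : u ≠ v)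
    (fu : dp (q f) (x u) = 1) (fv : dp (q f) (x v) = 1) (gu : dp (q g) (x u) = 1)
    (gv : dp (q g) (x v) = 1) : ∃ z, Tri (stk x q e ε) (Sum.inl u) (Sum.inl v) z := by
  have hs := h.spoly
  have hc := hs.four_le hs.nonempty
  have hlt : ∀ z, z ≠ Sum.inl u → z ≠ Sum.inl v →
      dp (q f) (stk x q e ε z) + dp (q g) (stk x q e ε z) < 2 := by
    rintro (w | b) hu hv
    · rw [stk_inl]
      have h1 := h.pol.le w f
      have h2 := h.pol.le w g
      by_contra hcon
      exact hfg (h.pol.facet_unique huv (fun h0 => hv (by rw [h0])) (fun h0 => hu (by rw [h0]))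
        fu fv (by linarith) gu gv (by linarith))
    · by_cases hb : e b = f
      · rw [← hb, h.eq1, stk_inr, dp_smul]
        have := h.e1 b g (fun h0 => hfg (by rw [h0, hb]))
        linarith
      · by_cases hb' : e b = g
        · rw [← hb', h.eq1, stk_inr, dp_smul]
          have := h.e1 b f (fun h0 => hfg (by rw [h0, hb']))
          linarith
        · have h1 := h.lt1 (b := b) (g := f) (fun h0 => hb h0.symm)
          have h2 := h.lt1 (b := b) (g := g) (fun h0 => hb' h0.symm)
          linarith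
  obtain ⟨a0, ha0⟩ := hs.ext (Sum.inl u)
  have hxi : ∀ z, z ≠ Sum.inl u → 0 < dp (-a0) (stk x q e ε z - stk x q e ε (Sum.inl u)) := by
    intro z hz
    have := ha0 z hz
    rw [dp_neg_left, dp_sub]
    linarith
  obtain ⟨w0, w1, hw⟩ := hs.exists_tri hc (Sum.inl u)
  obtain ⟨y, -, hy, hmax⟩ := hs.max_in_orbit hc hxi (q f + q g) (fun _ => True)
    ⟨w0, trivial, w1, hw⟩ (fun _ _ _ _ => trivial) (fun _ _ _ _ => trivial)
  have hyu : y ≠ Sum.inl u := by
    obtain ⟨y', hy'⟩ := hy
    exact hy'.1.symm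
  have hvu : (Sum.inl v : V ⊕ B) ≠ Sum.inl u := fun h0 => huv (Sum.inl.inj h0).symm
  have hyv : y = Sum.inl v := by
    by_contra hne
    have h1 := hmax (Sum.inl v) hvu
    have h2 := hlt y hyu hne
    have h3 := hxi (Sum.inl v) hvu
    have e1 : dp (q f + q g) (stk x q e ε (Sum.inl v) - stk x q e ε (Sum.inl u)) = 0 := by
      rw [dp_add_left, dp_sub, dp_sub, stk_inl, stk_inl, fu, fv, gu, gv]
      ring
    have e2 : dp (q f + q g) (stk x q e ε y - stk x q e ε (Sum.inl u)) < 0 := by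
      rw [dp_add_left, dp_sub, dp_sub, stk_inl, fu, gu]
      linarith
    rw [e1, zero_mul] at h1
    exact absurd h1 (not_le.mpr (mul_neg_of_neg_of_pos e2 h3))
  obtain ⟨y', hy'⟩ := hy
  rw [hyv] at hy'
  exact ⟨y', hy'⟩

/-- a facet which is not stacked is a triangle -/
theorem tri_of_not (h : StkOK x q e ε) {f : A} (hf : f ∉ Set.range e) {u v w : V} (huv : u ≠ v)
    (hvw : v ≠ w) (hwu : w ≠ u) (hu : dp (q f) (x u) = 1) (hv : dp (q f) (x v) = 1)
    (hw : dp (q f) (x w) = 1) :
    Tri (stk x q e ε) (Sum.inl u) (Sum.inl v) (Sum.inl w) ∨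
      Tri (stk x q e ε) (Sum.inl u) (Sum.inl w) (Sum.inl v) := by
  have h0 : q f ≠ 0 := by
    intro h0
    rw [h0, dp_def] at hu
    simp at hu
  exact h.spoly.tri_of_support h0 (c := 1) (fun z => h.le1 f (fun b hb => absurd ⟨b, hb⟩ hf))
    (fun h1 => huv (Sum.inl.inj h1)) (fun h1 => hvw (Sum.inl.inj h1))
    (fun h1 => hwu (Sum.inl.inj h1)) hu hv hw

end StkOK

end stack

end Pool.RP
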