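import Pool.Agent.Lib.MP_9dcace_rp.Base

/-!
ROW M1: linear algebra over a realization with margins (m3_crt.md, section 1).
* `Rea inc x q N` : a realization of the incidences with size `N` and margins `1 / N`, with the two
  separation properties (two facets have different vertex sets, dually); `Rea.dual`.
* `Rea.la` : a small linear combination of three facet vectors at a vertex has small coefficients.
* `Rea.cr_le`, `Rea.det_ge`, `Rea.inv_le` : cross products, determinant, inverse of the three facet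
  vectors at a vertex.  By `Rea.dual` the same for three vertices of a facet.
-/

set_option autoImplicit false

namespace Pool.RP

open Pool.SX

/-- a realization of `inc` with vertices `x`, facet vectors `q`, size `N` and margins `1 / N` -/
structure Rea {V A : Type} (inc : V → A → Prop) (x : V → E3) (q : A → E3) (N : ℝ) : Prop where
  N1 : 1 ≤ N
  xb : ∀ v i, |x v i| ≤ N
  qb : ∀ f i, |q f i| ≤ N
  on : ∀ v f, inc v f → dp (q f) (x v) = 1
  off : ∀ v f, ¬ inc v f → dp (q f) (x v) ≤ 1 - 1 / N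
  sepA : ∀ f g, f ≠ g → ∃ u, inc u g ∧ ¬ inc u f
  sepV : ∀ u v, u ≠ v → ∃ f, inc v f ∧ ¬ inc u f

theorem Rea.dual {V A : Type} {inc : V → A → Prop} {x : V → E3} {q : A → E3} {N : ℝ}
    (h : Rea inc x q N) : Rea (fun f v => inc v f) q x N where
  N1 := h.N1
  xb := h.qb
  qb := h.xb
  on := fun v f hv => by rw [dp_comm]; exact h.on f v hv
  off := fun v f hv => by rw [dp_comm]; exact h.off f v hv
  sepA := fun f g hfg => h.sepV f g hfg
  sepV := fun f g hfg => h.sepA f g hfg

/-- a bound for a scalar product -/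
theorem abs_dp_le {a b : E3} {M R : ℝ} (ha : ∀ i, |a i| ≤ M) (hb : ∀ i, |b i| ≤ R) :
    |dp a b| ≤ 3 * (M * R) := by
  have h : ∀ i, |a i * b i| ≤ M * R := by
    intro i
    rw [abs_mul]
    exact mul_le_mul (ha i) (hb i) (abs_nonneg _) ((abs_nonneg _).trans (ha i))
  rw [dp_def]
  have h0 := abs_le.1 (h 0)
  have h1 := abs_le.1 (h 1)
  have h2 := abs_le.1 (h 2)
  rw [abs_le]
  constructor <;> linarith [h0.1, h0.2, h1.1, h1.2, h2.1, h2.2]

theorem cr0 (x y : E3) : cr x y 0 = x 1 * y 2 - x 2 * y 1 := rfl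
theorem cr1 (x y : E3) : cr x y 1 = x 2 * y 0 - x 0 * y 2 := rfl
theorem cr2 (x y : E3) : cr x y 2 = x 0 * y 1 - x 1 * y 0 := rfl

section

variable {V A : Type} {inc : V → A → Prop} {x : V → E3} {q : A → E3} {N : ℝ}

private theorem m1_N (h : Rea inc x q N) : 0 < N := lt_of_lt_of_le one_pos h.N1

/-- the core of the lemma: two coefficients are not negative -/
private theorem m1_core (h : Rea inc x q N) {v : V} {f g k : A} (hf : inc v f) (hg : inc v g)
    (hk : inc v k) (fg : f ≠ g) (gk : g ≠ k) (a b c R : ℝ) (ha : 0 ≤ a) (hc : 0 ≤ c)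
    (hR : ∀ i, |a * q f i + b * q g i + c * q k i| ≤ R) :
    |a| ≤ 15 * N ^ 2 * R ∧ |b| ≤ 15 * N ^ 2 * R ∧ |c| ≤ 15 * N ^ 2 * R := by
  have hN := m1_N h
  have hN1 := h.N1
  have hR0 : 0 ≤ R := (abs_nonneg _).trans (hR 0)
  set rho : E3 := fun i => a * q f i + b * q g i + c * q k i with hrho
  have hdp : ∀ y : E3, dp rho y = a * dp (q f) y + b * dp (q g) y + c * dp (q k) y := by
    intro y
    simp only [hrho, dp_def]
    ring
  have hv : |dp rho (x v)| ≤ 3 * (R * N) := abs_dp_le hR (h.xb v)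
  have hle : ∀ u e, dp (q e) (x u) ≤ 1 := by
    intro u e
    by_cases hu : inc u e
    · exact (h.on u e hu).le
    · have := h.off u e hu
      have h1 : 0 < 1 / N := by positivity
      linarith
  -- difference vectors
  have hd : ∀ u, |dp rho (x u - x v)| ≤ 3 * (R * (2 * N)) := by
    intro u
    refine abs_dp_le hR fun i => ?_
    rw [Pi.sub_apply]
    have h1 := abs_le.1 (h.xb u i)
    have h2 := abs_le.1 (h.xb v i)
    rw [abs_le]
    constructor <;> linarith [h1.1, h1.2, h2.1, h2.2]
  have key : ∀ u, inc u g → (a * (1 - dp (q f) (x u)) + c * (1 - dp (q k) (x u))) ≤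
      6 * (R * N) := by
    intro u hu
    have h1 := (abs_le.1 (hd u)).1
    rw [hdp, dp_sub, dp_sub, dp_sub, h.on v f hf, h.on v g hg, h.on v k hk, h.on u g hu] at h1
    linarith
  -- bound for a
  have ha' : a ≤ 6 * N ^ 2 * R := by
    obtain ⟨u, hu, huf⟩ := h.sepA f g fg
    have h1 := key u hu
    have h2 := h.off u f huf
    have h3 := hle u k
    have h4 : a * (1 / N) ≤ 6 * (R * N) := by
      have h5 : a * (1 / N) ≤ a * (1 - dp (q f) (x u)) :=
        mul_le_mul_of_nonneg_left (by linarith) ha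
      have h6 : 0 ≤ c * (1 - dp (q k) (x u)) := mul_nonneg hc (by linarith)
      linarith
    have h5 : a = a * (1 / N) * N := by field_simp
    rw [h5]
    calc a * (1 / N) * N ≤ 6 * (R * N) * N := mul_le_mul_of_nonneg_right h4 hN.le
      _ = 6 * N ^ 2 * R := by ring
  have hc' : c ≤ 6 * N ^ 2 * R := by
    obtain ⟨u, hu, huk⟩ := h.sepA k g gk.symm
    have h1 := key u hu
    have h2 := h.off u k huk
    have h3 := hle u f
    have h4 : c * (1 / N) ≤ 6 * (R * N) := by
      have h5 : c * (1 / N) ≤ c * (1 - dp (q k) (x u)) :=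
        mul_le_mul_of_nonneg_left (by linarith) hc
      have h6 : 0 ≤ a * (1 - dp (q f) (x u)) := mul_nonneg ha (by linarith)
      linarith
    have h5 : c = c * (1 / N) * N := by field_simp
    rw [h5]
    calc c * (1 / N) * N ≤ 6 * (R * N) * N := mul_le_mul_of_nonneg_right h4 hN.le
      _ = 6 * N ^ 2 * R := by ring
  have hNR : R * N ≤ N ^ 2 * R := by
    have : 0 ≤ R * N * (N - 1) := mul_nonneg (mul_nonneg hR0 hN.le) (by linarith)
    nlinarith
  have hN2R : 0 ≤ N ^ 2 * R := by positivity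
  refine ⟨?_, ?_, ?_⟩
  · rw [abs_of_nonneg ha]; linarith
  · rw [hdp, h.on v f hf, h.on v g hg, h.on v k hk] at hv
    have h1 := abs_le.1 hv
    rw [abs_le]
    constructor <;> linarith [h1.1, h1.2]
  · rw [abs_of_nonneg hc]; linarith

/-- (LA) a small linear combination of three facet vectors at a vertex has small coefficients -/
theorem Rea.la (h : Rea inc x q N) {v : V} {f g k : A} (hf : inc v f) (hg : inc v g)
    (hk : inc v k) (fg : f ≠ g) (gk : g ≠ k) (kf : k ≠ f) (a b c R : ℝ)
    (hR : ∀ i, |a * q f i + b * q g i + c * q k i| ≤ R) :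
    |a| ≤ 15 * N ^ 2 * R ∧ |b| ≤ 15 * N ^ 2 * R ∧ |c| ≤ 15 * N ^ 2 * R := by
  have hR' : ∀ i, |-a * q f i + -b * q g i + -c * q k i| ≤ R := by
    intro i
    have e : -a * q f i + -b * q g i + -c * q k i = -(a * q f i + b * q g i + c * q k i) := by ring
    rw [e, abs_neg]
    exact hR i
  rcases le_total 0 a with ha | ha
  · rcases le_total 0 c with hc | hc
    · exact m1_core h hf hg hk fg gk a b c R ha hc hR
    · rcases le_total 0 b with hb | hb
      · have := m1_core h hf hk hg kf.symm gk.symm a c b R ha hb (fun i => by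
          have e : a * q f i + c * q k i + b * q g i = a * q f i + b * q g i + c * q k i := by ring
          rw [e]; exact hR i)
        exact ⟨this.1, this.2.2, this.2.1⟩
      · have := m1_core h hg hf hk fg.symm kf.symm (-b) (-a) (-c) R (by linarith)
          (by linarith) (fun i => by
          have e : -b * q g i + -a * q f i + -c * q k i = -a * q f i + -b * q g i + -c * q k i := by
            ring
          rw [e]; exact hR' i)
        rw [abs_neg, abs_neg, abs_neg] at this
        exact ⟨this.2.1, this.1, this.2.2⟩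
  · rcases le_total 0 c with hc | hc
    · rcases le_total 0 b with hb | hb
      · have := m1_core h hg hf hk fg.symm kf.symm b a c R hb hc (fun i => by
          have e : b * q g i + a * q f i + c * q k i = a * q f i + b * q g i + c * q k i := by
            ring
          rw [e]; exact hR i)
        exact ⟨this.2.1, this.1, this.2.2⟩
      · have := m1_core h hf hk hg kf.symm gk.symm (-a) (-c) (-b) R (by linarith)
          (by linarith) (fun i => by
          have e : -a * q f i + -c * q k i + -b * q g i = -a * q f i + -b * q g i + -c * q k i := by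
            ring
          rw [e]; exact hR' i)
        rw [abs_neg, abs_neg, abs_neg] at this
        exact ⟨this.1, this.2.2, this.2.1⟩
    · have := m1_core h hf hg hk fg gk (-a) (-b) (-c) R (by linarith) (by linarith) hR'
      rwa [abs_neg, abs_neg, abs_neg] at this

/-- the cross products of the facet vectors at a vertex are bounded by the determinant -/
theorem Rea.cr_le (h : Rea inc x q N) {v : V} {f g k : A} (hf : inc v f) (hg : inc v g)
    (hk : inc v k) (fg : f ≠ g) (gk : g ≠ k) (kf : k ≠ f) (i : Fin 3) :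
    |cr (q g) (q k) i| ≤ 15 * N ^ 2 * |dt (q f) (q g) (q k)| ∧
    |cr (q k) (q f) i| ≤ 15 * N ^ 2 * |dt (q f) (q g) (q k)| ∧
    |cr (q f) (q g) i| ≤ 15 * N ^ 2 * |dt (q f) (q g) (q k)| := by
  refine h.la hf hg hk fg gk kf _ _ _ _ fun j => ?_
  have e : cr (q g) (q k) i * q f j + cr (q k) (q f) i * q g j + cr (q f) (q g) i * q k j =
      if i = j then dt (q f) (q g) (q k) else 0 := by
    fin_cases i <;> fin_cases j <;> simp [cr, dt] <;> ring
  rw [e]
  split_ifs
  · exact le_rfl
  · rw [abs_zero]; exact abs_nonneg _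

/-- the determinant of three facet vectors at a vertex is not small -/
theorem Rea.det_ge (h : Rea inc x q N) {v : V} {f g k : A} (hf : inc v f) (hg : inc v g)
    (hk : inc v k) (fg : f ≠ g) (gk : g ≠ k) (kf : k ≠ f) :
    1 / (90 * N ^ 5) ≤ |dt (q f) (q g) (q k)| := by
  have hN := m1_N h
  set D := |dt (q f) (q g) (q k)| with hD
  have hD0 : 0 ≤ D := abs_nonneg _
  have hcr : ∀ i, |cr (q f) (q g) i| ≤ 15 * N ^ 2 * D := fun i =>
    (h.cr_le hf hg hk fg gk kf i).2.2
  have h1 := h.on v f hf
  have h2 := h.on v g hg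
  rw [dp_def] at h1 h2
  -- q f - q g = x v × (q f × q g)
  have hX := h.xb v
  have pr : ∀ i j, |x v i * cr (q f) (q g) j| ≤ N * (15 * N ^ 2 * D) := by
    intro i j
    rw [abs_mul]
    exact mul_le_mul (hX i) (hcr j) (abs_nonneg _) hN.le
  have hdiff : ∀ i, |(q g - q f) i| ≤ 30 * N ^ 3 * D := by
    intro i
    have e0 : (q g - q f) 0 = x v 2 * cr (q f) (q g) 1 - x v 1 * cr (q f) (q g) 2 := by
      simp only [Pi.sub_apply, cr1, cr2]
      linear_combination (q f 0) * h2 - (q g 0) * h1
    have e1 : (q g - q f) 1 = x v 0 * cr (q f) (q g) 2 - x v 2 * cr (q f) (q g) 0 := by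
      simp only [Pi.sub_apply, cr0, cr2]
      linear_combination (q f 1) * h2 - (q g 1) * h1
    have e2 : (q g - q f) 2 = x v 1 * cr (q f) (q g) 0 - x v 0 * cr (q f) (q g) 1 := by
      simp only [Pi.sub_apply, cr0, cr1]
      linear_combination (q f 2) * h2 - (q g 2) * h1
    have hb : ∀ i j i' j', |x v i * cr (q f) (q g) j - x v i' * cr (q f) (q g) j'| ≤
        30 * N ^ 3 * D := by
      intro i j i' j'
      have a1 := abs_le.1 (pr i j)
      have a2 := abs_le.1 (pr i' j')
      rw [abs_le]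
      constructor <;> nlinarith [a1.1, a1.2, a2.1, a2.2]
    fin_cases i
    · change |(q g - q f) 0| ≤ _
      rw [e0]; exact hb _ _ _ _
    · change |(q g - q f) 1| ≤ _
      rw [e1]; exact hb _ _ _ _
    · change |(q g - q f) 2| ≤ _
      rw [e2]; exact hb _ _ _ _
  obtain ⟨u, hu, huf⟩ := h.sepA f g fg
  have h3 := abs_dp_le hdiff (h.xb u)
  have h4 : 1 / N ≤ dp (q g - q f) (x u) := by
    rw [dp_sub_left, h.on u g hu]
    linarith [h.off u f huf]
  have h5 : 1 / N ≤ 3 * (30 * N ^ 3 * D * N) := h4.trans ((le_abs_self _).trans h3)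
  rw [div_le_iff₀ (by positivity)]
  have h6 : 1 / N * N = 1 := by field_simp
  have h7 : 1 / N * N ≤ 3 * (30 * N ^ 3 * D * N) * N := mul_le_mul_of_nonneg_right h5 hN.le
  rw [h6] at h7
  calc (1 : ℝ) ≤ 3 * (30 * N ^ 3 * D * N) * N := h7
    _ = D * (90 * N ^ 5) := by ring

theorem Rea.det_ne (h : Rea inc x q N) {v : V} {f g k : A} (hf : inc v f) (hg : inc v g)
    (hk : inc v k) (fg : f ≠ g) (gk : g ≠ k) (kf : k ≠ f) : dt (q f) (q g) (q k) ≠ 0 := by
  have hN := m1_N h
  have h1 := h.det_ge hf hg hk fg gk kf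
  have h2 : 0 < 1 / (90 * N ^ 5) := by positivity
  exact abs_pos.1 (lt_of_lt_of_le h2 h1)

/-- the inverse of the matrix of three facet vectors at a vertex is bounded -/
theorem Rea.inv_le (h : Rea inc x q N) {v : V} {f g k : A} (hf : inc v f) (hg : inc v g)
    (hk : inc v k) (fg : f ≠ g) (gk : g ≠ k) (kf : k ≠ f) (w : E3) (M : ℝ)
    (h1 : |dp (q f) w| ≤ M) (h2 : |dp (q g) w| ≤ M) (h3 : |dp (q k) w| ≤ M) (i : Fin 3) :
    |w i| ≤ 45 * N ^ 2 * M := by
  have hN := m1_N h
  have hM : 0 ≤ M := (abs_nonneg _).trans h1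
  obtain ⟨c1, c2, c3⟩ := h.cr_le hf hg hk fg gk kf i
  have hD : 0 < |dt (q f) (q g) (q k)| := abs_pos.2 (h.det_ne hf hg hk fg gk kf)
  set D := |dt (q f) (q g) (q k)| with hDd
  have e : dt (q f) (q g) (q k) * w i = dp (q f) w * cr (q g) (q k) i +
      dp (q g) w * cr (q k) (q f) i + dp (q k) w * cr (q f) (q g) i := by
    fin_cases i <;> simp [cr, dt, dp_def] <;> ring
  have e2 : D * |w i| = |dt (q f) (q g) (q k) * w i| := by rw [abs_mul]
  have p1 : |dp (q f) w * cr (q g) (q k) i| ≤ M * (15 * N ^ 2 * D) := by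
    rw [abs_mul]; exact mul_le_mul h1 c1 (abs_nonneg _) hM
  have p2 : |dp (q g) w * cr (q k) (q f) i| ≤ M * (15 * N ^ 2 * D) := by
    rw [abs_mul]; exact mul_le_mul h2 c2 (abs_nonneg _) hM
  have p3 : |dp (q k) w * cr (q f) (q g) i| ≤ M * (15 * N ^ 2 * D) := by
    rw [abs_mul]; exact mul_le_mul h3 c3 (abs_nonneg _) hM
  have h4 : D * |w i| ≤ D * (45 * N ^ 2 * M) := by
    rw [e2, e, abs_le]
    have a1 := abs_le.1 p1
    have a2 := abs_le.1 p2
    have a3 := abs_le.1 p3
    constructor <;> nlinarith [a1.1, a1.2, a2.1, a2.2, a3.1, a3.2]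
  exact le_of_mul_le_mul_left h4 hD

end

end Pool.RP
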