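import Pool.Agent.Lib.MP_9dcace_rp.M3a
import Pool.Agent.Lib.MP_9dcace_sd.A6

/-!
ROW M3, second part: integer points and planes from a realization with margins
(m3_crt.md, sections 3 and 4).
p f = floor (L q f), L = 43200000 N^11; the normals `a f` and the offsets `d f` come from SD
(`normals`, `offsets`); `X v` = the common point of the planes `tr v 0, tr v 1, tr v 2`.
eta = 2 / L, th = B' / T0 = 1 / (7200000 N^10), eps = 1 / (40000 N^8).
-/

set_option autoImplicit false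

open Classical

namespace Pool.RP

open Pool.SX Pool.SD

/-! ### the final bound -/

private theorem m3_bnd (K0 C n N : ℕ) (hn : 1 ≤ n) (hN : 1 ≤ N) :
    24 * (K0 * (n * (C * N ^ 12)) ^ 64) ^ 2 * (C * N ^ 12) ^ 2 * ((7200000 * N ^ 10 + 1) *
      (240 * (48 * (K0 * (n * (C * N ^ 12)) ^ 64) ^ 3 * (C * N ^ 12) ^ 3) ^ 5)) ≤
    24 * (K0 * C ^ 64) ^ 2 * C ^ 2 * (7200001 * (240 * (48 * (K0 * C ^ 64) ^ 3 * C ^ 3) ^ 5)) *
      (n * N) ^ 14358 := by
  obtain ⟨M, hM⟩ : ∃ M, M = n * N := ⟨_, rfl⟩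
  have hM1 : 1 ≤ M := by rw [hM]; exact Nat.mul_pos hn hN
  have hnM : n ≤ M := by rw [hM]; exact Nat.le_mul_of_pos_right _ hN
  have hNM : N ≤ M := by rw [hM]; exact Nat.le_mul_of_pos_left _ hn
  rw [← hM]
  have h1 : C * N ^ 12 ≤ C * M ^ 12 := by gcongr
  have h2 : K0 * (n * (C * N ^ 12)) ^ 64 ≤ K0 * C ^ 64 * M ^ 832 := by
    calc K0 * (n * (C * N ^ 12)) ^ 64 ≤ K0 * (M * (C * M ^ 12)) ^ 64 := by gcongr
      _ = K0 * C ^ 64 * M ^ 832 := by ring
  have h3 : 7200000 * N ^ 10 + 1 ≤ 7200001 * M ^ 10 := by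
    have e1 : N ^ 10 ≤ M ^ 10 := by gcongr
    have e2 : 1 ≤ M ^ 10 := Nat.one_le_pow _ _ hM1
    omega
  obtain ⟨K', hK'⟩ : ∃ K', K' = K0 * C ^ 64 := ⟨_, rfl⟩
  rw [← hK'] at h2 ⊢
  calc 24 * (K0 * (n * (C * N ^ 12)) ^ 64) ^ 2 * (C * N ^ 12) ^ 2 * ((7200000 * N ^ 10 + 1) *
      (240 * (48 * (K0 * (n * (C * N ^ 12)) ^ 64) ^ 3 * (C * N ^ 12) ^ 3) ^ 5))
      ≤ 24 * (K' * M ^ 832) ^ 2 * (C * M ^ 12) ^ 2 * ((7200001 * M ^ 10) *
      (240 * (48 * (K' * M ^ 832) ^ 3 * (C * M ^ 12) ^ 3) ^ 5)) := by gcongr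
    _ = 24 * K' ^ 2 * C ^ 2 * (7200001 * (240 * (48 * K' ^ 3 * C ^ 3) ^ 5)) * M ^ 14358 := by ring

/-! ### casts -/

private theorem dt_cast (a b c : Z3) (s : ℝ) (hs : s ≠ 0) :
    dt (fun i => (a i : ℝ) / s) (fun i => (b i : ℝ) / s) (fun i => (c i : ℝ) / s) =
      ((d3 a b c : ℤ) : ℝ) / s ^ 3 := by
  have h : ((d3 a b c : ℤ) : ℝ) = (a 0 : ℝ) * (b 1 * c 2 - b 2 * c 1) +
      a 1 * (b 2 * c 0 - b 0 * c 2) + a 2 * (b 0 * c 1 - b 1 * c 0) := by
    simp only [d3, dz, cz0, cz1, cz2]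
    push_cast
    ring
  rw [h]
  simp only [dt]
  field_simp
  ring

private theorem dp_cast (a X : Z3) : dp (fun i => (a i : ℝ)) (fun i => (X i : ℝ)) =
    ((dz a X : ℤ) : ℝ) := by
  rw [dp_def, dz_def]
  push_cast
  ring

private theorem dp_cast' (a X : Z3) (s t : ℝ) : dp (fun i => (a i : ℝ) / s)
    (fun i => (X i : ℝ) * (s / t)) = (s / s) * (((dz a X : ℤ) : ℝ) / t) := by
  rw [← dp_cast, dp_def, dp_def]
  ring

/-! ### the number theory -/

/-- integer normals, offsets and points from the rounded facet vectors `p` -/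
private theorem m3_num {A : Type} [Fintype A] (S : Sph A) (idx col : A → ℕ)
    (ho : Ord S idx col) (p : A → Z3) (n y k St m : ℕ) (hn : Fintype.card A ≤ n) (K : ℤ) (Q N : ℕ)
    (hN1 : 1 ≤ N) (hQ1 : 1 ≤ Q) (hpQ : ∀ f i, |p f i| ≤ (Q : ℤ))
    (hp : Par n y k St m K Q (8 * K ^ 2 * Q ^ 2))
    (hB : 700 * (Q : ℤ) ^ 2 * (m * (2 * (St : ℤ) ^ 3 + 1)) ≤ K) :
    ∃ (a : A → Z3) (d : A → ℤ) (B' : ℤ), B' = 240 * (48 * K ^ 3 * Q ^ 3) ^ 5 ∧ 1 ≤ B' ∧
      (∀ f i, K * p f i ≤ a f i ∧ a f i ≤ K * p f i + K) ∧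
      (∀ f, 7200000 * (N : ℤ) ^ 10 * B' ≤ d f ∧ d f ≤ 7200000 * (N : ℤ) ^ 10 * B' + B') ∧
      ∀ f g h, S.T f g h → d3 (a f) (a g) (a h) ≠ 0 → ∃ X : Z3, dz (a f) X = d f ∧
        dz (a g) X = d g ∧ dz (a h) X = d h ∧
        ∀ i, |X i| ≤ 24 * K ^ 2 * Q ^ 2 * ((7200000 * N ^ 10 + 1) * B') := by
  obtain ⟨a, ha, hab⟩ := normals S idx col ho p hp hn hpQ
  have hK := hp.hK
  have hQ1' : (1 : ℤ) ≤ Q := by exact_mod_cast hQ1
  obtain ⟨B, hBdef⟩ : ∃ B : ℤ, B = m * (2 * (St : ℤ) ^ 3 + 1) := ⟨_, rfl⟩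
  rw [← hBdef] at hB
  simp only [← hBdef] at hab
  have hB0 : 0 ≤ B := by rw [hBdef]; positivity
  have hBK' : B ≤ K := by
    have h1 : (1 : ℤ) ≤ (Q : ℤ) ^ 2 := one_le_pow₀ hQ1'
    nlinarith
  have hBK : B ≤ K * Q := by nlinarith
  -- bound for the entries
  have haK : ∀ f i, |a f i| ≤ 2 * (K * Q) := by
    intro f i
    obtain ⟨h1, h2⟩ := hab f i
    have h5 := hpQ f i
    rw [abs_le] at h5 ⊢
    constructor
    · nlinarith [h5.1, h5.2]
    · nlinarith [h5.1, h5.2]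
  have hM0 : 0 ≤ 2 * (K * (Q : ℤ)) := by positivity
  have hcz : ∀ f g i, |cz (a f) (a g) i| ≤ 2 * (2 * (K * Q)) ^ 2 := by
    intro f g i
    have hpr : ∀ j l, |a f j * a g l| ≤ (2 * (K * Q)) ^ 2 := by
      intro j l
      rw [abs_mul, sq]
      exact mul_le_mul (haK f j) (haK g l) (abs_nonneg _) hM0
    have key : ∀ j l j' l', |a f j * a g l - a f j' * a g l'| ≤ 2 * (2 * (K * Q)) ^ 2 := by
      intro j l j' l'
      calc |a f j * a g l - a f j' * a g l'| ≤ |a f j * a g l| + |a f j' * a g l'| := abs_sub _ _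
        _ ≤ 2 * (2 * (K * Q)) ^ 2 := by linarith [hpr j l, hpr j' l']
    fin_cases i
    · exact key _ _ _ _
    · exact key _ _ _ _
    · exact key _ _ _ _
  have hd3 : ∀ f g h, |d3 (a f) (a g) (a h)| ≤ 48 * K ^ 3 * Q ^ 3 := by
    intro f g h
    have hpr : ∀ i, |a f i * cz (a g) (a h) i| ≤ 2 * (K * Q) * (2 * (2 * (K * Q)) ^ 2) := by
      intro i
      rw [abs_mul]
      exact mul_le_mul (haK f i) (hcz g h i) (abs_nonneg _) hM0
    have h5 : |d3 (a f) (a g) (a h)| ≤ |a f 0 * cz (a g) (a h) 0| + |a f 1 * cz (a g) (a h) 1| +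
        |a f 2 * cz (a g) (a h) 2| := by
      unfold d3 dz
      exact (abs_add_le _ _).trans (add_le_add (abs_add_le _ _) le_rfl)
    have := hpr 0
    have := hpr 1
    have := hpr 2
    nlinarith
  have hBd1 : (1 : ℤ) ≤ 48 * K ^ 3 * Q ^ 3 := by
    have h1 : (1 : ℤ) ≤ K ^ 3 := one_le_pow₀ hK
    have h2 : (1 : ℤ) ≤ (Q : ℤ) ^ 3 := one_le_pow₀ hQ1'
    nlinarith
  obtain ⟨B', hB'def⟩ : ∃ B' : ℤ, B' = 240 * (48 * K ^ 3 * Q ^ 3) ^ 5 := ⟨_, rfl⟩
  have hB'0 : 1 ≤ B' := by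
    have : (1 : ℤ) ≤ (48 * K ^ 3 * Q ^ 3) ^ 5 := one_le_pow₀ hBd1
    rw [hB'def]
    linarith
  obtain ⟨d, hd, hdiv⟩ := offsets S idx col ho y m hp.hy17 hp.hm240 a ha (48 * K ^ 3 * Q ^ 3) hBd1
    hd3 (7200000 * (N : ℤ) ^ 10 * B')
  rw [← hB'def] at hd
  refine ⟨a, d, B', hB'def, hB'0, fun f i => ⟨(hab f i).1, (hab f i).2.trans (by linarith)⟩, hd, ?_⟩
  intro f g h hT hne
  have hX : ∀ i, num (a f) (a g) (a h) (d f) (d g) (d h) i / d3 (a f) (a g) (a h) *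
      d3 (a f) (a g) (a h) = num (a f) (a g) (a h) (d f) (d g) (d h) i := fun i =>
    Int.ediv_mul_cancel (hdiv f g h hT i)
  have hdz : ∀ w : Z3, dz w (fun i => num (a f) (a g) (a h) (d f) (d g) (d h) i /
      d3 (a f) (a g) (a h)) * d3 (a f) (a g) (a h) =
      dz w (num (a f) (a g) (a h) (d f) (d g) (d h)) := by
    intro w
    simp only [dz]
    linear_combination (w 0) * hX 0 + (w 1) * hX 1 + (w 2) * hX 2
  refine ⟨fun i => num (a f) (a g) (a h) (d f) (d g) (d h) i / d3 (a f) (a g) (a h), ?_, ?_, ?_, ?_⟩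
  · apply mul_right_cancel₀ hne
    rw [hdz, dz_num1]
  · apply mul_right_cancel₀ hne
    rw [hdz, dz_num2]
  · apply mul_right_cancel₀ hne
    rw [hdz, dz_num3]
  · intro i
    have h1 : |num (a f) (a g) (a h) (d f) (d g) (d h) i / d3 (a f) (a g) (a h)| ≤
        |num (a f) (a g) (a h) (d f) (d g) (d h) i| := by
      have h5 := hX i
      have h6 : 1 ≤ |d3 (a f) (a g) (a h)| := Int.one_le_abs hne
      calc |num (a f) (a g) (a h) (d f) (d g) (d h) i / d3 (a f) (a g) (a h)|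
          ≤ |num (a f) (a g) (a h) (d f) (d g) (d h) i / d3 (a f) (a g) (a h)| *
            |d3 (a f) (a g) (a h)| := le_mul_of_one_le_right (abs_nonneg _) h6
        _ = |num (a f) (a g) (a h) (d f) (d g) (d h) i| := by rw [← abs_mul, h5]
    refine h1.trans ?_
    have hN0 : (0 : ℤ) ≤ 7200000 * (N : ℤ) ^ 10 * B' := by positivity
    have hdb : ∀ f, |d f| ≤ (7200000 * (N : ℤ) ^ 10 + 1) * B' := by
      intro f
      have := hd f
      rw [abs_le]
      constructor <;> linarith [this.1, this.2]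
    have hD0 : 0 ≤ (7200000 * (N : ℤ) ^ 10 + 1) * B' := (abs_nonneg _).trans (hdb f)
    have hpr : ∀ e f' g', |d e * cz (a f') (a g') i| ≤
        (7200000 * (N : ℤ) ^ 10 + 1) * B' * (2 * (2 * (K * Q)) ^ 2) := by
      intro e f' g'
      rw [abs_mul]
      exact mul_le_mul (hdb e) (hcz f' g' i) (abs_nonneg _) hD0
    have h5 : |num (a f) (a g) (a h) (d f) (d g) (d h) i| ≤ |d f * cz (a g) (a h) i| +
        |d g * cz (a h) (a f) i| + |d h * cz (a f) (a g) i| := by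
      unfold num
      exact (abs_add_le _ _).trans (add_le_add (abs_add_le _ _) le_rfl)
    have e1 := hpr f g h
    have e2 := hpr g h f
    have e3 := hpr h f g
    have e4 : 24 * K ^ 2 * (Q : ℤ) ^ 2 * ((7200000 * N ^ 10 + 1) * B') =
        (7200000 * (N : ℤ) ^ 10 + 1) * B' * (2 * (2 * (K * Q)) ^ 2) +
        (7200000 * (N : ℤ) ^ 10 + 1) * B' * (2 * (2 * (K * Q)) ^ 2) +
        (7200000 * (N : ℤ) ^ 10 + 1) * B' * (2 * (2 * (K * Q)) ^ 2) := by ring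
    rw [e4]
    linarith

/-! ### smallness of the errors -/

private theorem m3_small {N : ℝ} (hN : 1 ≤ N) :
    270 * N ^ 2 * (2 / (43200000 * N ^ 11)) ≤ 1 ∧
    2 / (43200000 * N ^ 11) ≤ N ∧
    42 * N ^ 2 * (2 / (43200000 * N ^ 11)) < 1 / (90 * N ^ 5) ∧
    90 * N ^ 2 * (1 / (7200000 * N ^ 10) + 3 * (2 / (43200000 * N ^ 11) * N)) =
      1 / (40000 * N ^ 8) ∧
    1 / (40000 * N ^ 8) ≤ N ∧
    336 * N ^ 2 * (1 / (40000 * N ^ 8)) < 1 / (90 * N ^ 6) ∧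
    3 * (N * (1 / (40000 * N ^ 8))) + 3 * (2 / (43200000 * N ^ 11) * (N + 1 / (40000 * N ^ 8))) <
      1 / N := by
  have h0 : 0 < N := by linarith
  have hp : ∀ k : ℕ, 1 ≤ N ^ k := fun k => one_le_pow₀ hN
  have hpp : ∀ k : ℕ, 0 < N ^ k := fun k => by positivity
  have e1 : 1 / (40000 * N ^ 8) ≤ 1 := by
    rw [div_le_one (by positivity)]
    linarith [hp 8]
  have e2 : 2 / (43200000 * N ^ 11) ≤ 1 := by
    rw [div_le_one (by positivity)]
    linarith [hp 11]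
  refine ⟨?_, ?_, ?_, ?_, ?_, ?_, ?_⟩
  · rw [mul_div_assoc', div_le_one (by positivity)]
    have : N ^ 2 ≤ N ^ 11 := pow_le_pow_right₀ hN (by norm_num)
    linarith [hpp 2]
  · exact e2.trans hN
  · rw [mul_div_assoc', div_lt_div_iff₀ (by positivity) (by positivity)]
    have : N ^ 2 * N ^ 5 ≤ N ^ 11 := by
      rw [← pow_add]; exact pow_le_pow_right₀ hN (by norm_num)
    have h3 := hpp 11
    nlinarith
  · field_simp
    norm_num
  · exact e1.trans hN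
  · rw [mul_div_assoc', div_lt_div_iff₀ (by positivity) (by positivity)]
    have : N ^ 2 * N ^ 6 = N ^ 8 := by rw [← pow_add]
    have h3 := hpp 8
    nlinarith
  · have f1 : N * (1 / (40000 * N ^ 8)) ≤ 1 / 40000 * (1 / N) := by
      rw [mul_one_div, ← mul_div_mul_comm, one_mul,
        div_le_div_iff₀ (by positivity) (by positivity)]
      have : N * N ≤ N ^ 8 := by
        rw [← sq]; exact pow_le_pow_right₀ hN (by norm_num)
      nlinarith
    have f2 : 2 / (43200000 * N ^ 11) * (N + 1 / (40000 * N ^ 8)) ≤ 1 / 10 * (1 / N) := by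
      have g1 : N + 1 / (40000 * N ^ 8) ≤ 2 * N := by linarith
      have g2 : 0 < 2 / (43200000 * N ^ 11) := by positivity
      calc 2 / (43200000 * N ^ 11) * (N + 1 / (40000 * N ^ 8))
          ≤ 2 / (43200000 * N ^ 11) * (2 * N) := mul_le_mul_of_nonneg_left g1 g2.le
        _ ≤ 1 / 10 * (1 / N) := by
          rw [div_mul_eq_mul_div, ← mul_div_mul_comm, one_mul,
            div_le_div_iff₀ (by positivity) (by positivity)]
          have : N * N ≤ N ^ 11 := by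
            rw [← sq]; exact pow_le_pow_right₀ hN (by norm_num)
          nlinarith
    have f3 : 0 < 1 / N := by positivity
    linarith

/-! ### the integer system -/

private theorem dt_scale (s : ℝ) (x y z : E3) : dt (fun i => x i * s) (fun i => y i * s)
    (fun i => z i * s) = s ^ 3 * dt x y z := by
  simp only [dt]; ring

theorem m3_core {V A : Type} [Fintype A] {inc : V → A → Prop} {x : V → E3} {q : A → E3} {N : ℕ}
    (h : Rea inc x q N) (S : Sph A) (tr : V → Fin 3 → A) (hT : Tau inc S tr) (idx col : A → ℕ)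
    (ho : Ord S idx col) (n y k St m : ℕ) (hn : Fintype.card A ≤ n) (K : ℤ) (Q : ℕ)
    (hQ : Q = 86400000 * N ^ 12) (hp : Par n y k St m K Q (8 * K ^ 2 * Q ^ 2))
    (hB : 700 * (Q : ℤ) ^ 2 * (m * (2 * (St : ℤ) ^ 3 + 1)) ≤ K) :
    ∃ (X : V → Z3) (a : A → E3) (d : A → ℝ), Pla inc (fun v i => (X v i : ℝ)) a d ∧
      ∀ v i, |X v i| ≤
        24 * K ^ 2 * Q ^ 2 * ((7200000 * N ^ 10 + 1) * (240 * (48 * K ^ 3 * Q ^ 3) ^ 5)) := by
  have hN1 : 1 ≤ N := by exact_mod_cast h.N1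
  have hNr : (1 : ℝ) ≤ N := h.N1
  have hN0 : (0 : ℝ) < N := by linarith
  have hQ1 : 1 ≤ Q := by
    rw [hQ]
    have : 1 ≤ N ^ 12 := Nat.one_le_pow _ _ hN1
    omega
  obtain ⟨L, hL⟩ : ∃ L : ℝ, L = 43200000 * (N : ℝ) ^ 11 := ⟨_, rfl⟩
  have hL1 : 1 ≤ L := by
    rw [hL]
    have : (1 : ℝ) ≤ (N : ℝ) ^ 11 := one_le_pow₀ hNr
    linarith
  have hL0 : 0 < L := by linarith
  -- the rounded vectors
  obtain ⟨p, hpdef⟩ : ∃ p : A → Z3, p = fun f i => ⌊L * q f i⌋ := ⟨_, rfl⟩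
  have hpl : ∀ f i, |(p f i : ℝ) - L * q f i| ≤ 1 := by
    intro f i
    have h1 := Int.floor_le (L * q f i)
    have h2 := Int.lt_floor_add_one (L * q f i)
    rw [hpdef, abs_le]
    constructor <;> linarith
  have hpQ : ∀ f i, |p f i| ≤ (Q : ℤ) := by
    intro f i
    have h1 := abs_le.1 (hpl f i)
    have h2 : |L * q f i| ≤ L * N := by
      rw [abs_mul, abs_of_pos hL0]
      exact mul_le_mul_of_nonneg_left (h.qb f i) hL0.le
    have h3 := abs_le.1 h2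
    have h4 : |(p f i : ℝ)| ≤ (Q : ℝ) := by
      have e : (Q : ℝ) = 2 * (L * N) := by
        rw [hQ, hL]; push_cast; ring
      have h5 : 1 ≤ L * N := by nlinarith
      rw [e, abs_le]
      constructor <;> linarith [h1.1, h1.2, h3.1, h3.2]
    exact_mod_cast h4
  obtain ⟨a, d, B', hB', hB'1, hab, hd, hX⟩ := m3_num S idx col ho p n y k St m hn K Q N hN1 hQ1
    hpQ hp hB
  rw [← hB']
  have hK := hp.hK
  have hKr : (1 : ℝ) ≤ (K : ℝ) := by exact_mod_cast hK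
  have hK0 : (0 : ℝ) < (K : ℝ) := by linarith
  have hB'r : (1 : ℝ) ≤ (B' : ℝ) := by exact_mod_cast hB'1
  obtain ⟨s1, s2, s3, s4, s5, s6, s7⟩ := m3_small hNr
  rw [← hL] at s1 s2 s3 s4 s7
  obtain ⟨eta, heta⟩ : ∃ eta : ℝ, eta = 2 / L := ⟨_, rfl⟩
  obtain ⟨eps, heps⟩ : ∃ eps : ℝ, eps = 1 / (40000 * (N : ℝ) ^ 8) := ⟨_, rfl⟩
  rw [← heta] at s1 s2 s3 s4 s7
  rw [← heps] at s4 s5 s6 s7
  -- the scaled normals
  have har : ∀ e i, |(fun i => (a e i : ℝ) / (K * L)) i - q e i| ≤ eta := by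
    intro e i
    obtain ⟨h1, h2⟩ := hab e i
    have h1' : (K : ℝ) * p e i ≤ a e i := by exact_mod_cast h1
    have h2' : (a e i : ℝ) ≤ K * p e i + K := by exact_mod_cast h2
    have h3 := abs_le.1 (hpl e i)
    have h4 : |(a e i : ℝ) - K * L * q e i| ≤ 2 * K := by
      have e1 : (a e i : ℝ) - K * L * q e i = (a e i - K * p e i) + K * (p e i - L * q e i) := by
        ring
      have h5 : K * ((p e i : ℝ) - L * q e i) ≤ K * 1 := mul_le_mul_of_nonneg_left h3.2 hK0.le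
      have h6 : K * (-1) ≤ K * ((p e i : ℝ) - L * q e i) := mul_le_mul_of_nonneg_left h3.1 hK0.le
      rw [e1, abs_le]
      constructor <;> linarith
    have e2 : (a e i : ℝ) / (K * L) - q e i = (a e i - K * L * q e i) / (K * L) := by
      field_simp
    change |(a e i : ℝ) / (K * L) - q e i| ≤ eta
    rw [e2, abs_div, abs_of_pos (mul_pos hK0 hL0), heta, div_le_div_iff₀ (mul_pos hK0 hL0) hL0]
    calc |(a e i : ℝ) - K * L * q e i| * L ≤ 2 * K * L := mul_le_mul_of_nonneg_right h4 hL0.le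
      _ = 2 * (K * L) := by ring
  have hKL : (0 : ℝ) < K * L := mul_pos hK0 hL0
  have hT0 : (0 : ℝ) < 7200000 * (N : ℝ) ^ 10 * B' := by positivity
  obtain ⟨T, hTd⟩ : ∃ T : ℝ, T = 7200000 * (N : ℝ) ^ 10 * B' := ⟨_, rfl⟩
  rw [← hTd] at hT0
  have hdr : ∀ e, T ≤ (d e : ℝ) ∧ (d e : ℝ) ≤ T + B' := by
    intro e
    obtain ⟨h1, h2⟩ := hd e
    have h1' : (7200000 * (N : ℝ) ^ 10 * B') ≤ d e := by exact_mod_cast h1
    have h2' : (d e : ℝ) ≤ 7200000 * (N : ℝ) ^ 10 * B' + B' := by exact_mod_cast h2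
    rw [hTd]
    exact ⟨h1', h2'⟩
  have hdr1 : ∀ e, 1 ≤ (d e : ℝ) / T := fun e => by
    rw [le_div_iff₀ hT0, one_mul]; exact (hdr e).1
  have hdr2 : ∀ e, |(d e : ℝ) / T - 1| ≤ 1 / (7200000 * (N : ℝ) ^ 10) := by
    intro e
    have h1 : (d e : ℝ) / T ≤ 1 + 1 / (7200000 * (N : ℝ) ^ 10) := by
      rw [div_le_iff₀ hT0, add_mul, one_mul]
      have h2 : 1 / (7200000 * (N : ℝ) ^ 10) * T = B' := by
        rw [hTd]; field_simp
      rw [h2]
      exact (hdr e).2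
    have h2 := hdr1 e
    have h3 : (0 : ℝ) < 1 / (7200000 * (N : ℝ) ^ 10) := by positivity
    rw [abs_le]
    constructor <;> linarith
  -- the three facets at v
  have hne : ∀ v, tr v 0 ≠ tr v 1 ∧ tr v 1 ≠ tr v 2 ∧ tr v 2 ≠ tr v 0 := fun v =>
    ⟨S.ne (hT.tri v), S.ne (S.rot (hT.tri v)), S.ne (S.rot (S.rot (hT.tri v)))⟩
  have hdet : ∀ v, d3 (a (tr v 0)) (a (tr v 1)) (a (tr v 2)) ≠ 0 := by
    intro v h0
    obtain ⟨n1, n2, n3⟩ := hne v
    have h1 := h.det_ne' (hT.on v 0) (hT.on v 1) (hT.on v 2) n1 n2 n3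
      (fun e i => (a e i : ℝ) / (K * L)) har s2 s3
    rw [dt_cast _ _ _ _ hKL.ne', h0] at h1
    simp at h1
  choose X hX0 hX1 hX2 hXb using fun v => hX _ _ _ (hT.tri v) (hdet v)
  have hXj : ∀ v j, dz (a (tr v j)) (X v) = d (tr v j) := by
    intro v j
    fin_cases j
    · exact hX0 v
    · exact hX1 v
    · exact hX2 v
  -- the scaled points
  obtain ⟨Y, hY⟩ : ∃ Y : V → E3, Y = fun v i => (X v i : ℝ) * (K * L / T) := ⟨_, rfl⟩
  have hYdp : ∀ e v, dp (fun i => (a e i : ℝ) / (K * L)) (Y v) = ((dz (a e) (X v) : ℤ) : ℝ) / T := by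
    intro e v
    rw [hY]
    change dp (fun i => (a e i : ℝ) / (K * L)) (fun i => (X v i : ℝ) * (K * L / T)) = _
    rw [dp_cast', div_self hKL.ne', one_mul]
  have hclose : ∀ v i, |Y v i - x v i| ≤ eps := by
    intro v i
    obtain ⟨n1, n2, n3⟩ := hne v
    have h1 := h.close (hT.on v 0) (hT.on v 1) (hT.on v 2) n1 n2 n3
      (fun e i => (a e i : ℝ) / (K * L)) (fun e => (d e : ℝ) / T) eta
      (1 / (7200000 * (N : ℝ) ^ 10)) s1 (Y v) har hdr2
      (by rw [hYdp, hXj]) (by rw [hYdp, hXj]) (by rw [hYdp, hXj]) i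
    rw [s4] at h1
    exact h1
  -- the planes
  have hpl : ∀ e, ∃ (al : E3) (be : ℝ), (∀ v, inc v e → dp al (fun i => (X v i : ℝ)) = be) ∧
      ∀ v, ¬ inc v e → dp al (fun i => (X v i : ℝ)) < be := by
    intro e
    by_cases he : Trg inc e
    · obtain ⟨u, v, w, uv, vw, wu, hz⟩ := he
      have hue : inc u e := (hz u).2 (Or.inl rfl)
      have hve : inc v e := (hz v).2 (Or.inr (Or.inl rfl))
      have hwe : inc w e := (hz w).2 (Or.inr (Or.inr rfl))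
      obtain ⟨s, hs⟩ : ∃ s, s = dt (x u) (x v) (x w) := ⟨_, rfl⟩
      obtain ⟨Xr, hXr⟩ : ∃ Xr : V → E3, Xr = fun v i => (X v i : ℝ) := ⟨_, rfl⟩
      have hXr' : ∀ v, (fun i => (X v i : ℝ)) = Xr v := fun v => by rw [hXr]
      have hdp : ∀ z, dp (s • cr (Xr v - Xr u) (Xr w - Xr u)) (Xr z) =
          dp (s • cr (Xr v - Xr u) (Xr w - Xr u)) (Xr u) +
          s * dt (Xr v - Xr u) (Xr w - Xr u) (Xr z - Xr u) := by
        intro z
        rw [← dp_cr, dp_smul_left, dp_smul_left, dp_sub]; ring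
      refine ⟨s • cr (Xr v - Xr u) (Xr w - Xr u), dp (s • cr (Xr v - Xr u) (Xr w - Xr u)) (Xr u),
        ?_, ?_⟩
      · intro z hze
        rw [hXr', hdp]
        rcases (hz z).1 hze with rfl | rfl | rfl
        · rw [sub_self]
          have : dt (Xr v - Xr z) (Xr w - Xr z) 0 = 0 := by simp [dt]
          rw [this]; ring
        · rw [dt_self']; ring
        · rw [dt_self'']; ring
      · intro z hze
        rw [hXr', hdp]
        have h1 := h.tri' hue hve hwe uv vw wu hze hclose s5 s6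
        rw [← hs] at h1
        have h2 : dt (Y v - Y u) (Y w - Y u) (Y z - Y u) =
            (K * L / T) ^ 3 * dt (Xr v - Xr u) (Xr w - Xr u) (Xr z - Xr u) := by
          rw [← dt_scale]
          congr 1 <;> (funext i; simp only [hY, hXr, Pi.sub_apply]; ring)
        rw [h2] at h1
        have h3 : 0 < ((K : ℝ) * L / T) ^ 3 := by positivity
        have h4 : s * ((K * L / T) ^ 3 * dt (Xr v - Xr u) (Xr w - Xr u) (Xr z - Xr u)) =
            (K * L / T) ^ 3 * (s * dt (Xr v - Xr u) (Xr w - Xr u) (Xr z - Xr u)) := by ring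
        rw [h4] at h1
        have h5 : s * dt (Xr v - Xr u) (Xr w - Xr u) (Xr z - Xr u) < 0 := by
          by_contra hcon
          push Not at hcon
          have := mul_nonneg h3.le hcon
          linarith
        linarith
    · refine ⟨fun i => (a e i : ℝ), (d e : ℝ), ?_, ?_⟩
      · intro v hve
        obtain ⟨j, rfl⟩ := hT.big v e hve he
        rw [dp_cast, hXj]
      · intro v hve
        have h1 := h.off' hve (hclose v) (har e) (hdr1 e) s7
        rw [hYdp, div_lt_div_iff_of_pos_right hT0] at h1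
        rw [dp_cast]
        exact h1
  choose al be hal hbe using hpl
  exact ⟨X, al, be, ⟨fun v f hvf => hal f v hvf, fun v f hvf => hbe f v hvf⟩, hXb⟩

/-- integer points and planes with the incidences `inc` -/
theorem exists_int : ∃ c : ℕ, ∀ (V A : Type) [Fintype V] [Fintype A] (inc : V → A → Prop)
    (n N : ℕ), Inc3 inc → 4 ≤ n → 1 ≤ N → Fintype.card A ≤ n → 4 ≤ Fintype.card A →
    Real3 inc N → ∀ (S : Sph A) (tr : V → Fin 3 → A), Tau inc S tr →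
    ∃ (X : V → Z3) (a : A → E3) (d : A → ℝ), Pla inc (fun v i => (X v i : ℝ)) a d ∧
      ∀ v i, |X v i| ≤ ((c * (n * N) ^ c : ℕ) : ℤ) := by
  obtain ⟨K0, hK0, hpar⟩ := params
  obtain ⟨C, hC⟩ : ∃ C : ℕ, C = 86400000 := ⟨_, rfl⟩
  obtain ⟨E, hE⟩ : ∃ E : ℕ, E = 24 * (K0 * C ^ 64) ^ 2 * C ^ 2 *
    (7200001 * (240 * (48 * (K0 * C ^ 64) ^ 3 * C ^ 3) ^ 5)) := ⟨_, rfl⟩
  obtain ⟨w, hw⟩ : ∃ w : ℕ, w = 14358 := ⟨_, rfl⟩
  refine ⟨E + w, ?_⟩
  intro V A _ _ inc n N hI hn hN hAn hA hR S tr hT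
  obtain ⟨x, q, h⟩ := Rea.of hN hI hR
  obtain ⟨F, instF, s, hs⟩ := exists_sch S hA
  obtain ⟨idx, col, ho⟩ := order_col S (fun W hW => degen S s hs W hW)
  have hQ1 : 1 ≤ C * N ^ 12 := by
    have : 1 ≤ N ^ 12 := Nat.one_le_pow _ _ hN
    rw [hC]
    omega
  obtain ⟨y, k, St, m, hp, hB⟩ := hpar n (C * N ^ 12) hn hQ1
  obtain ⟨X, a, d, h1, h2⟩ := m3_core h S tr hT idx col ho n y k St m hAn _ (C * N ^ 12)
    (by rw [hC]) hp hB
  refine ⟨X, a, d, h1, fun v i => (h2 v i).trans ?_⟩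
  have h3 := m3_bnd K0 C n N (by omega) hN
  rw [← hE, ← hw] at h3
  have h4 : E * (n * N) ^ w ≤ (E + w) * (n * N) ^ (E + w) := by
    have h5 : 1 ≤ n * N := Nat.mul_pos (by omega) hN
    exact Nat.mul_le_mul (Nat.le_add_right _ _) (Nat.pow_le_pow_right h5 (Nat.le_add_left _ _))
  have h5 := h3.trans h4
  exact_mod_cast h5

end Pool.RP
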