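import Pool.Agent.Lib.MP_9dcace_rp.Base
import Pool.Agent.Lib.MP_9dcace_sd.Defs
import Pool.Agent.Lib.MP_9dcace_sx.ZDefs

/-!
MP_9dcace_co, class M3 (every vertex lies on at most three non triangular facets), definitions of the
integer part (rows M1, M3, M6, M7, M8).
* `Inc3 inc` : the incidence facts of a 3-polytope which are used.
* `Pla inc X a d` : points `X v` and planes `a f . x = d f` with exactly the incidences `inc`.
* `Tau` : the choice of three facets at every vertex, from the sphere `S` of the perturbed polar.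
-/

set_option autoImplicit false

open Classical

namespace Pool.RP

open Pool.SX

/-- the incidence facts of a 3-polytope -/
structure Inc3 {V A : Type} (inc : V → A → Prop) : Prop where
  ne : Nonempty V
  /-- the facets at `v` are not all facets at `u` -/
  sepV : ∀ u v, u ≠ v → ∃ f, inc v f ∧ ¬ inc u f
  /-- the vertices of `g` are not all vertices of `f` -/
  sepA : ∀ f g, f ≠ g → ∃ v, inc v g ∧ ¬ inc v f
  /-- two facets have at most two common vertices -/
  twoV : ∀ f g u v w, f ≠ g → u ≠ v → v ≠ w → w ≠ u → inc u f → inc v f → inc w f →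
    inc u g → inc v g → ¬ inc w g
  /-- two vertices have at most two common facets -/
  twoA : ∀ u v f g h, u ≠ v → f ≠ g → g ≠ h → h ≠ f → inc u f → inc u g → inc u h →
    inc v f → inc v g → ¬ inc v h
  /-- a vertex `v` of a facet `f` has two neighbours `u, u'` on `f` -/
  flag : ∀ v f, inc v f → ∃ u u' g g', u ≠ v ∧ u' ≠ v ∧ u ≠ u' ∧ g ≠ f ∧ g' ≠ f ∧ g ≠ g' ∧
    inc u f ∧ inc u' f ∧ inc v g ∧ inc u g ∧ inc v g' ∧ inc u' g'
  /-- every vertex lies on at least three facets -/
  degV : ∀ v f g, ∃ h, h ≠ f ∧ h ≠ g ∧ inc v h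
  /-- every facet has at least three vertices -/
  degA : ∀ f u v, ∃ w, w ≠ u ∧ w ≠ v ∧ inc w f

/-- points and planes with exactly the incidences `inc` -/
structure Pla {V A : Type} (inc : V → A → Prop) (X : V → E3) (a : A → E3) (d : A → ℝ) : Prop where
  on : ∀ v f, inc v f → dp (a f) (X v) = d f
  lt : ∀ v f, ¬ inc v f → dp (a f) (X v) < d f

/-- `f` is a facet with exactly three vertices -/
def Trg {V A : Type} (inc : V → A → Prop) (f : A) : Prop :=
  ∃ u v w : V, u ≠ v ∧ v ≠ w ∧ w ≠ u ∧ ∀ z, inc z f ↔ (z = u ∨ z = v ∨ z = w)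

/-- the facets `tr v 0, tr v 1, tr v 2` at `v` form a triangle of `S`, and every non triangular
facet at `v` is one of them -/
structure Tau {V A : Type} [Fintype A] (inc : V → A → Prop) (S : Sph A) (tr : V → Fin 3 → A) :
    Prop where
  tri : ∀ v, S.T (tr v 0) (tr v 1) (tr v 2)
  on : ∀ v j, inc v (tr v j)
  big : ∀ v f, inc v f → ¬ Trg inc f → ∃ j, tr v j = f

/-- the class M3: every vertex lies on at most three non triangular facets -/
def IsM3 {V A : Type} (inc : V → A → Prop) : Prop :=
  ∀ v (F : Finset A), (∀ f ∈ F, inc v f ∧ ¬ Trg inc f) → F.card ≤ 3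

end Pool.RP
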