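import Pool.Agent.Lib.MP_9dcace_rp.M1
import Pool.Agent.Lib.MP_9dcace_rp.MDefs

/-!
ROW M3, first part: closeness and signs (m3_crt.md, section 4), real analysis only.
`x, q` : a realization with margins; `a e` close to `q e`, `d e` close to 1.
* `dt_pert` : perturbation of a determinant.
* `Rea.close` : the common point of three planes `a e . y = d e` at `v` is close to `x v`.
* `Rea.off'` : it is strictly inside the planes of the facets not at `v`.
* `Rea.tri'` : the plane through three points close to `x u, x v, x w` of a facet.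
-/

set_option autoImplicit false

namespace Pool.RP

open Pool.SX

theorem Rea.of {V A : Type} {inc : V → A → Prop} {N : ℕ} (hN : 1 ≤ N) (hI : Inc3 inc)
    (h : Real3 inc N) : ∃ (x : V → E3) (q : A → E3), Rea inc x q N := by
  obtain ⟨x, q, h1, h2, h3, h4⟩ := h
  exact ⟨x, q, by exact_mod_cast hN, h1, h2, h3, h4, hI.sepA, fun u v huv => hI.sepV u v huv⟩

private theorem m3_abs3 {a b c M1 M2 M3 : ℝ} (ha : |a| ≤ M1) (hb : |b| ≤ M2) (hc : |c| ≤ M3) :
    |a * b * c| ≤ M1 * M2 * M3 := by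
  rw [abs_mul, abs_mul]
  have hA := (abs_nonneg a).trans ha
  have hB := (abs_nonneg b).trans hb
  exact mul_le_mul (mul_le_mul ha hb (abs_nonneg _) hA) hc (abs_nonneg _) (mul_nonneg hA hB)

private theorem m3_prod {M e : ℝ} (he : e ≤ M) {a b c a' b' c' : ℝ} (ha : |a| ≤ M)
    (hb : |b| ≤ M) (hc : |c| ≤ M) (ha' : |a' - a| ≤ e) (hb' : |b' - b| ≤ e) (hc' : |c' - c| ≤ e) :
    |a' * b' * c' - a * b * c| ≤ 7 * M ^ 2 * e := by
  obtain ⟨p, hp⟩ : ∃ p, p = a' - a := ⟨_, rfl⟩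
  obtain ⟨r, hr⟩ : ∃ r, r = b' - b := ⟨_, rfl⟩
  obtain ⟨s, hs⟩ : ∃ s, s = c' - c := ⟨_, rfl⟩
  rw [← hp] at ha'
  rw [← hr] at hb'
  rw [← hs] at hc'
  have t1 : |a * b * s| ≤ M * M * e := m3_abs3 ha hb hc'
  have t2 : |a * c * r| ≤ M * M * e := m3_abs3 ha hc hb'
  have t3 : |b * c * p| ≤ M * M * e := m3_abs3 hb hc ha'
  have t4 : |a * r * s| ≤ M * M * e := m3_abs3 ha (hb'.trans he) hc'
  have t5 : |b * p * s| ≤ M * M * e := m3_abs3 hb (ha'.trans he) hc'
  have t6 : |c * p * r| ≤ M * M * e := m3_abs3 hc (ha'.trans he) hb'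
  have t7 : |p * r * s| ≤ M * M * e := m3_abs3 (ha'.trans he) (hb'.trans he) hc'
  have key : a' * b' * c' - a * b * c = a * b * s + a * c * r + b * c * p + a * r * s +
      b * p * s + c * p * r + p * r * s := by
    rw [hp, hr, hs]; ring
  have e7 : 7 * M ^ 2 * e = 7 * (M * M * e) := by ring
  rw [key, e7, abs_le]
  rw [abs_le] at t1 t2 t3 t4 t5 t6 t7
  constructor
  · linarith [t1.1, t2.1, t3.1, t4.1, t5.1, t6.1, t7.1]
  · linarith [t1.2, t2.2, t3.2, t4.2, t5.2, t6.2, t7.2]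

/-- perturbation of a determinant -/
theorem dt_pert {M e : ℝ} (he : e ≤ M) {x y z x' y' z' : E3} (hx : ∀ i, |x i| ≤ M)
    (hy : ∀ i, |y i| ≤ M) (hz : ∀ i, |z i| ≤ M) (hx' : ∀ i, |x' i - x i| ≤ e)
    (hy' : ∀ i, |y' i - y i| ≤ e) (hz' : ∀ i, |z' i - z i| ≤ e) :
    |dt x' y' z' - dt x y z| ≤ 42 * M ^ 2 * e := by
  have p := fun i j k => m3_prod he (hx i) (hy j) (hz k) (hx' i) (hy' j) (hz' k)
  have t1 := abs_le.1 (p 0 1 2)
  have t2 := abs_le.1 (p 0 2 1)
  have t3 := abs_le.1 (p 1 2 0)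
  have t4 := abs_le.1 (p 1 0 2)
  have t5 := abs_le.1 (p 2 0 1)
  have t6 := abs_le.1 (p 2 1 0)
  rw [abs_le]
  simp only [dt]
  constructor
  · linarith [t1.1, t2.2, t3.1, t4.2, t5.1, t6.2]
  · linarith [t1.2, t2.1, t3.2, t4.1, t5.2, t6.1]

section

variable {V A : Type} {inc : V → A → Prop} {x : V → E3} {q : A → E3} {N : ℝ}

/-- the common point of three planes close to the facet planes at `v` is close to `x v` -/
theorem Rea.close (h : Rea inc x q N) {v : V} {f g k : A} (hf : inc v f) (hg : inc v g)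
    (hk : inc v k) (fg : f ≠ g) (gk : g ≠ k) (kf : k ≠ f) (a : A → E3) (d : A → ℝ)
    (eta th : ℝ) (hη : 270 * N ^ 2 * eta ≤ 1) (y : E3)
    (ha : ∀ e i, |a e i - q e i| ≤ eta) (hd : ∀ e, |d e - 1| ≤ th)
    (yf : dp (a f) y = d f) (yg : dp (a g) y = d g) (yk : dp (a k) y = d k) (i : Fin 3) :
    |y i - x v i| ≤ 90 * N ^ 2 * (th + 3 * (eta * N)) := by
  have hN : 0 < N := lt_of_lt_of_le one_pos h.N1
  have hη0 : 0 ≤ eta := (abs_nonneg _).trans (ha f 0)
  have hth0 : 0 ≤ th := (abs_nonneg _).trans (hd f)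
  obtain ⟨W, hW, j0, hj0⟩ : ∃ W : ℝ, (∀ j, |y j - x v j| ≤ W) ∧ ∃ j, |y j - x v j| = W := by
    obtain ⟨j, _, hj⟩ := Finset.exists_max_image (Finset.univ : Finset (Fin 3))
      (fun j => |y j - x v j|) ⟨0, Finset.mem_univ _⟩
    exact ⟨_, fun j' => hj j' (Finset.mem_univ _), j, rfl⟩
  have hy : ∀ j, |y j| ≤ N + W := by
    intro j
    have h1 := abs_le.1 (hW j)
    have h2 := abs_le.1 (h.xb v j)
    rw [abs_le]
    constructor <;> linarith [h1.1, h1.2, h2.1, h2.2]
  have key : ∀ e, inc v e → dp (a e) y = d e →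
      |dp (q e) (y - x v)| ≤ th + 3 * (eta * (N + W)) := by
    intro e he hye
    have e1 : dp (q e) (y - x v) = (d e - 1) - dp (a e - q e) y := by
      rw [dp_sub, h.on v e he, dp_sub_left, hye]; ring
    have h1 := abs_le.1 (abs_dp_le (a := a e - q e) (b := y) (M := eta) (R := N + W)
      (fun j => ha e j) hy)
    have h2 := abs_le.1 (hd e)
    rw [e1, abs_le]
    constructor <;> linarith [h1.1, h1.2, h2.1, h2.2]
  have h1 := h.inv_le hf hg hk fg gk kf (y - x v) _ (key f hf yf) (key g hg yg) (key k hk yk) j0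
  rw [Pi.sub_apply, hj0] at h1
  have hW0 : 0 ≤ W := by rw [← hj0]; exact abs_nonneg _
  have h2 : 135 * N ^ 2 * eta * W ≤ W / 2 := by
    have : (270 * N ^ 2 * eta) * W ≤ 1 * W := mul_le_mul_of_nonneg_right hη hW0
    linarith
  have h3 : W ≤ 90 * N ^ 2 * (th + 3 * (eta * N)) := by
    have e2 : 45 * N ^ 2 * (th + 3 * (eta * (N + W))) =
      45 * N ^ 2 * (th + 3 * (eta * N)) + 135 * N ^ 2 * eta * W := by ring
    rw [e2] at h1
    linarith
  exact (hW i).trans h3

/-- a point close to `x v` is inside the planes of the facets not at `v` -/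
theorem Rea.off' (h : Rea inc x q N) {v : V} {e : A} (he : ¬ inc v e) {y b : E3} {c eps eta : ℝ}
    (hy : ∀ i, |y i - x v i| ≤ eps) (hb : ∀ i, |b i - q e i| ≤ eta) (hc : 1 ≤ c)
    (hs : 3 * (N * eps) + 3 * (eta * (N + eps)) < 1 / N) : dp b y < c := by
  have e1 : dp b y = dp (q e) (x v) + dp (q e) (y - x v) + dp (b - q e) y := by
    rw [dp_sub, dp_sub_left]; ring
  have h1 := abs_le.1 (abs_dp_le (a := q e) (b := y - x v) (M := N) (R := eps) (h.qb e)
    (fun j => hy j))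
  have hy' : ∀ j, |y j| ≤ N + eps := by
    intro j
    have h1 := abs_le.1 (hy j)
    have h2 := abs_le.1 (h.xb v j)
    rw [abs_le]
    constructor <;> linarith [h1.1, h1.2, h2.1, h2.2]
  have h2 := abs_le.1 (abs_dp_le (a := b - q e) (b := y) (M := eta) (R := N + eps)
    (fun j => hb j) hy')
  have h3 := h.off v e he
  rw [e1]
  linarith [h1.2, h2.2]

/-- the plane through three points close to `x u, x v, x w` -/
theorem Rea.tri' (h : Rea inc x q N) {e : A} {u v w z : V} (hu : inc u e) (hv : inc v e)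
    (hw : inc w e) (uv : u ≠ v) (vw : v ≠ w) (wu : w ≠ u) (hz : ¬ inc z e) {y : V → E3}
    {eps : ℝ} (hy : ∀ t i, |y t i - x t i| ≤ eps) (hN : eps ≤ N)
    (hs : 336 * N ^ 2 * eps < 1 / (90 * N ^ 6)) :
    dt (x u) (x v) (x w) * dt (y v - y u) (y w - y u) (y z - y u) < 0 := by
  have hN0 : 0 < N := lt_of_lt_of_le one_pos h.N1
  have hdet := h.dual.det_ge (v := e) (f := u) (g := v) (k := w) hu hv hw uv vw wu
  have hne := h.dual.det_ne (v := e) (f := u) (g := v) (k := w) hu hv hw uv vw wu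
  obtain ⟨s, hsd⟩ : ∃ s, s = dt (x u) (x v) (x w) := ⟨_, rfl⟩
  rw [← hsd] at hdet hne ⊢
  -- the exact value at x
  have hx : dt (x v - x u) (x w - x u) (x z - x u) = s * (dp (q e) (x z) - 1) := by
    have h1 := cramer (x u) (x v) (x w) (x z) (q e)
    rw [h.on u e hu, h.on v e hv, h.on w e hw, ← hsd] at h1
    have h2 : dt (x v - x u) (x w - x u) (x z - x u) = dt (x z) (x v) (x w) * 1 +
        dt (x u) (x z) (x w) * 1 + dt (x u) (x v) (x z) * 1 - s := by
      rw [hsd]; simp only [dt, Pi.sub_apply]; ring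
    rw [h2, ← h1]; ring
  have hz' := h.off z e hz
  have hdiff : ∀ t i, |(x t - x u) i| ≤ 2 * N := by
    intro t i
    have h1 := abs_le.1 (h.xb t i)
    have h2 := abs_le.1 (h.xb u i)
    rw [Pi.sub_apply, abs_le]
    constructor <;> linarith [h1.1, h1.2, h2.1, h2.2]
  have hdiff' : ∀ t i, |(y t - y u) i - (x t - x u) i| ≤ 2 * eps := by
    intro t i
    have h1 := abs_le.1 (hy t i)
    have h2 := abs_le.1 (hy u i)
    rw [Pi.sub_apply, Pi.sub_apply, abs_le]
    constructor <;> linarith [h1.1, h1.2, h2.1, h2.2]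
  have hp := dt_pert (by linarith : 2 * eps ≤ 2 * N) (hdiff v) (hdiff w) (hdiff z) (hdiff' v)
    (hdiff' w) (hdiff' z)
  rw [hx] at hp
  have hp' : |dt (y v - y u) (y w - y u) (y z - y u) - s * (dp (q e) (x z) - 1)| <
      1 / (90 * N ^ 6) := by
    refine lt_of_le_of_lt hp (lt_of_eq_of_lt ?_ hs)
    ring
  have hbig : 1 / (90 * N ^ 6) ≤ |s| * (1 - dp (q e) (x z)) := by
    have e1 : 1 / (90 * N ^ 6) = 1 / (90 * N ^ 5) * (1 / N) := by
      field_simp
    rw [e1]
    have h5 : 0 < 1 / N := by positivity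
    exact mul_le_mul hdet (by linarith) h5.le (abs_nonneg _)
  obtain ⟨D, hD⟩ : ∃ D, D = dt (y v - y u) (y w - y u) (y z - y u) := ⟨_, rfl⟩
  rw [← hD] at hp' ⊢
  have hp2 := abs_lt.1 hp'
  rcases lt_or_gt_of_ne hne with hs0 | hs0
  · rw [abs_of_neg hs0] at hbig
    have : 0 < D := by nlinarith [hp2.1]
    exact mul_neg_of_neg_of_pos hs0 this
  · rw [abs_of_pos hs0] at hbig
    have : D < 0 := by nlinarith [hp2.2]
    exact mul_neg_of_pos_of_neg hs0 this

/-- the normals near the facet vectors at a vertex are independent -/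
theorem Rea.det_ne' (h : Rea inc x q N) {v : V} {f g k : A} (hf : inc v f) (hg : inc v g)
    (hk : inc v k) (fg : f ≠ g) (gk : g ≠ k) (kf : k ≠ f) (a : A → E3) {eta : ℝ}
    (ha : ∀ e i, |a e i - q e i| ≤ eta) (hη : eta ≤ N)
    (hs : 42 * N ^ 2 * eta < 1 / (90 * N ^ 5)) : dt (a f) (a g) (a k) ≠ 0 := by
  intro h0
  have h1 := dt_pert hη (h.qb f) (h.qb g) (h.qb k) (ha f) (ha g) (ha k)
  rw [h0, zero_sub, abs_neg] at h1
  have h2 := h.det_ge hf hg hk fg gk kf
  linarith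

end

end Pool.RP
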