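import Pool.Agent.Lib.MP_9dcace_rp.M1
import Pool.Agent.Lib.MP_9dcace_rp.MDefs

/-!
MP_9dcace_co, class M3, signs: points `Y v` close to `T x v` and planes `a f`, `d f` close to `M q f`, `M T`, exactly
incident at the facets which are not triangular, give `Pla`.
-/

set_option autoImplicit false

open Classical

namespace Pool.RP

open Pool.SX

/-- a bound for a determinant -/
theorem abs_dt_le {x y z : E3} {A B C : ℝ} (hx : ∀ i, |x i| ≤ A) (hy : ∀ i, |y i| ≤ B)
    (hz : ∀ i, |z i| ≤ C) : |dt x y z| ≤ 6 * (A * B * C) := by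
  have hA : 0 ≤ A := (abs_nonneg _).trans (hx 0)
  have hB : 0 ≤ B := (abs_nonneg _).trans (hy 0)
  have h : ∀ i j k, |x i * (y j * z k)| ≤ A * B * C := by
    intro i j k
    rw [abs_mul, abs_mul, mul_assoc A B C]
    exact mul_le_mul (hx i) (mul_le_mul (hy j) (hz k) (abs_nonneg _) hB) (by positivity) hA
  have e : dt x y z = x 0 * (y 1 * z 2) - x 0 * (y 2 * z 1) - (x 1 * (y 0 * z 2) - x 1 * (y 2 * z 0)) +
      (x 2 * (y 0 * z 1) - x 2 * (y 1 * z 0)) := by
    simp only [dt]; ring
  rw [e, abs_le]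
  have h1 := abs_le.1 (h 0 1 2)
  have h2 := abs_le.1 (h 0 2 1)
  have h3 := abs_le.1 (h 1 0 2)
  have h4 := abs_le.1 (h 1 2 0)
  have h5 := abs_le.1 (h 2 0 1)
  have h6 := abs_le.1 (h 2 1 0)
  constructor <;> linarith [h1.1, h1.2, h2.1, h2.2, h3.1, h3.2, h4.1, h4.2, h5.1, h5.2, h6.1, h6.2]

theorem dt_expand (p1 p2 p3 r1 r2 r3 : E3) :
    dt (p1 + r1) (p2 + r2) (p3 + r3) - dt p1 p2 p3 =
      dt r1 p2 p3 + dt p1 r2 p3 + dt p1 p2 r3 + dt r1 r2 p3 + dt r1 p2 r3 + dt p1 r2 r3 +
        dt r1 r2 r3 := by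
  simp only [dt, Pi.add_apply]; ring

/-- a determinant of perturbed vectors -/
theorem abs_dt_sub_le {p1 p2 p3 r1 r2 r3 : E3} {N e : ℝ} (hN : 1 ≤ N) (he : 0 ≤ e) (he1 : e ≤ 1)
    (h1 : ∀ i, |p1 i| ≤ 2 * N) (h2 : ∀ i, |p2 i| ≤ 2 * N) (h3 : ∀ i, |p3 i| ≤ 2 * N)
    (k1 : ∀ i, |r1 i| ≤ 2 * e) (k2 : ∀ i, |r2 i| ≤ 2 * e) (k3 : ∀ i, |r3 i| ≤ 2 * e) :
    |dt (p1 + r1) (p2 + r2) (p3 + r3) - dt p1 p2 p3| ≤ 336 * N ^ 2 * e := by
  rw [dt_expand]
  have a1 := abs_le.1 (abs_dt_le k1 h2 h3)
  have a2 := abs_le.1 (abs_dt_le h1 k2 h3)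
  have a3 := abs_le.1 (abs_dt_le h1 h2 k3)
  have a4 := abs_le.1 (abs_dt_le k1 k2 h3)
  have a5 := abs_le.1 (abs_dt_le k1 h2 k3)
  have a6 := abs_le.1 (abs_dt_le h1 k2 k3)
  have a7 := abs_le.1 (abs_dt_le k1 k2 k3)
  have b1 : 6 * (2 * e * (2 * N) * (2 * N)) = 48 * N ^ 2 * e := by ring
  have b2 : 6 * (2 * N * (2 * e) * (2 * N)) = 48 * N ^ 2 * e := by ring
  have b3 : 6 * (2 * N * (2 * N) * (2 * e)) = 48 * N ^ 2 * e := by ring
  have c0 : N * e ^ 2 ≤ N ^ 2 * e := by
    have : N * e ^ 2 = (N * e) * e := by ring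
    rw [this]
    have h' : N * e * e ≤ N * e * N := mul_le_mul_of_nonneg_left (he1.trans hN) (by positivity)
    calc N * e * e ≤ N * e * N := h'
      _ = N ^ 2 * e := by ring
  have c1 : e ^ 3 ≤ N ^ 2 * e := by
    have h' : e ^ 2 ≤ N ^ 2 := by
      apply pow_le_pow_left₀ he
      exact he1.trans hN
    calc e ^ 3 = e ^ 2 * e := by ring
      _ ≤ N ^ 2 * e := mul_le_mul_of_nonneg_right h' he
  have b4 : 6 * (2 * e * (2 * e) * (2 * N)) = 48 * (N * e ^ 2) := by ring
  have b5 : 6 * (2 * e * (2 * N) * (2 * e)) = 48 * (N * e ^ 2) := by ring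
  have b6 : 6 * (2 * N * (2 * e) * (2 * e)) = 48 * (N * e ^ 2) := by ring
  have b7 : 6 * (2 * e * (2 * e) * (2 * e)) = 48 * e ^ 3 := by ring
  rw [b1] at a1
  rw [b2] at a2
  rw [b3] at a3
  rw [b4] at a4
  rw [b5] at a5
  rw [b6] at a6
  rw [b7] at a7
  rw [abs_le]
  constructor <;>
    nlinarith [a1.1, a1.2, a2.1, a2.2, a3.1, a3.2, a4.1, a4.2, a5.1, a5.2, a6.1, a6.2, a7.1, a7.2,
      c0, c1]

/-- the fourth vertex against the plane of a facet -/
theorem D4_facet (x1 x2 x3 z b : E3) (h1 : dp b x1 = 1) (h2 : dp b x2 = 1) (h3 : dp b x3 = 1) :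
    dt (x2 - x1) (x3 - x1) (z - x1) = (dp b z - 1) * dt x1 x2 x3 := by
  have h := cramer x1 x2 x3 z b
  rw [h1, h2, h3] at h
  have e : dt (x2 - x1) (x3 - x1) (z - x1) =
      dt z x2 x3 + dt x1 z x3 + dt x1 x2 z - dt x1 x2 x3 := by
    simp only [dt, Pi.sub_apply]; ring
  rw [e]
  linarith

theorem Rea.exists_pla {V A : Type} {inc : V → A → Prop} {x : V → E3} {q : A → E3} {N : ℝ}
    (h : Rea inc x q N) {T M e : ℝ} (hT : 0 < T) (hM : 0 < M) (he : 0 ≤ e)
    (heN : 40000 * N ^ 8 * e ≤ 1) (Y : V → E3) (hY : ∀ v i, |Y v i - T * x v i| ≤ T * e)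
    (a : A → E3) (d : A → ℝ) (ha : ∀ f i, |a f i - M * q f i| ≤ M * e)
    (hd : ∀ f, |d f - M * T| ≤ M * T * e)
    (hon : ∀ v f, inc v f → ¬ Trg inc f → dp (a f) (Y v) = d f) :
    ∃ (a' : A → E3) (d' : A → ℝ), Pla inc Y a' d' := by
  have hN1 := h.N1
  have hN : 0 < N := lt_of_lt_of_le one_pos hN1
  have hN8 : (1 : ℝ) ≤ N ^ 8 := one_le_pow₀ hN1
  have he1 : e ≤ 1 := by nlinarith
  have key : ∀ f, ∃ (b : E3) (c : ℝ), (∀ v, inc v f → dp b (Y v) = c) ∧
      ∀ v, ¬ inc v f → dp b (Y v) < c := by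
    intro f
    by_cases hf : Trg inc f
    · obtain ⟨u, v, w, huv, hvw, hwu, hz⟩ := hf
      have iu : inc u f := (hz u).2 (Or.inl rfl)
      have iv : inc v f := (hz v).2 (Or.inr (Or.inl rfl))
      have iw : inc w f := (hz w).2 (Or.inr (Or.inr rfl))
      set D := dt (x u) (x v) (x w) with hD
      have hDge : 1 / (90 * N ^ 5) ≤ |D| := h.dual.det_ge iu iv iw huv hvw hwu
      have hDpos : 0 < |D| := lt_of_lt_of_le (by positivity) hDge
      refine ⟨D • cr (Y v - Y u) (Y w - Y u), D * dp (cr (Y v - Y u) (Y w - Y u)) (Y u), ?_, ?_⟩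
      · intro z hzf
        rw [dp_smul_left]
        congr 1
        rcases (hz z).1 hzf with rfl | rfl | rfl
        · rfl
        · have := dp_sub (cr (Y z - Y u) (Y w - Y u)) (Y z) (Y u)
          rw [dp_cr, dt_self'] at this
          linarith
        · have := dp_sub (cr (Y v - Y u) (Y z - Y u)) (Y z) (Y u)
          rw [dp_cr, dt_self''] at this
          linarith
      · intro z hzf
        rw [dp_smul_left]
        have e1 : dp (cr (Y v - Y u) (Y w - Y u)) (Y z) - dp (cr (Y v - Y u) (Y w - Y u)) (Y u) =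
            dt (Y v - Y u) (Y w - Y u) (Y z - Y u) := by
          rw [← dp_sub, dp_cr]
        have hq : dp (q f) (x z) ≤ 1 - 1 / N := h.off z f hzf
        -- scaled points
        have hr : ∀ s, ∀ i, |(T⁻¹ • Y s - x s) i| ≤ e := by
          intro s i
          have e2 : (T⁻¹ • Y s - x s) i = T⁻¹ * (Y s i - T * x s i) := by
            simp only [Pi.sub_apply, Pi.smul_apply, smul_eq_mul]
            field_simp
          rw [e2, abs_mul, abs_of_pos (inv_pos.2 hT), inv_mul_le_iff₀ hT]
          exact hY s i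
        have hdiff : ∀ s i, |(x s - x u) i| ≤ 2 * N := by
          intro s i
          have h1 := h.xb s i
          have h2 := h.xb u i
          rw [Pi.sub_apply]
          rw [abs_le] at h1 h2 ⊢
          constructor <;> linarith [h1.1, h1.2, h2.1, h2.2]
        have hdr : ∀ s i, |((T⁻¹ • Y s - x s) - (T⁻¹ • Y u - x u)) i| ≤ 2 * e := by
          intro s i
          have h1 := hr s i
          have h2 := hr u i
          rw [Pi.sub_apply]
          rw [abs_le] at h1 h2 ⊢
          constructor <;> linarith [h1.1, h1.2, h2.1, h2.2]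
        have hbd := abs_dt_sub_le hN1 he he1 (hdiff v) (hdiff w) (hdiff z) (hdr v) (hdr w) (hdr z)
        have hY' : ∀ s, Y s - Y u = T • ((x s - x u) + ((T⁻¹ • Y s - x s) - (T⁻¹ • Y u - x u))) := by
          intro s
          funext i
          simp only [Pi.sub_apply, Pi.smul_apply, Pi.add_apply, smul_eq_mul]
          field_simp
          ring
        have hdt3 : ∀ p r s : E3, dt (T • p) (T • r) (T • s) = T ^ 3 * dt p r s := by
          intro p r s
          simp only [dt, Pi.smul_apply, smul_eq_mul]; ring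
        rw [hY' v, hY' w, hY' z] at e1
        rw [hdt3] at e1
        rw [← hY' v, ← hY' w] at e1
        set E := dt ((x v - x u) + ((T⁻¹ • Y v - x v) - (T⁻¹ • Y u - x u)))
          ((x w - x u) + ((T⁻¹ • Y w - x w) - (T⁻¹ • Y u - x u)))
          ((x z - x u) + ((T⁻¹ • Y z - x z) - (T⁻¹ • Y u - x u))) with hE
        have hD4 := D4_facet (x u) (x v) (x w) (x z) (q f) (h.on u f iu) (h.on v f iv) (h.on w f iw)
        rw [hD4] at hbd
        -- D * E < 0
        have hneg : D * E < 0 := by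
          have h1 := abs_le.1 hbd
          have h2 : 336 * N ^ 2 * e < |D| * (1 / N) := by
            have h3 : 1 / (90 * N ^ 5) * (1 / N) ≤ |D| * (1 / N) :=
              mul_le_mul_of_nonneg_right hDge (by positivity)
            refine lt_of_lt_of_le ?_ h3
            rw [← one_div_mul_one_div, one_div_mul_one_div, one_div_mul_one_div, lt_div_iff₀ (by positivity)]
            have h4 : 336 * N ^ 2 * e * (90 * N ^ 5 * N) = 30240 * N ^ 8 * e := by ring
            rw [h4]
            nlinarith [mul_nonneg (pow_nonneg hN.le 8) he]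
          have h5 : (dp (q f) (x z) - 1) ≤ -(1 / N) := by linarith
          have h6 : D * E = D * (E - (dp (q f) (x z) - 1) * D) + (dp (q f) (x z) - 1) * D ^ 2 := by
            ring
          rw [h6]
          have h7 : D * (E - (dp (q f) (x z) - 1) * D) ≤ |D| * (336 * N ^ 2 * e) := by
            refine (le_abs_self _).trans ?_
            rw [abs_mul]
            exact mul_le_mul_of_nonneg_left hbd (abs_nonneg _)
          have h8 : (dp (q f) (x z) - 1) * D ^ 2 ≤ -(1 / N) * |D| ^ 2 := by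
            rw [sq_abs]
            exact mul_le_mul_of_nonneg_right h5 (sq_nonneg _)
          have h9 : |D| * (336 * N ^ 2 * e) < |D| * (|D| * (1 / N)) :=
            mul_lt_mul_of_pos_left h2 hDpos
          have h10 : |D| * (|D| * (1 / N)) = (1 / N) * |D| ^ 2 := by ring
          linarith
        have h11 : D * dp (cr (Y v - Y u) (Y w - Y u)) (Y z) -
            D * dp (cr (Y v - Y u) (Y w - Y u)) (Y u) = T ^ 3 * (D * E) := by
          rw [← mul_sub, e1]; ring
        have h12 : T ^ 3 * (D * E) < 0 := mul_neg_of_pos_of_neg (by positivity) hneg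
        linarith
    · refine ⟨a f, d f, fun v hv => hon v f hv hf, fun v hv => ?_⟩
      have hq : dp (q f) (x v) ≤ 1 - 1 / N := h.off v f hv
      have hterm : ∀ i, a f i * Y v i - M * T * (q f i * x v i) ≤ 3 * (M * T * N * e) := by
        intro i
        have h1 := ha f i
        have h2 := hY v i
        have h3 := h.qb f i
        have h4 := h.xb v i
        have h5 : |Y v i| ≤ T * (N + e) := by
          have e5 : Y v i = (Y v i - T * x v i) + T * x v i := by ring
          rw [e5]
          refine (abs_add_le _ _).trans ?_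
          rw [abs_mul T, abs_of_pos hT]
          have := mul_le_mul_of_nonneg_left h4 hT.le
          linarith
        have e6 : a f i * Y v i - M * T * (q f i * x v i) =
            (a f i - M * q f i) * Y v i + M * q f i * (Y v i - T * x v i) := by ring
        rw [e6]
        have h7 : (a f i - M * q f i) * Y v i ≤ M * e * (T * (N + e)) := by
          refine (le_abs_self _).trans ?_
          rw [abs_mul]
          exact mul_le_mul h1 h5 (abs_nonneg _) (by positivity)
        have h8 : M * q f i * (Y v i - T * x v i) ≤ M * N * (T * e) := by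
          refine (le_abs_self _).trans ?_
          rw [abs_mul, abs_mul, abs_of_pos hM]
          exact mul_le_mul (mul_le_mul_of_nonneg_left h3 hM.le) h2 (abs_nonneg _) (by positivity)
        have h9 : M * e * (T * (N + e)) ≤ 2 * (M * T * N * e) := by
          have h10 : N + e ≤ 2 * N := by linarith
          have h11 : M * e * (T * (N + e)) ≤ M * e * (T * (2 * N)) :=
            mul_le_mul_of_nonneg_left (mul_le_mul_of_nonneg_left h10 hT.le) (by positivity)
          linarith
        linarith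
      have hsum : dp (a f) (Y v) - M * T * dp (q f) (x v) ≤ 9 * (M * T * N * e) := by
        rw [dp_def, dp_def]
        have h0 := hterm 0
        have h1 := hterm 1
        have h2 := hterm 2
        linarith
      have hdf := (abs_le.1 (hd f)).1
      have hMT : 0 < M * T := by positivity
      have h1 : M * T * dp (q f) (x v) ≤ M * T * (1 - 1 / N) := mul_le_mul_of_nonneg_left hq hMT.le
      have h2 : 9 * N * e + e < 1 / N := by
        rw [lt_div_iff₀ hN]
        have h3 : N ^ 2 ≤ N ^ 8 := pow_le_pow_right₀ hN1 (by norm_num)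
        have h4 : (9 * N * e + e) * N ≤ 10 * N ^ 2 * e := by
          have h6 : N * e ≤ N ^ 2 * e := by
            refine mul_le_mul_of_nonneg_right ?_ he
            calc N = N * 1 := (mul_one N).symm
              _ ≤ N * N := mul_le_mul_of_nonneg_left hN1 hN.le
              _ = N ^ 2 := by ring
          have h7 : (9 * N * e + e) * N = 9 * (N ^ 2 * e) + N * e := by ring
          rw [h7]
          linarith
        have h5 : N ^ 2 * e ≤ N ^ 8 * e := mul_le_mul_of_nonneg_right h3 he
        have h8 : 40000 * (N ^ 8 * e) ≤ 1 := by linarith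
        have h9 : 0 ≤ N ^ 8 * e := by positivity
        linarith
      have h3 : M * T * (9 * N * e + e) < M * T * (1 / N) := mul_lt_mul_of_pos_left h2 hMT
      nlinarith
  choose b c h1 h2 using key
  exact ⟨b, c, ⟨fun v f hv => h1 f v hv, fun v f hv => h2 f v hv⟩⟩

end Pool.RP
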