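import Pool.Agent.Lib.MP_9dcace_rp.M6a
import Pool.Agent.Lib.MP_9dcace_rp.MDefs
import Pool.Agent.Lib.MP_9dcace_sx.G11

/-!
MP_9dcace_co, library RP, row M6: the sphere of the perturbed polar polytope.
`exists_tau`: the facets of `H` keep their polar vertices `q e`, the other polar vertices are moved
inside by generic factors `t e` in `(1 - δ, 1)`; the result is a simplicial polytope all of whose
triangles consist of facets at one vertex, and every vertex has a triangle containing its `H`-facets.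
-/

set_option autoImplicit false

open Classical

namespace Pool.RP

open Pool.SX

/-! ### generic factors -/

/-- the determinant over any ring -/
def M6det {R : Type} [CommRing R] (x y z : Fin 3 → R) : R :=
  x 0 * (y 1 * z 2 - y 2 * z 1) - x 1 * (y 0 * z 2 - y 2 * z 0) + x 2 * (y 0 * z 1 - y 1 * z 0)

/-- the factor of the facet `e` -/
noncomputable def M6t {A : Type} (H : Finset A) (s : A → ℝ) (e : A) : ℝ := if e ∈ H then 1 else s e

/-- the perturbed polar vertices -/
noncomputable def M6y {A : Type} (H : Finset A) (q : A → E3) (s : A → ℝ) (e : A) : E3 :=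
  M6t H s e • q e

/-- the coordinates of the perturbed polar vertices as polynomials -/
noncomputable def M6Y {A : Type} (H : Finset A) (q : A → E3) (e : A) : Fin 3 → MvPolynomial A ℝ :=
  fun i => (if e ∈ H then 1 else MvPolynomial.X e) * MvPolynomial.C (q e i)

noncomputable def M6D {A : Type} (H : Finset A) (q : A → E3) (u v w z : A) : MvPolynomial A ℝ :=
  M6det (fun i => M6Y H q v i - M6Y H q u i) (fun i => M6Y H q w i - M6Y H q u i)
    (fun i => M6Y H q z i - M6Y H q u i)

theorem M6Y_eval {A : Type} (H : Finset A) (q : A → E3) (s : A → ℝ) (e : A) (i : Fin 3) :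
    MvPolynomial.eval s (M6Y H q e i) = M6y H q s e i := by
  simp only [M6Y, M6y, M6t, map_mul, MvPolynomial.eval_C, Pi.smul_apply, smul_eq_mul]
  split_ifs <;> simp

theorem M6D_eval {A : Type} (H : Finset A) (q : A → E3) (s : A → ℝ) (u v w z : A) :
    MvPolynomial.eval s (M6D H q u v w z) = D4 (M6y H q s) u v w z := by
  simp only [M6D, M6det, map_add, map_sub, map_mul, M6Y_eval, D4, dt, Pi.sub_apply]

theorem M6_generic {A : Type} [Fintype A] (H : Finset A) (q : A → E3) (δ : ℝ) (hδ : 0 < δ) :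
    ∃ s : A → ℝ, (∀ e, 1 - δ < s e ∧ s e < 1) ∧
      ∀ u v w z, (∃ s', D4 (M6y H q s') u v w z ≠ 0) → D4 (M6y H q s) u v w z ≠ 0 := by
  obtain ⟨D, hD⟩ : ∃ D : MvPolynomial A ℝ, D = ∏ p : A × A × A × A,
      (if M6D H q p.1 p.2.1 p.2.2.1 p.2.2.2 = 0 then 1 else M6D H q p.1 p.2.1 p.2.2.1 p.2.2.2) :=
    ⟨_, rfl⟩
  have hne : D ≠ 0 := by
    rw [hD]
    refine Finset.prod_ne_zero_iff.mpr fun p _ => ?_
    split_ifs with h
    · exact one_ne_zero
    · exact h
  have hex : ∃ s ∈ Set.pi Set.univ (fun _ : A => Set.Ioo (1 - δ) 1), MvPolynomial.eval s D ≠ 0 := by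
    by_contra hcon
    push Not at hcon
    refine hne (MvPolynomial.funext_set (fun _ : A => Set.Ioo (1 - δ) 1)
      (fun _ => Set.Ioo_infinite (by linarith)) fun s hs => ?_)
    rw [hcon s hs, map_zero]
  obtain ⟨s, hs, hs2⟩ := hex
  refine ⟨s, fun e => hs e (Set.mem_univ e), fun u v w z ⟨s', hs'⟩ => ?_⟩
  rw [← M6D_eval] at hs' ⊢
  have h0 : M6D H q u v w z ≠ 0 := by
    intro h
    rw [h, map_zero] at hs'
    exact hs' rfl
  rw [hD, map_prod] at hs2
  have h1 := Finset.prod_ne_zero_iff.mp hs2 (u, v, w, z) (Finset.mem_univ _)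
  dsimp only at h1
  rw [if_neg h0] at h1
  exact h1

/-! ### no three points on a line -/

theorem M6_cr_ne {V : Type} {P : V → E3}
    (hext : ∀ v : V, ∃ a : E3, ∀ z : V, z ≠ v → dp a (P z) < dp a (P v))
    {u v w : V} (huv : u ≠ v) (hvw : v ≠ w) (hwu : w ≠ u) :
    cr (P v - P u) (P w - P u) ≠ 0 := by
  intro hcr
  have hinj : P v ≠ P u := by
    intro he
    obtain ⟨a, ha⟩ := hext v
    have h1 := ha u huv
    rw [he] at h1
    exact lt_irrefl _ h1
  set x : E3 := P v - P u with hx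
  set y : E3 := P w - P u with hy
  have hx0 : x ≠ 0 := fun h0 => hinj (sub_eq_zero.mp h0)
  have hxx := dp_self_pos hx0
  have c0 : x 1 * y 2 - x 2 * y 1 = 0 := by
    have := congrFun hcr 0
    simpa [cr] using this
  have c1 : x 2 * y 0 - x 0 * y 2 = 0 := by
    have := congrFun hcr 1
    simpa [cr] using this
  have c2 : x 0 * y 1 - x 1 * y 0 = 0 := by
    have := congrFun hcr 2
    simpa [cr] using this
  set t : ℝ := dp x y / dp x x with ht
  have htx : t * dp x x = dp x y := by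
    rw [ht]
    field_simp
  have e0 : y 0 = t * x 0 := by
    have h1 : dp x x * (y 0 - t * x 0) = 0 := by
      have h2 : dp x x * (y 0 - t * x 0) = dp x x * y 0 - (t * dp x x) * x 0 := by ring
      rw [h2, htx, dp_def, dp_def]
      linear_combination (-(x 1)) * c2 + (x 2) * c1
    have h3 := (mul_eq_zero.mp h1).resolve_left hxx.ne'
    linarith
  have e1 : y 1 = t * x 1 := by
    have h1 : dp x x * (y 1 - t * x 1) = 0 := by
      have h2 : dp x x * (y 1 - t * x 1) = dp x x * y 1 - (t * dp x x) * x 1 := by ring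
      rw [h2, htx, dp_def, dp_def]
      linear_combination (x 0) * c2 - (x 2) * c0
    have h3 := (mul_eq_zero.mp h1).resolve_left hxx.ne'
    linarith
  have e2 : y 2 = t * x 2 := by
    have h1 : dp x x * (y 2 - t * x 2) = 0 := by
      have h2 : dp x x * (y 2 - t * x 2) = dp x x * y 2 - (t * dp x x) * x 2 := by ring
      rw [h2, htx, dp_def, dp_def]
      linear_combination (x 1) * c0 - (x 0) * c1
    have h3 := (mul_eq_zero.mp h1).resolve_left hxx.ne'
    linarith
  have key : ∀ a : E3, dp a (P w) - dp a (P u) = t * (dp a (P v) - dp a (P u)) := by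
    intro a
    rw [← dp_sub, ← dp_sub, ← hx, ← hy, dp_def, dp_def, e0, e1, e2]
    ring
  rcases le_or_gt t 0 with h1 | h1
  · obtain ⟨a, ha⟩ := hext u
    have k1 := ha v huv.symm
    have k2 := ha w hwu
    have k3 := key a
    nlinarith
  · rcases le_or_gt t 1 with h2 | h2
    · obtain ⟨a, ha⟩ := hext w
      have k1 := ha u hwu.symm
      have k2 := ha v hvw
      have k3 := key a
      nlinarith
    · obtain ⟨a, ha⟩ := hext v
      have k1 := ha u huv
      have k2 := ha w hvw.symm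
      have k3 := key a
      nlinarith

/-! ### the perturbed polytope -/

variable {V A : Type} [Fintype V] [Fintype A] {x : V → E3} {q : A → E3}

/-- the smallness of the perturbation -/
structure M6c (x : V → E3) (q : A → E3) (m δ : ℝ) : Prop where
  m0 : 0 < m
  mar : ∀ v f, dp (q f) (x v) ≠ 1 → dp (q f) (x v) ≤ 1 - m
  d0 : 0 < δ
  d1 : δ < 1
  dV : δ * Fintype.card V < m
  dA : δ * Fintype.card A < m / 2
  d2 : δ < m / 2
  ex : ∀ (t : A → ℝ) (f : A), (∀ e, 1 - δ < t e ∧ t e ≤ 1) →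
    ∃ a : E3, ∀ g, g ≠ f → dp a (t g • q g) < dp a (t f • q f)

theorem M6_pos (hP : Pol x q) {a : E3} (ha : a ≠ 0) : ∃ z, 0 < dp a (q z) := by
  by_contra hcon
  push Not at hcon
  obtain ⟨M, hM⟩ : ∃ M : ℝ, M = 1 + ∑ v, |dp a (x v)| := ⟨_, rfl⟩
  have hMv : ∀ v, dp a (x v) ≤ M := by
    intro v
    have h1 := Finset.single_le_sum (s := Finset.univ) (f := fun v => |dp a (x v)|)
      (fun v _ => abs_nonneg _) (Finset.mem_univ v)
    have h2 := le_abs_self (dp a (x v))
    linarith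
  have hM0 : 0 < M := by
    rw [hM]
    have := Finset.sum_nonneg (s := Finset.univ) fun v (_ : v ∈ Finset.univ) =>
      abs_nonneg (dp a (x v))
    linarith
  have h1 : M⁻¹ • a ∈ convexHull ℝ (Set.range q) := by
    refine hP.hullA _ fun v => ?_
    rw [dp_smul_left]
    calc M⁻¹ * dp a (x v) ≤ M⁻¹ * M := mul_le_mul_of_nonneg_left (hMv v) (inv_pos.mpr hM0).le
      _ = 1 := inv_mul_cancel₀ hM0.ne'
  obtain ⟨w, w0, w1, w2⟩ := hull_rep h1
  have e1 : dp a (M⁻¹ • a) = ∑ z, w z * dp a (q z) := by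
    rw [← w2, dp_sum6]
    exact Finset.sum_congr rfl fun u _ => dp_smul _ _ _
  have e2 : ∑ z, w z * dp a (q z) ≤ 0 :=
    Finset.sum_nonpos fun z _ => mul_nonpos_of_nonneg_of_nonpos (w0 z) (hcon z)
  have e3 : 0 < dp a (M⁻¹ • a) := by
    rw [dp_smul]
    exact mul_pos (inv_pos.mpr hM0) (dp_self_pos ha)
  linarith

/-- the constants exist -/
theorem M6_exists (hP : Pol x q) : ∃ m δ, M6c x q m δ := by
  obtain ⟨m, hm0, hm1, hm⟩ := hP.margin
  choose a ha using hP.expA
  obtain ⟨m2, h20, h21, h2⟩ := exists_pos_le (ι := A × A) (fun p => p.2 ≠ p.1)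
    (fun p => dp (a p.1) (q p.1) - dp (a p.1) (q p.2)) (fun p hp => by
      have := ha p.1 p.2 hp
      linarith)
  obtain ⟨M, hM⟩ : ∃ M : ℝ, M = 1 + ∑ p : A × A, |dp (a p.1) (q p.2)| := ⟨_, rfl⟩
  have hMf : ∀ f g, |dp (a f) (q g)| ≤ M := by
    intro f g
    have h1 := Finset.single_le_sum (s := Finset.univ) (f := fun p : A × A => |dp (a p.1) (q p.2)|)
      (fun p _ => abs_nonneg _) (Finset.mem_univ (f, g))
    dsimp only at h1
    linarith
  have hM0 : 0 < M := by
    rw [hM]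
    have := Finset.sum_nonneg (s := Finset.univ) fun p (_ : p ∈ Finset.univ) =>
      abs_nonneg (dp (a (p : A × A).1) (q p.2))
    linarith
  obtain ⟨N, hN⟩ : ∃ N : ℝ, N = 2 * (Fintype.card V + Fintype.card A + 2) + 4 * M := ⟨_, rfl⟩
  have hcV : (0 : ℝ) ≤ Fintype.card V := Nat.cast_nonneg _
  have hcA : (0 : ℝ) ≤ Fintype.card A := Nat.cast_nonneg _
  have hN0 : 0 < N := by rw [hN]; linarith
  obtain ⟨e, he⟩ : ∃ e : ℝ, e = min m m2 := ⟨_, rfl⟩
  have he0 : 0 < e := by rw [he]; exact lt_min hm0 h20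
  have hem : e ≤ m := by rw [he]; exact min_le_left _ _
  have hem2 : e ≤ m2 := by rw [he]; exact min_le_right _ _
  have hd0 : 0 < e / N := div_pos he0 hN0
  have hdN : e / N * N = e := by field_simp
  refine ⟨m, e / N, hm0, hm, hd0, ?_, ?_, ?_, ?_, ?_⟩
  · rw [div_lt_one hN0]
    rw [hN]; linarith
  · have h1 : e / N * Fintype.card V < e / N * N := by
      refine mul_lt_mul_of_pos_left ?_ hd0
      rw [hN]; linarith
    linarith
  · have h1 : e / N * (2 * Fintype.card A) < e / N * N := by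
      refine mul_lt_mul_of_pos_left ?_ hd0
      rw [hN]; linarith
    have h2 : e / N * (2 * (Fintype.card A : ℝ)) = 2 * (e / N * Fintype.card A) := by ring
    linarith
  · have h1 : e / N * 2 < e / N * N := by
      refine mul_lt_mul_of_pos_left ?_ hd0
      rw [hN]; linarith
    linarith
  · intro t f ht
    refine ⟨a f, fun g hg => ?_⟩
    have h3 := h2 (f, g) hg
    dsimp only at h3
    rw [dp_smul, dp_smul]
    have h4 := hMf f g
    have h5 := hMf f f
    rw [abs_le] at h4 h5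
    have h6 : e / N * (4 * M) < e / N * N := by
      refine mul_lt_mul_of_pos_left ?_ hd0
      rw [hN]; linarith
    obtain ⟨δ, hδ⟩ : ∃ δ, δ = e / N := ⟨_, rfl⟩
    rw [← hδ] at ht h6 hd0 hdN
    have h7 : 1 - t g ≤ δ := by linarith [(ht g).1]
    have h8 : 1 - t f ≤ δ := by linarith [(ht f).1]
    have h9 : 0 ≤ 1 - t g := by linarith [(ht g).2]
    have h10 : 0 ≤ 1 - t f := by linarith [(ht f).2]
    -- t_f A_f - t_g A_g = (A_f - A_g) - (1 - t_f) A_f + (1 - t_g) A_g
    have k1 : (1 - t f) * dp (a f) (q f) ≤ δ * M := by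
      calc (1 - t f) * dp (a f) (q f) ≤ (1 - t f) * M := mul_le_mul_of_nonneg_left h5.2 h10
        _ ≤ δ * M := mul_le_mul_of_nonneg_right h8 hM0.le
    have k2 : -(δ * M) ≤ (1 - t g) * dp (a f) (q g) := by
      have : (1 - t g) * (-M) ≤ (1 - t g) * dp (a f) (q g) :=
        mul_le_mul_of_nonneg_left h4.1 h9
      have h11 : (1 - t g) * M ≤ δ * M := mul_le_mul_of_nonneg_right h7 hM0.le
      linarith
    have k3 : δ * (4 * M) = 4 * (δ * M) := by ring
    have k4 : t f * dp (a f) (q f) - t g * dp (a f) (q g) = (dp (a f) (q f) - dp (a f) (q g)) -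
      (1 - t f) * dp (a f) (q f) + (1 - t g) * dp (a f) (q g) := by ring
    have k5 : 0 ≤ δ * M := mul_nonneg hd0.le hM0.le
    linarith

theorem M6_rep (hP : Pol x q) {m δ : ℝ} (hc : M6c x q m δ) {t : A → ℝ}
    (ht : ∀ e, 1 - δ < t e ∧ t e ≤ 1) {b : E3} (hb : ∀ z, dp b (t z • q z) ≤ 1) :
    ∃ w : V → ℝ, (∀ v, 0 ≤ w v) ∧ ∑ v, w v = 1 ∧ ∑ v, w v • x v = (1 - δ) • b ∧
      ∀ z, dp b (t z • q z) = 1 → ∀ v, w v * (1 - dp (q z) (x v)) ≤ δ := by
  have hd0 := hc.d0
  have hd1 := hc.d1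
  have h1 : (1 - δ) • b ∈ convexHull ℝ (Set.range x) := by
    refine hP.hullV _ fun f => ?_
    rw [dp_comm, dp_smul_left]
    have h2 := hb f
    rw [dp_smul] at h2
    have h3 := (ht f).1
    rcases le_or_gt (dp b (q f)) 0 with h4 | h4
    · have := mul_nonpos_of_nonneg_of_nonpos (by linarith : (0 : ℝ) ≤ 1 - δ) h4
      linarith
    · have := mul_le_mul_of_nonneg_right h3.le h4.le
      linarith
  obtain ⟨w, w0, w1, w2⟩ := hull_rep h1
  refine ⟨w, w0, w1, w2, fun z hz v => ?_⟩
  have e1 : ∑ u, w u * (1 - dp (q z) (x u)) = 1 - (1 - δ) * dp b (q z) := by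
    have e2 : dp (q z) ((1 - δ) • b) = ∑ u, w u * dp (q z) (x u) := by
      rw [← w2, dp_sum6]
      exact Finset.sum_congr rfl fun u _ => dp_smul _ _ _
    rw [dp_comm, dp_smul_left] at e2
    have e3 : ∑ u, w u * (1 - dp (q z) (x u)) = ∑ u, w u - ∑ u, w u * dp (q z) (x u) := by
      rw [← Finset.sum_sub_distrib]
      exact Finset.sum_congr rfl fun u _ => by ring
    rw [e3, w1, ← e2]
  rw [dp_smul] at hz
  have h5 : 1 ≤ dp b (q z) := by
    have h6 := (ht z).1
    have h7 := (ht z).2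
    have h8 : 0 < dp b (q z) := by
      by_contra h9
      push Not at h9
      have := mul_nonpos_of_nonneg_of_nonpos (by linarith : (0 : ℝ) ≤ t z) h9
      linarith
    have := mul_le_mul_of_nonneg_right h7 h8.le
    linarith
  have h6 : 1 - (1 - δ) * dp b (q z) ≤ δ := by
    have := mul_le_mul_of_nonneg_left h5 (by linarith : (0 : ℝ) ≤ 1 - δ)
    linarith
  have h7 : w v * (1 - dp (q z) (x v)) ≤ ∑ u, w u * (1 - dp (q z) (x u)) :=
    Finset.single_le_sum (f := fun u => w u * (1 - dp (q z) (x u)))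
      (fun u _ => mul_nonneg (w0 u) (by linarith [hP.le u z])) (Finset.mem_univ v)
  linarith

/-- a supporting plane of the perturbed polytope is tight only at the facets of one vertex -/
theorem M6_tight (hP : Pol x q) {m δ : ℝ} (hc : M6c x q m δ) {t : A → ℝ}
    (ht : ∀ e, 1 - δ < t e ∧ t e ≤ 1) {b : E3} (hb : ∀ z, dp b (t z • q z) ≤ 1) :
    ∃ v, ∀ z, dp b (t z • q z) = 1 → dp (q z) (x v) = 1 := by
  obtain ⟨w, w0, w1, w2, w3⟩ := M6_rep hP hc ht hb
  have hne : (Finset.univ : Finset V).Nonempty := by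
    by_contra hcon
    rw [Finset.not_nonempty_iff_eq_empty] at hcon
    rw [hcon, Finset.sum_empty] at w1
    exact zero_ne_one w1
  obtain ⟨v, -, hv⟩ := Finset.exists_max_image Finset.univ w hne
  have h1 : 1 ≤ Fintype.card V * w v := by
    rw [← w1]
    calc ∑ u, w u ≤ ∑ _u : V, w v := Finset.sum_le_sum fun u hu => hv u hu
      _ = Fintype.card V * w v := by
        rw [Finset.sum_const, Finset.card_univ, nsmul_eq_mul]
  refine ⟨v, fun z hz => ?_⟩
  by_contra hn
  have h2 := hc.mar v z hn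
  have h3 := w3 z hz v
  have h4 := hc.dV
  have hm0 := hc.m0
  have h5 : w v * m ≤ δ := by
    have := mul_le_mul_of_nonneg_left (by linarith : m ≤ 1 - dp (q z) (x v)) (w0 v)
    linarith
  have hcV : (0 : ℝ) ≤ Fintype.card V := Nat.cast_nonneg _
  have h6 := mul_le_mul_of_nonneg_left h5 hcV
  have h7 := mul_le_mul_of_nonneg_right h1 hm0.le
  have h8 : (Fintype.card V : ℝ) * (w v * m) = Fintype.card V * w v * m := by ring
  rw [h8] at h6
  linarith

/-- the same for a prescribed vertex -/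
theorem M6_tight' (hP : Pol x q) {m δ : ℝ} (hc : M6c x q m δ) {t : A → ℝ}
    (ht : ∀ e, 1 - δ < t e ∧ t e ≤ 1) {b : E3} (hb : ∀ z, dp b (t z • q z) ≤ 1) (v : V)
    (hv : ((Finset.univ.filter fun e => dp (q e) (x v) = 1).card : ℝ) ≤
      ∑ e ∈ Finset.univ.filter (fun e => dp (q e) (x v) = 1), dp (q e) b) :
    ∀ z, dp b (t z • q z) = 1 → dp (q z) (x v) = 1 := by
  obtain ⟨w, w0, w1, w2, w3⟩ := M6_rep hP hc ht hb
  obtain ⟨E, hE⟩ : ∃ E : Finset A, E = Finset.univ.filter fun e => dp (q e) (x v) = 1 := ⟨_, rfl⟩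
  rw [← hE] at hv
  have hd0 := hc.d0
  have hd1 := hc.d1
  have hm0 := hc.m0
  -- the total defect
  have e1 : ∑ u, w u * ∑ e ∈ E, (1 - dp (q e) (x u)) = E.card - (1 - δ) * ∑ e ∈ E, dp (q e) b := by
    have e2 : ∀ e, ∑ u, w u * (1 - dp (q e) (x u)) = 1 - (1 - δ) * dp (q e) b := by
      intro e
      have e3 : dp (q e) ((1 - δ) • b) = ∑ u, w u * dp (q e) (x u) := by
        rw [← w2, dp_sum6]
        exact Finset.sum_congr rfl fun u _ => dp_smul _ _ _
      rw [dp_smul] at e3
      have e4 : ∑ u, w u * (1 - dp (q e) (x u)) = ∑ u, w u - ∑ u, w u * dp (q e) (x u) := by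
        rw [← Finset.sum_sub_distrib]
        exact Finset.sum_congr rfl fun u _ => by ring
      rw [e4, w1, ← e3]
    calc ∑ u, w u * ∑ e ∈ E, (1 - dp (q e) (x u))
        = ∑ u, ∑ e ∈ E, w u * (1 - dp (q e) (x u)) :=
          Finset.sum_congr rfl fun u _ => Finset.mul_sum _ _ _
      _ = ∑ e ∈ E, ∑ u, w u * (1 - dp (q e) (x u)) := Finset.sum_comm
      _ = ∑ e ∈ E, (1 - (1 - δ) * dp (q e) b) := Finset.sum_congr rfl fun e _ => e2 e
      _ = E.card - (1 - δ) * ∑ e ∈ E, dp (q e) b := by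
        rw [Finset.sum_sub_distrib, Finset.sum_const, nsmul_eq_mul, mul_one, Finset.mul_sum]
  have h1 : ∑ u, w u * ∑ e ∈ E, (1 - dp (q e) (x u)) ≤ δ * E.card := by
    rw [e1]
    have := mul_le_mul_of_nonneg_left hv (by linarith : (0 : ℝ) ≤ 1 - δ)
    linarith
  -- lower bound
  have h2 : ∀ u, u ≠ v → m ≤ ∑ e ∈ E, (1 - dp (q e) (x u)) := by
    intro u hu
    obtain ⟨f, hf1, hf2⟩ := hP.sep hu.symm
    have h3 := hc.mar u f hf2
    have h4 : 1 - dp (q f) (x u) ≤ ∑ e ∈ E, (1 - dp (q e) (x u)) :=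
      Finset.single_le_sum (f := fun e => 1 - dp (q e) (x u))
        (fun e _ => by linarith [hP.le u e])
        (by rw [hE]; exact Finset.mem_filter.mpr ⟨Finset.mem_univ _, hf1⟩)
    linarith
  have h3 : (1 - w v) * m ≤ ∑ u, w u * ∑ e ∈ E, (1 - dp (q e) (x u)) := by
    have h4 : ∑ u ∈ Finset.univ.erase v, w u * m ≤
        ∑ u ∈ Finset.univ.erase v, w u * ∑ e ∈ E, (1 - dp (q e) (x u)) :=
      Finset.sum_le_sum fun u hu => mul_le_mul_of_nonneg_left (h2 u (Finset.ne_of_mem_erase hu)) (w0 u)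
    have h5 : ∑ u ∈ Finset.univ.erase v, w u * ∑ e ∈ E, (1 - dp (q e) (x u)) ≤
        ∑ u, w u * ∑ e ∈ E, (1 - dp (q e) (x u)) :=
      Finset.sum_le_sum_of_subset_of_nonneg (Finset.erase_subset _ _) fun u _ _ =>
        mul_nonneg (w0 u) (Finset.sum_nonneg fun e _ => by linarith [hP.le u e])
    have h6 : ∑ u ∈ Finset.univ.erase v, w u = 1 - w v := by
      rw [← w1, ← Finset.add_sum_erase Finset.univ w (Finset.mem_univ v)]
      ring
    rw [← Finset.sum_mul, h6] at h4
    linarith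
  have h4 : (E.card : ℝ) ≤ Fintype.card A := by
    exact_mod_cast Finset.card_le_univ E
  have h5 := mul_le_mul_of_nonneg_left h4 hd0.le
  have h6 := hc.dA
  have h7 : 1 / 2 ≤ w v := by
    by_contra hcon
    push Not at hcon
    have : (1 / 2) * m ≤ (1 - w v) * m := mul_le_mul_of_nonneg_right (by linarith) hm0.le
    linarith
  intro z hz
  by_contra hn
  have h8 := hc.mar v z hn
  have h9 := w3 z hz v
  have h10 := hc.d2
  have h11 : 1 / 2 * m ≤ w v * (1 - dp (q z) (x v)) :=
    mul_le_mul h7 (by linarith) hm0.le (w0 v)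
  linarith

theorem M6_spoly (hP : Pol x q) {m δ : ℝ} (hc : M6c x q m δ) (H : Finset A)
    (hH : ∀ v, (Finset.univ.filter (fun f => f ∈ H ∧ dp (q f) (x v) = 1)).card ≤ 3)
    {s : A → ℝ} (hs : ∀ e, 1 - δ < s e ∧ s e < 1)
    (hg : ∀ u v w z, (∃ s', D4 (M6y H q s') u v w z ≠ 0) → D4 (M6y H q s) u v w z ≠ 0) :
    SPoly (M6y H q s) := by
  have hd0 := hc.d0
  have hd1 := hc.d1
  have ht : ∀ e, 1 - δ < M6t H s e ∧ M6t H s e ≤ 1 := by
    intro e
    unfold M6t
    split_ifs
    · exact ⟨by linarith, le_rfl⟩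
    · exact ⟨(hs e).1, (hs e).2.le⟩
  have hext : ∀ v : A, ∃ a : E3, ∀ z : A, z ≠ v → dp a (M6y H q s z) < dp a (M6y H q s v) :=
    fun v => hc.ex (M6t H s) v ht
  refine ⟨hext, ?_, ?_⟩
  · intro a c h
    by_contra ha
    obtain ⟨z, hz⟩ := M6_pos hP ha
    obtain ⟨z', hz'⟩ := M6_pos hP (neg_ne_zero.mpr ha)
    have h1 := h z
    have h2 := h z'
    rw [M6y, dp_smul] at h1 h2
    rw [dp_neg_left] at hz'
    have h3 : 0 < M6t H s z * dp a (q z) := mul_pos (by linarith [(ht z).1]) hz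
    have h4 : M6t H s z' * dp a (q z') < 0 :=
      mul_neg_of_pos_of_neg (by linarith [(ht z').1]) (by linarith)
    linarith
  · intro a c ha h
    obtain ⟨z0, hz0⟩ := M6_pos hP ha
    have hc0 : 0 < c := by
      have h1 := h z0
      rw [M6y, dp_smul] at h1
      have h3 : 0 < M6t H s z0 * dp a (q z0) := mul_pos (by linarith [(ht z0).1]) hz0
      linarith
    obtain ⟨b, hb⟩ : ∃ b : E3, b = c⁻¹ • a := ⟨_, rfl⟩
    have hbz : ∀ z, dp b (M6y H q s z) = c⁻¹ * dp a (M6y H q s z) := by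
      intro z
      rw [hb, dp_smul_left]
    have hb1 : ∀ z, dp b (M6t H s z • q z) ≤ 1 := by
      intro z
      have h1 := hbz z
      rw [M6y] at h1
      rw [h1]
      calc c⁻¹ * dp a (M6t H s z • q z) ≤ c⁻¹ * c :=
            mul_le_mul_of_nonneg_left (h z) (inv_pos.mpr hc0).le
        _ = 1 := inv_mul_cancel₀ hc0.ne'
    obtain ⟨v, hv⟩ := M6_tight hP hc ht hb1
    by_contra hcard
    push Not at hcard
    obtain ⟨B, hB⟩ : ∃ B : Finset A, B = Finset.univ.filter fun z => dp a (M6y H q s z) = c :=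
      ⟨_, rfl⟩
    have hBc : 3 < B.card := by
      rw [hB]
      convert hcard
    have hB1 : ∀ z ∈ B, dp b (M6y H q s z) = 1 := by
      intro z hz
      rw [hB, Finset.mem_filter] at hz
      rw [hbz z, hz.2]
      exact inv_mul_cancel₀ hc0.ne'
    have hBv : ∀ z ∈ B, dp (q z) (x v) = 1 := fun z hz => hv z (hB1 z hz)
    -- an element outside `H`
    obtain ⟨e, heB, heH⟩ : ∃ e ∈ B, e ∉ H := by
      by_contra hcon
      push Not at hcon
      have h1 : B ⊆ Finset.univ.filter (fun f => f ∈ H ∧ dp (q f) (x v) = 1) := fun z hz =>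
        Finset.mem_filter.mpr ⟨Finset.mem_univ _, hcon z hz, hBv z hz⟩
      have h2 := (Finset.card_le_card h1).trans (hH v)
      omega
    have hB2 : 3 ≤ (B.erase e).card := by
      rw [Finset.card_erase_of_mem heB]
      omega
    obtain ⟨T, hT1, hT2⟩ := Finset.exists_subset_card_eq hB2
    obtain ⟨f, g, k, hfg, hfk, hgk, rfl⟩ := Finset.card_eq_three.mp hT2
    have hf := Finset.mem_erase.mp (hT1 (by simp : f ∈ ({f, g, k} : Finset A)))
    have hg' := Finset.mem_erase.mp (hT1 (by simp : g ∈ ({f, g, k} : Finset A)))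
    have hk := Finset.mem_erase.mp (hT1 (by simp : k ∈ ({f, g, k} : Finset A)))
    have hf1 := hB1 f hf.2
    have hg1 := hB1 g hg'.2
    have hk1 := hB1 k hk.2
    have he1 := hB1 e heB
    have hn := M6_cr_ne hext hfg hgk hfk.symm
    obtain ⟨n, hn'⟩ : ∃ n, n = cr (M6y H q s g - M6y H q s f) (M6y H q s k - M6y H q s f) :=
      ⟨_, rfl⟩
    rw [← hn'] at hn
    have hpar : ∀ i, dp n n * b i = dp n b * n i := by
      intro i
      rw [hn']
      exact G3_par (by rw [dp_sub, hf1, hg1, sub_self]) (by rw [dp_sub, hf1, hk1, sub_self]) i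
    have hmul : ∀ z, dp n n * dp b z = dp n b * dp n z := by
      intro z
      rw [dp_def b z, dp_def n z]
      linear_combination z 0 * hpar 0 + z 1 * hpar 1 + z 2 * hpar 2
    have hnn := dp_self_pos hn
    -- the determinant vanishes
    have hD0 : D4 (M6y H q s) f g k e = 0 := by
      have h1 : D4 (M6y H q s) f g k e = dp n (M6y H q s e - M6y H q s f) := by
        rw [hn', dp_cr]
        rfl
      have h2 := hmul (M6y H q s e - M6y H q s f)
      rw [dp_sub, he1, hf1, sub_self, mul_zero] at h2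
      rw [h1]
      rcases mul_eq_zero.mp h2.symm with h3 | h3
      · exfalso
        have h4 := hmul (M6y H q s f)
        rw [h3, zero_mul, hf1, mul_one] at h4
        exact hnn.ne' h4
      · exact h3
    -- but it is not identically zero
    refine hg f g k e ⟨fun z => if z = e then 0 else s z, ?_⟩ hD0
    have hne : ∀ z, z ≠ e → M6y H q (fun z => if z = e then 0 else s z) z = M6y H q s z := by
      intro z hz
      simp only [M6y, M6t, if_neg hz]
    have hze : M6y H q (fun z => if z = e then 0 else s z) e = 0 := by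
      simp only [M6y, M6t, if_neg heH, if_true, zero_smul]
    have h1 : D4 (M6y H q (fun z => if z = e then 0 else s z)) f g k e =
        - dp n (M6y H q s f) := by
      rw [D4, hne f hf.1, hne g hg'.1, hne k hk.1, hze, ← dp_cr, ← hn', dp_sub, dp_zero, zero_sub]
    rw [h1]
    intro h2
    have h3 := hmul (M6y H q s f)
    rw [neg_eq_zero.mp h2, mul_zero, hf1, mul_one] at h3
    exact hnn.ne' h3

/-- every vertex has a triangle of the perturbed polytope containing its `H`-facets -/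
theorem M6_tri (hP : Pol x q) {m δ : ℝ} (hc : M6c x q m δ) (H : Finset A) {s : A → ℝ} (hs : ∀ e, 1 - δ < s e ∧ s e < 1)
    (hsp : SPoly (M6y H q s)) (v : V) :
    ∃ tr : Fin 3 → A, Tri (M6y H q s) (tr 0) (tr 1) (tr 2) ∧ (∀ j, dp (q (tr j)) (x v) = 1) ∧
      ∀ f ∈ H, dp (q f) (x v) = 1 → ∃ j, tr j = f := by
  have hd0 := hc.d0
  have hd1 := hc.d1
  have ht : ∀ e, 1 - δ < M6t H s e ∧ M6t H s e ≤ 1 := by
    intro e
    unfold M6t
    split_ifs
    · exact ⟨by linarith, le_rfl⟩
    · exact ⟨(hs e).1, (hs e).2.le⟩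
  obtain ⟨E, hE⟩ : ∃ E : Finset A, E = Finset.univ.filter fun e => dp (q e) (x v) = 1 := ⟨_, rfl⟩
  have hEm : ∀ e, e ∈ E ↔ dp (q e) (x v) = 1 := by
    intro e
    rw [hE]
    simp
  obtain ⟨P, hPd⟩ : ∃ P : E3 → Prop, P = fun b => (∀ z, dp b (M6y H q s z) ≤ 1) ∧
      (∀ f ∈ H, dp (q f) (x v) = 1 → dp b (M6y H q s f) = 1) ∧
      (E.card : ℝ) ≤ ∑ e ∈ E, dp (q e) b := ⟨_, rfl⟩
  have hP0 : P (x v) := by
    rw [hPd]
    refine ⟨fun z => ?_, fun f hf hfv => ?_, ?_⟩
    · rw [M6y, dp_smul, dp_comm]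
      have h1 := hP.le v z
      have h2 := (ht z).1
      have h3 := (ht z).2
      rcases le_or_gt (dp (q z) (x v)) 0 with h4 | h4
      · have := mul_nonpos_of_nonneg_of_nonpos (by linarith : (0 : ℝ) ≤ M6t H s z) h4
        linarith
      · have := mul_le_mul_of_nonneg_right h3 h4.le
        linarith
    · rw [M6y, M6t, if_pos hf, one_smul, dp_comm]
      exact hfv
    · rw [Finset.sum_congr rfl (fun e he => (hEm e).mp he), Finset.sum_const, nsmul_eq_mul, mul_one]
  -- a point with the largest tight set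
  obtain ⟨tg, htg⟩ : ∃ tg : E3 → Finset A, tg = fun b =>
      Finset.univ.filter fun z => dp b (M6y H q s z) = 1 := ⟨_, rfl⟩
  have htgm : ∀ b z, z ∈ tg b ↔ dp b (M6y H q s z) = 1 := by
    intro b z
    rw [htg]
    simp
  obtain ⟨b, hb, hmax⟩ : ∃ b, P b ∧ ∀ b', P b' → (tg b').card ≤ (tg b).card := by
    have h1 : ∃ n, ∃ b, P b ∧ Fintype.card A - (tg b).card = n := ⟨_, x v, hP0, rfl⟩
    obtain ⟨b, hb1, hb2⟩ := Nat.find_spec h1
    refine ⟨b, hb1, fun b' hb' => ?_⟩
    have h2 := Nat.find_min' h1 ⟨b', hb', rfl⟩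
    rw [← hb2] at h2
    have h3 := Finset.card_le_univ (tg b)
    have h4 := Finset.card_le_univ (tg b')
    omega
  rw [hPd] at hb
  obtain ⟨hb1, hb2, hb3⟩ := hb
  have htight := M6_tight' hP hc ht hb1 v (by rw [← hE]; exact hb3)
  -- the tight set spans
  have hspan : ∀ β : E3, (∀ z ∈ tg b, dp β (M6y H q s z) = 0) → β = 0 := by
    intro β0 hβ0
    by_contra hne0
    obtain ⟨β, hne, hβ, hβs⟩ : ∃ β : E3, β ≠ 0 ∧ (∀ z ∈ tg b, dp β (M6y H q s z) = 0) ∧
        0 ≤ ∑ e ∈ E, dp (q e) β := by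
      rcases le_total 0 (∑ e ∈ E, dp (q e) β0) with h1 | h1
      · exact ⟨β0, hne0, hβ0, h1⟩
      · refine ⟨-β0, neg_ne_zero.mpr hne0, fun z hz => ?_, ?_⟩
        · rw [dp_neg_left, hβ0 z hz, neg_zero]
        · rw [Finset.sum_congr rfl (fun e _ => dp_neg (q e) β0), Finset.sum_neg_distrib]
          linarith
    have hex : ∃ e, 0 < dp β (M6y H q s e) := by
      by_contra hcon
      push Not at hcon
      have h1 : ∀ e ∈ E, dp (q e) β ≤ 0 := by
        intro e _
        have h2 := hcon e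
        rw [M6y, dp_smul, dp_comm] at h2
        by_contra h3
        push Not at h3
        have := mul_pos (by linarith [(ht e).1] : 0 < M6t H s e) h3
        linarith
      have h2 : ∑ e ∈ E, dp (q e) β = 0 := le_antisymm (Finset.sum_nonpos h1) hβs
      have h3 := (Finset.sum_eq_zero_iff_of_nonpos h1).mp h2
      exact hne (hP.spanV6 v β fun f hf => h3 f ((hEm f).mpr hf))
    obtain ⟨R, hR⟩ : ∃ R : Finset A, R = Finset.univ.filter fun z => 0 < dp β (M6y H q s z) :=
      ⟨_, rfl⟩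
    have hRne : R.Nonempty := by
      obtain ⟨e, he⟩ := hex
      exact ⟨e, by rw [hR]; exact Finset.mem_filter.mpr ⟨Finset.mem_univ _, he⟩⟩
    obtain ⟨z0, hz0, hz0m⟩ := Finset.exists_min_image R
      (fun z => (1 - dp b (M6y H q s z)) / dp β (M6y H q s z)) hRne
    have hz0' : 0 < dp β (M6y H q s z0) := by
      rw [hR, Finset.mem_filter] at hz0
      exact hz0.2
    obtain ⟨t, htd⟩ : ∃ t : ℝ, t = (1 - dp b (M6y H q s z0)) / dp β (M6y H q s z0) := ⟨_, rfl⟩
    have ht0 : 0 ≤ t := by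
      rw [htd]
      exact div_nonneg (by linarith [hb1 z0]) hz0'.le
    have hval : ∀ z, dp (b + t • β) (M6y H q s z) =
        dp b (M6y H q s z) + t * dp β (M6y H q s z) := by
      intro z
      rw [dp_add_left, dp_smul_left]
    have hP1 : P (b + t • β) := by
      rw [hPd]
      refine ⟨fun z => ?_, fun f hf hfv => ?_, ?_⟩
      · rw [hval]
        by_cases hz : 0 < dp β (M6y H q s z)
        · have h1 := hz0m z (by rw [hR]; exact Finset.mem_filter.mpr ⟨Finset.mem_univ _, hz⟩)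
          rw [← htd, le_div_iff₀ hz] at h1
          linarith
        · push Not at hz
          have := mul_nonpos_of_nonneg_of_nonpos ht0 hz
          linarith [hb1 z]
      · rw [hval, hb2 f hf hfv, hβ f ((htgm b f).mpr (hb2 f hf hfv)), mul_zero, add_zero]
      · have h1 : ∑ e ∈ E, dp (q e) (b + t • β) = ∑ e ∈ E, dp (q e) b + t * ∑ e ∈ E, dp (q e) β := by
          rw [Finset.mul_sum, ← Finset.sum_add_distrib]
          exact Finset.sum_congr rfl fun e _ => by rw [dp_add, dp_smul]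
        rw [h1]
        have := mul_nonneg ht0 hβs
        linarith
    have h1 := hmax _ hP1
    have h2 : insert z0 (tg b) ⊆ tg (b + t • β) := by
      intro z hz
      rw [htgm, hval]
      rcases Finset.mem_insert.mp hz with rfl | hz
      · rw [htd]
        field_simp
        ring
      · rw [hβ z hz, (htgm b z).mp hz]
        ring
    have h3 : z0 ∉ tg b := fun h => by
      rw [hβ z0 h] at hz0'
      exact lt_irrefl _ hz0'
    have h4 := Finset.card_le_card h2
    rw [Finset.card_insert_of_notMem h3] at h4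
    omega
  -- exactly three tight facets
  have hE0 : ∃ e, dp b (M6y H q s e) = 1 := by
    by_contra hcon
    push Not at hcon
    have h1 : (fun _ : Fin 3 => (1 : ℝ)) = 0 :=
      hspan _ fun z hz => absurd ((htgm b z).mp hz) (hcon z)
    have h2 := congrFun h1 0
    norm_num at h2
  have hbne : b ≠ 0 := by
    obtain ⟨e, he⟩ := hE0
    intro h
    rw [h, dp_zero_left6] at he
    exact zero_ne_one he
  have hle3 : (tg b).card ≤ 3 := by
    have h1 := hsp.simp b 1 hbne hb1
    rw [htg]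
    convert h1
  have hge3 : 3 ≤ (tg b).card := by
    by_contra hlt
    push Not at hlt
    have h1 : ∃ f g, ∀ z ∈ tg b, z = f ∨ z = g := by
      obtain ⟨e, he⟩ := hE0
      have h2 : (tg b).card = 0 ∨ (tg b).card = 1 ∨ (tg b).card = 2 := by omega
      rcases h2 with h2 | h2 | h2
      · rw [Finset.card_eq_zero] at h2
        exact ⟨e, e, fun z hz => by rw [h2] at hz; exact absurd hz (Finset.notMem_empty z)⟩
      · obtain ⟨f, hf⟩ := Finset.card_eq_one.mp h2
        exact ⟨f, f, fun z hz => Or.inl (by rw [hf] at hz; exact Finset.mem_singleton.mp hz)⟩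
      · obtain ⟨f, g, -, hfg⟩ := Finset.card_eq_two.mp h2
        exact ⟨f, g, fun z hz => by
          rw [hfg] at hz
          rcases Finset.mem_insert.mp hz with h | h
          · exact Or.inl h
          · exact Or.inr (Finset.mem_singleton.mp h)⟩
    obtain ⟨f, g, hfg⟩ := h1
    obtain ⟨β, hβ, h2, h3⟩ := exists_orthG1 (M6y H q s f) (M6y H q s g)
    refine hβ (hspan β fun z hz => ?_)
    rcases hfg z hz with rfl | rfl
    · exact h2
    · exact h3
  obtain ⟨f, g, k, hfg, hfk, hgk, hT⟩ := Finset.card_eq_three.mp (le_antisymm hle3 hge3)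
  have hf : dp b (M6y H q s f) = 1 := (htgm b f).mp (by rw [hT]; simp)
  have hg : dp b (M6y H q s g) = 1 := (htgm b g).mp (by rw [hT]; simp)
  have hk : dp b (M6y H q s k) = 1 := (htgm b k).mp (by rw [hT]; simp)
  have hH3 : ∀ e ∈ H, dp (q e) (x v) = 1 → e = f ∨ e = g ∨ e = k := by
    intro e he hev
    have h1 := (htgm b e).mpr (hb2 e he hev)
    rw [hT] at h1
    simpa using h1
  rcases hsp.tri_of_support hbne hb1 hfg hgk hfk.symm hf hg hk with h1 | h1
  · refine ⟨![f, g, k], h1, fun j => ?_, fun e he hev => ?_⟩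
    · fin_cases j
      · exact htight f hf
      · exact htight g hg
      · exact htight k hk
    · rcases hH3 e he hev with rfl | rfl | rfl
      · exact ⟨0, rfl⟩
      · exact ⟨1, rfl⟩
      · exact ⟨2, rfl⟩
  · refine ⟨![f, k, g], h1, fun j => ?_, fun e he hev => ?_⟩
    · fin_cases j
      · exact htight f hf
      · exact htight k hk
      · exact htight g hg
    · rcases hH3 e he hev with rfl | rfl | rfl
      · exact ⟨0, rfl⟩
      · exact ⟨2, rfl⟩
      · exact ⟨1, rfl⟩

/-- row M6 for an arbitrary set `H` of facets -/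
theorem exists_tauH (hP : Pol x q) (H : Finset A)
    (hH : ∀ v, (Finset.univ.filter (fun f => f ∈ H ∧ dp (q f) (x v) = 1)).card ≤ 3) :
    4 ≤ Fintype.card A ∧ ∃ (S : Sph A) (tr : V → Fin 3 → A),
      (∀ v, S.T (tr v 0) (tr v 1) (tr v 2)) ∧ (∀ v j, dp (q (tr v j)) (x v) = 1) ∧
      ∀ v, ∀ f ∈ H, dp (q f) (x v) = 1 → ∃ j, tr v j = f := by
  obtain ⟨m, δ, hc⟩ := M6_exists hP
  obtain ⟨s, hs, hg⟩ := M6_generic H q δ hc.d0
  have hsp := M6_spoly hP hc H hH hs hg
  choose tr h1 h2 h3 using fun v => M6_tri hP hc H hs hsp v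
  exact ⟨hsp.four_le hsp.nonempty, hsp.sph, tr, h1, h2, h3⟩

/-- row M6 -/
theorem exists_tau (hP : Pol x q) (h3 : IsM3 (fun v f => dp (q f) (x v) = 1)) :
    4 ≤ Fintype.card A ∧ ∃ (S : Sph A) (tr : V → Fin 3 → A),
      Tau (fun v f => dp (q f) (x v) = 1) S tr := by
  obtain ⟨h4, S, tr, e1, e2, e3⟩ := exists_tauH hP
    (Finset.univ.filter fun f => ¬ Trg (fun v f => dp (q f) (x v) = 1) f) (fun v => by
      refine h3 v _ fun f hf => ?_
      rw [Finset.mem_filter, Finset.mem_filter] at hf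
      exact ⟨hf.2.2, hf.2.1.2⟩)
  exact ⟨h4, S, tr, e1, e2, fun v f hf hn =>
    e3 v f (Finset.mem_filter.mpr ⟨Finset.mem_univ _, hn⟩) hf⟩

end Pool.RP
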