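import Pool.Agent.Lib.MP_9dcace_rp.Base
import Pool.Agent.Lib.MP_9dcace_sx.G1

/-!
MP_9dcace_co, library RP, row M6, part a: elementary facts on `Pol`.
`Pol.symm`, `Pol.margin`, `Pol.expV`, `Pol.spanV6`, `hull_rep`, `exists_pos_le`.
-/

set_option autoImplicit false

open Classical

namespace Pool.RP

open Pool.SX

theorem dp_sum6 {ι : Type} (a : E3) (s : Finset ι) (f : ι → E3) :
    dp a (∑ i ∈ s, f i) = ∑ i ∈ s, dp a (f i) := by
  induction s using Finset.induction_on with
  | empty => simp [dp]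
  | insert i s hi ih => rw [Finset.sum_insert hi, Finset.sum_insert hi, dp_add, ih]

theorem dp_zero (a : E3) : dp a 0 = 0 := by simp [dp]

theorem dp_zero_left6 (a : E3) : dp 0 a = 0 := by simp [dp]

/-- a convex combination of a finite family -/
theorem hull_rep {ι : Type} [Fintype ι] {x : ι → E3} {y : E3}
    (hy : y ∈ convexHull ℝ (Set.range x)) :
    ∃ w : ι → ℝ, (∀ i, 0 ≤ w i) ∧ ∑ i, w i = 1 ∧ ∑ i, w i • x i = y := by
  have h1 : convexHull ℝ (Set.range x) ⊆
      {y | ∃ w : ι → ℝ, (∀ i, 0 ≤ w i) ∧ ∑ i, w i = 1 ∧ ∑ i, w i • x i = y} := by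
    refine convexHull_min ?_ ?_
    · rintro _ ⟨i, rfl⟩
      refine ⟨fun j => if j = i then 1 else 0, fun j => ?_, ?_, ?_⟩
      · dsimp only
        split_ifs <;> norm_num
      · simp
      · simp
    · rintro y1 ⟨w1, a1, b1, c1⟩ y2 ⟨w2, a2, b2, c2⟩ s t hs ht hst
      refine ⟨fun i => s * w1 i + t * w2 i, fun i => ?_, ?_, ?_⟩
      · exact add_nonneg (mul_nonneg hs (a1 i)) (mul_nonneg ht (a2 i))
      · rw [Finset.sum_add_distrib, ← Finset.mul_sum, ← Finset.mul_sum, b1, b2]
        linarith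
      · rw [← c1, ← c2, Finset.smul_sum, Finset.smul_sum, ← Finset.sum_add_distrib]
        refine Finset.sum_congr rfl fun i _ => ?_
        rw [add_smul, smul_smul, smul_smul]
  exact h1 hy

theorem mem_hull {ι : Type} [Fintype ι] {x : ι → E3} (w : ι → ℝ) (h0 : ∀ i, 0 ≤ w i)
    (h1 : ∑ i, w i = 1) : ∑ i, w i • x i ∈ convexHull ℝ (Set.range x) :=
  (convex_convexHull ℝ _).sum_mem (fun i _ => h0 i) h1
    (fun i _ => subset_convexHull ℝ _ ⟨i, rfl⟩)

/-- a positive lower bound of finitely many positive numbers -/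
theorem exists_pos_le {ι : Type} [Finite ι] (p : ι → Prop) (g : ι → ℝ) (h : ∀ i, p i → 0 < g i) :
    ∃ m : ℝ, 0 < m ∧ m ≤ 1 ∧ ∀ i, p i → m ≤ g i := by
  have : Fintype ι := Fintype.ofFinite ι
  have key : ∀ s : Finset ι, ∃ m : ℝ, 0 < m ∧ m ≤ 1 ∧ ∀ i ∈ s, p i → m ≤ g i := by
    intro s
    induction s using Finset.induction_on with
    | empty => exact ⟨1, one_pos, le_rfl, fun i hi => absurd hi (Finset.notMem_empty i)⟩
    | insert i s hi ih =>
      obtain ⟨m, h0, h1, h2⟩ := ih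
      by_cases hp : p i
      · refine ⟨min m (g i), lt_min h0 (h i hp), (min_le_left _ _).trans h1, fun j hj hpj => ?_⟩
        rcases Finset.mem_insert.mp hj with rfl | hj
        · exact min_le_right _ _
        · exact (min_le_left _ _).trans (h2 j hj hpj)
      · refine ⟨m, h0, h1, fun j hj hpj => ?_⟩
        rcases Finset.mem_insert.mp hj with rfl | hj
        · exact absurd hpj hp
        · exact h2 j hj hpj
  obtain ⟨m, h0, h1, h2⟩ := key Finset.univ
  exact ⟨m, h0, h1, fun i => h2 i (Finset.mem_univ i)⟩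

variable {V A : Type} [Fintype V] [Fintype A] {x : V → E3} {q : A → E3}

theorem Pol.symm (h : Pol x q) : Pol q x where
  le := fun f v => by rw [dp_comm]; exact h.le v f
  hullV := fun z hz => h.hullA z (fun v => by rw [dp_comm]; exact hz v)
  hullA := fun y hy => h.hullV y (fun f => by rw [dp_comm]; exact hy f)
  extV := h.extA
  extA := h.extV

theorem Pol.margin (h : Pol x q) : ∃ m : ℝ, 0 < m ∧ m ≤ 1 ∧
    ∀ v f, dp (q f) (x v) ≠ 1 → dp (q f) (x v) ≤ 1 - m := by
  obtain ⟨m, h0, h1, h2⟩ := exists_pos_le (ι := V × A) (fun p => dp (q p.2) (x p.1) ≠ 1)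
    (fun p => 1 - dp (q p.2) (x p.1)) (fun p hp => by
      have := lt_of_le_of_ne (h.le p.1 p.2) hp
      linarith)
  exact ⟨m, h0, h1, fun v f hv => by have := h2 (v, f) hv; dsimp only at this; linarith⟩

/-- an exposing functional -/
theorem Pol.expV (h : Pol x q) (v : V) : ∃ a : E3, ∀ u, u ≠ v → dp a (x u) < dp a (x v) := by
  have hfin : (x '' {u | u ≠ v}).Finite := Set.toFinite _
  have hcl : IsClosed (convexHull ℝ (x '' {u | u ≠ v})) :=
    (Set.Finite.isCompact_convexHull ℝ hfin).isClosed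
  obtain ⟨f, u, hf1, hf2⟩ := geometric_hahn_banach_point_closed (convex_convexHull ℝ _) hcl
    (h.extV v)
  obtain ⟨a, ha⟩ := exists_dp_of_clm f
  refine ⟨a, fun z hz => ?_⟩
  have hz' : x z ∈ convexHull ℝ (x '' {u | u ≠ v}) := subset_convexHull ℝ _ ⟨z, hz, rfl⟩
  have := hf2 _ hz'
  rw [ha, ha]
  linarith

theorem Pol.expA (h : Pol x q) (f : A) : ∃ a : E3, ∀ g, g ≠ f → dp a (q g) < dp a (q f) :=
  h.symm.expV f

/-- the facets at a vertex span the space -/
theorem Pol.spanV6 (h : Pol x q) (v : V) (b : E3) (hb : ∀ f, dp (q f) (x v) = 1 → dp (q f) b = 0) :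
    b = 0 := by
  by_contra hne
  obtain ⟨a, ha⟩ := h.expV v
  obtain ⟨m, hm0, hm1, hm⟩ := h.margin
  -- choose the sign
  obtain ⟨c, hc0, hca, hcb⟩ : ∃ c : E3, c ≠ 0 ∧ 0 ≤ dp a c ∧
      ∀ f, dp (q f) (x v) = 1 → dp (q f) c = 0 := by
    rcases le_total 0 (dp a b) with h1 | h1
    · exact ⟨b, hne, h1, hb⟩
    · exact ⟨-b, neg_ne_zero.mpr hne, by rw [dp_neg]; linarith,
        fun f hf => by rw [dp_neg, hb f hf, neg_zero]⟩
  obtain ⟨M, hM⟩ : ∃ M : ℝ, M = 1 + ∑ f, |dp (q f) c| := ⟨_, rfl⟩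
  have hM1 : 1 ≤ M := by
    rw [hM]
    have := Finset.sum_nonneg (s := Finset.univ) fun f (_ : f ∈ Finset.univ) =>
      abs_nonneg (dp (q f) c)
    linarith
  have hMf : ∀ f, dp (q f) c ≤ M := by
    intro f
    have h1 := Finset.single_le_sum (s := Finset.univ) (f := fun f => |dp (q f) c|)
      (fun f _ => abs_nonneg _) (Finset.mem_univ f)
    have h2 := le_abs_self (dp (q f) c)
    linarith
  have hM0 : 0 < M := by linarith
  obtain ⟨t, ht⟩ : ∃ t : ℝ, t = m / M := ⟨_, rfl⟩
  have ht0 : 0 < t := by rw [ht]; exact div_pos hm0 hM0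
  have htM : t * M = m := by rw [ht]; field_simp
  have hy : x v + t • c ∈ convexHull ℝ (Set.range x) := by
    refine h.hullV _ fun f => ?_
    rw [dp_add, dp_smul]
    by_cases hf : dp (q f) (x v) = 1
    · rw [hcb f hf, hf]; linarith
    · have h1 := hm v f hf
      have h2 := mul_le_mul_of_nonneg_left (hMf f) ht0.le
      linarith
  obtain ⟨w, w0, w1, w2⟩ := hull_rep hy
  have e1 : dp a (x v + t • c) = ∑ u, w u * dp a (x u) := by
    rw [← w2, dp_sum6]
    exact Finset.sum_congr rfl fun u _ => dp_smul _ _ _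
  have e2 : dp a (x v + t • c) = dp a (x v) + t * dp a c := by rw [dp_add, dp_smul]
  have e3 : ∑ u, w u * (dp a (x v) - dp a (x u)) = - (t * dp a c) := by
    have : ∑ u, w u * (dp a (x v) - dp a (x u)) = (∑ u, w u) * dp a (x v) -
        ∑ u, w u * dp a (x u) := by
      rw [Finset.sum_mul, ← Finset.sum_sub_distrib]
      exact Finset.sum_congr rfl fun u _ => by ring
    rw [this, w1, ← e1, e2]
    ring
  have e4 : ∀ u ∈ Finset.univ, 0 ≤ w u * (dp a (x v) - dp a (x u)) := by
    intro u _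
    refine mul_nonneg (w0 u) ?_
    by_cases hu : u = v
    · rw [hu]; linarith
    · linarith [ha u hu]
  have e5 : ∑ u, w u * (dp a (x v) - dp a (x u)) = 0 :=
    le_antisymm (by rw [e3]; linarith [mul_nonneg ht0.le hca]) (Finset.sum_nonneg e4)
  have e6 := (Finset.sum_eq_zero_iff_of_nonneg e4).mp e5
  have e7 : ∀ u, u ≠ v → w u = 0 := by
    intro u hu
    have h1 := e6 u (Finset.mem_univ u)
    rcases mul_eq_zero.mp h1 with h2 | h2
    · exact h2
    · linarith [ha u hu]
  have e8 : w v = 1 := by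
    rw [← w1, Finset.sum_eq_single v (fun u _ hu => e7 u hu) (fun hv => absurd (Finset.mem_univ v) hv)]
  have e9 : x v + t • c = x v := by
    rw [← w2, Finset.sum_eq_single v (fun u _ hu => by rw [e7 u hu, zero_smul])
      (fun hv => absurd (Finset.mem_univ v) hv), e8, one_smul]
  have e10 : t • c = 0 := by
    have := congrArg (fun z => z - x v) e9
    simpa using this
  rcases smul_eq_zero.mp e10 with h1 | h1
  · exact ht0.ne' h1
  · exact hc0 h1

theorem Pol.spanA (h : Pol x q) (f : A) (b : E3) (hb : ∀ v, dp (q f) (x v) = 1 → dp b (x v) = 0) :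
    b = 0 :=
  h.symm.spanV6 f b fun v hv => by rw [dp_comm]; exact hb v (by rw [dp_comm]; exact hv)

/-- two different vertices are separated by a facet at the first one -/
theorem Pol.sep (h : Pol x q) {v w : V} (hvw : v ≠ w) :
    ∃ f, dp (q f) (x v) = 1 ∧ dp (q f) (x w) ≠ 1 := by
  by_contra hcon
  push Not at hcon
  have h1 : x w - x v = 0 := h.spanV6 v _ fun f hf => by rw [dp_sub, hf, hcon f hf, sub_self]
  obtain ⟨a, ha⟩ := h.expV v
  have h2 := ha w hvw.symm
  rw [sub_eq_zero.mp h1] at h2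
  exact lt_irrefl _ h2

end Pool.RP
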