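import Pool.Agent.Lib.MP_9dcace_rp.Ge0a
import Pool.Agent.Lib.MP_9dcace_rp.MDefs

/-!
MP_9dcace_co, row M7, part 1: the incidence facts `Inc3` of a polytope `Pol x q`.
`M7a_edge`: if the facet `f` is in the half plane `c . (y - x v) <= 0` and `u` is on its boundary then
`u, v` lie on another facet (otherwise the midpoint can be moved out of the facet inside its plane).
`M7a_two`: the extreme slopes at `v` give two neighbours of `v` on `f`.
-/

set_option autoImplicit false

open Classical

namespace Pool.RP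

open Pool.SX

variable {V A : Type} [Fintype V] [Fintype A] {x : V → E3} {q : A → E3}

/-- an extreme edge of the facet `f` at `v` lies on another facet -/
theorem M7a_edge (h : Pol x q) {f : A} {u v : V} (hv : dp (q f) (x v) = 1)
    (hu : dp (q f) (x u) = 1) (c d : E3)
    (hc : ∀ w, dp (q f) (x w) = 1 → dp c (x w - x v) ≤ 0) (hcu : dp c (x u - x v) = 0)
    (hd : dp (q f) d = 0) (hcd : 0 < dp c d) :
    ∃ g, g ≠ f ∧ dp (q g) (x v) = 1 ∧ dp (q g) (x u) = 1 := by
  by_contra hcon
  push Not at hcon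
  have hlt : ∀ g, g ≠ f → dp (q g) (x v) + dp (q g) (x u) < 2 := by
    intro g hg
    have h1 := h.le v g
    have h2 := h.le u g
    rcases h1.lt_or_eq with h3 | h3
    · linarith
    · rcases h2.lt_or_eq with h4 | h4
      · linarith
      · exact absurd h4 (hcon g hg h3)
  obtain ⟨e, he0, he⟩ : ∃ e : ℝ, 0 < e ∧ ∀ g, g ≠ f →
      dp (q g) (x v) + dp (q g) (x u) + e * dp (q g) d < 2 := by
    have h1 : ∀ᶠ e : ℝ in nhdsWithin (0 : ℝ) (Set.Ioi 0), ∀ g, g ≠ f →
        dp (q g) (x v) + dp (q g) (x u) + e * dp (q g) d < 2 := by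
      rw [Filter.eventually_all]
      intro g
      by_cases hg : g = f
      · exact Filter.Eventually.of_forall fun e hg' => absurd hg hg'
      · have hcont : Continuous fun e : ℝ => dp (q g) (x v) + dp (q g) (x u) + e * dp (q g) d := by
          fun_prop
        have h2 : dp (q g) (x v) + dp (q g) (x u) + 0 * dp (q g) d < 2 := by
          rw [zero_mul, add_zero]; exact hlt g hg
        have h3 : ∀ᶠ e : ℝ in nhdsWithin (0 : ℝ) (Set.Ioi 0),
            dp (q g) (x v) + dp (q g) (x u) + e * dp (q g) d < 2 :=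
          nhdsWithin_le_nhds (hcont.continuousAt.eventually (gt_mem_nhds h2))
        exact h3.mono fun e he _ => he
    obtain ⟨e, he1, he2⟩ := (h1.and self_mem_nhdsWithin).exists
    exact ⟨e, he2, he1⟩
  obtain ⟨K, hK⟩ : ∃ K : ℝ, ∀ w, dp c (x w - x v) ≤ K * (1 - dp (q f) (x w)) := by
    have h1 : ∀ᶠ K : ℝ in Filter.atTop, ∀ w, dp c (x w - x v) ≤ K * (1 - dp (q f) (x w)) := by
      rw [Filter.eventually_all]
      intro w
      rcases (h.le w f).lt_or_eq with h2 | h2
      · have h3 : 0 < 1 - dp (q f) (x w) := by linarith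
        filter_upwards [Filter.eventually_ge_atTop (dp c (x w - x v) / (1 - dp (q f) (x w)))]
          with K hK
        rwa [div_le_iff₀ h3] at hK
      · refine Filter.Eventually.of_forall fun K => ?_
        rw [h2, sub_self, mul_zero]
        exact hc w h2
    exact h1.exists
  set p : E3 := (1 / 2 : ℝ) • (x v + x u + e • d) with hp
  have hmem : p ∈ convexHull ℝ (Set.range x) := by
    refine h.hullV p fun g => ?_
    rw [hp, dp_smul, dp_add, dp_add, dp_smul]
    by_cases hg : g = f
    · subst hg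
      rw [hv, hu, hd]; norm_num
    · have := he g hg
      linarith
  have hsub : convexHull ℝ (Set.range x) ⊆ {y : Fin 3 → ℝ | dp (c + K • q f) y ≤ K + dp c (x v)} := by
    have hlin : IsLinearMap ℝ (fun z : Fin 3 → ℝ => dp (c + K • q f) z) := by
      refine ⟨fun p q => dp_add _ _ _, fun t p => ?_⟩
      rw [dp_smul, smul_eq_mul]
    refine convexHull_min ?_ (convex_halfSpace_le hlin _)
    rintro _ ⟨w, rfl⟩
    change dp (c + K • q f) (x w) ≤ K + dp c (x v)
    have := hK w
    rw [dp_sub] at this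
    rw [dp_add_left, dp_smul_left]
    linarith
  have h5 : dp (c + K • q f) p ≤ K + dp c (x v) := hsub hmem
  rw [dp_sub] at hcu
  rw [dp_add_left, dp_smul_left, hp, dp_smul, dp_smul, dp_add, dp_add, dp_add, dp_add, dp_smul,
    dp_smul, hv, hu, hd] at h5
  have h6 := mul_pos he0 hcd
  nlinarith

/-- every facet at `v` has two neighbours of `v` -/
theorem M7a_two (h : Pol x q) {f : A} {v : V} (hv : dp (q f) (x v) = 1) :
    ∃ u u', u ≠ u' ∧ u ≠ v ∧ u' ≠ v ∧ dp (q f) (x u) = 1 ∧ dp (q f) (x u') = 1 ∧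
      (∃ g, g ≠ f ∧ dp (q g) (x v) = 1 ∧ dp (q g) (x u) = 1) ∧
      (∃ g, g ≠ f ∧ dp (q g) (x v) = 1 ∧ dp (q g) (x u') = 1) := by
  obtain ⟨a, ha⟩ := h.exposeV v
  obtain ⟨w1, h1v, -, h1f⟩ := h.fac3 f v v
  obtain ⟨w2, h2v, h21, h2f⟩ := h.fac3 f v w1
  have hcr : cr (x w1 - x v) (x w2 - x v) ≠ 0 := h.cr_ne h1v.symm h21.symm h2v
  have ha1 : dp a (x w1 - x v) < 0 := by rw [dp_sub]; linarith [ha w1 h1v]
  have ha2 : dp a (x w2 - x v) < 0 := by rw [dp_sub]; linarith [ha w2 h2v]
  set b : E3 := dp a (x w2 - x v) • (x w1 - x v) - dp a (x w1 - x v) • (x w2 - x v) with hb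
  have hb0 : b ≠ 0 := by
    intro hb0
    apply hcr
    have h3 : ∀ i, cr (x w1 - x v) b i = -dp a (x w1 - x v) * cr (x w1 - x v) (x w2 - x v) i := by
      intro i
      rw [hb]
      fin_cases i <;> simp [cr] <;> ring
    rw [hb0] at h3
    funext i
    have h4 : cr (x w1 - x v) 0 i = 0 := by
      fin_cases i <;> simp [cr]
    have h5 := h3 i
    rw [h4] at h5
    have h6 : -dp a (x w1 - x v) ≠ 0 := by linarith [ha1] |> fun (h : 0 < -dp a (x w1 - x v)) => h.ne'
    exact (mul_eq_zero.mp h5.symm).resolve_left h6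
  have hbb := dp_self_pos hb0
  have hval : dp b b = dp a (x w2 - x v) * dp b (x w1 - x v) -
      dp a (x w1 - x v) * dp b (x w2 - x v) := by
    conv_lhs => rw [hb]
    rw [dp_sub_left, dp_smul_left, dp_smul_left, dp_comm (x w1 - x v), dp_comm (x w2 - x v)]
  let s : V → ℝ := fun w => dp b (x w - x v) / (-dp a (x w - x v))
  have hs12 : s w1 ≠ s w2 := by
    intro he
    simp only [s] at he
    rw [div_eq_div_iff (by linarith) (by linarith)] at he
    linarith
  have hpos : ∀ w, w ≠ v → 0 < -dp a (x w - x v) := by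
    intro w hw
    rw [dp_sub]; linarith [ha w hw]
  have hmul : ∀ w, w ≠ v → dp b (x w - x v) = s w * (-dp a (x w - x v)) := by
    intro w hw
    simp only [s]
    rw [div_mul_cancel₀ _ (hpos w hw).ne']
  have hW : (Finset.univ.filter fun w : V => w ≠ v ∧ dp (q f) (x w) = 1).Nonempty :=
    ⟨w1, by simp [h1v, h1f]⟩
  obtain ⟨u, hu, hmax⟩ := Finset.exists_max_image _ s hW
  obtain ⟨u', hu', hmin⟩ := Finset.exists_min_image _ s hW
  simp only [Finset.mem_filter, Finset.mem_univ, true_and] at hu hu' hmax hmin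
  have hlt : s u' < s u := by
    have h3 := hmax w1 ⟨h1v, h1f⟩
    have h4 := hmax w2 ⟨h2v, h2f⟩
    have h5 := hmin w1 ⟨h1v, h1f⟩
    have h6 := hmin w2 ⟨h2v, h2f⟩
    by_contra hcon
    apply hs12
    linarith
  have hval2 : ∀ (t : ℝ) (w : V), w ≠ v → dp (b + t • a) (x w - x v) =
      (s w - t) * (-dp a (x w - x v)) := by
    intro t w hw
    rw [dp_add_left, dp_smul_left, hmul w hw]; ring
  have hfd : ∀ w, dp (q f) (x w) = 1 → dp (q f) (x v - x w) = 0 := by
    intro w hw
    rw [dp_sub, hv, hw, sub_self]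
  refine ⟨u, u', fun e => ?_, hu.1, hu'.1, hu.2, hu'.2, ?_, ?_⟩
  · rw [e] at hlt; exact lt_irrefl _ hlt
  · refine M7a_edge h hv hu.2 (b + s u • a) (x v - x u') ?_ ?_ (hfd u' hu'.2) ?_
    · intro w hw
      by_cases hwv : w = v
      · rw [hwv, sub_self, dp_def]; simp
      · rw [hval2 _ _ hwv]
        have h3 := hmax w ⟨hwv, hw⟩
        exact mul_nonpos_of_nonpos_of_nonneg (by linarith) (hpos w hwv).le
    · rw [hval2 _ _ hu.1, sub_self, zero_mul]
    · have h3 := hval2 (s u) u' hu'.1
      have h4 : dp (b + s u • a) (x v - x u') = -dp (b + s u • a) (x u' - x v) := by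
        rw [← dp_neg, neg_sub]
      rw [h4, h3]
      have := mul_pos (sub_pos.mpr hlt) (hpos u' hu'.1)
      linarith
  · refine M7a_edge h hv hu'.2 (-(b + s u' • a)) (x v - x u) ?_ ?_ (hfd u hu.2) ?_
    · intro w hw
      rw [dp_neg_left]
      by_cases hwv : w = v
      · rw [hwv, sub_self, dp_def]; simp
      · rw [hval2 _ _ hwv]
        have h3 := hmin w ⟨hwv, hw⟩
        have := mul_nonneg (sub_nonneg.mpr h3) (hpos w hwv).le
        linarith
    · rw [dp_neg_left, hval2 _ _ hu'.1, sub_self, zero_mul, neg_zero]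
    · have h3 := hval2 (s u') u hu.1
      have h4 : dp (-(b + s u' • a)) (x v - x u) = dp (b + s u' • a) (x u - x v) := by
        rw [dp_neg_left, ← dp_neg, neg_sub]
      rw [h4, h3]
      exact mul_pos (sub_pos.mpr hlt) (hpos u hu.1)

/-- the incidence facts of a polytope -/
theorem inc3_of_pol (h : Pol x q) : Inc3 (fun v f => dp (q f) (x v) = 1) where
  ne := by
    by_contra hne
    have := h.spanP (fun _ => 1) 0 (fun v => absurd ⟨v⟩ hne)
    have := congrFun this 0
    simp at this
  sepV := by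
    intro u v huv
    by_contra hcon
    push Not at hcon
    exact huv (h.injV (h.uniqV hcon))
  sepA := by
    intro f g hfg
    by_contra hcon
    push Not at hcon
    exact hfg (h.injA (h.uniqA hcon))
  twoV := fun f g u v w hfg h1 h2 h3 fu fv fw gu gv gw => hfg (h.two h1 h2 h3 fu fv fw gu gv gw)
  twoA := by
    intro u v f g k huv h1 h2 h3 fu gu ku fv gv kv
    refine huv (h.swap.two h1 h2 h3 ?_ ?_ ?_ ?_ ?_ ?_)
    · rw [dp_comm]; exact fu
    · rw [dp_comm]; exact gu
    · rw [dp_comm]; exact ku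
    · rw [dp_comm]; exact fv
    · rw [dp_comm]; exact gv
    · rw [dp_comm]; exact kv
  flag := by
    intro v f hv
    obtain ⟨u, u', huu, hu, hu', huf, huf', ⟨g, hg, hgv, hgu⟩, ⟨g', hg', hgv', hgu'⟩⟩ :=
      M7a_two h hv
    refine ⟨u, u', g, g', hu, hu', huu, hg, hg', ?_, huf, huf', hgv, hgu, hgv', hgu'⟩
    rintro rfl
    exact hg (h.two hu.symm huu hu' hgv hgu hgu' hv huf huf')
  degV := fun v f g => h.deg3 v f g
  degA := fun f u v => h.fac3 f u v

omit [Fintype V] [Fintype A] in
/-- the incidence facts are self dual (for `A` empty and one vertex the dual has no vertex) -/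
theorem Inc3.symm [hA : Nonempty A] {inc : V → A → Prop} (h : Inc3 inc) :
    Inc3 (fun f v => inc v f) where
  ne := hA
  sepV := fun f g hfg => h.sepA f g hfg
  sepA := fun u v huv => h.sepV u v huv
  twoV := fun u v f g k huv h1 h2 h3 fu gu ku fv gv => h.twoA u v f g k huv h1 h2 h3 fu gu ku fv gv
  twoA := fun f g u v w hfg h1 h2 h3 fu fv fw gu gv => h.twoV f g u v w hfg h1 h2 h3 fu fv fw gu gv
  flag := by
    intro f v hv
    obtain ⟨u, u', g, g', hu, hu', huu, hg, hg', hgg, huf, huf', hvg, hug, hvg', hug'⟩ :=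
      h.flag v f hv
    exact ⟨g, g', u, u', hg, hg', hgg, hu, hu', huu, hvg, hvg', huf, hug, huf', hug'⟩
  degV := fun f u v => h.degA f u v
  degA := fun v f g => h.degV v f g

end Pool.RP
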