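import Pool.Agent.Lib.MP_9dcace_rp.M8b
import Pool.Agent.Lib.MP_9dcace_rp.M3
import Pool.Agent.Lib.MP_9dcace_rp.M6
import Pool.Agent.Lib.MP_9dcace_rp.Ge0
import Pool.Agent.Lib.MP_9dcace_sd.L3

/-!
M8: every 3-polytope all of whose vertices lie on at most three non triangular facets has a realization
in a grid of polynomial size.
-/

set_option autoImplicit false

open Classical

namespace Pool.RP

open Pool.SX
open Pool.SD (Z3)

/-- the class M3, from the theorem on real realizations -/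
theorem grid_M3_of (hR : ∃ f : Polynomial ℕ, ∀ (V A : Type) [Fintype V] [Fintype A] (x : V → E3)
    (q : A → E3), Pol x q → Real3 (fun v f => dp (q f) (x v) = 1)
      (f.eval (Fintype.card V) : ℕ)) : ∃ f : Polynomial ℕ, ∀ V : Finset (Fin 3 → ℝ),
      (∀ v ∈ V, v ∉ convexHull ℝ ((V : Set (Fin 3 → ℝ)) \ {v})) →
      affineSpan ℝ (V : Set (Fin 3 → ℝ)) = ⊤ →
      (∀ v ∈ V, ∀ Fs : Finset (Finset (Fin 3 → ℝ)),
        (∀ B ∈ Fs, IsFacet3 V B ∧ v ∈ B ∧ 4 ≤ B.card) → Fs.card ≤ 3) →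
      ∃ g : (Fin 3 → ℝ) → (Fin 3 → ℝ),
        Set.InjOn g (V : Set (Fin 3 → ℝ)) ∧
        (∀ v ∈ V, ∀ i : Fin 3, ∃ m : ℕ, g v i = (m : ℝ) ∧ m ≤ f.eval V.card) ∧
        affineSpan ℝ (g '' (V : Set (Fin 3 → ℝ))) = ⊤ ∧
        (∀ v ∈ V, g v ∉ convexHull ℝ (g '' ((V : Set (Fin 3 → ℝ)) \ {v}))) ∧
        ∀ S ⊆ V,
          ((∃ a : Fin 3 → ℝ, ∃ c : ℝ,
              (∀ x ∈ V, ∑ i, a i * x i ≤ c) ∧
              ∀ x ∈ V, (x ∈ S ↔ ∑ i, a i * x i = c)) ↔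
           (∃ a : Fin 3 → ℝ, ∃ c : ℝ,
              (∀ x ∈ V, ∑ i, a i * g x i ≤ c) ∧
              ∀ x ∈ V, (x ∈ S ↔ ∑ i, a i * g x i = c))) := by
  obtain ⟨P, hP⟩ := hR
  obtain ⟨k, hk⟩ := exists_int
  refine ⟨2 * (Polynomial.C k * (Polynomial.X ^ 3 * P) ^ k), fun V hconv hspan h3 => ?_⟩
  obtain ⟨c, A, instA, q, hpol⟩ := exists_Pol V hconv hspan
  have hI := inc3_of_pol hpol
  have hM := M8_isM3 hpol h3
  obtain ⟨hA4, S, tr, htau⟩ := exists_tau hpol hM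
  have hreal := hP _ _ _ _ hpol
  have hVc : Fintype.card {v // v ∈ V} = V.card := Fintype.card_coe V
  have hAne : Nonempty A := Fintype.card_pos_iff.mp (by omega)
  have hex : ∃ (v : {v // v ∈ V}) (f : A), dp (q f) ((v : E3) - c) = 1 := by
    obtain ⟨v0⟩ := hI.ne
    obtain ⟨f⟩ := hAne
    obtain ⟨w, -, -, hw⟩ := hI.degA f v0 v0
    exact ⟨w, f, hw⟩
  have hN1 : 1 ≤ P.eval (Fintype.card {v // v ∈ V}) := M8_real3_pos hex hreal
  have hcard : Fintype.card A ≤ Fintype.card {v // v ∈ V} ^ 3 := M8_card_A_le hI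
  obtain ⟨X, a, d, hPla, hX⟩ := hk {v // v ∈ V} A _ (Fintype.card {v // v ∈ V} ^ 3)
    (P.eval (Fintype.card {v // v ∈ V})) hI (hA4.trans hcard) hN1 hcard hA4 hreal S tr htau
  obtain ⟨g, d', hg, hPla'⟩ := M8_pla_nat X a d _ hPla hX
  refine Pool.SD.transfer V _ g (fun v i => (hg v i).trans (le_of_eq ?_)) (hPla'.inj hI)
    (hPla'.conv hI) (hPla'.span hI)
    (fun B => by rw [(M8_pla_of_pol hpol).supp_iff hI, hPla'.supp_iff hI])
  rw [← hVc]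
  simp only [Polynomial.eval_mul, Polynomial.eval_pow, Polynomial.eval_C, Polynomial.eval_X,
    Polynomial.eval_ofNat]

end Pool.RP
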