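import Pool.Agent.Lib.MP_9dcace_sd.A6

/-!
M8a: the arithmetic part of the class M3. From integer approximations `p f` of the polar facet vectors:
normals `a f`, offsets `d f` and integer points `X v` with `a (tr v j) . X v = d (tr v j)`.
-/

set_option autoImplicit false

open Classical

namespace Pool.RP

open Pool.SD

private theorem m8_entries {A : Type} {a p : A → Z3} {K Q B : ℤ} (hK : 1 ≤ K) (hQ : 1 ≤ Q)
    (hBK : B ≤ K * Q) (hq : ∀ f i, |p f i| ≤ Q)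
    (hab : ∀ f i, K * p f i ≤ a f i ∧ a f i ≤ K * p f i + B) (f : A) (i : Fin 3) :
    |a f i| ≤ 2 * (K * Q) := by
  obtain ⟨h1, h2⟩ := hab f i
  have h5 := hq f i
  rw [abs_le] at h5 ⊢
  constructor
  · nlinarith [h5.1, h5.2]
  · nlinarith [h5.1, h5.2]

private theorem m8_cz {A : Type} {a : A → Z3} {M : ℤ} (hM0 : 0 ≤ M) (ha : ∀ f i, |a f i| ≤ M)
    (f g : A) (i : Fin 3) : |cz (a f) (a g) i| ≤ 2 * M ^ 2 := by
  have hpr : ∀ j l, |a f j * a g l| ≤ M ^ 2 := by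
    intro j l
    rw [abs_mul, sq]
    exact mul_le_mul (ha f j) (ha g l) (abs_nonneg _) hM0
  have key : ∀ j l j' l', |a f j * a g l - a f j' * a g l'| ≤ 2 * M ^ 2 := by
    intro j l j' l'
    calc |a f j * a g l - a f j' * a g l'| ≤ |a f j * a g l| + |a f j' * a g l'| := abs_sub _ _
      _ ≤ 2 * M ^ 2 := by linarith [hpr j l, hpr j' l']
  fin_cases i
  · exact key _ _ _ _
  · exact key _ _ _ _
  · exact key _ _ _ _

private theorem m8_d3 {A : Type} {a : A → Z3} {M : ℤ} (hM0 : 0 ≤ M) (ha : ∀ f i, |a f i| ≤ M)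
    (f g h : A) : |d3 (a f) (a g) (a h)| ≤ 6 * M ^ 3 := by
  have hpr : ∀ i, |a f i * cz (a g) (a h) i| ≤ M * (2 * M ^ 2) := by
    intro i
    rw [abs_mul]
    exact mul_le_mul (ha f i) (m8_cz hM0 ha g h i) (abs_nonneg _) hM0
  have h5 : |d3 (a f) (a g) (a h)| ≤ |a f 0 * cz (a g) (a h) 0| + |a f 1 * cz (a g) (a h) 1| +
      |a f 2 * cz (a g) (a h) 2| := by
    unfold d3 dz
    exact (abs_add_le _ _).trans (add_le_add (abs_add_le _ _) le_rfl)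
  have e0 := hpr 0
  have e1 := hpr 1
  have e2 := hpr 2
  have e : 6 * M ^ 3 = M * (2 * M ^ 2) + M * (2 * M ^ 2) + M * (2 * M ^ 2) := by ring
  rw [e]
  linarith

private theorem m8_swap (f g h : Z3) : d3 f h g = - d3 f g h := by
  simp only [d3, dz, cz0, cz1, cz2]; ring

/-- a nonzero determinant of the `p`s stays nonzero for the `a`s -/
theorem m8_ne (K Q B : ℤ) (hK : 1 ≤ K) (hQ : 1 ≤ Q) (hB : 0 ≤ B) (hBK : 700 * Q ^ 2 * B ≤ K)
    (pf pg ph af ag ah : Z3) (hpf : ∀ i, |pf i| ≤ Q) (hpg : ∀ i, |pg i| ≤ Q)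
    (hph : ∀ i, |ph i| ≤ Q) (hf : ∀ i, K * pf i ≤ af i ∧ af i ≤ K * pf i + B)
    (hg : ∀ i, K * pg i ≤ ag i ∧ ag i ≤ K * pg i + B)
    (hh : ∀ i, K * ph i ≤ ah i ∧ ah i ≤ K * ph i + B) (h : d3 pf pg ph ≠ 0) :
    d3 af ag ah ≠ 0 := by
  rcases lt_or_gt_of_ne h with h1 | h1
  · exact (sign3 K Q B hK hQ hB hBK pf pg ph af ag ah hpf hpg hph hf hg hh (by omega)).ne
  · have h2 : d3 pf ph pg ≤ -1 := by rw [m8_swap]; omega
    have h3 := sign3 K Q B hK hQ hB hBK pf ph pg af ah ag hpf hph hpg hf hh hg h2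
    rw [m8_swap] at h3
    omega

/-- M8a: normals, offsets and integer points. `T0` is free. -/
theorem exists_XM {A V : Type} [Fintype A] (S : Pool.SX.Sph A) (idx col : A → ℕ)
    (ho : Ord S idx col) (tr : V → Fin 3 → A) (htr : ∀ v, S.T (tr v 0) (tr v 1) (tr v 2))
    (p : A → Z3) (Q : ℕ) (hQ1 : 1 ≤ Q) (hq : ∀ f i, |p f i| ≤ (Q : ℤ))
    (hne : ∀ v, d3 (p (tr v 0)) (p (tr v 1)) (p (tr v 2)) ≠ 0)
    (y k St m : ℕ) (K : ℤ) (hK : 1 ≤ K) (hp : Par (Fintype.card A) y k St m K Q (8 * K ^ 2 * Q ^ 2))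
    (hB : 700 * (Q : ℤ) ^ 2 * (m * (2 * (St : ℤ) ^ 3 + 1)) ≤ K) (T0 : ℤ) (hT0 : 0 ≤ T0) :
    ∃ (a : A → Z3) (d : A → ℤ) (X : V → Z3),
      (∀ f i, K * p f i ≤ a f i ∧ a f i ≤ K * p f i + m * (2 * (St : ℤ) ^ 3 + 1)) ∧
      (∀ f, T0 ≤ d f ∧ d f ≤ T0 + 240 * (48 * K ^ 3 * Q ^ 3) ^ 5) ∧
      (∀ v j, dz (a (tr v j)) (X v) = d (tr v j)) ∧
      ∀ v i, |X v i| ≤ 24 * K ^ 2 * Q ^ 2 * (T0 + 240 * (48 * K ^ 3 * Q ^ 3) ^ 5) := by
  obtain ⟨a, ha, hab⟩ := normals S idx col ho p hp le_rfl hq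
  have hQ1' : (1 : ℤ) ≤ Q := by exact_mod_cast hQ1
  set B : ℤ := m * (2 * (St : ℤ) ^ 3 + 1) with hBdef
  have hB0 : 0 ≤ B := by positivity
  have hBK : B ≤ K * Q := by
    have h1 : B ≤ 700 * (Q : ℤ) ^ 2 * B := by nlinarith [sq_nonneg ((Q : ℤ) - 1)]
    nlinarith
  have haK := m8_entries hK hQ1' hBK hq hab
  have hM0 : 0 ≤ 2 * (K * (Q : ℤ)) := by positivity
  have hcz := m8_cz hM0 haK
  have hd3 : ∀ f g h, |d3 (a f) (a g) (a h)| ≤ 48 * K ^ 3 * Q ^ 3 := by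
    intro f g h
    have := m8_d3 hM0 haK f g h
    have e : 6 * (2 * (K * (Q : ℤ))) ^ 3 = 48 * K ^ 3 * Q ^ 3 := by ring
    rwa [e] at this
  have hBd1 : (1 : ℤ) ≤ 48 * K ^ 3 * Q ^ 3 := by
    have h1 : (1 : ℤ) ≤ K ^ 3 := one_le_pow₀ hK
    have h2 : (1 : ℤ) ≤ (Q : ℤ) ^ 3 := one_le_pow₀ hQ1'
    nlinarith
  obtain ⟨d, hd, hdiv⟩ := offsets S idx col ho y m hp.hy17 hp.hm240 a ha (48 * K ^ 3 * Q ^ 3) hBd1
    hd3 T0
  set B' : ℤ := 240 * (48 * K ^ 3 * Q ^ 3) ^ 5 with hB'def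
  have hB'0 : 0 ≤ B' := by positivity
  have hnz : ∀ v, d3 (a (tr v 0)) (a (tr v 1)) (a (tr v 2)) ≠ 0 := fun v =>
    m8_ne K Q B hK hQ1' hB0 hB (p (tr v 0)) (p (tr v 1)) (p (tr v 2)) _ _ _ (hq _) (hq _) (hq _)
      (fun i => hab _ i) (fun i => hab _ i) (fun i => hab _ i) (hne v)
  refine ⟨a, d, fun v i => num (a (tr v 0)) (a (tr v 1)) (a (tr v 2)) (d (tr v 0)) (d (tr v 1))
    (d (tr v 2)) i / d3 (a (tr v 0)) (a (tr v 1)) (a (tr v 2)), hab, hd, ?_, ?_⟩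
  · intro v j
    have hX : ∀ i, num (a (tr v 0)) (a (tr v 1)) (a (tr v 2)) (d (tr v 0)) (d (tr v 1))
        (d (tr v 2)) i / d3 (a (tr v 0)) (a (tr v 1)) (a (tr v 2)) *
        d3 (a (tr v 0)) (a (tr v 1)) (a (tr v 2)) = num (a (tr v 0)) (a (tr v 1)) (a (tr v 2))
          (d (tr v 0)) (d (tr v 1)) (d (tr v 2)) i := fun i =>
      Int.ediv_mul_cancel (hdiv _ _ _ (htr v) i)
    have hmul : ∀ e : Z3, dz e (fun i => num (a (tr v 0)) (a (tr v 1)) (a (tr v 2)) (d (tr v 0))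
        (d (tr v 1)) (d (tr v 2)) i / d3 (a (tr v 0)) (a (tr v 1)) (a (tr v 2))) *
        d3 (a (tr v 0)) (a (tr v 1)) (a (tr v 2)) = dz e (num (a (tr v 0)) (a (tr v 1)) (a (tr v 2))
          (d (tr v 0)) (d (tr v 1)) (d (tr v 2))) := by
      intro e
      simp only [dz]
      linear_combination (e 0) * hX 0 + (e 1) * hX 1 + (e 2) * hX 2
    apply mul_right_cancel₀ (hnz v)
    rw [hmul]
    fin_cases j
    · exact dz_num1 _ _ _ _ _ _
    · exact dz_num2 _ _ _ _ _ _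
    · exact dz_num3 _ _ _ _ _ _
  · intro v i
    have h1 : |num (a (tr v 0)) (a (tr v 1)) (a (tr v 2)) (d (tr v 0)) (d (tr v 1))
        (d (tr v 2)) i / d3 (a (tr v 0)) (a (tr v 1)) (a (tr v 2))| ≤
        |num (a (tr v 0)) (a (tr v 1)) (a (tr v 2)) (d (tr v 0)) (d (tr v 1)) (d (tr v 2)) i| := by
      have h5 := Int.ediv_mul_cancel (hdiv _ _ _ (htr v) i)
      have h6 : 1 ≤ |d3 (a (tr v 0)) (a (tr v 1)) (a (tr v 2))| := Int.one_le_abs (hnz v)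
      calc |num (a (tr v 0)) (a (tr v 1)) (a (tr v 2)) (d (tr v 0)) (d (tr v 1))
            (d (tr v 2)) i / d3 (a (tr v 0)) (a (tr v 1)) (a (tr v 2))|
          ≤ |num (a (tr v 0)) (a (tr v 1)) (a (tr v 2)) (d (tr v 0)) (d (tr v 1))
            (d (tr v 2)) i / d3 (a (tr v 0)) (a (tr v 1)) (a (tr v 2))| *
            |d3 (a (tr v 0)) (a (tr v 1)) (a (tr v 2))| :=
              le_mul_of_one_le_right (abs_nonneg _) h6
        _ = |num (a (tr v 0)) (a (tr v 1)) (a (tr v 2)) (d (tr v 0)) (d (tr v 1))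
              (d (tr v 2)) i| := by rw [← abs_mul, h5]
    refine h1.trans ?_
    have hdb : ∀ f, |d f| ≤ T0 + B' := by
      intro f
      have := hd f
      rw [abs_le]
      constructor <;> linarith [this.1, this.2]
    have hD0 : 0 ≤ T0 + B' := by positivity
    have hpr : ∀ e f' g', |d e * cz (a f') (a g') i| ≤
        (T0 + B') * (2 * (2 * (K * Q)) ^ 2) := by
      intro e f' g'
      rw [abs_mul]
      exact mul_le_mul (hdb e) (hcz f' g' i) (abs_nonneg _) hD0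
    have h5 : |num (a (tr v 0)) (a (tr v 1)) (a (tr v 2)) (d (tr v 0)) (d (tr v 1))
        (d (tr v 2)) i| ≤ |d (tr v 0) * cz (a (tr v 1)) (a (tr v 2)) i| +
        |d (tr v 1) * cz (a (tr v 2)) (a (tr v 0)) i| +
        |d (tr v 2) * cz (a (tr v 0)) (a (tr v 1)) i| := by
      unfold num
      exact (abs_add_le _ _).trans (add_le_add (abs_add_le _ _) le_rfl)
    have e1 := hpr (tr v 0) (tr v 1) (tr v 2)
    have e2 := hpr (tr v 1) (tr v 2) (tr v 0)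
    have e3 := hpr (tr v 2) (tr v 0) (tr v 1)
    have e4 : 24 * K ^ 2 * (Q : ℤ) ^ 2 * (T0 + B') =
        (T0 + B') * (2 * (2 * (K * Q)) ^ 2) + (T0 + B') * (2 * (2 * (K * Q)) ^ 2) +
        (T0 + B') * (2 * (2 * (K * Q)) ^ 2) := by ring
    rw [e4]
    linarith

end Pool.RP
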