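import Pool.Agent.Lib.MP_9dcace_rp.M7a
import Pool.Agent.Lib.MP_9dcace_rp.M7b
import Pool.Agent.Lib.MP_9dcace_sd.Defs

/-!
M8b: from the face lattice formulation to `IsM3`; number of facets; translation to natural numbers.
-/

set_option autoImplicit false

open Classical

namespace Pool.RP

open Pool.SX
open Pool.SD (Z3)

/-- `B` is a face of the polytope with vertex set `V` (or empty, or everything) -/
def IsFace3 (V B : Finset (Fin 3 → ℝ)) : Prop :=
  ∃ (a : Fin 3 → ℝ) (c : ℝ), (∀ x ∈ V, ∑ i, a i * x i ≤ c) ∧ ∀ x, x ∈ B ↔ x ∈ V ∧ ∑ i, a i * x i = c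

/-- `B` is a facet: a maximal proper face -/
def IsFacet3 (V B : Finset (Fin 3 → ℝ)) : Prop :=
  IsFace3 V B ∧ B ≠ V ∧ ∀ B', IsFace3 V B' → B ⊆ B' → B' ≠ V → B' = B

private theorem m8_dp (a x : E3) : ∑ i, a i * x i = dp a x := rfl

section

variable {V A : Type} [Fintype V] [Fintype A] {inc : V → A → Prop}

/-- each facet is determined by three of its vertices -/
theorem M8_card_A_le (hI : Inc3 inc) : Fintype.card A ≤ Fintype.card V ^ 3 := by
  have h : ∀ f, ∃ t : V × V × V, t.1 ≠ t.2.1 ∧ t.2.1 ≠ t.2.2 ∧ t.2.2 ≠ t.1 ∧ inc t.1 f ∧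
      inc t.2.1 f ∧ inc t.2.2 f := by
    intro f
    obtain ⟨v0⟩ := hI.ne
    obtain ⟨u, -, -, hu⟩ := hI.degA f v0 v0
    obtain ⟨v, hv, -, hv'⟩ := hI.degA f u u
    obtain ⟨w, hw, hw', hw''⟩ := hI.degA f u v
    exact ⟨(u, v, w), hv.symm, hw'.symm, hw, hu, hv', hw''⟩
  choose t ht using h
  have hinj : Function.Injective t := by
    intro f g hfg
    by_contra hne
    obtain ⟨h1, h2, h3, h4, h5, h6⟩ := ht f
    obtain ⟨-, -, -, h7, h8, h9⟩ := ht g
    rw [← hfg] at h7 h8 h9
    exact hI.twoV f g _ _ _ hne h1 h2 h3 h4 h5 h6 h7 h8 h9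
  have := Fintype.card_le_of_injective t hinj
  rw [Fintype.card_prod, Fintype.card_prod] at this
  calc Fintype.card A ≤ _ := this
    _ = _ := by ring

end

section

variable {V0 : Finset E3} {A : Type} [Fintype A] {c : E3} {q : A → E3}

/-- the original polytope in the form `Pla` -/
theorem M8_pla_of_pol (hP : Pol (fun v : {v // v ∈ V0} => (v : E3) - c) q) :
    Pla (fun (v : {v // v ∈ V0}) f => dp (q f) ((v : E3) - c) = 1) (fun v => (v : E3)) q
      (fun f => 1 + dp (q f) c) where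
  on := by
    intro v f h
    have h1 : dp (q f) ((v : E3) - c) = dp (q f) v - dp (q f) c := by
      simp only [dp_def, Pi.sub_apply]; ring
    rw [h1] at h
    linarith
  lt := by
    intro v f h
    have h0 := lt_of_le_of_ne (hP.le v f) h
    have h1 : dp (q f) ((v : E3) - c) = dp (q f) v - dp (q f) c := by
      simp only [dp_def, Pi.sub_apply]; ring
    rw [h1] at h0
    linarith

/-- the vertex set of the facet `f` -/
private noncomputable def fc (V0 : Finset E3) (c : E3) (q : A → E3) (f : A) : Finset E3 :=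
  V0.filter (fun x => dp (q f) (x - c) = 1)

private theorem fc_face (hP : Pol (fun v : {v // v ∈ V0} => (v : E3) - c) q) (f : A) :
    IsFace3 V0 (fc V0 c q f) := by
  have h := M8_pla_of_pol hP
  refine ⟨q f, 1 + dp (q f) c, ?_, ?_⟩
  · intro x hx
    rw [m8_dp]
    by_cases h1 : dp (q f) (x - c) = 1
    · exact (h.on ⟨x, hx⟩ f h1).le
    · exact (h.lt ⟨x, hx⟩ f h1).le
  · intro x
    rw [m8_dp, fc, Finset.mem_filter]
    refine and_congr_right fun hx => ?_
    constructor
    · intro h1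
      exact h.on ⟨x, hx⟩ f h1
    · intro h1
      by_contra h2
      exact (h.lt ⟨x, hx⟩ f h2).ne h1

private theorem fc_sub (hI : Inc3 (fun (v : {v // v ∈ V0}) f => dp (q f) ((v : E3) - c) = 1))
    {f g : A} (h : fc V0 c q f ⊆ fc V0 c q g) : f = g := by
  by_contra hne
  obtain ⟨v, hv, hv'⟩ := hI.sepA g f (Ne.symm hne)
  have h1 : (v : E3) ∈ fc V0 c q f := Finset.mem_filter.mpr ⟨v.2, hv⟩
  exact hv' (Finset.mem_filter.mp (h h1)).2

private theorem fc_facet (hP : Pol (fun v : {v // v ∈ V0} => (v : E3) - c) q)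
    (hI : Inc3 (fun (v : {v // v ∈ V0}) f => dp (q f) ((v : E3) - c) = 1)) (f : A) :
    IsFacet3 V0 (fc V0 c q f) := by
  have hP' := M8_pla_of_pol hP
  obtain ⟨v0⟩ := hI.ne
  refine ⟨fc_face hP f, ?_, ?_⟩
  · intro h
    obtain ⟨g, hg, -, -⟩ := hI.degV v0 f f
    obtain ⟨v, -, hv⟩ := hI.sepA f g hg.symm
    have h1 : (v : E3) ∈ fc V0 c q f := by rw [h]; exact v.2
    exact hv (Finset.mem_filter.mp h1).2
  · rintro B' ⟨a, b, hle, hB⟩ hsub hne
    -- the supporting set of the subtype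
    have hS : Supp (fun v : {v // v ∈ V0} => (v : E3))
        (Finset.univ.filter (fun v : {v // v ∈ V0} => (v : E3) ∈ B')) := by
      refine ⟨a, b, fun v => hle v v.2, fun v => ?_⟩
      rw [Finset.mem_filter, hB]
      constructor
      · rintro ⟨-, -, h⟩; exact h
      · intro h; exact ⟨Finset.mem_univ _, v.2, h⟩
    rcases (hP'.supp_iff hI _).mp hS with h | ⟨F, hF⟩
    · -- empty: impossible
      obtain ⟨v, -, -, hv⟩ := hI.degA f v0 v0
      have h1 : (v : E3) ∈ B' := hsub (Finset.mem_filter.mpr ⟨v.2, hv⟩)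
      have h2 : v ∈ Finset.univ.filter (fun v : {v // v ∈ V0} => (v : E3) ∈ B') :=
        Finset.mem_filter.mpr ⟨Finset.mem_univ _, h1⟩
      rw [h] at h2
      exact absurd h2 (Finset.notMem_empty _)
    · have hmem : ∀ v : {v // v ∈ V0}, (v : E3) ∈ B' ↔ ∀ g ∈ F, dp (q g) ((v : E3) - c) = 1 := by
        intro v
        rw [← hF v, Finset.mem_filter]
        simp
      have hBV : ∀ x ∈ B', x ∈ V0 := fun x hx => ((hB x).mp hx).1
      have hall : ∀ g ∈ F, g = f := by
        intro g hg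
        refine (fc_sub hI (fun x hx => ?_)).symm
        have hxV : x ∈ V0 := (Finset.mem_filter.mp hx).1
        exact Finset.mem_filter.mpr ⟨hxV, (hmem ⟨x, hxV⟩).mp (hsub hx) g hg⟩
      have hne' : ∃ g, g ∈ F := by
        by_contra hcon
        push Not at hcon
        apply hne
        ext x
        refine ⟨fun hx => hBV x hx, fun hx => (hmem ⟨x, hx⟩).mpr fun g hg => absurd hg (hcon g)⟩
      obtain ⟨g, hg⟩ := hne'
      have hgf := hall g hg
      subst hgf
      refine Finset.Subset.antisymm (fun x hx => ?_) hsub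
      exact Finset.mem_filter.mpr ⟨hBV x hx, (hmem ⟨x, hBV x hx⟩).mp hx g hg⟩

theorem M8_isM3 (hP : Pol (fun v : {v // v ∈ V0} => (v : E3) - c) q)
    (h3 : ∀ v ∈ V0, ∀ Fs : Finset (Finset E3),
      (∀ B ∈ Fs, IsFacet3 V0 B ∧ v ∈ B ∧ 4 ≤ B.card) → Fs.card ≤ 3) :
    IsM3 (fun (v : {v // v ∈ V0}) f => dp (q f) ((v : E3) - c) = 1) := by
  have hI := inc3_of_pol hP
  intro v F hF
  have hinj : Set.InjOn (fc V0 c q) (F : Set A) := fun f _ g _ h => fc_sub hI h.le
  rw [← Finset.card_image_of_injOn hinj]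
  refine h3 v v.2 _ fun B hB => ?_
  obtain ⟨f, hf, rfl⟩ := Finset.mem_image.mp hB
  obtain ⟨h1, h2⟩ := hF f hf
  refine ⟨fc_facet hP hI f, Finset.mem_filter.mpr ⟨v.2, h1⟩, ?_⟩
  -- at least three vertices, and not exactly three
  obtain ⟨u, hu, -, hu'⟩ := hI.degA f v v
  obtain ⟨w, hw, hw', hw''⟩ := hI.degA f v u
  by_contra hlt
  apply h2
  refine ⟨v, u, w, hu.symm, hw'.symm, hw, fun z => ⟨fun hz => ?_, ?_⟩⟩
  · by_contra hcon
    push Not at hcon
    apply hlt
    have hsub : ({(v : E3), (u : E3), (w : E3), (z : E3)} : Finset E3) ⊆ fc V0 c q f := by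
      intro x hx
      simp only [Finset.mem_insert, Finset.mem_singleton] at hx
      rcases hx with rfl | rfl | rfl | rfl
      · exact Finset.mem_filter.mpr ⟨v.2, h1⟩
      · exact Finset.mem_filter.mpr ⟨u.2, hu'⟩
      · exact Finset.mem_filter.mpr ⟨w.2, hw''⟩
      · exact Finset.mem_filter.mpr ⟨z.2, hz⟩
    have hc : ({(v : E3), (u : E3), (w : E3), (z : E3)} : Finset E3).card = 4 := by
      have n1 : (v : E3) ≠ u := fun h => hu (Subtype.ext h).symm
      have n2 : (v : E3) ≠ w := fun h => hw (Subtype.ext h).symm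
      have n3 : (v : E3) ≠ z := fun h => hcon.1 (Subtype.ext h).symm
      have n4 : (u : E3) ≠ w := fun h => hw' (Subtype.ext h).symm
      have n5 : (u : E3) ≠ z := fun h => hcon.2.1 (Subtype.ext h).symm
      have n6 : (w : E3) ≠ z := fun h => hcon.2.2 (Subtype.ext h).symm
      rw [Finset.card_insert_of_notMem, Finset.card_insert_of_notMem,
        Finset.card_insert_of_notMem, Finset.card_singleton]
      · simpa using n6
      · simp only [Finset.mem_insert, Finset.mem_singleton, not_or]; exact ⟨n4, n5⟩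
      · simp only [Finset.mem_insert, Finset.mem_singleton, not_or]; exact ⟨n1, n2, n3⟩
    rw [← hc]
    exact Finset.card_le_card hsub
  · rintro (rfl | rfl | rfl)
    · exact h1
    · exact hu'
    · exact hw''

end

/-- translation of an integer system to natural numbers -/
theorem M8_pla_nat {V A : Type} {inc : V → A → Prop} (X : V → Z3) (a : A → E3) (d : A → ℝ) (M : ℕ)
    (h : Pla inc (fun v i => (X v i : ℝ)) a d) (hX : ∀ v i, |X v i| ≤ (M : ℤ)) :
    ∃ (g : V → Fin 3 → ℕ) (d' : A → ℝ), (∀ v i, g v i ≤ 2 * M) ∧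
      Pla inc (fun v i => (g v i : ℝ)) a d' := by
  have hg : ∀ v i, (((X v i + M).toNat : ℤ)) = X v i + M := by
    intro v i
    have := abs_le.1 (hX v i)
    exact Int.toNat_of_nonneg (by linarith [this.1])
  have hgr : ∀ v i, (((X v i + M).toNat : ℝ)) = (X v i : ℝ) + M := by
    intro v i
    have h2 : (((X v i + M).toNat : ℤ) : ℝ) = ((X v i + M : ℤ) : ℝ) := by rw [hg v i]
    push_cast at h2
    simpa using h2
  have hdp : ∀ f v, dp (a f) (fun i => (((X v i + M).toNat : ℝ))) =
      dp (a f) (fun i => (X v i : ℝ)) + M * (a f 0 + a f 1 + a f 2) := by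
    intro f v
    simp only [dp_def, hgr]
    ring
  refine ⟨fun v i => (X v i + M).toNat, fun f => d f + M * (a f 0 + a f 1 + a f 2), ?_, ?_, ?_⟩
  · intro v i
    have h1 := abs_le.1 (hX v i)
    have h3 : ((X v i + M).toNat : ℤ) ≤ ((2 * M : ℕ) : ℤ) := by
      rw [hg v i]
      push_cast
      linarith [h1.2]
    exact_mod_cast h3
  · intro v f hv
    show dp (a f) (fun i => (((X v i + M).toNat : ℝ))) = _
    rw [hdp, h.on v f hv]
  · intro v f hv
    show dp (a f) (fun i => (((X v i + M).toNat : ℝ))) < _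
    rw [hdp]
    have := h.lt v f hv
    show _ < d f + M * (a f 0 + a f 1 + a f 2)
    linarith

/-- a realization of size 0 does not exist -/
theorem M8_real3_pos {V A : Type} {inc : V → A → Prop} (hv : ∃ v f, inc v f) {N : ℕ}
    (h : Real3 inc N) : 1 ≤ N := by
  by_contra hN
  have hN0 : N = 0 := by omega
  subst hN0
  obtain ⟨x, q, h1, h2, h3, -⟩ := h
  obtain ⟨v, f, hvf⟩ := hv
  have h4 := h3 v f hvf
  have h5 : ∀ i, x v i = 0 := by
    intro i
    have := h1 v i
    rw [Nat.cast_zero] at this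
    exact abs_eq_zero.mp (le_antisymm this (abs_nonneg _))
  rw [dp_def, h5 0, h5 1, h5 2] at h4
  norm_num at h4

end Pool.RP
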