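import Pool.Agent.Lib.MP_9dcace_rp.M8
import Pool.Agent.Lib.MP_9dcace_rp.Fi

/-!
M8c: the class M3 without hypothesis.
-/

set_option autoImplicit false

open Classical

namespace Pool.RP

open Pool.SX

/-- the class M3 -/
theorem grid_M3 : ∃ f : Polynomial ℕ, ∀ V : Finset (Fin 3 → ℝ),
      (∀ v ∈ V, v ∉ convexHull ℝ ((V : Set (Fin 3 → ℝ)) \ {v})) →
      affineSpan ℝ (V : Set (Fin 3 → ℝ)) = ⊤ →
      (∀ v ∈ V, ∀ Fs : Finset (Finset (Fin 3 → ℝ)),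
        (∀ B ∈ Fs, IsFacet3 V B ∧ v ∈ B ∧ 4 ≤ B.card) → Fs.card ≤ 3) →
      ∃ g : (Fin 3 → ℝ) → (Fin 3 → ℝ),
        Set.InjOn g (V : Set (Fin 3 → ℝ)) ∧
        (∀ v ∈ V, ∀ i : Fin 3, ∃ m : ℕ, g v i = (m : ℝ) ∧ m ≤ f.eval V.card) ∧
        affineSpan ℝ (g '' (V : Set (Fin 3 → ℝ))) = ⊤ ∧
        (∀ v ∈ V, g v ∉ convexHull ℝ (g '' ((V : Set (Fin 3 → ℝ)) \ {v}))) ∧
        ∀ S ⊆ V,
          ((∃ a : Fin 3 → ℝ, ∃ c : ℝ,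
              (∀ x ∈ V, ∑ i, a i * x i ≤ c) ∧
              ∀ x ∈ V, (x ∈ S ↔ ∑ i, a i * x i = c)) ↔
           (∃ a : Fin 3 → ℝ, ∃ c : ℝ,
              (∀ x ∈ V, ∑ i, a i * g x i ≤ c) ∧
              ∀ x ∈ V, (x ∈ S ↔ ∑ i, a i * g x i = c))) :=
  grid_M3_of ⟨realPoly, fun _ _ _ _ _ _ h => real_all h⟩

end Pool.RP
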