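import Pool.Agent.Lib.MP_9dcace_rp.N4

/-!
REAL, section 6: the interface theorem `SchPOf.exists_DrwS` (from `PG.drwS`).
-/

set_option autoImplicit false

open Classical

namespace Pool.RP

open Pool.SX (ar)

theorem SchP.DrwS.mono {V F : Type} [Fintype V] [Fintype F] {s : SchP V F} {om : V → V → ℝ}
    {p : V → ℝ × ℝ} {lo hi D B B' : ℝ} (h : s.DrwS om p lo hi D B) (h0 : 0 < B') (h1 : B' ≤ B) :
    s.DrwS om p lo hi D B' :=
  { h.toDrw with
    B_pos := h0
    side := fun g v u h2 h3 h4 h5 => h1.trans (h.side g v u h2 h3 h4 h5) }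

theorem SchPOf.exists_DrwS : ∃ K : ℕ, ∀ {V A : Type} [Fintype V] [Fintype A] {P : StP V A}
    {s : SchP V A} (_ : SchPOf P s) {om : V → V → ℝ} {p : V → ℝ × ℝ} {lo hi D : ℝ}
    (_ : s.Drw om p lo hi D), lo ≤ 1 → 1 ≤ hi → D ≤ 1 →
    s.DrwS om p lo hi D ((lo * D / (10 * hi * (Fintype.card V + Fintype.card A))) ^ K) := by
  refine ⟨12, ?_⟩
  intro V A _ _ P s hP om p lo hi D hd hlo hhi hD
  have h0 := hd.lo_pos
  have hD0 := hd.A_pos
  have hhi0 : 0 < hi := by linarith
  have hcV : (1 : ℝ) ≤ Fintype.card V := by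
    have : Nonempty V := ⟨s.a 0⟩
    have := Fintype.card_pos (α := V)
    exact_mod_cast this
  have hcA : (0 : ℝ) ≤ Fintype.card A := by positivity
  have hm : (0 : ℝ) < Fintype.card V + Fintype.card A := by linarith
  refine (PG.drwS hP hd (hlo.trans hhi)).mono (by positivity) ?_
  unfold PG.marg
  rw [div_pow, div_le_div_iff₀ (by positivity) (by positivity)]
  have e1 : (lo * D) ^ 12 = lo * (lo ^ 11 * D ^ 12) := by ring
  have e2 : lo ^ 11 ≤ 1 := pow_le_one₀ h0.le hlo
  have e3 : (lo * D) ^ 12 ≤ lo * D ^ 12 := by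
    rw [e1]
    refine mul_le_mul_of_nonneg_left ?_ h0.le
    have : 0 ≤ D ^ 12 := by positivity
    nlinarith
  have e4 : 16384 * (Fintype.card V : ℝ) ^ 2 * hi ≤
      (10 * hi * (Fintype.card V + Fintype.card A)) ^ 12 := by
    have f1 : hi * (Fintype.card V : ℝ) ^ 2 ≤ (hi * (Fintype.card V + Fintype.card A)) ^ 12 := by
      have g1 : (1 : ℝ) ≤ hi * (Fintype.card V + Fintype.card A) := by nlinarith
      have g2 : hi * (Fintype.card V : ℝ) ^ 2 ≤ (hi * (Fintype.card V + Fintype.card A)) ^ 2 := by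
        rw [mul_pow]
        have k1 : hi ≤ hi ^ 2 := by nlinarith
        have k2 : (Fintype.card V : ℝ) ^ 2 ≤ ((Fintype.card V : ℝ) + Fintype.card A) ^ 2 :=
          pow_le_pow_left₀ (by linarith) (by linarith) 2
        exact mul_le_mul k1 k2 (by positivity) (by positivity)
      exact g2.trans (pow_le_pow_right₀ g1 (by norm_num))
    have f2 : (10 * hi * ((Fintype.card V : ℝ) + Fintype.card A)) ^ 12 =
        10 ^ 12 * (hi * (Fintype.card V + Fintype.card A)) ^ 12 := by
      rw [mul_assoc, mul_pow]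
    rw [f2]
    have f3 : 0 ≤ hi * (Fintype.card V : ℝ) ^ 2 := by positivity
    nlinarith
  calc (lo * D) ^ 12 * (16384 * (Fintype.card V : ℝ) ^ 2 * hi)
      ≤ lo * D ^ 12 * (16384 * (Fintype.card V : ℝ) ^ 2 * hi) :=
        mul_le_mul_of_nonneg_right e3 (by positivity)
    _ ≤ lo * D ^ 12 * (10 * hi * (Fintype.card V + Fintype.card A)) ^ 12 :=
        mul_le_mul_of_nonneg_left e4 (by positivity)

end Pool.RP
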