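import Mathlib

/-!
REAL, section 6 (margins), plane geometry.
All vectors have coordinates of absolute value at most 1.
-/

set_option autoImplicit false

namespace Pool.RP.PG

/-- cross product -/
def cr (a b : ℝ × ℝ) : ℝ := a.1 * b.2 - a.2 * b.1

/-- scalar product -/
def dp (a b : ℝ × ℝ) : ℝ := a.1 * b.1 + a.2 * b.2

/-- coordinates of absolute value at most 1 -/
def Sm (a : ℝ × ℝ) : Prop := |a.1| ≤ 1 ∧ |a.2| ≤ 1

theorem Sm.cr_le {a b : ℝ × ℝ} (ha : Sm a) (hb : Sm b) : |cr a b| ≤ 2 := by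
  obtain ⟨a1, a2⟩ := ha
  obtain ⟨b1, b2⟩ := hb
  have h1 : |a.1 * b.2| ≤ 1 := by
    rw [abs_mul]
    exact mul_le_one₀ a1 (abs_nonneg _) b2
  have h2 : |a.2 * b.1| ≤ 1 := by
    rw [abs_mul]
    exact mul_le_one₀ a2 (abs_nonneg _) b1
  have := abs_sub (a.1 * b.2) (a.2 * b.1)
  unfold cr
  linarith

theorem Sm.dp_le {a b : ℝ × ℝ} (ha : Sm a) (hb : Sm b) : |dp a b| ≤ 2 := by
  obtain ⟨a1, a2⟩ := ha
  obtain ⟨b1, b2⟩ := hb
  have h1 : |a.1 * b.1| ≤ 1 := by
    rw [abs_mul]
    exact mul_le_one₀ a1 (abs_nonneg _) b1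
  have h2 : |a.2 * b.2| ≤ 1 := by
    rw [abs_mul]
    exact mul_le_one₀ a2 (abs_nonneg _) b2
  have := abs_add_le (a.1 * b.1) (a.2 * b.2)
  unfold dp
  linarith

/-- (6.1) a vector with a large cross product is long -/
theorem long_of_cr {b z : ℝ × ℝ} {D : ℝ} (hD : 0 ≤ D) (hz : Sm z) (h : D ≤ cr b z) :
    D ^ 2 / 2 ≤ dp b b := by
  obtain ⟨z1, z2⟩ := hz
  have hz2 : dp z z ≤ 2 := by
    have h1 := abs_le.mp z1
    have h2 := abs_le.mp z2
    unfold dp
    nlinarith
  have hb : 0 ≤ dp b b := by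
    unfold dp
    nlinarith [sq_nonneg b.1, sq_nonneg b.2]
  have h1 : cr b z ^ 2 ≤ dp b b * dp z z := by
    unfold cr dp
    nlinarith [sq_nonneg (b.1 * z.1 + b.2 * z.2)]
  have h2 : D ^ 2 ≤ cr b z ^ 2 := by
    nlinarith
  nlinarith

/-- (6.2) one of two points which span a large triangle with `v` is far from the edge `b` -/
theorem far_of_tri {b z z' : ℝ × ℝ} {D L : ℝ} (hb : Sm b) (hz : Sm z) (hz' : Sm z')
    (hL : L ≤ dp b b) (hL0 : 0 ≤ L) (h : D ≤ cr z z') (hD : 0 ≤ D)
    (h1 : 0 ≤ cr b z) (h2 : 0 ≤ cr b z') : L * D / 4 ≤ cr b z ∨ L * D / 4 ≤ cr b z' := by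
  by_contra hc
  push Not at hc
  obtain ⟨c1, c2⟩ := hc
  have e : dp b b * cr z z' = dp b z * cr b z' - dp b z' * cr b z := by
    unfold dp cr
    ring
  have d1 := abs_le.mp (hb.dp_le hz)
  have d2 := abs_le.mp (hb.dp_le hz')
  have e1 : dp b z * cr b z' ≤ 2 * cr b z' := by nlinarith
  have e2 : - (dp b z' * cr b z) ≤ 2 * cr b z := by nlinarith
  have e3 : L * D ≤ dp b b * cr z z' := by
    have : 0 ≤ dp b b := hL0.trans hL
    nlinarith
  nlinarith

/-- (6.4) no spikes -/
theorem spike {a b z : ℝ × ℝ} {D L : ℝ} (ha : Sm a) (hz : Sm z) (hL : L ≤ dp a a) (hL0 : 0 < L)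
    (hD : 0 < D) (h1 : D ≤ cr b z) (h2 : 0 ≤ cr z a) (h0 : 0 ≤ cr b a) (h3 : 0 ≤ dp b a) :
    D * L / 2 ≤ cr b a := by
  have e : cr b a * dp z a = cr z a * dp b a + cr b z * dp a a := by
    unfold cr dp
    ring
  have d1 := abs_le.mp (hz.dp_le ha)
  have e1 : 0 ≤ cr z a * dp b a := mul_nonneg h2 h3
  have e2 : D * L ≤ cr b z * dp a a := by
    have : 0 ≤ cr b z := hD.le.trans h1
    nlinarith
  have e3 : D * L ≤ cr b a * dp z a := by linarith
  nlinarith

/-- (6.5), first half: all the neighbours are close to one line -/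
theorem near_line {ι : Type} [DecidableEq ι] (N : Finset ι) (d : ι → ℝ × ℝ) (om : ι → ℝ)
    {u w : ι} {lo hi L : ℝ} (hlo : 0 < lo) (hL : 0 < L)
    (hom : ∀ x ∈ N, lo ≤ om x ∧ om x ≤ hi)
    (he1 : ∑ x ∈ N, om x * (d x).1 = 0) (he2 : ∑ x ∈ N, om x * (d x).2 = 0)
    (hs : ∀ x ∈ N, Sm (d x)) (hl : ∀ x ∈ N, L ≤ dp (d x) (d x)) (hu : u ∈ N) (hw : w ∈ N)
    (hdel : 0 ≤ cr (d w) (d u)) (hneg : dp (d w) (d u) < 0)
    (hcone : ∀ x ∈ N, x ≠ u → x ≠ w → ¬ (0 < cr (d w) (d x) ∧ 0 < cr (d x) (d u))) :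
    ∀ x ∈ N, |cr (d w) (d x) + cr (d x) (d u)| ≤ 2 * N.card * hi / (lo * L) * cr (d w) (d u) := by
  set del := cr (d w) (d u) with hdef
  have hhi : 0 < hi := hlo.trans_le ((hom u hu).1.trans (hom u hu).2)
  have hL2 : L ≤ 2 := (hl u hu).trans (abs_le.mp ((hs u hu).dp_le (hs u hu))).2
  have hk1 : 1 ≤ 2 / L := by
    rw [le_div_iff₀ hL]
    linarith
  -- upper bound
  have up : ∀ x ∈ N, cr (d w) (d x) + cr (d x) (d u) ≤ 2 / L * del := by
    intro x hx
    by_cases hxu : x = u
    · subst hxu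
      have : cr (d x) (d x) = 0 := by
        unfold cr
        ring
      rw [this, add_zero]
      nlinarith
    by_cases hxw : x = w
    · subst hxw
      have : cr (d x) (d x) = 0 := by
        unfold cr
        ring
      rw [this, zero_add]
      nlinarith
    have hc := hcone x hx hxu hxw
    have eb : del * dp (d x) (d w) = cr (d x) (d u) * dp (d w) (d w)
        + cr (d w) (d x) * dp (d w) (d u) := by
      rw [hdef]
      unfold cr dp
      ring
    have ea : del * dp (d x) (d u) = cr (d x) (d u) * dp (d w) (d u)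
        + cr (d w) (d x) * dp (d u) (d u) := by
      rw [hdef]
      unfold cr dp
      ring
    have lb := hl w hw
    have la := hl u hu
    have db := abs_le.mp ((hs x hx).dp_le (hs w hw))
    have da := abs_le.mp ((hs x hx).dp_le (hs u hu))
    by_cases hA : 0 < cr (d x) (d u)
    · have hB : cr (d w) (d x) ≤ 0 := by
        by_contra h
        exact hc ⟨not_le.mp h, hA⟩
      have h1 : 0 ≤ cr (d w) (d x) * dp (d w) (d u) := mul_nonneg_of_nonpos_of_nonpos hB hneg.le
      have h2 : cr (d x) (d u) * L ≤ cr (d x) (d u) * dp (d w) (d w) :=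
        mul_le_mul_of_nonneg_left lb hA.le
      have h3 : cr (d x) (d u) * L ≤ 2 * del := by nlinarith
      have h4 : cr (d x) (d u) ≤ 2 / L * del := by
        rw [div_mul_eq_mul_div, le_div_iff₀ hL]
        exact h3
      linarith
    · have hA' := not_lt.mp hA
      by_cases hB : 0 < cr (d w) (d x)
      · have h1 : 0 ≤ cr (d x) (d u) * dp (d w) (d u) := mul_nonneg_of_nonpos_of_nonpos hA' hneg.le
        have h2 : cr (d w) (d x) * L ≤ cr (d w) (d x) * dp (d u) (d u) :=
          mul_le_mul_of_nonneg_left la hB.le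
        have h3 : cr (d w) (d x) * L ≤ 2 * del := by nlinarith
        have h4 : cr (d w) (d x) ≤ 2 / L * del := by
          rw [div_mul_eq_mul_div, le_div_iff₀ hL]
          exact h3
        linarith
      · have hB' := not_lt.mp hB
        have : 0 ≤ 2 / L * del := by positivity
        linarith
  -- the sum
  have hsum : ∑ x ∈ N, om x * (cr (d w) (d x) + cr (d x) (d u)) = 0 := by
    have : ∑ x ∈ N, om x * (cr (d w) (d x) + cr (d x) (d u)) =
        ((d u).2 - (d w).2) * (∑ x ∈ N, om x * (d x).1) +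
          ((d w).1 - (d u).1) * (∑ x ∈ N, om x * (d x).2) := by
      rw [Finset.mul_sum, Finset.mul_sum, ← Finset.sum_add_distrib]
      refine Finset.sum_congr rfl fun x _ => ?_
      unfold cr
      ring
    rw [this, he1, he2]
    ring
  intro x hx
  have hcard : (1 : ℝ) ≤ N.card := by
    exact_mod_cast Finset.card_pos.mpr ⟨x, hx⟩
  have hkdel : 0 ≤ 2 / L * del := by positivity
  have hK : 2 * N.card * hi / (lo * L) = N.card * hi / lo * (2 / L) := by
    field_simp
  have hhl : 1 ≤ N.card * hi / lo := by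
    rw [le_div_iff₀ hlo]
    have : lo ≤ hi := (hom u hu).1.trans (hom u hu).2
    nlinarith
  rw [hK, abs_le]
  constructor
  · have h1 : om x * (cr (d w) (d x) + cr (d x) (d u)) =
        - ∑ y ∈ N.erase x, om y * (cr (d w) (d y) + cr (d y) (d u)) := by
      have := Finset.add_sum_erase N (fun y => om y * (cr (d w) (d y) + cr (d y) (d u))) hx
      linarith
    have h2 : ∑ y ∈ N.erase x, om y * (cr (d w) (d y) + cr (d y) (d u)) ≤
        ∑ _y ∈ N.erase x, hi * (2 / L * del) := by
      refine Finset.sum_le_sum fun y hy => ?_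
      have hy' := Finset.mem_of_mem_erase hy
      have h3 := up y hy'
      have h4 := hom y hy'
      have h5 : 0 < om y := hlo.trans_le h4.1
      calc om y * (cr (d w) (d y) + cr (d y) (d u)) ≤ om y * (2 / L * del) :=
            mul_le_mul_of_nonneg_left h3 h5.le
        _ ≤ hi * (2 / L * del) := mul_le_mul_of_nonneg_right h4.2 hkdel
    have h3 : ∑ _y ∈ N.erase x, hi * (2 / L * del) ≤ N.card * (hi * (2 / L * del)) := by
      rw [Finset.sum_const, nsmul_eq_mul]
      refine mul_le_mul_of_nonneg_right ?_ (by positivity)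
      exact_mod_cast Finset.card_erase_le
    have h4 : -(N.card * (hi * (2 / L * del))) ≤ om x * (cr (d w) (d x) + cr (d x) (d u)) := by
      rw [h1]
      linarith
    by_contra hcon
    push Not at hcon
    have h5 : om x * (cr (d w) (d x) + cr (d x) (d u)) ≤
        lo * (cr (d w) (d x) + cr (d x) (d u)) := by
      have hneg' : cr (d w) (d x) + cr (d x) (d u) ≤ 0 := by
        have : 0 ≤ N.card * hi / lo * (2 / L) * del := by positivity
        linarith
      nlinarith [(hom x hx).1]
    have h6 : lo * (cr (d w) (d x) + cr (d x) (d u)) < lo * -(N.card * hi / lo * (2 / L) * del) :=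
      mul_lt_mul_of_pos_left hcon hlo
    have h7 : lo * -(N.card * hi / lo * (2 / L) * del) = -(N.card * (hi * (2 / L * del))) := by
      field_simp
    linarith
  · calc cr (d w) (d x) + cr (d x) (d u) ≤ 2 / L * del := up x hx
      _ ≤ N.card * hi / lo * (2 / L * del) := by nlinarith
      _ = N.card * hi / lo * (2 / L) * del := by ring

/-- the two identities which express everything in the basis `e`, `e^⊥` -/
theorem id_dp (p q e : ℝ × ℝ) : dp p q * dp e e = dp p e * dp q e + cr e p * cr e q := by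
  unfold dp cr
  ring

theorem id_cr (p q e : ℝ × ℝ) : cr p q * dp e e = dp p e * cr e q - dp q e * cr e p := by
  unfold dp cr
  ring

/-- vectors close to the line of `e` have a side -/
theorem side_big {x e : ℝ × ℝ} {L t : ℝ} (hL : 0 < L) (hx : L ≤ dp x x) (he : 2 * L ≤ dp e e)
    (ht : |cr e x| ≤ t) (htL : t ≤ L) : L ≤ dp x e ∨ dp x e ≤ -L := by
  have h := id_dp x x e
  have h1 : cr e x * cr e x ≤ L * L := by
    have h2 := abs_le.mp (ht.trans htL)
    nlinarith
  have h2 : L * (2 * L) ≤ dp x x * dp e e := mul_le_mul hx he (by positivity) (by linarith)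
  by_contra hc
  push Not at hc
  obtain ⟨c1, c2⟩ := hc
  have : dp x e * dp x e < L * L := by nlinarith
  nlinarith

/-- two consecutive neighbours are on different sides -/
theorem sides_opp {p q e : ℝ × ℝ} {L t D : ℝ} (hL : 0 < L) (hp : Sm p) (hq : Sm q)
    (hse : Sm e) (he : 2 * L ≤ dp e e)
    (tp : |cr e p| ≤ t) (tq : |cr e q| ≤ t) (htL : t ≤ L) (hD : 4 * t < 2 * L * D)
    (hspike : 0 ≤ dp p q → D ≤ cr p q) (hpe : L ≤ dp p e ∨ dp p e ≤ -L)
    (hqe : L ≤ dp q e ∨ dp q e ≤ -L) : (L ≤ dp p e ∧ dp q e ≤ -L) ∨ (dp p e ≤ -L ∧ L ≤ dp q e) := by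
  have key : ¬ (L * L ≤ dp p e * dp q e) := by
    intro h
    have h1 := id_dp p q e
    have tp' := abs_le.mp tp
    have tq' := abs_le.mp tq
    have ht0 : 0 ≤ t := (abs_nonneg _).trans tp
    have h2 : -(L * L) ≤ cr e p * cr e q := by
      have : |cr e p * cr e q| ≤ L * L := by
        rw [abs_mul]
        exact mul_le_mul (tp.trans htL) (tq.trans htL) (abs_nonneg _) hL.le
      exact (abs_le.mp this).1
    have h3 : 0 ≤ dp p q := by
      by_contra hneg
      push Not at hneg
      have : dp p q * dp e e < 0 := mul_neg_of_neg_of_pos hneg (by linarith)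
      linarith
    have h4 := hspike h3
    have h5 := id_cr p q e
    have dpp := hp.dp_le hse
    have dqq := hq.dp_le hse
    have h6 : |dp p e * cr e q| ≤ 2 * t := by
      rw [abs_mul]
      exact mul_le_mul dpp tq (abs_nonneg _) (by norm_num)
    have h7 : |dp q e * cr e p| ≤ 2 * t := by
      rw [abs_mul]
      exact mul_le_mul dqq tp (abs_nonneg _) (by norm_num)
    have h8 : cr p q * dp e e ≤ 4 * t := by
      rw [h5]
      have := (abs_le.mp h6).2
      have := (abs_le.mp h7).1
      linarith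
    have hcr : 0 ≤ cr p q := by
      by_contra hneg
      push Not at hneg
      have : D < 0 := h4.trans_lt hneg
      nlinarith
    nlinarith
  rcases hpe with h1 | h1 <;> rcases hqe with h2 | h2
  · exact absurd (mul_le_mul h1 h2 hL.le (hL.le.trans h1)) key
  · exact Or.inl ⟨h1, h2⟩
  · exact Or.inr ⟨h1, h2⟩
  · refine absurd ?_ key
    nlinarith

/-- the centre of the face behind the next neighbour violates the cone condition -/
theorem centre_bad {a b x c e : ℝ × ℝ} {L t M : ℝ} (hL : 0 < L) (he : e = b - a)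
    (hse : Sm e) (hx : Sm x) (hc : Sm c) (hbe : L ≤ dp b e) (hae : dp a e ≤ -L)
    (hxe : L ≤ dp x e) (hee : 2 * L ≤ dp e e) (tx : |cr e x| ≤ t) (hM : M ≤ cr x c)
    (hdel : 0 ≤ cr b a) (ht : 2 * t ≤ L * M) (hdM : 4 * cr b a < L * L * M) :
    0 < cr b c ∧ 0 < cr c a := by
  have hM0 : 0 < M := by
    by_contra h
    push Not at h
    have : L * L * M ≤ 0 := mul_nonpos_of_nonneg_of_nonpos (by positivity) h
    linarith
  have dce := abs_le.mp (hc.dp_le hse)
  have dxe := abs_le.mp (hx.dp_le hse)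
  have h1 := id_cr x c e
  have h2 : |dp c e * cr e x| ≤ 2 * t := by
    rw [abs_mul]
    exact mul_le_mul (hc.dp_le hse) tx (abs_nonneg _) (by norm_num)
  have h3 := (abs_le.mp h2).1
  have h4 : M * (2 * L) ≤ cr x c * dp e e := mul_le_mul hM hee (by positivity) (by linarith)
  -- dp x e * cr e c ≥ 2 L M - 2 t ≥ L M
  have h5 : L * M ≤ dp x e * cr e c := by nlinarith
  have h6 : L * M / 2 ≤ cr e c := by
    have hpos : 0 < cr e c := by
      by_contra hneg
      push Not at hneg
      have : dp x e * cr e c ≤ 0 := mul_nonpos_of_nonneg_of_nonpos (by linarith) hneg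
      have : 0 < L * M := by positivity
      linarith
    nlinarith
  have heb : cr e b = cr b a := by
    rw [he]
    simp only [cr, Prod.fst_sub, Prod.snd_sub]
    ring
  have hea : cr e a = cr b a := by
    rw [he]
    simp only [cr, Prod.fst_sub, Prod.snd_sub]
    ring
  have hee0 : 0 < dp e e := by linarith
  constructor
  · have h7 := id_cr b c e
    rw [heb] at h7
    have h8 : L * (L * M / 2) ≤ dp b e * cr e c := mul_le_mul hbe h6 (by positivity) (by linarith)
    have h9 : dp c e * cr b a ≤ 2 * cr b a := mul_le_mul_of_nonneg_right dce.2 hdel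
    have h10 : 0 < cr b c * dp e e := by
      rw [h7]
      nlinarith
    exact (pos_iff_pos_of_mul_pos h10).mpr hee0
  · have h7 := id_cr c a e
    rw [hea] at h7
    have h8 : L * (L * M / 2) ≤ (-dp a e) * cr e c :=
      mul_le_mul (by linarith) h6 (by positivity) (by linarith)
    have h9 : -(2 * cr b a) ≤ dp c e * cr b a := by nlinarith
    have h10 : 0 < cr c a * dp e e := by
      rw [h7]
      nlinarith
    exact (pos_iff_pos_of_mul_pos h10).mpr hee0

end Pool.RP.PG
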