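import Pool.Agent.Lib.MP_9dcace_rp.N1
import Pool.Agent.Lib.MP_9dcace_sx.TDefs

/-!
REAL, section 6 (margins): (6.5) strict convexity at a vertex, in vectors; (6.6) convex polygons.
-/

set_option autoImplicit false

namespace Pool.RP.PG

open Pool.SX (ar)

theorem ar_cr (p q r : ℝ × ℝ) : ar p q r = cr (q - p) (r - p) := by
  simp only [ar, cr, Prod.fst_sub, Prod.snd_sub]

theorem ar_rot (p q r : ℝ × ℝ) : ar q r p = ar p q r := by
  unfold ar
  ring

/-- (6.5) at a vertex: `d x` are the vectors to the neighbours `x ∈ N`; `w`, `u` are the two neighbours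
in the face `f` (`f` is on the left of the edge to `w`), `u`, `y` those in the next face `f1`, and `c` is
the vector to the centre of the next face `f2` (on the left of the edge to `y`), different from `f`. -/
theorem strict_core {ι : Type} [DecidableEq ι] (N : Finset ι) (d : ι → ℝ × ℝ) (om : ι → ℝ)
    {u w y : ι} {c : ℝ × ℝ} {lo hi L D M : ℝ} (hlo : 0 < lo) (hL : 0 < L) (hD : 0 < D) (hM : 0 < M)
    (hD2 : D ≤ 2) (hom : ∀ x ∈ N, lo ≤ om x ∧ om x ≤ hi)
    (he1 : ∑ x ∈ N, om x * (d x).1 = 0) (he2 : ∑ x ∈ N, om x * (d x).2 = 0)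
    (hs : ∀ x ∈ N, Sm (d x)) (hsc : Sm c) (hse : Sm (d w - d u))
    (hl : ∀ x ∈ N, L ≤ dp (d x) (d x)) (hu : u ∈ N) (hw : w ∈ N) (hy : y ∈ N)
    (hdel : 0 ≤ cr (d w) (d u))
    (hcone : ∀ x ∈ N, x ≠ u → x ≠ w → ¬ (0 < cr (d w) (d x) ∧ 0 < cr (d x) (d u)))
    (hconec : ¬ (0 < cr (d w) c ∧ 0 < cr c (d u)))
    (hspike : 0 ≤ dp (d w) (d u) → D ≤ cr (d w) (d u))
    (hspike1 : 0 ≤ dp (d u) (d y) → D ≤ cr (d u) (d y)) (hc : M ≤ cr (d y) c) :
    lo * L ^ 2 * M * D / (16 * N.card * hi) ≤ cr (d w) (d u) := by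
  by_contra hcon
  push Not at hcon
  have hhi : 0 < hi := hlo.trans_le ((hom u hu).1.trans (hom u hu).2)
  have hlh : lo ≤ hi := (hom u hu).1.trans (hom u hu).2
  have hL2 : L ≤ 2 := (hl u hu).trans (abs_le.mp ((hs u hu).dp_le (hs u hu))).2
  have hM2 : M ≤ 2 := hc.trans (abs_le.mp ((hs y hy).cr_le hsc)).2
  have hcard : (1 : ℝ) ≤ N.card := by
    exact_mod_cast Finset.card_pos.mpr ⟨u, hu⟩
  set n : ℝ := (N.card : ℝ) with hn
  have hn0 : 0 < n := by linarith
  set del := cr (d w) (d u) with hdef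
  have hden : 0 < 16 * n * hi := by positivity
  rw [lt_div_iff₀ hden] at hcon
  -- del * 16 n hi < lo L^2 M D
  have hMD : 0 < M * D := by positivity
  have hloL : 0 < lo * L ^ 2 := by positivity
  -- del < D
  have h5 : del < D := by
    have h1 : lo * L ^ 2 * M * D ≤ hi * 4 * 2 * D := by
      have hL4 : L ^ 2 ≤ 4 := by nlinarith
      have : lo * L ^ 2 ≤ hi * 4 := mul_le_mul hlh hL4 (by positivity) hhi.le
      have : lo * L ^ 2 * M ≤ hi * 4 * 2 := mul_le_mul this hM2 hM.le (by positivity)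
      exact mul_le_mul_of_nonneg_right this hD.le
    have h2 : del * (16 * hi) ≤ del * (16 * n * hi) := by
      refine mul_le_mul_of_nonneg_left ?_ hdel
      nlinarith
    have h3 : del * (16 * hi) < hi * 4 * 2 * D := by linarith
    nlinarith
  have hneg : dp (d w) (d u) < 0 := by
    by_contra h
    exact absurd (hspike (not_lt.mp h)) (not_le.mpr h5)
  have hnear := near_line N d om hlo hL hom he1 he2 hs hl hu hw hdel hneg hcone
  rw [← hn, ← hdef] at hnear
  set e := d w - d u with he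
  set t := 2 * n * hi / (lo * L) * del with ht
  have ht0 : 0 ≤ t := by positivity
  have hcre : ∀ x ∈ N, |cr e (d x)| ≤ t := by
    intro x hx
    have h1 := hnear x hx
    have h2 : cr e (d x) = cr (d w) (d x) + cr (d x) (d u) := by
      rw [he]
      simp only [cr, Prod.fst_sub, Prod.snd_sub]
      ring
    rw [h2]
    exact h1
  -- t * lo L = 2 n hi del
  have hteq : t * (lo * L) = 2 * n * hi * del := by
    rw [ht]
    field_simp
  have ht8 : 8 * (t * (lo * L)) < lo * L ^ 2 * M * D := by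
    rw [hteq]
    nlinarith
  have ht9 : 8 * t < L * (M * D) := by
    have h1 : 8 * t * (lo * L) < L * (M * D) * (lo * L) := by nlinarith
    exact lt_of_mul_lt_mul_right h1 (by positivity)
  have htL : t ≤ L := by
    have : M * D ≤ 4 := by nlinarith
    nlinarith
  have htD : 4 * t < 2 * L * D := by
    have : L * (M * D) ≤ L * (2 * D) := by
      refine mul_le_mul_of_nonneg_left ?_ hL.le
      nlinarith
    have : 0 < L * D := by positivity
    nlinarith
  have htM : 2 * t ≤ L * M := by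
    have : L * (M * D) ≤ L * (M * 2) := by
      refine mul_le_mul_of_nonneg_left ?_ hL.le
      nlinarith
    have : 0 < L * M := by positivity
    nlinarith
  have hdM : 4 * del < L * L * M := by
    have h1 : del * (16 * hi) ≤ del * (16 * n * hi) := by
      refine mul_le_mul_of_nonneg_left ?_ hdel
      nlinarith
    have h2 : lo * L ^ 2 * M * D ≤ hi * (L ^ 2 * M * 2) := by
      have h3 : lo * (L ^ 2 * M * D) ≤ hi * (L ^ 2 * M * 2) := by
        refine mul_le_mul hlh ?_ (by positivity) hhi.le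
        refine mul_le_mul_of_nonneg_left hD2 (by positivity)
      linarith [h3]
    have h4 : del * 16 * hi < (L ^ 2 * M * 2) * hi := by nlinarith
    have h5 : del * 16 < L ^ 2 * M * 2 := lt_of_mul_lt_mul_right h4 hhi.le
    have h6 : 0 < L ^ 2 * M := by positivity
    nlinarith
  have hwe : L ≤ dp (d w) e := by
    have : dp (d w) e = dp (d w) (d w) - dp (d w) (d u) := by
      rw [he]
      simp only [dp, Prod.fst_sub, Prod.snd_sub]
      ring
    rw [this]
    linarith [hl w hw]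
  have hue : dp (d u) e ≤ -L := by
    have : dp (d u) e = dp (d w) (d u) - dp (d u) (d u) := by
      rw [he]
      simp only [dp, Prod.fst_sub, Prod.snd_sub]
      ring
    rw [this]
    linarith [hl u hu]
  have hee : 2 * L ≤ dp e e := by
    have : dp e e = dp (d w) (d w) + dp (d u) (d u) - 2 * dp (d w) (d u) := by
      rw [he]
      simp only [dp, Prod.fst_sub, Prod.snd_sub]
      ring
    rw [this]
    linarith [hl u hu, hl w hw]
  have hside := side_big hL (hl y hy) hee (hcre y hy) htL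
  have hopp := sides_opp hL (hs u hu) (hs y hy) hse hee (hcre u hu) (hcre y hy) htL htD hspike1
    (Or.inr hue) hside
  have hye : L ≤ dp (d y) e := by
    rcases hopp with ⟨h1, _⟩ | ⟨_, h2⟩
    · linarith
    · exact h2
  exact hconec (centre_bad hL he hse (hs y hy) hsc hwe hue hye hee (hcre y hy) hc hdel htM hdM)

/-- (6.6) a polygon with nonnegative orientations and strictly convex corners is uniformly convex -/
theorem poly_edge (s : ℕ → ℝ × ℝ) {m : ℕ} (hm : 2 ≤ m) {δ : ℝ} (hδ : 0 < δ)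
    (hcc : ∀ i j k, i < j → j < k → k ≤ m → 0 ≤ ar (s i) (s j) (s k))
    (hcon : ∀ i, i + 2 ≤ m → δ ≤ ar (s i) (s (i + 1)) (s (i + 2)))
    (hQ : δ ≤ ar (s (m - 1)) (s m) (s 0)) (hP : δ ≤ ar (s m) (s 0) (s 1)) :
    ∀ i, 1 ≤ i → i ≤ m - 1 → δ ≤ ar (s m) (s 0) (s i) := by
  intro i hi1 him
  rcases Nat.lt_or_ge 1 i with h1 | h1
  swap
  · have : i = 1 := le_antisymm h1 hi1
    rw [this]
    exact hP
  rcases Nat.lt_or_ge i (m - 1) with h2 | h2
  swap
  · have : i = m - 1 := le_antisymm him h2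
    rw [this, ar_rot (s (m - 1))] 
    exact hQ
  -- `b = s 0`, `P = s 1`, `Q = s (m-1)`
  have hQ' : δ ≤ ar (s m) (s 0) (s (m - 1)) := by
    rw [ar_rot (s (m - 1))]
    exact hQ
  have a1 : 0 ≤ ar (s 0) (s i) (s (m - 1)) := hcc 0 i (m - 1) (by omega) h2 (by omega)
  have a2 : 0 ≤ ar (s 0) (s 1) (s i) := hcc 0 1 i (by omega) h1 (by omega)
  have a3 : 0 ≤ ar (s 1) (s i) (s (m - 1)) := hcc 1 i (m - 1) h1 h2 (by omega)
  have a4 : 0 ≤ ar (s 0) (s 1) (s (m - 1)) := hcc 0 1 (m - 1) (by omega) (by omega) (by omega)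
  have key : ar (s 0) (s 1) (s (m - 1)) * ar (s m) (s 0) (s i) =
      ar (s 0) (s i) (s (m - 1)) * ar (s m) (s 0) (s 1) +
        ar (s 0) (s 1) (s i) * ar (s m) (s 0) (s (m - 1)) := by
    unfold ar
    ring
  have key2 : ar (s 0) (s i) (s (m - 1)) + ar (s 0) (s 1) (s i) =
      ar (s 0) (s 1) (s (m - 1)) + ar (s 1) (s i) (s (m - 1)) := by
    unfold ar
    ring
  have a5 : 0 < ar (s 0) (s 1) (s (m - 1)) := by
    rcases a4.lt_or_eq with h | h
    · exact h
    exfalso
    have hz : ar (s 0) (s 1) (s 2) = 0 := by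
      have k2 : ar (s 0) (s 1) (s (m - 1)) * ar (s m) (s 0) (s 2) =
          ar (s 0) (s 2) (s (m - 1)) * ar (s m) (s 0) (s 1) +
            ar (s 0) (s 1) (s 2) * ar (s m) (s 0) (s (m - 1)) := by
        unfold ar
        ring
      rw [← h, zero_mul] at k2
      have b1 : 0 ≤ ar (s 0) (s 2) (s (m - 1)) := hcc 0 2 (m - 1) (by omega) (by omega) (by omega)
      have b2 : 0 ≤ ar (s 0) (s 1) (s 2) := hcc 0 1 2 (by omega) (by omega) (by omega)
      have c1 : 0 ≤ ar (s 0) (s 2) (s (m - 1)) * ar (s m) (s 0) (s 1) :=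
        mul_nonneg b1 (hδ.le.trans hP)
      have c2 : ar (s 0) (s 1) (s 2) * δ ≤ ar (s 0) (s 1) (s 2) * ar (s m) (s 0) (s (m - 1)) :=
        mul_le_mul_of_nonneg_left hQ' b2
      have c3 : ar (s 0) (s 1) (s 2) * δ ≤ 0 := by linarith
      have c4 : ar (s 0) (s 1) (s 2) ≤ 0 := by
        by_contra hc
        push Not at hc
        have : 0 < ar (s 0) (s 1) (s 2) * δ := mul_pos hc hδ
        linarith
      exact le_antisymm c4 b2
    have := hcon 0 (by omega)
    simp only [Nat.zero_add] at this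
    rw [hz] at this
    linarith
  have b1 : ar (s 0) (s i) (s (m - 1)) * δ ≤ ar (s 0) (s i) (s (m - 1)) * ar (s m) (s 0) (s 1) :=
    mul_le_mul_of_nonneg_left hP a1
  have b2 : ar (s 0) (s 1) (s i) * δ ≤ ar (s 0) (s 1) (s i) * ar (s m) (s 0) (s (m - 1)) :=
    mul_le_mul_of_nonneg_left hQ' a2
  have b3 : ar (s 0) (s 1) (s (m - 1)) * δ ≤ ar (s 0) (s 1) (s (m - 1)) * ar (s m) (s 0) (s i) := by
    rw [key]
    have : (ar (s 0) (s i) (s (m - 1)) + ar (s 0) (s 1) (s i)) * δ =
        (ar (s 0) (s 1) (s (m - 1)) + ar (s 1) (s i) (s (m - 1))) * δ := by rw [key2]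
    nlinarith
  exact le_of_mul_le_mul_left b3 a5

end Pool.RP.PG
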