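import Pool.Agent.Lib.MP_9dcace_rp.N1b
import Pool.Agent.Lib.MP_9dcace_rp.Cone

/-!
REAL, section 6 (margins): CONE.  In a plane drawing of a triangulated sphere with positive triangles,
no edge at `v` other than `vc` leaves into the two triangles `v w c`, `v c u`.
-/

set_option autoImplicit false

open Classical

namespace Pool.RP.PG

open Pool.SX (ar Sch)

variable {X B : Type} [Fintype X] [Fintype B]

/-- CONE: a drawing of a Schnyder structure with positive triangles -/
theorem cone (s : Sch X B) (p : X → ℝ × ℝ)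
    (hout : 0 < ar (p (s.a 0)) (p (s.a 1)) (p (s.a 2)))
    (harea : ∀ g : B, 0 < ar (p (s.t 0 g)) (p (s.t 1 g)) (p (s.t 2 g)))
    {v w c u x : X} {g1 g2 h : B} {k1 k2 k3 : Fin 3}
    (h10 : s.t k1 g1 = v) (h11 : s.t (k1 + 1) g1 = w) (h12 : s.t (k1 + 2) g1 = c)
    (h20 : s.t k2 g2 = v) (h21 : s.t (k2 + 1) g2 = c) (h22 : s.t (k2 + 2) g2 = u)
    (h30 : s.t k3 h = v) (h31 : s.t (k3 + 1) h = x) (hne1 : g1 ≠ h) (hne2 : g2 ≠ h) :
    ¬ (0 < ar (p v) (p w) (p x) ∧ 0 < ar (p v) (p x) (p u)) := by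
  rintro ⟨hx1, hx2⟩
  rcases lt_or_ge 0 (ar (p v) (p x) (p c)) with hc | hc
  · refine s.cone p hout harea g1 h k1 k3 (h10.trans h30.symm) hne1 ?_ ?_
    · rw [h10, h11, h31]
      exact hx1.le
    · rw [h10, h12, h31]
      exact hc
  · refine s.cone p hout harea g2 h k2 k3 (h20.trans h30.symm) hne2 ?_ ?_
    · rw [h20, h21, h31]
      have : ar (p v) (p c) (p x) = - ar (p v) (p x) (p c) := by
        unfold ar
        ring
      rw [this]
      linarith
    · rw [h20, h22, h31]
      exact hx2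

end Pool.RP.PG
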