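import Pool.Agent.Lib.MP_9dcace_rp.TbB
import Pool.Agent.Lib.MP_9dcace_rp.N2

/-!
REAL, section 6 (margins): (6.1), (6.2), (6.4) for a drawing of a Schnyder structure.
-/

set_option autoImplicit false

open Classical

namespace Pool.RP.PG

open Pool.SX (ar Sch OutF)

variable {V F : Type} [Fintype V] [Fintype F] {s : SchP V F}

/-! ### the cycle of a face -/

theorem first {g : F} {v z : V} (hv : s.Inc v g) (hz : s.Inc z g) :
    ∃ n, (s.nx g)^[n] v = z ∧ (∀ m, m < n → (s.nx g)^[m] v ≠ z) ∧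
      ∀ m, 0 < m → m ≤ n → (s.nx g)^[m] v ≠ v := by
  obtain ⟨k, hk⟩ := hv
  obtain ⟨l, hl⟩ := hz
  have hex : ∃ n, (s.nx g)^[n] v = z := s.cyc hk hl
  refine ⟨Nat.find hex, Nat.find_spec hex, fun m hm => Nat.find_min hex hm, ?_⟩
  intro m hm0 hmn h
  have h1 : (s.nx g)^[Nat.find hex - m] v = z := by
    have h2 : (s.nx g)^[(Nat.find hex - m) + m] v = z := by
      rw [Nat.sub_add_cancel hmn]
      exact Nat.find_spec hex
    rw [Function.iterate_add_apply, h] at h2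
    exact h2
  exact Nat.find_min hex (by omega) h1

theorem ccw_side {g : F} {v z : V} (hv : s.Inc v g) (hz : s.Inc z g) (h1 : z ≠ v)
    (h2 : z ≠ s.nx g v) : s.Ccw g v (s.nx g v) z := by
  obtain ⟨n, hn, hmin, hno⟩ := first hv hz
  refine ⟨hv, 1, n, one_pos, ?_, rfl, hn.symm, hno⟩
  rcases Nat.lt_or_ge 1 n with h | h
  · exact h
  · exfalso
    interval_cases n
    · exact h1 hn.symm
    · exact h2 hn.symm

theorem iter_inj {g : F} {x y : V} (hx : s.Inc x g) (hy : s.Inc y g) :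
    ∀ i : ℕ, (s.nx g)^[i] x = (s.nx g)^[i] y → x = y := by
  intro i
  induction i with
  | zero => exact id
  | succ i ih =>
    intro h
    rw [Function.iterate_succ_apply', Function.iterate_succ_apply'] at h
    obtain ⟨k, hk⟩ := s.inc_iter hx i
    obtain ⟨l, hl⟩ := s.inc_iter hy i
    exact ih (s.nxinj hk hl h)

theorem ccw_iter {g : F} {b : V} (hb : s.Inc b g) {m : ℕ}
    (hno : ∀ t, 0 < t → t ≤ m → (s.nx g)^[t] b ≠ b) {i j k : ℕ} (hij : i < j) (hjk : j < k)
    (hkm : k ≤ m) : s.Ccw g ((s.nx g)^[i] b) ((s.nx g)^[j] b) ((s.nx g)^[k] b) := by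
  refine ⟨s.inc_iter hb i, j - i, k - i, by omega, by omega, ?_, ?_, ?_⟩
  · rw [← Function.iterate_add_apply, Nat.sub_add_cancel hij.le]
  · rw [← Function.iterate_add_apply, Nat.sub_add_cancel (hij.trans hjk).le]
  · intro t ht0 ht h
    rw [← Function.iterate_add_apply, Nat.add_comm, Function.iterate_add_apply] at h
    exact hno t ht0 (by omega) (iter_inj (s.inc_iter hb t) hb i h)

/-! ### coordinates -/

theorem sm_sub {a b : ℝ × ℝ} (ha : 0 ≤ a.1 ∧ 0 ≤ a.2 ∧ a.1 + a.2 ≤ 1)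
    (hb : 0 ≤ b.1 ∧ 0 ≤ b.2 ∧ b.1 + b.2 ≤ 1) : Sm (a - b) := by
  obtain ⟨a1, a2, a3⟩ := ha
  obtain ⟨b1, b2, b3⟩ := hb
  refine ⟨abs_le.mpr ⟨?_, ?_⟩, abs_le.mpr ⟨?_, ?_⟩⟩
  · rw [Prod.fst_sub]
    linarith
  · rw [Prod.fst_sub]
    linarith
  · rw [Prod.snd_sub]
    linarith
  · rw [Prod.snd_sub]
    linarith

theorem avg_tri {om : V → V → ℝ} {p : V → ℝ × ℝ} {lo hi A : ℝ} (hd : s.Drw om p lo hi A) (g : F) :
    0 ≤ (s.avg p g).1 ∧ 0 ≤ (s.avg p g).2 ∧ (s.avg p g).1 + (s.avg p g).2 ≤ 1 := by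
  have h1 := s.avg_aff p g 1 0 0
  have h2 := s.avg_aff p g 0 1 0
  have h3 := s.avg_aff p g (-1) (-1) 1
  have c := s.vs_card_pos g
  refine ⟨?_, ?_, ?_⟩
  · have : 0 ≤ ((s.vs g).card : ℝ)⁻¹ * ∑ u ∈ s.vs g, (1 * (p u).1 + 0 * (p u).2 + 0) :=
      mul_nonneg (by positivity) (Finset.sum_nonneg fun u _ => by
        have := SchP.in_tri hd u
        linarith)
    linarith
  · have : 0 ≤ ((s.vs g).card : ℝ)⁻¹ * ∑ u ∈ s.vs g, (0 * (p u).1 + 1 * (p u).2 + 0) :=
      mul_nonneg (by positivity) (Finset.sum_nonneg fun u _ => by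
        have := SchP.in_tri hd u
        linarith)
    linarith
  · have : 0 ≤ ((s.vs g).card : ℝ)⁻¹ * ∑ u ∈ s.vs g, (-1 * (p u).1 + -1 * (p u).2 + 1) :=
      mul_nonneg (by positivity) (Finset.sum_nonneg fun u _ => by
        have := SchP.in_tri hd u
        linarith)
    linarith

/-! ### areas -/

variable {om : V → V → ℝ} {p : V → ℝ × ℝ} {lo hi A : ℝ}

theorem sm (hd : s.Drw om p lo hi A) (x y : V) : Sm (p x - p y) :=
  sm_sub (SchP.in_tri hd x) (SchP.in_tri hd y)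

theorem tri_area (hd : s.Drw om p lo hi A) {k : Fin 3} {g : F} {x y z : V} (hx : s.L k g x)
    (hy : s.L (k + 1) g y) (hz : s.L (k + 2) g z) : A ≤ ar (p x) (p y) (p z) := by
  have h3 : ∀ k : Fin 3, k = 0 ∨ k = 1 ∨ k = 2 := by decide
  rcases h3 k with rfl | rfl | rfl
  · have e1 : (0 : Fin 3) + 1 = 1 := by decide
    have e2 : (0 : Fin 3) + 2 = 2 := by decide
    rw [e1] at hy
    rw [e2] at hz
    have := hd.area g ![x, y, z] (by
      intro j
      rcases h3 j with rfl | rfl | rfl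
      · exact hx
      · exact hy
      · exact hz)
    exact this
  · have e1 : (1 : Fin 3) + 1 = 2 := by decide
    have e2 : (1 : Fin 3) + 2 = 0 := by decide
    rw [e1] at hy
    rw [e2] at hz
    have := hd.area g ![z, x, y] (by
      intro j
      rcases h3 j with rfl | rfl | rfl
      · exact hz
      · exact hx
      · exact hy)
    rw [← ar_rot]
    rw [← ar_rot]
    exact this
  · have e1 : (2 : Fin 3) + 1 = 0 := by decide
    have e2 : (2 : Fin 3) + 2 = 1 := by decide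
    rw [e1] at hy
    rw [e2] at hz
    have := hd.area g ![y, z, x] (by
      intro j
      rcases h3 j with rfl | rfl | rfl
      · exact hy
      · exact hz
      · exact hx)
    rw [← ar_rot]
    exact this

theorem side_nn0 (hd : s.Drw om p lo hi A) {g : F} {v u : V} (hv : s.Inc v g) (hu : s.Inc u g) :
    0 ≤ ar (p v) (p (s.nx g v)) (p u) := by
  by_cases h1 : u = v
  · rw [h1]
    exact le_of_eq (by unfold ar; ring)
  · by_cases h2 : u = s.nx g v
    · rw [h2]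
      exact le_of_eq (by unfold ar; ring)
    · exact hd.conv g _ _ _ (ccw_side hv hu h1 h2)

theorem A_le (hd : s.Drw om p lo hi A) (g : F) : A ≤ 2 := by
  have h := tri_area hd (s.tL 0 g) (s.tL (0 + 1) g) (s.tL (0 + 2) g)
  rw [ar_cr] at h
  exact h.trans (abs_le.mp ((sm hd _ _).cr_le (sm hd _ _))).2

/-- (6.1) the edges are long -/
theorem edge_len (hd : s.Drw om p lo hi A) {g : F} {v : V} (hv : s.Inc v g) :
    A ^ 2 / 2 ≤ dp (p (s.nx g v) - p v) (p (s.nx g v) - p v) := by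
  obtain ⟨k, hk⟩ := hv
  have hA := hd.A_pos.le
  rcases s.edge hk with ⟨h1, -⟩ | ⟨h1, h2, h3, h4, h5⟩
  · have h := tri_area hd hk h1 (s.tL (k + 2) g)
    rw [ar_cr] at h
    exact long_of_cr hA (sm hd _ _) h
  · have e1 : s.nx g v = s.out (k + 1) v := by
      have := s.nL (k + 1) v h2
      rw [← h4] at this
      exact this
    have e2 : ∀ k : Fin 3, k ≠ k + 1 := by decide
    rcases s.lLR (k + 1) v h2 with h6 | h6
    · rw [← h4, ← e1] at h6
      exact absurd (s.Luniq h1 h6) (e2 k)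
    · have h7 := s.lR (k + 1) v h2
      have h := tri_area hd h6 h7 (s.tL (k + 1 + 2) (s.gR (k + 1) v))
      rw [ar_cr, ← e1] at h
      have h8 := long_of_cr hA (sm hd _ _) h
      have h9 : dp (p v - p (s.nx g v)) (p v - p (s.nx g v)) =
          dp (p (s.nx g v) - p v) (p (s.nx g v) - p v) := by
        simp only [dp, Prod.fst_sub, Prod.snd_sub]
        ring
      rw [h9] at h8
      exact h8

/-- (6.2) -/
theorem side_far (hd : s.Drw om p lo hi A) {g : F} {v : V} (hv : s.Inc v g) :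
    ∃ z, s.Inc z g ∧ A ^ 2 / 2 * A / 4 ≤ ar (p v) (p (s.nx g v)) (p z) := by
  have hA := hd.A_pos
  have hA2 := A_le hd g
  have hlen := edge_len hd hv
  obtain ⟨k, hk⟩ := hv
  rcases s.edge hk with ⟨h1, -⟩ | ⟨h1, h2, h3, h4, h5⟩
  · refine ⟨s.t (k + 2) g, ⟨_, s.tL (k + 2) g⟩, ?_⟩
    have h := tri_area hd hk h1 (s.tL (k + 2) g)
    refine le_trans ?_ h
    have h4 : A ^ 2 ≤ 4 := by nlinarith
    nlinarith
  · have h := tri_area hd hk (s.tL (k + 1) g) (s.tL (k + 2) g)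
    rw [ar_cr] at h
    have i1 : s.Inc (s.t (k + 1) g) g := ⟨_, s.tL (k + 1) g⟩
    have i2 : s.Inc (s.t (k + 2) g) g := ⟨_, s.tL (k + 2) g⟩
    have c1 := side_nn0 hd ⟨k, hk⟩ i1
    have c2 := side_nn0 hd ⟨k, hk⟩ i2
    rw [ar_cr] at c1 c2
    rcases far_of_tri (sm hd _ _) (sm hd _ _) (sm hd _ _) hlen (by positivity) h hA.le c1 c2
      with h' | h'
    · refine ⟨_, i1, ?_⟩
      rw [ar_cr]
      exact h'
    · refine ⟨_, i2, ?_⟩
      rw [ar_cr]
      exact h'

theorem avg_far (hd : s.Drw om p lo hi A) {g : F} {v : V} (hv : s.Inc v g) :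
    A ^ 2 / 2 * A / 4 / Fintype.card V ≤ ar (p v) (p (s.nx g v)) (s.avg p g) := by
  obtain ⟨u, hu, h3⟩ := side_far hd hv
  have h4 : A ^ 2 / 2 * A / 4 ≤ ∑ u ∈ s.vs g, ar (p v) (p (s.nx g v)) (p u) := by
    refine h3.trans (Finset.single_le_sum (f := fun u => ar (p v) (p (s.nx g v)) (p u))
      (fun w hw => side_nn0 hd hv (s.mem_vs.1 hw)) (s.mem_vs.2 hu))
  rw [s.avg_ar, div_eq_inv_mul]
  have h5 := s.vs_card_pos g
  have hA := hd.A_pos
  have h6 : ((s.vs g).card : ℝ) ≤ Fintype.card V := by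
    exact_mod_cast Finset.card_le_univ _
  have h7 : (Fintype.card V : ℝ)⁻¹ ≤ ((s.vs g).card : ℝ)⁻¹ := inv_anti₀ h5 h6
  exact mul_le_mul h7 h4 (by positivity) (by positivity)

/-- (6.4) -/
theorem spike_at (hd : s.Drw om p lo hi A) {g : F} {u v w : V} (hu : s.Inc u g)
    (hv : s.nx g u = v) (hw : s.nx g v = w) (h : 0 ≤ dp (p w - p v) (p u - p v)) :
    A ^ 2 / 2 * A / 4 * (A ^ 2 / 2) / 2 ≤ cr (p w - p v) (p u - p v) := by
  have hA := hd.A_pos
  have hvg : s.Inc v g := by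
    rw [← hv]
    exact s.inc_nx hu
  obtain ⟨z, hz, hzz⟩ := side_far hd hvg
  rw [hw, ar_cr] at hzz
  have hl : A ^ 2 / 2 ≤ dp (p u - p v) (p u - p v) := by
    have h1 := edge_len hd hu
    rw [hv] at h1
    have h9 : dp (p u - p v) (p u - p v) = dp (p v - p u) (p v - p u) := by
      simp only [dp, Prod.fst_sub, Prod.snd_sub]
      ring
    rw [h9]
    exact h1
  refine spike (sm hd _ _) (sm hd z v) hl (by positivity) (by positivity) hzz ?_ ?_ h
  · have h1 := side_nn0 hd hu hz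
    rw [hv] at h1
    have h2 : cr (p z - p v) (p u - p v) = ar (p u) (p v) (p z) := by
      simp only [cr, ar, Prod.fst_sub, Prod.snd_sub]
      ring
    rw [h2]
    exact h1
  · have h1 := side_nn0 hd hvg hu
    rw [hw, ar_cr] at h1
    exact h1

end Pool.RP.PG
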