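import Pool.Agent.Lib.MP_9dcace_rp.RDefs
import Pool.Agent.Lib.MP_9dcace_sx.TDefs

/-!
Frozen definitions, part 3 : the drawing, its margins and the lifting (sections 5 (R0), 6 and 7 of
m3_REAL_h83.md). `ar`, `lin` : from `MP_9dcace_sx.TDefs`.
-/

set_option autoImplicit false

open Classical

namespace Pool.RP

open Pool.SX

namespace SchP

variable {V F : Type} [Fintype V] [Fintype F] (s : SchP V F)

/-- `u, v, w` are three different vertices of the face `g` in counterclockwise order -/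
def Ccw (g : F) (u v w : V) : Prop :=
  s.Inc u g ∧ ∃ i j : ℕ, 0 < i ∧ i < j ∧ v = (s.nx g)^[i] u ∧ w = (s.nx g)^[j] u ∧
    ∀ m, 0 < m → m ≤ j → (s.nx g)^[m] u ≠ u

/-- result (R0): an equilibrium drawing with weakly convex faces in the standard triangle.
`om u v` is the weight of the edge `u v` (0 if there is no such edge). -/
structure Drw (om : V → V → ℝ) (p : V → ℝ × ℝ) (lo hi A : ℝ) : Prop where
  lo_pos : 0 < lo
  A_pos : 0 < A
  symm : ∀ u v, om u v = om v u
  nn : ∀ u v, 0 ≤ om u v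
  /-- only the inner edges of the map have weights -/
  supp : ∀ u v, om u v ≠ 0 → ∃ c, (s.inn u ∧ v = s.out c u) ∨ (s.inn v ∧ u = s.out c v)
  wlo : ∀ c v, s.inn v → lo ≤ om v (s.out c v)
  whi : ∀ u v, om u v ≤ hi
  p0 : p (s.a 0) = (1, 0)
  p1 : p (s.a 1) = (0, 1)
  p2 : p (s.a 2) = (0, 0)
  equi : ∀ u, s.inn u → ∑ v, om u v • (p v - p u) = 0
  area : ∀ g q, s.Tp g q → A ≤ ar (p (q 0)) (p (q 1)) (p (q 2))
  conv : ∀ g u v w, s.Ccw g u v w → 0 ≤ ar (p u) (p v) (p w)

/-- the drawing with strictly convex faces, with margin `B` (result of section 6) -/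
structure DrwS (om : V → V → ℝ) (p : V → ℝ × ℝ) (lo hi A B : ℝ) : Prop
    extends s.Drw om p lo hi A where
  B_pos : 0 < B
  side : ∀ g v u, s.Inc v g → s.Inc u g → u ≠ v → u ≠ s.nx g v →
    B ≤ ar (p v) (p (s.nx g v)) (p u)

/-- `q, b` are the gradients and constants of a piecewise linear function over the drawing whose
crease at the edge `u → v` (left face minus right face) is `om u v` -/
def Crs (om : V → V → ℝ) (p : V → ℝ × ℝ) (q : F → ℝ × ℝ) (b : F → ℝ) : Prop :=
  ∀ (g h : F) (v : V), s.Inc v g → s.Inc (s.nx g v) h → s.nx h (s.nx g v) = v →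
    ∀ x : ℝ × ℝ, lin (q g) (b g) x - lin (q h) (b h) x = om v (s.nx g v) * ar (p v) (p (s.nx g v)) x

/-- the average of the vertices of the face `g` -/
noncomputable def avg (p : V → ℝ × ℝ) (g : F) : ℝ × ℝ :=
  ((Finset.univ.filter (fun v => s.Inc v g)).card : ℝ)⁻¹ •
    ∑ v ∈ Finset.univ.filter (fun v => s.Inc v g), p v

end SchP

end Pool.RP
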