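import Pool.Agent.Lib.MP_9dcace_sx.C8
import Pool.Agent.Lib.MP_9dcace_sx.C9
set_option autoImplicit false

/-! Row P1 (helper94). Removal of one vertex from a good state, without a contour list: the only
thing needed is that the vertex does not lie on a contour triangle other than the base one. -/

namespace Pool.SX
open Relation
variable {V : Type} [Fintype V] (S : Sph V) {a0 a1 a2 : V} {W : Finset V}

omit [Fintype V] in
private theorem P1_notMem [DecidableEq V] {x w : V} (h : w ∉ W.erase x) :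
    w = x ∨ w ∉ W := by
  by_cases h1 : w = x
  · exact Or.inl h1
  · exact Or.inr fun h2 => h (Finset.mem_erase.2 ⟨h1, h2⟩)

private theorem P1_aux (hG : S.Good a0 a1 a2 W) {x : V} (hx : S.Remov W x)
    (h3 : ∀ y y' : V, S.Nxt W x y' → S.Nxt W y' y → S.Nxt W y x → y = a0 ∧ y' = a1)
    {y y' w' : V} (hy : y ∈ W) (hy' : y' ∈ W)
    (hyx : y ≠ x) (hw' : w' ∉ W) (h : S.T y y' x) (h' : S.T y' y w') :
    y = a0 ∧ y' = a1 := by
  have hn : S.Nxt W y' y := ⟨hy', hy, w', hw', h'⟩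
  have hadj := S.adj_of_T h
  have ha : S.Adj x y := S.adj_symm hadj.2.1
  have ha' : S.Adj x y' := S.adj_symm hadj.2.2
  have h1 : S.Nxt W x y' := by
    rcases hx.2 y' (S.nxt_cont hn).1 ha' with h1 | h1
    · exact h1
    · exact absurd (hG.nxt_uniq S hn h1) hyx
  have h2 : S.Nxt W y x := by
    rcases hx.2 y (S.nxt_cont hn).2.1 ha with h2 | h2
    · exact absurd (hG.nxt_uniq S h2 h1) (S.ne3 h).1
    · exact h2
  exact h3 y y' h1 hn h2

/-- removal of a removable vertex -/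
theorem Sph.Good.erase [DecidableEq V] (hG : S.Good a0 a1 a2 W) (hf : S.T a1 a0 a2) {x : V}
    (hx : S.Remov W x) (hx0 : x ≠ a0) (hx1 : x ≠ a1)
    (h3 : ∀ y y' : V, S.Nxt W x y' → S.Nxt W y' y → S.Nxt W y x → y = a0 ∧ y' = a1) :
    S.Good a0 a1 a2 (W.erase x) where
  m0 := Finset.mem_erase.mpr ⟨hx0.symm, hG.m0⟩
  m1 := Finset.mem_erase.mpr ⟨hx1.symm, hG.m1⟩
  m2 := fun h => hG.m2 (Finset.mem_of_mem_erase h)
  i1 := hG.erase_i1 S hx
  i2 := by
    intro y hy y' hy' w w' hw hw' h h'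
    rw [Finset.mem_erase] at hy hy'
    rcases P1_notMem hw with h1 | h1 <;> rcases P1_notMem hw' with h2 | h2
    · rw [h1] at h
      rw [h2] at h'
      exact absurd h' (S.no_rev h)
    · rw [h1] at h
      exact Or.inl (P1_aux S hG hx h3 hy.2 hy'.2 hy.1 h2 h h')
    · rw [h2] at h'
      have h4 := P1_aux S hG hx h3 hy'.2 hy.2 hy'.1 h1 h' h
      exact Or.inr ⟨h4.2, h4.1⟩
    · exact hG.i2 y hy.2 y' hy'.2 w w' h1 h2 h h'
  i3 := hG.erase_i3 S hf hx.1
  i5 := hG.erase_i5 S hx.1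

end Pool.SX
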