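import Pool.Agent.Lib.MP_9dcace_rp.Base
import Pool.Agent.Lib.MP_9dcace_rp.P1
set_option autoImplicit false

/-! Row P2 (helper94). Incidences of the stellated sphere: next and previous vertex, other side of an
edge, three vertices are never in two facets. All names start with `o_`. -/

namespace Pool.RP
open Pool.SX Relation

namespace StP
variable {V A : Type} [Fintype V] [Fintype A] (P : StP V A)

theorem o_ne {u v : V} {f : A} (h : P.T u v f) : u ≠ v := by
  intro e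
  exact P.S.ne h (by rw [e])

theorem o_adj_cc (f g : A) : ¬ P.S.Adj (Sum.inr f) (Sum.inr g) := by
  rintro ⟨z, hz⟩
  exact P.ff f g z hz

theorem o_inc_iff {v : V} {f : A} : P.inc v f ↔ P.S.Adj (Sum.inl v) (Sum.inr f) := by
  constructor
  · rintro ⟨w, hw⟩
    exact (P.S.adj_of_T hw).2.1
  · intro h
    obtain ⟨z, hz⟩ := P.S.adj_symm h
    rcases z with u | g
    · exact ⟨u, P.S.rot hz⟩
    · exact absurd (P.S.adj_of_T hz).2.1 (P.o_adj_cc f g)

theorem o_pv {v : V} {f : A} (h : P.inc v f) : ∃ u : V, P.T u v f := by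
  obtain ⟨z, hz⟩ := P.o_inc_iff.mp h
  rcases z with u | g
  · exact ⟨u, P.S.rot2 hz⟩
  · exact absurd (P.S.adj_of_T hz).2.2 (P.o_adj_cc f g)

theorem o_inc {u v : V} {f : A} (h : P.T u v f) : P.inc u f ∧ P.inc v f :=
  ⟨⟨v, h⟩, P.o_inc_iff.mpr (P.S.adj_of_T h).2.2⟩

theorem o_nxu {v w w' : V} {f : A} (h : P.T v w f) (h' : P.T v w' f) : w = w' := by
  have := P.S.uniq (P.S.rot2 h) (P.S.rot2 h')
  exact Sum.inl_injective this

theorem o_pvu {v w w' : V} {f : A} (h : P.T w v f) (h' : P.T w' v f) : w = w' := by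
  have := P.S.uniq (P.S.rot h) (P.S.rot h')
  exact Sum.inl_injective this

theorem o_side {u v : V} {f g : A} (h : P.T u v f) (h' : P.T u v g) : f = g := by
  have := P.S.uniq h h'
  exact Sum.inr_injective this

theorem o_rev {u v : V} {f : A} (h : P.T u v f) : ¬ P.T v u f := P.S.no_rev h

theorem o_outer (k : Fin 3) :
    P.S.T (Sum.inl (P.a (k + 1))) (Sum.inl (P.a k)) (Sum.inl (P.a (k + 2))) := by
  have h := P.out
  fin_cases k
  · exact h
  · exact P.S.rot2 h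
  · exact P.S.rot h

theorem o_vvv {u v w : V} (h : P.S.T (Sum.inl u) (Sum.inl v) (Sum.inl w)) :
    ∃ k : Fin 3, u = P.a (k + 1) ∧ v = P.a k ∧ w = P.a (k + 2) := by
  rcases P.vvv u v w h with ⟨h1, h2, h3⟩ | ⟨h1, h2, h3⟩ | ⟨h1, h2, h3⟩
  · exact ⟨0, h1, h2, h3⟩
  · exact ⟨2, h1, h2, h3⟩
  · exact ⟨1, h1, h2, h3⟩

/-- the other side of an edge is a facet or the outer facet -/
theorem o_other {u v : V} {f : A} (h : P.T u v f) :
    (∃ g : A, P.T v u g) ∨ ∃ k : Fin 3, u = P.a k ∧ v = P.a (k + 1) := by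
  obtain ⟨z, _, hz⟩ := P.S.opp h
  rcases z with w | g
  · obtain ⟨k, h1, h2, _⟩ := P.o_vvv hz
    exact Or.inr ⟨k, h2, h1⟩
  · exact Or.inl ⟨g, hz⟩

theorem o_ane {j k : Fin 3} (h : j ≠ k) : P.a j ≠ P.a k := fun e => h (P.a_inj e)

/-- neighbours among vertices -/
theorem o_adj_iff {u v : V} : P.S.Adj (Sum.inl u) (Sum.inl v) ↔
    (∃ f, P.T u v f) ∨ ∃ k : Fin 3, u = P.a (k + 1) ∧ v = P.a k := by
  constructor
  · rintro ⟨z, hz⟩
    rcases z with w | g
    · obtain ⟨k, h1, h2, _⟩ := P.o_vvv hz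
      exact Or.inr ⟨k, h1, h2⟩
    · exact Or.inl ⟨g, hz⟩
  · rintro (⟨f, hf⟩ | ⟨k, rfl, rfl⟩)
    · exact ⟨_, hf⟩
    · exact ⟨_, P.o_outer k⟩

/-- at least three vertices -/
theorem o_np {u v w : V} {f : A} (h : P.T u v f) (h' : P.T v w f) : u ≠ w := by
  intro e
  rw [e] at h
  exact P.o_rev h h'

/-- (E) in terms of incidences -/
theorem o_E {f g : A} {u v : V} (hfg : f ≠ g) (huv : u ≠ v) (h1 : P.inc u f) (h2 : P.inc v f)
    (h3 : P.inc u g) (h4 : P.inc v g) :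
    (P.T u v f ∧ P.T v u g) ∨ (P.T u v g ∧ P.T v u f) := by
  obtain ⟨u1, h1⟩ := h1
  obtain ⟨v1, h2⟩ := h2
  obtain ⟨u2, h3⟩ := h3
  obtain ⟨v2, h4⟩ := h4
  exact P.two f g u v u1 v1 u2 v2 hfg huv h1 h2 h3 h4

theorem o_Eo {f : A} {k : Fin 3} (h1 : P.inc (P.a k) f) (h2 : P.inc (P.a (k + 1)) f) :
    P.T (P.a k) (P.a (k + 1)) f := by
  obtain ⟨u1, h1⟩ := h1
  obtain ⟨v1, h2⟩ := h2
  exact P.twoo f k u1 v1 h1 h2

/-- the link of `v` when two facets are consecutive twice -/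
private theorem P2_two {u v w : V} {f g : A} (h1 : P.T u v f) (h2 : P.T v w f)
    (h3 : P.T w v g) (h4 : P.T v u g) : ∀ z : V ⊕ A, P.S.Adj (Sum.inl v) z →
      z = Sum.inl w ∨ z = Sum.inr f ∨ z = Sum.inl u ∨ z = Sum.inr g := by
  intro z hz
  have hw : P.S.Adj (Sum.inl v) (Sum.inl w) := ⟨_, h2⟩
  have hl := P.S.link_adj hw hz
  clear hz
  induction hl with
  | refl => exact Or.inl rfl
  | @tail x y _ hxy ih =>
    rcases ih with rfl | rfl | rfl | rfl
    · exact Or.inr (Or.inl (P.S.uniq hxy h2))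
    · exact Or.inr (Or.inr (Or.inl (P.S.uniq hxy (P.S.rot h1))))
    · exact Or.inr (Or.inr (Or.inr (P.S.uniq hxy h4)))
    · exact Or.inl (P.S.uniq hxy (P.S.rot h3))

theorem o_two {u v w : V} {f g : A} (h1 : P.T u v f) (h2 : P.T v w f)
    (h3 : P.T w v g) (h4 : P.T v u g) : False := by
  have key := P.P2_two h1 h2 h3 h4
  have hfg : ∀ h : A, P.inc v h → h = f ∨ h = g := by
    intro h hh
    rcases key _ (P.o_inc_iff.mp hh) with e | e | e | e
    · exact absurd e (by simp)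
    · exact Or.inl (Sum.inr_injective e)
    · exact absurd e (by simp)
    · exact Or.inr (Sum.inr_injective e)
  by_cases hv : ∀ k, v ≠ P.a k
  · obtain ⟨h, w, hf, hg, hh⟩ := P.deg v hv f g
    rcases hfg h ⟨w, hh⟩ with e | e
    · exact hf e
    · exact hg e
  · push Not at hv
    obtain ⟨k, rfl⟩ := hv
    have hT := P.S.rot (P.o_outer k)
    have ha : P.S.Adj (Sum.inl (P.a k)) (Sum.inl (P.a (k + 2))) := ⟨_, hT⟩
    have e1 : ∀ x : V, P.S.Adj (Sum.inl (P.a k)) (Sum.inl x) → x = w ∨ x = u := by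
      intro x hx
      rcases key _ hx with e | e | e | e
      · exact Or.inl (Sum.inl_injective e)
      · exact absurd e (by simp)
      · exact Or.inr (Sum.inl_injective e)
      · exact absurd e (by simp)
    rcases e1 _ ha with e | e
    · rw [e] at hT
      have := P.S.uniq hT h2
      exact absurd this (by simp)
    · rw [e] at hT
      have := P.S.uniq hT h4
      exact absurd this (by simp)

/-- three vertices are never in two facets -/
theorem o_three {u v w : V} {f g : A} (hfg : f ≠ g) (huv : u ≠ v) (hvw : v ≠ w) (huw : u ≠ w)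
    (h1 : P.inc u f) (h2 : P.inc v f) (h3 : P.inc w f) (h4 : P.inc u g) (h5 : P.inc v g)
    (h6 : P.inc w g) : False := by
  rcases P.o_E hfg huv h1 h2 h4 h5 with ⟨a1, a2⟩ | ⟨a2, a1⟩ <;>
    rcases P.o_E hfg hvw h2 h3 h5 h6 with ⟨b1, b2⟩ | ⟨b2, b1⟩
  · exact P.o_two a1 b1 b2 a2
  · exact huw (P.o_pvu a1 b1)
  · exact huw (P.o_nxu a1 b1)
  · exact P.o_two b1 a1 a2 b2

/-- three vertices of the outer facet are not in another facet -/
theorem o_threeo {f : A} (h : ∀ k, P.inc (P.a k) f) : False := by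
  have h0 := P.o_Eo (h 0) (h (0 + 1))
  have h1 := P.o_Eo (h 1) (h (1 + 1))
  have h0' : P.T (P.a 0) (P.a 1) f := h0
  have h1' : P.T (P.a 1) (P.a 2) f := h1
  have ho : P.S.T (Sum.inl (P.a 1)) (Sum.inl (P.a 0)) (Sum.inl (P.a 2)) := P.out
  have key : ∀ z : V ⊕ A, P.S.Adj (Sum.inl (P.a 1)) z →
      z = Sum.inl (P.a 2) ∨ z = Sum.inr f ∨ z = Sum.inl (P.a 0) := by
    intro z hz
    have hw : P.S.Adj (Sum.inl (P.a 1)) (Sum.inl (P.a 2)) := ⟨_, h1'⟩
    have hl := P.S.link_adj hw hz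
    clear hz
    induction hl with
    | refl => exact Or.inl rfl
    | @tail x y _ hxy ih =>
      rcases ih with rfl | rfl | rfl
      · exact Or.inr (Or.inl (P.S.uniq hxy h1'))
      · exact Or.inr (Or.inr (P.S.uniq hxy (P.S.rot h0')))
      · exact Or.inl (P.S.uniq hxy ho)
  obtain ⟨g, w, hgf, hg⟩ := P.dego 1 f
  rcases key _ (P.o_inc_iff.mp ⟨w, hg⟩) with e | e | e
  · exact absurd e (by simp)
  · exact hgf (Sum.inr_injective e)
  · exact absurd e (by simp)

/-- the facet on the left of `a k → a (k+1)` -/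
theorem o_base (k : Fin 3) : ∃ b : A, P.T (P.a k) (P.a (k + 1)) b := by
  obtain ⟨z, hne, hz⟩ := P.S.opp (P.o_outer k)
  rcases z with w | g
  · obtain ⟨j, h1, h2, h3⟩ := P.o_vvv hz
    exfalso
    have e1 := P.a_inj h1
    have e2 := P.a_inj h2
    rw [e1] at e2
    have h3 : ∀ j : Fin 3, j + 1 + 1 ≠ j := by decide
    exact h3 j e2
  · exact ⟨g, hz⟩

/-- every vertex lies on a facet -/
theorem o_cov (v : V) : ∃ f, P.inc v f := by
  obtain ⟨f, _⟩ := P.o_base 0
  by_cases hv : ∀ k, v ≠ P.a k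
  · obtain ⟨h, w, _, _, hh⟩ := P.deg v hv f f
    exact ⟨h, w, hh⟩
  · push Not at hv
    obtain ⟨k, rfl⟩ := hv
    obtain ⟨h, w, _, hh⟩ := P.dego k f
    exact ⟨h, w, hh⟩

/-- the facet is one of the two sides of any edge of it: `x` and `w` in `g` and adjacent -/
theorem o_edge_in {x w : V} {g : A} (hx : P.inc x g) (hw : P.inc w g)
    (h : P.S.Adj (Sum.inl x) (Sum.inl w)) : P.T x w g ∨ P.T w x g := by
  have hne : x ≠ w := by
    intro e
    rw [e] at h
    obtain ⟨z, hz⟩ := h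
    exact P.S.ne hz rfl
  rcases P.o_adj_iff.mp h with ⟨f, hf⟩ | ⟨k, rfl, rfl⟩
  · by_cases hfg : f = g
    · rw [hfg] at hf
      exact Or.inl hf
    · obtain ⟨i1, i2⟩ := P.o_inc hf
      rcases P.o_E hfg hne i1 i2 hx hw with ⟨_, h2⟩ | ⟨h1, _⟩
      · exact Or.inr h2
      · exact Or.inl h1
  · exact Or.inr (P.o_Eo hw hx)

end StP
end Pool.RP
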