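import Pool.Agent.Lib.MP_9dcace_rp.P2
import Pool.Agent.Lib.MP_9dcace_sx.C3
set_option autoImplicit false

/-! Row P3 (helper94). States of the order of section 1: a set `W` of vertices together with the
centres of the facets inside `W`; steps; the contour. -/

open Classical

namespace Pool.RP
open Pool.SX Relation

namespace StP
variable {V A : Type} [Fintype V] [Fintype A] (P : StP V A)

/-- the facet `f` is inside `W` -/
def Pin (W : Finset V) (f : A) : Prop := ∀ v, P.inc v f → v ∈ W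

/-- the elements of the state of `W` -/
def inSt (W : Finset V) : V ⊕ A → Prop
  | Sum.inl v => v ∈ W
  | Sum.inr f => P.Pin W f

/-- the state of `W` -/
noncomputable def st (W : Finset V) : Finset (V ⊕ A) := Finset.univ.filter (P.inSt W)

/-- the state of `W` is good -/
def Gd (W : Finset V) : Prop :=
  P.S.Good (Sum.inl (P.a 0)) (Sum.inl (P.a 1)) (Sum.inl (P.a 2)) (P.st W)

/-- (S1) one vertex is removed -/
def StepX (W : Finset V) (x : V) : Prop :=
  P.S.Remov (P.st W) (Sum.inl x) ∧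
    ∃ f g, f ≠ g ∧ P.inc x f ∧ P.inc x g ∧ P.Pin W f ∧ P.Pin W g

/-- (S2) a chain of vertices is removed, `g` is the only facet inside `W` at each of them -/
structure StepC (W Z : Finset V) (g : A) : Prop where
  pin : P.Pin W g
  only : ∀ z ∈ Z, P.inc z g ∧ ∀ f, P.inc z f → P.Pin W f → f = g
  exit : ∀ z ∈ Z, ∀ z' ∈ Z, ∀ y y' : V, P.T z y g → P.T z' y' g → y ∉ Z → y' ∉ Z → z = z'
  entry : ∀ z ∈ Z, ∀ z' ∈ Z, ∀ y y' : V, P.T y z g → P.T y' z' g → y ∉ Z → y' ∉ Z → z = z'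
  two : ∀ u : V, ∃ u' : V, u' ≠ u ∧ P.inc u' g ∧ u' ∉ Z

/-- a step -/
structure Step (W Z : Finset V) : Prop where
  ne : Z.Nonempty
  sub : Z ⊆ W
  n0 : P.a 0 ∉ Z
  n1 : P.a 1 ∉ Z
  /-- removed vertices have a neighbour outside -/
  up : ∀ z ∈ Z, ∃ u : V, u ∉ W ∧ P.S.Adj (Sum.inl z) (Sum.inl u)
  kind : (∃ x, Z = {x} ∧ P.StepX W x) ∨ ∃ g, P.StepC W Z g

theorem st_inl {W : Finset V} {v : V} : (Sum.inl v : V ⊕ A) ∈ P.st W ↔ v ∈ W := by
  unfold st
  rw [Finset.mem_filter]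
  exact ⟨fun h => h.2, fun h => ⟨Finset.mem_univ _, h⟩⟩

theorem st_inr {W : Finset V} {f : A} : (Sum.inr f : V ⊕ A) ∈ P.st W ↔ P.Pin W f := by
  unfold st
  rw [Finset.mem_filter]
  exact ⟨fun h => h.2, fun h => ⟨Finset.mem_univ _, h⟩⟩

theorem Pin_mono {W W' : Finset V} (h : W ⊆ W') {f : A} (hf : P.Pin W f) : P.Pin W' f :=
  fun v hv => h (hf v hv)

/-- contour elements are vertices -/
theorem cont_inl {W : Finset V} {z : V ⊕ A} (h : P.S.Cont (P.st W) z) : ∃ v, z = Sum.inl v := by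
  rcases z with v | f
  · exact ⟨v, rfl⟩
  · exfalso
    obtain ⟨h1, u, hu, hadj⟩ := h
    rcases u with w | g
    · apply hu
      exact P.st_inl.mpr (P.st_inr.mp h1 w (P.o_inc_iff.mpr (P.S.adj_symm hadj)))
    · exact P.o_adj_cc f g hadj

theorem not_cont_inr {W : Finset V} {f : A} : ¬ P.S.Cont (P.st W) (Sum.inr f) := by
  intro h
  obtain ⟨v, hv⟩ := P.cont_inl h
  exact absurd hv (by simp)

/-- a vertex of `W` on a facet which is not inside is a contour vertex -/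
theorem cont_of_out {W : Finset V} {v : V} {f : A} (hv : v ∈ W) (hf : P.inc v f)
    (hn : ¬ P.Pin W f) : P.S.Cont (P.st W) (Sum.inl v) :=
  ⟨P.st_inl.mpr hv, Sum.inr f, fun h => hn (P.st_inr.mp h), P.o_inc_iff.mp hf⟩

variable {W : Finset V}

theorem Gd_a2 (hG : P.Gd W) : P.a 2 ∉ W := fun h => hG.m2 (P.st_inl.mpr h)

theorem Gd_a0 (hG : P.Gd W) : P.a 0 ∈ W := P.st_inl.mp hG.m0

theorem Gd_a1 (hG : P.Gd W) : P.a 1 ∈ W := P.st_inl.mp hG.m1

theorem nxt_mk {u v : V} {f : A} (hu : u ∈ W) (hv : v ∈ W) (h : P.T u v f) (hf : ¬ P.Pin W f) :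
    P.S.Nxt (P.st W) (Sum.inl u) (Sum.inl v) :=
  ⟨P.st_inl.mpr hu, P.st_inl.mpr hv, Sum.inr f, fun hh => hf (P.st_inr.mp hh), h⟩

theorem nxt_iff (hG : P.Gd W) {u v : V} : P.S.Nxt (P.st W) (Sum.inl u) (Sum.inl v) ↔
    u ∈ W ∧ v ∈ W ∧ ((∃ f, P.T u v f ∧ ¬ P.Pin W f) ∨ (u = P.a 1 ∧ v = P.a 0)) := by
  constructor
  · rintro ⟨h1, h2, w, hw, hT⟩
    refine ⟨P.st_inl.mp h1, P.st_inl.mp h2, ?_⟩
    rcases w with w | f
    · right
      have ha2 := P.Gd_a2 hG
      rcases P.vvv u v w hT with ⟨e1, e2, e3⟩ | ⟨e1, e2, e3⟩ | ⟨e1, e2, e3⟩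
      · exact ⟨e1, e2⟩
      · exact absurd (P.st_inl.mp h2) (by rw [e2]; exact ha2)
      · exact absurd (P.st_inl.mp h1) (by rw [e1]; exact ha2)
    · exact Or.inl ⟨f, hT, fun hh => hw (P.st_inr.mpr hh)⟩
  · rintro ⟨h1, h2, ⟨f, hf, hn⟩ | ⟨rfl, rfl⟩⟩
    · exact P.nxt_mk h1 h2 hf hn
    · exact hG.nxt_a1 P.S P.out

/-- both facets of an edge inside `W`, other than the base edge, are not both outside -/
theorem Gd_i2 (hG : P.Gd W) {u v : V} {f g : A} (hu : u ∈ W) (hv : v ∈ W) (h1 : P.T u v f)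
    (h2 : P.T v u g) (hf : ¬ P.Pin W f) (hg : ¬ P.Pin W g) :
    (u = P.a 0 ∧ v = P.a 1) ∨ (u = P.a 1 ∧ v = P.a 0) := by
  have := hG.i2 _ (P.st_inl.mpr hu) _ (P.st_inl.mpr hv) (Sum.inr f) (Sum.inr g)
    (fun hh => hf (P.st_inr.mp hh)) (fun hh => hg (P.st_inr.mp hh)) h1 h2
  rcases this with ⟨h3, h4⟩ | ⟨h3, h4⟩
  · exact Or.inl ⟨Sum.inl_injective h3, Sum.inl_injective h4⟩
  · exact Or.inr ⟨Sum.inl_injective h3, Sum.inl_injective h4⟩

/-- The contour from `a 0` to `a 1`. -/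
structure Ctr (W : Finset V) (m : ℕ) (c : ℕ → V) : Prop where
  c0 : c 0 = P.a 0
  cm : c m = P.a 1
  nxt : ∀ k, k < m → P.S.Nxt (P.st W) (Sum.inl (c k)) (Sum.inl (c (k + 1)))
  inj : ∀ i j, i ≤ m → j ≤ m → c i = c j → i = j
  m2 : 2 ≤ m

theorem ex_Ctr (hG : P.Gd W) (hW : ∃ x ∈ W, x ≠ P.a 0 ∧ x ≠ P.a 1) : ∃ m c, P.Ctr W m c := by
  obtain ⟨m, c, hm, hc0, hcm, hnxt, hinj⟩ := hG.contour P.S P.out
  have hcont : ∀ k, k ≤ m → P.S.Cont (P.st W) (c k) := by
    intro k hk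
    rcases Nat.lt_or_ge k m with h | h
    · exact (P.S.nxt_cont (hnxt k h)).1
    · have e : k = m := le_antisymm hk h
      have h1 := (P.S.nxt_cont (hnxt (m - 1) (by omega))).2.1
      rw [e]
      have e2 : m - 1 + 1 = m := by omega
      rw [e2] at h1
      exact h1
  have hc : ∀ k, k ≤ m → c k = Sum.inl (Sum.elim id (fun _ => P.a 0) (c k)) := by
    intro k hk
    obtain ⟨v, hv⟩ := P.cont_inl (hcont k hk)
    rw [hv]
    rfl
  refine ⟨m, fun k => Sum.elim id (fun _ => P.a 0) (c k), ?_, ?_, ?_, ?_, ?_⟩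
  · show Sum.elim id (fun _ => P.a 0) (c 0) = P.a 0
    rw [hc0]
    rfl
  · show Sum.elim id (fun _ => P.a 0) (c m) = P.a 1
    rw [hcm]
    rfl
  · intro k hk
    rw [← hc k hk.le, ← hc (k + 1) hk]
    exact hnxt k hk
  · intro i j hi hj hij
    apply hinj i j hi hj
    rw [hc i hi, hc j hj]
    exact congrArg Sum.inl hij
  · by_contra hlt
    have hm1 : m = 1 := by omega
    obtain ⟨x, hxW, hx0, hx1⟩ := hW
    have h01 : P.S.Nxt (P.st W) (Sum.inl (P.a 0)) (Sum.inl (P.a 1)) := by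
      have := hnxt 0 (by omega)
      rw [hc0] at this
      have e : c (0 + 1) = Sum.inl (P.a 1) := by
        rw [← hcm, hm1]
      rw [e] at this
      exact this
    rcases hG.contour_two P.S P.out h01 (P.st_inl.mpr hxW) with h | h
    · exact hx0 (Sum.inl_injective h)
    · exact hx1 (Sum.inl_injective h)

namespace Ctr
variable {P} {m : ℕ} {c : ℕ → V}

theorem mem (C : P.Ctr W m c) {k : ℕ} (hk : k ≤ m) : c k ∈ W := by
  rcases Nat.lt_or_ge k m with h | h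
  · exact P.st_inl.mp (C.nxt k h).1
  · have e : k = m := le_antisymm hk h
    have h1 := (C.nxt (m - 1) (by have := C.m2; omega)).2.1
    have e2 : m - 1 + 1 = m := by have := C.m2; omega
    rw [e2] at h1
    rw [e]
    exact P.st_inl.mp h1

theorem cont (C : P.Ctr W m c) {k : ℕ} (hk : k ≤ m) : P.S.Cont (P.st W) (Sum.inl (c k)) := by
  rcases Nat.lt_or_ge k m with h | h
  · exact (P.S.nxt_cont (C.nxt k h)).1
  · have e : k = m := le_antisymm hk h
    have h1 := (P.S.nxt_cont (C.nxt (m - 1) (by have := C.m2; omega))).2.1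
    have e2 : m - 1 + 1 = m := by have := C.m2; omega
    rw [e2] at h1
    rw [e]
    exact h1

theorem ne (C : P.Ctr W m c) {i j : ℕ} (hi : i ≤ m) (hj : j ≤ m) (h : i ≠ j) : c i ≠ c j :=
  fun e => h (C.inj i j hi hj e)

theorem left (C : P.Ctr W m c) (hG : P.Gd W) {k : ℕ} (hk : k < m) :
    ∃ f, P.T (c k) (c (k + 1)) f ∧ ¬ P.Pin W f := by
  rcases ((P.nxt_iff hG).mp (C.nxt k hk)).2.2 with h | ⟨h, _⟩
  · exact h
  · exfalso
    rw [← C.cm] at h
    have := C.inj k m hk.le le_rfl h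
    omega

theorem right (C : P.Ctr W m c) (hG : P.Gd W) {k : ℕ} (hk : k < m) :
    ∃ f, P.T (c (k + 1)) (c k) f ∧ P.Pin W f := by
  obtain ⟨h, hh, hn⟩ := C.left hG hk
  have hm := C.m2
  rcases P.o_other hh with ⟨f, hf⟩ | ⟨j, h1, h2⟩
  · refine ⟨f, hf, ?_⟩
    by_contra hnf
    rcases P.Gd_i2 hG (C.mem hk.le) (C.mem hk) hh hf hn hnf with ⟨h3, h4⟩ | ⟨h3, h4⟩
    · rw [← C.c0] at h3
      rw [← C.cm] at h4
      have e1 := C.inj k 0 hk.le (by omega) h3
      have e2 := C.inj (k + 1) m hk le_rfl h4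
      omega
    · rw [← C.cm] at h3
      have e1 := C.inj k m hk.le le_rfl h3
      omega
  · exfalso
    have ha2 := P.Gd_a2 hG
    have m1 := C.mem hk.le
    have m2 := C.mem (show k + 1 ≤ m from hk)
    rw [h1] at m1
    rw [h2] at m2
    have hj : j = 0 := by
      have h5 : ∀ j : Fin 3, j ≠ 2 → j + 1 ≠ 2 → j = 0 := by decide
      refine h5 j (fun e => ?_) (fun e => ?_)
      · rw [e] at m1
        exact ha2 m1
      · rw [e] at m2
        exact ha2 m2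
    subst hj
    have h2' : c (k + 1) = P.a 1 := h2
    rw [← C.c0] at h1
    rw [← C.cm] at h2'
    have e1 := C.inj k 0 hk.le (by omega) h1
    have e2 := C.inj (k + 1) m hk le_rfl h2'
    omega

/-- the base facet is inside -/
theorem base (C : P.Ctr W m c) (hG : P.Gd W) : ∃ f, P.T (P.a 0) (P.a 1) f ∧ P.Pin W f := by
  obtain ⟨b, hb⟩ := P.o_base 0
  have hb' : P.T (P.a 0) (P.a 1) b := hb
  refine ⟨b, hb', ?_⟩
  by_contra hn
  have h01 := P.nxt_mk (P.Gd_a0 hG) (P.Gd_a1 hG) hb' hn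
  have hm := C.m2
  have h1 := C.mem (show 1 ≤ m by omega)
  rcases hG.contour_two P.S P.out h01 (P.st_inl.mpr h1) with h | h
  · have h' := Sum.inl_injective h
    rw [← C.c0] at h'
    have := C.inj 1 0 (by omega) (by omega) h'
    omega
  · have h' := Sum.inl_injective h
    rw [← C.cm] at h'
    have := C.inj 1 m (by omega) le_rfl h'
    omega

end Ctr

end StP
end Pool.RP
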