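import Pool.Agent.Lib.MP_9dcace_sx.C3
import Pool.Agent.Lib.MP_9dcace_sx.C4b
import Pool.Agent.Lib.MP_9dcace_sx.C5

/-!
Row P3a (planarity (P) of m3_REAL_h83.md, section 1; port of SX row C6).
The closed curve is `c i, p, c j` together with the contour arc from `c i` to `c j`. If a vertex `g`
inside `W` (not on the contour, not `p`) is adjacent to a contour vertex strictly inside the arc, then
every contour vertex adjacent to `g` lies on the arc.
-/

set_option autoImplicit false

namespace Pool.SX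
open Relation
variable {V : Type} [Fintype V] (S : Sph V) {a0 a1 a2 : V} {W : Finset V}

private theorem P3a_step {z : V → V → ZMod 2} {X : V → V → V → ZMod 2}
    (hrot : ∀ u v w : V, X u v w = X v w u)
    (hX : ∀ u v w w' : V, S.T u v w → S.T v u w' → z u v = X u v w + X v u w') {u x x' y : V}
    (h : S.T u x x') (h' : S.T u x' y) : X u x' y = z u x' + X u x x' := by
  have h1 : S.T x' u x := S.rot (S.rot h)
  have h2 := hX u x' y x h' h1
  have h3 : X x' u x = X u x x' := hrot x' u x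
  rw [h3] at h2
  rw [h2, add_assoc, CharTwo.add_self_eq_zero, add_zero]

private theorem P3a_const {z : V → V → ZMod 2} {X : V → V → V → ZMod 2}
    (hrot : ∀ u v w : V, X u v w = X v w u)
    (hX : ∀ u v w w' : V, S.T u v w → S.T v u w' → z u v = X u v w + X v u w') {u : V}
    (hz : ∀ v, z u v = 0) {v w v' w' : V} (h : S.T u v w) (h' : S.T u v' w') :
    X u v' w' = X u v w := by
  have hl := S.link h h'
  have key : ∀ v'' : V, ReflTransGen (fun x y => S.T u x y) v v'' →
      ∀ w'' : V, S.T u v'' w'' → X u v'' w'' = X u v w := by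
    intro v'' hl''
    induction hl'' with
    | refl =>
      intro w'' h''
      rw [S.uniq h'' h]
    | tail hab hbc ih =>
      intro w'' h''
      rw [P3a_step S hrot hX hbc h'', hz, zero_add]
      exact ih _ hbc
  exact key v' hl w' h'

open Classical in
/-- the indicator of the pair `{a, b}` -/
private noncomputable def P3a_e (a b u v : V) : ZMod 2 :=
  (if u = a ∧ v = b then 1 else 0) + (if u = b ∧ v = a then 1 else 0)

open Classical in
omit [Fintype V] in
private theorem P3a_e_symm (a b u v : V) : P3a_e a b u v = P3a_e a b v u := by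
  unfold P3a_e
  rw [add_comm]
  congr 1
  · exact if_congr and_comm rfl rfl
  · exact if_congr and_comm rfl rfl

omit [Fintype V] in
private theorem P3a_e_ne {a b u v : V} (h : P3a_e a b u v ≠ 0) :
    (u = a ∧ v = b) ∨ (u = b ∧ v = a) := by
  by_contra hc
  rw [not_or] at hc
  exact h (by unfold P3a_e; rw [if_neg hc.1, if_neg hc.2, add_zero])

omit [Fintype V] in
private theorem P3a_e_zero {a b u : V} (v : V) (h1 : u ≠ a) (h2 : u ≠ b) : P3a_e a b u v = 0 := by
  unfold P3a_e
  rw [if_neg fun h => h1 h.1, if_neg fun h => h2 h.1, add_zero]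

open Classical in
private theorem P3a_e_sum (a b u : V) :
    ∑ v, P3a_e a b u v = (if u = a then 1 else 0) + (if u = b then 1 else 0) := by
  have h : ∀ x y : V, (∑ v, if u = x ∧ v = y then (1 : ZMod 2) else 0) =
      if u = x then 1 else 0 := by
    intro x y
    by_cases hx : u = x
    · simp only [hx, true_and, if_true]
      rw [Finset.sum_ite_eq' Finset.univ y]
      simp
    · simp only [hx, false_and, if_false, Finset.sum_const_zero]
  unfold P3a_e
  rw [Finset.sum_add_distrib, h, h]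

/-- the closed curve -/
private noncomputable def P3a_z (c : ℕ → V) (p : V) (i j : ℕ) (u v : V) : ZMod 2 :=
  ∑ l ∈ Finset.Ico i j, P3a_e (c l) (c (l + 1)) u v + (P3a_e (c i) p u v + P3a_e p (c j) u v)

omit [Fintype V] in
private theorem P3a_z_symm (c : ℕ → V) (p : V) (i j : ℕ) (u v : V) :
    P3a_z c p i j u v = P3a_z c p i j v u := by
  unfold P3a_z
  rw [P3a_e_symm (c i) p u v, P3a_e_symm p (c j) u v]
  congr 1
  exact Finset.sum_congr rfl fun l _ => P3a_e_symm _ _ _ _

omit [Fintype V] in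
private theorem P3a_z_ne {c : ℕ → V} {p : V} {i j : ℕ} {u v : V} (h : P3a_z c p i j u v ≠ 0) :
    (∃ l, i ≤ l ∧ l < j ∧ ((u = c l ∧ v = c (l + 1)) ∨ (u = c (l + 1) ∧ v = c l))) ∨
      ((u = c i ∧ v = p) ∨ (u = p ∧ v = c i)) ∨ (u = p ∧ v = c j) ∨ (u = c j ∧ v = p) := by
  by_cases h1 : P3a_e (c i) p u v = 0
  · by_cases h2 : P3a_e p (c j) u v = 0
    · left
      unfold P3a_z at h
      rw [h1, h2, add_zero, add_zero] at h
      obtain ⟨l, hl, hl'⟩ := Finset.exists_ne_zero_of_sum_ne_zero h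
      rw [Finset.mem_Ico] at hl
      exact ⟨l, hl.1, hl.2, P3a_e_ne hl'⟩
    · right
      right
      exact P3a_e_ne h2
  · right
    left
    exact P3a_e_ne h1

open Classical in
private theorem P3a_z_sum (c : ℕ → V) (p : V) {i j : ℕ} (hij : i ≤ j) (u : V) :
    ∑ v, P3a_z c p i j u v = 0 := by
  unfold P3a_z
  rw [Finset.sum_add_distrib, Finset.sum_comm, Finset.sum_add_distrib, P3a_e_sum, P3a_e_sum]
  simp only [P3a_e_sum]
  have h1 : ∀ x y z : ZMod 2, x + (y + z + (z + y)) = x := by decide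
  induction j, hij using Nat.le_induction with
  | base =>
    rw [Finset.Ico_self, Finset.sum_empty, h1]
  | succ j hij ih =>
    rw [Finset.sum_Ico_succ_top hij]
    have h2 : ∀ x y z w p : ZMod 2, x + (y + p + (p + z)) = 0 →
        x + (z + w) + (y + p + (p + w)) = 0 := by decide
    exact h2 _ _ _ _ _ ih

omit [Fintype V] in
private theorem P3a_z_zero {c : ℕ → V} {p : V} {i j : ℕ} {u : V}
    (hu : ∀ l, i ≤ l → l ≤ j → u ≠ c l) (hup : u ≠ p) (hij : i ≤ j) (v : V) :
    P3a_z c p i j u v = 0 := by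
  by_contra h
  rcases P3a_z_ne h with ⟨l, h1, h2, h3 | h3⟩ | (h3 | h3) | h3 | h3
  · exact hu l h1 h2.le h3.1
  · exact hu (l + 1) (by omega) (by omega) h3.1
  · exact hu i le_rfl hij h3.1
  · exact hup h3.1
  · exact hup h3.1
  · exact hu j hij le_rfl h3.1

omit [Fintype V] in
/-- the curve at a vertex strictly inside the arc -/
private theorem P3a_z_at {c : ℕ → V} {p : V} {m i j k : ℕ} (hjm : j ≤ m)
    (hinj : ∀ i j, i ≤ m → j ≤ m → c i = c j → i = j) (hik : i < k) (hkj : k < j)
    (hkp : c k ≠ p) (v : V) :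
    P3a_z c p i j (c k) v = P3a_e (c (k - 1)) (c k) (c k) v + P3a_e (c k) (c (k + 1)) (c k) v := by
  have hki : c k ≠ c i := fun h => by
    have := hinj k i (by omega) (by omega) h
    omega
  have hkj' : c k ≠ c j := fun h => by
    have := hinj k j (by omega) (by omega) h
    omega
  unfold P3a_z
  rw [P3a_e_zero v hki hkp, P3a_e_zero v hkp hkj', add_zero, add_zero]
  have h1 : ∀ l ∈ Finset.Ico i j, l ∉ ({k - 1, k} : Finset ℕ) →
      P3a_e (c l) (c (l + 1)) (c k) v = 0 := by
    intro l hl hl'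
    rw [Finset.mem_Ico] at hl
    simp only [Finset.mem_insert, Finset.mem_singleton, not_or] at hl'
    refine P3a_e_zero v (fun h => ?_) (fun h => ?_)
    · have := hinj k l (by omega) (by omega) h
      omega
    · have := hinj k (l + 1) (by omega) (by omega) h
      omega
  have h2 : ({k - 1, k} : Finset ℕ) ⊆ Finset.Ico i j := by
    intro l hl
    simp only [Finset.mem_insert, Finset.mem_singleton] at hl
    rw [Finset.mem_Ico]
    omega
  rw [← Finset.sum_subset h2 fun l hl hl' => h1 l hl hl', Finset.sum_pair (by omega)]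
  have h3 : k - 1 + 1 = k := by omega
  rw [h3]

/-- Planarity: `p` and `g` are two vertices inside `W`, `p` is adjacent to the contour vertices `c i`
and `c j`, and `g` to a contour vertex strictly between them; then every contour vertex adjacent to `g`
is one of `c i, ..., c j`. -/
theorem Sph.Good.face_on (hG : S.Good a0 a1 a2 W) (hf : S.T a1 a0 a2) {m : ℕ} {c : ℕ → V}
    (hc0 : c 0 = a0) (hcm : c m = a1) (hnxt : ∀ k, k < m → S.Nxt W (c k) (c (k + 1)))
    (hinj : ∀ i j, i ≤ m → j ≤ m → c i = c j → i = j) {i j : ℕ} (hij : i < j) (hjm : j ≤ m)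
    {p : V} (hpW : p ∈ W) (hpC : ¬ S.Cont W p) (hip : S.Adj (c i) p) (hpj : S.Adj p (c j))
    {k : ℕ} (hik : i < k) (hkj : k < j) {g q : V} (hgW : g ∈ W) (hgC : ¬ S.Cont W g)
    (hgp : g ≠ p) (hkg : S.Adj (c k) g) (hq : S.Cont W q) (hgq : S.Adj g q) :
    ∃ l, i ≤ l ∧ l ≤ j ∧ q = c l := by
  by_contra hc
  have hq' : ∀ l, i ≤ l → l ≤ j → q ≠ c l := fun l hl hl' h => hc ⟨l, hl, hl', h⟩
  have hcont : ∀ l, l ≤ m → S.Cont W (c l) := by
    intro l hl
    rcases Nat.lt_or_ge l m with h | h
    · exact (S.nxt_cont (hnxt l h)).1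
    · have hm : l = m := le_antisymm hl h
      have h3 := (S.nxt_cont (hnxt (m - 1) (by omega))).2.1
      have h4 : m - 1 + 1 = m := by omega
      rw [h4] at h3
      rw [hm]
      exact h3
  have hmem : ∀ l, l ≤ m → c l ∈ W := fun l hl => (hcont l hl).1
  have hcp : ∀ l, l ≤ m → c l ≠ p := fun l hl h => hpC (h ▸ hcont l hl)
  have hcg : ∀ l, l ≤ m → c l ≠ g := fun l hl h => hgC (h ▸ hcont l hl)
  have hqp : q ≠ p := fun h => hpC (h ▸ hq)
  have hsupp : ∀ u v, P3a_z c p i j u v ≠ 0 → S.Adj u v := by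
    intro u v h
    rcases P3a_z_ne h with ⟨l, h3, h4, ⟨rfl, rfl⟩ | ⟨rfl, rfl⟩⟩ | (⟨rfl, rfl⟩ | ⟨rfl, rfl⟩) |
      ⟨rfl, rfl⟩ | ⟨rfl, rfl⟩
    · exact (S.nxt_cont (hnxt l (by omega))).2.2
    · exact S.adj_symm (S.nxt_cont (hnxt l (by omega))).2.2
    · exact hip
    · exact S.adj_symm hip
    · exact hpj
    · exact S.adj_symm hpj
  have hzU : ∀ u, u ∉ W → ∀ v, P3a_z c p i j u v = 0 := by
    intro u hu v
    refine P3a_z_zero (fun l _ h4 h5 => ?_) (fun h => hu (by rw [h]; exact hpW)) hij.le v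
    rw [h5] at hu
    exact hu (hmem l (by omega))
  obtain ⟨X, hrot, hX, h0⟩ := hG.fill_zero S (P3a_z c p i j) hzU
    (S.fill (P3a_z c p i j) (P3a_z_symm c p i j) hsupp (P3a_z_sum c p hij.le))
  have hk1 : k - 1 + 1 = k := by omega
  have hnk : S.Nxt W (c k) (c (k + 1)) := hnxt k (by omega)
  have hpk : S.Nxt W (c (k - 1)) (c k) := by
    have h3 := hnxt (k - 1) (by omega)
    rwa [hk1] at h3
  have hs0 : c k ≠ a0 := by
    rw [← hc0]
    intro h
    have := hinj k 0 (by omega) (by omega) h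
    omega
  have hs1 : c k ≠ a1 := by
    rw [← hcm]
    intro h
    have := hinj k m (by omega) (by omega) h
    omega
  have hz := P3a_z_at (p := p) (i := i) hjm hinj hik hkj (hcp k (by omega))
  have hne1 : c k ≠ c (k + 1) := fun h => by
    have := hinj k (k + 1) (by omega) (by omega) h
    omega
  have hne2 : c k ≠ c (k - 1) := fun h => by
    have := hinj k (k - 1) (by omega) (by omega) h
    omega
  have hne3 : c (k + 1) ≠ c (k - 1) := fun h => by
    have := hinj (k + 1) (k - 1) (by omega) (by omega) h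
    omega
  have hzn : P3a_z c p i j (c k) (c (k + 1)) = 1 := by
    rw [hz]
    simp [P3a_e, hne1, hne2, hne3]
  have hzp : P3a_z c p i j (c k) (c (k - 1)) = 1 := by
    rw [hz]
    simp [P3a_e, hne1, hne2, hne3.symm]
  have hzo : ∀ v, v ≠ c (k + 1) → v ≠ c (k - 1) → P3a_z c p i j (c k) v = 0 := by
    intro v h3 h4
    rw [hz]
    simp [P3a_e, hne1, hne2, h3, h4]
  obtain ⟨y, hy⟩ := hkg
  have hyW : y ∈ W := by
    by_contra h
    exact hgC ⟨hgW, y, h, (S.adj_of_T hy).2.2⟩
  have h5 := hG.star_one S hrot hX h0 (S.nxt_cont hnk).1 hs0 hs1 hnk hpk hzn hzp hzo hy hgW hyW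
  obtain ⟨w, hw⟩ := hgq
  have hgz : ∀ v, P3a_z c p i j g v = 0 := fun v =>
    P3a_z_zero (fun l _ h4 h5 => hcg l (by omega) h5.symm) hgp hij.le v
  have h6 : X g q w = X g y (c k) := P3a_const S hrot hX hgz (S.rot hy) hw
  have h7 := S.star_zero hrot hX h0 hq (P3a_z_zero hq' hqp hij.le) (S.rot hw)
  rw [← hrot, h6, ← hrot, h5] at h7
  exact one_ne_zero h7

end Pool.SX
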