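import Pool.Agent.Lib.MP_9dcace_rp.P3
set_option autoImplicit false

/-! Row P4a (helper94). Removal of a vertex `x` together with the centres of the facets at `x`
(in any order), in the stellated sphere. -/

open Classical

namespace Pool.RP
open Pool.SX Relation

namespace StP
variable {V A : Type} [Fintype V] [Fintype A] (P : StP V A)

/-- the vertices of a facet are one cycle -/
theorem o_conn {u v : V} {f : A} (hu : P.inc u f) (hv : P.inc v f) :
    ReflTransGen (fun x y => P.T x y f) u v := by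
  obtain ⟨w, hw⟩ := hu
  obtain ⟨w', hw'⟩ := hv
  have h := P.S.link (P.S.rot2 hw) (P.S.rot2 hw')
  have key : ∀ z : V ⊕ A, ReflTransGen (fun x y => P.S.T (Sum.inr f) x y) (Sum.inl u) z →
      ∃ y : V, z = Sum.inl y ∧ ReflTransGen (fun x y => P.T x y f) u y := by
    intro z hz
    induction hz with
    | refl => exact ⟨u, rfl, ReflTransGen.refl⟩
    | @tail x z _ hxz ih =>
      obtain ⟨y, rfl, hy⟩ := ih
      rcases z with z | g
      · exact ⟨z, rfl, hy.tail (P.S.rot hxz)⟩
      · exact absurd (P.S.adj_of_T hxz).2.1 (P.o_adj_cc f g)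
  obtain ⟨y, h1, h2⟩ := key _ h
  rw [Sum.inl_injective h1]
  exact h2

/-- a set of vertices closed under `nx f` contains all vertices of `f` -/
theorem o_closed {u v : V} {f : A} (Q : V → Prop) (hu : P.inc u f) (hv : P.inc v f) (h0 : Q u)
    (hQ : ∀ x y, P.T x y f → Q x → Q y) : Q v := by
  have h := P.o_conn hu hv
  induction h with
  | refl => exact h0
  | tail _ hbc ih => exact hQ _ _ hbc (ih (P.o_inc hbc).1)

/-- centres of facets -/
noncomputable def cen (V : Type) {A : Type} (D : Finset A) : Finset (V ⊕ A) := D.image Sum.inr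

theorem mem_cen {V A : Type} {D : Finset A} {z : V ⊕ A} : z ∈ cen V D ↔ ∃ g ∈ D, z = Sum.inr g := by
  unfold cen
  rw [Finset.mem_image]
  exact ⟨fun ⟨g, h1, h2⟩ => ⟨g, h1, h2.symm⟩, fun ⟨g, h1, h2⟩ => ⟨g, h1, h2.symm⟩⟩

/-- Removal of the centres of facets at the removed vertex `x`, in any order. -/
theorem star_erase {W : Finset V} {x : V}
    (h0 : P.S.Good (Sum.inl (P.a 0)) (Sum.inl (P.a 1)) (Sum.inl (P.a 2))
      ((P.st W).erase (Sum.inl x)))
    (hB : ∀ g, P.inc x g → P.Pin W g → ∀ w, P.inc w g → P.S.Cont (P.st W) (Sum.inl w) →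
      w = x ∨ P.T x w g ∨ P.T w x g)
    (hC : ∀ g, P.Pin W g → ∀ y y', P.T x y g → P.T y' x g →
      P.S.Cont (P.st W) (Sum.inl y) → P.S.Cont (P.st W) (Sum.inl y') → False) :
    ∀ D : Finset A, (∀ g ∈ D, P.inc x g ∧ P.Pin W g) →
      P.S.Good (Sum.inl (P.a 0)) (Sum.inl (P.a 1)) (Sum.inl (P.a 2))
        (((P.st W).erase (Sum.inl x)) \ cen V D) := by
  intro D
  induction D using Finset.induction_on with
  | empty =>
    intro _
    have e : ((P.st W).erase (Sum.inl x)) \ cen V ∅ = (P.st W).erase (Sum.inl x) := by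
      unfold cen
      simp
    rw [e]
    exact h0
  | @insert g D hgD ih =>
    intro hD
    have hG := ih fun g' hg' => hD g' (Finset.mem_insert_of_mem hg')
    obtain ⟨hxg, hpg⟩ := hD g (Finset.mem_insert_self g D)
    have hD' : ∀ g' ∈ D, P.inc x g' ∧ P.Pin W g' := fun g' hg' => hD g' (Finset.mem_insert_of_mem hg')
    set U := ((P.st W).erase (Sum.inl x)) \ cen V D with hU
    have e : ((P.st W).erase (Sum.inl x)) \ cen V (insert g D) = U.erase (Sum.inr g) := by
      ext z
      rw [hU, Finset.mem_sdiff, Finset.mem_erase, Finset.mem_erase, Finset.mem_sdiff,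
        Finset.mem_erase, mem_cen, mem_cen]
      constructor
      · rintro ⟨⟨h1, h2⟩, h3⟩
        refine ⟨?_, ⟨h1, h2⟩, ?_⟩
        · intro h
          exact h3 ⟨g, Finset.mem_insert_self g D, h⟩
        · rintro ⟨g', h4, h5⟩
          exact h3 ⟨g', Finset.mem_insert_of_mem h4, h5⟩
      · rintro ⟨h1, ⟨h2, h3⟩, h4⟩
        refine ⟨⟨h2, h3⟩, ?_⟩
        rintro ⟨g', h5, h6⟩
        rcases Finset.mem_insert.mp h5 with h7 | h7
        · exact h1 (by rw [h6, h7])
        · exact h4 ⟨g', h7, h6⟩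
    rw [e]
    have hxU : (Sum.inl x : V ⊕ A) ∉ U := by
      rw [hU, Finset.mem_sdiff, Finset.mem_erase]
      exact fun h => h.1.1 rfl
    have mU : ∀ w : V, (Sum.inl w : V ⊕ A) ∈ U ↔ w ≠ x ∧ w ∈ W := by
      intro w
      rw [hU, Finset.mem_sdiff, Finset.mem_erase, P.st_inl, mem_cen]
      constructor
      · rintro ⟨⟨h1, h2⟩, _⟩
        exact ⟨fun h => h1 (by rw [h]), h2⟩
      · rintro ⟨h1, h2⟩
        refine ⟨⟨fun h => h1 (Sum.inl_injective h), h2⟩, ?_⟩
        rintro ⟨g', _, h4⟩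
        exact absurd h4 (by simp)
    have mU' : ∀ h : A, (Sum.inr h : V ⊕ A) ∈ U ↔ P.Pin W h ∧ h ∉ D := by
      intro h
      rw [hU, Finset.mem_sdiff, Finset.mem_erase, P.st_inr, mem_cen]
      constructor
      · rintro ⟨⟨_, h2⟩, h3⟩
        exact ⟨h2, fun h4 => h3 ⟨h, h4, rfl⟩⟩
      · rintro ⟨h1, h2⟩
        refine ⟨⟨by simp, h1⟩, ?_⟩
        rintro ⟨g', h3, h4⟩
        rw [← Sum.inr_injective h4] at h3
        exact h2 h3
    have hgU : (Sum.inr g : V ⊕ A) ∈ U := (mU' g).mpr ⟨hpg, hgD⟩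
    -- the neighbours of x on g
    obtain ⟨w1, hw1⟩ := id hxg
    obtain ⟨w2, hw2⟩ := P.o_pv hxg
    have n1 : P.S.Nxt U (Sum.inl w1) (Sum.inr g) :=
      ⟨(mU w1).mpr ⟨(P.o_ne hw1).symm, hpg w1 (P.o_inc hw1).2⟩, hgU, Sum.inl x, hxU, P.S.rot hw1⟩
    have n2 : P.S.Nxt U (Sum.inr g) (Sum.inl w2) :=
      ⟨hgU, (mU w2).mpr ⟨P.o_ne hw2, hpg w2 (P.o_inc hw2).1⟩, Sum.inl x, hxU, P.S.rot2 hw2⟩
    have hrem : P.S.Remov U (Sum.inr g) := by
      refine ⟨⟨hgU, Sum.inl x, hxU, P.S.adj_symm (P.o_inc_iff.mp hxg)⟩, ?_⟩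
      intro y hy hadj
      obtain ⟨hyU, u, hu, hyu⟩ := hy
      rcases y with w | h
      · obtain ⟨hwx, hwW⟩ := (mU w).mp hyU
        have hwg : P.inc w g := P.o_inc_iff.mpr (P.S.adj_symm hadj)
        have key : P.T x w g ∨ P.T w x g := by
          by_cases hst : u ∈ P.st W
          · rcases u with u | h
            · have hux : u = x := by
                by_contra hne
                exact hu ((mU u).mpr ⟨hne, P.st_inl.mp hst⟩)
              rw [hux] at hyu
              exact P.o_edge_in hxg hwg (P.S.adj_symm hyu)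
            · have hhD : h ∈ D := by
                by_contra hne
                exact hu ((mU' h).mpr ⟨P.st_inr.mp hst, hne⟩)
              have hgh : g ≠ h := fun e => hgD (by rw [e]; exact hhD)
              rcases P.o_E hgh (Ne.symm hwx) hxg hwg (hD' h hhD).1 (P.o_inc_iff.mpr hyu) with
                ⟨h1, _⟩ | ⟨_, h2⟩
              · exact Or.inl h1
              · exact Or.inr h2
          · rcases hB g hxg hpg w hwg ⟨P.st_inl.mpr hwW, u, hst, hyu⟩ with h1 | h1
            · exact absurd h1 hwx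
            · exact h1
        rcases key with h1 | h1
        · right
          rw [P.o_nxu h1 hw1]
          exact n1
        · left
          rw [P.o_pvu h1 hw2]
          exact n2
      · exact absurd hadj (P.o_adj_cc g h)
    refine hG.erase P.S P.out hrem (by simp) (by simp) ?_
    intro y y' h1 h2 h3
    have e1 : y' = Sum.inl w2 := hG.nxt_uniq P.S h1 n2
    have e2 : y = Sum.inl w1 := hG.prv_uniq P.S h3 n1
    rw [e1, e2] at h2
    obtain ⟨m1, m2, u, hu, hT⟩ := h2
    have hne12 : w2 ≠ w1 := P.o_np hw2 hw1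
    rcases u with v | h
    · have ha2 : (Sum.inl (P.a 2) : V ⊕ A) ∉ U := hG.m2
      rcases P.vvv _ _ _ hT with ⟨q1, q2, _⟩ | ⟨q1, q2, _⟩ | ⟨q1, q2, _⟩
      · exact ⟨by rw [e2, q2], by rw [e1, q1]⟩
      · exact absurd (q2 ▸ m2) ha2
      · exact absurd (q1 ▸ m1) ha2
    · exfalso
      have hT' : P.T w2 w1 h := hT
      have hhg : h ≠ g := by
        intro e
        rw [e] at hT'
        exact P.o_ne hw1 (P.o_nxu hT' hw2).symm
      have hnx : ¬ P.inc x h := by
        intro hx
        exact P.o_three hhg (P.o_ne hw2).symm hne12 (P.o_ne hw1) hx (P.o_inc hT').1 (P.o_inc hT').2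
          hxg (P.o_inc hw2).1 (P.o_inc hw1).2
      have hnp : ¬ P.Pin W h := by
        intro hp
        apply hu
        exact (mU' h).mpr ⟨hp, fun hh => hnx (hD' h hh).1⟩
      exact hC g hpg w1 w2 hw1 hw2
        (P.cont_of_out ((mU w1).mp m2).2 (P.o_inc hT').2 hnp)
        (P.cont_of_out ((mU w2).mp m1).2 (P.o_inc hT').1 hnp)

theorem star_Gd {W : Finset V} {x : V}
    (h0 : P.S.Good (Sum.inl (P.a 0)) (Sum.inl (P.a 1)) (Sum.inl (P.a 2))
      ((P.st W).erase (Sum.inl x)))
    (hB : ∀ g, P.inc x g → P.Pin W g → ∀ w, P.inc w g → P.S.Cont (P.st W) (Sum.inl w) →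
      w = x ∨ P.T x w g ∨ P.T w x g)
    (hC : ∀ g, P.Pin W g → ∀ y y', P.T x y g → P.T y' x g →
      P.S.Cont (P.st W) (Sum.inl y) → P.S.Cont (P.st W) (Sum.inl y') → False) :
    P.Gd (W \ {x}) := by
  have h := P.star_erase h0 hB hC (Finset.univ.filter fun g => P.inc x g ∧ P.Pin W g)
    (fun g hg => (Finset.mem_filter.mp hg).2)
  have e : ((P.st W).erase (Sum.inl x)) \ cen V (Finset.univ.filter fun g => P.inc x g ∧ P.Pin W g) =
      P.st (W \ {x}) := by
    ext z
    rw [Finset.mem_sdiff, Finset.mem_erase, mem_cen]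
    rcases z with v | f
    · rw [P.st_inl, P.st_inl, Finset.mem_sdiff, Finset.mem_singleton]
      constructor
      · rintro ⟨⟨h1, h2⟩, _⟩
        exact ⟨h2, fun h => h1 (by rw [h])⟩
      · rintro ⟨h1, h2⟩
        refine ⟨⟨fun h => h2 (Sum.inl_injective h), h1⟩, ?_⟩
        rintro ⟨g', _, h4⟩
        exact absurd h4 (by simp)
    · rw [P.st_inr, P.st_inr]
      constructor
      · rintro ⟨⟨_, h2⟩, h3⟩ v hv
        rw [Finset.mem_sdiff, Finset.mem_singleton]
        refine ⟨h2 v hv, fun hvx => h3 ⟨f, Finset.mem_filter.mpr ⟨Finset.mem_univ _, ?_, h2⟩, rfl⟩⟩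
        rw [← hvx]
        exact hv
      · intro h1
        refine ⟨⟨by simp, fun v hv => (Finset.mem_sdiff.mp (h1 v hv)).1⟩, ?_⟩
        rintro ⟨g', h2, h3⟩
        rw [← Sum.inr_injective h3] at h2
        have h4 := (Finset.mem_sdiff.mp (h1 x (Finset.mem_filter.mp h2).2.1)).2
        exact h4 (Finset.mem_singleton_self x)
  unfold Gd
  rw [← e]
  exact h

/-- the first step -/
theorem Gd_init : P.Gd (Finset.univ.erase (P.a 2)) := by
  have e : (Finset.univ.erase (P.a 2) : Finset V) = Finset.univ \ {P.a 2} := by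
    ext v
    simp
  have hst : P.st (Finset.univ : Finset V) = Finset.univ := by
    ext z
    rcases z with v | f
    · rw [P.st_inl]
      simp
    · rw [P.st_inr]
      exact ⟨fun _ => Finset.mem_univ _, fun _ v _ => Finset.mem_univ v⟩
  have hnc : ∀ z, ¬ P.S.Cont (P.st (Finset.univ : Finset V)) z := by
    rintro z ⟨_, u, hu, _⟩
    rw [hst] at hu
    exact hu (Finset.mem_univ _)
  rw [e]
  refine P.star_Gd ?_ (fun g _ _ w _ h => absurd h (hnc _)) (fun g _ y y' _ _ h _ => hnc _ h)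
  rw [hst]
  exact P.S.good_init P.out

end StP
end Pool.RP
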