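import Pool.Agent.Lib.MP_9dcace_rp.P4a
set_option autoImplicit false

/-! Row P4b (helper94). Removal of a chain of contour vertices which have only one facet `g` inside:
`c (s+1), ..., c (t-1)` where the contour edges between `c s` and `c t` are edges of `g`. -/

open Classical

namespace Pool.RP
open Pool.SX Relation

namespace StP
variable {V A : Type} [Fintype V] [Fintype A] {P : StP V A} {W : Finset V} {m : ℕ} {c : ℕ → V}

/-- if both contour edges at `x = c l` lie in `g` then `g` is the only facet inside at `x` -/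
theorem Ctr.only (C : P.Ctr W m c) (hG : P.Gd W) {l : ℕ} (h0 : 0 < l) (hl : l < m) {g : A}
    (h1 : P.T (c (l + 1)) (c l) g) (h2 : P.T (c l) (c (l - 1)) g) :
    ∀ f, P.inc (c l) f → P.Pin W f → f = g := by
  intro f hf hpf
  by_contra hne
  obtain ⟨h, hh, hnh⟩ := C.left hG hl
  obtain ⟨h', hh', hnh'⟩ := C.left hG (show l - 1 < m by omega)
  have hl1 : l - 1 + 1 = l := by omega
  rw [hl1] at hh'
  have hadj : P.S.Adj (Sum.inl (c l)) (Sum.inr f) := P.o_inc_iff.mp hf
  have hadjg : P.S.Adj (Sum.inl (c l)) (Sum.inr g) := P.o_inc_iff.mp (P.o_inc h2).1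
  obtain ⟨a, b, hT, ha, hb⟩ := P.S.cross
    (fun z => z ∈ P.st W ∧ z ≠ Sum.inr g ∧ z ≠ Sum.inl (c (l + 1)) ∧ z ≠ Sum.inl (c (l - 1)))
    hadj ⟨P.st_inr.mpr hpf, fun e => hne (Sum.inr_injective e), by simp, by simp⟩ hadjg
    (fun hz => hz.2.1 rfl)
  obtain ⟨ha1, ha2, ha3, ha4⟩ := ha
  have t1 : P.S.T (Sum.inl (c l)) (Sum.inl (c (l - 1))) (Sum.inr g) := h2
  have t2 : P.S.T (Sum.inl (c l)) (Sum.inr g) (Sum.inl (c (l + 1))) := P.S.rot h1
  have t3 : P.S.T (Sum.inl (c l)) (Sum.inl (c (l + 1))) (Sum.inr h) := hh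
  have t4 : P.S.T (Sum.inl (c l)) (Sum.inr h') (Sum.inl (c (l - 1))) := P.S.rot hh'
  by_cases hbW : b ∈ P.st W
  · by_cases b1 : b = Sum.inr g
    · rw [b1] at hT
      exact ha4 (P.S.prv_uniq hT t1)
    · by_cases b2 : b = Sum.inl (c (l + 1))
      · rw [b2] at hT
        exact ha2 (P.S.prv_uniq hT t2)
      · by_cases b3 : b = Sum.inl (c (l - 1))
        · rw [b3] at hT
          have := P.S.prv_uniq hT t4
          rw [this] at ha1
          exact hnh' (P.st_inr.mp ha1)
        · exact hb ⟨hbW, b1, b2, b3⟩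
  · have := hG.i1 _ (P.st_inl.mpr (C.mem hl.le)) a ha1 (Sum.inl (c (l + 1)))
      (P.st_inl.mpr (C.mem hl)) b (Sum.inr h) hbW (fun hh => hnh (P.st_inr.mp hh)) hT t3
    exact ha3 this

/-- a vertex `c l` (not `a 0`, `a 1`) with two different outer facets at its contour edges has a
neighbour outside `W` -/
theorem Ctr.up (C : P.Ctr W m c) (hG : P.Gd W) {l : ℕ} (h0 : 0 < l) (hl : l < m) {h h' : A}
    (h1 : P.T (c (l - 1)) (c l) h) (h2 : P.T (c l) (c (l + 1)) h') (hn' : ¬ P.Pin W h')
    (hne : h ≠ h') : ∃ u : V, u ∉ W ∧ P.S.Adj (Sum.inl (c l)) (Sum.inl u) := by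
  obtain ⟨u, hu⟩ := P.o_pv (P.o_inc h2).1
  refine ⟨u, ?_, P.S.adj_symm ⟨_, hu⟩⟩
  intro huW
  have hl1 : l - 1 + 1 = l := by omega
  have n1 := P.nxt_mk huW (C.mem hl.le) hu hn'
  have n2 := C.nxt (l - 1) (by omega)
  rw [hl1] at n2
  have e := Sum.inl_injective (hG.prv_uniq P.S n1 n2)
  rw [e] at hu
  exact hne (P.o_side h1 hu)

/-- vertices of the chain -/
noncomputable def chn (c : ℕ → V) (s t : ℕ) : Finset V := (Finset.Ioo s t).image c

omit [Fintype V] in
theorem mem_chn {s t : ℕ} {z : V} : z ∈ chn c s t ↔ ∃ l, s < l ∧ l < t ∧ z = c l := by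
  unfold chn
  rw [Finset.mem_image]
  constructor
  · rintro ⟨l, h1, h2⟩
    rw [Finset.mem_Ioo] at h1
    exact ⟨l, h1.1, h1.2, h2.symm⟩
  · rintro ⟨l, h1, h2, h3⟩
    exact ⟨l, Finset.mem_Ioo.mpr ⟨h1, h2⟩, h3.symm⟩

/-- the vertices `c l`, `i ≤ l < t`, as elements of the sphere -/
noncomputable def chs (A : Type) (c : ℕ → V) (i t : ℕ) : Finset (V ⊕ A) :=
  (Finset.Ico i t).image fun l => Sum.inl (c l)

omit [Fintype V] [Fintype A] in
theorem mem_chs {i t : ℕ} {z : V ⊕ A} : z ∈ chs A c i t ↔ ∃ l, i ≤ l ∧ l < t ∧ z = Sum.inl (c l) := by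
  unfold chs
  rw [Finset.mem_image]
  constructor
  · rintro ⟨l, h1, h2⟩
    rw [Finset.mem_Ico] at h1
    exact ⟨l, h1.1, h1.2, h2.symm⟩
  · rintro ⟨l, h1, h2, h3⟩
    exact ⟨l, Finset.mem_Ico.mpr ⟨h1, h2⟩, h3.symm⟩

/-- the vertices of the chain are removed from the right to the left -/
theorem Ctr.chain_erase (C : P.Ctr W m c) (hG : P.Gd W) {s t : ℕ} (htm : t ≤ m) {g : A}
    (hpg : P.Pin W g) (hed : ∀ l, s ≤ l → l < t → P.T (c (l + 1)) (c l) g)
    (hup : ∀ l, s < l → l < t → ∃ u : V, u ∉ W ∧ P.S.Adj (Sum.inl (c l)) (Sum.inl u)) :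
    ∀ n, s + n < t → P.S.Good (Sum.inl (P.a 0)) (Sum.inl (P.a 1)) (Sum.inl (P.a 2))
      (P.st W \ chs A c (t - n) t) := by
  have ha2 := P.Gd_a2 hG
  intro n
  induction n with
  | zero =>
    intro _
    have e : P.st W \ chs A c (t - 0) t = P.st W := by
      unfold chs
      simp
    rw [e]
    exact hG
  | succ n ih =>
    intro hn
    have hGU := ih (by omega)
    set U := P.st W \ chs A c (t - n) t with hU
    set i := t - (n + 1) with hi
    have hi1 : t - n = i + 1 := by omega
    have e : P.st W \ chs A c i t = U.erase (Sum.inl (c i)) := by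
      ext z
      rw [hU, Finset.mem_sdiff, Finset.mem_erase, Finset.mem_sdiff, mem_chs, mem_chs]
      constructor
      · rintro ⟨h1, h2⟩
        refine ⟨fun h => h2 ⟨i, le_rfl, by omega, h⟩, h1, ?_⟩
        rintro ⟨l, h3, h4, h5⟩
        exact h2 ⟨l, by omega, h4, h5⟩
      · rintro ⟨h1, h2, h3⟩
        refine ⟨h2, ?_⟩
        rintro ⟨l, h4, h5, h6⟩
        by_cases hli : l = i
        · rw [hli] at h6
          exact h1 h6
        · exact h3 ⟨l, by omega, h5, h6⟩
    rw [e]
    have mU : ∀ w : V, (Sum.inl w : V ⊕ A) ∈ U ↔ w ∈ W ∧ ¬ ∃ l, i + 1 ≤ l ∧ l < t ∧ w = c l := by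
      intro w
      rw [hU, Finset.mem_sdiff, mem_chs, P.st_inl, hi1]
      constructor
      · rintro ⟨h1, h2⟩
        exact ⟨h1, fun ⟨l, h3, h4, h5⟩ => h2 ⟨l, h3, h4, by rw [h5]⟩⟩
      · rintro ⟨h1, h2⟩
        exact ⟨h1, fun ⟨l, h3, h4, h5⟩ => h2 ⟨l, h3, h4, Sum.inl_injective h5⟩⟩
    have mU' : ∀ h : A, (Sum.inr h : V ⊕ A) ∈ U ↔ P.Pin W h := by
      intro h
      rw [hU, Finset.mem_sdiff, mem_chs, P.st_inr]
      constructor
      · exact fun h1 => h1.1
      · intro h1
        refine ⟨h1, ?_⟩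
        rintro ⟨l, _, _, h5⟩
        exact absurd h5 (by simp)
    have mc : ∀ l, l ≤ i → (Sum.inl (c l) : V ⊕ A) ∈ U := by
      intro l hl
      refine (mU _).mpr ⟨C.mem (by omega), ?_⟩
      rintro ⟨l', h3, h4, h5⟩
      have := C.inj l l' (by omega) (by omega) h5
      omega
    have hst : ∀ z : V ⊕ A, z ∉ P.st W → z ∉ U := by
      intro z hz h
      rw [hU, Finset.mem_sdiff] at h
      exact hz h.1
    have hia : ∀ k, c i ≠ P.a k := by
      have hk : ∀ k : Fin 3, k = 0 ∨ k = 1 ∨ k = 2 := by decide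
      intro k
      rcases hk k with rfl | rfl | rfl
      · rw [← C.c0]
        exact C.ne (by omega) (by omega) (by omega)
      · rw [← C.cm]
        exact C.ne (by omega) le_rfl (by omega)
      · intro h
        apply ha2
        rw [← h]
        exact C.mem (by omega)
    have honly : ∀ f, P.inc (c i) f → P.Pin W f → f = g := by
      refine C.only hG (by omega) (by omega) (hed i (by omega) (by omega)) ?_
      have := hed (i - 1) (by omega) (by omega)
      have e2 : i - 1 + 1 = i := by omega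
      rw [e2] at this
      exact this
    -- the next element after the removed ones begin
    have hng : ∀ (_ : i + 1 < t), P.S.Nxt U (Sum.inl (c i)) (Sum.inr g) := by
      intro hit
      refine ⟨mc i le_rfl, (mU' g).mpr hpg, Sum.inl (c (i + 1)), ?_, ?_⟩
      · intro h
        exact ((mU _).mp h).2 ⟨i + 1, le_rfl, hit, rfl⟩
      · have h1 := hed i (by omega) (by omega)
        exact P.S.rot h1
    have hprev : P.S.Nxt U (Sum.inl (c (i - 1))) (Sum.inl (c i)) := by
      obtain ⟨_, _, w, hw, hT⟩ := C.nxt (i - 1) (by omega)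
      have e2 : i - 1 + 1 = i := by omega
      rw [e2] at hT
      exact ⟨mc _ (by omega), mc _ le_rfl, w, hst w hw, hT⟩
    have hrem : P.S.Remov U (Sum.inl (c i)) := by
      obtain ⟨u, hu, hadj⟩ := hup i (by omega) (by omega)
      refine ⟨⟨mc i le_rfl, Sum.inl u, hst _ (fun h => hu (P.st_inl.mp h)), hadj⟩, ?_⟩
      intro y hy hadj
      obtain ⟨hyU, u', hu', hyu'⟩ := hy
      rcases y with w | h
      · have hwW := ((mU w).mp hyU).1
        rcases P.o_adj_iff.mp hadj with ⟨f, hf⟩ | ⟨k, hk, _⟩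
        · rcases P.o_other hf with ⟨f', hf'⟩ | ⟨k, hk, _⟩
          · by_cases hpf : P.Pin W f
            · by_cases hpf' : P.Pin W f'
              · exfalso
                have e1 := honly f (P.o_inc hf).1 hpf
                have e2 := honly f' (P.o_inc hf').2 hpf'
                rw [e1] at hf
                rw [e2] at hf'
                exact P.o_rev hf hf'
              · right
                exact ⟨hyU, mc i le_rfl, Sum.inr f', fun h => hpf' ((mU' _).mp h), hf'⟩
            · left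
              exact ⟨mc i le_rfl, hyU, Sum.inr f, fun h => hpf ((mU' _).mp h), hf⟩
          · exact absurd hk (hia k)
        · exact absurd hk (hia _)
      · have hph := (mU' h).mp hyU
        have hhg := honly h (P.o_inc_iff.mpr hadj) hph
        left
        rw [hhg]
        apply hng
        by_contra hit
        -- nothing is removed yet
        rcases u' with u | f
        · have huf : P.inc u h := P.o_inc_iff.mpr (P.S.adj_symm hyu')
          apply hu'
          refine (mU u).mpr ⟨hph u huf, ?_⟩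
          rintro ⟨l, h3, h4, _⟩
          omega
        · exact P.o_adj_cc _ _ hyu'
    refine hGU.erase P.S P.out hrem (fun h => hia 0 (Sum.inl_injective h))
      (fun h => hia 1 (Sum.inl_injective h)) ?_
    intro y y' h1 h2 h3
    have ey : y = Sum.inl (c (i - 1)) := hGU.prv_uniq P.S h3 hprev
    by_cases hit : i + 1 < t
    · exfalso
      have ey' : y' = Sum.inr g := hGU.nxt_uniq P.S h1 (hng hit)
      have ht1 : t - 1 + 1 = t := by omega
      have hn2 : P.S.Nxt U (Sum.inr g) (Sum.inl (c t)) := by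
        have h4 := hed (t - 1) (by omega) (by omega)
        rw [ht1] at h4
        refine ⟨(mU' g).mpr hpg, ?_, Sum.inl (c (t - 1)), ?_, P.S.rot2 h4⟩
        · refine (mU _).mpr ⟨C.mem htm, ?_⟩
          rintro ⟨l', h5, h6, h7⟩
          have := C.inj t l' htm (by omega) h7
          omega
        · intro h
          exact ((mU _).mp h).2 ⟨t - 1, by omega, by omega, rfl⟩
      rw [ey', ey] at h2
      have := Sum.inl_injective (hGU.nxt_uniq P.S h2 hn2)
      have := C.inj (i - 1) t (by omega) htm this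
      omega
    · have hit' : i + 1 = t := by omega
      have hn1 : P.S.Nxt U (Sum.inl (c i)) (Sum.inl (c (i + 1))) := by
        obtain ⟨_, _, w, hw, hT⟩ := C.nxt i (by omega)
        refine ⟨mc _ le_rfl, ?_, w, hst w hw, hT⟩
        refine (mU _).mpr ⟨C.mem (by omega), ?_⟩
        rintro ⟨l', h5, h6, h7⟩
        omega
      have ey' : y' = Sum.inl (c (i + 1)) := hGU.nxt_uniq P.S h1 hn1
      rw [ey, ey'] at h2
      -- back to W: nothing is removed yet
      have hUW : U = P.st W := by
        rw [hU]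
        unfold chs
        rw [Finset.Ico_eq_empty (by omega)]
        simp
      rw [hUW] at h2
      by_cases him : i + 1 < m
      · have h5 := C.nxt (i + 1) him
        have := Sum.inl_injective (hG.nxt_uniq P.S h2 h5)
        have := C.inj (i - 1) (i + 1 + 1) (by omega) (by omega) this
        omega
      · have him' : i + 1 = m := by omega
        rw [him', C.cm] at h2
        have := hG.nxt_uniq P.S h2 (hG.nxt_a1 P.S P.out)
        refine ⟨by rw [ey, this], by rw [ey', him', C.cm]⟩

end StP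
end Pool.RP
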