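import Pool.Agent.Lib.MP_9dcace_rp.P4b
set_option autoImplicit false

/-! Row P4c (helper94). The chain step: removal of the chain and of the centre of `g`. -/

open Classical

namespace Pool.RP
open Pool.SX Relation

namespace StP
variable {V A : Type} [Fintype V] [Fintype A] {P : StP V A} {W : Finset V} {m : ℕ} {c : ℕ → V}

theorem Ctr.chain_Gd (C : P.Ctr W m c) (hG : P.Gd W) {s t : ℕ} (hst : s + 2 ≤ t) (htm : t ≤ m)
    {g : A} (hpg : P.Pin W g) (hed : ∀ l, s ≤ l → l < t → P.T (c (l + 1)) (c l) g)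
    (hup : ∀ l, s < l → l < t → ∃ u : V, u ∉ W ∧ P.S.Adj (Sum.inl (c l)) (Sum.inl u))
    (hcap : ∀ w, P.inc w g → P.S.Cont (P.st W) (Sum.inl w) → ∃ l, s ≤ l ∧ l ≤ t ∧ w = c l) :
    P.Gd (W \ chn c s t) := by
  have ha2 := P.Gd_a2 hG
  have hGU := C.chain_erase hG htm hpg hed hup (t - s - 1) (by omega)
  have e1 : t - (t - s - 1) = s + 1 := by omega
  rw [e1] at hGU
  set U := P.st W \ chs A c (s + 1) t with hU
  have mU : ∀ w : V, (Sum.inl w : V ⊕ A) ∈ U ↔ w ∈ W ∧ ¬ ∃ l, s + 1 ≤ l ∧ l < t ∧ w = c l := by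
    intro w
    rw [hU, Finset.mem_sdiff, mem_chs, P.st_inl]
    constructor
    · rintro ⟨h1, h2⟩
      exact ⟨h1, fun ⟨l, h3, h4, h5⟩ => h2 ⟨l, h3, h4, by rw [h5]⟩⟩
    · rintro ⟨h1, h2⟩
      exact ⟨h1, fun ⟨l, h3, h4, h5⟩ => h2 ⟨l, h3, h4, Sum.inl_injective h5⟩⟩
  have mU' : ∀ h : A, (Sum.inr h : V ⊕ A) ∈ U ↔ P.Pin W h := by
    intro h
    rw [hU, Finset.mem_sdiff, mem_chs, P.st_inr]
    constructor
    · exact fun h1 => h1.1
    · intro h1
      refine ⟨h1, ?_⟩
      rintro ⟨l, _, _, h5⟩
      exact absurd h5 (by simp)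
  have hU' : ∀ z : V ⊕ A, z ∉ P.st W → z ∉ U := by
    intro z hz h
    rw [hU, Finset.mem_sdiff] at h
    exact hz h.1
  have mcs : (Sum.inl (c s) : V ⊕ A) ∈ U := by
    refine (mU _).mpr ⟨C.mem (by omega), ?_⟩
    rintro ⟨l', h3, h4, h5⟩
    have := C.inj s l' (by omega) (by omega) h5
    omega
  have mct : (Sum.inl (c t) : V ⊕ A) ∈ U := by
    refine (mU _).mpr ⟨C.mem (by omega), ?_⟩
    rintro ⟨l', h3, h4, h5⟩
    have := C.inj t l' (by omega) (by omega) h5
    omega
  have hgU : (Sum.inr g : V ⊕ A) ∈ U := (mU' g).mpr hpg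
  have ht1 : t - 1 + 1 = t := by omega
  have rm : ∀ l, s < l → l < t → (Sum.inl (c l) : V ⊕ A) ∉ U := by
    intro l h1 h2 h
    exact ((mU _).mp h).2 ⟨l, h1, h2, rfl⟩
  have n1 : P.S.Nxt U (Sum.inl (c s)) (Sum.inr g) := by
    have h1 := hed s le_rfl (by omega)
    exact ⟨mcs, hgU, Sum.inl (c (s + 1)), rm _ (by omega) (by omega), P.S.rot h1⟩
  have n2 : P.S.Nxt U (Sum.inr g) (Sum.inl (c t)) := by
    have h1 := hed (t - 1) (by omega) (by omega)
    rw [ht1] at h1
    exact ⟨hgU, mct, Sum.inl (c (t - 1)), rm _ (by omega) (by omega), P.S.rot2 h1⟩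
  have hrem : P.S.Remov U (Sum.inr g) := by
    refine ⟨⟨hgU, Sum.inl (c (s + 1)), rm _ (by omega) (by omega), ?_⟩, ?_⟩
    · exact P.S.adj_symm (P.o_inc_iff.mp (P.o_inc (hed s le_rfl (by omega))).1)
    · intro y hy hadj
      obtain ⟨hyU, u, hu, hyu⟩ := hy
      rcases y with w | h
      · obtain ⟨hwW, hwZ⟩ := (mU w).mp hyU
        have hwg : P.inc w g := P.o_inc_iff.mpr (P.S.adj_symm hadj)
        have key : w = c s ∨ w = c t := by
          by_cases hust : u ∈ P.st W
          · rcases u with u | h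
            · have hz : ∃ l, s + 1 ≤ l ∧ l < t ∧ u = c l := by
                by_contra hne
                exact hu ((mU u).mpr ⟨P.st_inl.mp hust, hne⟩)
              obtain ⟨l, h1, h2, h3⟩ := hz
              have hul : P.inc (c l) g := (P.o_inc (hed l (by omega) h2)).2
              have h4 := hed l (by omega) h2
              have h5 := hed (l - 1) (by omega) (by omega)
              have e2 : l - 1 + 1 = l := by omega
              rw [e2] at h5
              rw [h3] at hyu
              rcases P.o_edge_in hwg hul hyu with h6 | h6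
              · have h7 := P.o_pvu h6 h4
                right
                by_contra hne
                exact hwZ ⟨l + 1, by omega, by
                  by_contra hlt
                  have : l + 1 = t := by omega
                  rw [this] at h7
                  exact hne h7, h7⟩
              · have h7 := P.o_nxu h6 h5
                left
                by_contra hne
                exact hwZ ⟨l - 1, by
                  by_contra hlt
                  have : l - 1 = s := by omega
                  rw [this] at h7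
                  exact hne h7, by omega, h7⟩
            · exact absurd ((mU' h).mpr (P.st_inr.mp hust)) hu
          · obtain ⟨l, h1, h2, h3⟩ := hcap w hwg ⟨P.st_inl.mpr hwW, u, hust, hyu⟩
            by_cases hls : l = s
            · left
              rw [h3, hls]
            · by_cases hlt : l = t
              · right
                rw [h3, hlt]
              · exact absurd ⟨l, by omega, by omega, h3⟩ hwZ
        rcases key with h1 | h1
        · right
          rw [h1]
          exact n1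
        · left
          rw [h1]
          exact n2
      · exact absurd hadj (P.o_adj_cc g h)
  have hfin := hGU.erase P.S P.out hrem (by simp) (by simp) (by
    intro y y' h1 h2 h3
    have ey' : y' = Sum.inl (c t) := hGU.nxt_uniq P.S h1 n2
    have ey : y = Sum.inl (c s) := hGU.prv_uniq P.S h3 n1
    rw [ey, ey'] at h2
    obtain ⟨_, _, w, hw, hT⟩ := h2
    by_cases hwst : w ∈ P.st W
    · exfalso
      rcases w with w | h
      · rcases P.vvv _ _ _ hT with ⟨_, _, q3⟩ | ⟨_, q2, _⟩ | ⟨q1, _, _⟩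
        · rw [q3] at hwst
          exact ha2 (P.st_inl.mp hwst)
        · exact ha2 (q2 ▸ C.mem (show s ≤ m by omega))
        · exact ha2 (q1 ▸ C.mem htm)
      · exact hw ((mU' h).mpr (P.st_inr.mp hwst))
    · have h4 : P.S.Nxt (P.st W) (Sum.inl (c t)) (Sum.inl (c s)) :=
        ⟨P.st_inl.mpr (C.mem htm), P.st_inl.mpr (C.mem (by omega)), w, hwst, hT⟩
      by_cases htm' : t < m
      · exfalso
        have h5 := C.nxt t htm'
        have := Sum.inl_injective (hG.nxt_uniq P.S h4 h5)
        have := C.inj s (t + 1) (by omega) (by omega) this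
        omega
      · have e3 : t = m := by omega
        rw [e3, C.cm] at h4
        have h5 := hG.nxt_uniq P.S h4 (hG.nxt_a1 P.S P.out)
        exact ⟨by rw [ey, h5], by rw [ey', e3, C.cm]⟩)
  have e : U.erase (Sum.inr g) = P.st (W \ chn c s t) := by
    ext z
    rcases z with v | f
    · rw [Finset.mem_erase, mU, P.st_inl, Finset.mem_sdiff, mem_chn]
      constructor
      · rintro ⟨_, h1, h2⟩
        exact ⟨h1, fun ⟨l, h3, h4, h5⟩ => h2 ⟨l, h3, h4, h5⟩⟩
      · rintro ⟨h1, h2⟩
        exact ⟨by simp, h1, fun ⟨l, h3, h4, h5⟩ => h2 ⟨l, h3, h4, h5⟩⟩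
    · rw [Finset.mem_erase, mU', P.st_inr]
      constructor
      · rintro ⟨h1, h2⟩ v hv
        rw [Finset.mem_sdiff, mem_chn]
        refine ⟨h2 v hv, ?_⟩
        rintro ⟨l, h3, h4, h5⟩
        apply h1
        rw [h5] at hv
        have h6 := hed (l - 1) (by omega) (by omega)
        have e2 : l - 1 + 1 = l := by omega
        rw [e2] at h6
        have := C.only hG (by omega) (by omega) (hed l (by omega) h4) h6 f hv h2
        rw [this]
      · intro h1
        refine ⟨?_, fun v hv => (Finset.mem_sdiff.mp (h1 v hv)).1⟩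
        intro h2
        have h3 : f = g := Sum.inr_injective h2
        have h4 := (P.o_inc (hed s le_rfl (by omega))).1
        rw [h3] at h1
        have h5 := (Finset.mem_sdiff.mp (h1 _ h4)).2
        exact h5 (mem_chn.mpr ⟨s + 1, by omega, by omega, rfl⟩)
  unfold Gd
  rw [← e]
  exact hfin

/-- The chain step. -/
theorem Ctr.chain_step (C : P.Ctr W m c) (hG : P.Gd W) {s t : ℕ} (hst : s + 2 ≤ t) (htm : t ≤ m)
    {g : A} (hpg : P.Pin W g) (hed : ∀ l, s ≤ l → l < t → P.T (c (l + 1)) (c l) g)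
    (hcap : ∀ w, P.inc w g → P.S.Cont (P.st W) (Sum.inl w) → ∃ l, s ≤ l ∧ l ≤ t ∧ w = c l) :
    ∃ Z, P.Step W Z ∧ P.Gd (W \ Z) := by
  have ha2 := P.Gd_a2 hG
  have hed' : ∀ l, s < l → l < t → P.T (c l) (c (l - 1)) g := by
    intro l h1 h2
    have h6 := hed (l - 1) (by omega) (by omega)
    have e2 : l - 1 + 1 = l := by omega
    rw [e2] at h6
    exact h6
  have honly : ∀ l, s < l → l < t → ∀ f, P.inc (c l) f → P.Pin W f → f = g :=
    fun l h1 h2 => C.only hG (by omega) (by omega) (hed l h1.le h2) (hed' l h1 h2)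
  have hup : ∀ l, s < l → l < t → ∃ u : V, u ∉ W ∧ P.S.Adj (Sum.inl (c l)) (Sum.inl u) := by
    intro l h1 h2
    obtain ⟨h, hh, hnh⟩ := C.left hG (show l < m by omega)
    obtain ⟨h', hh', hnh'⟩ := C.left hG (show l - 1 < m by omega)
    have e2 : l - 1 + 1 = l := by omega
    rw [e2] at hh'
    by_cases hne : h' = h
    · exfalso
      rw [hne] at hh'
      exact P.o_two hh' hh (hed l h1.le h2) (hed' l h1 h2)
    · exact C.up hG (by omega) (by omega) hh' hh hnh hne
  refine ⟨chn c s t, ⟨⟨c (s + 1), mem_chn.mpr ⟨s + 1, by omega, by omega, rfl⟩⟩, ?_, ?_, ?_, ?_,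
    Or.inr ⟨g, ⟨hpg, ?_, ?_, ?_, ?_⟩⟩⟩, C.chain_Gd hG hst htm hpg hed hup hcap⟩
  · intro z hz
    obtain ⟨l, h1, h2, rfl⟩ := mem_chn.mp hz
    exact C.mem (by omega)
  · intro hz
    obtain ⟨l, h1, h2, h3⟩ := mem_chn.mp hz
    rw [← C.c0] at h3
    have := C.inj 0 l (by omega) (by omega) h3
    omega
  · intro hz
    obtain ⟨l, h1, h2, h3⟩ := mem_chn.mp hz
    rw [← C.cm] at h3
    have := C.inj m l (by omega) (by omega) h3
    omega
  · intro z hz
    obtain ⟨l, h1, h2, rfl⟩ := mem_chn.mp hz
    exact hup l h1 h2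
  · intro z hz
    obtain ⟨l, h1, h2, rfl⟩ := mem_chn.mp hz
    exact ⟨(P.o_inc (hed l h1.le h2)).2, honly l h1 h2⟩
  · -- exit: only from c (s+1)
    have key : ∀ z ∈ chn c s t, ∀ y, P.T z y g → y ∉ chn c s t → z = c (s + 1) := by
      intro z hz y hT hy
      obtain ⟨l, h1, h2, rfl⟩ := mem_chn.mp hz
      have e3 := P.o_nxu hT (hed' l h1 h2)
      by_cases hls : l = s + 1
      · rw [hls]
      · exact absurd (mem_chn.mpr ⟨l - 1, by omega, by omega, e3⟩) hy
    intro z hz z' hz' y y' hT hT' hy hy'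
    rw [key z hz y hT hy, key z' hz' y' hT' hy']
  · have key : ∀ z ∈ chn c s t, ∀ y, P.T y z g → y ∉ chn c s t → z = c (t - 1) := by
      intro z hz y hT hy
      obtain ⟨l, h1, h2, rfl⟩ := mem_chn.mp hz
      have e3 := P.o_pvu hT (hed l h1.le h2)
      by_cases hls : l = t - 1
      · rw [hls]
      · exact absurd (mem_chn.mpr ⟨l + 1, by omega, by omega, e3⟩) hy
    intro z hz z' hz' y y' hT hT' hy hy'
    rw [key z hz y hT hy, key z' hz' y' hT' hy']
  · intro u
    have hs : c s ∉ chn c s t := by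
      intro h
      obtain ⟨l, h1, h2, h3⟩ := mem_chn.mp h
      have := C.inj s l (by omega) (by omega) h3
      omega
    have ht : c t ∉ chn c s t := by
      intro h
      obtain ⟨l, h1, h2, h3⟩ := mem_chn.mp h
      have := C.inj t l (by omega) (by omega) h3
      omega
    have ht1 : t - 1 + 1 = t := by omega
    have i1 : P.inc (c s) g := (P.o_inc (hed s le_rfl (by omega))).2
    have i2 : P.inc (c t) g := by
      have := (P.o_inc (hed (t - 1) (by omega) (by omega))).1
      rwa [ht1] at this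
    by_cases hu : c s = u
    · refine ⟨c t, ?_, i2, ht⟩
      rw [← hu]
      exact C.ne (by omega) (by omega) (by omega)
    · exact ⟨c s, hu, i1, hs⟩

end StP
end Pool.RP
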