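import Pool.Agent.Lib.MP_9dcace_rp.P3a
import Pool.Agent.Lib.MP_9dcace_rp.P4c
set_option autoImplicit false

/-! Row P4d (helper94). THEOREM 1 of section 1: in a good state there is always a step (minimal
separating triple). -/

open Classical

namespace Pool.RP
open Pool.SX Relation

namespace StP
variable {V A : Type} [Fintype V] [Fintype A] {P : StP V A} {W : Finset V} {m : ℕ} {c : ℕ → V}

/-- (P): planarity -/
theorem Ctr.face_on (C : P.Ctr W m c) (hG : P.Gd W) {f g : A} (hf : P.Pin W f) (hg : P.Pin W g)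
    (hfg : f ≠ g) {i j k : ℕ} (hik : i < k) (hkj : k < j) (hjm : j ≤ m) (hi : P.inc (c i) f)
    (hj : P.inc (c j) f) (hk : P.inc (c k) g) {q : V} (hq : P.S.Cont (P.st W) (Sum.inl q))
    (hqg : P.inc q g) : ∃ l, i ≤ l ∧ l ≤ j ∧ q = c l := by
  have h := Sph.Good.face_on P.S hG P.out (m := m) (c := fun k => Sum.inl (c k))
    (by rw [C.c0]) (by rw [C.cm]) C.nxt
    (fun i j hi hj h => C.inj i j hi hj (Sum.inl_injective h)) (i := i) (j := j) (by omega) hjm
    (P.st_inr.mpr hf) P.not_cont_inr (P.o_inc_iff.mp hi) (P.S.adj_symm (P.o_inc_iff.mp hj))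
    hik hkj (P.st_inr.mpr hg) P.not_cont_inr (fun e => hfg (Sum.inr_injective e).symm)
    (P.o_inc_iff.mp hk) hq (P.S.adj_symm (P.o_inc_iff.mp hqg))
  obtain ⟨l, h1, h2, h3⟩ := h
  exact ⟨l, h1, h2, Sum.inl_injective h3⟩

/-- a separating triple -/
def Sep (P : StP V A) (W : Finset V) (m : ℕ) (c : ℕ → V) (f : A) (i j : ℕ) : Prop :=
  P.Pin W f ∧ P.inc (c i) f ∧ P.inc (c j) f ∧ i < j ∧ j ≤ m ∧
    ∃ l, i ≤ l ∧ l < j ∧ ¬ P.T (c (l + 1)) (c l) f

/-- all contour edges in the base facet -/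
theorem Ctr.step_base (C : P.Ctr W m c) (hG : P.Gd W) {b : A} (hb : P.T (P.a 0) (P.a 1) b)
    (hpb : P.Pin W b) (hall : ∀ l, l < m → P.T (c (l + 1)) (c l) b) :
    ∃ Z, P.Step W Z ∧ P.Gd (W \ Z) := by
  have hm := C.m2
  refine C.chain_step hG (s := 0) (t := m) (by omega) le_rfl hpb (fun l _ h => hall l h) ?_
  intro w hw _
  refine P.o_closed (fun w => ∃ l, 0 ≤ l ∧ l ≤ m ∧ w = c l) (P.o_inc hb).1 hw
    ⟨0, le_rfl, by omega, C.c0.symm⟩ ?_
  rintro x y hT ⟨l, _, hl, rfl⟩
  by_cases h0 : l = 0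
  · rw [h0, C.c0] at hT
    exact ⟨m, by omega, le_rfl, by rw [C.cm]; exact P.o_nxu hT hb⟩
  · have h1 := hall (l - 1) (by omega)
    have e2 : l - 1 + 1 = l := by omega
    rw [e2] at h1
    exact ⟨l - 1, by omega, by omega, P.o_nxu hT h1⟩

/-- (a): some vertex strictly between has a neighbour outside -/
theorem Ctr.sep_up (C : P.Ctr W m c) (hG : P.Gd W) {f : A} {i j : ℕ} (h : Sep P W m c f i j) :
    ∃ s, i < s ∧ s < j ∧ ∃ u : V, u ∉ W ∧ P.S.Adj (Sum.inl (c s)) (Sum.inl u) := by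
  obtain ⟨hpf, hif, hjf, hij, hjm, l0, hl0, hl0', hl0n⟩ := h
  by_contra hno
  obtain ⟨h, hh, hnh⟩ := C.left hG (show i < m by omega)
  have hall : ∀ l, i ≤ l → l < j → P.T (c l) (c (l + 1)) h := by
    intro l hl
    induction l, hl using Nat.le_induction with
    | base => exact fun _ => hh
    | succ l hl ih =>
      intro hlj
      obtain ⟨h', hh', hnh'⟩ := C.left hG (show l + 1 < m by omega)
      by_cases hne : h = h'
      · rw [hne]
        exact hh'
      · exfalso
        apply hno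
        refine ⟨l + 1, by omega, hlj, C.up hG (by omega) (by omega) (h := h) (h' := h') ?_ hh' hnh'
          hne⟩
        exact ih (by omega)
  have hjh : P.inc (c j) h := by
    have h1 := (P.o_inc (hall (j - 1) (by omega) (by omega))).2
    have e2 : j - 1 + 1 = j := by omega
    rwa [e2] at h1
  have hfh : f ≠ h := fun e => hnh (by rw [← e]; exact hpf)
  rcases P.o_E hfh (C.ne (by omega) hjm (by omega)) hif hjf (P.o_inc hh).1 hjh with
    ⟨h1, h2⟩ | ⟨h1, h2⟩
  · apply hnh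
    intro v hv
    have hQ := P.o_closed (fun w => ∃ l, i ≤ l ∧ l ≤ j ∧ w = c l) (P.o_inc hh).1 hv
      ⟨i, le_rfl, hij.le, rfl⟩ (by
        rintro x y hT ⟨l, h3, h4, rfl⟩
        by_cases hlj : l = j
        · rw [hlj] at hT
          exact ⟨i, le_rfl, hij.le, P.o_nxu hT h2⟩
        · exact ⟨l + 1, by omega, by omega, P.o_nxu hT (hall l h3 (by omega))⟩)
    obtain ⟨l, _, h4, rfl⟩ := hQ
    exact C.mem (by omega)
  · have e := P.o_nxu h1 hh
    have e2 := C.inj j (i + 1) hjm (by omega) e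
    have e3 : l0 = i := by omega
    rw [e2] at h2
    rw [e3] at hl0n
    exact hl0n h2

/-- the facets at a vertex strictly inside a minimal separating triple meet the contour in intervals -/
theorem Ctr.sep_int (C : P.Ctr W m c) (hG : P.Gd W) {f : A} {i j : ℕ} (h : Sep P W m c f i j)
    (hmin : ∀ f' i' j', Sep P W m c f' i' j' → j - i ≤ j' - i') {s : ℕ} (his : i < s)
    (hsj : s < j) {g : A} (hpg : P.Pin W g) (hsg : P.inc (c s) g) {w : V} (hw : P.inc w g)
    (hcw : P.S.Cont (P.st W) (Sum.inl w)) : ∃ t, i ≤ t ∧ t ≤ j ∧ w = c t ∧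
      (∀ l, s ≤ l → l < t → P.T (c (l + 1)) (c l) g) ∧
      (∀ l, t ≤ l → l < s → P.T (c (l + 1)) (c l) g) := by
  obtain ⟨hpf, hif, hjf, hij, hjm, l0, hl0, hl0', hl0n⟩ := h
  have hns : ¬ P.inc (c s) f := by
    intro hcs
    by_cases hls : l0 < s
    · have := hmin f i s ⟨hpf, hif, hcs, his, by omega, l0, hl0, hls, hl0n⟩
      omega
    · have := hmin f s j ⟨hpf, hcs, hjf, hsj, hjm, l0, by omega, hl0', hl0n⟩
      omega
  have hfg : f ≠ g := fun e => hns (by rw [e]; exact hsg)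
  obtain ⟨t, h1, h2, h3⟩ := C.face_on hG hpf hpg hfg his hsj hjm hif hjf hsg hcw hw
  rw [h3] at hw
  refine ⟨t, h1, h2, h3, ?_, ?_⟩
  · intro l h4 h5
    by_contra hn
    have := hmin g s t ⟨hpg, hsg, hw, by omega, by omega, l, h4, h5, hn⟩
    omega
  · intro l h4 h5
    by_contra hn
    have := hmin g t s ⟨hpg, hw, hsg, by omega, by omega, l, h4, h5, hn⟩
    omega

/-- (b): a chain -/
theorem Ctr.sep_chain (C : P.Ctr W m c) (hG : P.Gd W) {f : A} {i j : ℕ} (h : Sep P W m c f i j)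
    (hmin : ∀ f' i' j', Sep P W m c f' i' j' → j - i ≤ j' - i') {t : ℕ} (hit : i < t)
    (htj : t < j) {g : A} (hpg : P.Pin W g) (h1 : P.T (c (t + 1)) (c t) g)
    (h2 : P.T (c t) (c (t - 1)) g) : ∃ Z, P.Step W Z ∧ P.Gd (W \ Z) := by
  have hjm : j ≤ m := h.2.2.2.2.1
  have htg : P.inc (c t) g := (P.o_inc h1).2
  have hex : ∃ l, i ≤ l ∧ P.inc (c l) g := ⟨t, by omega, htg⟩
  set s := Nat.find hex with hs
  have hs1 : i ≤ s ∧ P.inc (c s) g := Nat.find_spec hex
  have hs2 : s ≤ t - 1 := Nat.find_min' hex ⟨by omega, (P.o_inc h2).2⟩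
  set r := Nat.findGreatest (fun l => P.inc (c l) g) j with hr
  have hr1 : t + 1 ≤ r := Nat.le_findGreatest (by omega) (P.o_inc h1).1
  have hr2 : r ≤ j := Nat.findGreatest_le j
  have hr3 : P.inc (c r) g :=
    Nat.findGreatest_spec (P := fun l => P.inc (c l) g) (show t + 1 ≤ j by omega) (P.o_inc h1).1
  have int := fun {w : V} => C.sep_int hG h hmin hit htj hpg htg (w := w)
  refine C.chain_step hG (s := s) (t := r) (by omega) (by omega) hpg ?_ ?_
  · intro l hl hlr
    by_cases hlt : l < t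
    · obtain ⟨t', h3, h4, h5, _, h7⟩ := int hs1.2 (C.cont (by omega))
      have e := C.inj s t' (by omega) (by omega) h5
      exact h7 l (by omega) hlt
    · obtain ⟨t', h3, h4, h5, h6, _⟩ := int hr3 (C.cont (by omega))
      have e := C.inj r t' (by omega) (by omega) h5
      exact h6 l (by omega) (by omega)
  · intro w hw hcw
    obtain ⟨t', h3, h4, h5, _, _⟩ := int hw hcw
    rw [h5] at hw
    exact ⟨t', Nat.find_min' hex ⟨h3, hw⟩, Nat.le_findGreatest h4 hw, h5⟩

/-- (c): one vertex -/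
theorem Ctr.sep_one (C : P.Ctr W m c) (hG : P.Gd W) {f : A} {i j : ℕ} (h : Sep P W m c f i j)
    (hmin : ∀ f' i' j', Sep P W m c f' i' j' → j - i ≤ j' - i')
    (hno : ∀ t g, i < t → t < j → P.Pin W g → P.T (c (t + 1)) (c t) g →
      P.T (c t) (c (t - 1)) g → False) : ∃ Z, P.Step W Z ∧ P.Gd (W \ Z) := by
  have ha2 := P.Gd_a2 hG
  have hjm : j ≤ m := h.2.2.2.2.1
  obtain ⟨s, his, hsj, u, huW, hadju⟩ := C.sep_up hG h
  have e2 : s - 1 + 1 = s := by omega
  have hsa : ∀ k, c s ≠ P.a k := by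
    have hk : ∀ k : Fin 3, k = 0 ∨ k = 1 ∨ k = 2 := by decide
    intro k
    rcases hk k with rfl | rfl | rfl
    · rw [← C.c0]
      exact C.ne (by omega) (by omega) (by omega)
    · rw [← C.cm]
      exact C.ne (by omega) le_rfl (by omega)
    · intro hh
      apply ha2
      rw [← hh]
      exact C.mem (by omega)
  have key : ∀ g, P.Pin W g → P.inc (c s) g → ∀ w, P.inc w g → P.S.Cont (P.st W) (Sum.inl w) →
      w = c s ∨ (w = c (s + 1) ∧ P.T (c (s + 1)) (c s) g) ∨
        (w = c (s - 1) ∧ P.T (c s) (c (s - 1)) g) := by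
    intro g hpg hsg w hw hcw
    obtain ⟨t, h1, h2, h3, h4, h5⟩ := C.sep_int hG h hmin his hsj hpg hsg hw hcw
    rcases Nat.lt_trichotomy t s with hts | hts | hts
    · right
      right
      have hA := h5 (s - 1) (by omega) (by omega)
      rw [e2] at hA
      by_cases ht : t = s - 1
      · exact ⟨by rw [h3, ht], hA⟩
      · exfalso
        have hB := h5 (s - 2) (by omega) (by omega)
        have e3 : s - 2 + 1 = s - 1 := by omega
        have e4 : s - 1 - 1 = s - 2 := by omega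
        rw [e3] at hB
        refine hno (s - 1) g (by omega) (by omega) hpg ?_ ?_
        · rw [e2]
          exact hA
        · rw [e4]
          exact hB
    · left
      rw [h3, hts]
    · right
      left
      have hA := h4 s le_rfl hts
      by_cases ht : t = s + 1
      · exact ⟨by rw [h3, ht], hA⟩
      · exfalso
        have hB := h4 (s + 1) (by omega) (by omega)
        refine hno (s + 1) g (by omega) (by omega) hpg hB ?_
        have e3 : s + 1 - 1 = s := by omega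
        rw [e3]
        exact hA
  obtain ⟨hl, hhl, hnl⟩ := C.left hG (show s < m by omega)
  obtain ⟨hl', hhl', hnl'⟩ := C.left hG (show s - 1 < m by omega)
  rw [e2] at hhl'
  obtain ⟨f2, hf2, hpf2⟩ := C.right hG (show s < m by omega)
  obtain ⟨f1, hf1, hpf1⟩ := C.right hG (show s - 1 < m by omega)
  rw [e2] at hf1
  have hsm : s ≤ m := by omega
  have hcs : P.S.Cont (P.st W) (Sum.inl (c s)) := C.cont hsm
  have hrem : P.S.Remov (P.st W) (Sum.inl (c s)) := by
    refine ⟨hcs, ?_⟩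
    intro y hy hadj
    obtain ⟨w, rfl⟩ := P.cont_inl hy
    have hwW : w ∈ W := P.st_inl.mp hy.1
    rcases P.o_adj_iff.mp hadj with ⟨f', hf'⟩ | ⟨k, hk, _⟩
    · rcases P.o_other hf' with ⟨f'', hf''⟩ | ⟨k, hk, _⟩
      · by_cases hpf' : P.Pin W f'
        · by_cases hpf'' : P.Pin W f''
          · exfalso
            rcases key f' hpf' (P.o_inc hf').1 w (P.o_inc hf').2 hy with h1 | ⟨h1, h2⟩ | ⟨h1, h2⟩
            · exact P.o_ne hf' h1.symm
            · rw [h1] at hf'
              exact P.o_rev hf' h2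
            · rw [h1] at hf''
              have := P.o_side hf'' hhl'
              rw [this] at hpf''
              exact hnl' hpf''
          · right
            exact P.nxt_mk hwW (C.mem hsm) hf'' hpf''
        · left
          exact P.nxt_mk (C.mem hsm) hwW hf' hpf'
      · exact absurd hk (hsa k)
    · exact absurd hk (hsa _)
  have hn1 := C.nxt s (by omega)
  have hn2 := C.nxt (s - 1) (by omega)
  rw [e2] at hn2
  have h0 : P.S.Good (Sum.inl (P.a 0)) (Sum.inl (P.a 1)) (Sum.inl (P.a 2))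
      ((P.st W).erase (Sum.inl (c s))) := by
    refine Sph.Good.erase P.S hG P.out hrem (fun hh => hsa 0 (Sum.inl_injective hh))
      (fun hh => hsa 1 (Sum.inl_injective hh)) ?_
    intro y y' h1 h2 h3
    have ey' : y' = Sum.inl (c (s + 1)) := hG.nxt_uniq P.S h1 hn1
    have ey : y = Sum.inl (c (s - 1)) := hG.prv_uniq P.S h3 hn2
    rw [ey, ey'] at h2
    by_cases hsm' : s + 1 < m
    · exfalso
      have h5 := C.nxt (s + 1) hsm'
      have := Sum.inl_injective (hG.nxt_uniq P.S h2 h5)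
      have := C.inj (s - 1) (s + 1 + 1) (by omega) (by omega) this
      omega
    · have e5 : s + 1 = m := by omega
      rw [e5, C.cm] at h2
      have := hG.nxt_uniq P.S h2 (hG.nxt_a1 P.S P.out)
      exact ⟨by rw [ey, this], by rw [ey', e5, C.cm]⟩
  refine ⟨{c s}, ⟨Finset.singleton_nonempty _, ?_, ?_, ?_, ?_, Or.inl ⟨c s, rfl, hrem, f1, f2, ?_,
    (P.o_inc hf1).1, (P.o_inc hf2).2, hpf1, hpf2⟩⟩, ?_⟩
  · intro z hz
    rw [Finset.mem_singleton.mp hz]
    exact C.mem hsm
  · intro hz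
    exact hsa 0 (Finset.mem_singleton.mp hz).symm
  · intro hz
    exact hsa 1 (Finset.mem_singleton.mp hz).symm
  · intro z hz
    rw [Finset.mem_singleton.mp hz]
    exact ⟨u, huW, hadju⟩
  · intro e
    rw [e] at hf1
    exact hno s f2 his hsj hpf2 hf2 hf1
  · refine P.star_Gd h0 ?_ ?_
    · intro g hsg hpg w hw hcw
      rcases key g hpg hsg w hw hcw with h1 | ⟨h1, h2⟩ | ⟨h1, h2⟩
      · exact Or.inl h1
      · rw [h1]
        exact Or.inr (Or.inr h2)
      · rw [h1]
        exact Or.inr (Or.inl h2)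
    · intro g hpg y y' h1 h2 h3 h4
      have hA : P.T (c s) (c (s - 1)) g := by
        rcases key g hpg (P.o_inc h1).1 y (P.o_inc h1).2 h3 with h5 | ⟨h5, h6⟩ | ⟨h5, h6⟩
        · exact absurd h5.symm (P.o_ne h1)
        · rw [h5] at h1
          exact absurd h6 (P.o_rev h1)
        · exact h6
      have hB : P.T (c (s + 1)) (c s) g := by
        rcases key g hpg (P.o_inc h1).1 y' (P.o_inc h2).1 h4 with h5 | ⟨h5, h6⟩ | ⟨h5, h6⟩
        · exact absurd h5 (P.o_ne h2)
        · exact h6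
        · rw [h5] at h2
          exact absurd h2 (P.o_rev h6)
      exact hno s g his hsj hpg hB hA

/-- THEOREM 1 -/
theorem exists_step (P : StP V A) (W : Finset V) (hG : P.Gd W)
    (hW : ∃ x ∈ W, x ≠ P.a 0 ∧ x ≠ P.a 1) : ∃ Z : Finset V, P.Step W Z ∧ P.Gd (W \ Z) := by
  obtain ⟨m, c, C⟩ := P.ex_Ctr hG hW
  have hm := C.m2
  obtain ⟨b, hb, hpb⟩ := C.base hG
  by_cases hall : ∀ l, l < m → P.T (c (l + 1)) (c l) b
  · exact C.step_base hG hb hpb hall
  · push Not at hall
    obtain ⟨l, hl, hnl⟩ := hall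
    have hb0 : P.inc (c 0) b := by
      rw [C.c0]
      exact (P.o_inc hb).1
    have hbm : P.inc (c m) b := by
      rw [C.cm]
      exact (P.o_inc hb).2
    have hex : ∃ d, ∃ f i j, Sep P W m c f i j ∧ j - i = d :=
      ⟨m - 0, b, 0, m, ⟨hpb, hb0, hbm, by omega, le_rfl, l, by omega, hl, hnl⟩, rfl⟩
    obtain ⟨f, i, j, hS, hd⟩ := Nat.find_spec hex
    have hmin : ∀ f' i' j', Sep P W m c f' i' j' → j - i ≤ j' - i' := by
      intro f' i' j' h'
      rw [hd]
      exact Nat.find_min' hex ⟨f', i', j', h', rfl⟩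
    by_cases hc : ∃ t g, i < t ∧ t < j ∧ P.Pin W g ∧ P.T (c (t + 1)) (c t) g ∧
        P.T (c t) (c (t - 1)) g
    · obtain ⟨t, g, h1, h2, h3, h4, h5⟩ := hc
      exact C.sep_chain hG hS hmin h1 h2 h3 h4 h5
    · exact C.sep_one hG hS hmin fun t g h1 h2 h3 h4 h5 => hc ⟨t, g, h1, h2, h3, h4, h5⟩

end StP
end Pool.RP
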