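import Pool.Agent.Lib.MP_9dcace_rp.Base
import Pool.Agent.Lib.MP_9dcace_sx.FDefs

/-!
Frozen definitions, part 2 : regions and the main induction (sections 4 and 5 of m3_REAL_h83.md).
-/

set_option autoImplicit false

open Classical

namespace Pool.RP

open Pool.SX

namespace SchP

variable {V F : Type} [Fintype V] [Fintype F] (s : SchP V F)

/-- the inner vertices -/
noncomputable def VI : Finset V := Finset.univ.filter (fun v => s.inn v)

/-- the symmetric weight function of the edge weights `wt c v` (edge `v → out c v`);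
a bidirected edge gets the sum of the weights of its two names -/
noncomputable def om (wt : Fin 3 → V → ℝ) (u v : V) : ℝ :=
  (∑ c, if s.inn u ∧ v = s.out c u then wt c u else 0) +
    ∑ c, if s.inn v ∧ u = s.out c v then wt c v else 0

/-- the energy -/
noncomputable def enw (wt : Fin 3 → V → ℝ) (x : V → ℝ) : ℝ :=
  ∑ c, ∑ v ∈ s.VI, wt c v * (x v - x (s.out c v)) ^ 2

/-- `p 0, p 1, p 2` are vertices of `f` with the labels `0, 1, 2` -/
def Tp (f : F) (p : Fin 3 → V) : Prop := ∀ j, s.L j f (p j)

end SchP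

namespace SchPS

variable {V F : Type} [Fintype V] [Fintype F] (s : SchPS V F)

/-- regular sets of faces -/
def Reg (R : Finset F) : Prop := ∀ (c : Fin 3) (v : V), s.inn v →
  (s.gL c v ∈ R → s.gR c v ∉ R →
    Disjoint (s.S (c + 1) v) R ∨ (s.monoL c v ∧ Disjoint (s.S c (s.out c v)) R)) ∧
  (s.gR c v ∈ R → s.gL c v ∉ R →
    Disjoint (s.S (c + 2) v) R ∨ (s.monoR c v ∧ Disjoint (s.S c (s.out c v)) R))

/-- vertices of the region -/
noncomputable def VR (R : Finset F) : Finset V := Finset.univ.filter (fun v => ∃ g ∈ R, s.Inc v g)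

/-- interior vertices of the region -/
noncomputable def IR (R : Finset F) : Finset V :=
  Finset.univ.filter (fun v => s.inn v ∧ ∀ g, s.Inc v g → g ∈ R)

/-- the edge `v → out c v` is interior to the region -/
def In (c : Fin 3) (v : V) (R : Finset F) : Prop := s.inn v ∧ s.gL c v ∈ R ∧ s.gR c v ∈ R

/-- the children -/
noncomputable def kid (k : Fin 3) (y : V) (R : Finset F) : Finset F := s.S k y ∩ R

/-- the vertices of the path `P_j(y)` -/
def lp (j : Fin 3) (y : V) (i : ℕ) : V := (s.out j)^[i] y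

/-- `y` is `j`-exceptional in `R` -/
def Exc (j : Fin 3) (y : V) (R : Finset F) : Prop :=
  s.inn y ∧ Disjoint (s.S j y) R ∧ s.out j y ∈ s.VR R ∧
    ∀ k, s.S k (s.out j y) ∩ R = s.S k y ∩ R

/-- admissible centres -/
def Adm (y : V) (R : Finset F) : Prop := y ∈ s.VR R ∧ ∀ j, ¬ s.Exc j y R

/-- the number of edges of the leg of colour `j` from `y` in the region `R`
(the set is not empty: row R2) -/
noncomputable def legN (j : Fin 3) (y : V) (R : Finset F) : ℕ :=
  sInf {m : ℕ | ¬ s.In j (s.lp j y m) R}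

/-- the index of the region of `z` containing `g` -/
noncomputable def ix (z : V) (g : F) : Fin 3 := (s.part z g).choose

/-- the colouring of the boundary of `R` by three faces -/
noncomputable def chi (R : Finset F) (g : Fin 3 → F) (z : V) : Fin 3 :=
  if h : ∃ k, Disjoint (s.S k z) R then s.ix z (g h.choose) else 0

/-- `N_R(p)`: sum over the triples of faces of `R` -/
noncomputable def NR (wt : Fin 3 → V → ℝ) (R : Finset F) (p : Fin 3 → V) : ℝ :=
  ∑ g ∈ Fintype.piFinset (fun _ : Fin 3 => R), ZF (s.om wt) (s.IR R) (s.chi R g) p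

/-- the induction statement (τ = scale, d = depth bound) -/
structure Good (R : Finset F) (τ : ℝ) (d : ℕ) (wt : Fin 3 → V → ℝ) : Prop where
  supp : ∀ c v, ¬ s.In c v R → wt c v = 0
  nn : ∀ c v, 0 ≤ wt c v
  lo : ∀ c v, s.In c v R → τ / 12 ^ d ≤ s.om wt v (s.out c v)
  hi : ∀ c v, s.In c v R → wt c v ≤ τ * (2 * Fintype.card F)
  ext : ∀ x : V → ℝ, (∀ v, 0 ≤ x v ∧ x v ≤ 1) → ∃ x' : V → ℝ, (∀ v, 0 ≤ x' v ∧ x' v ≤ 1) ∧
    (∀ v, v ∉ s.IR R → x' v = x v) ∧ s.enw wt x' ≤ 4 * τ
  bd : ∀ f ∈ R, ∀ p, s.Tp f p → (1 / 432 : ℝ) ^ d * DF (s.om wt) (s.IR R) ≤ s.NR wt R p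

/-- the faces of the child `k` on the far side of the end of the leg `j` -/
noncomputable def HH (R : Finset F) (y : V) (j k : Fin 3) : Finset F :=
  s.S j (s.lp j y (s.legN j y R)) ∩ s.kid k y R

/-- the faces of the child `k` which lie at the `i`-th edge of the leg `j` -/
noncomputable def CC (R : Finset F) (y : V) (j k : Fin 3) (i : ℕ) : Finset F :=
  s.S k (s.lp j y i) ∩ (s.S j (s.lp j y (i + 1)) ∩ s.kid k y R)

/-- the unnormalized measure on the edges of the leg `j` -/
noncomputable def rho0 (R : Finset F) (y : V) (j : Fin 3) (i : ℕ) : ℝ :=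
  (1 / 2) * (((s.CC R y j (j + 1) i).card : ℝ) / ((s.HH R y j (j + 1)).card : ℝ) +
    ((s.CC R y j (j + 2) i).card : ℝ) / ((s.HH R y j (j + 2)).card : ℝ))

/-- the measure on the edges of the leg `j` -/
noncomputable def rho (R : Finset F) (y : V) (j : Fin 3) (i : ℕ) : ℝ :=
  s.rho0 R y j i / ∑ i' ∈ Finset.range (s.legN j y R), s.rho0 R y j i'

/-- the weights of the region `R` with centre `y` built from the weights `wk k` of the children
(the reverse name of a leg edge gets the weight 0) -/
noncomputable def wtS (R : Finset F) (y : V) (τ : ℝ) (wk : Fin 3 → Fin 3 → V → ℝ)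
    (c : Fin 3) (v : V) : ℝ :=
  if h : ∃ i, i < s.legN c y R ∧ v = s.lp c y i then τ / s.rho R y c (Nat.find h)
  else ∑ k, wk k c v

/-- the tripod: interior vertices of `R` on the legs -/
noncomputable def TT (R : Finset F) (y : V) : Finset V :=
  (s.IR R).filter (fun v => ∃ j, s.Pth j y v)

/-- the product of the weights of a leg with one edge missing, without the factor `rho` -/
noncomputable def legw (R : Finset F) (y : V) (τ : ℝ) (j : Fin 3) : ℝ :=
  if s.legN j y R = 0 then 1
  else τ ^ (s.legN j y R - 1) / ∏ i ∈ Finset.range (s.legN j y R), s.rho R y j i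

/-- the total weight scale of the tripod -/
noncomputable def wT (R : Finset F) (y : V) (τ : ℝ) : ℝ :=
  (if y ∈ s.IR R then τ else 1) * ∏ j, s.legw R y τ j

end SchPS

end Pool.RP
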