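import Pool.Agent.Lib.MP_9dcace_rp.RDefs

/-!
The edges of a Schnyder structure with polygonal faces which are not outer edges.
-/

set_option autoImplicit false

open Classical

namespace Pool.RP.SchP

variable {V F : Type} [Fintype V] [Fintype F] (s : SchP V F)

/-- `u v` is an edge which is not an outer edge -/
def Edge (u v : V) : Prop := (∃ c, s.inn u ∧ v = s.out c u) ∨ (∃ c, s.inn v ∧ u = s.out c v)

end Pool.RP.SchP
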