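import Pool.Agent.Lib.MP_9dcace_rp.RDefs

/-!
ROW Ra (port of SX R1: regular sets of faces and walks around a vertex), blueprint m3_REAL_h83.md, sections 3 and 4.
* `Ra_rev_*` : reverse names of bidirected edges.
* `Reg_univ`, `Reg_inter`, `Reg_S`, `Reg_kid`, `walk_ccw`, `walk_cw`, `IR_of`, `meets_of_IR`, `In_of`, `not_In_of`, `In_IR`,
  `IR_sub_VR`, `VR_mono`, `IR_mono` as in SX.
* `In_of` has the additional hypothesis `¬ Exc j y R`.
-/

set_option autoImplicit false

open Classical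

namespace Pool.RP

open Pool.SX

private theorem Ra_21 (c : Fin 3) : c + 2 + 1 = c := by revert c; decide

private theorem Ra_12 (c : Fin 3) : c + 1 + 2 = c := by revert c; decide

private theorem Ra_11 (c : Fin 3) : c + 1 + 1 = c + 2 := by revert c; decide

private theorem Ra_22 (c : Fin 3) : c + 2 + 2 = c + 1 := by revert c; decide

private theorem Ra_ne1 (c : Fin 3) : c ≠ c + 1 := by revert c; decide

private theorem Ra_ne2 (c : Fin 3) : c ≠ c + 2 := by revert c; decide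

private theorem Ra_ne12 (c : Fin 3) : c + 2 ≠ c + 1 := by revert c; decide

private theorem Ra_cases (c k : Fin 3) : k = c ∨ k = c + 1 ∨ k = c + 1 + 1 := by
  revert c k
  decide

private theorem Ra_cases' (c k : Fin 3) : k = c ∨ k = c + 1 ∨ k = c + 2 := by
  revert c k
  decide

namespace SchP

variable {V F : Type} [Fintype V] [Fintype F] (s : SchP V F)

/-- the label of `out c v` on the left side -/
theorem Ra_labL {c : Fin 3} {v : V} (hv : s.inn v) :
    s.L c (s.gL c v) (s.out c v) ∨ s.monoL c v := by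
  have h := s.nxL (s.lL c v hv)
  rw [s.nL c v hv, Ra_21] at h
  exact h.symm

/-- a vertex of a face has a previous vertex -/
theorem Ra_prev {k : Fin 3} {g : F} {v : V} (h : s.L k g v) :
    ∃ (l : Fin 3) (w : V), s.L l g w ∧ s.nx g w = v := by
  have hit : ∀ (n : ℕ) (u : V) (m : Fin 3), s.L m g u → ∃ l, s.L l g ((s.nx g)^[n] u) := by
    intro n
    induction n with
    | zero => intro u m hu; exact ⟨m, hu⟩
    | succ n ih =>
      intro u m hu
      rw [Function.iterate_succ_apply]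
      rcases s.nxL hu with h1 | h1
      · exact ih _ _ h1
      · exact ih _ _ h1
  obtain ⟨m, hm⟩ : ∃ m, s.L m g (s.nx g v) := by
    rcases s.nxL h with h1 | h1
    · exact ⟨_, h1⟩
    · exact ⟨_, h1⟩
  obtain ⟨n, hn⟩ := s.cyc hm h
  obtain ⟨l, hl⟩ := hit n v k h
  refine ⟨l, _, hl, ?_⟩
  rw [← Function.iterate_succ_apply' (s.nx g) n v, Function.iterate_succ_apply]
  exact hn

/-- `gR` is determined by the previous vertex -/
theorem Ra_out_of_gR {c k : Fin 3} {g : F} {v w : V} (hw : s.inn w) (hg : g = s.gR c w)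
    (hv : s.L k g v) (hn : s.nx g v = w) : s.out c w = v := by
  obtain ⟨l, hl⟩ := s.iR c w hw
  subst hg
  exact s.nxinj hl hv (by rw [s.nR c w hw, hn])

theorem Ra_out_pot {c : Fin 3} {v : V} (hv : s.inn v) : s.r c v < s.r c (s.out c v) := by
  rcases s.lLR c v hv with h | h
  · exact s.pot h (s.lL c v hv) (Ra_ne2 c).symm
  · exact s.pot h (s.lR c v hv) (Ra_ne1 c).symm

/-- a mono-left edge: the reverse name -/
theorem Ra_monoL_rev {c : Fin 3} {v : V} (hv : s.inn v) (h : s.monoL c v) :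
    s.inn (s.out c v) ∧ s.out (c + 1) (s.out c v) = v ∧
      s.gR (c + 1) (s.out c v) = s.gL c v ∧ s.gL (c + 1) (s.out c v) = s.gR c v := by
  have hL := s.lL c v hv
  rcases s.edge hL with ⟨h1, -⟩ | ⟨-, -, h3, -, h5⟩
  · rw [s.nL c v hv, Ra_21] at h1
    exact absurd (s.Luniq h1 h) (Ra_ne2 c)
  · rw [s.nL c v hv] at h3 h5
    rw [Ra_22] at h5
    have h6 : s.out (c + 1) (s.out c v) = v :=
      s.Ra_out_of_gR h3 h5 hL (s.nL c v hv)
    refine ⟨h3, h6, h5.symm, ?_⟩
    obtain ⟨l, hl⟩ := s.iR c v hv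
    refine s.dart (s.lL (c + 1) (s.out c v) h3) hl ?_
    rw [s.nL (c + 1) _ h3, s.nR c v hv, h6]

/-- a mono-right edge: the reverse name -/
theorem Ra_monoR_rev {c : Fin 3} {v : V} (hv : s.inn v) (h : s.monoR c v) :
    s.inn (s.out c v) ∧ s.out (c + 2) (s.out c v) = v ∧
      s.gL (c + 2) (s.out c v) = s.gR c v ∧ s.gR (c + 2) (s.out c v) = s.gL c v := by
  have hR := s.lR c v hv
  rcases s.edge h with ⟨h1, -⟩ | ⟨-, h2, -, h4, -⟩
  · rw [s.nR c v hv] at h1
    exact absurd (s.Luniq h1 hR) (Ra_ne1 (c + 1)).symm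
  · rw [Ra_11] at h4
    have h6 : s.out (c + 2) (s.out c v) = v := by
      rw [← s.nL (c + 2) _ h2, ← h4, s.nR c v hv]
    refine ⟨h2, h6, h4.symm, ?_⟩
    obtain ⟨l, hl⟩ := s.iR (c + 2) _ h2
    rw [h6] at hl
    refine s.dart hl (s.lL c v hv) ?_
    have h7 := s.nR (c + 2) _ h2
    rw [h6] at h7
    rw [h7, s.nL c v hv]

/-- a reverse name of colour `c + 1` comes from a mono-left edge -/
theorem Ra_rev_monoL {c : Fin 3} {v w : V} (h : s.Rev c v (c + 1) w) : s.monoL c v := by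
  obtain ⟨hv, hw, h1, h2⟩ := h
  have h3 := s.nR (c + 1) w hw
  rw [← h2] at h3
  obtain ⟨l, hl⟩ := s.iR (c + 1) w hw
  rw [← h2] at hl
  have h4 : s.gR (c + 1) w = s.gL c v := by
    refine s.dart hl (s.lL c v hv) ?_
    rw [h3, s.nL c v hv, h1]
  have h5 := s.lR (c + 1) w hw
  rw [Ra_11, h4, h1] at h5
  exact h5

/-- a reverse name of colour `c + 2` comes from a mono-right edge -/
theorem Ra_rev_monoR {c : Fin 3} {v w : V} (h : s.Rev c v (c + 2) w) : s.monoR c v := by
  obtain ⟨hv, hw, h1, h2⟩ := h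
  have h3 := s.nR c v hv
  rw [← h1] at h3
  obtain ⟨l, hl⟩ := s.iR c v hv
  rw [← h1] at hl
  have h4 : s.gL (c + 2) w = s.gR c v := by
    refine s.dart (s.lL (c + 2) w hw) hl ?_
    rw [h3, s.nL (c + 2) w hw, h2]
  have h5 := s.lL (c + 2) w hw
  rw [Ra_22, h4, h1] at h5
  exact h5

theorem Ra_rev_ne {c c' : Fin 3} {v w : V} (h : s.Rev c v c' w) : c ≠ c' := by
  rintro rfl
  obtain ⟨hv, hw, h1, h2⟩ := h
  have h3 := s.Ra_out_pot (c := c) hv
  have h4 := s.Ra_out_pot (c := c) hw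
  rw [← h1] at h3
  rw [← h2] at h4
  exact lt_asymm h3 h4

theorem Ra_Pth_Le {c k : Fin 3} (hk : k ≠ c) {y v : V} (h : s.Pth c y v) : s.Le k v y := by
  induction h with
  | refl => exact Relation.ReflTransGen.refl
  | tail _ h2 ih =>
    exact Relation.ReflTransGen.head (Or.inr (Or.inl ⟨c, hk.symm, h2.1, h2.2⟩)) ih

theorem Ra_Pth_Le_self {c : Fin 3} {y v : V} (h : s.Pth c y v) : s.Le c y v := by
  induction h with
  | refl => exact Relation.ReflTransGen.refl
  | tail _ h2 ih =>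
    exact ih.tail (Or.inl ⟨h2.1, h2.2⟩)

end SchP

namespace SchPS

variable {V F : Type} [Fintype V] [Fintype F] (s : SchPS V F)

private theorem Ra_wf (φ : F → ℝ) : WellFounded (fun g' g => φ g' < φ g) := by
  have : IsTrans F (fun g' g => φ g' < φ g) := ⟨fun _ _ _ h1 h2 => lt_trans h1 h2⟩
  have : Std.Irrefl (fun g' g : F => φ g' < φ g) := ⟨fun _ => lt_irrefl _⟩
  exact Finite.wellFounded_of_trans_of_irrefl _

omit [Fintype F] in
private theorem Ra_disj {A B R : Finset F} (h : A ⊆ B) (hA : ¬ Disjoint A R) : ¬ Disjoint B R :=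
  fun hB => hA (hB.mono_left h)

/-- along an edge `w → y` of colour `j` the other regions decrease -/
theorem Ra_sub {j c : Fin 3} (hj : j ≠ c) {w y : V} (hw : s.inn w) (h : s.out j w = y) :
    s.S c y ⊆ s.S c w :=
  s.mono c y w (Relation.ReflTransGen.single (Or.inr (Or.inl ⟨j, hj, hw, h.symm⟩)))

/-- along an edge `v → out c v` the region of index `c` increases -/
theorem Ra_sub' {c : Fin 3} {v : V} (hv : s.inn v) : s.S c v ⊆ s.S c (s.out c v) :=
  s.mono c v _ (Relation.ReflTransGen.single (Or.inl ⟨hv, rfl⟩))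

/-- third region along a mono-left edge -/
theorem Ra_monoL_S {c : Fin 3} {v : V} (hv : s.inn v) (h : s.monoL c v) :
    s.S (c + 2) (s.out c v) = s.S (c + 2) v := by
  obtain ⟨h1, h2, -, -⟩ := s.Ra_monoL_rev hv h
  refine Finset.Subset.antisymm (s.Ra_sub (Ra_ne2 c) hv rfl) ?_
  exact s.Ra_sub (Ra_ne12 c).symm h1 h2

/-- third region along a mono-right edge -/
theorem Ra_monoR_S {c : Fin 3} {v : V} (hv : s.inn v) (h : s.monoR c v) :
    s.S (c + 1) (s.out c v) = s.S (c + 1) v := by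
  obtain ⟨h1, h2, -, -⟩ := s.Ra_monoR_rev hv h
  refine Finset.Subset.antisymm (s.Ra_sub (Ra_ne1 c) hv rfl) ?_
  exact s.Ra_sub (Ra_ne12 c) h1 h2

private theorem Ra_inn {R : Finset F} {y : V} {j k : Fin 3} (hjk : j ≠ k)
    (h1 : ¬ Disjoint (s.S j y) R) (h2 : ¬ Disjoint (s.S k y) R) : s.inn y := by
  intro l hl
  subst hl
  by_cases h : l = j
  · subst h
    rw [s.outer1 k l hjk] at h2
    exact h2 (Finset.disjoint_empty_left _)
  · rw [s.outer1 j l h] at h1
    exact h1 (Finset.disjoint_empty_left _)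

theorem Reg_univ : s.Reg Finset.univ := by
  intro c v _
  exact ⟨fun _ h => absurd (Finset.mem_univ _) h, fun _ h => absurd (Finset.mem_univ _) h⟩

theorem Reg_inter {R R' : Finset F} (h : s.Reg R) (h' : s.Reg R') : s.Reg (R ∩ R') := by
  intro c v hv
  refine ⟨fun h1 h2 => ?_, fun h1 h2 => ?_⟩
  · rw [Finset.mem_inter] at h1 h2
    by_cases h3 : s.gR c v ∈ R
    · rcases (h' c v hv).1 h1.2 fun h4 => h2 ⟨h3, h4⟩ with h5 | ⟨h5, h6⟩
      · exact Or.inl (h5.mono_right Finset.inter_subset_right)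
      · exact Or.inr ⟨h5, h6.mono_right Finset.inter_subset_right⟩
    · rcases (h c v hv).1 h1.1 h3 with h5 | ⟨h5, h6⟩
      · exact Or.inl (h5.mono_right Finset.inter_subset_left)
      · exact Or.inr ⟨h5, h6.mono_right Finset.inter_subset_left⟩
  · rw [Finset.mem_inter] at h1 h2
    by_cases h3 : s.gL c v ∈ R
    · rcases (h' c v hv).2 h1.2 fun h4 => h2 ⟨h3, h4⟩ with h5 | ⟨h5, h6⟩
      · exact Or.inl (h5.mono_right Finset.inter_subset_right)
      · exact Or.inr ⟨h5, h6.mono_right Finset.inter_subset_right⟩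
    · rcases (h c v hv).2 h1.1 h3 with h5 | ⟨h5, h6⟩
      · exact Or.inl (h5.mono_right Finset.inter_subset_left)
      · exact Or.inr ⟨h5, h6.mono_right Finset.inter_subset_left⟩

/-- regions of different index are disjoint -/
theorem Ra_part (y : V) {i k : Fin 3} (h : k ≠ i) : Disjoint (s.S k y) (s.S i y) := by
  rw [Finset.disjoint_left]
  intro g h1 h2
  obtain ⟨l, -, hl⟩ := s.part y g
  exact h ((hl k h1).trans (hl i h2).symm)

theorem Reg_S (i : Fin 3) (y : V) : s.Reg (s.S i y) := by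
  intro c v hv
  have hcase : ∀ i c : Fin 3, c ≠ i + 2 → c = i ∨ c = i + 1 := by decide
  have hcase' : ∀ i c : Fin 3, c ≠ i + 1 → c = i ∨ c = i + 2 := by decide
  refine ⟨fun h1 h2 => ?_, fun h1 h2 => ?_⟩
  · rcases s.crossL i c y v hv h1 h2 with ⟨h3, h4⟩ | ⟨u, h3, h4⟩
    · left
      rw [h3, Ra_11]
      have h5 := s.toSchP.Ra_Pth_Le (Ra_ne12 i) h4
      exact (s.Ra_part y (Ra_ne2 i).symm).mono_left (s.mono _ _ _ h5)
    · rcases hcase i c (s.Ra_rev_ne h3) with rfl | rfl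
      · left
        have h6 : s.Pth (c + 2) y v := h4.tail ⟨h3.2.1, h3.2.2.2⟩
        have h5 := s.toSchP.Ra_Pth_Le (Ra_ne12 c).symm h6
        exact (s.Ra_part y (Ra_ne1 c).symm).mono_left (s.mono _ _ _ h5)
      · right
        have h3' := h3
        rw [← Ra_11] at h3'
        refine ⟨s.Ra_rev_monoL h3', ?_⟩
        rw [← h3.2.2.1]
        have h5 := s.toSchP.Ra_Pth_Le (Ra_ne12 i).symm h4
        exact (s.Ra_part y (Ra_ne1 i).symm).mono_left (s.mono _ _ _ h5)
  · rcases s.crossR i c y v hv h1 h2 with ⟨h3, h4⟩ | ⟨u, h3, h4⟩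
    · left
      rw [h3, Ra_22]
      have h5 := s.toSchP.Ra_Pth_Le (Ra_ne12 i).symm h4
      exact (s.Ra_part y (Ra_ne1 i).symm).mono_left (s.mono _ _ _ h5)
    · rcases hcase' i c (s.Ra_rev_ne h3) with rfl | rfl
      · left
        have h6 : s.Pth (c + 1) y v := h4.tail ⟨h3.2.1, h3.2.2.2⟩
        have h5 := s.toSchP.Ra_Pth_Le (Ra_ne12 c) h6
        exact (s.Ra_part y (Ra_ne2 c).symm).mono_left (s.mono _ _ _ h5)
      · right
        have h3' := h3
        rw [← Ra_22] at h3'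
        refine ⟨s.Ra_rev_monoR h3', ?_⟩
        rw [← h3.2.2.1]
        have h5 := s.toSchP.Ra_Pth_Le (Ra_ne12 i) h4
        exact (s.Ra_part y (Ra_ne2 i).symm).mono_left (s.mono _ _ _ h5)

theorem Reg_kid {R : Finset F} (h : s.Reg R) (k : Fin 3) (y : V) : s.Reg (s.kid k y R) :=
  s.Reg_inter (s.Reg_S k y) h

theorem walk_ccw {R : Finset F} (h : s.Reg R) {y : V} (hy : s.inn y) {c : Fin 3} {g : F}
    (hg : g ∈ R) (hgy : s.L c g y) (hS : ¬ Disjoint (s.S (c + 1) y) R) :
    s.gR (c + 2) y ∈ R := by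
  induction g using (Ra_wf fun g => s.r (c + 1) (s.t (c + 1) g)).induction with
  | _ g ih =>
  obtain ⟨l, w, hlw, hnw⟩ := s.Ra_prev hgy
  rcases s.edge hlw with ⟨h1, h2⟩ | ⟨h1, h2, h3, h4, h5⟩
  · rw [hnw] at h1
    have hl : l = c + 2 := by
      have h3 := s.Luniq h1 hgy
      rw [← h3, Ra_12]
    subst hl
    rcases h2 with ⟨h3, h4⟩ | ⟨h3, h4⟩ | ⟨h3, h4⟩
    · exfalso
      have h5 := s.on (c + 2)
      rw [Ra_21, ← h3, ← h4, hnw] at h5
      exact hy c h5
    · rw [Ra_21] at h4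
      have hwi : s.inn w := h3
      have h5 : s.out c w = y := by rw [← s.nL c w hwi, ← h4, hnw]
      have h6 : s.gR c w ∈ R := by
        by_contra h7
        rcases (h c w hwi).1 (h4 ▸ hg) h7 with h8 | ⟨h8, -⟩
        · exact Ra_disj (s.Ra_sub (Ra_ne1 c) hwi h5) hS h8
        · unfold SchP.monoL at h8
          rw [h5, ← h4] at h8
          exact Ra_ne2 c (s.Luniq hgy h8)
      by_cases hm : s.monoR c w
      · obtain ⟨-, -, -, h9⟩ := s.Ra_monoR_rev hwi hm
        rw [h5] at h9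
        rw [h9, ← h4]
        exact hg
      · have h7 : s.L c (s.gR c w) y := by
          obtain ⟨l, hl⟩ := s.iR c w hwi
          have h8 := s.nxL hl
          rw [s.nR c w hwi] at h8
          rw [h5] at hl
          rcases h8 with h8 | h8
          · have h9 := s.Luniq h8 (s.lR c w hwi)
            subst h9
            exact absurd (by unfold SchP.monoR; rw [h5]; exact hl) hm
          · have h9 := s.Luniq h8 (s.lR c w hwi)
            have h10 : l = c := by
              have : ∀ l c : Fin 3, l + 1 = c + 1 → l = c := by decide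
              exact this l c h9
            rw [← h10]
            exact h10 ▸ hl
        refine ih (s.gR c w) ?_ h6 h7
        have h8 : s.r (c + 1) (s.t (c + 1) (s.gR c w)) = s.r (c + 1) w :=
          s.potE (s.lR c w hwi) (s.tL (c + 1) _)
        show s.r (c + 1) (s.t (c + 1) (s.gR c w)) < s.r (c + 1) (s.t (c + 1) g)
        rw [h8]
        exact s.pot (s.tL (c + 1) g) hlw (Ra_ne12 c)
    · rw [hnw] at h4
      rw [← h4]
      exact hg
  · rw [hnw] at h1 h5
    have hl := s.Luniq h1 hgy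
    rw [← hl, ← h5]
    exact hg

theorem walk_cw {R : Finset F} (h : s.Reg R) {y : V} (hy : s.inn y) {c : Fin 3} {g : F}
    (hg : g ∈ R) (hgy : s.L c g y) (hS : ¬ Disjoint (s.S (c + 2) y) R) :
    s.gL (c + 1) y ∈ R := by
  induction g using (Ra_wf fun g => s.r (c + 2) (s.t (c + 2) g)).induction with
  | _ g ih =>
  rcases s.edge hgy with ⟨h1, h2⟩ | ⟨h1, h2, h3, h4, h5⟩
  · rcases h2 with ⟨h3, h4⟩ | ⟨h3, h4⟩ | ⟨h3, h4⟩
    · exact absurd h4 (hy c)
    · rw [← h4]
      exact hg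
    · obtain ⟨w, hw⟩ : ∃ w, w = s.nx g y := ⟨_, rfl⟩
      rw [← hw] at h1 h3 h4
      have hwi : s.inn w := h3
      have h5 : s.out c w = y := s.Ra_out_of_gR hwi h4 hgy hw.symm
      have h6 : s.gL c w ∈ R := by
        by_contra h7
        rcases (h c w hwi).2 (h4 ▸ hg) h7 with h8 | ⟨h8, -⟩
        · exact Ra_disj (s.Ra_sub (Ra_ne2 c) hwi h5) hS h8
        · unfold SchP.monoR at h8
          rw [h5, ← h4] at h8
          exact Ra_ne1 c (s.Luniq hgy h8)
      by_cases hm : s.monoL c w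
      · obtain ⟨-, -, -, h9⟩ := s.Ra_monoL_rev hwi hm
        rw [h5] at h9
        rw [h9, ← h4]
        exact hg
      · have h7 : s.L c (s.gL c w) y := by
          rcases s.Ra_labL hwi with h8 | h8
          · rwa [h5] at h8
          · exact absurd h8 hm
        refine ih (s.gL c w) ?_ h6 h7
        have h8 : s.r (c + 2) (s.t (c + 2) (s.gL c w)) = s.r (c + 2) w :=
          s.potE (s.lL c w hwi) (s.tL (c + 2) _)
        show s.r (c + 2) (s.t (c + 2) (s.gL c w)) < s.r (c + 2) (s.t (c + 2) g)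
        rw [h8]
        exact s.pot (s.tL (c + 2) g) h1 (Ra_ne12 c).symm
  · rw [← h4]
    exact hg

/-- every face with label `c` at `z` is in `R` -/
private theorem Ra_fan {R : Finset F} (h : s.Reg R) {z : V} (hz : s.inn z)
    (hS : ∀ k, ¬ Disjoint (s.S k z) R) {c : Fin 3} (hc : s.gL (c + 1) z ∈ R) (g : F)
    (hg : s.L c g z) : g ∈ R := by
  induction g using (Ra_wf fun g => s.r (c + 2) (s.t (c + 2) g)).induction with
  | _ g ih =>
  rcases s.edge hg with ⟨h1, h2⟩ | ⟨h1, h2, h3, h4, h5⟩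
  · rcases h2 with ⟨h3, h4⟩ | ⟨h3, h4⟩ | ⟨h3, h4⟩
    · exact absurd h4 (hz c)
    · rw [h4]
      exact hc
    · obtain ⟨w, hw⟩ : ∃ w, w = s.nx g z := ⟨_, rfl⟩
      rw [← hw] at h1 h3 h4
      have hwi : s.inn w := h3
      have h5 : s.out c w = z := s.Ra_out_of_gR hwi h4 hg hw.symm
      by_cases hm : s.monoL c w
      · obtain ⟨-, -, -, h9⟩ := s.Ra_monoL_rev hwi hm
        rw [h5] at h9
        rw [h4, ← h9]
        exact hc
      · have h7 : s.L c (s.gL c w) z := by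
          rcases s.Ra_labL hwi with h8 | h8
          · rwa [h5] at h8
          · exact absurd h8 hm
        have h6 : s.gL c w ∈ R := by
          refine ih (s.gL c w) ?_ h7
          have h8 : s.r (c + 2) (s.t (c + 2) (s.gL c w)) = s.r (c + 2) w :=
            s.potE (s.lL c w hwi) (s.tL (c + 2) _)
          show s.r (c + 2) (s.t (c + 2) (s.gL c w)) < s.r (c + 2) (s.t (c + 2) g)
          rw [h8]
          exact s.pot (s.tL (c + 2) g) h1 (Ra_ne12 c).symm
        by_contra h8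
        rw [h4] at h8
        rcases (h c w hwi).1 h6 h8 with h9 | ⟨h9, -⟩
        · exact Ra_disj (s.Ra_sub (Ra_ne1 c) hwi h5) (hS (c + 1)) h9
        · exact hm h9
  · rw [h4]
    exact hc

private theorem Ra_all (P : Fin 3 → Prop) {c : Fin 3} (hc : P c) (h : ∀ c, P c → P (c + 1))
    (k : Fin 3) : P k := by
  have h1 := h _ hc
  have h2 := h _ h1
  rcases Ra_cases c k with rfl | rfl | rfl
  · exact hc
  · exact h1
  · exact h2

theorem IR_of {R : Finset F} (h : s.Reg R) {z : V} (hz : z ∈ s.VR R)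
    (hS : ∀ k, ¬ Disjoint (s.S k z) R) : z ∈ s.IR R := by
  have hi : s.inn z := s.Ra_inn (j := 0) (k := 1) (by decide) (hS 0) (hS 1)
  obtain ⟨g0, hg0, c0, hc0⟩ := (Finset.mem_filter.1 hz).2
  have hA : ∀ k, ∃ g ∈ R, s.L k g z := by
    refine Ra_all (fun k => ∃ g ∈ R, s.L k g z) ⟨g0, hg0, hc0⟩ ?_
    rintro c ⟨g, hg, hgz⟩
    have h1 := s.walk_ccw h hi hg hgz (hS (c + 1))
    have h2 : s.gL (c + 2) z ∈ R := by
      by_contra h3
      rcases (h (c + 2) z hi).2 h1 h3 with h4 | ⟨-, h4⟩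
      · exact hS _ h4
      · exact hS (c + 2) (h4.mono_left (s.Ra_sub' hi))
    refine ⟨_, h2, ?_⟩
    have h4 := s.lL (c + 2) z hi
    rwa [Ra_22] at h4
  refine Finset.mem_filter.2 ⟨Finset.mem_univ _, hi, ?_⟩
  rintro g ⟨c, hgc⟩
  obtain ⟨g1, hg1, hg1z⟩ := hA c
  exact s.Ra_fan h hi hS (s.walk_cw h hi hg1 hg1z (hS (c + 2))) g hgc

theorem meets_of_IR {R : Finset F} {z : V} (hz : z ∈ s.IR R) (k : Fin 3) :
    ¬ Disjoint (s.S k z) R := by
  obtain ⟨hi, hR⟩ := (Finset.mem_filter.1 hz).2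
  have h1 := s.lL (k + 1) z hi
  rw [Ra_12] at h1
  have h2 := s.self h1
  rw [Finset.not_disjoint_iff]
  exact ⟨_, h2, hR _ ⟨k, h1⟩⟩

theorem In_IR {R : Finset F} {z : V} (hz : z ∈ s.IR R) (j : Fin 3) : s.In j z R := by
  obtain ⟨hi, hR⟩ := (Finset.mem_filter.1 hz).2
  exact ⟨hi, hR _ ⟨_, s.lL j z hi⟩, hR _ ⟨_, s.lR j z hi⟩⟩

/-- third index: if the region of index `j` misses `R` for two vertices and the regions of one more
index agree then all three agree inside `R` -/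
private theorem Ra_three {R : Finset F} {j k l : Fin 3} (hjk : j ≠ k) (hjl : j ≠ l) (hkl : k ≠ l)
    {y w : V} (h1 : Disjoint (s.S j y) R) (h2 : Disjoint (s.S j w) R) (h3 : s.S k w = s.S k y)
    (i : Fin 3) : s.S i w ∩ R = s.S i y ∩ R := by
  have hall : ∀ i j k l : Fin 3, j ≠ k → j ≠ l → k ≠ l → i = j ∨ i = k ∨ i = l := by decide
  rcases hall i j k l hjk hjl hkl with rfl | rfl | rfl
  · rw [Finset.disjoint_iff_inter_eq_empty.1 h1, Finset.disjoint_iff_inter_eq_empty.1 h2]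
  · rw [h3]
  · have key : ∀ (u u' : V), Disjoint (s.S j u') R → s.S k u' = s.S k u →
        s.S i u ∩ R ⊆ s.S i u' ∩ R := by
      intro u u' ha hb g hg
      obtain ⟨hg1, hg2⟩ := Finset.mem_inter.1 hg
      refine Finset.mem_inter.2 ⟨?_, hg2⟩
      obtain ⟨m, hm, -⟩ := s.part u' g
      rcases hall m j k i hjk hjl hkl with rfl | rfl | rfl
      · exact absurd hg2 (Finset.disjoint_left.1 ha hm)
      · rw [hb] at hm
        exact absurd ((s.part u g).unique hm hg1) hkl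
      · exact hm
    exact Finset.Subset.antisymm (key w y h1 h3.symm) (key y w h2 h3)

theorem In_or_Exc {R : Finset F} (h : s.Reg R) {y : V} (hy : y ∈ s.VR R) {j : Fin 3}
    (h1 : ¬ Disjoint (s.S (j + 1) y) R) (h2 : ¬ Disjoint (s.S (j + 2) y) R) :
    s.In j y R ∨ s.Exc j y R := by
  have hi : s.inn y := s.Ra_inn (Ra_ne12 j).symm h1 h2
  obtain ⟨g0, hg0, c0, hc0⟩ := (Finset.mem_filter.1 hy).2
  rcases Ra_cases' j c0 with rfl | rfl | rfl
  · left
    refine s.In_IR (s.IR_of h hy ?_) _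
    have h3 : ¬ Disjoint (s.S c0 y) R :=
      Finset.not_disjoint_iff.2 ⟨g0, s.self hc0, hg0⟩
    intro k
    rcases Ra_cases' c0 k with rfl | rfl | rfl
    · exact h3
    · exact h1
    · exact h2
  · have h3 := s.walk_ccw h hi hg0 hc0 (by rw [Ra_11]; exact h2)
    rw [Ra_12] at h3
    by_cases h4 : s.gL j y ∈ R
    · exact Or.inl ⟨hi, h4, h3⟩
    · rcases (h j y hi).2 h3 h4 with h5 | ⟨h5, h6⟩
      · exact absurd h5 h2
      · right
        have h7 : Disjoint (s.S j y) R := h6.mono_left (s.Ra_sub' hi)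
        refine ⟨hi, h7, ?_, ?_⟩
        · exact Finset.mem_filter.2 ⟨Finset.mem_univ _, _, h3, _, h5⟩
        · exact s.Ra_three (k := j + 1) (l := j + 2) (Ra_ne1 j) (Ra_ne2 j) (Ra_ne12 j).symm h7 h6
            (s.Ra_monoR_S hi h5)
  · have h3 := s.walk_cw h hi hg0 hc0 (by rw [Ra_22]; exact h1)
    rw [Ra_21] at h3
    by_cases h4 : s.gR j y ∈ R
    · exact Or.inl ⟨hi, h3, h4⟩
    · rcases (h j y hi).1 h3 h4 with h5 | ⟨h5, h6⟩
      · exact absurd h5 h1
      · right
        have h7 : Disjoint (s.S j y) R := h6.mono_left (s.Ra_sub' hi)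
        refine ⟨hi, h7, ?_, ?_⟩
        · exact Finset.mem_filter.2 ⟨Finset.mem_univ _, _, h3, _, h5⟩
        · exact s.Ra_three (k := j + 2) (l := j + 1) (Ra_ne2 j) (Ra_ne1 j) (Ra_ne12 j) h7 h6
            (s.Ra_monoL_S hi h5)

theorem In_of {R : Finset F} (h : s.Reg R) {y : V} (hy : y ∈ s.VR R) {j : Fin 3}
    (h1 : ¬ Disjoint (s.S (j + 1) y) R) (h2 : ¬ Disjoint (s.S (j + 2) y) R)
    (hE : ¬ s.Exc j y R) : s.In j y R :=
  (s.In_or_Exc h hy h1 h2).resolve_right hE

theorem not_In_of {R : Finset F} {z : V} {j k : Fin 3} (hjk : j ≠ k)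
    (hd : Disjoint (s.S k z) R) : ¬ s.In j z R := by
  rintro ⟨hi, hL, hR⟩
  have h1 := s.self (s.lL j z hi)
  have h2 := s.self (s.lR j z hi)
  rcases Ra_cases' j k with rfl | rfl | rfl
  · exact hjk rfl
  · exact Finset.disjoint_left.1 hd h2 hR
  · exact Finset.disjoint_left.1 hd h1 hL

theorem IR_sub_VR {R : Finset F} {z : V} (hz : z ∈ s.IR R) : z ∈ s.VR R := by
  obtain ⟨hi, hR⟩ := (Finset.mem_filter.1 hz).2
  obtain ⟨j, g, hg⟩ := s.cov z
  exact Finset.mem_filter.2 ⟨Finset.mem_univ _, g, hR g ⟨j, hg⟩, ⟨j, hg⟩⟩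

theorem VR_mono {R R' : Finset F} (h : R ⊆ R') : s.VR R ⊆ s.VR R' := by
  intro v hv
  obtain ⟨g, hg, hvg⟩ := (Finset.mem_filter.1 hv).2
  exact Finset.mem_filter.2 ⟨Finset.mem_univ _, g, h hg, hvg⟩

theorem IR_mono {R R' : Finset F} (h : R ⊆ R') : s.IR R ⊆ s.IR R' := by
  intro v hv
  obtain ⟨hi, hR⟩ := (Finset.mem_filter.1 hv).2
  exact Finset.mem_filter.2 ⟨Finset.mem_univ _, hi, fun g hg => h (hR g hg)⟩

end SchPS

end Pool.RP
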