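import Pool.Agent.Lib.MP_9dcace_rp.Ra

/-!
ROW Rb (legs; port of SX R2).
-/

set_option autoImplicit false

open Classical

namespace Pool.RP.SchPS

open Pool.SX

variable {V F : Type} [Fintype V] [Fintype F] (s : SchPS V F)

private theorem Rb_ne1 : ∀ j : Fin 3, j ≠ j + 1 := by decide
private theorem Rb_ne21 : ∀ j : Fin 3, j + 2 + 1 ≠ j + 2 := by decide
private theorem Rb_ne2 : ∀ j : Fin 3, j ≠ j + 2 := by decide
private theorem Rb_cases : ∀ j k : Fin 3, k = j ∨ k = j + 1 ∨ k = j + 2 := by decide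

theorem lp_zero (j : Fin 3) (y : V) : s.lp j y 0 = y := rfl

theorem lp_succ (j : Fin 3) (y : V) (i : ℕ) : s.lp j y (i + 1) = s.out j (s.lp j y i) :=
  Function.iterate_succ_apply' _ _ _

private theorem Rb_VR {R : Finset F} {v : V} {g : F} (hg : g ∈ R) (h : s.Inc v g) :
    v ∈ s.VR R := by
  unfold VR
  rw [Finset.mem_filter]
  exact ⟨Finset.mem_univ _, g, hg, h⟩

/-- strict increase of the own potential -/
private theorem Rb_up {v : V} (hv : s.inn v) (c : Fin 3) : s.r c v < s.r c (s.out c v) :=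
  s.toSchP.Ra_out_pot hv

/-- the other potentials decrease weakly -/
private theorem Rb_down {v : V} (hv : s.inn v) {c j : Fin 3} (hj : j ≠ c) :
    s.r j (s.out c v) ≤ s.r j v := by
  rcases Rb_cases c j with rfl | rfl | rfl
  · exact absurd rfl hj
  · obtain ⟨l, hl⟩ := s.iR c v hv
    by_cases h : l = c + 1
    · subst h
      exact (s.potE (s.lR c v hv) hl).le
    · exact (s.pot (s.lR c v hv) hl h).le
  · have h1 := s.nxL (s.lL c v hv)
    rw [s.nL c v hv] at h1
    rcases h1 with h1 | h1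
    · exact (s.potE (s.lL c v hv) h1).le
    · exact (s.pot (s.lL c v hv) h1 (Rb_ne21 c)).le

theorem exists_leg (j : Fin 3) (y : V) (R : Finset F) : ∃ m : ℕ, ¬ s.In j (s.lp j y m) R := by
  by_contra h
  push Not at h
  have h1 : StrictMono (fun i : ℕ => s.r j (s.lp j y i)) := by
    refine strictMono_nat_of_lt_succ fun i => ?_
    rw [lp_succ]
    exact s.Rb_up (h i).1 j
  have h2 : Function.Injective (fun i : ℕ => s.lp j y i) := fun a b hab =>
    h1.injective (by simp only at hab ⊢; rw [hab])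
  exact not_injective_infinite_finite _ h2

theorem leg_In {j : Fin 3} {y : V} {R : Finset F} {i : ℕ} (h : i < s.legN j y R) :
    s.In j (s.lp j y i) R := by
  by_contra h'
  exact Nat.notMem_of_lt_sInf (show i < sInf {m : ℕ | ¬ s.In j (s.lp j y m) R} from h) h'

theorem leg_end (j : Fin 3) (y : V) (R : Finset F) : ¬ s.In j (s.lp j y (s.legN j y R)) R :=
  Nat.sInf_mem (s := {m : ℕ | ¬ s.In j (s.lp j y m) R}) (s.exists_leg j y R)

theorem leg_Pth {j : Fin 3} {y : V} {R : Finset F} {i i' : ℕ} (hi : i ≤ i')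
    (h : i' ≤ s.legN j y R) : s.Pth j (s.lp j y i) (s.lp j y i') := by
  induction i', hi using Nat.le_induction with
  | base => exact Relation.ReflTransGen.refl
  | succ n hn ih =>
    exact (ih (by omega)).tail ⟨(s.leg_In (show n < s.legN j y R by omega)).1, s.lp_succ j y n⟩

/-- `out j v` is a vertex of `gL j v` -/
private theorem Rb_incL {j : Fin 3} {v : V} (hv : s.inn v) : s.Inc (s.out j v) (s.gL j v) := by
  rw [← s.nL j v hv]
  rcases s.nxL (s.lL j v hv) with h | h
  · exact ⟨_, h⟩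
  · exact ⟨_, h⟩

theorem leg_VR {j : Fin 3} {y : V} {R : Finset F} (hy : y ∈ s.VR R) {i : ℕ}
    (h : i ≤ s.legN j y R) : s.lp j y i ∈ s.VR R := by
  cases i with
  | zero => exact hy
  | succ n =>
    have h1 := s.leg_In (show n < s.legN j y R by omega)
    refine s.Rb_VR h1.2.1 ?_
    rw [s.lp_succ]
    exact s.Rb_incL h1.1

/-- the set `S j` of a vertex entered by an interior edge of colour `j` meets `R` -/
private theorem Rb_meet {j : Fin 3} {v : V} {R : Finset F} (h : s.In j v R) :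
    ¬ Disjoint (s.S j (s.out j v)) R := by
  rw [Finset.not_disjoint_iff]
  rcases s.lLR j v h.1 with h1 | h1
  · exact ⟨_, s.self h1, h.2.1⟩
  · exact ⟨_, s.self h1, h.2.2⟩

theorem leg_IR {j : Fin 3} {y : V} {R : Finset F} (hR : s.Reg R) {i : ℕ} (h0 : 0 < i)
    (h : i < s.legN j y R) : s.lp j y i ∈ s.IR R := by
  obtain ⟨n, rfl⟩ : ∃ n, i = n + 1 := ⟨i - 1, by omega⟩
  have h1 := s.leg_In (show n < s.legN j y R by omega)
  have h2 := s.leg_In h
  refine s.IR_of hR ?_ fun k => ?_
  · refine s.Rb_VR h1.2.1 ?_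
    rw [s.lp_succ]
    exact s.Rb_incL h1.1
  · rcases Rb_cases j k with rfl | rfl | rfl
    · rw [s.lp_succ]
      exact s.Rb_meet h1
    · rw [Finset.not_disjoint_iff]
      exact ⟨_, s.self (s.lR j _ h2.1), h2.2.2⟩
    · rw [Finset.not_disjoint_iff]
      exact ⟨_, s.self (s.lL j _ h2.1), h2.2.1⟩

theorem leg_lt {j : Fin 3} {y : V} {R : Finset F} {i i' : ℕ} (hi : i < i')
    (h : i' ≤ s.legN j y R) : s.r j (s.lp j y i) < s.r j (s.lp j y i') := by
  induction i', hi using Nat.le_induction with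
  | base =>
    rw [s.lp_succ]
    exact s.Rb_up (s.leg_In (show i < s.legN j y R by omega)).1 j
  | succ n hn ih =>
    refine (ih (by omega)).trans ?_
    rw [s.lp_succ]
    exact s.Rb_up (s.leg_In (show n < s.legN j y R by omega)).1 j

theorem leg_end_IR (j : Fin 3) (y : V) (R : Finset F) :
    s.lp j y (s.legN j y R) ∉ s.IR R := fun h => s.leg_end j y R (s.In_IR h j)

theorem leg_end_disj {j : Fin 3} {y : V} {R : Finset F} (hR : s.Reg R) (hy : s.Adm y R) :
    Disjoint (s.S (j + 1) (s.lp j y (s.legN j y R))) R ∨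
    Disjoint (s.S (j + 2) (s.lp j y (s.legN j y R))) R := by
  by_contra h
  push Not at h
  rcases s.In_or_Exc hR (s.leg_VR hy.1 le_rfl) h.1 h.2 with h1 | h1
  · exact s.leg_end j y R h1
  · rcases Nat.eq_zero_or_pos (s.legN j y R) with h2 | h2
    · rw [h2] at h1
      exact hy.2 j h1
    · obtain ⟨n, hn⟩ : ∃ n, s.legN j y R = n + 1 := ⟨s.legN j y R - 1, by omega⟩
      have h3 := s.Rb_meet (s.leg_In (show n < s.legN j y R by omega))
      rw [← s.lp_succ, ← hn] at h3
      exact h3 h1.2.1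

private theorem Rb_path {j : Fin 3} {y v : V} (hv : s.Pth j y v) :
    ∃ i, v = s.lp j y i ∧ ∀ i' < i, s.inn (s.lp j y i') := by
  induction hv with
  | refl => exact ⟨0, rfl, fun i' hi' => by omega⟩
  | tail _ h2 ih =>
    obtain ⟨i, rfl, hi⟩ := ih
    refine ⟨i + 1, by rw [s.lp_succ]; exact h2.2, fun i' hi' => ?_⟩
    rcases Nat.lt_succ_iff_lt_or_eq.1 hi' with h3 | rfl
    · exact hi i' h3
    · exact h2.1

private theorem Rb_pth {j : Fin 3} {y : V} {i i' : ℕ} (hi : i ≤ i')
    (h : ∀ n < i', s.inn (s.lp j y n)) : s.Pth j (s.lp j y i) (s.lp j y i') := by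
  induction i', hi using Nat.le_induction with
  | base => exact Relation.ReflTransGen.refl
  | succ n hn ih =>
    exact (ih fun m hm => h m (by omega)).tail ⟨h n (by omega), s.lp_succ j y n⟩

theorem leg_edges {j : Fin 3} {y : V} {R : Finset F} (hR : s.Reg R) (hy : s.Adm y R) {v : V}
    (hv : s.Pth j y v) (hI : s.In j v R) : ∃ i, i < s.legN j y R ∧ v = s.lp j y i := by
  obtain ⟨i, rfl, hi⟩ := s.Rb_path hv
  rcases lt_or_ge i (s.legN j y R) with h | h
  · exact ⟨i, h, rfl⟩
  · exfalso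
    have h1 : ∀ k, k ≠ j → s.Le k (s.lp j y i) (s.lp j y (s.legN j y R)) :=
      fun k hk => s.toSchP.Ra_Pth_Le hk (s.Rb_pth h hi)
    rcases s.leg_end_disj (j := j) hR hy with h2 | h2
    · exact s.not_In_of (Rb_ne1 j)
        (h2.mono_left (s.mono (j + 1) _ _ (h1 (j + 1) (Rb_ne1 j).symm))) hI
    · exact s.not_In_of (Rb_ne2 j)
        (h2.mono_left (s.mono (j + 2) _ _ (h1 (j + 2) (Rb_ne2 j).symm))) hI

theorem leg_ret {j : Fin 3} {y : V} {R : Finset F} (hR : s.Reg R) (hy : s.Adm y R) {v : V}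
    (hv : s.Pth j y v) (hI : v ∈ s.IR R) : ∃ i, i < s.legN j y R ∧ v = s.lp j y i :=
  s.leg_edges hR hy hv (s.In_IR hI j)

/-- the own potential increases along a path -/
theorem Pth_lt {j : Fin 3} {y v : V} (h : s.Pth j y v) : v = y ∨ s.r j y < s.r j v := by
  induction h with
  | refl => exact Or.inl rfl
  | tail _ h2 ih =>
    right
    obtain ⟨h3, rfl⟩ := h2
    rcases ih with rfl | ih
    · exact s.Rb_up h3 j
    · exact ih.trans (s.Rb_up h3 j)

/-- the other potentials decrease weakly along a path -/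
theorem Pth_le {j k : Fin 3} (hk : k ≠ j) {y v : V} (h : s.Pth j y v) : s.r k v ≤ s.r k y := by
  induction h with
  | refl => exact le_rfl
  | tail _ h2 ih =>
    obtain ⟨h3, rfl⟩ := h2
    exact (s.Rb_down h3 hk).trans ih

/-- two different legs only meet in `y` -/
theorem leg_meet {j j' : Fin 3} (hjj : j ≠ j') {y v : V} (h : s.Pth j y v) (h' : s.Pth j' y v) :
    v = y := by
  rcases s.Pth_lt h with h1 | h1
  · exact h1
  · exact absurd (s.Pth_le hjj h') (not_le.2 h1)

/-- if `y` is an interior vertex all three legs have at least one edge -/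
theorem leg_pos {j : Fin 3} {y : V} {R : Finset F} (hy : y ∈ s.IR R) : 0 < s.legN j y R := by
  rcases Nat.eq_zero_or_pos (s.legN j y R) with h | h
  · exfalso
    have h1 := s.leg_end j y R
    rw [h] at h1
    exact h1 (s.In_IR hy j)
  · exact h

/-- an interior vertex of `R` is admissible -/
theorem Adm_of_IR {y : V} {R : Finset F} (hy : y ∈ s.IR R) : s.Adm y R :=
  ⟨s.IR_sub_VR hy, fun j h => s.meets_of_IR hy j h.2.1⟩

end Pool.RP.SchPS
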