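import Pool.Agent.Lib.MP_9dcace_rp.REdge
import Pool.Agent.Lib.MP_9dcace_rp.Ra

/-!
ROW Rc (decomposition of a region by the three paths from y; port of SX R3, and the star lemma of SX S8).
-/

set_option autoImplicit false

open Classical

namespace Pool.RP.SchP

variable {V F : Type} [Fintype V] [Fintype F] (s : SchP V F)

private theorem Rc_ne21 : ∀ c : Fin 3, c + 2 ≠ c + 1 := by decide
private theorem Rc_ne2 : ∀ c : Fin 3, c ≠ c + 2 := by decide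
private theorem Rc_21 : ∀ c : Fin 3, c + 2 + 1 = c := by decide
private theorem Rc_22 : ∀ c : Fin 3, c + 2 + 2 = c + 1 := by decide

private theorem Rc_incL {c : Fin 3} {v : V} (hv : s.inn v) : s.Inc v (s.gL c v) :=
  ⟨c + 2, s.lL c v hv⟩

private theorem Rc_incL' {c : Fin 3} {v : V} (hv : s.inn v) : s.Inc (s.out c v) (s.gL c v) := by
  rw [← s.nL c v hv]
  rcases s.nxL (s.lL c v hv) with h | h
  · exact ⟨_, h⟩
  · exact ⟨_, h⟩

private theorem Rc_incR {c : Fin 3} {v : V} (hv : s.inn v) : s.Inc v (s.gR c v) :=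
  ⟨c + 1, s.lR c v hv⟩

private theorem Rc_incR' {c : Fin 3} {v : V} (hv : s.inn v) : s.Inc (s.out c v) (s.gR c v) :=
  s.iR c v hv

/-- the two sides of the two names of a bidirected edge -/
private theorem Rc_rev {c c' : Fin 3} {v w : V} (h : s.Rev c v c' w) :
    s.gL c' w = s.gR c v ∧ s.gR c' w = s.gL c v := by
  obtain ⟨hv, hw, h1, h2⟩ := h
  constructor
  · obtain ⟨l, hl⟩ := s.iR c v hv
    rw [← h1] at hl
    refine s.dart (s.lL c' w hw) hl ?_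
    rw [s.nL c' w hw, ← h2, h1, s.nR c v hv]
  · obtain ⟨l, hl⟩ := s.iR c' w hw
    rw [← h2] at hl
    refine s.dart hl (s.lL c v hv) ?_
    rw [s.nL c v hv, ← h1, h2, s.nR c' w hw]

private theorem Rc_wf (φ : F → ℝ) : WellFounded (fun g' g => φ g < φ g') := by
  have : IsTrans F (fun g' g => φ g < φ g') := ⟨fun _ _ _ h1 h2 => lt_trans h2 h1⟩
  have : Std.Irrefl (fun g' g : F => φ g < φ g') := ⟨fun _ => lt_irrefl _⟩
  exact Finite.wellFounded_of_trans_of_irrefl _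

private theorem Rc_star {z : V} (hz : s.inn z) (Q : F → Prop)
    (hout : ∀ c, Q (s.gL c z) ↔ Q (s.gR c z))
    (hin : ∀ c v, s.inn v → s.out c v = z → (Q (s.gL c v) ↔ Q (s.gR c v))) (c : Fin 3) (g : F)
    (hg : s.L c g z) : Q g ↔ Q (s.gL (c + 1) z) := by
  induction g using (Rc_wf fun g => s.r (c + 1) (s.t (c + 1) g)).induction with
  | _ g ih =>
  rcases s.edge hg with ⟨h1, h2⟩ | ⟨-, -, -, h2, -⟩
  · rcases h2 with ⟨-, h2⟩ | ⟨-, h2⟩ | ⟨h3, h2⟩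
    · exact absurd h2 (hz c)
    · rw [← h2]
    · set w := s.nx g z with hw
      have hwi : s.inn w := h3
      -- `out c w = z`
      have h4 : s.out c w = z := by
        obtain ⟨l, hl⟩ := s.iR c w hwi
        rw [← h2] at hl
        refine s.nxinj hl hg ?_
        have h5 := s.nR c w hwi
        rw [← h2] at h5
        rw [h5]
      have h5 := hin c w hwi h4
      rw [← h2] at h5
      rw [← h5]
      have h6 := s.lL c w hwi
      have h7 := s.nL c w hwi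
      rw [h4] at h7
      have h8 := s.nxL h6
      rw [h7, Rc_21] at h8
      rcases h8 with h8 | h8
      · -- mono edge
        rcases s.edge h6 with ⟨h9, -⟩ | ⟨-, -, -, -, h9⟩
        · rw [h7, Rc_21] at h9
          exact absurd (s.Luniq h9 h8) (Rc_ne2 c)
        · rw [h7, Rc_22] at h9
          rw [h9]
          exact (hout (c + 1)).symm
      · refine ih _ ?_ h8
        rw [← s.potE (s.tL (c + 1) g) h1]
        exact s.pot (s.tL (c + 1) (s.gL c w)) h6 (Rc_ne21 c)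
  · rw [← h2]

theorem star_const {z : V} (hz : s.inn z) (Q : F → Prop)
    (hout : ∀ c, Q (s.gL c z) ↔ Q (s.gR c z))
    (hin : ∀ c v, s.inn v → s.out c v = z → (Q (s.gL c v) ↔ Q (s.gR c v)))
    (g g' : F) (hg : s.Inc z g) (hg' : s.Inc z g') : Q g ↔ Q g' := by
  have hA : ∀ (c : Fin 3) (g : F), s.L c g z → (Q g ↔ Q (s.gL (c + 1) z)) :=
    fun c g h => s.Rc_star hz Q hout hin c g h
  have hB : ∀ c : Fin 3, Q (s.gL (c + 1) z) ↔ Q (s.gL (c + 2) z) := by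
    intro c
    have h1 := s.lR (c + 2) z hz
    rw [Rc_21 c] at h1
    rw [← hA c _ h1]
    exact (hout (c + 2)).symm
  have h01 : Q (s.gL 1 z) ↔ Q (s.gL 2 z) := hB 0
  have h12 : Q (s.gL 2 z) ↔ Q (s.gL 0 z) := hB 1
  have hC : ∀ c : Fin 3, Q (s.gL (c + 1) z) ↔ Q (s.gL 0 z) := by
    intro c
    fin_cases c
    · exact h01.trans h12
    · exact h12
    · exact Iff.rfl
  obtain ⟨j, hj⟩ := hg
  obtain ⟨j', hj'⟩ := hg'
  rw [hA j g hj, hA j' g' hj', hC j, hC j']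

end Pool.RP.SchP

namespace Pool.RP.SchPS

variable {V F : Type} [Fintype V] [Fintype F] (s : SchPS V F)

private theorem Rc_mem_kid {R : Finset F} {k : Fin 3} {y : V} {g : F} :
    g ∈ s.kid k y R ↔ g ∈ s.S k y ∧ g ∈ R := by
  unfold kid
  exact Finset.mem_inter

private theorem Rc_uniq {k l : Fin 3} {y : V} {g : F} (h : g ∈ s.S k y) (h' : g ∈ s.S l y) :
    k = l :=
  (s.part y g).unique h h'

private theorem Rc_mem_IR {R : Finset F} {z : V} :
    z ∈ s.IR R ↔ s.inn z ∧ ∀ g, s.Inc z g → g ∈ R := by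
  unfold IR
  simp

private theorem Rc_mem_VR {R : Finset F} {z : V} : z ∈ s.VR R ↔ ∃ g ∈ R, s.Inc z g := by
  unfold VR
  simp

private theorem Rc_ne (c : Fin 3) : c + 1 ≠ c + 2 := by
  revert c
  decide

theorem kid_In {R : Finset F} {c : Fin 3} {y v : V} (h : s.In c v R) (hp : ¬ s.Pth c y v)
    (hr : ∀ c' w, s.Rev c v c' w → ¬ s.Pth c' y w) :
    ∃ k, s.In c v (s.kid k y R) := by
  obtain ⟨hv, hL, hR⟩ := h
  obtain ⟨k, hk, _⟩ := s.part y (s.gL c v)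
  refine ⟨k, hv, s.Rc_mem_kid.2 ⟨hk, hL⟩, s.Rc_mem_kid.2 ⟨?_, hR⟩⟩
  by_contra hn
  rcases s.crossL k c y v hv hk hn with ⟨h1, h2⟩ | ⟨u, h1, h2⟩
  · rw [← h1] at h2
    exact hp h2
  · exact hr _ _ h1 h2

theorem In_kid {R : Finset F} {c k : Fin 3} {y v : V} (h : s.In c v (s.kid k y R)) :
    s.In c v R ∧ ¬ s.Pth c y v ∧ ∀ c' w, s.Rev c v c' w → ¬ s.Pth c' y w := by
  obtain ⟨hv, hL, hR⟩ := h
  obtain ⟨hL1, hL2⟩ := s.Rc_mem_kid.1 hL
  obtain ⟨hR1, hR2⟩ := s.Rc_mem_kid.1 hR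
  refine ⟨⟨hv, hL2, hR2⟩, fun hp => ?_, fun c' w hr hp => ?_⟩
  · obtain ⟨h1, h2⟩ := s.pathcross c y v hv hp
    exact Rc_ne c ((s.Rc_uniq h2 hR1).trans (s.Rc_uniq hL1 h1))
  · obtain ⟨h1, h2⟩ := s.pathcross c' y w hr.2.1 hp
    obtain ⟨h3, h4⟩ := s.toSchP.Rc_rev hr
    rw [h3] at h1
    rw [h4] at h2
    exact Rc_ne c' ((s.Rc_uniq h2 hL1).trans (s.Rc_uniq hR1 h1))

theorem In_kid_unique {R : Finset F} {c k l : Fin 3} {y v : V} (h : s.In c v (s.kid k y R))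
    (h' : s.In c v (s.kid l y R)) : k = l :=
  s.Rc_uniq (s.Rc_mem_kid.1 h.2.1).1 (s.Rc_mem_kid.1 h'.2.1).1

theorem IR_kid_of {R : Finset F} {y z : V} (h : z ∈ s.IR R) (hp : ∀ j, ¬ s.Pth j y z) :
    ∃ k, z ∈ s.IR (s.kid k y R) := by
  obtain ⟨hz, hR⟩ := s.Rc_mem_IR.1 h
  obtain ⟨k, hk, _⟩ := s.part y (s.gL 0 z)
  refine ⟨k, s.Rc_mem_IR.2 ⟨hz, fun g hg => s.Rc_mem_kid.2 ⟨?_, hR g hg⟩⟩⟩
  have hstar := s.toSchP.star_const hz (fun g => g ∈ s.S k y)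
    (fun c => by
      constructor
      · intro h1
        by_contra h2
        rcases s.crossL k c y z hz h1 h2 with ⟨-, h3⟩ | ⟨u, h3, h4⟩
        · exact hp _ h3
        · exact hp (k + 2) (Relation.ReflTransGen.tail h4 ⟨h3.2.1, h3.2.2.2⟩)
      · intro h1
        by_contra h2
        rcases s.crossR k c y z hz h1 h2 with ⟨-, h3⟩ | ⟨u, h3, h4⟩
        · exact hp _ h3
        · exact hp (k + 1) (Relation.ReflTransGen.tail h4 ⟨h3.2.1, h3.2.2.2⟩))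
    (fun c v hv ho => by
      constructor
      · intro h1
        by_contra h2
        rcases s.crossL k c y v hv h1 h2 with ⟨h3, h4⟩ | ⟨u, h3, h4⟩
        · rw [← h3] at h4
          exact hp c (Relation.ReflTransGen.tail h4 ⟨hv, ho.symm⟩)
        · have h5 : u = z := by rw [h3.2.2.1, ho]
          rw [h5] at h4
          exact hp _ h4
      · intro h1
        by_contra h2
        rcases s.crossR k c y v hv h1 h2 with ⟨h3, h4⟩ | ⟨u, h3, h4⟩
        · rw [← h3] at h4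
          exact hp c (Relation.ReflTransGen.tail h4 ⟨hv, ho.symm⟩)
        · have h5 : u = z := by rw [h3.2.2.1, ho]
          rw [h5] at h4
          exact hp _ h4)
    (s.gL 0 z) g (s.toSchP.Rc_incL hz) hg
  exact hstar.1 hk

theorem IR_kid_sub {R : Finset F} {k : Fin 3} {y z : V} (h : z ∈ s.IR (s.kid k y R)) :
    z ∈ s.IR R ∧ ∀ j, ¬ s.Pth j y z := by
  obtain ⟨hz, hR⟩ := s.Rc_mem_IR.1 h
  refine ⟨s.Rc_mem_IR.2 ⟨hz, fun g hg => (s.Rc_mem_kid.1 (hR g hg)).2⟩, fun j hp => ?_⟩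
  obtain ⟨h1, h2⟩ := s.pathcross j y z hz hp
  have h3 := (s.Rc_mem_kid.1 (hR _ (s.toSchP.Rc_incL (c := j) hz))).1
  have h4 := (s.Rc_mem_kid.1 (hR _ (s.toSchP.Rc_incR (c := j) hz))).1
  exact Rc_ne j ((s.Rc_uniq h2 h4).trans (s.Rc_uniq h3 h1))

theorem IR_kid_disj {R : Finset F} {k l : Fin 3} {y z : V} (h : z ∈ s.IR (s.kid k y R))
    (h' : z ∈ s.VR (s.kid l y R)) : k = l := by
  obtain ⟨g, hg, hi⟩ := s.Rc_mem_VR.1 h'
  have h1 := (s.Rc_mem_IR.1 h).2 g hi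
  exact s.Rc_uniq (s.Rc_mem_kid.1 h1).1 (s.Rc_mem_kid.1 hg).1

theorem no_edge {R : Finset F} {u v : V} (h : u ∈ s.IR R)
    (he : s.Edge u v) : v ∈ s.VR R := by
  obtain ⟨hu, hR⟩ := s.Rc_mem_IR.1 h
  rcases he with ⟨c, _, rfl⟩ | ⟨c, hv, rfl⟩
  · exact s.Rc_mem_VR.2 ⟨s.gL c u, hR _ (s.toSchP.Rc_incL hu), s.toSchP.Rc_incL' hu⟩
  · exact s.Rc_mem_VR.2 ⟨s.gL c v, hR _ (s.toSchP.Rc_incL' hv), s.toSchP.Rc_incL hv⟩

theorem VR_kid {R : Finset F} {k : Fin 3} {y z : V} (h : z ∈ s.VR (s.kid k y R))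
    (h' : z ∉ s.IR (s.kid k y R)) : z ∉ s.IR R ∨ ∃ j, s.Pth j y z := by
  by_contra hc
  push Not at hc
  obtain ⟨l, hl⟩ := s.IR_kid_of hc.1 hc.2
  have hlk := s.IR_kid_disj hl h
  rw [hlk] at hl
  exact h' hl

/-- an edge at an interior vertex is interior -/
theorem In_of_IR {R : Finset F} {c : Fin 3} {v : V} (hv : s.inn v)
    (h : v ∈ s.IR R ∨ s.out c v ∈ s.IR R) : s.In c v R := by
  rcases h with h | h
  · have hR := (s.Rc_mem_IR.1 h).2
    exact ⟨hv, hR _ (s.toSchP.Rc_incL hv), hR _ (s.toSchP.Rc_incR hv)⟩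
  · have hR := (s.Rc_mem_IR.1 h).2
    exact ⟨hv, hR _ (s.toSchP.Rc_incL' hv), hR _ (s.toSchP.Rc_incR' hv)⟩

/-- the reverse name of an interior edge is interior -/
theorem In_rev {R : Finset F} {c c' : Fin 3} {v w : V} (hr : s.Rev c v c' w)
    (h : s.In c v R) : s.In c' w R := by
  obtain ⟨h3, h4⟩ := s.toSchP.Rc_rev hr
  refine ⟨hr.2.1, ?_, ?_⟩
  · rw [h3]
    exact h.2.2
  · rw [h4]
    exact h.2.1

end Pool.RP.SchPS
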