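import Pool.Agent.Lib.MP_9dcace_rp.Rb

/-!
ROW Rd (Lemma X; port of SX R4, sections (3.3), (3.8), (4.5) of m3_REAL_h83.md).
-/

set_option autoImplicit false

open Classical

namespace Pool.RP.SchP

variable {V F : Type} [Fintype V] [Fintype F] (s : SchP V F)

private theorem Rd_cs : ∀ c j : Fin 3, j ≠ c → j = c + 1 ∨ j = c + 2 := by decide
private theorem Rd_ne1 : ∀ c : Fin 3, c + 1 ≠ c := by decide
private theorem Rd_ne2 : ∀ c : Fin 3, c + 2 ≠ c := by decide
private theorem Rd_ne12 : ∀ c : Fin 3, c + 1 ≠ c + 2 := by decide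
private theorem Rd_12 : ∀ c : Fin 3, c + 1 + 2 = c := by decide
private theorem Rd_21 : ∀ c : Fin 3, c + 2 + 1 = c := by decide
private theorem Rd_11 : ∀ c : Fin 3, c + 1 + 1 = c + 2 := by decide
private theorem Rd_22 : ∀ c : Fin 3, c + 2 + 2 = c + 1 := by decide
private theorem Rd_three : ∀ i j k m : Fin 3, i ≠ j → i ≠ k → j ≠ k → m = i ∨ m = j ∨ m = k := by
  decide

/-- the edge `v → out j v` does not increase the other potentials; in case of equality it is
bidirected with the third colour `k` -/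
theorem Rd_down {v : V} (hv : s.inn v) {j k l : Fin 3} (hjk : j ≠ k) (hkl : k ≠ l) (hjl : j ≠ l) :
    s.r k (s.out j v) < s.r k v ∨
      (s.r k (s.out j v) = s.r k v ∧ s.Rev l (s.out j v) j v) := by
  rcases Rd_cs k j hjk with rfl | rfl
  · have hl : l = k + 2 := by
      have : ∀ k l : Fin 3, k ≠ l → k + 1 ≠ l → l = k + 2 := by decide
      exact this k l hkl hjl
    subst hl
    have h1 := s.lL (k + 1) v hv
    rcases s.Ra_labL (c := k + 1) hv with h | h
    · rw [Rd_12] at h1
      exact Or.inl (s.pot h1 h (Rd_ne1 k))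
    · have h2 := s.Ra_monoL_rev hv h
      unfold monoL at h
      rw [Rd_12] at h1 h
      rw [Rd_11] at h2
      exact Or.inr ⟨s.potE h1 h, h2.1, hv, h2.2.1.symm, rfl⟩
  · have hl : l = k + 1 := by
      have : ∀ k l : Fin 3, k ≠ l → k + 2 ≠ l → l = k + 1 := by decide
      exact this k l hkl hjl
    subst hl
    have h1 := s.lR (k + 2) v hv
    obtain ⟨m, hm⟩ := s.iR (k + 2) v hv
    rw [Rd_21] at h1
    by_cases hmk : m = k
    · subst hmk
      have h : s.monoR (m + 2) v := by
        unfold monoR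
        rw [Rd_21]
        exact hm
      have h2 := s.Ra_monoR_rev hv h
      rw [Rd_22] at h2
      exact Or.inr ⟨s.potE h1 hm, h2.1, hv, h2.2.1.symm, rfl⟩
    · exact Or.inl (s.pot h1 hm hmk)

theorem Rd_a_pot {j k : Fin 3} (h : j ≠ k) : s.r k (s.a j) < s.r k (s.a k) := by
  rcases Rd_cs k j h with rfl | rfl
  · exact s.pot (s.o0 k) (s.o1 k) (Rd_ne1 k)
  · have h1 := s.o1 (k + 2)
    rw [Rd_21] at h1
    exact s.pot h1 (s.o0 (k + 2)) (Rd_ne2 k)

/-- a step of `≤_k` increases `r k`, or it is an edge bidirected with the third colour `k` -/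
theorem Rd_step {k : Fin 3} {u v : V} (h : s.step k u v) :
    s.r k u < s.r k v ∨ (s.r k u = s.r k v ∧
      (s.Rev (k + 1) u (k + 2) v ∨ s.Rev (k + 1) v (k + 2) u)) := by
  rcases h with ⟨hu, rfl⟩ | ⟨j, hj, hv, rfl⟩ | ⟨j, hj, rfl, rfl⟩
  · exact Or.inl (s.Ra_out_pot hu)
  · rcases Rd_cs k j hj with rfl | rfl
    · rcases s.Rd_down hv (Rd_ne1 k) (Rd_ne2 k).symm (Rd_ne12 k) with h | ⟨h, h'⟩
      · exact Or.inl h
      · exact Or.inr ⟨h, Or.inr ⟨h'.2.1, h'.1, h'.2.2.2, h'.2.2.1⟩⟩
    · rcases s.Rd_down hv (Rd_ne2 k) (Rd_ne1 k).symm (Rd_ne12 k).symm with h | ⟨h, h'⟩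
      · exact Or.inl h
      · exact Or.inr ⟨h, Or.inl h'⟩
  · exact Or.inl (s.Rd_a_pot hj)

/-- potentials are monotone -/
theorem Rd_Le_pot {k : Fin 3} {u v : V} (h : s.Le k u v) : s.r k u ≤ s.r k v := by
  induction h with
  | refl => exact le_rfl
  | tail _ h2 ih =>
    rcases s.Rd_step h2 with h3 | ⟨h3, -⟩
    · exact ih.trans h3.le
    · exact ih.trans h3.le

/-- (P7) -/
theorem Rd_P7 {k : Fin 3} {u v : V} (h : s.Le k u v) (hr : s.r k u = s.r k v) :
    Relation.ReflTransGen (fun x y => s.Rev (k + 1) x (k + 2) y) u v ∨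
      Relation.ReflTransGen (fun x y => s.Rev (k + 1) x (k + 2) y) v u := by
  induction h with
  | refl => exact Or.inl Relation.ReflTransGen.refl
  | @tail v w h1 h2 ih =>
    have h3 := s.Rd_Le_pot h1
    rcases s.Rd_step h2 with h4 | ⟨h4, h5⟩
    · exact absurd hr (ne_of_lt (lt_of_le_of_lt h3 h4))
    · rcases ih (hr.trans h4.symm) with h6 | h6
      · rcases h5 with h5 | h5
        · exact Or.inl (h6.tail h5)
        · rcases Relation.ReflTransGen.cases_tail h6 with rfl | ⟨x, h7, h8⟩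
          · exact Or.inr (Relation.ReflTransGen.single h5)
          · have h9 : x = w := by rw [h8.2.2.2, h5.2.2.2]
            rw [h9] at h7
            exact Or.inl h7
      · rcases h5 with h5 | h5
        · rcases Relation.ReflTransGen.cases_head h6 with rfl | ⟨x, h7, h8⟩
          · exact Or.inl (Relation.ReflTransGen.single h5)
          · have h9 : x = w := by rw [h7.2.2.1, h5.2.2.1]
            rw [h9] at h8
            exact Or.inr h8
        · exact Or.inr (h6.head h5)

/-- (P7) for given names of the other colours -/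
theorem Rd_P7' {j k l : Fin 3} (hjk : j ≠ k) (hkl : k ≠ l) (hjl : j ≠ l) {u v : V}
    (h : s.Le k u v) (hr : s.r k u = s.r k v) :
    u = v ∨ ((∃ x, s.Rev j u l x) ∧ s.Pth j u v) ∨ ((∃ x, s.Rev l u j x) ∧ s.Pth l u v) := by
  -- along `out (k + 1)`
  have hA : ∀ {x y : V}, Relation.ReflTransGen (fun x y => s.Rev (k + 1) x (k + 2) y) x y →
      x = y ∨ ((∃ z, s.Rev (k + 1) x (k + 2) z) ∧ s.Pth (k + 1) x y) := by
    intro x y hxy
    rcases Relation.ReflTransGen.cases_head hxy with h1 | ⟨z, h1, -⟩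
    · exact Or.inl h1
    · refine Or.inr ⟨⟨z, h1⟩, ?_⟩
      refine Relation.ReflTransGen.mono ?_ _ _ hxy
      intro a b h
      exact ⟨h.1, h.2.2.1⟩
  -- along `out (k + 2)`
  have hB : ∀ {x y : V}, Relation.ReflTransGen (fun x y => s.Rev (k + 1) x (k + 2) y) y x →
      x = y ∨ ((∃ z, s.Rev (k + 2) x (k + 1) z) ∧ s.Pth (k + 2) x y) := by
    intro x y hxy
    rcases Relation.ReflTransGen.cases_tail hxy with h1 | ⟨z, -, h1⟩
    · exact Or.inl h1
    · refine Or.inr ⟨⟨z, h1.2.1, h1.1, h1.2.2.2, h1.2.2.1⟩, ?_⟩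
      have h2 := Relation.reflTransGen_swap.2 hxy
      refine Relation.ReflTransGen.mono ?_ _ _ h2
      intro a b h
      exact ⟨h.2.1, h.2.2.2⟩
  rcases Rd_cs k j hjk with rfl | rfl
  · have hl : l = k + 2 := by
      have : ∀ k l : Fin 3, k ≠ l → k + 1 ≠ l → l = k + 2 := by decide
      exact this k l hkl hjl
    subst hl
    rcases s.Rd_P7 h hr with h1 | h1
    · rcases hA h1 with h2 | h2
      · exact Or.inl h2
      · exact Or.inr (Or.inl h2)
    · rcases hB h1 with h2 | h2
      · exact Or.inl h2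
      · exact Or.inr (Or.inr h2)
  · have hl : l = k + 1 := by
      have : ∀ k l : Fin 3, k ≠ l → k + 2 ≠ l → l = k + 1 := by decide
      exact this k l hkl hjl
    subst hl
    rcases s.Rd_P7 h hr with h1 | h1
    · rcases hA h1 with h2 | h2
      · exact Or.inl h2
      · exact Or.inr (Or.inr h2)
    · rcases hB h1 with h2 | h2
      · exact Or.inl h2
      · exact Or.inr (Or.inl h2)

theorem Rd_out_outer {v : V} (hv : s.inn v) {c j : Fin 3} (h : s.out c v = s.a j) : j = c := by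
  rcases s.lLR c v hv with h1 | h1
  · rw [h] at h1
    exact (s.lab h1).symm
  · rw [h] at h1
    exact (s.lab h1).symm

theorem Rd_Pth_end {z : V} (hz : s.inn z) (c : Fin 3) : s.Pth c z (s.a c) := by
  have htr : IsTrans V (fun x y : V => s.r c y < s.r c x) := ⟨fun _ _ _ h1 h2 => h2.trans h1⟩
  have hir : Std.Irrefl (fun x y : V => s.r c y < s.r c x) := ⟨fun _ h => lt_irrefl _ h⟩
  have wf : WellFounded (fun x y : V => s.r c y < s.r c x) :=
    Finite.wellFounded_of_trans_of_irrefl _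
  induction z using wf.induction with
  | _ z ih =>
    by_cases ho : s.inn (s.out c z)
    · exact (ih (s.out c z) (s.Ra_out_pot hz) ho).head ⟨hz, rfl⟩
    · unfold inn at ho
      push Not at ho
      obtain ⟨j, hj⟩ := ho
      have hjc := s.Rd_out_outer hz hj
      subst hjc
      exact Relation.ReflTransGen.single ⟨hz, hj.symm⟩

private theorem Rd_Pth_total {c : Fin 3} {z u v : V} (h : s.Pth c z u) (h' : s.Pth c z v) :
    s.Pth c u v ∨ s.Pth c v u := by
  refine Relation.ReflTransGen.total_of_right_unique ?_ h h'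
  rintro x y w ⟨-, rfl⟩ ⟨-, rfl⟩
  rfl

end Pool.RP.SchP

namespace Pool.RP.SchPS

variable {V F : Type} [Fintype V] [Fintype F] (s : SchPS V F)

private theorem Rd_uniq {z : V} {g : F} {k k' : Fin 3} (h : g ∈ s.S k z) (h' : g ∈ s.S k' z) :
    k = k' := (s.part z g).unique h h'

theorem Le_total (u v : V) : ∃ k, s.Le k u v := by
  obtain ⟨j, g, hg⟩ := s.cov u
  obtain ⟨k, hk, -⟩ := s.part v g
  exact ⟨k, s.vert k v u g hk ⟨j, hg⟩⟩

/-- below an outer vertex `a i` in the order `≤_j`, `i ≠ j`, there is only `a i` -/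
private theorem Rd_below {i j : Fin 3} (hij : i ≠ j) {z : V} (h : s.Le j z (s.a i)) :
    z = s.a i := by
  rcases Relation.ReflTransGen.cases_tail h with h | ⟨u, -, h⟩
  · exact h.symm
  · exfalso
    rcases h with ⟨h1, h2⟩ | ⟨k, -, h1, -⟩ | ⟨k, -, -, h1⟩
    · exact hij (s.toSchP.Rd_out_outer h1 h2.symm)
    · exact h1 i rfl
    · exact hij (s.a_inj h1)

private theorem Rd_inn_mem {k : Fin 3} {z y : V} (hz : s.inn z)
    (h1 : s.Le (k + 1) z y) (h2 : s.Le (k + 2) z y) : s.Pth k y z := by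
  have e1 : ∀ k : Fin 3, k + 2 + 1 = k := by decide
  have e2 : ∀ k : Fin 3, k + 2 + 2 = k + 1 := by decide
  have e3 : ∀ k : Fin 3, k + 1 ≠ k + 2 := by decide
  have hL : s.gL k z ∈ s.S (k + 2) y := s.mono _ _ _ h2 (s.self (s.lL k z hz))
  have hR : s.gR k z ∈ s.S (k + 1) y := s.mono _ _ _ h1 (s.self (s.lR k z hz))
  have hR' : s.gR k z ∉ s.S (k + 2) y := fun h => e3 k (s.Rd_uniq hR h)
  rcases s.crossL (k + 2) k y z hz hL hR' with ⟨-, h3⟩ | ⟨u, h3, h4⟩
  · rwa [e1] at h3
  · exfalso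
    rw [e2] at h3 h4
    have h5 := s.toSchP.Rd_Le_pot h1
    have h6 := s.toSchP.Rd_Le_pot (s.toSchP.Ra_Pth_Le_self h4)
    have h7 := s.toSchP.Ra_out_pot (c := k + 1) h3.2.1
    rw [← h3.2.2.2] at h7
    exact absurd (h6.trans_lt h7) (not_lt.2 h5)

theorem path_lemma {i j k : Fin 3} (hij : i ≠ j) (hik : i ≠ k) (hjk : j ≠ k) {z y : V}
    (h1 : s.Le i z y) (h2 : s.Le j z y) : s.Pth k y z := by
  have e1 : ∀ i j k : Fin 3, i ≠ j → i ≠ k → j ≠ k →
    (i = k + 1 ∧ j = k + 2) ∨ (i = k + 2 ∧ j = k + 1) := by decide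
  have e2 : ∀ i j k m : Fin 3, i ≠ j → i ≠ k → j ≠ k → m = i ∨ m = j ∨ m = k := by decide
  by_cases hy : s.inn y
  · by_cases hz : s.inn z
    · rcases e1 i j k hij hik hjk with ⟨rfl, rfl⟩ | ⟨rfl, rfl⟩
      · exact s.Rd_inn_mem hz h1 h2
      · exact s.Rd_inn_mem hz h2 h1
    · have hz' : ∃ m, z = s.a m := by
        by_contra h
        push Not at h
        exact hz h
      obtain ⟨m, rfl⟩ := hz'
      have key : ∀ m, ¬ s.Le m (s.a m) y := by
        intro m h
        have h3 := s.toSchP.Rd_Le_pot h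
        rcases s.Pth_lt (s.toSchP.Rd_Pth_end hy m) with h4 | h4
        · exact hy m h4.symm
        · exact absurd h4 (not_lt.2 h3)
      rcases e2 i j k m hij hik hjk with rfl | rfl | rfl
      · exact absurd h1 (key m)
      · exact absurd h2 (key m)
      · exact s.toSchP.Rd_Pth_end hy m
  · have hy' : ∃ m, y = s.a m := by
      by_contra h
      push Not at h
      exact hy h
    obtain ⟨m, rfl⟩ := hy'
    have : z = s.a m := by
      by_cases hmi : m = i
      · have hmj : m ≠ j := fun h => hij (hmi ▸ h)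
        exact s.Rd_below hmj h2
      · exact s.Rd_below hmi h1
    rw [this]
    exact Relation.ReflTransGen.refl

private theorem Rd_on_leg {y z : V} {j : Fin 3} (hz : s.Pth j y z) :
    ∃ i, z = s.lp j y i ∧ ∀ i', i' < i → s.inn (s.lp j y i') := by
  induction hz with
  | refl => exact ⟨0, rfl, fun i' h => absurd h (by omega)⟩
  | tail _ h ih =>
    obtain ⟨i, h1, h2⟩ := ih
    refine ⟨i + 1, ?_, fun i' hi' => ?_⟩
    · rw [s.lp_succ, ← h1]; exact h.2
    · rcases Nat.lt_succ_iff_lt_or_eq.mp hi' with h3 | rfl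
      · exact h2 _ h3
      · rw [← h1]; exact h.1

/-- the side of an edge `(j, w)` with the label `c` at `w`: its other end has the label `j`, or it
is `≥_c w` -/
private theorem Rd_side {j c : Fin 3} (hcj : c ≠ j) {w : V} {R : Finset F} (h : s.In j w R) :
    (∃ g ∈ R, s.L c g w ∧ s.L j g (s.out j w)) ∨ s.Le c w (s.out j w) := by
  have hcc : c = j + 1 ∨ c = j + 2 := by
    have : ∀ c k : Fin 3, c ≠ k → c = k + 1 ∨ c = k + 2 := by decide
    exact this c j hcj
  obtain ⟨hw, hL, hR⟩ := h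
  rcases hcc with rfl | rfl
  · by_cases hm : s.monoR j w
    · obtain ⟨h1, h2, -, -⟩ := s.toSchP.Ra_monoR_rev hw hm
      have e : ∀ j : Fin 3, j + 2 ≠ j + 1 := by decide
      exact Or.inr (Relation.ReflTransGen.single (Or.inr (Or.inl ⟨j + 2, e j, h1, h2.symm⟩)))
    · refine Or.inl ⟨s.gR j w, hR, s.lR j w hw, ?_⟩
      obtain ⟨l, hl⟩ := s.iR j w hw
      have h1 := s.nxL hl
      rw [s.nR j w hw] at h1
      rcases h1 with h1 | h1
      · have h2 := s.Luniq h1 (s.lR j w hw)
        subst h2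
        exact absurd hl hm
      · have h2 := s.Luniq h1 (s.lR j w hw)
        have h3 : l = j := add_right_cancel h2
        subst h3
        exact hl
  · rcases s.toSchP.Ra_labL (c := j) hw with h1 | h1
    · exact Or.inl ⟨s.gL j w, hL, s.lL j w hw, h1⟩
    · obtain ⟨h1, h2, -, -⟩ := s.toSchP.Ra_monoL_rev hw h1
      have e : ∀ j : Fin 3, j + 1 ≠ j + 2 := by decide
      exact Or.inr (Relation.ReflTransGen.single (Or.inr (Or.inl ⟨j + 1, e j, h1, h2.symm⟩)))

theorem lemX {R : Finset F} (_hR : s.Reg R) {y : V} (_hy : s.Adm y R) {c j l : Fin 3}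
    (hcj : c ≠ j) (hcl : c ≠ l) (hjl : j ≠ l) {z : V} (hz : z ∈ s.VR (s.kid c y R))
    (hd : Disjoint (s.S l z) R) :
    s.S j (s.lp j y (s.legN j y R)) ∩ s.kid c y R ⊆ s.S j z := by
  have e3 : ∀ i j k m : Fin 3, i ≠ j → i ≠ k → j ≠ k → m = i ∨ m = j ∨ m = k := by decide
  set m := s.legN j y R with hm
  have hnot : ¬ s.In j z R := s.not_In_of hjl hd
  have hcz : s.Le c z y := by
    unfold VR at hz
    rw [Finset.mem_filter] at hz
    obtain ⟨-, g, hg, hi⟩ := hz
    unfold kid at hg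
    exact s.vert c y z g (Finset.mem_inter.mp hg).1 hi
  -- the final step from `Le j e z`
  have fin1 : s.Le j (s.lp j y m) z → s.S j (s.lp j y m) ∩ s.kid c y R ⊆ s.S j z := by
    intro h g hg
    exact s.mono _ _ _ h (Finset.mem_inter.mp hg).1
  have fin2 : s.Le c z (s.lp j y m) → s.S j (s.lp j y m) ∩ s.kid c y R ⊆ s.S j z := by
    intro h g hg
    obtain ⟨hg1, hg2⟩ := Finset.mem_inter.mp hg
    have hgR : g ∈ R := by unfold kid at hg2; exact (Finset.mem_inter.mp hg2).2
    obtain ⟨k, hk, -⟩ := s.part z g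
    rcases e3 c j l k hcj hcl hjl with rfl | rfl | rfl
    · exact absurd (s.Rd_uniq (s.mono _ _ _ h hk) hg1) hcj
    · exact hk
    · exact absurd hgR (Finset.disjoint_left.mp hd hk)
  by_cases hend : s.Le c z (s.lp j y m)
  · exact fin2 hend
  -- first index where it fails
  have hex : ∃ i, ¬ s.Le c z (s.lp j y i) := ⟨m, hend⟩
  obtain ⟨i, hi1, hi2⟩ : ∃ i, s.Le c z (s.lp j y i) ∧ ¬ s.Le c z (s.lp j y (i + 1)) ∧ i < m := by
    have h0 : Nat.find hex ≠ 0 := by
      intro h
      have := Nat.find_spec hex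
      rw [h] at this
      exact this hcz
    obtain ⟨n, hn⟩ := Nat.exists_eq_succ_of_ne_zero h0
    refine ⟨n, ?_, ?_, ?_⟩
    · by_contra h
      exact Nat.find_min hex (show n < Nat.find hex by omega) h
    · have := Nat.find_spec hex
      rwa [hn] at this
    · have : Nat.find hex ≤ m := Nat.find_min' hex hend
      omega
  obtain ⟨hi2, him⟩ := hi2
  have hIn : s.In j (s.lp j y i) R := s.leg_In him
  have hzi : z ≠ s.lp j y i := fun h => hnot (h ▸ hIn)
  have hzi1 : z ≠ s.lp j y (i + 1) := fun h => hi2 (by rw [← h]; exact Relation.ReflTransGen.refl)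
  -- the case `k = l`
  have finl : s.Le l z (s.lp j y (i + 1)) →
      s.S j (s.lp j y m) ∩ s.kid c y R ⊆ s.S j z := by
    intro hk
    have h1 : s.Le l (s.lp j y (i + 1)) y := by
      have h2 : s.Pth j (s.lp j y 0) (s.lp j y (i + 1)) :=
        s.leg_Pth (R := R) (Nat.zero_le _) (by omega)
      rw [s.lp_zero] at h2
      exact s.toSchP.Ra_Pth_Le (Ne.symm hjl) h2
    have h2 : s.Pth j y z := s.path_lemma hcl hcj (Ne.symm hjl) hcz (hk.trans h1)
    have h3 : s.Pth j (s.lp j y 0) (s.lp j y m) := s.leg_Pth (R := R) (Nat.zero_le _) le_rfl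
    rw [s.lp_zero] at h3
    obtain ⟨n, hn, hn'⟩ := s.Rd_on_leg h2
    by_cases hnm : n < m
    · exact absurd (hn ▸ s.leg_In hnm) hnot
    · -- n ≥ m : then Le j e z
      apply fin1
      have : ∀ q, m ≤ q → q ≤ n → s.Pth j (s.lp j y m) (s.lp j y q) := by
        intro q hq
        induction q, hq using Nat.le_induction with
        | base => intro _; exact Relation.ReflTransGen.refl
        | succ q hq ih =>
          intro hqn
          exact (ih (by omega)).tail ⟨hn' q (by omega), s.lp_succ j y q⟩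
      have h5 := this n (by omega) le_rfl
      rw [← hn] at h5
      exact s.toSchP.Ra_Pth_Le_self h5
  obtain ⟨k, hk⟩ := s.Le_total z (s.lp j y (i + 1))
  rcases e3 c j l k hcj hcl hjl with rfl | rfl | rfl
  · exact absurd hk hi2
  · -- k = j
    rcases s.Rd_side hcj hIn with ⟨g, hgR, hgc, hgj⟩ | h1
    · rw [← s.lp_succ] at hgj
      obtain ⟨k', hk', -⟩ := s.part z g
      rcases e3 c k l k' hcj hcl hjl with rfl | rfl | rfl
      · -- `z` and `w_i` are on the same level
        exfalso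
        have h2 := s.vert k' z (s.lp k y i) g hk' ⟨k', hgc⟩
        have h3 : s.r k' (s.lp k y i) = s.r k' z :=
          le_antisymm (s.toSchP.Rd_Le_pot h2) (s.toSchP.Rd_Le_pot hi1)
        rcases s.toSchP.Rd_P7' (Ne.symm hcj) hcl hjl h2 h3 with h4 | ⟨⟨x, h4⟩, -⟩ | ⟨-, h4⟩
        · exact hzi h4.symm
        · -- first edge of colour `j`: labels
          have h5 := s.pot hgc hgj (Ne.symm hcj)
          have h6 : x = s.lp k y (i + 1) := by rw [s.lp_succ]; exact h4.2.2.1
          rcases s.toSchP.Rd_down h4.2.1 (Ne.symm hcl) hcj (Ne.symm hjl) with h7 | ⟨h7, -⟩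
          · rw [← h4.2.2.2, h6] at h7
            exact lt_asymm h5 h7
          · rw [← h4.2.2.2, h6] at h7
            exact absurd h7 (ne_of_gt h5)
        · have h5 := s.mono _ _ _ (s.toSchP.Ra_Pth_Le_self h4)
          have h6 : ∃ g ∈ R, g ∈ s.S l (s.lp k y i) := by
            have hll : l = k + 1 ∨ l = k + 2 := by
              have : ∀ c k : Fin 3, k ≠ c → c = k + 1 ∨ c = k + 2 := by decide
              exact this l k hjl
            rcases hll with rfl | rfl
            · exact ⟨_, hIn.2.2, s.self (s.lR k _ hIn.1)⟩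
            · exact ⟨_, hIn.2.1, s.self (s.lL k _ hIn.1)⟩
          obtain ⟨g', h7, h8⟩ := h6
          exact Finset.disjoint_left.mp hd (h5 h8) h7
      · -- `z` and `w_{i+1}` are on the same level
        have h2 := s.vert k' z (s.lp k' y (i + 1)) g hk' ⟨k', hgj⟩
        have h3 : s.r k' (s.lp k' y (i + 1)) = s.r k' z :=
          le_antisymm (s.toSchP.Rd_Le_pot h2) (s.toSchP.Rd_Le_pot hk)
        rcases s.toSchP.Rd_P7' hcj hjl hcl h2 h3 with h4 | ⟨-, h4⟩ | ⟨-, h4⟩
        · exact absurd h4.symm hzi1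
        · exact finl (s.toSchP.Ra_Pth_Le (Ne.symm hcl) h4)
        · exact absurd (s.toSchP.Ra_Pth_Le hcl h4) hi2
      · exact absurd hgR (Finset.disjoint_left.mp hd hk')
    · rw [← s.lp_succ] at h1
      exact absurd (hi1.trans h1) hi2
  · -- k = l
    exact finl hk

end Pool.RP.SchPS
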