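import Pool.Agent.Lib.MP_9dcace_rp.Sa

/-!
ROW Se: (U), blueprint m3_REAL_h83.md (3.9): a face is determined by the classes of its three labels.
`face_ext`: if `u k` has the label `k` in `g`, `v k` has the label `k` in `h`, and `u k`, `v k` are equivalent
for `≤_k` (all `k`), then `g = h`.
`Se_path` is the path lemma for an inner vertex `y`.
Proof. `Se_N k F0 F1`: `F0 = gR k y`, `F1 = gL k y` where the edge `(k, y)` has the label `k` at `out k y` on both sides.
Every face reaches by `Se_N` a terminal face (`Se_Tm`), determined by the class of its vertices of label `k`; `Se_N` is left unique,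
so one of `g`, `h` is reached from the other one.  If the way has a first step across `(k, x)` then `h ∈ S (k+2) x`, `g ∈ S (k+1) x`,
so `u (k+2)` lies on `P_k(x)`, hence it is `x` (potential `r k`), but `x` has the label `k + 1` in `g`.
-/

set_option autoImplicit false

open Classical

namespace Pool.RP

open Pool.SX

namespace SchP

variable {V F : Type} [Fintype V] [Fintype F] (s : SchP V F)

/-- the step across an edge of colour `k` with the label `k` at its end on both sides -/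
def Se_N (k : Fin 3) (F0 F1 : F) : Prop :=
  ∃ y, s.inn y ∧ F0 = s.gR k y ∧ F1 = s.gL k y ∧ s.L k (s.gR k y) (s.out k y) ∧
    s.L k (s.gL k y) (s.out k y)

/-- terminal faces -/
def Se_Tm (k : Fin 3) (g : F) : Prop :=
  (g = s.o k ∧ s.t k g = s.a k) ∨ (s.inn (s.t k g) ∧ g = s.gL (k + 1) (s.t k g))

theorem Se_N_left {k : Fin 3} {F0 F0' F1 : F} (h : s.Se_N k F0 F1) (h' : s.Se_N k F0' F1) :
    F0 = F0' := by
  obtain ⟨y, hy, h1, h2, -, h4⟩ := h
  obtain ⟨y', hy', h1', h2', -, h4'⟩ := h'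
  have key : ∀ y, s.inn y → F1 = s.gL k y → s.L k (s.gL k y) (s.out k y) → y = s.t (k + 2) F1 := by
    intro y hy hF hL
    rw [hF]
    refine s.tU (s.lL k y hy) ?_
    rw [s.nL k y hy, fin21]
    exact hL
  have : y = y' := (key y hy h2 h4).trans (key y' hy' h2' h4').symm
  rw [h1, h1', this]

theorem Se_term (k : Fin 3) (g : F) : ∃ g', Relation.ReflTransGen (s.Se_N k) g g' ∧
    s.Le k (s.t k g) (s.t k g') ∧ s.Le k (s.t k g') (s.t k g) ∧ s.Se_Tm k g' := by
  have hwf : WellFounded (fun g' g : F => s.r (k + 1) (s.t (k + 1) g) < s.r (k + 1) (s.t (k + 1) g')) := by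
    have : IsTrans F (fun g' g : F => s.r (k + 1) (s.t (k + 1) g) < s.r (k + 1) (s.t (k + 1) g')) :=
      ⟨fun _ _ _ h1 h2 => lt_trans h2 h1⟩
    have : Std.Irrefl (fun g' g : F => s.r (k + 1) (s.t (k + 1) g) < s.r (k + 1) (s.t (k + 1) g')) :=
      ⟨fun _ => lt_irrefl _⟩
    exact Finite.wellFounded_of_trans_of_irrefl _
  induction g using hwf.induction with
  | _ g ih =>
  have hstop : s.Se_Tm k g → ∃ g', Relation.ReflTransGen (s.Se_N k) g g' ∧
      s.Le k (s.t k g) (s.t k g') ∧ s.Le k (s.t k g') (s.t k g) ∧ s.Se_Tm k g' := fun h =>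
    ⟨g, Relation.ReflTransGen.refl, s.Le_refl _ _, s.Le_refl _ _, h⟩
  rcases s.edge (s.tL k g) with ⟨h1, h2⟩ | ⟨h1, -⟩
  · rcases h2 with ⟨h3, h4⟩ | ⟨h3, h4⟩ | ⟨h3, h4⟩
    · exact hstop (Or.inl ⟨h3, h4⟩)
    · exact hstop (Or.inr ⟨h3, h4⟩)
    · obtain ⟨y, hy⟩ : ∃ y, y = s.nx g (s.t k g) := ⟨_, rfl⟩
      rw [← hy] at h1 h3 h4
      have hyi : s.inn y := h3
      have hout : s.out k y = s.t k g := by
        obtain ⟨l, hl⟩ := s.iR k y hyi
        have h5 := s.nR k y hyi
        rw [← h4] at hl h5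
        exact s.nxinj hl (s.tL k g) (by rw [h5, ← hy])
      rcases s.outL hyi k with h5 | h5
      · have hN : s.Se_N k g (s.gL k y) := by
          refine ⟨y, hyi, h4, rfl, ?_, h5⟩
          rw [← h4, hout]
          exact s.tL k g
        have hlt : s.r (k + 1) (s.t (k + 1) g) < s.r (k + 1) (s.t (k + 1) (s.gL k y)) := by
          rw [s.potE h1 (s.tL (k + 1) g)]
          exact s.pot (s.tL (k + 1) _) (s.lL k y hyi) (fin_ne12 k).symm
        obtain ⟨g', i1, i2, i3, i4⟩ := ih _ hlt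
        rw [hout] at h5
        exact ⟨g', Relation.ReflTransGen.head hN i1,
          s.Le_trans (s.Le_face h5 (s.tL k _)) i2, s.Le_trans i3 (s.Le_face (s.tL k _) h5), i4⟩
      · have hRev := s.monoL_Rev hyi h5
        have h6 := s.Rev_gL hRev
        have h7 := hRev.2.1
        rw [hout] at h6 h7
        refine hstop (Or.inr ⟨h7, ?_⟩)
        rw [h6]
        exact h4
  · exact absurd (s.Luniq h1 (s.tN k g)) (fin_ne1 k).symm

private theorem Se_end {k : Fin 3} {g : F} {z : V} (hT : s.Se_Tm k g)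
    (h : Relation.ReflTransGen (s.Bi k) (s.t k g) z) : s.t k g = z := by
  rcases Relation.ReflTransGen.cases_head h with h1 | ⟨x, h1, -⟩
  · exact h1
  · exfalso
    have h2 : s.Rev (k + 1) (s.t k g) (k + 2) x := h1
    rcases hT with ⟨-, h3⟩ | ⟨h3, h4⟩
    · exact h2.1 k h3
    · rw [← fin11] at h2
      have h5 : s.L (k + 1 + 2) (s.gL (k + 1) (s.t k g)) (s.out (k + 1) (s.t k g)) :=
        s.Rev_monoL h2
      rw [fin12, ← s.nL (k + 1) _ h3, ← h4] at h5
      exact (fin_ne1 k).symm (s.Luniq h5 (s.tN k g))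

theorem Se_term_uniq {k : Fin 3} {g g' : F} (hT : s.Se_Tm k g) (hT' : s.Se_Tm k g')
    (h : s.Le k (s.t k g) (s.t k g')) (h' : s.Le k (s.t k g') (s.t k g)) : g = g' := by
  have ht : s.t k g = s.t k g' := by
    rcases s.P7 h (s.Le_eq h h') with h1 | h1
    · exact s.Se_end hT h1
    · exact (s.Se_end hT' h1).symm
  rcases hT with ⟨h1, h2⟩ | ⟨h1, h2⟩
  · rcases hT' with ⟨h3, -⟩ | ⟨h3, -⟩
    · rw [h1, h3]
    · rw [← ht, h2] at h3
      exact absurd rfl (h3 k)
  · rcases hT' with ⟨-, h4⟩ | ⟨-, h4⟩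
    · rw [ht, h4] at h1
      exact absurd rfl (h1 k)
    · rw [h2, h4, ht]

end SchP

namespace SchPS

variable {V F : Type} [Fintype V] [Fintype F] (s : SchPS V F)

/-- the path lemma for an inner vertex `y` -/
theorem Se_path {k : Fin 3} {y z : V} (hy : s.inn y) (h1 : s.Le (k + 1) z y)
    (h2 : s.Le (k + 2) z y) : s.Pth k y z := by
  by_cases hz : s.inn z
  · have hL : s.gL k z ∈ s.S (k + 2) y := s.mono _ _ _ h2 (s.self (s.lL k z hz))
    have hR : s.gR k z ∈ s.S (k + 1) y := s.mono _ _ _ h1 (s.self (s.lR k z hz))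
    have hR' : s.gR k z ∉ s.S (k + 2) y := fun h =>
      SchP.fin_ne12 k ((s.part y (s.gR k z)).unique hR h)
    rcases s.crossL (k + 2) k y z hz hL hR' with ⟨-, h4⟩ | ⟨u, h3, h4⟩
    · rwa [SchP.fin21] at h4
    · exfalso
      rw [SchP.fin22] at h3 h4
      have h5 : s.r (k + 1) u < s.r (k + 1) z := by
        rw [h3.2.2.2]
        exact (s.out_pot h3.2.1 (k + 1)).1
      have h6 := s.Le_pot h1
      rcases s.Pth_pot h4 with h7 | h7
      · rw [h7] at h5
        exact absurd h6 (not_le.2 h5)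
      · exact absurd h6 (not_le.2 (h7.trans h5))
  · have hz' : ∃ m, z = s.a m := by
      by_contra h
      push Not at h
      exact hz h
    obtain ⟨m, rfl⟩ := hz'
    have key : ∀ m, ¬ s.Le m (s.a m) y := by
      intro m h
      have h3 := s.Le_pot h
      rcases s.Pth_pot (s.Pth_end hy m) with h4 | h4
      · exact hy m h4.symm
      · exact absurd h3 (not_le.2 h4)
    have hm : ∀ m k : Fin 3, m = k ∨ m = k + 1 ∨ m = k + 2 := by decide
    rcases hm m k with rfl | rfl | rfl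
    · exact s.Pth_end hy m
    · exact absurd h1 (key _)
    · exact absurd h2 (key _)

private theorem Se_key {k : Fin 3} {g h : F} {u v : V} (hu : s.L (k + 2) g u)
    (hv : s.L (k + 2) h v) (huv : s.Le (k + 2) u v)
    (hgh : Relation.ReflTransGen (s.Se_N k) g h) : g = h := by
  rcases Relation.ReflTransGen.cases_head hgh with h1 | ⟨F1, ⟨x, hx, h2, h3, h4, -⟩, h6⟩
  · exact h1
  exfalso
  have hF1 : F1 ∈ s.S (k + 2) x := by
    rw [h3]
    exact s.self (s.lL k x hx)
  have hhS : h ∈ s.S (k + 2) x := by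
    clear hgh hv
    induction h6 with
    | refl => exact hF1
    | tail _ hN ih =>
      obtain ⟨y', hy', i1, i2, -, -⟩ := hN
      rw [i1] at ih
      rw [i2]
      by_contra hcon
      rcases s.crossR (k + 2) k x y' hy' ih hcon with ⟨h7, -⟩ | ⟨w, h7, -⟩
      · rw [SchP.fin22] at h7
        exact SchP.fin_ne1 k h7.symm
      · rw [SchP.fin21] at h7
        exact s.Rev_ne h7 rfl
  have hgS : g ∈ s.S (k + 1) x := by
    rw [h2]
    exact s.self (s.lR k x hx)
  have h7 : s.Le (k + 1) u x := s.vert (k + 1) x u g hgS ⟨_, hu⟩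
  have h8 : s.Le (k + 2) u x := s.Le_trans huv (s.vert (k + 2) x v h hhS ⟨_, hv⟩)
  have h9 := s.Se_path hx h7 h8
  rw [h2] at hu
  rcases Relation.ReflTransGen.cases_head h9 with h10 | ⟨w, ⟨-, h10⟩, h11⟩
  · rw [← h10] at hu
    exact SchP.fin_ne12 k (s.Luniq (s.lR k x hx) hu)
  · have h12 := s.Le_pot (s.Pth_Le h11).1
    have h13 := s.pot h4 hu (SchP.fin_ne2 k)
    rw [h10] at h12
    exact absurd h12 (not_le.2 h13)

theorem face_ext {g h : F} {u v : Fin 3 → V} (hu : ∀ k, s.L k g (u k)) (hv : ∀ k, s.L k h (v k))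
    (h1 : ∀ k, s.Le k (u k) (v k)) (h2 : ∀ k, s.Le k (v k) (u k)) : g = h := by
  obtain ⟨g', a1, a2, a3, a4⟩ := s.Se_term 0 g
  obtain ⟨h', b1, b2, b3, b4⟩ := s.Se_term 0 h
  have hgh : s.Le 0 (s.t 0 g) (s.t 0 h) :=
    s.Le_trans (s.Le_face (s.tL 0 g) (hu 0)) (s.Le_trans (h1 0) (s.Le_face (hv 0) (s.tL 0 h)))
  have hhg : s.Le 0 (s.t 0 h) (s.t 0 g) :=
    s.Le_trans (s.Le_face (s.tL 0 h) (hv 0)) (s.Le_trans (h2 0) (s.Le_face (hu 0) (s.tL 0 g)))
  have he : g' = h' := s.Se_term_uniq a4 b4 (s.Le_trans a3 (s.Le_trans hgh b2))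
    (s.Le_trans b3 (s.Le_trans hhg a2))
  subst he
  have c1 : Relation.ReflTransGen (Function.swap (s.Se_N 0)) g' g :=
    Relation.reflTransGen_swap.2 a1
  have c2 : Relation.ReflTransGen (Function.swap (s.Se_N 0)) g' h :=
    Relation.reflTransGen_swap.2 b1
  have hru : Relator.RightUnique (Function.swap (s.Se_N 0)) := fun _ _ _ h3 h4 =>
    s.Se_N_left h3 h4
  rcases Relation.ReflTransGen.total_of_right_unique hru c1 c2 with h3 | h3
  · have h4 : Relation.ReflTransGen (s.Se_N 0) h g := Relation.reflTransGen_swap.1 h3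
    exact (s.Se_key (k := 0) (hv 2) (hu 2) (h2 2) h4).symm
  · have h4 : Relation.ReflTransGen (s.Se_N 0) g h := Relation.reflTransGen_swap.1 h3
    exact s.Se_key (k := 0) (hu 2) (hv 2) (h1 2) h4

end SchPS

end Pool.RP
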