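import Pool.Agent.Lib.MP_9dcace_rp.Ra
import Pool.Agent.Lib.MP_9dcace_rp.Se

/-!
ROW Re: (4.6) of m3_REAL_h83.md: a balanced admissible centre.
-/

set_option autoImplicit false

open Classical

namespace Pool.RP.SchPS

variable {V F : Type} [Fintype V] [Fintype F] (s : SchPS V F)

private theorem e12 (c : Fin 3) : c + 1 + 2 = c := by revert c; decide
private theorem e21 (c : Fin 3) : c + 2 + 1 = c := by revert c; decide
private theorem e22 (c : Fin 3) : c + 2 + 2 = c + 1 := by revert c; decide
private theorem e11 (c : Fin 3) : c + 1 + 1 = c + 2 := by revert c; decide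
private theorem n1 (c : Fin 3) : c + 1 ≠ c := by revert c; decide
private theorem n2 (c : Fin 3) : c + 2 ≠ c := by revert c; decide
private theorem n12 (c : Fin 3) : c + 1 ≠ c + 2 := by revert c; decide
private theorem cs (c k : Fin 3) : k = c ∨ k = c + 1 ∨ k = c + 2 := by revert c k; decide

/-! ### bidirected edges -/

private theorem out_r {v : V} (hv : s.inn v) (c : Fin 3) : s.r c v < s.r c (s.out c v) := by
  rcases s.lLR c v hv with h | h
  · exact s.pot h (s.lL c v hv) (n2 c)
  · exact s.pot h (s.lR c v hv) (n1 c)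

/-- an edge with the same label at both ends on its left side -/
private theorem monoL_spec {c : Fin 3} {v : V} (hv : s.inn v) (h : s.monoL c v) :
    s.inn (s.out c v) ∧ s.out (c + 1) (s.out c v) = v ∧ s.gL c v = s.gR (c + 1) (s.out c v) := by
  have hL := s.lL c v hv
  have hn := s.nL c v hv
  rcases s.edge hL with ⟨h1, -⟩ | ⟨h1, h2, h3, h4, h5⟩
  · rw [hn] at h1
    exact absurd (s.Luniq h1 h) (n1 (c + 2))
  · rw [hn] at h3 h5
    rw [e22] at h5
    refine ⟨h3, ?_, h5⟩
    obtain ⟨l, hl⟩ := s.iR (c + 1) _ h3
    have h6 := s.nR (c + 1) _ h3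
    rw [← h5] at hl h6
    exact s.nxinj hl hL (h6.trans hn.symm)

/-- an edge with the same label at both ends on its right side -/
private theorem monoR_spec {c : Fin 3} {v : V} (hv : s.inn v) (h : s.monoR c v) :
    s.inn (s.out c v) ∧ s.out (c + 2) (s.out c v) = v ∧ s.gR c v = s.gL (c + 2) (s.out c v) := by
  have hn := s.nR c v hv
  have hv' := s.lR c v hv
  rcases s.edge h with ⟨h1, -⟩ | ⟨h1, h2, h3, h4, h5⟩
  · rw [hn] at h1
    exact absurd (s.Luniq h1 hv') (n1 (c + 1))
  · rw [e11] at h4
    refine ⟨h2, ?_, h4⟩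
    have h6 := s.nL (c + 2) _ h2
    rw [← h4] at h6
    rw [← h6, hn]

private theorem leF {j k : Fin 3} {g : F} {u v : V} (hu : s.L j g u) (hv : s.L k g v) :
    s.Le k u v := s.Le_face hu hv

/-! ### big regions -/

/-- `v` has a big region of index `k` -/
private def Big (R : Finset F) (k : Fin 3) (v : V) : Prop :=
  2 * R.card + 1 < 3 * (s.kid k v R).card

private theorem big_two {R : Finset F} {j k : Fin 3} {v : V} (hjk : j ≠ k) (hj : s.Big R j v)
    (hk : s.Big R k v) : False := by
  have hd : Disjoint (s.kid j v R) (s.kid k v R) := by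
    rw [Finset.disjoint_left]
    intro g h1 h2
    exact hjk ((s.part v g).unique (Finset.mem_inter.mp h1).1 (Finset.mem_inter.mp h2).1)
  have h1 : (s.kid j v R ∪ s.kid k v R).card ≤ R.card :=
    Finset.card_le_card (Finset.union_subset Finset.inter_subset_right Finset.inter_subset_right)
  rw [Finset.card_union_of_disjoint hd] at h1
  unfold Big at hj hk
  omega

private theorem big_sub {R : Finset F} {k : Fin 3} {u v : V} (h : s.kid k u R ⊆ s.kid k v R)
    (hb : s.Big R k u) : s.Big R k v := by
  have h1 := Finset.card_le_card h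
  unfold Big at hb ⊢
  omega

private theorem big_mono {R : Finset F} {k : Fin 3} {u v : V} (h : s.Le k u v)
    (hb : s.Big R k u) : s.Big R k v :=
  s.big_sub (Finset.inter_subset_inter (s.mono k u v h) (Finset.Subset.refl _)) hb

private theorem big_face {R : Finset F} {k : Fin 3} {g : F} {u v : V} (hu : s.L k g u)
    (hv : s.L k g v) (hb : s.Big R k u) : s.Big R k v :=
  s.big_mono (s.leF hu hv) hb

private theorem big_meets {R : Finset F} {k : Fin 3} {v : V} (hb : s.Big R k v) :
    ¬ Disjoint (s.S k v) R := by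
  intro h
  have h1 : s.kid k v R = ∅ := Finset.disjoint_iff_inter_eq_empty.mp h
  unfold Big at hb
  rw [h1] at hb
  simp at hb

private theorem big_outer {R : Finset F} {k j : Fin 3} (hjk : j ≠ k) : ¬ s.Big R k (s.a j) := by
  intro h
  apply s.big_meets h
  rw [s.outer1 k j hjk]
  exact Finset.disjoint_empty_left _

/-- the region `c` grows from `y` to `w` if the region `i` of `w` is empty and the regions
`j` are the same -/
private theorem kid_grow {R : Finset F} {c i j : Fin 3} (hall : ∀ k : Fin 3, k = c ∨ k = i ∨ k = j)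
    (hcj : c ≠ j) {y w : V} (hi : Disjoint (s.S i w) R) (hj : s.S j w ⊆ s.S j y) :
    s.kid c y R ⊆ s.kid c w R := by
  intro g hg
  obtain ⟨h1, h2⟩ := Finset.mem_inter.mp hg
  refine Finset.mem_inter.mpr ⟨?_, h2⟩
  obtain ⟨k, hk, -⟩ := s.part w g
  rcases hall k with rfl | rfl | rfl
  · exact hk
  · exact absurd h2 (Finset.disjoint_left.mp hi hk)
  · exact absurd ((s.part y g).unique h1 (hj hk)) hcj

private theorem tri {R : Finset F} {g : F} (hg : g ∈ R) (u : Fin 3 → V) (hu : ∀ k, s.L k g (u k))
    (hb : ∀ k, s.Big R k (u k)) : False := by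
  have key : ∀ h ∈ R, h ≠ g → ∃ k, h ∉ s.S k (u k) := by
    intro h _ hne
    by_contra hcon
    push Not at hcon
    apply hne
    have hj : ∀ j, s.Le j (u j) (s.t j h) ∧ s.Le j (s.t j h) (u j) := by
      intro j
      obtain ⟨k, hk, -⟩ := s.part (s.t j h) g
      have h1 : s.Le k (u k) (s.t j h) := s.vert k _ _ g hk ⟨k, hu k⟩
      have h2 : s.Le k (s.t j h) (u k) := s.vert k _ _ h (hcon k) ⟨j, s.tL j h⟩
      have h4 : h ∈ s.S k (s.t j h) := s.mono k _ _ h1 (hcon k)
      have h5 : j = k := (s.part (s.t j h) h).unique (s.self (s.tL j h)) h4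
      subst h5
      exact ⟨h1, h2⟩
    exact (s.face_ext (g := g) (h := h) (u := u) (v := fun j => s.t j h) hu
      (fun j => s.tL j h) (fun j => (hj j).1) (fun j => (hj j).2)).symm
  have hsum : ∑ k, (s.kid k (u k) R).card ≤ 2 * R.card + 1 := by
    have h1 : ∀ k, (s.kid k (u k) R).card = ∑ h ∈ R, if h ∈ s.S k (u k) then 1 else 0 := by
      intro k
      rw [← Finset.sum_filter, Finset.sum_const, smul_eq_mul, mul_one]
      congr 1
      ext h
      simp [kid, and_comm]
    simp_rw [h1]
    rw [Finset.sum_comm]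
    have h2 : ∀ h ∈ R, (∑ k, if h ∈ s.S k (u k) then 1 else 0) ≤ 2 + if h = g then 1 else 0 := by
      intro h hh
      by_cases hhg : h = g
      · rw [if_pos hhg]
        calc (∑ k, if h ∈ s.S k (u k) then 1 else 0) ≤ ∑ _k : Fin 3, 1 :=
              Finset.sum_le_sum (fun k _ => by split_ifs <;> omega)
          _ = 2 + 1 := by simp
      · rw [if_neg hhg]
        obtain ⟨k, hk⟩ := key h hh hhg
        rw [← Finset.add_sum_erase _ _ (Finset.mem_univ k), if_neg hk]
        calc 0 + (∑ k ∈ Finset.univ.erase k, if h ∈ s.S k (u k) then 1 else 0)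
            ≤ 0 + ∑ _k ∈ Finset.univ.erase k, 1 :=
              Nat.add_le_add_left (Finset.sum_le_sum (fun k _ => by split_ifs <;> omega)) _
          _ = 2 + 0 := by
              rw [Finset.sum_const, Finset.card_erase_of_mem (Finset.mem_univ k)]
              simp
    calc (∑ h ∈ R, ∑ k, if h ∈ s.S k (u k) then 1 else 0)
        ≤ ∑ h ∈ R, (2 + if h = g then 1 else 0) := Finset.sum_le_sum h2
      _ = 2 * R.card + 1 := by
          rw [Finset.sum_add_distrib, Finset.sum_const, Finset.sum_ite_eq' R g, if_pos hg,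
            smul_eq_mul, mul_comm]
  have h3 := hb 0
  have h4 := hb 1
  have h5 := hb 2
  rw [Fin.sum_univ_three] at hsum
  unfold Big at h3 h4 h5
  omega

/-- a big vertex with minimal potential has its label in a face of `R` -/
private theorem exists_face {R : Finset F} (hR : s.Reg R) {c : Fin 3} {y : V} (hy : y ∈ s.VR R)
    (hb : s.Big R c y) (hmin : ∀ w ∈ s.VR R, s.Big R c w → s.r c y ≤ s.r c w) :
    ∃ g ∈ R, s.L c g y := by
  have hm := s.big_meets hb
  obtain ⟨-, g0, hg0, j, hj⟩ := Finset.mem_filter.mp hy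
  by_cases hin : s.inn y
  · rcases cs c j with rfl | rfl | rfl
    · exact ⟨g0, hg0, hj⟩
    · have h1 := s.walk_cw hR hin hg0 hj (by rw [e12]; exact hm)
      rw [e11] at h1
      have h2 : s.gR (c + 2) y ∈ R := by
        by_contra h3
        rcases (hR (c + 2) y hin).1 h1 h3 with h4 | ⟨h4, h5⟩
        · rw [e21] at h4
          exact hm h4
        · obtain ⟨hw, how, -⟩ := s.monoL_spec hin h4
          rw [e21] at how
          have h6 : s.S (c + 1) (s.out (c + 2) y) ⊆ s.S (c + 1) y :=
            s.mono _ _ _ (Relation.ReflTransGen.single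
              (Or.inr (Or.inl ⟨c + 2, (n12 c).symm, hin, rfl⟩)))
          have h7 : s.Big R c (s.out (c + 2) y) := by
            refine s.big_sub (s.kid_grow (i := c + 2) (j := c + 1) ?_ (n1 c).symm h5 h6) hb
            intro k
            rcases cs c k with h | h | h
            · exact Or.inl h
            · exact Or.inr (Or.inr h)
            · exact Or.inr (Or.inl h)
          have h8 : s.out (c + 2) y ∈ s.VR R :=
            Finset.mem_filter.mpr ⟨Finset.mem_univ _, _, h1, _, h4⟩
          have h9 := hmin _ h8 h7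
          have h10 := s.out_r hw c
          rw [how] at h10
          exact absurd h10 (not_lt.mpr h9)
      refine ⟨_, h2, ?_⟩
      have := s.lR (c + 2) y hin
      rwa [e21] at this
    · have h1 := s.walk_ccw hR hin hg0 hj (by rw [e21]; exact hm)
      rw [e22] at h1
      have h2 : s.gL (c + 1) y ∈ R := by
        by_contra h3
        rcases (hR (c + 1) y hin).2 h1 h3 with h4 | ⟨h4, h5⟩
        · rw [e12] at h4
          exact hm h4
        · obtain ⟨hw, how, -⟩ := s.monoR_spec hin h4
          rw [e12] at how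
          have h6 : s.S (c + 2) (s.out (c + 1) y) ⊆ s.S (c + 2) y :=
            s.mono _ _ _ (Relation.ReflTransGen.single
              (Or.inr (Or.inl ⟨c + 1, n12 c, hin, rfl⟩)))
          have h7 : s.Big R c (s.out (c + 1) y) :=
            s.big_sub (s.kid_grow (i := c + 1) (j := c + 2) (cs c) (n2 c).symm h5 h6) hb
          have h8 : s.out (c + 1) y ∈ s.VR R :=
            Finset.mem_filter.mpr ⟨Finset.mem_univ _, _, h1, _, h4⟩
          have h9 := hmin _ h8 h7
          have h10 := s.out_r hw c
          rw [how] at h10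
          exact absurd h10 (not_lt.mpr h9)
      refine ⟨_, h2, ?_⟩
      have := s.lL (c + 1) y hin
      rwa [e12] at this
  · have hout : ∃ k, y = s.a k := by
      by_contra h
      push Not at h
      exact hin h
    obtain ⟨k, hk⟩ := hout
    have hkc : k = c := by
      by_contra h
      apply s.big_outer (R := R) h
      rw [← hk]
      exact hb
    refine ⟨g0, hg0, ?_⟩
    subst hk hkc
    have := s.lab hj
    rwa [this] at hj

private theorem balanced0 {R : Finset F} (hR : s.Reg R) (h2 : 2 ≤ R.card) :
    ∃ y ∈ s.VR R, ∀ k, 3 * (s.kid k y R).card ≤ 2 * R.card + 1 := by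
  by_contra hcon
  push Not at hcon
  have hbig : ∀ v ∈ s.VR R, ∃ k, s.Big R k v := hcon
  -- choice of `c` and `y`
  obtain ⟨g0, hg0⟩ : R.Nonempty := Finset.card_pos.mp (by omega)
  have hVR : ∀ {g : F} {j : Fin 3} {v : V}, g ∈ R → s.L j g v → v ∈ s.VR R := by
    intro g j v hg h
    exact Finset.mem_filter.mpr ⟨Finset.mem_univ _, g, hg, j, h⟩
  obtain ⟨c, hc⟩ := hbig _ (hVR hg0 (s.tL 0 g0))
  obtain ⟨y, hy, hmin⟩ := Finset.exists_min_image ((s.VR R).filter (fun v => s.Big R c v)) (s.r c)
    ⟨_, Finset.mem_filter.mpr ⟨hVR hg0 (s.tL 0 g0), hc⟩⟩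
  obtain ⟨hyR, hyb⟩ := Finset.mem_filter.mp hy
  -- the vertices with other labels of the faces at `y` are not big for `c`
  have hor : ∀ {g : F} {j : Fin 3} {x v : V}, g ∈ R → s.L c g x → s.r c x = s.r c y →
      s.L j g v → j ≠ c → s.Big R (c + 1) v ∨ s.Big R (c + 2) v := by
    intro g j x v hg hx hr hv hj
    obtain ⟨k, hk⟩ := hbig _ (hVR hg hv)
    rcases cs c k with rfl | rfl | rfl
    · have h1 := hmin _ (Finset.mem_filter.mpr ⟨hVR hg hv, hk⟩)
      have h3 := s.pot hx hv hj
      rw [hr] at h3
      exact absurd h3 (not_lt.mpr h1)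
    · exact Or.inl hk
    · exact Or.inr hk
  have htri : ∀ {g : F} {x v w : V}, g ∈ R → s.L c g x → s.Big R c x → s.L (c + 1) g v →
      s.Big R (c + 1) v → s.L (c + 2) g w → s.Big R (c + 2) w → False := by
    intro g x v w hg hx hxb hv hvb hw hwb
    have h3 : ∀ k, ∃ u, s.L k g u ∧ s.Big R k u := by
      intro k
      rcases cs c k with rfl | rfl | rfl
      · exact ⟨x, hx, hxb⟩
      · exact ⟨v, hv, hvb⟩
      · exact ⟨w, hw, hwb⟩
    choose u hu1 hu2 using h3
    exact s.tri hg u hu1 hu2
  have hc12 : c + 1 ≠ c + 2 := n12 c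
  have hc1 : c + 1 ≠ c := n1 c
  have hc2 : c + 2 ≠ c := n2 c
  -- the vertices with label `c + 1` are big for `c + 2`
  have hA : ∀ n : ℕ, ∀ g ∈ R, s.Big R c (s.t c g) → s.r c (s.t c g) = s.r c y →
      s.Big R (c + 2) (s.nx g (s.t c g)) →
      (Finset.univ.filter (fun v => s.r (c + 2) v < s.r (c + 2) (s.t (c + 2) g))).card ≤ n →
      False := by
    intro n
    induction n with
    | zero =>
      intro g hg hgb hgr h1 hn
      have h4 := s.pot (s.tL (c + 2) g) (s.tL (c + 1) g) hc12
      have h5 : s.t (c + 1) g ∈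
          Finset.univ.filter (fun v => s.r (c + 2) v < s.r (c + 2) (s.t (c + 2) g)) :=
        Finset.mem_filter.mpr ⟨Finset.mem_univ _, h4⟩
      have := Finset.card_pos.mpr ⟨_, h5⟩
      omega
    | succ n ih =>
      intro g hg hgb hgr h1 hn
      have hLx := s.tL c g
      have hLw := s.tN c g
      revert hgb hgr h1 hLx hLw
      generalize s.t c g = x
      intro hgb hgr h1 hLx hLw
      -- case (I)
      by_cases hI : s.inn x ∧ g = s.gL (c + 1) x
      · obtain ⟨hin, hI⟩ := hI
        have h4 := s.nL (c + 1) x hin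
        rw [← hI] at h4
        rw [h4] at h1
        have hle : s.Le (c + 2) (s.out (c + 1) x) x :=
          Relation.ReflTransGen.single (Or.inr (Or.inl ⟨c + 1, hc12, hin, rfl⟩))
        exact s.big_two hc2 (s.big_mono hle h1) hgb
      rcases s.edge hLx with ⟨-, ⟨h4, h5⟩ | h4 | ⟨hin, h4⟩⟩ | ⟨h4, -⟩
      · have h6 := s.on c
        rw [← h4, ← h5] at h6
        rw [h6] at h1
        exact s.big_outer hc12 h1
      · exact hI h4
      · generalize hw : s.nx g x = w at h1 hLw hin h4
        have hout : s.out c w = x := by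
          obtain ⟨l, hl⟩ := s.iR c w hin
          have h5 := s.nR c w hin
          rw [← h4] at hl h5
          exact s.nxinj hl hLx (h5.trans hw.symm)
        have hg' : s.gL c w ∈ R := by
          by_contra h5
          rcases (hR c w hin).2 (by rw [← h4]; exact hg) h5 with h6 | ⟨-, h6⟩
          · exact s.big_meets h1 h6
          · rw [hout] at h6
            exact s.big_meets hgb h6
        have hLw' := s.lL c w hin
        have hn' := s.nL c w hin
        rw [hout] at hn'
        have hLx' : s.L c (s.gL c w) x := by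
          have h5 := s.nxL hLw'
          rw [hn', e21] at h5
          rcases h5 with h5 | h5
          · exfalso
            have h6 : s.monoL c w := by
              unfold SchP.monoL
              rw [hout]
              exact h5
            obtain ⟨hxi, h7, h8⟩ := s.monoL_spec hin h6
            rw [hout] at hxi h7 h8
            apply hI
            refine ⟨hxi, ?_⟩
            have h9 := s.lL (c + 1) x hxi
            have h10 := s.nL (c + 1) x hxi
            rw [h7] at h10
            exact s.dart hLx h9 (hw.trans h10.symm)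
          · exact h5
        have hgb' := s.big_face hLx' (s.tL c (s.gL c w)) hgb
        have hgr' : s.r c (s.t c (s.gL c w)) = s.r c y := by
          rw [s.potE hLx' (s.tL c (s.gL c w)), hgr]
        have hmes : s.r (c + 2) (s.t (c + 2) (s.gL c w)) < s.r (c + 2) (s.t (c + 2) g) := by
          rw [s.potE hLw' (s.tL (c + 2) (s.gL c w))]
          exact s.pot (s.tL (c + 2) g) hLw hc12
        rcases hor hg' (s.tL c _) hgr' (s.tN c (s.gL c w)) hc1 with h5 | h5
        · exact htri hg' (s.tL c _) hgb' (s.tN c (s.gL c w)) h5 hLw' h1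
        · refine ih _ hg' hgb' hgr' h5 ?_
          have h6 : Finset.univ.filter
                (fun v => s.r (c + 2) v < s.r (c + 2) (s.t (c + 2) (s.gL c w))) ⊂
              Finset.univ.filter (fun v => s.r (c + 2) v < s.r (c + 2) (s.t (c + 2) g)) := by
            rw [Finset.ssubset_iff_of_subset]
            · exact ⟨s.t (c + 2) (s.gL c w), Finset.mem_filter.mpr ⟨Finset.mem_univ _, hmes⟩,
                by simp⟩
            · intro v hv
              have := (Finset.mem_filter.mp hv).2
              exact Finset.mem_filter.mpr ⟨Finset.mem_univ _, this.trans hmes⟩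
          have := Finset.card_lt_card h6
          omega
      · exact absurd (s.Luniq h4 hLw) hc1.symm
  -- the last vertex with label `c + 2` is big for `c + 1`
  have hB : ∀ n : ℕ, ∀ g ∈ R, s.Big R c (s.t c g) → s.r c (s.t c g) = s.r c y →
      s.Big R (c + 1) (s.t (c + 2) g) →
      (Finset.univ.filter (fun v => s.r (c + 1) v < s.r (c + 1) (s.t (c + 1) g))).card ≤ n →
      False := by
    intro n
    induction n with
    | zero =>
      intro g hg hgb hgr h1 hn
      have h4 := s.pot (s.tL (c + 1) g) (s.tL (c + 2) g) hc12.symm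
      have h5 : s.t (c + 2) g ∈
          Finset.univ.filter (fun v => s.r (c + 1) v < s.r (c + 1) (s.t (c + 1) g)) :=
        Finset.mem_filter.mpr ⟨Finset.mem_univ _, h4⟩
      have := Finset.card_pos.mpr ⟨_, h5⟩
      omega
    | succ n ih =>
      intro g hg hgb hgr h1 hn
      have hLw := s.tL (c + 2) g
      have hLx := s.tN (c + 2) g
      rw [e21] at hLx
      revert h1 hLw hLx
      generalize s.t (c + 2) g = w
      intro h1 hLw hLx
      have hedge := s.edge hLw
      rw [e21] at hedge
      generalize hx : s.nx g w = x at hLx hedge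
      have hxb : s.Big R c x := s.big_face (s.tL c g) hLx hgb
      have hxr : s.r c x = s.r c y := by rw [s.potE (s.tL c g) hLx, hgr]
      -- case (II)
      by_cases hII : s.inn x ∧ g = s.gR (c + 2) x
      · obtain ⟨hin, hII⟩ := hII
        have h4 : s.out (c + 2) x = w := by
          obtain ⟨l, hl⟩ := s.iR (c + 2) x hin
          have h5 := s.nR (c + 2) x hin
          rw [← hII] at hl h5
          exact s.nxinj hl hLw (h5.trans hx.symm)
        rw [← h4] at h1
        have hle : s.Le (c + 1) (s.out (c + 2) x) x :=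
          Relation.ReflTransGen.single (Or.inr (Or.inl ⟨c + 2, hc12.symm, hin, rfl⟩))
        exact s.big_two hc1 (s.big_mono hle h1) hxb
      rcases hedge with ⟨-, ⟨h4, h5⟩ | ⟨hin, h4⟩ | h4⟩ | ⟨h4, -⟩
      · rw [h5] at h1
        exact s.big_outer hc12.symm h1
      · have hout : s.out c w = x := by
          have h5 := s.nL c w hin
          rw [← h4, hx] at h5
          exact h5.symm
        have hg' : s.gR c w ∈ R := by
          by_contra h5
          rcases (hR c w hin).1 (by rw [← h4]; exact hg) h5 with h6 | ⟨-, h6⟩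
          · exact s.big_meets h1 h6
          · rw [hout] at h6
            exact s.big_meets hxb h6
        have hLw' := s.lR c w hin
        have hn' := s.nR c w hin
        obtain ⟨l, hl⟩ := s.iR c w hin
        rw [hout] at hn' hl
        have hLx' : s.L c (s.gR c w) x := by
          have h5 := s.nxL hl
          rw [hn'] at h5
          rcases h5 with h5 | h5
          · exfalso
            have h6 : s.monoR c w := by
              unfold SchP.monoR
              rw [hout, s.Luniq hLw' h5]
              exact hl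
            obtain ⟨hxi, h7, h8⟩ := s.monoR_spec hin h6
            rw [hout] at hxi h7 h8
            apply hII
            refine ⟨hxi, ?_⟩
            obtain ⟨l', hl'⟩ := s.iR (c + 2) x hxi
            have h10 := s.nR (c + 2) x hxi
            rw [h7] at h10 hl'
            exact s.dart hLw hl' (hx.trans h10.symm)
          · have h6 := s.Luniq hLw' h5
            have h7 : c = l := by
              have := congrArg (fun z => z + 2) h6
              simpa only [e12] using this
            rw [h7]
            exact h7 ▸ hl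
        have hgb' := s.big_face hLx' (s.tL c (s.gR c w)) hxb
        have hgr' : s.r c (s.t c (s.gR c w)) = s.r c y := by
          rw [s.potE hLx' (s.tL c (s.gR c w)), hxr]
        have hmes : s.r (c + 1) (s.t (c + 1) (s.gR c w)) < s.r (c + 1) (s.t (c + 1) g) := by
          rw [s.potE hLw' (s.tL (c + 1) (s.gR c w))]
          exact s.pot (s.tL (c + 1) g) hLw hc12.symm
        rcases hor hg' (s.tL c _) hgr' (s.tL (c + 2) (s.gR c w)) hc2 with h5 | h5
        · refine ih _ hg' hgb' hgr' h5 ?_
          have h6 : Finset.univ.filter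
                (fun v => s.r (c + 1) v < s.r (c + 1) (s.t (c + 1) (s.gR c w))) ⊂
              Finset.univ.filter (fun v => s.r (c + 1) v < s.r (c + 1) (s.t (c + 1) g)) := by
            rw [Finset.ssubset_iff_of_subset]
            · exact ⟨s.t (c + 1) (s.gR c w), Finset.mem_filter.mpr ⟨Finset.mem_univ _, hmes⟩,
                by simp⟩
            · intro v hv
              have := (Finset.mem_filter.mp hv).2
              exact Finset.mem_filter.mpr ⟨Finset.mem_univ _, this.trans hmes⟩
          have := Finset.card_lt_card h6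
          omega
        · exact htri hg' (s.tL c _) hgb' hLw' h1 (s.tL (c + 2) (s.gR c w)) h5
      · exact hII h4
      · exact absurd (s.Luniq h4 hLx) hc2
  -- conclusion
  obtain ⟨g, hg, hgy⟩ := s.exists_face hR hyR hyb
    (fun w hw hwb => hmin _ (Finset.mem_filter.mpr ⟨hw, hwb⟩))
  have hgb := s.big_face hgy (s.tL c g) hyb
  have hgr : s.r c (s.t c g) = s.r c y := s.potE hgy (s.tL c g)
  rcases hor hg hgy rfl (s.tN c g) hc1 with h1 | h1
  · rcases hor hg hgy rfl (s.tL (c + 2) g) hc2 with h3 | h3
    · exact hB _ g hg hgb hgr h3 le_rfl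
    · exact htri hg hgy hyb (s.tN c g) h1 (s.tL (c + 2) g) h3
  · rcases hor hg hgy rfl (s.tL (c + 2) g) hc2 with h3 | h3
    · exact s.big_two hc12 h3 (s.big_mono (s.leF (s.tN c g) (s.tL (c + 2) g)) h1)
    · exact hA _ g hg hgb hgr h1 le_rfl

/-- a balanced admissible centre -/
theorem balanced {R : Finset F} (hR : s.Reg R) (h2 : 2 ≤ R.card) :
    ∃ y, s.Adm y R ∧ ∀ k, 3 * (s.kid k y R).card ≤ 2 * R.card + 1 := by
  obtain ⟨y, hy, hyb⟩ := s.balanced0 hR h2
  -- at most one of the children is empty
  have hone : ∀ i j : Fin 3, i ≠ j → s.S i y ∩ R = ∅ → s.S j y ∩ R = ∅ → False := by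
    intro i j hij hi hj
    have h3 : ∃ k, R ⊆ s.kid k y R := by
      have h4 : ∀ i j : Fin 3, i ≠ j → ∃ k, ∀ l, l = k ∨ l = i ∨ l = j := by decide
      obtain ⟨k, hk⟩ := h4 i j hij
      refine ⟨k, fun g hg => ?_⟩
      obtain ⟨l, hl, -⟩ := s.part y g
      have h5 : g ∈ s.S l y ∩ R := Finset.mem_inter.mpr ⟨hl, hg⟩
      rcases hk l with rfl | rfl | rfl
      · exact h5
      · rw [hi] at h5
        exact absurd h5 (Finset.notMem_empty g)
      · rw [hj] at h5
        exact absurd h5 (Finset.notMem_empty g)
    obtain ⟨k, hk⟩ := h3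
    have h4 := Finset.card_le_card hk
    have h5 := hyb k
    omega
  by_cases hd : ∃ j, Disjoint (s.S j y) R
  · obtain ⟨j, hj⟩ := hd
    have hj0 : s.S j y ∩ R = ∅ := Finset.disjoint_iff_inter_eq_empty.mp hj
    obtain ⟨v, hv, hmax⟩ := Finset.exists_max_image
      ((s.VR R).filter (fun v => ∀ k, s.S k v ∩ R = s.S k y ∩ R)) (s.r j)
      ⟨y, Finset.mem_filter.mpr ⟨hy, fun _ => rfl⟩⟩
    obtain ⟨hvR, hvS⟩ := Finset.mem_filter.mp hv
    refine ⟨v, ⟨hvR, ?_⟩, ?_⟩
    · rintro i ⟨hin, h1, h3, h4⟩
      by_cases hij : i = j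
      · subst hij
        have h5 := hmax (s.out i v) (Finset.mem_filter.mpr ⟨h3, fun k => (h4 k).trans (hvS k)⟩)
        exact absurd (s.out_r hin i) (not_lt.mpr h5)
      · refine hone i j hij ?_ hj0
        rw [← hvS i]
        exact Finset.disjoint_iff_inter_eq_empty.mp h1
    · intro k
      have h1 : s.kid k v R = s.kid k y R := hvS k
      rw [h1]
      exact hyb k
  · refine ⟨y, ⟨hy, ?_⟩, hyb⟩
    rintro j ⟨-, h1, -⟩
    exact hd ⟨j, h1⟩

end Pool.RP.SchPS
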