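import Pool.Agent.Lib.MP_9dcace_rp.Base

/-!
RP, row Sa (helper32): basic facts on the structures `SchP` (port of SX `S1`, blueprint 3.1 - 3.3).
* potentials: `out_pot`, `out_lt_L`, `out_lt_R`, `out_eq_L`, `out_eq_R`, `step_pot`, `Le_pot`, `a_pot`;
* edges: `edgeI`, `edgeII`, `edgeM`, `outL`, `outR`, `exists_prev`, `nx_ne`;
* bidirected edges: `Rev_symm`, `Rev_ne`, `Rev_gL`, `Rev_gR`, `Rev_monoL`, `Rev_monoR`, `monoL_Rev`,
  `monoR_Rev`, `mono_excl`, `Rev_cases`;
* orders: `Le_face`, `Le_face_t`, `Pth_Le`, `Pth_end`, `Pth_total`, `Pth_antisymm`, `Le_a`;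
* `P7` : equality of the potentials on `u ≤_k v` gives a chain of bidirected edges of third colour `k`.
-/

set_option autoImplicit false

namespace Pool.RP.SchP

open Pool.SX

variable {V F : Type} [Fintype V] [Fintype F] (s : SchP V F)

theorem fin_cs : ∀ {j k : Fin 3}, j ≠ k → j = k + 1 ∨ j = k + 2 := by decide
theorem fin_cs3 : ∀ (j k : Fin 3), j = k ∨ j = k + 1 ∨ j = k + 2 := by decide
theorem fin21 (c : Fin 3) : c + 2 + 1 = c := by revert c; decide
theorem fin12 (c : Fin 3) : c + 1 + 2 = c := by revert c; decide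
theorem fin11 (c : Fin 3) : c + 1 + 1 = c + 2 := by revert c; decide
theorem fin22 (c : Fin 3) : c + 2 + 2 = c + 1 := by revert c; decide
theorem fin_ne1 (c : Fin 3) : c + 1 ≠ c := by revert c; decide
theorem fin_ne2 (c : Fin 3) : c + 2 ≠ c := by revert c; decide
theorem fin_ne12 (c : Fin 3) : c + 1 ≠ c + 2 := by revert c; decide
theorem fin_succ_inj : ∀ {l c : Fin 3}, l + 1 = c + 1 → l = c := by decide

/-! ### labels and the cycle of a face -/

theorem t_ne (g : F) {j k : Fin 3} (h : j ≠ k) : s.t j g ≠ s.t k g := by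
  intro he
  have h1 := s.tL j g
  rw [he] at h1
  exact h (s.Luniq h1 (s.tL k g))

theorem bL (k : Fin 3) (g : F) : s.L k g (s.b k g) := by
  have h := s.tN (k + 2) g
  rw [fin21] at h
  exact h

theorem Inc_nx {g : F} {v : V} (h : s.Inc v g) : s.Inc (s.nx g v) g := by
  obtain ⟨k, hk⟩ := h
  rcases s.nxL hk with h1 | h1
  · exact ⟨_, h1⟩
  · exact ⟨_, h1⟩

theorem Inc_iter {g : F} {v : V} (h : s.Inc v g) (n : ℕ) : s.Inc ((s.nx g)^[n] v) g := by
  induction n with
  | zero => exact h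
  | succ n ih =>
    rw [Function.iterate_succ_apply']
    exact s.Inc_nx ih

/-- every vertex of a face has a predecessor in the face -/
theorem exists_prev {k : Fin 3} {g : F} {v : V} (h : s.L k g v) :
    ∃ (l : Fin 3) (u : V), s.L l g u ∧ s.nx g u = v := by
  obtain ⟨l, hl⟩ := s.Inc_nx ⟨k, h⟩
  obtain ⟨n, hn⟩ := s.cyc hl h
  obtain ⟨m, hm⟩ := s.Inc_iter ⟨k, h⟩ n
  refine ⟨m, _, hm, ?_⟩
  rw [← Function.iterate_succ_apply' (s.nx g) n v, Function.iterate_succ_apply]
  exact hn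

theorem nx_ne {k : Fin 3} {g : F} {v : V} (h : s.L k g v) : s.nx g v ≠ v := by
  intro he
  have h1 : ∀ n : ℕ, (s.nx g)^[n] v = v := by
    intro n
    induction n with
    | zero => rfl
    | succ n ih => rw [Function.iterate_succ_apply', ih, he]
  obtain ⟨n, hn⟩ := s.cyc h (s.tL 0 g)
  obtain ⟨m, hm⟩ := s.cyc h (s.tL 1 g)
  rw [h1] at hn hm
  exact s.t_ne g (j := 0) (k := 1) (by decide) (hn.symm.trans hm)

/-- if the predecessor of `v` has the label `k + 2` and `v` has the label `k` then `v = b k g` -/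
theorem bU {k : Fin 3} {g : F} {u : V} (hu : s.L (k + 2) g u) (h : s.L k g (s.nx g u)) :
    s.nx g u = s.b k g := by
  have h1 : s.L (k + 2 + 1) g (s.nx g u) := by rw [fin21]; exact h
  have h2 := s.tU hu h1
  rw [h2]
  rfl

/-! ### the edge rule -/

/-- first case -/
theorem edgeI {g : F} {k : Fin 3} {v : V} (h1 : ∀ j, v ≠ s.a j) (h2 : g = s.gL (k + 1) v) :
    s.nx g v = s.out (k + 1) v := by
  have h3 := s.nL (k + 1) v h1
  rwa [← h2] at h3

/-- second case -/
theorem edgeII {g : F} {k l : Fin 3} {v : V} (h0 : s.L l g v) (h1 : ∀ j, s.nx g v ≠ s.a j)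
    (h2 : g = s.gR k (s.nx g v)) : v = s.out k (s.nx g v) := by
  have h3 := s.nR k (s.nx g v) h1
  obtain ⟨m, h4⟩ := s.iR k (s.nx g v) h1
  rw [← h2] at h3 h4
  exact (s.nxinj h4 h0 h3).symm

/-- third case: an edge of `g` whose ends have the same label `k` -/
theorem edgeM {g : F} {k : Fin 3} {v : V} (h : s.L k g v) (h' : s.L k g (s.nx g v)) :
    s.inn v ∧ s.inn (s.nx g v) ∧ g = s.gL (k + 1) v ∧ g = s.gR (k + 2) (s.nx g v) ∧
      s.nx g v = s.out (k + 1) v ∧ v = s.out (k + 2) (s.nx g v) := by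
  rcases s.edge h with ⟨h1, -⟩ | ⟨-, h1, h2, h3, h4⟩
  · exact absurd (s.Luniq h1 h') (fin_ne1 k)
  · exact ⟨h1, h2, h3, h4, s.edgeI h1 h3, s.edgeII h h2 h4⟩

/-- an edge of `g` from the label `k` to the label `k + 1` -/
theorem edgeD {g : F} {k : Fin 3} {v : V} (h : s.L k g v) (h' : s.L (k + 1) g (s.nx g v)) :
    (g = s.o k ∧ v = s.a k ∧ s.nx g v = s.a (k + 1)) ∨
      (s.inn v ∧ g = s.gL (k + 1) v ∧ s.nx g v = s.out (k + 1) v) ∨
      (s.inn (s.nx g v) ∧ g = s.gR k (s.nx g v) ∧ v = s.out k (s.nx g v)) := by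
  rcases s.edge h with ⟨-, h1⟩ | ⟨h1, -⟩
  · rcases h1 with ⟨h2, h3⟩ | ⟨h2, h3⟩ | ⟨h2, h3⟩
    · refine Or.inl ⟨h2, h3, ?_⟩
      rw [h2, h3]
      exact s.on k
    · exact Or.inr (Or.inl ⟨h2, h3, s.edgeI h2 h3⟩)
    · exact Or.inr (Or.inr ⟨h2, h3, s.edgeII h h2 h3⟩)
  · exact absurd (s.Luniq h1 h') (fin_ne1 k).symm

/-- the label of `out c v` on the left side of the edge -/
theorem outL {v : V} (hv : s.inn v) (c : Fin 3) :
    s.L c (s.gL c v) (s.out c v) ∨ s.monoL c v := by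
  have h1 := s.nxL (s.lL c v hv)
  rw [s.nL c v hv, fin21] at h1
  rcases h1 with h1 | h1
  · exact Or.inr h1
  · exact Or.inl h1

/-- the label of `out c v` on the right side of the edge -/
theorem outR {v : V} (hv : s.inn v) (c : Fin 3) :
    s.L c (s.gR c v) (s.out c v) ∨ s.monoR c v := by
  obtain ⟨l, hl⟩ := s.iR c v hv
  have h1 := s.nxL hl
  rw [s.nR c v hv] at h1
  have h2 := s.lR c v hv
  rcases h1 with h1 | h1
  · have h3 := s.Luniq h1 h2
    rw [h3] at hl
    exact Or.inr hl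
  · have h3 : l + 1 = c + 1 := s.Luniq h1 h2
    have h4 : l = c := fin_succ_inj h3
    rw [h4] at hl
    exact Or.inl hl

theorem mono_excl {v : V} (hv : s.inn v) (c : Fin 3) : ¬ (s.monoL c v ∧ s.monoR c v) := by
  rintro ⟨h1, h2⟩
  rcases s.lLR c v hv with h | h
  · exact fin_ne2 c (s.Luniq h1 h)
  · exact fin_ne1 c (s.Luniq h2 h)

/-! ### potentials -/

theorem out_pot {v : V} (hv : s.inn v) (c : Fin 3) :
    s.r c v < s.r c (s.out c v) ∧ ∀ j, j ≠ c → s.r j (s.out c v) ≤ s.r j v := by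
  refine ⟨?_, fun j hj => ?_⟩
  · rcases s.lLR c v hv with h | h
    · exact s.pot h (s.lL c v hv) (fin_ne2 c)
    · exact s.pot h (s.lR c v hv) (fin_ne1 c)
  · rcases fin_cs hj with rfl | rfl
    · rcases s.outR hv c with h | h
      · exact (s.pot (s.lR c v hv) h (fin_ne1 c).symm).le
      · exact (s.potE (s.lR c v hv) (show s.L (c + 1) (s.gR c v) (s.out c v) from h)).le
    · rcases s.outL hv c with h | h
      · exact (s.pot (s.lL c v hv) h (fin_ne2 c).symm).le
      · exact (s.potE (s.lL c v hv) (show s.L (c + 2) (s.gL c v) (s.out c v) from h)).le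

theorem out_lt_L {v : V} (hv : s.inn v) (c : Fin 3) (h : ¬ s.monoL c v) :
    s.r (c + 2) (s.out c v) < s.r (c + 2) v := by
  rcases s.outL hv c with h' | h'
  · exact s.pot (s.lL c v hv) h' (fin_ne2 c).symm
  · exact absurd h' h

theorem out_lt_R {v : V} (hv : s.inn v) (c : Fin 3) (h : ¬ s.monoR c v) :
    s.r (c + 1) (s.out c v) < s.r (c + 1) v := by
  rcases s.outR hv c with h' | h'
  · exact s.pot (s.lR c v hv) h' (fin_ne1 c).symm
  · exact absurd h' h

theorem out_eq_L {v : V} (hv : s.inn v) (c : Fin 3) (h : s.monoL c v) :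
    s.r (c + 2) (s.out c v) = s.r (c + 2) v :=
  s.potE (s.lL c v hv) (show s.L (c + 2) (s.gL c v) (s.out c v) from h)

theorem out_eq_R {v : V} (hv : s.inn v) (c : Fin 3) (h : s.monoR c v) :
    s.r (c + 1) (s.out c v) = s.r (c + 1) v :=
  s.potE (s.lR c v hv) (show s.L (c + 1) (s.gR c v) (s.out c v) from h)

theorem out_ne {v : V} (hv : s.inn v) (c : Fin 3) : s.out c v ≠ v := by
  intro h
  have h1 := (s.out_pot hv c).1
  rw [h] at h1
  exact lt_irrefl _ h1

theorem out_outer {v : V} (hv : s.inn v) (c j : Fin 3) (h : s.out c v = s.a j) : j = c := by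
  rcases s.lLR c v hv with h1 | h1
  · rw [h] at h1
    exact (s.lab h1).symm
  · rw [h] at h1
    exact (s.lab h1).symm

theorem a_pot {j k : Fin 3} (h : j ≠ k) : s.r k (s.a j) < s.r k (s.a k) := by
  rcases fin_cs h with rfl | rfl
  · exact s.pot (s.o0 k) (s.o1 k) (fin_ne1 k)
  · have h2 := s.o1 (k + 2)
    rw [fin21] at h2
    exact s.pot h2 (s.o0 (k + 2)) (fin_ne2 k)

theorem step_pot {k : Fin 3} {u v : V} (h : s.step k u v) : s.r k u ≤ s.r k v := by
  rcases h with ⟨hu, rfl⟩ | ⟨j, hj, hv, rfl⟩ | ⟨j, hj, rfl, rfl⟩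
  · exact (s.out_pot hu k).1.le
  · exact (s.out_pot hv j).2 k hj.symm
  · exact (s.a_pot hj).le

theorem Le_refl (k : Fin 3) (u : V) : s.Le k u u := Relation.ReflTransGen.refl

theorem Le_trans {k : Fin 3} {u v w : V} (h : s.Le k u v) (h' : s.Le k v w) : s.Le k u w :=
  Relation.ReflTransGen.trans h h'

theorem Le_pot {k : Fin 3} {u v : V} (h : s.Le k u v) : s.r k u ≤ s.r k v := by
  induction h with
  | refl => exact le_rfl
  | tail _ h2 ih => exact ih.trans (s.step_pot h2)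

theorem Le_out {v : V} (hv : s.inn v) (c : Fin 3) : s.Le c v (s.out c v) :=
  Relation.ReflTransGen.single (Or.inl ⟨hv, rfl⟩)

theorem out_Le {v : V} (hv : s.inn v) {c j : Fin 3} (h : j ≠ c) : s.Le j (s.out c v) v :=
  Relation.ReflTransGen.single (Or.inr (Or.inl ⟨c, h.symm, hv, rfl⟩))

/-! ### bidirected edges -/

theorem Rev_symm {c c' : Fin 3} {v w : V} (h : s.Rev c v c' w) : s.Rev c' w c v :=
  ⟨h.2.1, h.1, h.2.2.2, h.2.2.1⟩

theorem Rev_ne {c c' : Fin 3} {v w : V} (h : s.Rev c v c' w) : c' ≠ c := by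
  rintro rfl
  obtain ⟨h1, h2, h3, h4⟩ := h
  have h5 := (s.out_pot h1 c').1
  have h6 := (s.out_pot h2 c').1
  rw [← h3] at h5
  rw [← h4] at h6
  exact lt_irrefl _ (h5.trans h6)

/-- the faces at a bidirected edge -/
theorem Rev_gR {c c' : Fin 3} {v w : V} (h : s.Rev c v c' w) : s.gR c' w = s.gL c v := by
  obtain ⟨h1, h2, h3, h4⟩ := h
  have e1 := s.nR c' w h2
  obtain ⟨l, hl⟩ := s.iR c' w h2
  rw [← h4] at e1 hl
  have e2 := s.nL c v h1
  rw [← h3] at e2
  exact s.dart hl (s.lL c v h1) (e1.trans e2.symm)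

theorem Rev_gL {c c' : Fin 3} {v w : V} (h : s.Rev c v c' w) : s.gL c' w = s.gR c v :=
  (s.Rev_gR (s.Rev_symm h)).symm

theorem Rev_monoL {c : Fin 3} {v w : V} (h : s.Rev c v (c + 1) w) : s.monoL c v := by
  have h1 := s.lR (c + 1) w h.2.1
  rw [s.Rev_gR h, fin11, h.2.2.1] at h1
  exact h1

theorem Rev_monoR {c : Fin 3} {v w : V} (h : s.Rev c v (c + 2) w) : s.monoR c v := by
  have h1 := s.lL (c + 2) w h.2.1
  rw [s.Rev_gL h, fin22, h.2.2.1] at h1
  exact h1

theorem monoL_Rev {c : Fin 3} {v : V} (hv : s.inn v) (h : s.monoL c v) :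
    s.Rev c v (c + 1) (s.out c v) := by
  have h1 := s.lL c v hv
  have h2 := s.nL c v hv
  have h3 : s.L (c + 2) (s.gL c v) (s.nx (s.gL c v) v) := by rw [h2]; exact h
  obtain ⟨-, h5, -, -, -, h9⟩ := s.edgeM h1 h3
  rw [h2] at h5 h9
  rw [fin22] at h9
  exact ⟨hv, h5, rfl, h9⟩

theorem monoR_Rev {c : Fin 3} {v : V} (hv : s.inn v) (h : s.monoR c v) :
    s.Rev c v (c + 2) (s.out c v) := by
  have h2 := s.nR c v hv
  have h3 : s.L (c + 1) (s.gR c v) (s.nx (s.gR c v) (s.out c v)) := by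
    rw [h2]; exact s.lR c v hv
  obtain ⟨h5, -, -, -, h8, -⟩ := s.edgeM h h3
  rw [h2] at h8
  rw [fin11] at h8
  exact ⟨hv, h5, rfl, h8⟩

theorem monoL_iff {c : Fin 3} {v : V} (hv : s.inn v) :
    s.monoL c v ↔ s.Rev c v (c + 1) (s.out c v) :=
  ⟨s.monoL_Rev hv, s.Rev_monoL⟩

theorem monoR_iff {c : Fin 3} {v : V} (hv : s.inn v) :
    s.monoR c v ↔ s.Rev c v (c + 2) (s.out c v) :=
  ⟨s.monoR_Rev hv, s.Rev_monoR⟩

theorem Rev_cases {c c' : Fin 3} {v w : V} (h : s.Rev c v c' w) :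
    (c' = c + 1 ∧ s.monoL c v) ∨ (c' = c + 2 ∧ s.monoR c v) := by
  rcases fin_cs (s.Rev_ne h) with rfl | rfl
  · exact Or.inl ⟨rfl, s.Rev_monoL h⟩
  · exact Or.inr ⟨rfl, s.Rev_monoR h⟩

/-- the reverse name is unique -/
theorem Rev_uniq {c c' c'' : Fin 3} {v w w' : V} (h : s.Rev c v c' w) (h' : s.Rev c v c'' w') :
    c' = c'' ∧ w = w' := by
  refine ⟨?_, h.2.2.1.trans h'.2.2.1.symm⟩
  rcases s.Rev_cases h with ⟨h1, h2⟩ | ⟨h1, h2⟩ <;> rcases s.Rev_cases h' with ⟨h3, h4⟩ | ⟨h3, h4⟩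
  · rw [h1, h3]
  · exact absurd ⟨h2, h4⟩ (s.mono_excl h.1 c)
  · exact absurd ⟨h4, h2⟩ (s.mono_excl h.1 c)
  · rw [h1, h3]

/-- a bidirected edge goes both ways in the order of its third colour -/
theorem Rev_Le {k : Fin 3} {v w : V} (h : s.Rev (k + 1) v (k + 2) w) : s.Le k v w ∧ s.Le k w v := by
  obtain ⟨h1, h2, h3, h4⟩ := h
  constructor
  · have := s.out_Le h2 (c := k + 2) (j := k) (fin_ne2 k).symm
    rwa [← h4] at this
  · have := s.out_Le h1 (c := k + 1) (j := k) (fin_ne1 k).symm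
    rwa [← h3] at this

theorem Rev_pot {k : Fin 3} {v w : V} (h : s.Rev (k + 1) v (k + 2) w) : s.r k v = s.r k w :=
  le_antisymm (s.Le_pot (s.Rev_Le h).1) (s.Le_pot (s.Rev_Le h).2)

/-! ### the order on a face -/

/-- the vertices of `g` with the label `k` are equivalent in `≤_k` -/
theorem Le_face_t {k : Fin 3} {g : F} {v : V} (h : s.L k g v) :
    s.Le k v (s.t k g) ∧ s.Le k (s.t k g) v := by
  obtain ⟨n, hn⟩ := s.cyc h (s.tL k g)
  induction n generalizing v with
  | zero =>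
    have h1 : v = s.t k g := hn
    rw [h1]
    exact ⟨s.Le_refl _ _, s.Le_refl _ _⟩
  | succ n ih =>
    rw [Function.iterate_succ_apply] at hn
    rcases s.nxL h with h1 | h1
    · obtain ⟨e1, e2, -, -, e5, e6⟩ := s.edgeM h h1
      have e7 := s.Rev_Le ⟨e1, e2, e5, e6⟩
      have e8 := ih h1 hn
      exact ⟨s.Le_trans e7.1 e8.1, s.Le_trans e8.2 e7.2⟩
    · have h2 := s.tU h h1
      rw [h2]
      exact ⟨s.Le_refl _ _, s.Le_refl _ _⟩

/-- forwards: from the label `k + 2` to the label `k` -/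
theorem Le_face2 {k : Fin 3} {g : F} {u : V} (h : s.L (k + 2) g u) : s.Le k u (s.t k g) := by
  obtain ⟨n, hn⟩ := s.cyc h (s.tL k g)
  induction n generalizing u with
  | zero =>
    have h1 : u = s.t k g := hn
    rw [h1]
    exact s.Le_refl _ _
  | succ n ih =>
    rw [Function.iterate_succ_apply] at hn
    rcases s.nxL h with h1 | h1
    · obtain ⟨e1, -, -, -, e5, -⟩ := s.edgeM h h1
      rw [fin21] at e5
      refine s.Le_trans ?_ (ih h1 hn)
      rw [e5]
      exact s.Le_out e1 k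
    · have h3 := s.edgeD h h1
      rw [fin21] at h1 h3
      refine s.Le_trans ?_ (s.Le_face_t h1).1
      rcases h3 with ⟨e1, e2, e3⟩ | ⟨e1, e2, e3⟩ | ⟨e1, e2, e3⟩
      · rw [e3, e2]
        exact Relation.ReflTransGen.single (Or.inr (Or.inr ⟨k + 2, fin_ne2 k, rfl, rfl⟩))
      · rw [e3]
        exact s.Le_out e1 k
      · have := s.out_Le e1 (c := k + 2) (j := k) (fin_ne2 k).symm
        rwa [← e3] at this

private theorem pass_t {k : Fin 3} {g : F} {u : V} (hu : s.L (k + 1) g u) (n : ℕ) :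
    ∀ x : V, (s.L (k + 2) g x ∨ s.L k g x) → (s.nx g)^[n] x = u →
      ∃ j, j < n ∧ (s.nx g)^[j] x = s.t k g := by
  induction n with
  | zero =>
    intro x hx h
    have h1 : x = u := h
    rw [h1] at hx
    rcases hx with hx | hx
    · exact absurd (s.Luniq hu hx) (fin_ne12 k)
    · exact absurd (s.Luniq hu hx) (fin_ne1 k)
  | succ n ih =>
    intro x hx h
    rw [Function.iterate_succ_apply] at h
    rcases hx with hx | hx
    · have h2 : s.L (k + 2) g (s.nx g x) ∨ s.L k g (s.nx g x) := by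
        have h3 := s.nxL hx
        rwa [fin21] at h3
      obtain ⟨j, hj, h4⟩ := ih _ h2 h
      exact ⟨j + 1, by omega, by rw [Function.iterate_succ_apply]; exact h4⟩
    · rcases s.nxL hx with h2 | h2
      · obtain ⟨j, hj, h4⟩ := ih _ (Or.inr h2) h
        exact ⟨j + 1, by omega, by rw [Function.iterate_succ_apply]; exact h4⟩
      · exact ⟨0, by omega, s.tU hx h2⟩

private theorem Le_face1_aux {k : Fin 3} {g : F} {u : V} (hu : s.L (k + 1) g u) (n : ℕ) :
    ∀ x : V, s.L (k + 1) g x → s.Le k x (s.t k g) → (s.nx g)^[n] x = u →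
      s.Le k u (s.t k g) := by
  induction n using Nat.strong_induction_on with
  | _ n ih =>
    intro x hx hle h
    rcases n with _ | n
    · have h1 : x = u := h
      rw [← h1]
      exact hle
    · rw [Function.iterate_succ_apply] at h
      rcases s.nxL hx with h1 | h1
      · obtain ⟨-, e2, -, -, -, e6⟩ := s.edgeM hx h1
        have e7 : k + 1 + 2 = k := fin12 k
        rw [e7] at e6
        refine ih n (by omega) _ h1 ?_ h
        refine s.Le_trans ?_ hle
        have := s.Le_out e2 k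
        rwa [← e6] at this
      · rw [fin11] at h1
        obtain ⟨j, hj, h2⟩ := s.pass_t hu n _ (Or.inl h1) h
        obtain ⟨m, hm⟩ : ∃ m, n = m + 1 + j := ⟨n - 1 - j, by omega⟩
        have h3 : (s.nx g)^[m] (s.nx g (s.t k g)) = u := by
          rw [← h2, ← Function.iterate_succ_apply' (s.nx g) j, ← Function.iterate_add_apply]
          have h5 : m + (j + 1) = n := by omega
          rw [h5]
          exact h
        refine ih m (by omega) _ (s.tN k g) ?_ h3
        rcases s.edgeD (s.tL k g) (s.tN k g) with ⟨e1, e2, e3⟩ | ⟨e1, e2, e3⟩ | ⟨e1, e2, e3⟩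
        · rw [e3, e2]
          exact Relation.ReflTransGen.single (Or.inr (Or.inr ⟨k + 1, fin_ne1 k, rfl, rfl⟩))
        · rw [e3]
          exact s.out_Le e1 (fin_ne1 k).symm
        · have := s.Le_out e1 k
          rwa [← e3] at this

/-- backwards: from the label `k + 1` to the label `k` -/
theorem Le_face1 {k : Fin 3} {g : F} {u : V} (h : s.L (k + 1) g u) : s.Le k u (s.t k g) := by
  have h0 : s.Le k (s.nx g (s.t k g)) (s.t k g) := by
    rcases s.edgeD (s.tL k g) (s.tN k g) with ⟨e1, e2, e3⟩ | ⟨e1, e2, e3⟩ | ⟨e1, e2, e3⟩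
    · rw [e3, e2]
      exact Relation.ReflTransGen.single (Or.inr (Or.inr ⟨k + 1, fin_ne1 k, rfl, rfl⟩))
    · rw [e3]
      exact s.out_Le e1 (fin_ne1 k).symm
    · have := s.Le_out e1 k
      rwa [← e3] at this
  obtain ⟨n, hn⟩ := s.cyc (s.tN k g) h
  exact s.Le_face1_aux h n _ (s.tN k g) h0 hn

/-- every vertex of `g` is below the vertices with the label `k` in the order `≤_k` -/
theorem Le_face {k l : Fin 3} {g : F} {u v : V} (hu : s.L l g u) (hv : s.L k g v) :
    s.Le k u v := by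
  refine s.Le_trans ?_ (s.Le_face_t hv).2
  rcases fin_cs3 l k with rfl | rfl | rfl
  · exact (s.Le_face_t hu).1
  · exact s.Le_face1 hu
  · exact s.Le_face2 hu

/-! ### paths -/

theorem Pth_refl (c : Fin 3) (z : V) : s.Pth c z z := Relation.ReflTransGen.refl

theorem Pth_trans {c : Fin 3} {u v w : V} (h : s.Pth c u v) (h' : s.Pth c v w) : s.Pth c u w :=
  Relation.ReflTransGen.trans h h'

theorem Pth_out {z : V} (hz : s.inn z) (c : Fin 3) : s.Pth c z (s.out c z) :=
  Relation.ReflTransGen.single ⟨hz, rfl⟩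

theorem Pth_Le {c : Fin 3} {z u : V} (h : s.Pth c z u) :
    s.Le c z u ∧ ∀ j, j ≠ c → s.Le j u z := by
  induction h with
  | refl => exact ⟨s.Le_refl c _, fun j _ => s.Le_refl j _⟩
  | tail _ h2 ih =>
    obtain ⟨h3, rfl⟩ := h2
    refine ⟨ih.1.tail (Or.inl ⟨h3, rfl⟩), fun j hj => ?_⟩
    exact (ih.2 j hj).head (Or.inr (Or.inl ⟨c, hj.symm, h3, rfl⟩))

/-- the potential `r c` increases strictly along the path `P_c` -/
theorem Pth_pot {c : Fin 3} {z u : V} (h : s.Pth c z u) : u = z ∨ s.r c z < s.r c u := by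
  induction h with
  | refl => exact Or.inl rfl
  | tail _ h2 ih =>
    obtain ⟨h3, rfl⟩ := h2
    right
    rcases ih with rfl | ih
    · exact (s.out_pot h3 c).1
    · exact ih.trans (s.out_pot h3 c).1

theorem Pth_antisymm {c : Fin 3} {u v : V} (h : s.Pth c u v) (h' : s.Pth c v u) : u = v := by
  rcases s.Pth_pot h with h1 | h1
  · exact h1.symm
  · rcases s.Pth_pot h' with h2 | h2
    · exact h2
    · exact absurd (h1.trans h2) (lt_irrefl _)

theorem Pth_end {z : V} (hz : s.inn z) (c : Fin 3) : s.Pth c z (s.a c) := by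
  have htr : IsTrans V (fun x y : V => s.r c y < s.r c x) := ⟨fun _ _ _ h1 h2 => h2.trans h1⟩
  have hir : Std.Irrefl (fun x y : V => s.r c y < s.r c x) := ⟨fun _ h => lt_irrefl _ h⟩
  have wf : WellFounded (fun x y : V => s.r c y < s.r c x) :=
    Finite.wellFounded_of_trans_of_irrefl _
  induction z using wf.induction with
  | _ z ih =>
    by_cases ho : s.inn (s.out c z)
    · exact (ih (s.out c z) (s.out_pot hz c).1 ho).head ⟨hz, rfl⟩
    · unfold inn at ho
      push Not at ho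
      obtain ⟨j, hj⟩ := ho
      have hjc := s.out_outer hz c j hj
      subst hjc
      exact Relation.ReflTransGen.single ⟨hz, hj.symm⟩

theorem Pth_total {c : Fin 3} {z u v : V} (h : s.Pth c z u) (h' : s.Pth c z v) :
    s.Pth c u v ∨ s.Pth c v u := by
  refine Relation.ReflTransGen.total_of_right_unique ?_ h h'
  rintro x y w ⟨-, rfl⟩ ⟨-, rfl⟩
  rfl

theorem Pth_outer {c j : Fin 3} {u : V} (h : s.Pth c (s.a j) u) : u = s.a j := by
  rcases Relation.ReflTransGen.cases_head h with h1 | ⟨w, ⟨h1, -⟩, -⟩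
  · exact h1.symm
  · exact absurd rfl (h1 j)

theorem Pth_step {c : Fin 3} {z : V} (hz : s.inn z) (u : V) :
    s.Pth c z u ↔ u = z ∨ s.Pth c (s.out c z) u := by
  constructor
  · intro h
    rcases Relation.ReflTransGen.cases_head h with h1 | ⟨w, ⟨-, rfl⟩, h2⟩
    · exact Or.inl h1.symm
    · exact Or.inr h2
  · rintro (rfl | h)
    · exact Relation.ReflTransGen.refl
    · exact h.head ⟨hz, rfl⟩

/-- every vertex is below `a k` in the order `≤_k` -/
theorem Le_a (k : Fin 3) (v : V) : s.Le k v (s.a k) := by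
  by_cases hv : s.inn v
  · exact (s.Pth_Le (s.Pth_end hv k)).1
  · unfold inn at hv
    push Not at hv
    obtain ⟨j, rfl⟩ := hv
    by_cases hjk : j = k
    · rw [hjk]
      exact s.Le_refl k _
    · exact Relation.ReflTransGen.single (Or.inr (Or.inr ⟨j, hjk, rfl, rfl⟩))

/-! ### (P7) -/

/-- one bidirected edge with the third colour `k`, in the direction of the colour `k + 1` -/
def Bi (k : Fin 3) (x y : V) : Prop := s.Rev (k + 1) x (k + 2) y

theorem Bi_uniq_r {k : Fin 3} {x y y' : V} (h : s.Bi k x y) (h' : s.Bi k x y') : y = y' :=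
  h.2.2.1.trans h'.2.2.1.symm

theorem Bi_uniq_l {k : Fin 3} {x x' y : V} (h : s.Bi k x y) (h' : s.Bi k x' y) : x = x' :=
  h.2.2.2.trans h'.2.2.2.symm

/-- a step of `≤_k` with equal potentials is a bidirected edge -/
theorem step_Bi {k : Fin 3} {u v : V} (h : s.step k u v) (hr : s.r k u = s.r k v) :
    s.Bi k u v ∨ s.Bi k v u := by
  rcases h with ⟨hu, rfl⟩ | ⟨j, hj, hv, rfl⟩ | ⟨j, hj, rfl, rfl⟩
  · exact absurd hr (s.out_pot hu k).1.ne
  · rcases fin_cs hj with rfl | rfl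
    · right
      by_cases hm : s.monoL (k + 1) v
      · have h1 := s.monoL_Rev hv hm
        rw [fin11] at h1
        exact h1
      · have h1 := s.out_lt_L hv (k + 1) hm
        rw [fin12] at h1
        exact absurd hr h1.ne
    · left
      by_cases hm : s.monoR (k + 2) v
      · have h1 := s.monoR_Rev hv hm
        rw [fin22] at h1
        exact s.Rev_symm h1
      · have h1 := s.out_lt_R hv (k + 2) hm
        rw [fin21] at h1
        exact absurd hr h1.ne
  · exact absurd hr (s.a_pot hj).ne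

/-- **(P7)** -/
theorem P7 {k : Fin 3} {u v : V} (h : s.Le k u v) (hr : s.r k u = s.r k v) :
    Relation.ReflTransGen (s.Bi k) u v ∨ Relation.ReflTransGen (s.Bi k) v u := by
  induction h with
  | refl => exact Or.inl Relation.ReflTransGen.refl
  | @tail w v h1 h2 ih =>
    have e1 := s.Le_pot h1
    have e2 := s.step_pot h2
    have e3 : s.r k u = s.r k w := le_antisymm e1 (by rw [hr]; exact e2)
    have e4 : s.r k w = s.r k v := e3.symm.trans hr
    rcases s.step_Bi h2 e4 with h3 | h3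
    · rcases ih e3 with h4 | h4
      · exact Or.inl (h4.tail h3)
      · rcases Relation.ReflTransGen.cases_head h4 with h5 | ⟨x, h5, h6⟩
        · rw [← h5]
          exact Or.inl (Relation.ReflTransGen.single h3)
        · rw [s.Bi_uniq_r h3 h5]
          exact Or.inr h6
    · rcases ih e3 with h4 | h4
      · rcases Relation.ReflTransGen.cases_tail h4 with h5 | ⟨x, h5, h6⟩
        · rw [← h5]
          exact Or.inr (Relation.ReflTransGen.single h3)
        · rw [s.Bi_uniq_l h3 h6]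
          exact Or.inl h5
      · exact Or.inr (Relation.ReflTransGen.head h3 h4)

theorem Bi_Pth {k : Fin 3} {u v : V} (h : Relation.ReflTransGen (s.Bi k) u v) :
    s.Pth (k + 1) u v ∧ s.Pth (k + 2) v u := by
  induction h with
  | refl => exact ⟨s.Pth_refl _ _, s.Pth_refl _ _⟩
  | tail _ h2 ih =>
    obtain ⟨e1, e2, e3, e4⟩ := h2
    exact ⟨ih.1.tail ⟨e1, e3⟩, Relation.ReflTransGen.head ⟨e2, e4⟩ ih.2⟩

theorem Bi_Le {k : Fin 3} {u v : V} (h : Relation.ReflTransGen (s.Bi k) u v) :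
    s.Le k u v ∧ s.Le k v u := by
  induction h with
  | refl => exact ⟨s.Le_refl _ _, s.Le_refl _ _⟩
  | tail _ h2 ih =>
    have h3 := s.Rev_Le h2
    exact ⟨s.Le_trans ih.1 h3.1, s.Le_trans h3.2 ih.2⟩

/-- (P7) with paths: `v` lies on `P_(k+1)(u)` or on `P_(k+2)(u)`, and back -/
theorem P7_Pth {k : Fin 3} {u v : V} (h : s.Le k u v) (hr : s.r k u = s.r k v) :
    (s.Pth (k + 1) u v ∧ s.Pth (k + 2) v u) ∨ (s.Pth (k + 2) u v ∧ s.Pth (k + 1) v u) := by
  rcases s.P7 h hr with h1 | h1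
  · exact Or.inl (s.Bi_Pth h1)
  · exact Or.inr ⟨(s.Bi_Pth h1).2, (s.Bi_Pth h1).1⟩

theorem P7_Le {k : Fin 3} {u v : V} (h : s.Le k u v) (hr : s.r k u = s.r k v) : s.Le k v u := by
  rcases s.P7 h hr with h1 | h1
  · exact (s.Bi_Le h1).2
  · exact (s.Bi_Le h1).1

/-- `u ≤_k v` and not `v ≤_k u` gives a strict inequality of the potentials -/
theorem Le_lt {k : Fin 3} {u v : V} (h : s.Le k u v) (h' : ¬ s.Le k v u) : s.r k u < s.r k v := by
  rcases (s.Le_pot h).lt_or_eq with h1 | h1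
  · exact h1
  · exact absurd (s.P7_Le h h1) h'

theorem Le_eq {k : Fin 3} {u v : V} (h : s.Le k u v) (h' : s.Le k v u) : s.r k u = s.r k v :=
  le_antisymm (s.Le_pot h) (s.Le_pot h')

end Pool.RP.SchP
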