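import Pool.Agent.Lib.MP_9dcace_rp.Rb

/-!
ROW Wb (port of W2): counting on a leg, and the normalized measure `rho`.
Let m = legN j y R, k ≠ j, w_i = lp j y i (i ≤ m).  On a bidirected leg edge only one of the sets
CC (j+1) i, CC (j+2) i has to be nonempty (`lLR`), so Σ rho0 is 1/2 or 1, rho ≥ rho0.
-/

set_option autoImplicit false

open Classical

namespace Pool.RP.SchPS

open Pool.SX

variable {V F : Type} [Fintype V] [Fintype F] (s : SchPS V F)

private theorem W2_part {z : V} {g : F} {k l : Fin 3} (h : g ∈ s.S k z) (h' : g ∈ s.S l z) :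
    k = l :=
  (s.part z g).unique h h'

private theorem W2_S_up {R : Finset F} {y : V} {j : Fin 3} {i i' : ℕ} (hi : i ≤ i')
    (h : i' ≤ s.legN j y R) : s.S j (s.lp j y i) ⊆ s.S j (s.lp j y i') :=
  s.mono _ _ _ (s.toSchP.Ra_Pth_Le_self (s.leg_Pth hi h))

private theorem W2_S_down {R : Finset F} {y : V} {j l : Fin 3} (hl : l ≠ j) {i i' : ℕ}
    (hi : i ≤ i') (h : i' ≤ s.legN j y R) : s.S l (s.lp j y i') ⊆ s.S l (s.lp j y i) :=
  s.mono _ _ _ (s.toSchP.Ra_Pth_Le hl (s.leg_Pth hi h))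

private theorem W2_or {R : Finset F} {y : V} {j k : Fin 3} {i : ℕ}
    (h : i ≤ s.legN j y R) {g : F} (hg : g ∈ s.kid k y R) :
    g ∈ s.S k (s.lp j y i) ∨ g ∈ s.S j (s.lp j y i) := by
  obtain ⟨l, hl, -⟩ := s.part (s.lp j y i) g
  by_cases hlj : l = j
  · subst hlj
    exact Or.inr hl
  · left
    have h1 : g ∈ s.S l (s.lp j y 0) := s.W2_S_down hlj (Nat.zero_le i) h hl
    rw [lp_zero] at h1
    have h2 : g ∈ s.S k y := (Finset.mem_inter.1 hg).1
    rw [s.W2_part h2 h1]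
    exact hl

private theorem W2_idx {j k : Fin 3} (hjk : k ≠ j) : k = j + 1 ∨ k = j + 2 := by
  revert j k
  decide

private theorem W2_j1 (j : Fin 3) : j + 1 ≠ j := by
  revert j
  decide

private theorem W2_j2 (j : Fin 3) : j + 2 ≠ j := by
  revert j
  decide

private theorem Wb_CC {R : Finset F} {y : V} {j : Fin 3} {i : ℕ} (hi : i < s.legN j y R) :
    (s.CC R y j (j + 1) i).Nonempty ∨ (s.CC R y j (j + 2) i).Nonempty := by
  have hIn := s.leg_In hi
  have hP : s.Pth j y (s.lp j y i) := by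
    have := s.leg_Pth (j := j) (y := y) (R := R) (Nat.zero_le i) hi.le
    rwa [lp_zero] at this
  have hpc := s.pathcross j y (s.lp j y i) hIn.1 hP
  rcases s.lLR j (s.lp j y i) hIn.1 with hl | hl
  · refine Or.inr ⟨s.gL j (s.lp j y i), Finset.mem_inter.2 ⟨?_, Finset.mem_inter.2 ⟨?_,
      Finset.mem_inter.2 ⟨hpc.1, hIn.2.1⟩⟩⟩⟩
    · exact s.self (s.lL j _ hIn.1)
    · have := s.self hl
      rwa [← lp_succ] at this
  · refine Or.inl ⟨s.gR j (s.lp j y i), Finset.mem_inter.2 ⟨?_, Finset.mem_inter.2 ⟨?_,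
      Finset.mem_inter.2 ⟨hpc.2, hIn.2.2⟩⟩⟩⟩
    · exact s.self (s.lR j _ hIn.1)
    · have := s.self hl
      rwa [← lp_succ] at this

/-- at least one side of a leg edge has its face in the set `CC` (both sides, if the edge has the label
`j` at the far end on both sides) -/
theorem CC_nonempty {R : Finset F} {y : V} (_hR : s.Reg R) (_hy : s.Adm y R) {j : Fin 3}
    {i : ℕ} (hi : i < s.legN j y R) :
    (s.CC R y j (j + 1) i).Nonempty ∨ (s.CC R y j (j + 2) i).Nonempty :=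
  s.Wb_CC hi

/-- the side `j + 2` (left) of a leg edge which is not `monoL` -/
theorem CC_nonemptyL {R : Finset F} {y : V} {j : Fin 3} {i : ℕ} (hi : i < s.legN j y R)
    (hl : s.L j (s.gL j (s.lp j y i)) (s.out j (s.lp j y i))) :
    s.gL j (s.lp j y i) ∈ s.CC R y j (j + 2) i := by
  have hIn := s.leg_In hi
  have hP : s.Pth j y (s.lp j y i) := by
    have := s.leg_Pth (j := j) (y := y) (R := R) (Nat.zero_le i) hi.le
    rwa [lp_zero] at this
  have hpc := s.pathcross j y (s.lp j y i) hIn.1 hP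
  refine Finset.mem_inter.2 ⟨s.self (s.lL j _ hIn.1), Finset.mem_inter.2 ⟨?_,
    Finset.mem_inter.2 ⟨hpc.1, hIn.2.1⟩⟩⟩
  have := s.self hl
  rwa [← lp_succ] at this

/-- the side `j + 1` (right) of a leg edge which is not `monoR` -/
theorem CC_nonemptyR {R : Finset F} {y : V} {j : Fin 3} {i : ℕ} (hi : i < s.legN j y R)
    (hl : s.L j (s.gR j (s.lp j y i)) (s.out j (s.lp j y i))) :
    s.gR j (s.lp j y i) ∈ s.CC R y j (j + 1) i := by
  have hIn := s.leg_In hi
  have hP : s.Pth j y (s.lp j y i) := by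
    have := s.leg_Pth (j := j) (y := y) (R := R) (Nat.zero_le i) hi.le
    rwa [lp_zero] at this
  have hpc := s.pathcross j y (s.lp j y i) hIn.1 hP
  refine Finset.mem_inter.2 ⟨s.self (s.lR j _ hIn.1), Finset.mem_inter.2 ⟨?_,
    Finset.mem_inter.2 ⟨hpc.2, hIn.2.2⟩⟩⟩
  have := s.self hl
  rwa [← lp_succ] at this

theorem CC_sub {R : Finset F} {y : V} {j k : Fin 3} (_hjk : k ≠ j) {i : ℕ}
    (hi : i < s.legN j y R) : s.CC R y j k i ⊆ s.HH R y j k := by
  intro h hh
  rw [CC, Finset.mem_inter, Finset.mem_inter] at hh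
  rw [HH, Finset.mem_inter]
  exact ⟨s.W2_S_up hi le_rfl hh.2.1, hh.2.2⟩

theorem exists_CC {R : Finset F} {y : V} {j k : Fin 3} (hjk : k ≠ j) {h : F}
    (hh : h ∈ s.HH R y j k) : ∃! i, i < s.legN j y R ∧ h ∈ s.CC R y j k i := by
  rw [HH, Finset.mem_inter] at hh
  obtain ⟨h1, h2⟩ := hh
  have h3 : h ∈ s.S k y := (Finset.mem_inter.1 h2).1
  have hex : ∃ i, h ∈ s.S j (s.lp j y i) := ⟨_, h1⟩
  have hspec := Nat.find_spec hex
  have hle : Nat.find hex ≤ s.legN j y R := Nat.find_min' hex h1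
  have hpos : Nat.find hex ≠ 0 := by
    intro h0
    rw [h0, lp_zero] at hspec
    exact hjk (s.W2_part h3 hspec)
  obtain ⟨i, hi⟩ := Nat.exists_eq_succ_of_ne_zero hpos
  rw [hi] at hspec hle
  have hnot : h ∉ s.S j (s.lp j y i) := Nat.find_min hex (by omega)
  refine ⟨i, ⟨by omega, ?_⟩, ?_⟩
  · rw [CC, Finset.mem_inter, Finset.mem_inter]
    refine ⟨?_, hspec, h2⟩
    rcases s.W2_or (R := R) (j := j) (i := i) (by omega) h2 with h4 | h4
    · exact h4
    · exact absurd h4 hnot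
  · rintro i' ⟨hi', hC⟩
    rw [CC, Finset.mem_inter, Finset.mem_inter] at hC
    obtain ⟨hC1, hC2, -⟩ := hC
    have ha : Nat.find hex ≤ i' + 1 := Nat.find_min' hex hC2
    by_contra hne
    have hlt : i + 1 ≤ i' := by omega
    have h5 : h ∈ s.S j (s.lp j y i') := s.W2_S_up hlt hi'.le hspec
    exact hjk (s.W2_part hC1 h5)

theorem HH_zero {R : Finset F} {y : V} {j k : Fin 3} (hjk : k ≠ j) (h0 : s.legN j y R = 0) :
    s.HH R y j k = ∅ := by
  rw [Finset.eq_empty_iff_forall_notMem]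
  intro h hh
  rw [HH, Finset.mem_inter, h0, lp_zero] at hh
  exact hjk (s.W2_part (Finset.mem_inter.1 hh.2).1 hh.1)

theorem CC_card_sum {R : Finset F} {y : V} {j k : Fin 3} (hjk : k ≠ j) :
    ∑ i ∈ Finset.range (s.legN j y R), (s.CC R y j k i).card = (s.HH R y j k).card := by
  rw [← Finset.card_biUnion]
  · congr 1
    ext h
    rw [Finset.mem_biUnion]
    constructor
    · rintro ⟨i, hi, hC⟩
      exact s.CC_sub hjk (Finset.mem_range.1 hi) hC
    · intro hh
      obtain ⟨i, ⟨hi, hC⟩, -⟩ := s.exists_CC hjk hh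
      exact ⟨i, Finset.mem_range.2 hi, hC⟩
  · intro i hi i' hi' hne
    rw [Function.onFun, Finset.disjoint_left]
    intro h hC hC'
    have hh := s.CC_sub hjk (Finset.mem_range.1 (by simpa using hi)) hC
    exact hne ((s.exists_CC hjk hh).unique ⟨Finset.mem_range.1 (by simpa using hi), hC⟩
      ⟨Finset.mem_range.1 (by simpa using hi'), hC'⟩)

private theorem W2_card_pos {R : Finset F} {y : V} {j k : Fin 3} {i : ℕ}
    (h : (s.CC R y j k i).Nonempty) : (0 : ℝ) < ((s.CC R y j k i).card : ℝ) := by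
  exact_mod_cast Finset.card_pos.2 h

private theorem W2_card_pos' {R : Finset F} {y : V} {j k : Fin 3}
    (hjk : k ≠ j) {i : ℕ} (hi : i < s.legN j y R) (h : (s.CC R y j k i).Nonempty) :
    (0 : ℝ) < ((s.HH R y j k).card : ℝ) := by
  exact_mod_cast Finset.card_pos.2 (h.mono (s.CC_sub hjk hi))

private theorem W2_div_ge {R : Finset F} {y : V} {j k : Fin 3} (hjk : k ≠ j) {i : ℕ}
    (hi : i < s.legN j y R) (h : (s.CC R y j k i).Nonempty) :
    1 / (Fintype.card F : ℝ) ≤ ((s.CC R y j k i).card : ℝ) / ((s.HH R y j k).card : ℝ) := by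
  have h1 : (1 : ℝ) ≤ ((s.CC R y j k i).card : ℝ) := by
    exact_mod_cast Finset.card_pos.2 h
  have h2 : ((s.HH R y j k).card : ℝ) ≤ (Fintype.card F : ℝ) := by
    exact_mod_cast Finset.card_le_univ _
  exact div_le_div₀ (by positivity) h1 (s.W2_card_pos' hjk hi h) h2

private theorem W2_nn {R : Finset F} {y : V} {j : Fin 3} {i : ℕ} (l : Fin 3) :
    0 ≤ ((s.CC R y j l i).card : ℝ) / ((s.HH R y j l).card : ℝ) := by
  positivity

theorem rho0_nonneg (R : Finset F) (y : V) (j : Fin 3) (i : ℕ) : 0 ≤ s.rho0 R y j i := by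
  rw [rho0]
  have h1 := s.W2_nn (R := R) (y := y) (j := j) (i := i) (j + 1)
  have h2 := s.W2_nn (R := R) (y := y) (j := j) (i := i) (j + 2)
  linarith

theorem rho0_ge {R : Finset F} {y : V} {j : Fin 3} {i : ℕ}
    (hi : i < s.legN j y R) : 1 / (2 * (Fintype.card F : ℝ)) ≤ s.rho0 R y j i := by
  have e : 1 / (2 * (Fintype.card F : ℝ)) = 1 / 2 * (1 / (Fintype.card F : ℝ)) := by
    rw [one_div_mul_one_div]
  have n1 := s.W2_nn (R := R) (y := y) (j := j) (i := i) (j + 1)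
  have n2 := s.W2_nn (R := R) (y := y) (j := j) (i := i) (j + 2)
  rw [rho0, e]
  rcases s.Wb_CC hi with h | h
  · have h1 := s.W2_div_ge (W2_j1 j) hi h
    linarith
  · have h1 := s.W2_div_ge (W2_j2 j) hi h
    linarith

theorem rho0_pos {R : Finset F} {y : V} {j : Fin 3} {i : ℕ}
    (hi : i < s.legN j y R) : 0 < s.rho0 R y j i := by
  have n1 := s.W2_nn (R := R) (y := y) (j := j) (i := i) (j + 1)
  have n2 := s.W2_nn (R := R) (y := y) (j := j) (i := i) (j + 2)
  rw [rho0]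
  rcases s.Wb_CC hi with h | h
  · have h1 := div_pos (s.W2_card_pos h) (s.W2_card_pos' (W2_j1 j) hi h)
    linarith
  · have h1 := div_pos (s.W2_card_pos h) (s.W2_card_pos' (W2_j2 j) hi h)
    linarith

private theorem W2_sum_div {R : Finset F} {y : V} {j k : Fin 3} (hjk : k ≠ j) :
    ∑ i ∈ Finset.range (s.legN j y R),
      ((s.CC R y j k i).card : ℝ) / ((s.HH R y j k).card : ℝ) ≤ 1 := by
  rw [← Finset.sum_div, ← Nat.cast_sum, s.CC_card_sum hjk]
  exact div_self_le_one _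

theorem rho0_sum_le (R : Finset F) (y : V) (j : Fin 3) :
    ∑ i ∈ Finset.range (s.legN j y R), s.rho0 R y j i ≤ 1 := by
  simp only [rho0]
  rw [← Finset.mul_sum, Finset.sum_add_distrib]
  have h1 := s.W2_sum_div (R := R) (y := y) (W2_j1 j)
  have h2 := s.W2_sum_div (R := R) (y := y) (W2_j2 j)
  linarith

private theorem Wb_sum_one {R : Finset F} {y : V} {j k : Fin 3} (hjk : k ≠ j) {i : ℕ}
    (hi : i < s.legN j y R) (h : (s.CC R y j k i).Nonempty) :
    ∑ i ∈ Finset.range (s.legN j y R),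
      ((s.CC R y j k i).card : ℝ) / ((s.HH R y j k).card : ℝ) = 1 := by
  rw [← Finset.sum_div, ← Nat.cast_sum, s.CC_card_sum hjk]
  exact div_self (s.W2_card_pos' hjk hi h).ne'

theorem rho0_sum {R : Finset F} {y : V} (_hR : s.Reg R) (_hy : s.Adm y R) {j : Fin 3}
    (h0 : 0 < s.legN j y R) :
    1 / 2 ≤ ∑ i ∈ Finset.range (s.legN j y R), s.rho0 R y j i ∧
    ∑ i ∈ Finset.range (s.legN j y R), s.rho0 R y j i ≤ 1 := by
  refine ⟨?_, s.rho0_sum_le R y j⟩
  have n1 : 0 ≤ ∑ i ∈ Finset.range (s.legN j y R),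
      ((s.CC R y j (j + 1) i).card : ℝ) / ((s.HH R y j (j + 1)).card : ℝ) :=
    Finset.sum_nonneg fun i _ => s.W2_nn (j + 1)
  have n2 : 0 ≤ ∑ i ∈ Finset.range (s.legN j y R),
      ((s.CC R y j (j + 2) i).card : ℝ) / ((s.HH R y j (j + 2)).card : ℝ) :=
    Finset.sum_nonneg fun i _ => s.W2_nn (j + 2)
  simp only [rho0]
  rw [← Finset.mul_sum, Finset.sum_add_distrib]
  rcases s.Wb_CC h0 with h | h
  · have h1 := s.Wb_sum_one (W2_j1 j) h0 h
    linarith
  · have h1 := s.Wb_sum_one (W2_j2 j) h0 h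
    linarith

theorem rho0_sum_pos {R : Finset F} {y : V} {j : Fin 3} (h0 : 0 < s.legN j y R) :
    0 < ∑ i ∈ Finset.range (s.legN j y R), s.rho0 R y j i :=
  Finset.sum_pos (fun _ hi => s.rho0_pos (Finset.mem_range.1 hi)) ⟨0, Finset.mem_range.2 h0⟩

theorem rho0_le {R : Finset F} {y : V} {j : Fin 3} {i : ℕ} (hi : i < s.legN j y R) :
    s.rho0 R y j i ≤ s.rho R y j i := by
  rw [rho]
  have h1 := s.rho0_sum_pos (lt_of_le_of_lt (Nat.zero_le i) hi)
  have h2 := s.rho0_sum_le R y j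
  rw [le_div_iff₀ h1]
  exact mul_le_of_le_one_right (s.rho0_nonneg R y j i) h2

theorem rho_pos {R : Finset F} {y : V} (_hR : s.Reg R) (_hy : s.Adm y R) {j : Fin 3} {i : ℕ}
    (hi : i < s.legN j y R) : 0 < s.rho R y j i :=
  lt_of_lt_of_le (s.rho0_pos hi) (s.rho0_le hi)

theorem rho_sum {R : Finset F} {y : V} (_hR : s.Reg R) (_hy : s.Adm y R) {j : Fin 3}
    (h0 : 0 < s.legN j y R) : ∑ i ∈ Finset.range (s.legN j y R), s.rho R y j i = 1 := by
  simp only [rho]
  rw [← Finset.sum_div]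
  exact div_self (s.rho0_sum_pos h0).ne'

theorem rho_le_one {R : Finset F} {y : V} (hR : s.Reg R) (hy : s.Adm y R) {j : Fin 3} {i : ℕ}
    (hi : i < s.legN j y R) : s.rho R y j i ≤ 1 := by
  rw [← s.rho_sum hR hy (lt_of_le_of_lt (Nat.zero_le i) hi)]
  exact Finset.single_le_sum (f := fun i => s.rho R y j i)
    (fun i' hi' => (s.rho_pos hR hy (Finset.mem_range.1 hi')).le) (Finset.mem_range.2 hi)

theorem rho_ge {R : Finset F} {y : V} (_hR : s.Reg R) (_hy : s.Adm y R) {j : Fin 3} {i : ℕ}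
    (hi : i < s.legN j y R) : 1 / (2 * (Fintype.card F : ℝ)) ≤ s.rho R y j i :=
  (s.rho0_ge hi).trans (s.rho0_le hi)

theorem rho_cnt {R : Finset F} {y : V} (_hR : s.Reg R) (_hy : s.Adm y R) {j k : Fin 3}
    (hjk : k ≠ j) {i : ℕ} (hi : i < s.legN j y R) :
    ((s.CC R y j k i).card : ℝ) ≤ 2 * s.rho R y j i * ((s.HH R y j k).card : ℝ) := by
  have hnn : ∀ l, 0 ≤ ((s.CC R y j l i).card : ℝ) / ((s.HH R y j l).card : ℝ) := fun l => by
    positivity
  have hle : ((s.CC R y j k i).card : ℝ) / ((s.HH R y j k).card : ℝ) ≤ 2 * s.rho R y j i := by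
    have h1 := hnn (j + 1)
    have h2 := hnn (j + 2)
    have h3 := s.rho0_le hi
    rw [rho0] at h3
    rcases W2_idx hjk with hk | hk
    · subst hk
      linarith
    · subst hk
      linarith
  rcases (Nat.eq_zero_or_pos (s.HH R y j k).card) with h0 | h0
  · have h1 : (s.CC R y j k i).card = 0 := by
      have := Finset.card_le_card (s.CC_sub hjk hi)
      omega
    rw [h1, h0]
    simp
  · have h0' : (0 : ℝ) < ((s.HH R y j k).card : ℝ) := by exact_mod_cast h0
    rwa [div_le_iff₀ h0'] at hle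

end Pool.RP.SchPS
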