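import Pool.Agent.Lib.MP_9dcace_rp.Base

/-!
ROW Sb (helper64): the strips `B_c(g)` and their boundary ((3.4), (3.5) of the blueprint).
`Ch c g h`: the face `g` lies across the edge of `h` with the labels `c + 1, c + 2` (from `t (c + 1) h` to the next
vertex).  `B c g` = number of ways to reach a face from `g` by `Ch c` (0 or 1).
Boundaries are computed against an abstract test functional `Tst`.
-/

set_option autoImplicit false

open Classical

namespace Pool.RP.SchP

variable {V F : Type} [Fintype V] [Fintype F] (s : SchP V F)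

/-! ### arithmetic of the three indices -/

theorem sbf12 (c : Fin 3) : c + 1 + 2 = c := by revert c; decide
theorem sbf21 (c : Fin 3) : c + 2 + 1 = c := by revert c; decide
theorem sbf11 (c : Fin 3) : c + 1 + 1 = c + 2 := by revert c; decide
theorem sbf22 (c : Fin 3) : c + 2 + 2 = c + 1 := by revert c; decide
theorem sbn1 (c : Fin 3) : c + 1 ≠ c := by revert c; decide
theorem sbn2 (c : Fin 3) : c + 2 ≠ c := by revert c; decide
theorem sbn12 (c : Fin 3) : c + 1 ≠ c + 2 := by revert c; decide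
theorem sbcs (c k : Fin 3) : k = c ∨ k = c + 1 ∨ k = c + 2 := by revert c k; decide

/-! ### darts -/

/-- the reverse of an outer edge is not an edge of an inner face -/
theorem no_rev_outer {l q : Fin 3} {h : F} (h1 : s.L l h (s.a (q + 1))) :
    s.nx h (s.a (q + 1)) ≠ s.a q := by
  intro h2
  have e := s.lab h1
  subst e
  rcases s.nxL h1 with h3 | h3
  · rw [h2] at h3
    exact sbn1 q (s.lab h3)
  · rw [h2, sbf11] at h3
    exact sbn2 q (s.lab h3)

/-- the face on the left of a directed edge `v → out c v` -/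
theorem eq_gL {c l : Fin 3} {g : F} {v : V} (hv : s.inn v) (h1 : s.L l g v)
    (h2 : s.nx g v = s.out c v) : g = s.gL c v :=
  s.dart h1 (s.lL c v hv) (by rw [h2, s.nL c v hv])

/-- the face on the right of a directed edge `v → out c v` -/
theorem eq_gR {c l : Fin 3} {g : F} {v : V} (hv : s.inn v) (h1 : s.L l g (s.out c v))
    (h2 : s.nx g (s.out c v) = v) : g = s.gR c v := by
  obtain ⟨l', h3⟩ := s.iR c v hv
  exact s.dart h1 h3 (by rw [h2, s.nR c v hv])

/-- the predecessor of `v` in the face on its right -/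
theorem pv_gR {c l : Fin 3} {g : F} {v w : V} (hw : s.inn w) (hg : g = s.gR c w)
    (h1 : s.L l g v) (h2 : s.nx g v = w) : v = s.out c w := by
  obtain ⟨l', h3⟩ := s.iR c w hw
  rw [← hg] at h3
  refine s.nxinj h1 h3 ?_
  rw [h2, hg, s.nR c w hw]

/-- `g` lies across the edge of `h` with the labels `c + 1, c + 2` -/
def Ch (c : Fin 3) (g h : F) : Prop :=
  s.Inc (s.nx h (s.t (c + 1) h)) g ∧ s.nx g (s.nx h (s.t (c + 1) h)) = s.t (c + 1) h

theorem Ch_cases {c : Fin 3} {g h : F} (H : s.Ch c g h) :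
    (s.inn (s.t (c + 1) h) ∧ s.L c g (s.t (c + 1) h)) ∨
      (s.inn (s.nx h (s.t (c + 1) h)) ∧ s.L c g (s.nx h (s.t (c + 1) h))) := by
  obtain ⟨⟨l, h1⟩, h2⟩ := H
  have h3 := s.tL (c + 1) h
  have h4 := s.tN (c + 1) h
  rcases s.edge h3 with ⟨-, ⟨h6, h5⟩ | ⟨h5, h6⟩ | ⟨h5, h6⟩⟩ | ⟨h5, -⟩
  · exfalso
    have h7 : s.nx h (s.t (c + 1) h) = s.a (c + 1 + 1) := by
      rw [h5, h6]
      exact s.on (c + 1)
    rw [h7] at h1 h2
    exact s.no_rev_outer h1 (h2.trans h5)
  · left
    refine ⟨h5, ?_⟩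
    have h7 := s.nL (c + 1 + 1) _ h5
    rw [← h6] at h7
    have h8 : g = s.gR (c + 1 + 1) (s.t (c + 1) h) := s.eq_gR h5 (h7 ▸ h1) (h7 ▸ h2)
    have h9 := s.lR (c + 1 + 1) _ h5
    rw [← h8, sbf11, sbf12] at h9
    exact h9
  · right
    refine ⟨h5, ?_⟩
    have h7 := s.pv_gR h5 h6 h3 rfl
    have h8 : g = s.gL (c + 1) (s.nx h (s.t (c + 1) h)) := s.eq_gL h5 h1 (by rw [h2, ← h7])
    have h9 := s.lL (c + 1) _ h5
    rw [← h8, sbf12] at h9
    exact h9
  · exact absurd (s.Luniq h5 h4) (sbn1 (c + 1)).symm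

/-- along `Ch c` the potential `r c` of the label `c` increases -/
theorem Ch_pot {c : Fin 3} {g h : F} (H : s.Ch c g h) : s.r c (s.t c g) < s.r c (s.t c h) := by
  rcases s.Ch_cases H with ⟨-, h1⟩ | ⟨-, h1⟩
  · rw [s.potE h1 (s.tL c g)]
    exact s.pot (s.tL c h) (s.tL (c + 1) h) (sbn1 c)
  · rw [s.potE h1 (s.tL c g)]
    have h2 := s.tN (c + 1) h
    rw [sbf11] at h2
    exact s.pot (s.tL c h) h2 (sbn2 c)

/-- the sum over the vertices of a face of the values at the next vertices -/
theorem cyc_sum (g : F) (φ : V → ℤ) :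
    (∑ v, if s.Inc v g then φ (s.nx g v) else 0) = ∑ v, if s.Inc v g then φ v else 0 := by
  rw [← Finset.sum_filter, ← Finset.sum_filter]
  have hinj : Set.InjOn (s.nx g) (Finset.univ.filter (fun v => s.Inc v g) : Finset V) := by
    intro v hv w hw h
    simp only [Finset.coe_filter, Finset.mem_univ, true_and, Set.mem_ofPred_eq] at hv hw
    obtain ⟨k, hv⟩ := hv
    obtain ⟨l, hw⟩ := hw
    exact s.nxinj hv hw h
  have him : (Finset.univ.filter (fun v => s.Inc v g)).image (s.nx g) =
      Finset.univ.filter (fun v => s.Inc v g) := by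
    refine Finset.eq_of_subset_of_card_le ?_ (by rw [Finset.card_image_of_injOn hinj])
    intro w hw
    rw [Finset.mem_image] at hw
    obtain ⟨v, hv, rfl⟩ := hw
    rw [Finset.mem_filter] at hv ⊢
    obtain ⟨k, hv⟩ := hv.2
    refine ⟨Finset.mem_univ _, ?_⟩
    rcases s.nxL hv with h | h
    · exact ⟨_, h⟩
    · exact ⟨_, h⟩
  rw [← Finset.sum_image (f := φ) hinj, him]

/-! ### the strips -/

/-- fuelled recursion -/
noncomputable def Bf (p : F → F → Prop) : ℕ → F → F → ℤ
  | 0, g, f => if f = g then 1 else 0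
  | (n + 1), g, f => (if f = g then 1 else 0) + ∑ h, if p g h then Bf p n h f else 0

theorem Bf_succ (p : F → F → Prop) (n : ℕ) (g f : F) :
    Bf p (n + 1) g f = (if f = g then 1 else 0) + ∑ h, if p g h then Bf p n h f else 0 := rfl

theorem Bf_nonneg (p : F → F → Prop) (n : ℕ) : ∀ g f, 0 ≤ Bf p n g f := by
  induction n with
  | zero =>
    intro g f
    unfold Bf
    split_ifs <;> norm_num
  | succ n ih =>
    intro g f
    rw [Bf_succ]
    have e1 : (0 : ℤ) ≤ (if f = g then 1 else 0) := by split_ifs <;> norm_num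
    refine add_nonneg e1 (Finset.sum_nonneg fun h _ => ?_)
    split_ifs
    · exact ih _ _
    · exact le_refl _

theorem Bf_pos (p : F → F → Prop) (n : ℕ) (g : F) : 0 < Bf p n g g := by
  cases n with
  | zero =>
    unfold Bf
    rw [if_pos rfl]
    norm_num
  | succ n =>
    rw [Bf_succ, if_pos rfl]
    have : (0 : ℤ) ≤ ∑ h, if p g h then Bf p n h g else 0 := by
      refine Finset.sum_nonneg fun h _ => ?_
      split_ifs
      · exact Bf_nonneg _ _ _ _
      · exact le_refl _
    linarith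

theorem Bf_supp (p : F → F → Prop) (R : F → F → Prop) (hr : ∀ g, R g g)
    (h1 : ∀ g h f, p g h → R h f → R g f) (n : ℕ) : ∀ g f, Bf p n g f ≠ 0 → R g f := by
  induction n with
  | zero =>
    intro g f hne
    unfold Bf at hne
    by_cases hh : f = g
    · rw [hh]
      exact hr g
    · rw [if_neg hh] at hne
      exact absurd rfl hne
  | succ n ih =>
    intro g f hne
    rw [Bf_succ] at hne
    by_cases hh : f = g
    · rw [hh]
      exact hr g
    · rw [if_neg hh, zero_add] at hne
      obtain ⟨h, -, h2⟩ := Finset.exists_ne_zero_of_sum_ne_zero hne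
      by_cases hp : p g h
      · rw [if_pos hp] at h2
        exact h1 g h f hp (ih _ _ h2)
      · rw [if_neg hp] at h2
        exact absurd rfl h2

theorem Bf_stable (p : F → F → Prop) (N : F → ℕ) (h1 : ∀ g h, p g h → N h < N g) (n : ℕ) :
    ∀ g f, N g ≤ n → Bf p (n + 1) g f = Bf p n g f := by
  induction n with
  | zero =>
    intro g f hN
    rw [Bf_succ]
    have : ∑ h, (if p g h then Bf p 0 h f else 0) = 0 := by
      refine Finset.sum_eq_zero fun h _ => ?_
      rw [if_neg]
      intro hp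
      have := h1 g h hp
      omega
    rw [this, add_zero]
    rfl
  | succ n ih =>
    intro g f hN
    rw [Bf_succ, Bf_succ p n g f]
    congr 1
    refine Finset.sum_congr rfl fun h _ => ?_
    by_cases hp : p g h
    · rw [if_pos hp, if_pos hp]
      have := h1 g h hp
      exact ih _ _ (by omega)
    · rw [if_neg hp, if_neg hp]

/-- the strips, with their recursion -/
theorem exists_B : ∃ B : Fin 3 → F → F → ℤ,
    (∀ c g f, 0 ≤ B c g f) ∧
    (∀ c g, 0 < B c g g) ∧
    (∀ c g f, B c g f = (if f = g then 1 else 0) + ∑ h, if s.Ch c g h then B c h f else 0) ∧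
    (∀ c g f, B c g f ≠ 0 → Relation.ReflTransGen (s.Ch c) g f) := by
  refine ⟨fun c => Bf (s.Ch c) (Fintype.card V), fun c g f => Bf_nonneg _ _ _ _,
    fun c g => Bf_pos _ _ _, ?_, ?_⟩
  · intro c g f
    set N : F → ℕ := fun g => (Finset.univ.filter (fun u => s.r c (s.t c g) < s.r c u)).card with hN
    have key : ∀ g g' : F, s.r c (s.t c g) < s.r c (s.t c g') → N g' < N g := by
      intro g g' hlt
      apply Finset.card_lt_card
      refine ⟨fun u hu => ?_, fun hsub => ?_⟩
      · rw [Finset.mem_filter] at hu ⊢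
        exact ⟨hu.1, hlt.trans hu.2⟩
      · have h1 : s.t c g' ∈ Finset.univ.filter (fun u => s.r c (s.t c g) < s.r c u) :=
          Finset.mem_filter.mpr ⟨Finset.mem_univ _, hlt⟩
        have h2 := hsub h1
        rw [Finset.mem_filter] at h2
        exact lt_irrefl _ h2.2
    have st := Bf_stable (s.Ch c) N (fun g h H => key _ _ (s.Ch_pot H)) (Fintype.card V) g f
      (Finset.card_le_univ _)
    beta_reduce
    rw [← st, Bf_succ]
  · intro c
    refine Bf_supp (s.Ch c) (fun g f => Relation.ReflTransGen (s.Ch c) g f) ?_ ?_ _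
    · intro g
      exact Relation.ReflTransGen.refl
    · intro g h f H H'
      exact H'.head H

/-! ### boundaries -/

/-- a test functional: `lam` on functions on the faces, `ε` its value on the darts, `Pi` its value
on the paths, `kap` its value on the outer edges -/
structure Tst where
  lam : (F → ℤ) →+ ℤ
  ε : F → V → ℤ
  Pi : Fin 3 → V → ℤ
  kap : Fin 3 → ℤ
  h_delta : ∀ g, lam (fun f => if f = g then 1 else 0) = ∑ v, if s.Inc v g then ε g v else 0
  h_opp : ∀ {k l : Fin 3} {g h : F} {v : V}, s.L k g v → s.L l h (s.nx g v) →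
    s.nx h (s.nx g v) = v → ε h (s.nx g v) = - ε g v
  h_step : ∀ c v, s.inn v → Pi c v = ε (s.gL c v) v + Pi c (s.out c v)
  h_out : ∀ q, ε (s.o q) (s.a q) = kap q
  p0 : ∀ c, Pi c (s.a c) = 0
  p1 : ∀ c, Pi c (s.a (c + 1)) = - kap c
  p2 : ∀ c, Pi c (s.a (c + 2)) = kap (c + 2)

namespace Tst

variable {s}
variable (T : Tst s)

/-- an edge of colour `c` traversed forwards -/
theorem fwd {c : Fin 3} {g : F} {v : V} (hv : s.inn v) (hg : g = s.gL c v) :
    T.ε g v = T.Pi c v - T.Pi c (s.nx g v) := by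
  have h1 := T.h_step c v hv
  have h2 := s.nL c v hv
  rw [← hg] at h1 h2
  rw [h2, h1]
  ring

/-- an edge of colour `c` traversed backwards -/
theorem bwd {c k : Fin 3} {g : F} {v : V} (hw : s.inn (s.nx g v)) (hk : s.L k g v)
    (hg : g = s.gR c (s.nx g v)) : T.ε g v = T.Pi c v - T.Pi c (s.nx g v) := by
  have h1 := T.h_step c _ hw
  have h2 := s.pv_gR hw hg hk rfl
  have h3 := s.nL c _ hw
  have h4 := T.h_opp (s.lL c _ hw) (l := k) (h := g) (by rw [h3, ← h2]; exact hk)
    (by rw [h3, ← h2])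
  rw [h3, ← h2] at h4
  rw [← h2] at h1
  rw [h1, h4]
  ring

/-- an edge of `g` which is neither the middle edge of `g` nor of its other side -/
theorem ncr {c k : Fin 3} {g : F} {v : V} (hk : s.L k g v) (hx : v ≠ s.t (c + 1) g)
    (hn : ∀ h, s.L (c + 1) h (s.nx g v) → s.nx h (s.nx g v) = v → ¬ s.L (c + 2) h v) :
    T.ε g v = T.Pi c v - T.Pi c (s.nx g v) := by
  rcases s.edge hk with ⟨hl, ⟨hg, hv⟩ | ⟨hv, hg⟩ | ⟨hw, hg⟩⟩ | ⟨hl, hv, hw, hg, hg'⟩
  · -- outer edge
    have e1 : s.nx g v = s.a (k + 1) := by rw [hg, hv, s.on]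
    have e2 : T.ε g v = T.kap k := by rw [hg, hv, T.h_out]
    rcases sbcs c k with rfl | rfl | rfl
    · rw [e1, e2, hv, T.p0, T.p1]
      ring
    · exact absurd (s.tU hk hl) hx
    · rw [e1, e2, hv, T.p2, sbf21, T.p0]
      ring
  · rcases sbcs c k with rfl | rfl | rfl
    · -- `k = c`: the other side is `gR (c + 1) v`
      have h1 := s.nL (k + 1) v hv
      rw [← hg] at h1
      have h2 := s.lR (k + 1) v hv
      have h3 := s.nR (k + 1) v hv
      obtain ⟨l, h4⟩ := s.iR (k + 1) v hv
      rw [sbf11] at h2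
      rw [← h1] at h3 h4
      have h5 : l = k + 2 := by
        rcases s.nxL h4 with h5 | h5
        · rw [h3] at h5
          exact s.Luniq h5 h2
        · rw [h3] at h5
          have h6 := s.Luniq h5 h2
          have h7 : l = k + 1 := by
            have : ∀ l k : Fin 3, l + 1 = k + 2 → l = k + 1 := by decide
            exact this _ _ h6
          rw [h7] at h4
          exact absurd h2 (hn _ h4 h3)
      rw [h5] at h4
      rcases s.edge h4 with ⟨h6, -⟩ | ⟨-, h6, -, h7, -⟩
      · rw [h3] at h6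
        exact absurd (s.Luniq h6 h2) (sbn1 _)
      · rw [sbf21] at h7
        have h8 := s.nL k _ h6
        rw [← h7, h3] at h8
        exact T.bwd h6 hk (s.eq_gR h6 (by rw [← h8]; exact hk) (by rw [← h8]))
    · exact absurd (s.tU hk hl) hx
    · rw [sbf21] at hg
      exact T.fwd hv hg
  · rcases sbcs c k with rfl | rfl | rfl
    · exact T.bwd hw hk hg
    · exact absurd (s.tU hk hl) hx
    · -- `k = c + 2`: the other side is `gL (c + 2) w`
      have h1 := s.pv_gR hw hg hk rfl
      have h2 := s.lL (c + 2) _ hw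
      have h3 := s.nL (c + 2) _ hw
      rw [sbf22] at h2
      rw [← h1] at h3
      rcases s.nxL h2 with h4 | h4
      · rw [h3] at h4
        rcases s.edge h2 with ⟨h6, -⟩ | ⟨-, -, h6, -, h7⟩
        · rw [h3] at h6
          exact absurd (s.Luniq h6 h4) (sbn1 _)
        · rw [h3, sbf12] at h7
          rw [h3] at h6
          have h8 := s.pv_gR h6 h7 h2 h3
          exact T.fwd h6 (s.eq_gL h6 hk h8)
      · rw [h3, sbf11] at h4
        exact absurd h4 (hn _ h2 h3)
  · rcases sbcs c k with rfl | rfl | rfl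
    · -- crossed
      have h1 := s.nL (k + 1) v hv
      rw [← hg] at h1
      have h2 := s.lR (k + 1) v hv
      have h3 := s.nR (k + 1) v hv
      rw [sbf11] at h2
      rcases s.lLR (k + 1) v hv with h4 | h4
      · rw [← hg, ← h1] at h4
        exact absurd (s.Luniq h4 hl) (sbn1 _)
      · rw [← h1] at h3 h4
        exact absurd h2 (hn _ h4 h3)
    · rw [sbf12] at hg'
      exact T.bwd hw hk hg'
    · rw [sbf21] at hg
      exact T.fwd hv hg

/-- the middle edge of `g` is not the middle edge of its other side -/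
theorem not_mid {c : Fin 3} {g h : F} (h1 : s.L (c + 1) h (s.nx g (s.t (c + 1) g)))
    (h2 : s.nx h (s.nx g (s.t (c + 1) g)) = s.t (c + 1) g)
    (h3 : s.L (c + 2) h (s.t (c + 1) g)) : False := by
  have h4 := s.tL (c + 1) g
  have h5 := s.tN (c + 1) g
  rcases s.edge h4 with ⟨-, ⟨h6, h7⟩ | ⟨h6, h7⟩ | ⟨h6, h7⟩⟩ | ⟨h6, -⟩
  · rw [h7] at h3
    exact sbn12 c (s.lab h3).symm
  · have h8 := s.nL (c + 1 + 1) _ h6
    rw [← h7] at h8
    have h9 : h = s.gR (c + 1 + 1) (s.t (c + 1) g) := s.eq_gR h6 (h8 ▸ h1) (h8 ▸ h2)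
    have h10 := s.lR (c + 1 + 1) _ h6
    rw [← h9, sbf11, sbf12] at h10
    exact sbn2 c (s.Luniq h3 h10)
  · have h8 := s.pv_gR h6 h7 h4 rfl
    have h9 : h = s.gL (c + 1) (s.nx g (s.t (c + 1) g)) := s.eq_gL h6 h1 (by rw [h2, ← h8])
    have h10 := s.lL (c + 1) _ h6
    rw [← h9, sbf12] at h10
    exact sbn1 c (s.Luniq h1 h10)
  · exact absurd (s.Luniq h6 h5) (sbn1 (c + 1)).symm

/-- the boundary of a strip -/
theorem boundary_B {B : Fin 3 → F → F → ℤ}
    (hB : ∀ c g f, B c g f = (if f = g then 1 else 0) + ∑ h, if s.Ch c g h then B c h f else 0)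
    (c : Fin 3) (g : F) :
    T.lam (B c g) = T.ε g (s.t (c + 1) g) + T.Pi c (s.nx g (s.t (c + 1) g))
      - T.Pi c (s.t (c + 1) g) := by
  let R : F → F → Prop := fun g' g => s.r c (s.t c g) < s.r c (s.t c g')
  have : IsTrans F R := ⟨fun _ _ _ h h' => lt_trans h' h⟩
  have : Std.Irrefl R := ⟨fun _ h => lt_irrefl _ h⟩
  have wf : WellFounded R := Finite.wellFounded_of_trans_of_irrefl R
  induction g using wf.induction with
  | _ g ih =>
  have e1 : B c g = (fun f => if f = g then 1 else 0) +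
      ∑ h, (if s.Ch c g h then B c h else 0) := by
    funext f
    rw [hB c g f, Pi.add_apply, Finset.sum_apply]
    congr 1
    refine Finset.sum_congr rfl fun h _ => ?_
    by_cases H : s.Ch c g h
    · rw [if_pos H, if_pos H]
    · rw [if_neg H, if_neg H]
      rfl
  have e2 : T.lam (B c g) = (∑ v, if s.Inc v g then T.ε g v else 0) +
      ∑ h, (if s.Ch c g h then (fun v => - T.ε g v + T.Pi c v - T.Pi c (s.nx g v))
        (s.nx h (s.t (c + 1) h)) else 0) := by
    rw [e1, map_add, T.h_delta, map_sum]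
    congr 1
    refine Finset.sum_congr rfl fun h _ => ?_
    by_cases H : s.Ch c g h
    · rw [if_pos H, if_pos H, ih h (s.Ch_pot H)]
      obtain ⟨⟨l, h1⟩, h2⟩ := H
      have h3 := T.h_opp h1 (l := c + 1) (h := h) (by rw [h2]; exact s.tL _ _) (by rw [h2])
      rw [h2] at h3
      show _ = - T.ε g (s.nx h (s.t (c + 1) h)) + T.Pi c (s.nx h (s.t (c + 1) h)) -
        T.Pi c (s.nx g (s.nx h (s.t (c + 1) h)))
      rw [h3, h2]
    · rw [if_neg H, if_neg H, map_zero]
  -- the sum over the children as a sum over the vertices of `g`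
  have hinj : Set.InjOn (fun h => s.nx h (s.t (c + 1) h))
      (Finset.univ.filter (fun h => s.Ch c g h) : Finset F) := by
    intro h hh h' hh' he
    simp only [Finset.coe_filter, Finset.mem_univ, true_and, Set.mem_ofPred_eq] at hh hh'
    have he' : s.nx h (s.t (c + 1) h) = s.nx h' (s.t (c + 1) h') := he
    have h5 : s.t (c + 1) h = s.t (c + 1) h' := by
      rw [← hh.2, ← hh'.2, he']
    refine s.dart (s.tL (c + 1) h) (l := c + 1) (h := h') ?_ ?_
    · rw [h5]
      exact s.tL _ _
    · rw [he', h5]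
  set Im : Finset V := (Finset.univ.filter (fun h => s.Ch c g h)).image
    (fun h => s.nx h (s.t (c + 1) h)) with hIm
  have hmem : ∀ v, v ∈ Im ↔ ∃ h, s.Ch c g h ∧ s.nx h (s.t (c + 1) h) = v := by
    intro v
    rw [hIm, Finset.mem_image]
    constructor
    · rintro ⟨h, h1, h2⟩
      exact ⟨h, (Finset.mem_filter.mp h1).2, h2⟩
    · rintro ⟨h, h1, h2⟩
      exact ⟨h, Finset.mem_filter.mpr ⟨Finset.mem_univ _, h1⟩, h2⟩
  have e3 : (∑ h, (if s.Ch c g h then (fun v => - T.ε g v + T.Pi c v - T.Pi c (s.nx g v))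
        (s.nx h (s.t (c + 1) h)) else 0)) =
      ∑ v, if v ∈ Im then (- T.ε g v + T.Pi c v - T.Pi c (s.nx g v)) else 0 := by
    rw [← Finset.sum_filter, ← Finset.sum_filter, Finset.filter_mem_eq_inter, Finset.univ_inter,
      hIm, Finset.sum_image hinj]
  rw [e3, ← Finset.sum_add_distrib] at e2
  -- pointwise
  have e4 : ∀ v, (if s.Inc v g then T.ε g v else 0) +
      (if v ∈ Im then (- T.ε g v + T.Pi c v - T.Pi c (s.nx g v)) else 0) =
      ((if s.Inc v g then T.Pi c v else 0) - (if s.Inc v g then T.Pi c (s.nx g v) else 0)) +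
      (if v = s.t (c + 1) g then T.ε g v - T.Pi c v + T.Pi c (s.nx g v) else 0) := by
    intro v
    by_cases hI : s.Inc v g
    · rw [if_pos hI, if_pos hI, if_pos hI]
      obtain ⟨k, hk⟩ := hI
      by_cases hv : v = s.t (c + 1) g
      · have h1 : v ∉ Im := by
          rw [hmem]
          rintro ⟨h, H, h2⟩
          have h3 := H.2
          have h4 := s.tL (c + 1) h
          have h5 := s.tN (c + 1) h
          rw [h2] at h3 h5
          rw [← h3] at h4 h2
          rw [hv] at h4 h2 h5
          rw [sbf11] at h5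
          exact not_mid h4 h2 h5
        rw [if_neg h1, if_pos hv]
        ring
      · rw [if_neg hv]
        by_cases h1 : v ∈ Im
        · rw [if_pos h1]
          ring
        · rw [if_neg h1]
          have h2 := T.ncr hk hv (fun h h2 h3 h4 => h1 ((hmem v).mpr ⟨h, ?_⟩))
          · rw [h2]
          · have h5 : s.nx g v = s.t (c + 1) h := by
              refine s.tU h2 ?_
              rw [h3, sbf11]
              exact h4
            have h6 : s.nx h (s.t (c + 1) h) = v := by rw [← h5]; exact h3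
            exact ⟨⟨by rw [h6]; exact ⟨k, hk⟩, by rw [h6, h5]⟩, h6⟩
    · have h1 : v ∉ Im := by
        rw [hmem]
        rintro ⟨h, H, h2⟩
        have h3 := H.1
        rw [h2] at h3
        exact hI h3
      have h2 : v ≠ s.t (c + 1) g := by
        rintro rfl
        exact hI ⟨_, s.tL _ _⟩
      rw [if_neg hI, if_neg hI, if_neg hI, if_neg h1, if_neg h2]
      ring
  rw [Finset.sum_congr rfl fun v _ => e4 v, Finset.sum_add_distrib, Finset.sum_sub_distrib,
    s.cyc_sum g (T.Pi c), Finset.sum_ite_eq', if_pos (Finset.mem_univ _)] at e2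
  rw [e2]
  ring

end Tst

end Pool.RP.SchP
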