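import Pool.Agent.Lib.MP_9dcace_rp.Sa
import Pool.Agent.Lib.MP_9dcace_rp.Sb

/-!
ROW Sc (helper64): the region functions of a Schnyder structure with polygons ((3.5), (3.6), self of (3.7)).
-/

set_option autoImplicit false

open Classical

namespace Pool.RP.SchP

variable {V F : Type} [Fintype V] [Fintype F] (s : SchP V F)

/-- inner part of the chain of the path `P_c(z)`: `1` at the names `(c, v)`, `-1` at the reverse names -/
noncomputable def PiI (c : Fin 3) (z : V) (c' : Fin 3) (v : V) : ℤ :=
  (if c' = c ∧ s.inn v ∧ s.Pth c z v then 1 else 0) -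
    (if ∃ u, s.Rev c' v c u ∧ s.Pth c z u then 1 else 0)

/-- outer part of the chain of the path `P_c(z)` -/
noncomputable def PiO (c : Fin 3) (z : V) (k : Fin 3) : ℤ :=
  if z = s.a (c + 1) ∧ k = c then -1 else if z = s.a (c + 2) ∧ k = c + 2 then 1 else 0

theorem PiI_outer (c j c' : Fin 3) (v : V) : s.PiI c (s.a j) c' v = 0 := by
  unfold PiI
  rw [if_neg, if_neg, sub_zero]
  · rintro ⟨u, h1, h2⟩
    exact h1.2.1 j (s.Pth_outer h2)
  · rintro ⟨-, h1, h2⟩
    exact h1 j (s.Pth_outer h2)

theorem PiO_inn (c k : Fin 3) {z : V} (hz : s.inn z) : s.PiO c z k = 0 := by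
  unfold PiO
  rw [if_neg (fun h => hz _ h.1), if_neg (fun h => hz _ h.1)]

theorem PiO_out (c k : Fin 3) {x : V} (hx : s.inn x) : s.PiO c (s.out c x) k = 0 := by
  unfold PiO
  rw [if_neg (fun h => fin_ne1 c (s.out_outer hx c _ h.1)),
    if_neg (fun h => fin_ne2 c (s.out_outer hx c _ h.1))]

theorem no_ret {c : Fin 3} {v : V} (hv : s.inn v) : ¬ s.Pth c (s.out c v) v := by
  intro h
  have h1 := (s.out_pot hv c).1
  rcases s.Pth_pot h with h2 | h2
  · rw [← h2] at h1
    exact lt_irrefl _ h1
  · exact lt_asymm h1 h2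

theorem PiI_step {c : Fin 3} {v : V} (hv : s.inn v) (c' : Fin 3) {u : V} (hu : s.inn u) :
    s.PiI c v c' u = ((if s.gL c v = s.gL c' u ∧ v = u then 1 else 0) -
      (if s.gL c v = s.gR c' u ∧ v = s.out c' u then 1 else 0)) + s.PiI c (s.out c v) c' u := by
  have e1 : (s.gL c v = s.gL c' u ∧ v = u) ↔ (c' = c ∧ u = v) := by
    constructor
    · rintro ⟨h1, rfl⟩
      have h2 := s.lL c v hv
      rw [h1] at h2
      exact ⟨(add_right_cancel (s.Luniq h2 (s.lL c' v hv))).symm, rfl⟩
    · rintro ⟨rfl, rfl⟩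
      exact ⟨rfl, rfl⟩
  have e2 : (s.gL c v = s.gR c' u ∧ v = s.out c' u) ↔ s.Rev c' u c v := by
    constructor
    · rintro ⟨h1, h2⟩
      refine ⟨hu, hv, h2, ?_⟩
      have h3 := s.nL c v hv
      rw [h1, h2, s.nR c' u hu] at h3
      rw [h2]
      exact h3
    · rintro ⟨-, -, h1, h2⟩
      refine ⟨?_, h1⟩
      refine s.eq_gR hu (l := c + 2) ?_ ?_
      · rw [← h1]
        exact s.lL c v hv
      · rw [← h1, s.nL c v hv]
        exact h2.symm
  have e3 : ∀ z, (∃ x, s.Rev c' u c x ∧ s.Pth c z x) ↔
      (s.Rev c' u c (s.out c' u) ∧ s.Pth c z (s.out c' u)) := by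
    intro z
    constructor
    · rintro ⟨x, h1, h2⟩
      have h3 : x = s.out c' u := h1.2.2.1
      subst h3
      exact ⟨h1, h2⟩
    · rintro ⟨h1, h2⟩
      exact ⟨_, h1, h2⟩
  have hno := s.no_ret (c := c) hv
  unfold PiI
  simp only [e1, e2, e3]
  have a1 : (if c' = c ∧ s.inn u ∧ s.Pth c v u then (1 : ℤ) else 0) =
      (if c' = c ∧ u = v then 1 else 0) +
        (if c' = c ∧ s.inn u ∧ s.Pth c (s.out c v) u then 1 else 0) := by
    by_cases hc : c' = c
    · by_cases huv : u = v
      · subst huv
        rw [if_pos ⟨hc, hu, s.Pth_refl _ _⟩, if_pos ⟨hc, rfl⟩, if_neg (fun h => hno h.2.2), add_zero]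
      · rw [if_neg (show ¬ (c' = c ∧ u = v) from fun h => huv h.2), zero_add]
        have h1 : s.Pth c v u ↔ s.Pth c (s.out c v) u := by
          rw [s.Pth_step hv u]
          simp only [huv, false_or]
        simp only [h1]
    · rw [if_neg (fun h => hc h.1), if_neg (fun h => hc h.1), if_neg (fun h => hc h.1), add_zero]
  have a2 : (if s.Rev c' u c (s.out c' u) ∧ s.Pth c v (s.out c' u) then (1 : ℤ) else 0) =
      (if s.Rev c' u c v then 1 else 0) +
        (if s.Rev c' u c (s.out c' u) ∧ s.Pth c (s.out c v) (s.out c' u) then 1 else 0) := by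
    by_cases hR : s.Rev c' u c (s.out c' u)
    · by_cases hx : s.out c' u = v
      · rw [hx] at hR ⊢
        rw [if_pos ⟨hR, s.Pth_refl _ _⟩, if_pos hR, if_neg (fun h => hno h.2), add_zero]
      · have h0 : ¬ s.Rev c' u c v := fun h => hx h.2.2.1.symm
        rw [if_neg h0, zero_add]
        have h1 : s.Pth c v (s.out c' u) ↔ s.Pth c (s.out c v) (s.out c' u) := by
          rw [s.Pth_step hv (s.out c' u)]
          simp only [hx, false_or]
        simp only [h1]
    · have h0 : ¬ s.Rev c' u c v := by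
        intro h
        have h1 : v = s.out c' u := h.2.2.1
        rw [h1] at h
        exact hR h
      rw [if_neg (fun h => hR h.1), if_neg h0, if_neg (fun h => hR h.1), add_zero]
  rw [a1, a2]
  ring

/-- the test at an inner edge -/
noncomputable def tstI (c' : Fin 3) (u : V) (hu : s.inn u) : Tst s where
  lam := (Pi.evalAddMonoidHom (fun _ : F => ℤ) (s.gL c' u)) -
    (Pi.evalAddMonoidHom (fun _ : F => ℤ) (s.gR c' u))
  ε := fun g v => (if g = s.gL c' u ∧ v = u then 1 else 0) -
    (if g = s.gR c' u ∧ v = s.out c' u then 1 else 0)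
  Pi := fun c z => s.PiI c z c' u
  kap := fun _ => 0
  h_delta := by
    intro g
    show (((if s.gL c' u = g then 1 else 0) - (if s.gR c' u = g then 1 else 0)) : ℤ) = _
    have h1 : ∀ v, (if s.Inc v g then (((if g = s.gL c' u ∧ v = u then 1 else 0) -
        (if g = s.gR c' u ∧ v = s.out c' u then 1 else 0)) : ℤ) else 0) =
        (if v = u then (if g = s.gL c' u then 1 else 0) else 0) -
        (if v = s.out c' u then (if g = s.gR c' u then 1 else 0) else 0) := by
      intro v
      by_cases hI : s.Inc v g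
      · rw [if_pos hI]
        congr 1
        · by_cases h1 : v = u
          · simp only [h1, and_true, if_true]
          · simp only [h1, and_false, if_false]
        · by_cases h1 : v = s.out c' u
          · simp only [h1, and_true, if_true]
          · simp only [h1, and_false, if_false]
      · rw [if_neg hI]
        have h1 : (if v = u then (if g = s.gL c' u then (1 : ℤ) else 0) else 0) = 0 := by
          split_ifs with h2 h3
          · exact absurd ⟨_, by rw [h2, h3]; exact s.lL c' u hu⟩ hI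
          · rfl
          · rfl
        have h2 : (if v = s.out c' u then (if g = s.gR c' u then (1 : ℤ) else 0) else 0) = 0 := by
          split_ifs with h2 h3
          · exact absurd (by rw [h2, h3]; exact s.iR c' u hu) hI
          · rfl
          · rfl
        rw [h1, h2, sub_zero]
    rw [Finset.sum_congr rfl fun v _ => h1 v, Finset.sum_sub_distrib, Finset.sum_ite_eq',
      Finset.sum_ite_eq', if_pos (Finset.mem_univ _), if_pos (Finset.mem_univ _)]
    simp only [eq_comm (a := g)]
  h_opp := by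
    intro k l g h v h1 h2 h3
    have e1 : (h = s.gL c' u ∧ s.nx g v = u) ↔ (g = s.gR c' u ∧ v = s.out c' u) := by
      constructor
      · rintro ⟨a1, a2⟩
        have a3 : v = s.out c' u := by
          rw [← h3, a2, a1, s.nL c' u hu]
        refine ⟨s.eq_gR hu (l := k) ?_ ?_, a3⟩
        · rw [← a3]
          exact h1
        · rw [← a3]
          exact a2
      · rintro ⟨a1, a2⟩
        have a3 : s.nx g v = u := by rw [a1, a2, s.nR c' u hu]
        rw [a3] at h2 h3
        exact ⟨s.eq_gL hu h2 (h3.trans a2), a3⟩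
    have e2 : (h = s.gR c' u ∧ s.nx g v = s.out c' u) ↔ (g = s.gL c' u ∧ v = u) := by
      constructor
      · rintro ⟨a1, a2⟩
        have a3 : v = u := by
          rw [← h3, a2, a1, s.nR c' u hu]
        rw [a3] at h1 a2
        exact ⟨s.eq_gL hu h1 a2, a3⟩
      · rintro ⟨a1, a2⟩
        have a3 : s.nx g v = s.out c' u := by rw [a1, a2, s.nL c' u hu]
        rw [a3] at h2 h3
        exact ⟨s.eq_gR hu h2 (h3.trans a2), a3⟩
    simp only [e1, e2]
    ring
  h_step := fun c v hv => s.PiI_step hv c' hu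
  h_out := by
    intro q
    rw [if_neg, if_neg, sub_zero]
    · rintro ⟨h1, h2⟩
      have h3 := s.nR c' u hu
      rw [← h1, ← h2, s.on] at h3
      exact hu _ h3.symm
    · rintro ⟨-, h2⟩
      exact hu _ h2.symm
  p0 := fun c => s.PiI_outer _ _ _ _
  p1 := fun c => by rw [s.PiI_outer, neg_zero]
  p2 := fun c => s.PiI_outer _ _ _ _

/-- the test at an outer edge -/
noncomputable def tstO (q : Fin 3) : Tst s where
  lam := Pi.evalAddMonoidHom (fun _ : F => ℤ) (s.o q)
  ε := fun g v => if g = s.o q ∧ v = s.a q then 1 else 0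
  Pi := fun c z => s.PiO c z q
  kap := fun k => if k = q then 1 else 0
  h_delta := by
    intro g
    show ((if s.o q = g then 1 else 0) : ℤ) = _
    have h1 : ∀ v, (if s.Inc v g then (if g = s.o q ∧ v = s.a q then (1 : ℤ) else 0) else 0) =
        (if v = s.a q then (if g = s.o q then 1 else 0) else 0) := by
      intro v
      by_cases hI : s.Inc v g
      · rw [if_pos hI]
        by_cases h1 : v = s.a q
        · simp only [h1, and_true, if_true]
        · simp only [h1, and_false, if_false]
      · rw [if_neg hI]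
        split_ifs with h2 h3
        · exact absurd ⟨_, by rw [h2, h3]; exact s.o0 q⟩ hI
        · rfl
        · rfl
    rw [Finset.sum_congr rfl fun v _ => h1 v, Finset.sum_ite_eq', if_pos (Finset.mem_univ _)]
    simp only [eq_comm (a := g)]
  h_opp := by
    intro k l g h v h1 h2 h3
    rw [if_neg, if_neg, neg_zero]
    · rintro ⟨a1, a2⟩
      rw [a1, a2, s.on] at h2 h3
      exact s.no_rev_outer h2 h3
    · rintro ⟨a1, a2⟩
      have a3 : v = s.a (q + 1) := by rw [← h3, a2, a1, s.on]
      rw [a3] at h1 a2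
      exact s.no_rev_outer h1 a2
  h_step := fun c v hv => by
    rw [s.PiO_inn c q hv, s.PiO_out c q hv, if_neg (fun h => hv _ h.2), add_zero]
  h_out := by
    intro k
    by_cases hk : k = q
    · rw [if_pos hk, if_pos ⟨by rw [hk], by rw [hk]⟩]
    · rw [if_neg hk, if_neg (fun h => hk (s.a_inj h.2))]
  p0 := fun c => by
    unfold PiO
    rw [if_neg (fun h => fin_ne1 c (s.a_inj h.1).symm), if_neg (fun h => fin_ne2 c (s.a_inj h.1).symm)]
  p1 := fun c => by
    unfold PiO
    by_cases hq : c = q
    · rw [if_pos ⟨rfl, hq.symm⟩, if_pos hq]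
    · rw [if_neg (fun h => hq h.2.symm), if_neg (fun h => fin_ne12 c (s.a_inj h.1)), if_neg hq, neg_zero]
  p2 := fun c => by
    unfold PiO
    rw [if_neg (fun h => fin_ne12 c (s.a_inj h.1).symm)]
    by_cases hq : c + 2 = q
    · rw [if_pos ⟨rfl, hq.symm⟩, if_pos hq]
    · rw [if_neg (fun h => hq h.2.symm), if_neg hq]

/-- a function with zero boundary vanishes -/
theorem eq_zero_of_boundary (X : F → ℤ) (h1 : ∀ c v, s.inn v → X (s.gL c v) = X (s.gR c v))
    (h2 : ∀ k, X (s.o k) = 0) (g : F) : X g = 0 := by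
  have h := s.conn (fun g => (X g : ℝ)) (fun c v hv => by
    simp only [h1 c v hv]) g (s.o 0)
  rw [← h2 0]
  exact_mod_cast h

/-! ### sums along paths -/

/-- Induction on a potential. -/
private theorem sc_ind (f : V → ℝ) {P : V → Prop} (h : ∀ v, (∀ w, f v < f w → P w) → P v)
    (v : V) : P v := by
  have hwf : WellFounded (fun a b : V => f b < f a) := by
    have : IsTrans V (fun a b : V => f b < f a) := ⟨fun a b c h1 h2 => lt_trans h2 h1⟩
    have : Std.Irrefl (fun a b : V => f b < f a) := ⟨fun a => lt_irrefl _⟩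
    exact Finite.wellFounded_of_trans_of_irrefl _
  exact hwf.induction v h

private theorem sc_indF (f : F → ℝ) {P : F → Prop} (h : ∀ v, (∀ w, f v < f w → P w) → P v)
    (v : F) : P v := by
  have hwf : WellFounded (fun a b : F => f b < f a) := by
    have : IsTrans F (fun a b : F => f b < f a) := ⟨fun a b c h1 h2 => lt_trans h2 h1⟩
    have : Std.Irrefl (fun a b : F => f b < f a) := ⟨fun a => lt_irrefl _⟩
    exact Finite.wellFounded_of_trans_of_irrefl _
  exact hwf.induction v h

/-- the sum of the functions `A u` over the inner vertices `u` of a path -/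
noncomputable def psum (A : V → F → ℤ) (c : Fin 3) (z : V) : F → ℤ :=
  ∑ u, if s.inn u ∧ s.Pth c z u then A u else 0

theorem psum_inner (A : V → F → ℤ) (c : Fin 3) {z : V} (hz : s.inn z) :
    s.psum A c z = A z + s.psum A c (s.out c z) := by
  have hno := s.no_ret (c := c) hz
  have h : ∀ u, (if s.inn u ∧ s.Pth c z u then A u else 0) =
      (if u = z then A u else 0) + (if s.inn u ∧ s.Pth c (s.out c z) u then A u else 0) := by
    intro u
    by_cases hu : u = z
    · subst hu
      rw [if_pos ⟨hz, s.Pth_refl _ _⟩, if_pos rfl, if_neg (fun h => hno h.2), add_zero]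
    · rw [if_neg hu, zero_add]
      have h1 : (s.inn u ∧ s.Pth c z u) ↔ (s.inn u ∧ s.Pth c (s.out c z) u) := by
        rw [s.Pth_step hz u]
        simp only [hu, false_or]
      simp only [h1]
  unfold psum
  rw [Finset.sum_congr rfl fun u _ => h u, Finset.sum_add_distrib, Finset.sum_ite_eq',
    if_pos (Finset.mem_univ z)]

theorem psum_outer (A : V → F → ℤ) (c j : Fin 3) : s.psum A c (s.a j) = 0 := by
  unfold psum
  refine Finset.sum_eq_zero fun u _ => ?_
  rw [if_neg]
  rintro ⟨h1, h2⟩
  exact h1 j (s.Pth_outer h2)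

theorem out_cases {z : V} (hz : s.inn z) (c : Fin 3) : s.inn (s.out c z) ∨ s.out c z = s.a c := by
  by_cases h : s.inn (s.out c z)
  · exact Or.inl h
  · right
    unfold inn at h
    push Not at h
    obtain ⟨k, hk⟩ := h
    rw [hk, s.out_outer hz c k hk]

variable {s} in
theorem Tst.lam_psum (T : Tst s) (A : V → F → ℤ) (c : Fin 3) (φ : V → ℤ)
    (hA : ∀ u, s.inn u → T.lam (A u) = φ u - φ (s.out c u)) (z : V) (hz : s.inn z ∨ z = s.a c) :
    T.lam (s.psum A c z) = φ z - φ (s.a c) := by
  induction z using sc_ind (s.r c) with | h z ih => ?_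
  rcases hz with hz | rfl
  · rw [s.psum_inner A c hz, map_add, hA z hz, ih (s.out c z) (s.out_pot hz c).1 (s.out_cases hz c)]
    ring
  · rw [s.psum_outer, map_zero, sub_self]

/-- the strip to the left of the edge `(k + 1, u)` -/
noncomputable def AL (B : Fin 3 → F → F → ℤ) (k : Fin 3) (u : V) : F → ℤ :=
  if s.monoL (k + 1) u then 0 else B (k + 2) (s.gL (k + 1) u)

/-- the strip to the right of the edge `(k + 2, u)` -/
noncomputable def AR (B : Fin 3 → F → F → ℤ) (k : Fin 3) (u : V) : F → ℤ :=
  if s.monoR (k + 2) u then 0 else B (k + 1) (s.gR (k + 2) u)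

section

variable {s}
variable (T : Tst s) {B : Fin 3 → F → F → ℤ}
  (hB : ∀ c g f, B c g f = (if f = g then 1 else 0) + ∑ h, if s.Ch c g h then B c h f else 0)

include hB

theorem Tst.lam_AL (k : Fin 3) {u : V} (hu : s.inn u) :
    T.lam (s.AL B k u) = (T.Pi (k + 1) u - T.Pi (k + 2) u) -
      (T.Pi (k + 1) (s.out (k + 1) u) - T.Pi (k + 2) (s.out (k + 1) u)) := by
  have h1 := T.h_step (k + 1) u hu
  have h2 := s.lL (k + 1) u hu
  have h3 := s.nL (k + 1) u hu
  rw [fin12] at h2
  unfold AL
  by_cases hm : s.monoL (k + 1) u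
  · rw [if_pos hm, map_zero]
    have h4 := s.monoL_Rev hu hm
    rw [fin11] at h4
    obtain ⟨-, hw, -, h5⟩ := h4
    have h6 := T.h_step (k + 2) _ hw
    have h7 := T.h_opp h2 (l := k + 2 + 2) (h := s.gL (k + 2) (s.out (k + 1) u))
      (by rw [h3]; exact s.lL _ _ hw) (by rw [h3, s.nL _ _ hw]; exact h5.symm)
    rw [h3] at h7
    rw [← h5] at h6
    linarith
  · rw [if_neg hm]
    have h4 : s.L (k + 1) (s.gL (k + 1) u) (s.nx (s.gL (k + 1) u) u) := by
      rcases s.nxL h2 with h4 | h4
      · exfalso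
        apply hm
        unfold monoL
        rw [h3] at h4
        rw [fin12]
        exact h4
      · exact h4
    have h5 := s.tU h2 h4
    have h6 := T.boundary_B hB (k + 2) (s.gL (k + 1) u)
    rw [fin21, ← h5, h3] at h6
    rw [h6]
    linarith

theorem Tst.lam_AR (k : Fin 3) {u : V} (hu : s.inn u) :
    T.lam (s.AR B k u) = (T.Pi (k + 1) u - T.Pi (k + 2) u) -
      (T.Pi (k + 1) (s.out (k + 2) u) - T.Pi (k + 2) (s.out (k + 2) u)) := by
  have h1 := T.h_step (k + 2) u hu
  have h2 := s.lR (k + 2) u hu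
  have h3 := s.nR (k + 2) u hu
  obtain ⟨l, h4⟩ := s.iR (k + 2) u hu
  rw [fin21] at h2
  have h5 := T.h_opp (s.lL (k + 2) u hu) (l := l) (h := s.gR (k + 2) u)
    (by rw [s.nL _ _ hu]; exact h4) (by rw [s.nL _ _ hu]; exact h3)
  rw [s.nL _ _ hu] at h5
  unfold AR
  by_cases hm : s.monoR (k + 2) u
  · rw [if_pos hm, map_zero]
    have h6 := s.monoR_Rev hu hm
    rw [fin22] at h6
    obtain ⟨-, hw, -, h7⟩ := h6
    have h8 := T.h_step (k + 1) _ hw
    have h9 : s.gR (k + 2) u = s.gL (k + 1) (s.out (k + 2) u) :=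
      s.eq_gL hw h4 (h3.trans h7)
    rw [← h9, ← h7] at h8
    linarith
  · rw [if_neg hm]
    have h6 : l = k + 2 := by
      have h7 := s.nxL h4
      rw [h3] at h7
      rcases h7 with h7 | h7
      · exfalso
        apply hm
        unfold monoR
        have h8 := s.Luniq h7 h2
        rw [h8] at h4
        rw [fin21]
        exact h4
      · have h8 := s.Luniq h7 h2
        have : ∀ l k : Fin 3, l + 1 = k → l = k + 2 := by decide
        exact this _ _ h8
    rw [h6] at h4
    have h7 := s.tU h4 (by rw [h3, fin21]; exact h2)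
    have h8 := T.boundary_B hB (k + 1) (s.gR (k + 2) u)
    rw [fin11, ← h7, h3] at h8
    rw [h8]
    linarith

theorem Tst.lam_S1 (k : Fin 3) {z : V} (hz : s.inn z) :
    T.lam (s.psum (s.AL B k) (k + 1) z) = T.Pi (k + 1) z - T.Pi (k + 2) z + T.kap (k + 1) := by
  have h := T.lam_psum (s.AL B k) (k + 1) (fun u => T.Pi (k + 1) u - T.Pi (k + 2) u)
    (fun u hu => T.lam_AL hB k hu) z (Or.inl hz)
  have h1 := T.p2 (k + 2)
  rw [fin22] at h1
  rw [h, T.p0, h1]
  ring

theorem Tst.lam_S2 (k : Fin 3) {z : V} (hz : s.inn z) :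
    T.lam (s.psum (s.AR B k) (k + 2) z) = T.Pi (k + 1) z - T.Pi (k + 2) z + T.kap (k + 1) := by
  have h := T.lam_psum (s.AR B k) (k + 2) (fun u => T.Pi (k + 1) u - T.Pi (k + 2) u)
    (fun u hu => T.lam_AR hB k hu) z (Or.inl hz)
  have h1 := T.p1 (k + 1)
  rw [fin11] at h1
  rw [h, T.p0, h1]
  ring

/-- The two definitions agree. -/
theorem S1_eq_S2 (k : Fin 3) {z : V} (hz : s.inn z) :
    s.psum (s.AL B k) (k + 1) z = s.psum (s.AR B k) (k + 2) z := by
  funext f
  have h1 := s.eq_zero_of_boundary
    (s.psum (s.AL B k) (k + 1) z - s.psum (s.AR B k) (k + 2) z)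
    (fun c v hv => by
      have e1 := (s.tstI c v hv).lam_S1 hB k hz
      have e2 := (s.tstI c v hv).lam_S2 hB k hz
      rw [← e2] at e1
      have e3 : s.psum (s.AL B k) (k + 1) z (s.gL c v) - s.psum (s.AL B k) (k + 1) z (s.gR c v) =
        s.psum (s.AR B k) (k + 2) z (s.gL c v) - s.psum (s.AR B k) (k + 2) z (s.gR c v) := e1
      simp only [Pi.sub_apply]
      linarith)
    (fun q => by
      have e1 := (s.tstO q).lam_S1 hB k hz
      have e2 := (s.tstO q).lam_S2 hB k hz
      rw [← e2] at e1
      have e3 : s.psum (s.AL B k) (k + 1) z (s.o q) = s.psum (s.AR B k) (k + 2) z (s.o q) := e1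
      simp only [Pi.sub_apply]
      linarith) f
  simp only [Pi.sub_apply] at h1
  linarith

theorem S1_bd (k : Fin 3) {z : V} (hz : s.inn z) (c : Fin 3) {v : V} (hv : s.inn v) :
    s.psum (s.AL B k) (k + 1) z (s.gL c v) - s.psum (s.AL B k) (k + 1) z (s.gR c v) =
      s.PiI (k + 1) z c v - s.PiI (k + 2) z c v := by
  have e1 := (s.tstI c v hv).lam_S1 hB k hz
  have e2 : s.psum (s.AL B k) (k + 1) z (s.gL c v) - s.psum (s.AL B k) (k + 1) z (s.gR c v) =
      s.PiI (k + 1) z c v - s.PiI (k + 2) z c v + 0 := e1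
  rw [e2, add_zero]

theorem S1_bdO (k q : Fin 3) {z : V} (hz : s.inn z) :
    s.psum (s.AL B k) (k + 1) z (s.o q) = if k + 1 = q then 1 else 0 := by
  have e1 := (s.tstO q).lam_S1 hB k hz
  have e2 : s.psum (s.AL B k) (k + 1) z (s.o q) =
      s.PiO (k + 1) z q - s.PiO (k + 2) z q + (if k + 1 = q then 1 else 0) := e1
  rw [e2, s.PiO_inn _ _ hz, s.PiO_inn _ _ hz, sub_zero, zero_add]

theorem S1_one {z : V} (hz : s.inn z) (f : F) :
    ∑ k : Fin 3, s.psum (s.AL B k) (k + 1) z f = 1 := by
  have h1 := s.eq_zero_of_boundary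
    (fun f => ∑ k : Fin 3, s.psum (s.AL B k) (k + 1) z f - 1)
    (fun c v hv => by
      have e1 := fun k => S1_bd hB k hz c hv
      have e2 : ∑ k : Fin 3, (s.psum (s.AL B k) (k + 1) z (s.gL c v) -
          s.psum (s.AL B k) (k + 1) z (s.gR c v)) = 0 := by
        rw [Finset.sum_congr rfl fun k _ => e1 k, Fin.sum_univ_three]
        have a0 : (0 : Fin 3) + 1 = 1 := rfl
        have a1 : (1 : Fin 3) + 1 = 2 := rfl
        have a2 : (2 : Fin 3) + 1 = 0 := rfl
        have b0 : (0 : Fin 3) + 2 = 2 := rfl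
        have b1 : (1 : Fin 3) + 2 = 0 := rfl
        have b2 : (2 : Fin 3) + 2 = 1 := rfl
        rw [a0, a1, a2, b0, b1, b2]
        ring
      rw [Finset.sum_sub_distrib] at e2
      linarith)
    (fun q => by
      rw [Finset.sum_congr rfl fun k _ => S1_bdO hB k q hz]
      revert q
      decide) f
  linarith

end

/-! ### supports -/

theorem Ch_Le {c : Fin 3} {g f : F} (h : Relation.ReflTransGen (s.Ch c) g f) :
    (∀ x y, s.L (c + 1) f x → s.L (c + 1) g y → s.Le (c + 1) x y) ∧
      (∀ x y, s.L (c + 2) f x → s.L (c + 2) g y → s.Le (c + 2) x y) := by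
  induction h with
  | refl => exact ⟨fun x y hx hy => s.Le_face hx hy, fun x y hx hy => s.Le_face hx hy⟩
  | @tail h f _ H ih =>
    obtain ⟨⟨l, h1⟩, h2⟩ := H
    have h3 := s.tL (c + 1) f
    have h4 := s.tN (c + 1) f
    rw [fin11] at h4
    have h5 : s.Inc (s.t (c + 1) f) h := by
      rw [← h2]
      exact s.Inc_nx ⟨l, h1⟩
    obtain ⟨l', h5⟩ := h5
    refine ⟨fun x y hx hy => ?_, fun x y hx hy => ?_⟩
    · exact s.Le_trans (s.Le_face hx h3) (s.Le_trans (s.Le_face h5 (s.tL (c + 1) h))
        (ih.1 _ _ (s.tL _ _) hy))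
    · exact s.Le_trans (s.Le_face hx h4) (s.Le_trans (s.Le_face h1 (s.tL (c + 2) h))
        (ih.2 _ _ (s.tL _ _) hy))

theorem exists_SS : ∃ SS : Fin 3 → V → F → ℤ,
    (∀ k z g, s.inn z → SS k z g = 0 ∨ SS k z g = 1) ∧
    (∀ z g, s.inn z → ∑ k, SS k z g = 1) ∧
    (∀ k z, s.inn z → ∀ c v, s.inn v → SS k z (s.gL c v) - SS k z (s.gR c v) =
      s.PiI (k + 1) z c v - s.PiI (k + 2) z c v) ∧
    (∀ k z g, s.inn z → s.inn (s.out (k + 1) z) → SS k (s.out (k + 1) z) g ≤ SS k z g) ∧
    (∀ k z g, s.inn z → s.inn (s.out (k + 2) z) → SS k (s.out (k + 2) z) g ≤ SS k z g) ∧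
    (∀ k z g x, s.inn z → SS k z g ≠ 0 → s.L k g x → s.Le k x z) ∧
    (∀ k g v, s.L k g v → s.inn v → SS k v g = 1) := by
  obtain ⟨B, B0, Bs, hB, Bsup⟩ := s.exists_B
  set SS : Fin 3 → V → F → ℤ := fun k z => s.psum (s.AL B k) (k + 1) z with hSS
  have hAL : ∀ k u g, 0 ≤ s.AL B k u g := by
    intro k u g
    unfold AL
    split_ifs
    · exact le_rfl
    · exact B0 _ _ _
  have hAR : ∀ k u g, 0 ≤ s.AR B k u g := by
    intro k u g
    unfold AR
    split_ifs
    · exact le_rfl
    · exact B0 _ _ _
  have hnn : ∀ k z g, 0 ≤ SS k z g := by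
    intro k z g
    simp only [hSS]
    unfold psum
    rw [Finset.sum_apply]
    refine Finset.sum_nonneg fun u _ => ?_
    split_ifs
    · exact hAL _ _ _
    · exact le_rfl
  have hone : ∀ z g, s.inn z → ∑ k, SS k z g = 1 := fun z g hz => S1_one hB hz g
  have h01 : ∀ k z g, s.inn z → SS k z g = 0 ∨ SS k z g = 1 := by
    intro k z g hz
    have h1 := hone z g hz
    have h2 : SS k z g ≤ ∑ k, SS k z g :=
      Finset.single_le_sum (f := fun k => SS k z g) (fun k _ => hnn k z g) (Finset.mem_univ k)
    have h3 := hnn k z g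
    rw [h1] at h2
    omega
  have hbd : ∀ k z, s.inn z → ∀ c v, s.inn v → SS k z (s.gL c v) - SS k z (s.gR c v) =
      s.PiI (k + 1) z c v - s.PiI (k + 2) z c v := fun k z hz c v hv => S1_bd hB k hz c hv
  refine ⟨SS, h01, hone, hbd, ?_, ?_, ?_, ?_⟩
  · intro k z g hz _
    have h1 : SS k z g = s.AL B k z g + SS k (s.out (k + 1) z) g :=
      congrFun (s.psum_inner (s.AL B k) (k + 1) hz) g
    have := hAL k z g
    linarith
  · intro k z g hz hz'
    have h1 : s.psum (s.AR B k) (k + 2) z g =
        s.AR B k z g + s.psum (s.AR B k) (k + 2) (s.out (k + 2) z) g :=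
      congrFun (s.psum_inner (s.AR B k) (k + 2) hz) g
    have h2 : SS k z g = s.psum (s.AR B k) (k + 2) z g := congrFun (S1_eq_S2 hB k hz) g
    have h3 : SS k (s.out (k + 2) z) g = s.psum (s.AR B k) (k + 2) (s.out (k + 2) z) g :=
      congrFun (S1_eq_S2 hB k hz') g
    have := hAR k z g
    linarith
  · intro k z g x _ hne hx
    simp only [hSS] at hne
    unfold psum at hne
    rw [Finset.sum_apply] at hne
    obtain ⟨u, _, hu⟩ := Finset.exists_ne_zero_of_sum_ne_zero hne
    by_cases hc : s.inn u ∧ s.Pth (k + 1) z u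
    · rw [if_pos hc] at hu
      unfold AL at hu
      by_cases hm : s.monoL (k + 1) u
      · rw [if_pos hm] at hu
        exact absurd rfl hu
      · rw [if_neg hm] at hu
        have h1 := (s.Ch_Le (Bsup _ _ _ hu)).1
        have h2 := s.lL (k + 1) u hc.1
        rw [fin12] at h2
        rw [fin21] at h1
        exact s.Le_trans (h1 x u hx h2) ((s.Pth_Le hc.2).2 k (fin_ne1 k).symm)
    · rw [if_neg hc] at hu
      exact absurd rfl hu
  · intro k g
    induction g using sc_indF (fun g => s.r (k + 1) (s.t (k + 1) g)) with | h g ihg => ?_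
    intro v
    induction v using sc_ind (s.r (k + 1)) with | h v ihv => ?_
    intro hL hv
    rcases s.nxL hL with hn | hn
    · -- a mono edge
      obtain ⟨-, hw, hg, -⟩ := s.edgeM hL hn
      have h1 := s.nL (k + 1) v hv
      rw [← hg] at h1
      have hm : s.monoL (k + 1) v := by
        unfold monoL
        rw [← hg, ← h1, fin12]
        exact hn
      have h2 : SS k v g = s.AL B k v g + SS k (s.out (k + 1) v) g :=
        congrFun (s.psum_inner (s.AL B k) (k + 1) hv) g
      have h3 : s.AL B k v g = 0 := by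
        unfold AL
        rw [if_pos hm]
        rfl
      rw [h2, h3, zero_add, ← h1]
      refine ihv _ ?_ hn hw
      rw [h1]
      exact (s.out_pot hv (k + 1)).1
    · by_cases hI : g = s.gL (k + 1) v
      · have h1 := s.nL (k + 1) v hv
        rw [← hI] at h1
        have hm : ¬ s.monoL (k + 1) v := by
          intro hm
          unfold monoL at hm
          rw [← hI, ← h1, fin12] at hm
          exact fin_ne1 k (s.Luniq hn hm)
        have h2 : SS k v g = s.AL B k v g + SS k (s.out (k + 1) v) g :=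
          congrFun (s.psum_inner (s.AL B k) (k + 1) hv) g
        have h3 : 0 < s.AL B k v g := by
          unfold AL
          rw [if_neg hm, ← hI]
          exact Bs _ _
        have h4 := hnn k (s.out (k + 1) v) g
        rcases h01 k v g hv with h5 | h5
        · linarith
        · exact h5
      · rcases s.edgeD hL hn with ⟨-, h1, -⟩ | ⟨-, h1, -⟩ | ⟨hw, h1, -⟩
        · exact absurd h1 (hv k)
        · exact absurd h1 hI
        · -- `(II)` only
          set w := s.nx g v with hwdef
          have h2 : v = s.out k w := s.pv_gR hw h1 hL rfl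
          have h3 := hbd k v hv k w hw
          have h4 : ¬ s.Rev k w (k + 1) v := fun h => hI (s.eq_gL hv hL h.2.2.2)
          have h5 : ¬ s.Rev k w (k + 2) v := by
            intro h
            have h6 := s.Rev_monoR h
            unfold monoR at h6
            rw [← h1, ← h2] at h6
            exact fin_ne1 k (s.Luniq h6 hL)
          have h6 : s.PiI (k + 1) v k w = 0 := by
            unfold PiI
            rw [if_neg (fun h => fin_ne1 k h.1.symm), if_neg, sub_zero]
            rintro ⟨u, h7, -⟩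
            have h8 : u = v := by rw [h7.2.2.1, ← h2]
            rw [h8] at h7
            exact h4 h7
          have h7 : s.PiI (k + 2) v k w = 0 := by
            unfold PiI
            rw [if_neg (fun h => fin_ne2 k h.1.symm), if_neg, sub_zero]
            rintro ⟨u, h7, -⟩
            have h8 : u = v := by rw [h7.2.2.1, ← h2]
            rw [h8] at h7
            exact h5 h7
          rw [h6, h7, ← h1] at h3
          have h8 := s.lL k w hw
          have h9 := s.nL k w hw
          have h10 : s.L k (s.gL k w) v := by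
            rcases s.nxL h8 with h10 | h10
            · exfalso
              apply h4
              have := s.monoL_Rev (c := k) hw (by
                unfold monoL
                rw [← h9]
                exact h10)
              rw [← h2] at this
              exact this
            · rw [h9, ← h2, fin21] at h10
              exact h10
          have h11 := ihg (s.gL k w) (by
            rw [s.potE hn (s.tL (k + 1) g)]
            exact s.pot (s.tL (k + 1) _) h8 (fin_ne12 k).symm) v h10 hv
          linarith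

end Pool.RP.SchP
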