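import Pool.Agent.Lib.MP_9dcace_rp.Sc

/-!
RP, row Sd (helper77): every Schnyder structure has its regions (port of SX `S6`).
S k z := if s.inn z then {g | SS k z g = 1} else if z = a k then univ else ∅.
-/

set_option autoImplicit false

open Classical

namespace Pool.RP.SchP

variable {V F : Type} [Fintype V] [Fintype F]

private theorem Sd_three : ∀ j k : Fin 3, j ≠ k → j = k + 1 ∨ j = k + 2 := by
  decide

private theorem Sd_e1 : ∀ c : Fin 3, c + 2 + 1 = c := by decide
private theorem Sd_e2 : ∀ c : Fin 3, c + 2 + 2 = c + 1 := by decide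
private theorem Sd_e3 : ∀ c : Fin 3, c + 1 + 1 = c + 2 := by decide
private theorem Sd_e4 : ∀ c : Fin 3, c + 1 + 2 = c := by decide
private theorem Sd_n1 : ∀ c : Fin 3, c ≠ c + 1 := by decide
private theorem Sd_n2 : ∀ c : Fin 3, c ≠ c + 2 := by decide

private theorem Sd_Pi (s : SchP V F) (c : Fin 3) (z : V) (c' : Fin 3) (v : V) :
    (s.PiI c z c' v ≤ 1) ∧ (-1 ≤ s.PiI c z c' v) ∧
    (0 < s.PiI c z c' v → c' = c ∧ s.Pth c z v) ∧
    (s.PiI c z c' v < 0 → ∃ u, s.Rev c' v c u ∧ s.Pth c z u) := by
  unfold PiI
  by_cases h1 : c' = c ∧ s.inn v ∧ s.Pth c z v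
  · by_cases h2 : ∃ u, s.Rev c' v c u ∧ s.Pth c z u
    · rw [if_pos h1, if_pos h2]
      exact ⟨by norm_num, by norm_num, fun _ => ⟨h1.1, h1.2.2⟩, fun _ => h2⟩
    · rw [if_pos h1, if_neg h2]
      exact ⟨by norm_num, by norm_num, fun _ => ⟨h1.1, h1.2.2⟩, fun h => absurd h (by norm_num)⟩
  · by_cases h2 : ∃ u, s.Rev c' v c u ∧ s.Pth c z u
    · rw [if_neg h1, if_pos h2]
      exact ⟨by norm_num, by norm_num, fun h => absurd h (by norm_num), fun _ => h2⟩
    · rw [if_neg h1, if_neg h2]
      exact ⟨by norm_num, by norm_num, fun h => absurd h (by norm_num),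
        fun h => absurd h (by norm_num)⟩

/-- the reverse colour is different -/
private theorem Sd_rev (s : SchP V F) {c : Fin 3} {v u : V} (h : s.Rev c v c u) : False := by
  obtain ⟨h1, h2, h3, h4⟩ := h
  have h5 := (s.out_pot h1 c).1
  have h6 := (s.out_pot h2 c).1
  rw [← h3] at h5
  rw [← h4] at h6
  exact lt_asymm h5 h6

theorem exists_SchPS (s : SchP V F) : ∃ s' : SchPS V F, s'.toSchP = s := by
  obtain ⟨SS, h01, hsum, hbd, hm1, hm2, hsup, hself⟩ := s.exists_SS
  set S : Fin 3 → V → Finset F := fun k z =>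
    if s.inn z then Finset.univ.filter (fun g => SS k z g = 1)
    else if z = s.a k then Finset.univ else ∅ with hS
  have hin : ∀ k z g, s.inn z → (g ∈ S k z ↔ SS k z g = 1) := by
    intro k z g hz
    simp only [hS, if_pos hz, Finset.mem_filter, Finset.mem_univ, true_and]
  have hna : ∀ j, ¬ s.inn (s.a j) := fun j h => h j rfl
  have hout : ∀ k j g, g ∈ S k (s.a j) ↔ k = j := by
    intro k j g
    simp only [hS, if_neg (hna j)]
    by_cases h : s.a j = s.a k
    · rw [if_pos h]
      exact ⟨fun _ => (s.a_inj h).symm, fun _ => Finset.mem_univ _⟩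
    · rw [if_neg h]
      exact ⟨fun h1 => absurd h1 (Finset.notMem_empty _), fun h1 => absurd (by rw [h1]) h⟩
  have hcase : ∀ z, s.inn z ∨ ∃ j, z = s.a j := by
    intro z
    by_cases h : ∃ j, z = s.a j
    · exact Or.inr h
    · push Not at h
      exact Or.inl h
  have hpart : ∀ (z : V) (g : F), ∃! k, g ∈ S k z := by
    intro z g
    rcases hcase z with hz | ⟨j, rfl⟩
    · have h1 := hsum z g hz
      rw [Fin.sum_univ_three] at h1
      simp only [hin _ _ _ hz]
      rcases h01 0 z g hz with a0 | a0 <;> rcases h01 1 z g hz with a1 | a1 <;>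
        rcases h01 2 z g hz with a2 | a2
      · omega
      · refine ⟨2, a2, fun k hk => ?_⟩
        fin_cases k
        · exact absurd (a0.symm.trans hk) (by decide)
        · exact absurd (a1.symm.trans hk) (by decide)
        · rfl
      · refine ⟨1, a1, fun k hk => ?_⟩
        fin_cases k
        · exact absurd (a0.symm.trans hk) (by decide)
        · rfl
        · exact absurd (a2.symm.trans hk) (by decide)
      · omega
      · refine ⟨0, a0, fun k hk => ?_⟩
        fin_cases k
        · rfl
        · exact absurd (a1.symm.trans hk) (by decide)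
        · exact absurd (a2.symm.trans hk) (by decide)
      · omega
      · omega
      · omega
    · exact ⟨j, (hout j j g).2 rfl, fun k hk => (hout k j g).1 hk⟩
  have hle1 : ∀ k z z' g, s.inn z → s.inn z' → SS k z g ≤ SS k z' g → g ∈ S k z → g ∈ S k z' := by
    intro k z z' g hz hz' hle h
    rw [hin _ _ _ hz] at h
    rw [hin _ _ _ hz']
    rcases h01 k z' g hz' with h1 | h1
    · omega
    · exact h1
  have hstep : ∀ (k : Fin 3) (u v : V), s.step k u v → S k u ⊆ S k v := by
    rintro k u v (⟨hu, rfl⟩ | ⟨j, hj, hv, rfl⟩ | ⟨j, hj, rfl, rfl⟩) g hg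
    · rcases hcase (s.out k u) with hv | ⟨j, hj⟩
      · obtain ⟨j, hj, -⟩ := hpart (s.out k u) g
        by_cases hjk : j = k
        · rw [← hjk]
          rw [hjk]
          rw [hjk] at hj
          exact hj
        · exfalso
          have h3 : g ∈ S j u := by
            rcases Sd_three j k hjk with h | h
            · have e := Sd_e4 k
              have h4 := hm2 (k + 1) u g hu (by rw [e]; exact hv)
              rw [e, ← h] at h4
              exact hle1 j _ _ g hv hu h4 hj
            · have e := Sd_e1 k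
              have h4 := hm1 (k + 2) u g hu (by rw [e]; exact hv)
              rw [e, ← h] at h4
              exact hle1 j _ _ g hv hu h4 hj
          exact hjk ((hpart u g).unique h3 hg)
      · have h5 := s.out_outer hu k j hj
        rw [hj, hout]
        exact h5.symm
    · rcases hcase (s.out j v) with hu | ⟨i, hi⟩
      · rcases Sd_three j k hj with h | h
        · rw [h] at hg hu
          exact hle1 k _ _ g hu hv (hm1 k v g hv hu) hg
        · rw [h] at hg hu
          exact hle1 k _ _ g hu hv (hm2 k v g hv hu) hg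
      · have h5 := s.out_outer hv j i hi
        rw [hi, hout] at hg
        exact absurd (h5.symm.trans hg.symm) hj
    · rw [hout] at hg
      exact absurd hg.symm hj
  have hmono : ∀ (k : Fin 3) (u v : V), s.Le k u v → S k u ⊆ S k v := by
    intro k u v h
    induction h with
    | refl => exact fun g hg => hg
    | tail _ h2 ih => exact fun g hg => hstep k _ _ h2 (ih hg)
  have hnotin : ∀ k z g, s.inn z → g ∉ S k z → SS k z g = 0 := by
    intro k z g hz h
    rcases h01 k z g hz with h1 | h1
    · exact h1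
    · exact absurd ((hin k z g hz).2 h1) h
  refine ⟨{
    toSchP := s
    S := S
    part := hpart
    self := ?_
    mono := hmono
    vert := ?_
    crossL := ?_
    crossR := ?_
    pathcross := ?_
    outer0 := ?_
    outer1 := ?_ }, rfl⟩
  · intro k g v hL
    rcases hcase v with h | ⟨j, rfl⟩
    · exact (hin _ _ _ h).2 (hself k g v hL h)
    · rw [hout]
      exact s.lab hL
  · intro k z v g hg hv
    rcases hcase z with hz | ⟨i, rfl⟩
    · rw [hin _ _ _ hz] at hg
      have ht := s.tL k g
      obtain ⟨l, hl⟩ := hv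
      exact s.Le_trans (s.Le_face hl ht) (hsup k z g _ hz (by rw [hg]; decide) ht)
    · rw [hout] at hg
      rw [← hg]
      exact s.Le_a k _
  · intro i c y v hv hL hR
    rcases hcase y with hy | ⟨j, rfl⟩
    · rw [hin _ _ _ hy] at hL
      have h1 := hbd i y hy c v hv
      rw [hL, hnotin _ _ _ hy hR] at h1
      obtain ⟨p1, p2, p3, p4⟩ := Sd_Pi s (i + 1) y c v
      obtain ⟨q1, q2, q3, q4⟩ := Sd_Pi s (i + 2) y c v
      by_cases h2 : 0 < s.PiI (i + 1) y c v
      · exact Or.inl (p3 h2)
      · exact Or.inr (q4 (by omega))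
    · rw [hout] at hL hR
      exact absurd hL hR
  · intro i c y v hv hL hR
    rcases hcase y with hy | ⟨j, rfl⟩
    · rw [hin _ _ _ hy] at hL
      have h1 := hbd i y hy c v hv
      rw [hL, hnotin _ _ _ hy hR] at h1
      obtain ⟨p1, p2, p3, p4⟩ := Sd_Pi s (i + 1) y c v
      obtain ⟨q1, q2, q3, q4⟩ := Sd_Pi s (i + 2) y c v
      by_cases h2 : 0 < s.PiI (i + 2) y c v
      · exact Or.inl (q3 h2)
      · exact Or.inr (p4 (by omega))
    · rw [hout] at hL hR
      exact absurd hL hR
  · intro c y v hv hp
    rcases hcase y with hy | ⟨j, rfl⟩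
    · have e1 := Sd_e1 c
      have e2 := Sd_e2 c
      have e3 := Sd_e3 c
      have e4 := Sd_e4 c
      have n1 := Sd_n1 c
      have n2 := Sd_n2 c
      have h1 := hbd (c + 2) y hy c v hv
      have h2 := hbd (c + 1) y hy c v hv
      rw [e1, e2] at h1
      rw [e3, e4] at h2
      have p0 : s.PiI c y c v = 1 := by
        unfold PiI
        rw [if_pos ⟨rfl, hv, hp⟩, if_neg]
        · norm_num
        · rintro ⟨u, hu, -⟩
          exact Sd_rev s hu
      have p1 : s.PiI (c + 1) y c v ≤ 0 := by
        by_contra hc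
        exact n1 ((Sd_Pi s (c + 1) y c v).2.2.1 (by omega)).1
      have p2 : s.PiI (c + 2) y c v ≤ 0 := by
        by_contra hc
        exact n2 ((Sd_Pi s (c + 2) y c v).2.2.1 (by omega)).1
      rw [p0] at h1 h2
      constructor
      · rw [hin _ _ _ hy]
        rcases h01 (c + 2) y (s.gL c v) hy with h3 | h3
        · rcases h01 (c + 2) y (s.gR c v) hy with h4 | h4 <;> omega
        · exact h3
      · rw [hin _ _ _ hy]
        rcases h01 (c + 1) y (s.gR c v) hy with h3 | h3
        · rcases h01 (c + 1) y (s.gL c v) hy with h4 | h4 <;> omega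
        · exact h3
    · exact absurd (s.Pth_outer hp) (hv j)
  · intro k
    ext g
    rw [hout]
    simp
  · intro k j hj
    ext g
    rw [hout]
    simp [Ne.symm hj]

end Pool.RP.SchP
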