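import Pool.Agent.Lib.MP_9dcace_rp.NDefs
import Pool.Agent.Lib.MP_9dcace_sx.T8

/-!
ROW Tb, part A (helper10): maximum principle, averages of the vertices of a face.
-/

set_option autoImplicit false

open Classical

namespace Pool.RP

open Pool.SX

variable {V F : Type} [Fintype V] [Fintype F]

namespace SchP

variable (s : SchP V F)

theorem out_potT {v : V} (hv : s.inn v) (c : Fin 3) : s.r c v < s.r c (s.out c v) := by
  have h1 : (c + 2 : Fin 3) ≠ c := by revert c; decide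
  have h2 : (c + 1 : Fin 3) ≠ c := by revert c; decide
  rcases s.lLR c v hv with h | h
  · exact s.pot h (s.lL c v hv) h1
  · exact s.pot h (s.lR c v hv) h2

theorem min_principle (om : V → V → ℝ) (hn : ∀ u v, 0 ≤ om u v)
    (hw : ∀ c v, s.inn v → 0 < om v (s.out c v)) (f : V → ℝ)
    (hf : ∀ u, s.inn u → ∑ v, om u v * (f v - f u) = 0)
    (h0 : ∀ k, 0 ≤ f (s.a k)) (v : V) : 0 ≤ f v := by
  by_contra hv
  push Not at hv
  obtain ⟨w0, -, hw0⟩ := Finset.exists_min_image Finset.univ f ⟨v, Finset.mem_univ v⟩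
  obtain ⟨w, hwm, hwr⟩ := Finset.exists_max_image (Finset.univ.filter (fun u => f u = f w0))
    (s.r 0) ⟨w0, by simp⟩
  have hfw : f w = f w0 := (Finset.mem_filter.1 hwm).2
  have hmin : ∀ u, f w ≤ f u := fun u => by rw [hfw]; exact hw0 u (Finset.mem_univ u)
  have hinn : s.inn w := by
    intro k hk
    have h1 := h0 k
    rw [← hk] at h1
    have h2 := hmin v
    linarith
  have hsum := hf w hinn
  have h1 : ∀ u ∈ (Finset.univ : Finset V), 0 ≤ om w u * (f u - f w) :=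
    fun u _ => mul_nonneg (hn w u) (sub_nonneg.2 (hmin _))
  have h4 := (Finset.sum_eq_zero_iff_of_nonneg h1).1 hsum (s.out 0 w) (Finset.mem_univ _)
  rcases mul_eq_zero.1 h4 with h5 | h5
  · exact absurd h5 (hw 0 w hinn).ne'
  · have h6 : s.out 0 w ∈ Finset.univ.filter (fun u => f u = f w0) := by
      rw [Finset.mem_filter]
      exact ⟨Finset.mem_univ _, by linarith⟩
    have h7 := hwr _ h6
    have h8 := s.out_potT hinn 0
    linarith

variable {s}

theorem in_tri {om : V → V → ℝ} {p : V → ℝ × ℝ} {lo hi A : ℝ}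
    (hd : s.Drw om p lo hi A) (v : V) :
    0 ≤ (p v).1 ∧ 0 ≤ (p v).2 ∧ (p v).1 + (p v).2 ≤ 1 := by
  have hw : ∀ c v, s.inn v → 0 < om v (s.out c v) :=
    fun c v h => lt_of_lt_of_le hd.lo_pos (hd.wlo c v h)
  have e1 : ∀ u, s.inn u → ∑ v, om u v * ((p v).1 - (p u).1) = 0 := by
    intro u hu
    have h := congrArg Prod.fst (hd.equi u hu)
    simpa [Prod.fst_sum] using h
  have e2 : ∀ u, s.inn u → ∑ v, om u v * ((p v).2 - (p u).2) = 0 := by
    intro u hu
    have h := congrArg Prod.snd (hd.equi u hu)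
    simpa [Prod.snd_sum] using h
  have hk : ∀ k : Fin 3, 0 ≤ (p (s.a k)).1 ∧ 0 ≤ (p (s.a k)).2 ∧
      0 ≤ 1 - (p (s.a k)).1 - (p (s.a k)).2 := by
    intro k
    fin_cases k
    · show 0 ≤ (p (s.a 0)).1 ∧ 0 ≤ (p (s.a 0)).2 ∧ 0 ≤ 1 - (p (s.a 0)).1 - (p (s.a 0)).2
      rw [hd.p0]; norm_num
    · show 0 ≤ (p (s.a 1)).1 ∧ 0 ≤ (p (s.a 1)).2 ∧ 0 ≤ 1 - (p (s.a 1)).1 - (p (s.a 1)).2
      rw [hd.p1]; norm_num
    · show 0 ≤ (p (s.a 2)).1 ∧ 0 ≤ (p (s.a 2)).2 ∧ 0 ≤ 1 - (p (s.a 2)).1 - (p (s.a 2)).2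
      rw [hd.p2]; norm_num
  refine ⟨s.min_principle om hd.nn hw (fun v => (p v).1) e1 (fun k => (hk k).1) v,
    s.min_principle om hd.nn hw (fun v => (p v).2) e2 (fun k => (hk k).2.1) v, ?_⟩
  have h3 := s.min_principle om hd.nn hw (fun v => 1 - (p v).1 - (p v).2) (fun u hu => ?_)
    (fun k => (hk k).2.2) v
  · linarith
  · have h4 := e1 u hu
    have h5 := e2 u hu
    have h6 : ∑ v, om u v * ((1 - (p v).1 - (p v).2) - (1 - (p u).1 - (p u).2)) =
        -(∑ v, om u v * ((p v).1 - (p u).1)) - ∑ v, om u v * ((p v).2 - (p u).2) := by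
      rw [← Finset.sum_neg_distrib, ← Finset.sum_sub_distrib]
      exact Finset.sum_congr rfl fun c _ => by ring
    rw [h6, h4, h5]
    ring

/-- every vertex is on the left of (or on) the outer edges -/
theorem outer_left {om : V → V → ℝ} {p : V → ℝ × ℝ} {lo hi A : ℝ}
    (hd : s.Drw om p lo hi A) (v : V) (k : Fin 3) :
    0 ≤ ar (p (s.a k)) (p (s.a (k + 1))) (p v) := by
  obtain ⟨h1, h2, h3⟩ := in_tri hd v
  fin_cases k
  · show 0 ≤ ar (p (s.a 0)) (p (s.a 1)) (p v)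
    rw [hd.p0, hd.p1, ar]
    norm_num
    linarith
  · show 0 ≤ ar (p (s.a 1)) (p (s.a 2)) (p v)
    rw [hd.p1, hd.p2, ar]
    norm_num
    linarith
  · show 0 ≤ ar (p (s.a 2)) (p (s.a 0)) (p v)
    rw [hd.p2, hd.p0, ar]
    norm_num
    linarith

/-- the outer triangle is positive -/
theorem outer_pos {om : V → V → ℝ} {p : V → ℝ × ℝ} {lo hi A : ℝ}
    (hd : s.Drw om p lo hi A) : 0 < ar (p (s.a 0)) (p (s.a 1)) (p (s.a 2)) := by
  rw [hd.p0, hd.p1, hd.p2, ar]
  norm_num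

variable (s)

/-- the vertices of a face -/
noncomputable def vs (g : F) : Finset V := Finset.univ.filter (fun v => s.Inc v g)

theorem mem_vs {g : F} {v : V} : v ∈ s.vs g ↔ s.Inc v g := by
  simp [vs]

theorem vs_nonempty (g : F) : (s.vs g).Nonempty := ⟨s.t 0 g, s.mem_vs.2 ⟨0, s.tL 0 g⟩⟩

theorem vs_card_pos (g : F) : 0 < ((s.vs g).card : ℝ) := by
  exact_mod_cast Finset.card_pos.2 (s.vs_nonempty g)

theorem inc_nx {g : F} {v : V} (h : s.Inc v g) : s.Inc (s.nx g v) g := by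
  obtain ⟨k, hk⟩ := h
  rcases s.nxL hk with h1 | h1
  · exact ⟨k, h1⟩
  · exact ⟨k + 1, h1⟩

/-- an affine functional at the average -/
theorem avg_aff (p : V → ℝ × ℝ) (g : F) (a b c : ℝ) :
    a * (s.avg p g).1 + b * (s.avg p g).2 + c =
      ((s.vs g).card : ℝ)⁻¹ * ∑ u ∈ s.vs g, (a * (p u).1 + b * (p u).2 + c) := by
  have hc := (s.vs_card_pos g).ne'
  have h1 : (s.avg p g).1 = ((s.vs g).card : ℝ)⁻¹ * ∑ u ∈ s.vs g, (p u).1 := by
    unfold avg vs
    rw [Prod.smul_fst, Prod.fst_sum, smul_eq_mul]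
  have h2 : (s.avg p g).2 = ((s.vs g).card : ℝ)⁻¹ * ∑ u ∈ s.vs g, (p u).2 := by
    unfold avg vs
    rw [Prod.smul_snd, Prod.snd_sum, smul_eq_mul]
  rw [h1, h2, Finset.sum_add_distrib, Finset.sum_add_distrib, ← Finset.mul_sum, ← Finset.mul_sum,
    Finset.sum_const, nsmul_eq_mul]
  field_simp

theorem avg_ar (p : V → ℝ × ℝ) (g : F) (a b : ℝ × ℝ) :
    ar a b (s.avg p g) = ((s.vs g).card : ℝ)⁻¹ * ∑ u ∈ s.vs g, ar a b (p u) := by
  have h := s.avg_aff p g (-(b.2 - a.2)) (b.1 - a.1) ((b.2 - a.2) * a.1 - (b.1 - a.1) * a.2)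
  have h1 : ar a b (s.avg p g) = -(b.2 - a.2) * (s.avg p g).1 + (b.1 - a.1) * (s.avg p g).2 +
      ((b.2 - a.2) * a.1 - (b.1 - a.1) * a.2) := by
    unfold ar
    ring
  rw [h1, h]
  congr 1
  refine Finset.sum_congr rfl fun u _ => ?_
  unfold ar
  ring

theorem avg_lin (p : V → ℝ × ℝ) (g : F) (q : ℝ × ℝ) (b : ℝ) :
    lin q b (s.avg p g) = ((s.vs g).card : ℝ)⁻¹ * ∑ u ∈ s.vs g, lin q b (p u) :=
  s.avg_aff p g q.1 q.2 b

/-- a face has a vertex different from two given ones -/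
theorem third (g : F) (v w : V) : ∃ u, s.Inc u g ∧ u ≠ v ∧ u ≠ w := by
  have hne : ∀ i j : Fin 3, i ≠ j → s.t i g ≠ s.t j g := by
    intro i j hij h
    have h1 := s.tL i g
    rw [h] at h1
    exact hij (s.Luniq h1 (s.tL j g))
  have h01 := hne 0 1 (by decide)
  have h02 := hne 0 2 (by decide)
  have h12 := hne 1 2 (by decide)
  by_cases a0 : s.t 0 g = v ∨ s.t 0 g = w
  · by_cases a1 : s.t 1 g = v ∨ s.t 1 g = w
    · refine ⟨s.t 2 g, ⟨2, s.tL 2 g⟩, ?_, ?_⟩
      · intro h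
        rcases a0 with h0 | h0
        · exact h02 (h0.trans h.symm)
        · rcases a1 with h1 | h1
          · exact h12 (h1.trans h.symm)
          · exact h01 (h0.trans h1.symm)
      · intro h
        rcases a0 with h0 | h0
        · rcases a1 with h1 | h1
          · exact h01 (h0.trans h1.symm)
          · exact h12 (h1.trans h.symm)
        · exact h02 (h0.trans h.symm)
    · rw [not_or] at a1
      exact ⟨s.t 1 g, ⟨1, s.tL 1 g⟩, a1.1, a1.2⟩
  · rw [not_or] at a0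
    exact ⟨s.t 0 g, ⟨0, s.tL 0 g⟩, a0.1, a0.2⟩

variable {s}

theorem side_nn {om : V → V → ℝ} {p : V → ℝ × ℝ} {lo hi A B : ℝ}
    (hd : s.DrwS om p lo hi A B) {g : F} {v u : V} (hv : s.Inc v g) (hu : s.Inc u g) :
    0 ≤ ar (p v) (p (s.nx g v)) (p u) := by
  by_cases h1 : u = v
  · rw [h1]
    exact le_of_eq (by unfold ar; ring)
  · by_cases h2 : u = s.nx g v
    · rw [h2]
      exact le_of_eq (by unfold ar; ring)
    · exact hd.B_pos.le.trans (hd.side g v u hv hu h1 h2)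

/-- the average of a face is at least `B / card V` on the left of each of its sides -/
theorem avg_side {om : V → V → ℝ} {p : V → ℝ × ℝ} {lo hi A B : ℝ}
    (hd : s.DrwS om p lo hi A B) {g : F} {v : V} (hv : s.Inc v g) :
    B / Fintype.card V ≤ ar (p v) (p (s.nx g v)) (s.avg p g) := by
  obtain ⟨u, hu, h1, h2⟩ := s.third g v (s.nx g v)
  have h3 := hd.side g v u hv hu h1 h2
  have h4 : B ≤ ∑ u ∈ s.vs g, ar (p v) (p (s.nx g v)) (p u) := by
    refine h3.trans (Finset.single_le_sum (f := fun u => ar (p v) (p (s.nx g v)) (p u))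
      (fun w hw => side_nn hd hv (s.mem_vs.1 hw)) (s.mem_vs.2 hu))
  rw [s.avg_ar, div_eq_inv_mul]
  have h5 := s.vs_card_pos g
  have h6 : ((s.vs g).card : ℝ) ≤ Fintype.card V := by
    exact_mod_cast Finset.card_le_univ _
  have h7 : ((Fintype.card V : ℝ))⁻¹ ≤ ((s.vs g).card : ℝ)⁻¹ := inv_anti₀ h5 h6
  have h8 : 0 ≤ ((Fintype.card V : ℝ))⁻¹ := by positivity
  exact mul_le_mul h7 h4 hd.B_pos.le (h8.trans h7)

theorem avg_side_pos {om : V → V → ℝ} {p : V → ℝ × ℝ} {lo hi A B : ℝ}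
    (hd : s.DrwS om p lo hi A B) {g : F} {v : V} (hv : s.Inc v g) :
    0 < ar (p v) (p (s.nx g v)) (s.avg p g) := by
  refine lt_of_lt_of_le ?_ (avg_side hd hv)
  have : Nonempty V := ⟨v⟩
  have h1 : (0 : ℝ) < Fintype.card V := by exact_mod_cast Fintype.card_pos
  exact div_pos hd.B_pos h1

/-- the average of a face is on the left of the outer edges -/
theorem avg_outer_left {om : V → V → ℝ} {p : V → ℝ × ℝ} {lo hi A : ℝ}
    (hd : s.Drw om p lo hi A) (g : F) (k : Fin 3) :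
    0 ≤ ar (p (s.a k)) (p (s.a (k + 1))) (s.avg p g) := by
  rw [s.avg_ar]
  refine mul_nonneg (by positivity) (Finset.sum_nonneg fun u _ => outer_left hd u k)

end SchP

end Pool.RP
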