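import Pool.Agent.Lib.MP_9dcace_rp.TbA
import Pool.Agent.Lib.MP_9dcace_sx.CS7

/-!
ROW Tb, part B (helper10): the drawing of the stellated sphere (the centre of a facet is the average of
its vertices), generic points, the open polygons are disjoint.
-/

set_option autoImplicit false

open Classical

namespace Pool.RP

open Pool.SX

variable {V A F' : Type} [Fintype V] [Fintype A] [Fintype F']

/-- a triangle of the stellated sphere which is not the outer one -/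
theorem StP.tri_cases (P : StP V A) {x y z : V ⊕ A} (h : P.S.T x y z)
    (ho : ¬ OutF (fun k => Sum.inl (P.a k)) x y z) :
    ∃ (v w : V) (f : A), P.T v w f ∧
      ((x = Sum.inl v ∧ y = Sum.inl w ∧ z = Sum.inr f) ∨
      (y = Sum.inl v ∧ z = Sum.inl w ∧ x = Sum.inr f) ∨
      (z = Sum.inl v ∧ x = Sum.inl w ∧ y = Sum.inr f)) := by
  rcases x with u | f
  · rcases y with v | g
    · rcases z with w | e
      · exfalso
        apply ho
        rcases P.vvv u v w h with ⟨h1, h2, h3⟩ | ⟨h1, h2, h3⟩ | ⟨h1, h2, h3⟩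
        · exact Or.inl ⟨by rw [h1], by rw [h2], by rw [h3]⟩
        · exact Or.inr (Or.inl ⟨by rw [h1], by rw [h2], by rw [h3]⟩)
        · exact Or.inr (Or.inr ⟨by rw [h1], by rw [h2], by rw [h3]⟩)
      · exact ⟨u, v, e, h, Or.inl ⟨rfl, rfl, rfl⟩⟩
    · rcases z with w | e
      · exact ⟨w, u, g, P.S.rot (P.S.rot h), Or.inr (Or.inr ⟨rfl, rfl, rfl⟩)⟩
      · exact absurd (P.S.rot h) (P.ff g e _)
  · rcases y with v | g
    · rcases z with w | e
      · exact ⟨v, w, f, P.S.rot h, Or.inr (Or.inl ⟨rfl, rfl, rfl⟩)⟩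
      · exact absurd (P.S.rot (P.S.rot h)) (P.ff e f _)
    · exact absurd h (P.ff f g z)

/-- `s'` is a Schnyder structure of the stellated sphere of `P` -/
structure StSch (P : StP V A) (s' : Sch (V ⊕ A) F') : Prop where
  ha : s'.a = fun k => Sum.inl (P.a k)
  hT : ∀ (g : F') (k : Fin 3), P.S.T (s'.t k g) (s'.t (k + 1) g) (s'.t (k + 2) g)
  hno : ∀ (g : F') (k : Fin 3), ¬ OutF (fun k => Sum.inl (P.a k)) (s'.t k g) (s'.t (k + 1) g)
    (s'.t (k + 2) g)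
  hall : ∀ u v w : V ⊕ A, P.S.T u v w → ¬ OutF (fun k => Sum.inl (P.a k)) u v w →
    ∃ (g : F') (k : Fin 3), s'.t k g = u ∧ s'.t (k + 1) g = v ∧ s'.t (k + 2) g = w
  huniq : ∀ g g' : F', (∀ k, s'.t k g = s'.t k g') → g = g'

theorem exists_stSch (P : StP V A) :
    ∃ (F' : Type) (_ : Fintype F') (s' : Sch (V ⊕ A) F'), StSch P s' := by
  obtain ⟨F', hF', s', h1, h2, h3, h4, h5⟩ :=
    P.S.exists_sch (fun k => Sum.inl (P.a k)) P.out
  exact ⟨F', hF', s', ⟨h1, h2, h3, h4, h5⟩⟩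

/-- the triangle of a side of a facet and its centre -/
theorem StSch.tri {P : StP V A} {s' : Sch (V ⊕ A) F'} (h : StSch P s') {v w : V} {f : A}
    (hT : P.T v w f) : ∃ (g : F') (k : Fin 3), s'.t k g = Sum.inl v ∧ s'.t (k + 1) g = Sum.inl w ∧
      s'.t (k + 2) g = Sum.inr f := by
  refine h.hall _ _ _ hT ?_
  rintro (⟨-, -, h3⟩ | ⟨-, -, h3⟩ | ⟨-, -, h3⟩) <;> exact absurd h3 (by simp)

namespace SchP

/-- the drawing of the stellated sphere -/
noncomputable def pS (s : SchP V A) (p : V → ℝ × ℝ) : V ⊕ A → ℝ × ℝ := Sum.elim p (s.avg p)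

theorem pS_inl (s : SchP V A) (p : V → ℝ × ℝ) (v : V) : s.pS p (Sum.inl v) = p v := rfl

theorem pS_inr (s : SchP V A) (p : V → ℝ × ℝ) (f : A) : s.pS p (Sum.inr f) = s.avg p f := rfl

end SchP

/-- all the inner triangles of the stellated drawing are positive -/
theorem StSch.area_pos {P : StP V A} {s' : Sch (V ⊕ A) F'} (h : StSch P s') {s : SchP V A}
    (hP : SchPOf P s) {p : V → ℝ × ℝ}
    (hpos : ∀ f v, s.Inc v f → 0 < ar (p v) (p (s.nx f v)) (s.avg p f)) (g : F') :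
    0 < ar (s.pS p (s'.t 0 g)) (s.pS p (s'.t 1 g)) (s.pS p (s'.t 2 g)) := by
  have h1 : P.S.T (s'.t 0 g) (s'.t 1 g) (s'.t 2 g) := h.hT g 0
  have h2 : ¬ OutF (fun k => Sum.inl (P.a k)) (s'.t 0 g) (s'.t 1 g) (s'.t 2 g) := h.hno g 0
  obtain ⟨v, w, f, hT, hc⟩ := P.tri_cases h1 h2
  obtain ⟨hv, hw⟩ := hP.hI v w f hT
  have h3 := hpos f v hv
  rw [hw] at h3
  rcases hc with ⟨e0, e1, e2⟩ | ⟨e1, e2, e0⟩ | ⟨e2, e0, e1⟩
  · rw [e0, e1, e2, SchP.pS_inl, SchP.pS_inl, SchP.pS_inr]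
    exact h3
  · rw [e0, e1, e2, SchP.pS_inl, SchP.pS_inl, SchP.pS_inr, ← ar_rot]
    exact h3
  · rw [e0, e1, e2, SchP.pS_inl, SchP.pS_inl, SchP.pS_inr, ar_rot]
    exact h3

/-- a generic point in an open triangle and on the left of finitely many lines -/
theorem generic_ptP {V' ι : Type} [Fintype V'] [Finite ι] (s' : Sch V' F') (p' : V' → ℝ × ℝ)
    (harea : ∀ g : F', 0 < ar (p' (s'.t 0 g)) (p' (s'.t 1 g)) (p' (s'.t 2 g)))
    (P Q : ι → ℝ × ℝ) (g' : F') (y : ℝ × ℝ)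
    (hg : ∀ i, 0 < ar (P i) (Q i) y)
    (hg' : ∀ k, 0 ≤ ar (p' (s'.t k g')) (p' (s'.t (k + 1) g')) y) :
    ∃ x : ℝ × ℝ, (∀ (g : F') (k : Fin 3), ar (p' (s'.t k g)) (p' (s'.t (k + 1) g)) x ≠ 0) ∧
      (∀ i, 0 < ar (P i) (Q i) x) ∧
      (∀ k, 0 < ar (p' (s'.t k g')) (p' (s'.t (k + 1) g')) x) := by
  set z : ℝ × ℝ := (((p' (s'.t 0 g')).1 + (p' (s'.t 1 g')).1 + (p' (s'.t 2 g')).1) / 3,
       ((p' (s'.t 0 g')).2 + (p' (s'.t 1 g')).2 + (p' (s'.t 2 g')).2) / 3) with hz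
  have hzpos : ∀ k, 0 < ar (p' (s'.t k g')) (p' (s'.t (k + 1) g')) z := fun k =>
    s'.centroid_pos p' g' (harea g') k
  have E1 : ∀ᶠ r in nhdsWithin (0 : ℝ) (Set.Ioi 0), ∀ (g : F') (k : Fin 3),
      ar (p' (s'.t k g)) (p' (s'.t (k + 1) g))
        (y.1 + r * (z.1 - y.1) + r ^ 2, y.2 + r * (z.2 - y.2) + r ^ 3) ≠ 0 := by
    rw [Filter.eventually_all]
    intro g
    rw [Filter.eventually_all]
    intro k
    filter_upwards [eventually_ne (ar (p' (s'.t k g)) (p' (s'.t (k + 1) g)) y)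
      (ar (p' (s'.t k g)) (p' (s'.t (k + 1) g)) z - ar (p' (s'.t k g)) (p' (s'.t (k + 1) g)) y) _ _
      (s'.side_ne p' g (harea g) k)] with r hr
    rw [ar_curve]
    exact hr
  have E2 : ∀ᶠ r in nhdsWithin (0 : ℝ) (Set.Ioi 0), ∀ i : ι,
      0 < ar (P i) (Q i) (y.1 + r * (z.1 - y.1) + r ^ 2, y.2 + r * (z.2 - y.2) + r ^ 3) := by
    rw [Filter.eventually_all]
    intro i
    filter_upwards [ev_pos _ (ar (P i) (Q i) z - ar (P i) (Q i) y) (-((Q i).2 - (P i).2))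
      ((Q i).1 - (P i).1) (hg i)] with r hr
    rw [ar_curve]
    exact hr
  have E3 : ∀ᶠ r in nhdsWithin (0 : ℝ) (Set.Ioi 0), ∀ (k : Fin 3),
      0 < ar (p' (s'.t k g')) (p' (s'.t (k + 1) g'))
        (y.1 + r * (z.1 - y.1) + r ^ 2, y.2 + r * (z.2 - y.2) + r ^ 3) := by
    rw [Filter.eventually_all]
    intro k
    filter_upwards [ev_pos' _ _ (-((p' (s'.t (k + 1) g')).2 - (p' (s'.t k g')).2))
      ((p' (s'.t (k + 1) g')).1 - (p' (s'.t k g')).1) (hg' k) (hzpos k)] with r hr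
    rw [ar_curve]
    exact hr
  obtain ⟨r, h1, h2, h3⟩ := (E1.and (E2.and E3)).exists
  exact ⟨_, h1, h2, h3⟩

theorem SchP.inc_iter (s : SchP V A) {g : A} {v : V} (h : s.Inc v g) (n : ℕ) :
    s.Inc ((s.nx g)^[n] v) g := by
  induction n with
  | zero => exact h
  | succ n ih =>
    rw [Function.iterate_succ_apply']
    exact s.inc_nx ih

/-- the predecessor of a vertex of a face -/
theorem SchP.prev (s : SchP V A) {g : A} {v : V} (h : s.Inc v g) :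
    ∃ u, s.Inc u g ∧ s.nx g u = v := by
  obtain ⟨k, hk⟩ := h
  obtain ⟨l, hl⟩ := s.inc_nx ⟨k, hk⟩
  obtain ⟨n, hn⟩ := s.cyc hl hk
  refine ⟨(s.nx g)^[n] v, s.inc_iter ⟨k, hk⟩ n, ?_⟩
  have h1 := Function.iterate_succ_apply' (s.nx g) n v
  have h2 := Function.iterate_succ_apply (s.nx g) n v
  exact (h1.symm.trans h2).trans hn

/-- a generic point of the open polygon `g` lies in a triangle of `g` only -/
theorem StSch.poly_cover {P : StP V A} {s' : Sch (V ⊕ A) F'} (h : StSch P s') {s : SchP V A}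
    (hP : SchPOf P s) {p : V → ℝ × ℝ} (hout : 0 < ar (p (s.a 0)) (p (s.a 1)) (p (s.a 2)))
    (hpos : ∀ f v, s.Inc v f → 0 < ar (p v) (p (s.nx f v)) (s.avg p f)) (g : A) (x : ℝ × ℝ)
    (hx : ∀ (G : F') (k : Fin 3), ar (s.pS p (s'.t k G)) (s.pS p (s'.t (k + 1) G)) x ≠ 0)
    (hg : ∀ v, s.Inc v g → 0 < ar (p v) (p (s.nx g v)) x) (G' : F')
    (hG' : ∀ k, 0 < ar (s.pS p (s'.t k G')) (s.pS p (s'.t (k + 1) G')) x) :
    ∃ (v : V) (k : Fin 3), s.Inc v g ∧ s'.t k G' = Sum.inl v ∧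
      s'.t (k + 1) G' = Sum.inl (s.nx g v) ∧ s'.t (k + 2) G' = Sum.inr g := by
  have e12 : ∀ k : Fin 3, k + 1 + 1 = k + 2 := by decide
  have e22 : ∀ k : Fin 3, k + 2 + 1 = k := by decide
  have hfin : ∀ j k : Fin 3, j = k ∨ j = k + 1 ∨ j = k + 2 := by decide
  -- the faces at the sides
  have hface : ∀ v, s.Inc v g → ∃ (G : F') (k : Fin 3), s'.t k G = Sum.inl v ∧
      s'.t (k + 1) G = Sum.inl (s.nx g v) ∧ s'.t (k + 2) G = Sum.inr g := by
    rintro v ⟨k, hk⟩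
    exact h.tri (hP.hT k g v hk)
  set z := s.avg p g with hz
  have hsum : ∑ u ∈ s.vs g, ar z x (p u) = 0 := by
    have h1 := s.avg_ar p g z x
    have h2 : ar z x (s.avg p g) = 0 := by
      rw [← hz]
      unfold ar
      ring
    rw [h2] at h1
    have h3 := s.vs_card_pos g
    have h4 : ((s.vs g).card : ℝ)⁻¹ ≠ 0 := inv_ne_zero h3.ne'
    exact (mul_eq_zero.1 h1.symm).resolve_left h4
  have hne : ∀ u ∈ s.vs g, ar z x (p u) ≠ 0 := by
    intro u hu h0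
    obtain ⟨G, k, h1, h2, h3⟩ := hface u (s.mem_vs.1 hu)
    apply hx G (k + 2)
    rw [e22, h1, h3, SchP.pS_inl, SchP.pS_inr, ← hz]
    have h5 : ar z (p u) x = - ar z x (p u) := by
      unfold ar
      ring
    rw [h5, h0, neg_zero]
  obtain ⟨w0, hw0⟩ := s.vs_nonempty g
  obtain ⟨u2, hu2, hp2⟩ := Finset.exists_pos_of_sum_zero_of_exists_nonzero _ hsum
    ⟨w0, hw0, hne w0 hw0⟩
  have hsum' : ∑ u ∈ s.vs g, - ar z x (p u) = 0 := by
    rw [Finset.sum_neg_distrib, hsum, neg_zero]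
  obtain ⟨u1, hu1, hp1⟩ := Finset.exists_pos_of_sum_zero_of_exists_nonzero _ hsum'
    ⟨w0, hw0, neg_ne_zero.2 (hne w0 hw0)⟩
  obtain ⟨k1, hk1⟩ := s.mem_vs.1 hu1
  obtain ⟨k2, hk2⟩ := s.mem_vs.1 hu2
  obtain ⟨n, hn⟩ := s.cyc hk1 hk2
  have hex : ∃ n, 0 < ar z x (p ((s.nx g)^[n] u1)) := ⟨n, by rw [hn]; exact hp2⟩
  obtain ⟨m, hm⟩ : ∃ m, Nat.find hex = m + 1 := by
    refine Nat.exists_eq_succ_of_ne_zero ?_
    intro h0
    have h1 := Nat.find_spec hex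
    rw [h0] at h1
    have h2 : 0 < ar z x (p u1) := h1
    linarith
  have hpos1 : 0 < ar z x (p ((s.nx g)^[m + 1] u1)) := by
    rw [← hm]
    exact Nat.find_spec hex
  have hneg1 : ¬ 0 < ar z x (p ((s.nx g)^[m] u1)) := Nat.find_min hex (by omega)
  rw [Function.iterate_succ_apply'] at hpos1
  set v := (s.nx g)^[m] u1 with hv
  have hvg : s.Inc v g := s.inc_iter ⟨k1, hk1⟩ m
  have hneg2 : ar z x (p v) < 0 :=
    lt_of_le_of_ne (not_lt.1 hneg1) (hne v (s.mem_vs.2 hvg))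
  obtain ⟨G, k, h1, h2, h3⟩ := hface v hvg
  have hG : ∀ j, 0 < ar (s.pS p (s'.t j G)) (s.pS p (s'.t (j + 1) G)) x := by
    intro j
    rcases hfin j k with rfl | rfl | rfl
    · rw [h1, h2, SchP.pS_inl, SchP.pS_inl]
      exact hg v hvg
    · rw [e12, h2, h3, SchP.pS_inl, SchP.pS_inr, ← hz]
      have h5 : ar (p (s.nx g v)) z x = ar z x (p (s.nx g v)) := by
        unfold ar
        ring
      rw [h5]
      exact hpos1
    · rw [e22, h1, h3, SchP.pS_inl, SchP.pS_inr, ← hz]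
      have h5 : ar z (p v) x = - ar z x (p v) := by
        unfold ar
        ring
      rw [h5]
      linarith
  have hout' : 0 < ar (s.pS p (s'.a 0)) (s.pS p (s'.a 1)) (s.pS p (s'.a 2)) := by
    rw [h.ha]
    show 0 < ar (p (P.a 0)) (p (P.a 1)) (p (P.a 2))
    rw [← hP.ha]
    exact hout
  have hGG := s'.cover_one (s.pS p) hout' (h.area_pos hP hpos) x hx G G' hG hG'
  subst hGG
  exact ⟨v, k, hvg, h1, h2, h3⟩

end Pool.RP
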