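import Pool.Agent.Lib.MP_9dcace_rp.TbB

/-!
ROW Tb, part C (helper10): a vertex which is not in the face `g` is not in the closed polygon `g`.
-/

set_option autoImplicit false

open Classical

namespace Pool.RP

open Pool.SX

variable {V F A F' : Type} [Fintype V] [Fintype F] [Fintype A] [Fintype F']

/-- the other side of an edge of a face -/
theorem SchP.opp_face (s : SchP V F) {g : F} {v : V} (hv : s.Inc v g) :
    (∃ k, g = s.o k ∧ v = s.a k ∧ s.nx g v = s.a (k + 1)) ∨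
    ∃ (h : F) (c : Fin 3), s.Inc (s.nx g v) h ∧ s.nx h (s.nx g v) = v ∧
      ((s.inn v ∧ s.nx g v = s.out c v) ∨ (s.inn (s.nx g v) ∧ v = s.out c (s.nx g v))) := by
  obtain ⟨k, hk⟩ := hv
  have hI : ∀ c, s.inn v → g = s.gL c v → ∃ (h : F) (c : Fin 3), s.Inc (s.nx g v) h ∧
      s.nx h (s.nx g v) = v ∧
      ((s.inn v ∧ s.nx g v = s.out c v) ∨ (s.inn (s.nx g v) ∧ v = s.out c (s.nx g v))) := by
    intro c hi hg
    have h1 : s.nx g v = s.out c v := by
      rw [hg]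
      exact s.nL c v hi
    refine ⟨s.gR c v, c, ?_, ?_, Or.inl ⟨hi, h1⟩⟩
    · rw [h1]
      exact s.iR c v hi
    · rw [h1]
      exact s.nR c v hi
  rcases s.edge hk with ⟨h1, h2 | h2 | h2⟩ | ⟨h1, h2, h3, h4, h5⟩
  · left
    refine ⟨k, h2.1, h2.2, ?_⟩
    rw [h2.1, h2.2]
    exact s.on k
  · exact Or.inr (hI (k + 1) h2.1 h2.2)
  · right
    obtain ⟨hi, hg⟩ := h2
    have h3 : s.nx g (s.out k (s.nx g v)) = s.nx g v := by
      conv_lhs => rw [hg]
      conv_rhs => rw [← s.nR k (s.nx g v) hi]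
      rw [← hg]
    obtain ⟨l, hl⟩ := s.iR k (s.nx g v) hi
    rw [← hg] at hl
    have h4 : s.out k (s.nx g v) = v := s.nxinj hl hk h3
    refine ⟨s.gL k (s.nx g v), k, ⟨k + 2, s.lL k _ hi⟩, ?_, Or.inr ⟨hi, h4.symm⟩⟩
    rw [s.nL k _ hi, h4]
  · exact Or.inr (hI (k + 1) h2 h4)

theorem tbc_aff (a b x z : ℝ × ℝ) (ε : ℝ) :
    ar a b (x.1 + ε * (z.1 - x.1), x.2 + ε * (z.2 - x.2)) =
      (1 - ε) * ar a b x + ε * ar a b z := by
  unfold ar; ring

theorem tbc_left (a b : ℝ × ℝ) : ar a b a = 0 := by unfold ar; ring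

theorem tbc_right (a b : ℝ × ℝ) : ar a b b = 0 := by unfold ar; ring

/-- NOT CLOSED: `v` is strictly on the right of a side of every face which does not contain it -/
theorem SchP.not_closed {P : StP V A} {s : SchP V A} (hP : SchPOf P s) {om : V → V → ℝ}
    {p : V → ℝ × ℝ} {lo hi A' : ℝ} (hd : s.Drw om p lo hi A')
    (hpos : ∀ f v, s.Inc v f → 0 < ar (p v) (p (s.nx f v)) (s.avg p f))
    {q : A → ℝ × ℝ} {b : A → ℝ} (hc : s.Crs om p q b) (v : V) (g : A) (hv : ¬ s.Inc v g) :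
    ∃ u, s.Inc u g ∧ ar (p u) (p (s.nx g u)) (p v) < 0 := by
  by_contra hcon
  push Not at hcon
  obtain ⟨F', hF', s', h⟩ := exists_stSch P
  have harea := h.area_pos hP hpos
  set z := s.avg p g with hz
  have hzo : ∀ k, 0 ≤ ar (p (s.a k)) (p (s.a (k + 1))) z := fun k => avg_outer_left hd g k
  have hzi : ∀ u, s.Inc u g → 0 < ar (p u) (p (s.nx g u)) z := fun u hu => hpos g u hu
  obtain ⟨k0, g0, hk0⟩ := s.cov v
  obtain ⟨g', hg'm, hmax⟩ := Finset.exists_max_image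
    (Finset.univ.filter (fun g' : A => s.Inc v g'))
    (fun g' => (q g').1 * (z.1 - (p v).1) + (q g').2 * (z.2 - (p v).2))
    ⟨g0, Finset.mem_filter.mpr ⟨Finset.mem_univ _, ⟨k0, hk0⟩⟩⟩
  have hvg' : s.Inc v g' := (Finset.mem_filter.mp hg'm).2
  have hclaim : ∀ u, s.Inc u g' → (u = v ∨ s.nx g' u = v) →
      0 ≤ ar (p u) (p (s.nx g' u)) z := by
    intro u hu huv
    by_contra hneg
    push Not at hneg
    rcases s.opp_face hu with ⟨k, h1, h2, h3⟩ | ⟨g'', c, h1, h2, h3⟩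
    · have h4 := hzo k
      rw [h3, h2] at hneg
      linarith
    · have hiv : s.Inc v g'' := by
        rcases huv with h4 | h4
        · rw [← h4, ← h2]
          exact s.inc_nx h1
        · rw [← h4]
          exact h1
      have hm := hmax g'' (Finset.mem_filter.mpr ⟨Finset.mem_univ _, hiv⟩)
      have hwp : 0 < om u (s.nx g' u) := by
        rcases h3 with ⟨h4, h5⟩ | ⟨h4, h5⟩
        · rw [h5]
          exact lt_of_lt_of_le hd.lo_pos (hd.wlo c u h4)
        · rw [hd.symm]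
          have h6 := lt_of_lt_of_le hd.lo_pos (hd.wlo c _ h4)
          rwa [← h5] at h6
      have h0 : ar (p u) (p (s.nx g' u)) (p v) = 0 := by
        rcases huv with h4 | h4
        · rw [← h4]; exact tbc_left _ _
        · rw [← h4]; exact tbc_right _ _
      have e1 := hc g' g'' u hu h1 h2 (p v)
      have e2 := hc g' g'' u hu h1 h2 z
      rw [h0, mul_zero] at e1
      have hneg2 : om u (s.nx g' u) * ar (p u) (p (s.nx g' u)) z < 0 :=
        mul_neg_of_pos_of_neg hwp hneg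
      rw [← e2] at hneg2
      unfold lin at e1 hneg2
      linarith
  obtain ⟨u', hu', hu'v⟩ := s.prev hvg'
  set w := s.nx g' v with hw
  set c := s.avg p g' with hcdef
  have hwg' : s.Inc w g' := s.inc_nx hvg'
  have hα : 0 ≤ ar (p v) (p w) z := hclaim v hvg' (Or.inl rfl)
  have hβ : 0 ≤ ar (p u') (p v) z := by
    have h1 := hclaim u' hu' (Or.inr hu'v)
    rwa [hu'v] at h1
  have hcw : 0 < ar (p v) (p w) c := hpos g' v hvg'
  have hcu : 0 < ar (p u') (p v) c := by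
    have h1 := hpos g' u' hu'
    rwa [hu'v] at h1
  -- a triangle of g' at v whose cone contains z
  obtain ⟨x1, x2, hT, hx1, hx2, e1⟩ : ∃ x1 x2 : V, P.T x1 x2 g' ∧
      (x1 = v ∨ x2 = v) ∧ 0 < ar (p x1) (p x2) c ∧
      (0 ≤ ar (p x1) (p x2) z ∧
        ((x1 = v ∧ 0 ≤ ar c (p x1) z) ∨ (x2 = v ∧ 0 ≤ ar (p x2) c z))) := by
    obtain ⟨kv, hkv⟩ := hvg'
    obtain ⟨ku, hku⟩ := hu'
    rcases le_total 0 (ar c (p v) z) with h1 | h1
    · exact ⟨v, w, hP.hT kv g' v hkv, Or.inl rfl, hcw, hα, Or.inl ⟨rfl, h1⟩⟩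
    · refine ⟨u', v, ?_, Or.inr rfl, hcu, hβ, Or.inr ⟨rfl, ?_⟩⟩
      · have h2 := hP.hT ku g' u' hku
        rwa [hu'v] at h2
      · have h2 : ar (p v) c z = - ar c (p v) z := by unfold ar; ring
        rw [h2]
        linarith
  obtain ⟨G1, k1, t0, t1, t2⟩ := h.tri hT
  -- the value of the third side
  obtain ⟨ε, hε0, hε1, hε⟩ : ∃ ε : ℝ, 0 < ε ∧ ε < 1 ∧ ∀ y,
      y = ((p v).1 + ε * (z.1 - (p v).1), (p v).2 + ε * (z.2 - (p v).2)) →
      0 ≤ ar (p x2) c y ∧ 0 ≤ ar c (p x1) y := by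
    have hgen : ∀ α β : ℝ, 0 < α → ∃ ε : ℝ, 0 < ε ∧ ε < 1 ∧ 0 ≤ (1 - ε) * α + ε * β := by
      intro α β hα
      have hb := abs_nonneg β
      have hD : 0 < α + |β| + 1 := by linarith
      refine ⟨α / (α + |β| + 1), div_pos hα hD, ?_, ?_⟩
      · rw [div_lt_one hD]; linarith
      · have e : (1 - α / (α + |β| + 1)) * α + α / (α + |β| + 1) * β =
            α * (|β| + β + 1) / (α + |β| + 1) := by
          field_simp
          ring
        rw [e]
        have hb2 := neg_abs_le β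
        exact div_nonneg (mul_nonneg hα.le (by linarith)) hD.le
    have hr1 : ar (p x2) c (p x1) = ar (p x1) (p x2) c := by unfold ar; ring
    have hr2 : ar c (p x1) (p x2) = ar (p x1) (p x2) c := by unfold ar; ring
    rcases e1.2 with ⟨hxv, h1⟩ | ⟨hxv, h1⟩
    · obtain ⟨ε, ha, hb, hc'⟩ := hgen (ar (p x2) c (p v)) (ar (p x2) c z)
        (by rw [← hxv, hr1]; exact hx2)
      refine ⟨ε, ha, hb, fun y hy => ?_⟩
      subst hy
      rw [tbc_aff, tbc_aff]
      refine ⟨hc', ?_⟩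
      rw [← hxv, tbc_right, mul_zero, zero_add]
      exact mul_nonneg ha.le h1
    · obtain ⟨ε, ha, hb, hc'⟩ := hgen (ar c (p x1) (p v)) (ar c (p x1) z)
        (by rw [← hxv, hr2]; exact hx2)
      refine ⟨ε, ha, hb, fun y hy => ?_⟩
      subst hy
      rw [tbc_aff, tbc_aff]
      refine ⟨?_, hc'⟩
      rw [← hxv, tbc_left, mul_zero, zero_add]
      exact mul_nonneg ha.le h1
  set y : ℝ × ℝ := ((p v).1 + ε * (z.1 - (p v).1), (p v).2 + ε * (z.2 - (p v).2)) with hy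
  obtain ⟨hy2, hy3⟩ := hε y rfl
  have hy1 : 0 ≤ ar (p x1) (p x2) y := by
    rw [hy, tbc_aff]
    have h0 : ar (p x1) (p x2) (p v) = 0 := by
      rcases hx1 with h1 | h1
      · rw [h1]; exact tbc_left _ _
      · rw [h1]; exact tbc_right _ _
    rw [h0, mul_zero, zero_add]
    exact mul_nonneg hε0.le e1.1
  have e12 : ∀ k : Fin 3, k + 1 + 1 = k + 2 := by decide
  have e22 : ∀ k : Fin 3, k + 2 + 1 = k := by decide
  have hfin : ∀ j k : Fin 3, j = k ∨ j = k + 1 ∨ j = k + 2 := by decide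
  have hyG : ∀ k, 0 ≤ ar (s.pS p (s'.t k G1)) (s.pS p (s'.t (k + 1) G1)) y := by
    intro j
    rcases hfin j k1 with rfl | rfl | rfl
    · rw [t0, t1, SchP.pS_inl, SchP.pS_inl]
      exact hy1
    · rw [e12, t1, t2, SchP.pS_inl, SchP.pS_inr]
      exact hy2
    · rw [e22, t0, t2, SchP.pS_inl, SchP.pS_inr]
      exact hy3
  have hyg : ∀ i : {u : V // s.Inc u g}, 0 < ar (p i.1) (p (s.nx g i.1)) y := by
    rintro ⟨u, hu⟩
    show 0 < ar (p u) (p (s.nx g u)) y
    rw [hy, tbc_aff]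
    have h1 := mul_nonneg (sub_nonneg.mpr hε1.le) (hcon u hu)
    have h2 := mul_pos hε0 (hzi u hu)
    linarith
  obtain ⟨x, hx1', hx2', hx3'⟩ := generic_ptP s' (s.pS p) harea
    (fun i : {u : V // s.Inc u g} => p i.1) (fun i => p (s.nx g i.1)) G1 y hyg hyG
  obtain ⟨v', k', hv', m0, m1, m2⟩ := h.poly_cover hP (outer_pos hd) hpos g x hx1'
    (fun u hu => hx2' ⟨u, hu⟩) G1 hx3'
  -- the centre of the triangle is unique
  have hgg : g = g' := by
    rcases hfin k' k1 with rfl | rfl | rfl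
    · rw [t2] at m2
      exact (Sum.inr.inj m2).symm
    · rw [e12, t2] at m1
      exact absurd m1 (by simp)
    · rw [t2] at m0
      exact absurd m0 (by simp)
  exact hv (hgg ▸ hvg')

end Pool.RP
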