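import Pool.Agent.Lib.MP_9dcace_rp.TcA

/-!
ROW Tc (helper68): the margin at the outer facet and the realization with margins
(end of section 7 of m3_REAL_h83.md). `height` (row Ta) is an explicit hypothesis.
* `real_of_planes` : a realization from points and affine functions with margins.
* `SchP.Tc_outer` : the lifted inner vertices are below the outer plane with a margin.
* `SchPOf.real_of_crs` : `Real3 P.incO (36 * M ^ 6)`.
-/

set_option autoImplicit false

open Classical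

namespace Pool.RP

open Pool.SX

theorem Real3.comap {V A A' : Type} {inc : V → A → Prop} {inc' : V → A' → Prop} {N : ℝ}
    (e : A' → A) (h : ∀ v f, inc' v f ↔ inc v (e f)) (hr : Real3 inc N) : Real3 inc' N := by
  obtain ⟨x, q, h1, h2, h3, h4⟩ := hr
  exact ⟨x, fun f => q (e f), h1, fun f => h2 (e f), fun v f hf => h3 v (e f) ((h v f).1 hf),
    fun v f hf => h4 v (e f) (fun h' => hf ((h v f).2 h'))⟩

theorem Real3.mono {V A : Type} {inc : V → A → Prop} {N N' : ℝ} (h0 : 0 < N) (h : N ≤ N')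
    (hr : Real3 inc N) : Real3 inc N' := by
  obtain ⟨x, q, h1, h2, h3, h4⟩ := hr
  refine ⟨x, q, fun v i => (h1 v i).trans h, fun f i => (h2 f i).trans h, h3, fun v f hf => ?_⟩
  have h5 : 1 / N' ≤ 1 / N := one_div_le_one_div_of_le h0 h
  linarith [h4 v f hf]

theorem Tc_dp_sum {V : Type} [Fintype V] (a : E3) (X : V → E3) :
    dp a (∑ v, X v) = ∑ v, dp a (X v) := by
  simp only [dp_def, Finset.sum_apply, Finset.mul_sum]
  rw [Finset.sum_add_distrib, Finset.sum_add_distrib]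

/-- a realization with margins from points and affine functions `dp (n f) y + c f`, which vanish at
the vertices of `f` and are at least `μ` at the others -/
theorem real_of_planes {V A : Type} [Fintype V] {inc : V → A → Prop} {X : V → E3} {n : A → E3}
    {c : A → ℝ} {μ Λ G R N : ℝ} (hμ : 0 < μ) (hX : ∀ v i, |X v i| ≤ R) (hn : ∀ f i, |n f i| ≤ G)
    (h0 : ∀ v f, inc v f → dp (n f) (X v) + c f = 0)
    (h1 : ∀ v f, ¬ inc v f → μ ≤ dp (n f) (X v) + c f)
    (h2 : ∀ v f, dp (n f) (X v) + c f ≤ Λ) (hne : ∀ f, ∃ v, ¬ inc v f)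
    (hR : 2 * R ≤ N) (hG : G * Fintype.card V ≤ N * μ) (hΛ : Λ ≤ N * μ) : Real3 inc N := by
  by_cases hV : IsEmpty V
  · by_cases hA : IsEmpty A
    · refine ⟨fun v => (hV.false v).elim, fun f => (hA.false f).elim, fun v => (hV.false v).elim,
        fun f => (hA.false f).elim, fun v => (hV.false v).elim, fun v => (hV.false v).elim⟩
    · rw [not_isEmpty_iff] at hA
      obtain ⟨f⟩ := hA
      obtain ⟨v, -⟩ := hne f
      exact (hV.false v).elim
  rw [not_isEmpty_iff] at hV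
  have hcard : 0 < (Fintype.card V : ℝ) := by exact_mod_cast Fintype.card_pos
  set o : E3 := (Fintype.card V : ℝ)⁻¹ • ∑ v, X v with ho
  have hnn : ∀ v f, 0 ≤ dp (n f) (X v) + c f := by
    intro v f
    by_cases hf : inc v f
    · rw [h0 v f hf]
    · exact hμ.le.trans (h1 v f hf)
  have hLo : ∀ f, dp (n f) o + c f = (Fintype.card V : ℝ)⁻¹ * ∑ v, (dp (n f) (X v) + c f) := by
    intro f
    rw [ho, dp_smul, Tc_dp_sum, Finset.sum_add_distrib, Finset.sum_const, Finset.card_univ,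
      nsmul_eq_mul]
    field_simp
  have hL1 : ∀ f, μ / Fintype.card V ≤ dp (n f) o + c f := by
    intro f
    obtain ⟨v, hv⟩ := hne f
    have h3 : dp (n f) (X v) + c f ≤ ∑ v, (dp (n f) (X v) + c f) :=
      Finset.single_le_sum (f := fun v => dp (n f) (X v) + c f) (fun v _ => hnn v f)
        (Finset.mem_univ v)
    have h4 := h1 v f hv
    rw [hLo f, div_eq_inv_mul]
    exact mul_le_mul_of_nonneg_left (h4.trans h3) (inv_nonneg.2 hcard.le)
  have hL2 : ∀ f, dp (n f) o + c f ≤ Λ := by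
    intro f
    have h3 : ∑ v, (dp (n f) (X v) + c f) ≤ ∑ _v : V, Λ :=
      Finset.sum_le_sum (fun v _ => h2 v f)
    rw [Finset.sum_const, Finset.card_univ, nsmul_eq_mul] at h3
    rw [hLo f]
    calc (Fintype.card V : ℝ)⁻¹ * ∑ v, (dp (n f) (X v) + c f)
        ≤ (Fintype.card V : ℝ)⁻¹ * (Fintype.card V * Λ) :=
          mul_le_mul_of_nonneg_left h3 (inv_nonneg.2 hcard.le)
      _ = Λ := by field_simp
  have hLpos : ∀ f, 0 < dp (n f) o + c f := fun f => (div_pos hμ hcard).trans_le (hL1 f)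
  have hval : ∀ v f, dp ((-(dp (n f) o + c f)⁻¹) • n f) (X v - o) =
      1 - (dp (n f) (X v) + c f) / (dp (n f) o + c f) := by
    intro v f
    rw [dp_smul_left, dp_sub]
    have := (hLpos f).ne'
    field_simp
    ring
  have hR0 : ∀ v i, |X v i| ≤ R := hX
  have ho2 : ∀ i, |o i| ≤ R := by
    intro i
    have e : o i = (Fintype.card V : ℝ)⁻¹ * ∑ v, X v i := by
      rw [ho, Pi.smul_apply, Finset.sum_apply, smul_eq_mul]
    rw [e, abs_mul, abs_of_nonneg (inv_nonneg.2 hcard.le)]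
    have h3 : |∑ v, X v i| ≤ ∑ _v : V, R :=
      (Finset.abs_sum_le_sum_abs _ _).trans (Finset.sum_le_sum (fun v _ => hX v i))
    rw [Finset.sum_const, Finset.card_univ, nsmul_eq_mul] at h3
    calc (Fintype.card V : ℝ)⁻¹ * |∑ v, X v i|
        ≤ (Fintype.card V : ℝ)⁻¹ * (Fintype.card V * R) :=
          mul_le_mul_of_nonneg_left h3 (inv_nonneg.2 hcard.le)
      _ = R := by field_simp
  refine ⟨fun v => X v - o, fun f => (-(dp (n f) o + c f)⁻¹) • n f, ?_, ?_, ?_, ?_⟩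
  · intro v i
    have h3 := abs_sub (X v i) (o i)
    have h4 := hX v i
    have h5 := ho2 i
    have h6 : |X v i - o i| ≤ |X v i| + |o i| := abs_sub _ _
    show |X v i - o i| ≤ N
    linarith
  · intro f i
    show |(-(dp (n f) o + c f)⁻¹) * n f i| ≤ N
    rw [abs_mul, abs_neg, abs_inv, abs_of_pos (hLpos f)]
    have h3 : (dp (n f) o + c f)⁻¹ ≤ (μ / Fintype.card V)⁻¹ :=
      inv_anti₀ (div_pos hμ hcard) (hL1 f)
    have hG0 : 0 ≤ G := (abs_nonneg _).trans (hn f i)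
    calc (dp (n f) o + c f)⁻¹ * |n f i| ≤ (μ / Fintype.card V)⁻¹ * G :=
          mul_le_mul h3 (hn f i) (abs_nonneg _) (inv_nonneg.2 (div_pos hμ hcard).le)
      _ = G * Fintype.card V / μ := by
          field_simp
      _ ≤ N := by
          rw [div_le_iff₀ hμ]
          exact hG
  · intro v f hf
    simp only
    rw [hval v f, h0 v f hf, zero_div, sub_zero]
  · intro v f hf
    simp only
    rw [hval v f]
    have h3 := h1 v f hf
    have hΛ0 : 0 < Λ := hμ.trans_le (h3.trans (h2 v f))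
    have hN : 0 < N := by
      by_contra hcon
      push Not at hcon
      have : N * μ ≤ 0 := mul_nonpos_of_nonpos_of_nonneg hcon hμ.le
      linarith
    have h4 : 1 / N ≤ (dp (n f) (X v) + c f) / (dp (n f) o + c f) := by
      rw [div_le_div_iff₀ hN (hLpos f)]
      have h5 := hL2 f
      have h6 : N * μ ≤ N * (dp (n f) (X v) + c f) := mul_le_mul_of_nonneg_left h3 hN.le
      linarith
    linarith

/-- the slope of an affine function in terms of its values -/
theorem Tc_slope {q : ℝ × ℝ} {b H A : ℝ} {x y z : ℝ × ℝ} (hA : 0 < A) (hD : A ≤ ar x y z)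
    (hx : 0 ≤ x.1 ∧ 0 ≤ x.2 ∧ x.1 + x.2 ≤ 1) (hy : 0 ≤ y.1 ∧ 0 ≤ y.2 ∧ y.1 + y.2 ≤ 1)
    (hz : 0 ≤ z.1 ∧ 0 ≤ z.2 ∧ z.1 + z.2 ≤ 1) (h1 : 0 ≤ lin q b x ∧ lin q b x ≤ H)
    (h2 : 0 ≤ lin q b y ∧ lin q b y ≤ H) (h3 : 0 ≤ lin q b z ∧ lin q b z ≤ H) :
    |q.1| * A ≤ 2 * H ∧ |q.2| * A ≤ 2 * H := by
  have hH : 0 ≤ H := h1.1.trans h1.2
  have key : ∀ a b c d : ℝ, |a| ≤ H → |b| ≤ 1 → |c| ≤ H → |d| ≤ 1 → |a * b - c * d| ≤ 2 * H := by
    intro a b c d ha hb hc hd
    have e1 : |a * b| ≤ H := by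
      rw [abs_mul]
      calc |a| * |b| ≤ H * 1 := mul_le_mul ha hb (abs_nonneg _) hH
        _ = H := mul_one H
    have e2 : |c * d| ≤ H := by
      rw [abs_mul]
      calc |c| * |d| ≤ H * 1 := mul_le_mul hc hd (abs_nonneg _) hH
        _ = H := mul_one H
    have e3 : |a * b - c * d| ≤ |a * b| + |c * d| := abs_sub _ _
    linarith
  have d1 : |lin q b y - lin q b x| ≤ H := abs_le.2 ⟨by linarith [h1.2, h2.1], by linarith [h1.1, h2.2]⟩
  have d2 : |lin q b z - lin q b x| ≤ H := abs_le.2 ⟨by linarith [h1.2, h3.1], by linarith [h1.1, h3.2]⟩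
  have a1 : |z.2 - x.2| ≤ 1 := abs_le.2 ⟨by linarith [hx.1, hx.2.2, hz.2.1], by linarith [hz.1, hz.2.2, hx.2.1]⟩
  have a2 : |y.2 - x.2| ≤ 1 := abs_le.2 ⟨by linarith [hx.1, hx.2.2, hy.2.1], by linarith [hy.1, hy.2.2, hx.2.1]⟩
  have a3 : |z.1 - x.1| ≤ 1 := abs_le.2 ⟨by linarith [hx.2.1, hx.2.2, hz.1], by linarith [hz.2.1, hz.2.2, hx.1]⟩
  have a4 : |y.1 - x.1| ≤ 1 := abs_le.2 ⟨by linarith [hx.2.1, hx.2.2, hy.1], by linarith [hy.2.1, hy.2.2, hx.1]⟩
  have e1 : q.1 * ar x y z = (lin q b y - lin q b x) * (z.2 - x.2) -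
      (lin q b z - lin q b x) * (y.2 - x.2) := by
    simp only [ar, lin]; ring
  have e2 : q.2 * ar x y z = (lin q b z - lin q b x) * (y.1 - x.1) -
      (lin q b y - lin q b x) * (z.1 - x.1) := by
    simp only [ar, lin]; ring
  have hD0 : 0 ≤ ar x y z := hA.le.trans hD
  constructor
  · have k := key _ _ _ _ d1 a1 d2 a2
    rw [← e1, abs_mul, abs_of_nonneg hD0] at k
    exact (mul_le_mul_of_nonneg_left hD (abs_nonneg _)).trans k
  · have k := key _ _ _ _ d2 a4 d1 a3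
    rw [← e2, abs_mul, abs_of_nonneg hD0] at k
    exact (mul_le_mul_of_nonneg_left hD (abs_nonneg _)).trans k

namespace SchP

variable {V F : Type} [Fintype V] [Fintype F] (s : SchP V F)

private theorem f3_c : ∀ j k : Fin 3, j ≠ k → j = k + 1 ∨ j + 1 = k := by decide

/-- the outer vertex `a k` is the only maximum of `r k` -/
theorem Tc_r_lt (k : Fin 3) (v : V) (hv : v ≠ s.a k) : s.r k v < s.r k (s.a k) := by
  obtain ⟨w, -, hw⟩ := Finset.exists_max_image Finset.univ (s.r k) ⟨v, Finset.mem_univ v⟩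
  have h1 : ∀ j, j ≠ k → s.r k (s.a j) < s.r k (s.a k) := by
    intro j hj
    rcases f3_c j k hj with h | h
    · have h2 := s.o1 k
      rw [← h] at h2
      exact s.pot (s.o0 k) h2 hj
    · have h2 := s.o1 j
      rw [h] at h2
      exact s.pot h2 (s.o0 j) hj
  have h2 : w = s.a k := by
    by_contra hne
    by_cases hi : s.inn w
    · have h3 := s.out_potT hi k
      have h4 := hw (s.out k w) (Finset.mem_univ _)
      linarith
    · unfold SchP.inn at hi
      push Not at hi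
      obtain ⟨j, hj⟩ := hi
      have hjk : j ≠ k := fun h => hne (by rw [hj, h])
      have h3 := h1 j hjk
      have h4 := hw (s.a k) (Finset.mem_univ _)
      rw [hj] at h4
      linarith
  by_cases hi : s.inn v
  · have h3 := s.out_potT hi k
    have h4 := hw (s.out k v) (Finset.mem_univ _)
    rw [h2] at h4
    linarith
  · unfold SchP.inn at hi
    push Not at hi
    obtain ⟨j, hj⟩ := hi
    have hjk : j ≠ k := fun h => hv (by rw [hj, h])
    rw [hj]
    exact h1 j hjk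

/-- an outer vertex is the only vertex of its label -/
theorem Tc_lab_uniq {k : Fin 3} {g : F} {v : V} (h : s.L k g v) (ha : s.Inc (s.a k) g) :
    v = s.a k := by
  obtain ⟨j, hj⟩ := ha
  have h1 := s.lab hj
  rw [h1] at hj
  by_contra hne
  have h2 := s.Tc_r_lt k v hne
  have h3 := s.potE h hj
  linarith

/-- a face does not contain all the vertices -/
theorem Tc_exists_not_inc (hin : ∃ v, s.inn v) (g : F) : ∃ v, ¬ s.Inc v g := by
  by_contra hcon
  push Not at hcon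
  obtain ⟨v, hv⟩ := hin
  obtain ⟨k, hk⟩ := hcon v
  exact hv k (s.Tc_lab_uniq hk (hcon (s.a k)))

private theorem Tc_lin (q : ℝ × ℝ) (b x y : ℝ) :
    lin q b (x, y) = x * lin q b (1, 0) + y * lin q b (0, 1) + (1 - x - y) * lin q b (0, 0) := by
  simp only [lin]
  ring

private theorem Tc_mul {a l c m : ℝ} (ha : 1 / 3 ≤ a) (hl : 0 ≤ l) (hc : l ≤ c - m) :
    l / 3 ≤ a * (c - m) := by
  have h1 : 1 / 3 * l ≤ a * l := mul_le_mul_of_nonneg_right ha hl
  have h2 : a * l ≤ a * (c - m) := mul_le_mul_of_nonneg_left hc (by linarith)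
  linarith

private theorem f3_d : ∀ k : Fin 3, k + 1 + 2 = k := by decide

/-- the inner vertices are below the outer plane -/
theorem Tc_outer {p : V → ℝ × ℝ} {m : ℝ} (hm : 0 < m) (hp0 : p (s.a 0) = (1, 0))
    (hp1 : p (s.a 1) = (0, 1)) (hp2 : p (s.a 2) = (0, 0)) {q : F → ℝ × ℝ} {b : F → ℝ}
    {h : V → ℝ} (hh : ∀ v g, s.Inc v g → h v = lin (q g) (b g) (p v))
    (hsl : ∀ u g, ¬ s.Inc u g → m ≤ h u - lin (q g) (b g) (p u)) (v : V)
    (ht : 0 ≤ (p v).1 ∧ 0 ≤ (p v).2 ∧ (p v).1 + (p v).2 ≤ 1) (hv : s.inn v) :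
    m / 3 ≤ (p v).1 * h (s.a 0) + (p v).2 * h (s.a 1) +
      (1 - (p v).1 - (p v).2) * h (s.a 2) - h v := by
  have key : ∀ k : Fin 3, ∃ (q' : ℝ × ℝ) (b' : ℝ), h v = lin q' b' (p v) ∧
      (∀ j, lin q' b' (p (s.a j)) ≤ h (s.a j)) ∧
      m ≤ h (s.a k) - lin q' b' (p (s.a k)) := by
    intro k
    have h1 : s.L k (s.gL (k + 1) v) v := by
      have h2 := s.lL (k + 1) v hv
      rwa [f3_d k] at h2
    refine ⟨q (s.gL (k + 1) v), b (s.gL (k + 1) v), hh v _ ⟨k, h1⟩, fun j => ?_, hsl _ _ ?_⟩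
    · by_cases hj : s.Inc (s.a j) (s.gL (k + 1) v)
      · exact (hh _ _ hj).ge
      · have := hsl _ _ hj
        linarith
    · intro hj
      exact hv k (s.Tc_lab_uniq h1 hj)
  rcases hpv : p v with ⟨x, y⟩
  rw [hpv] at ht
  simp only at ht ⊢
  obtain ⟨hx, hy, hxy⟩ := ht
  have hcase : ∃ k : Fin 3, 1 / 3 ≤ (if k = 0 then x else if k = 1 then y else 1 - x - y) := by
    by_contra hcon
    push Not at hcon
    have c0 := hcon 0
    have c1 := hcon 1
    have c2 := hcon 2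
    simp at c0 c1 c2
    linarith
  obtain ⟨k, hk⟩ := hcase
  obtain ⟨q', b', k1, k2, k3⟩ := key k
  rw [hpv] at k1
  have j0 := k2 0
  have j1 := k2 1
  have j2 := k2 2
  rw [hp0] at j0
  rw [hp1] at j1
  rw [hp2] at j2
  rw [k1, Tc_lin q' b' x y]
  have z0 : (1 - x - y) ≥ 0 := by linarith
  have m0 := mul_nonneg hx (sub_nonneg.2 j0)
  have m1 := mul_nonneg hy (sub_nonneg.2 j1)
  have m2 := mul_nonneg z0 (sub_nonneg.2 j2)
  have e : ∀ a0 a1 a2 l0 l1 l2 : ℝ, x * a0 + y * a1 + (1 - x - y) * a2 -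
      (x * l0 + y * l1 + (1 - x - y) * l2) = x * (a0 - l0) + y * (a1 - l1) +
      (1 - x - y) * (a2 - l2) := fun _ _ _ _ _ _ => by ring
  rw [e]
  fin_cases k
  · simp at hk
    have k3' : m ≤ _ := k3
    simp only [Fin.zero_eta, hp0] at k3'
    have := Tc_mul (a := x) (by linarith) hm.le k3'
    linarith
  · simp at hk
    have k3' : m ≤ _ := k3
    simp only [Fin.mk_one, hp1] at k3'
    have := Tc_mul (a := y) (by linarith) hm.le k3'
    linarith
  · simp at hk
    have k3' : m ≤ _ := k3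
    simp only [Fin.reduceFinMk, hp2] at k3'
    have := Tc_mul (a := 1 - x - y) (by linarith) hm.le k3'
    linarith

end SchP

private theorem f3_e : ∀ k : Fin 3, k = 0 ∨ k = 1 ∨ k = 2 := by decide

/-- there is an inner vertex -/
theorem StP.Tc_exists_inn {V A : Type} [Fintype V] [Fintype A] (P : StP V A) :
    ∃ v, P.inn v := by
  by_contra hcon
  unfold StP.inn at hcon
  push Not at hcon
  have ne : ∀ i j : Fin 3, i ≠ j → P.a i ≠ P.a j := fun i j h e => h (P.a_inj e)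
  have n01 := ne 0 1 (by decide)
  have n02 := ne 0 2 (by decide)
  have n12 := ne 1 2 (by decide)
  obtain ⟨w, hw, hT⟩ := P.S.opp P.out
  have hf : ∃ f : A, w = Sum.inr f := by
    rcases w with u | f
    · exfalso
      rcases P.vvv _ _ _ hT with h | h | h
      · exact n01 h.1
      · exact n12 h.2.1
      · exact n02 h.1
    · exact ⟨f, rfl⟩
  obtain ⟨f, rfl⟩ := hf
  obtain ⟨h, u, hhf, hu⟩ := P.dego 0 f
  obtain ⟨k, hk⟩ := hcon u
  have h02 : P.S.T (Sum.inl (P.a 0)) (Sum.inl (P.a 2)) (Sum.inl (P.a 1)) := P.S.rot P.out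
  rw [hk] at hu
  rcases f3_e k with rfl | rfl | rfl
  · exact P.S.ne hu rfl
  · have := P.S.uniq hu hT
    exact hhf (Sum.inr_injective this)
  · have := P.S.uniq hu h02
    simp at this

/-- the realization with margins -/
theorem SchPOf.real_of_crs {V A : Type} [Fintype V] [Fintype A] {P : StP V A} {s : SchP V A}
    (hP : SchPOf P s) {om : V → V → ℝ} {p : V → ℝ × ℝ} {lo hi D B : ℝ}
    (hd : s.DrwS om p lo hi D B) {q : A → ℝ × ℝ} {b : A → ℝ} (hc : s.Crs om p q b)
    (hht : ∀ v g g', s.Inc v g → s.Inc v g' →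
      lin (q g) (b g) (p v) = lin (q g') (b g') (p v)) (g0 : A)
    (hq : q g0 = (0, 0)) (hb : b g0 = 0) {M : ℝ} (hM : 1 ≤ M)
    (hlo : 1 / M ≤ lo) (hA : 1 / M ≤ D) (hB : 1 / M ≤ B) (hhi : hi ≤ M)
    (hcV : (Fintype.card V : ℝ) ≤ M) (hcF : (Fintype.card A : ℝ) ≤ M) :
    Real3 P.incO (36 * M ^ 6) := by
  have hinc : ∀ v g, s.Inc v g ↔ P.inc v g := by
    intro v g
    constructor
    · rintro ⟨k, hk⟩
      exact ⟨_, hP.hT k g v hk⟩
    · rintro ⟨w, hw⟩
      exact (hP.hI v w g hw).1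
  have hin : ∃ v, s.inn v := by
    obtain ⟨v, hv⟩ := P.Tc_exists_inn
    refine ⟨v, fun k => ?_⟩
    rw [hP.ha]
    exact hv k
  have htri : ∀ v, 0 ≤ (p v).1 ∧ 0 ≤ (p v).2 ∧ (p v).1 + (p v).2 ≤ 1 :=
    fun v => SchP.in_tri hd.toDrw v
  have hM0 : 0 < M := by linarith
  have hcov : ∀ v : V, ∃ g : A, s.Inc v g := fun v => by
    obtain ⟨k, g, h⟩ := s.cov v
    exact ⟨g, k, h⟩
  choose gv hgv using hcov
  set h : V → ℝ := fun v => lin (q (gv v)) (b (gv v)) (p v) with hdef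
  have hh : ∀ v g, s.Inc v g → h v = lin (q g) (b g) (p v) :=
    fun v g hg => hht v (gv v) g (hgv v) hg
  have hsl : ∀ v g, ¬ s.Inc v g → lo * B ≤ h v - lin (q g) (b g) (p v) :=
    fun v g hg => SchP.slack hP hd hc hht v g (gv v) hg (hgv v)
  have hhi0 : 0 ≤ hi := (hd.nn (s.a 0) (s.a 0)).trans (hd.whi _ _)
  have hH : ∀ v, 0 ≤ h v ∧ h v ≤ 2 * M ^ 2 := by
    intro v
    have h1 := SchP.height_le hP hd hhi0 hc hht g0 hq hb v (gv v) (hgv v)
    refine ⟨h1.1, h1.2.trans ?_⟩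
    have h2 : hi * Fintype.card A ≤ M * M := mul_le_mul hhi hcF (Nat.cast_nonneg _) hM0.le
    nlinarith
  have hslope : ∀ g, |(q g).1| ≤ 4 * M ^ 3 ∧ |(q g).2| ≤ 4 * M ^ 3 := by
    intro g
    have h1 := hd.area g (fun j => s.t j g) (fun j => s.tL j g)
    have hv : ∀ j, 0 ≤ lin (q g) (b g) (p (s.t j g)) ∧
        lin (q g) (b g) (p (s.t j g)) ≤ 2 * M ^ 2 := by
      intro j
      rw [← hh (s.t j g) g ⟨j, s.tL j g⟩]
      exact hH _
    have h2 := Tc_slope (b := b g) hd.A_pos h1 (htri _) (htri _) (htri _) (hv 0) (hv 1)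
      (hv 2)
    have key : ∀ x : ℝ, |x| * D ≤ 2 * (2 * M ^ 2) → |x| ≤ 4 * M ^ 3 := by
      intro x hx
      have h3 : |x| * (1 / M) ≤ 2 * (2 * M ^ 2) :=
        (mul_le_mul_of_nonneg_left hA (abs_nonneg _)).trans hx
      have h4 : |x| * (1 / M) * M ≤ 2 * (2 * M ^ 2) * M := mul_le_mul_of_nonneg_right h3 hM0.le
      have h5 : |x| * (1 / M) * M = |x| := by field_simp
      rw [h5] at h4
      linarith [h4, show 2 * (2 * M ^ 2) * M = 4 * M ^ 3 by ring]
    exact ⟨key _ h2.1, key _ h2.2⟩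
  set m1 : ℝ := h (s.a 0) - h (s.a 2) with hm1
  set m2 : ℝ := h (s.a 1) - h (s.a 2) with hm2
  set m0 : ℝ := h (s.a 2) with hm0
  have hm1' : |m1| ≤ 2 * M ^ 2 := abs_le.2 ⟨by linarith [(hH (s.a 0)).1, (hH (s.a 2)).2],
    by linarith [(hH (s.a 0)).2, (hH (s.a 2)).1]⟩
  have hm2' : |m2| ≤ 2 * M ^ 2 := abs_le.2 ⟨by linarith [(hH (s.a 1)).1, (hH (s.a 2)).2],
    by linarith [(hH (s.a 1)).2, (hH (s.a 2)).1]⟩
  have hmval : ∀ v, m1 * (p v).1 + m2 * (p v).2 + m0 = (p v).1 * h (s.a 0) +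
      (p v).2 * h (s.a 1) + (1 - (p v).1 - (p v).2) * h (s.a 2) := by
    intro v
    rw [hm1, hm2, hm0]
    ring
  have hmb : ∀ v, 0 ≤ m1 * (p v).1 + m2 * (p v).2 + m0 ∧
      m1 * (p v).1 + m2 * (p v).2 + m0 ≤ 2 * M ^ 2 := by
    intro v
    rw [hmval v]
    obtain ⟨t1, t2, t3⟩ := htri v
    have z0 : 0 ≤ 1 - (p v).1 - (p v).2 := by linarith
    have b0 := hH (s.a 0)
    have b1 := hH (s.a 1)
    have b2 := hH (s.a 2)
    refine ⟨?_, ?_⟩
    · have := mul_nonneg t1 b0.1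
      have := mul_nonneg t2 b1.1
      have := mul_nonneg z0 b2.1
      linarith
    · have e1 := mul_le_mul_of_nonneg_left b0.2 t1
      have e2 := mul_le_mul_of_nonneg_left b1.2 t2
      have e3 := mul_le_mul_of_nonneg_left b2.2 z0
      nlinarith
  have hM2 : 1 ≤ M ^ 2 := one_le_pow₀ hM
  have hM23 : M ^ 2 ≤ M ^ 3 := pow_le_pow_right₀ hM (by norm_num)
  have hM3 : 1 ≤ M ^ 3 := one_le_pow₀ hM
  have hμ0 : 0 < 1 / (3 * M ^ 2) := by positivity
  have hμ1 : 1 / (3 * M ^ 2) ≤ lo * B / 3 := by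
    have h1 : (1 / M) * (1 / M) ≤ lo * B :=
      mul_le_mul hlo hB (by positivity) hd.lo_pos.le
    have h2 : 1 / (3 * M ^ 2) = (1 / M) * (1 / M) / 3 := by field_simp
    rw [h2]
    linarith
  have hloB : 0 < lo * B := mul_pos hd.lo_pos hd.B_pos
  refine real_of_planes (A := Option A) (X := fun v => ![(p v).1, (p v).2,
      h v - (m1 * (p v).1 + m2 * (p v).2 + m0)])
    (n := fun f => match f with
      | none => ![0, 0, -1]
      | some g => ![m1 - (q g).1, m2 - (q g).2, 1])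
    (c := fun f => match f with
      | none => 0
      | some g => m0 - b g)
    (μ := 1 / (3 * M ^ 2)) (Λ := 10 * M ^ 3) (G := 7 * M ^ 3) (R := 3 * M ^ 2)
    hμ0 ?_ ?_ ?_ ?_ ?_ ?_ ?_ ?_ ?_
  · intro v i
    obtain ⟨t1, t2, t3⟩ := htri v
    have b0 := hH v
    have b1 := hmb v
    fin_cases i
    · show |(p v).1| ≤ 3 * M ^ 2
      rw [abs_of_nonneg t1]
      linarith
    · show |(p v).2| ≤ 3 * M ^ 2
      rw [abs_of_nonneg t2]
      linarith
    · show |h v - (m1 * (p v).1 + m2 * (p v).2 + m0)| ≤ 3 * M ^ 2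
      exact abs_le.2 ⟨by linarith, by linarith⟩
  · intro f i
    rcases f with _ | g
    · fin_cases i
      · show |(0 : ℝ)| ≤ 7 * M ^ 3
        rw [abs_zero]
        positivity
      · show |(0 : ℝ)| ≤ 7 * M ^ 3
        rw [abs_zero]
        positivity
      · show |(-1 : ℝ)| ≤ 7 * M ^ 3
        rw [abs_neg, abs_one]
        linarith
    · obtain ⟨s1, s2⟩ := hslope g
      fin_cases i
      · show |m1 - (q g).1| ≤ 7 * M ^ 3
        have := abs_sub m1 (q g).1
        have e : |m1 - (q g).1| ≤ |m1| + |(q g).1| := abs_sub _ _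
        linarith
      · show |m2 - (q g).2| ≤ 7 * M ^ 3
        have e : |m2 - (q g).2| ≤ |m2| + |(q g).2| := abs_sub _ _
        linarith
      · show |(1 : ℝ)| ≤ 7 * M ^ 3
        rw [abs_one]
        linarith
  · intro v f hf
    rcases f with _ | g
    · obtain ⟨k, hk⟩ := hf
      rw [← hP.ha] at hk
      have e : m1 * (p v).1 + m2 * (p v).2 + m0 = h v := by
        rw [hmval v, hk]
        fin_cases k
        · show (p (s.a 0)).1 * h (s.a 0) + (p (s.a 0)).2 * h (s.a 1) +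
            (1 - (p (s.a 0)).1 - (p (s.a 0)).2) * h (s.a 2) = h (s.a 0)
          rw [hd.p0]; ring
        · show (p (s.a 1)).1 * h (s.a 0) + (p (s.a 1)).2 * h (s.a 1) +
            (1 - (p (s.a 1)).1 - (p (s.a 1)).2) * h (s.a 2) = h (s.a 1)
          rw [hd.p1]; ring
        · show (p (s.a 2)).1 * h (s.a 0) + (p (s.a 2)).2 * h (s.a 1) +
            (1 - (p (s.a 2)).1 - (p (s.a 2)).2) * h (s.a 2) = h (s.a 2)
          rw [hd.p2]; ring
      simp only [dp_def, Matrix.cons_val_zero, Matrix.cons_val_one, Matrix.cons_val]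
      linarith
    · have e := hh v g ((hinc v g).2 hf)
      simp only [lin] at e
      simp only [dp_def, Matrix.cons_val_zero, Matrix.cons_val_one, Matrix.cons_val]
      linarith
  · intro v f hf
    rcases f with _ | g
    · have hv : s.inn v := by
        intro k hk
        rw [hP.ha] at hk
        exact hf ⟨k, hk⟩
      have e := s.Tc_outer hloB hd.p0 hd.p1 hd.p2 hh hsl v (htri v) hv
      rw [← hmval v] at e
      simp only [dp_def, Matrix.cons_val_zero, Matrix.cons_val_one, Matrix.cons_val]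
      linarith
    · have e := hsl v g (fun h' => hf ((hinc v g).1 h'))
      simp only [lin] at e
      simp only [dp_def, Matrix.cons_val_zero, Matrix.cons_val_one, Matrix.cons_val]
      linarith
  · intro v f
    have b0 := hH v
    have b1 := hmb v
    rcases f with _ | g
    · simp only [dp_def, Matrix.cons_val_zero, Matrix.cons_val_one, Matrix.cons_val]
      linarith
    · obtain ⟨s1, s2⟩ := hslope g
      obtain ⟨t1, t2, t3⟩ := htri v
      obtain ⟨r1, r2, r3⟩ := htri (s.t 0 g)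
      have e := hh (s.t 0 g) g ⟨0, s.tL 0 g⟩
      have e0 := (hH (s.t 0 g)).1
      simp only [lin] at e
      have d1 : |(p v).1 - (p (s.t 0 g)).1| ≤ 1 := abs_le.2 ⟨by linarith, by linarith⟩
      have d2 : |(p v).2 - (p (s.t 0 g)).2| ≤ 1 := abs_le.2 ⟨by linarith, by linarith⟩
      have k1 : |(q g).1 * ((p v).1 - (p (s.t 0 g)).1)| ≤ 4 * M ^ 3 := by
        rw [abs_mul]
        calc |(q g).1| * |(p v).1 - (p (s.t 0 g)).1| ≤ 4 * M ^ 3 * 1 :=
              mul_le_mul s1 d1 (abs_nonneg _) (by positivity)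
          _ = 4 * M ^ 3 := mul_one _
      have k2 : |(q g).2 * ((p v).2 - (p (s.t 0 g)).2)| ≤ 4 * M ^ 3 := by
        rw [abs_mul]
        calc |(q g).2| * |(p v).2 - (p (s.t 0 g)).2| ≤ 4 * M ^ 3 * 1 :=
              mul_le_mul s2 d2 (abs_nonneg _) (by positivity)
          _ = 4 * M ^ 3 := mul_one _
      have l1 := (abs_le.1 k1).1
      have l2 := (abs_le.1 k2).1
      simp only [dp_def, Matrix.cons_val_zero, Matrix.cons_val_one, Matrix.cons_val]
      nlinarith
  · intro f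
    rcases f with _ | g
    · obtain ⟨v, hv⟩ := P.Tc_exists_inn
      exact ⟨v, fun ⟨k, hk⟩ => hv k hk⟩
    · obtain ⟨v, hv⟩ := s.Tc_exists_not_inc hin g
      exact ⟨v, fun h' => hv ((hinc v g).2 h')⟩
  · have : M ^ 2 ≤ M ^ 6 := pow_le_pow_right₀ hM (by norm_num)
    nlinarith [pow_pos hM0 6]
  · have e : 36 * M ^ 6 * (1 / (3 * M ^ 2)) = 12 * M ^ 4 := by
      field_simp
      ring
    rw [e]
    have h1 : 7 * M ^ 3 * (Fintype.card V : ℝ) ≤ 7 * M ^ 3 * M :=
      mul_le_mul_of_nonneg_left hcV (by positivity)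
    nlinarith [pow_pos hM0 4]
  · have e : 36 * M ^ 6 * (1 / (3 * M ^ 2)) = 12 * M ^ 4 := by
      field_simp
      ring
    rw [e]
    have : M ^ 3 ≤ M ^ 4 := pow_le_pow_right₀ hM (by norm_num)
    nlinarith [pow_pos hM0 4]

/-- the form of the stub file: `K = 7` -/
theorem SchPOf.real3_of_crs {V A : Type} [Fintype V] [Fintype A] {P : StP V A} {s : SchP V A}
    (hP : SchPOf P s) {om : V → V → ℝ} {p : V → ℝ × ℝ} {lo hi D B : ℝ}
    (hd : s.DrwS om p lo hi D B) {q : A → ℝ × ℝ} {b : A → ℝ} (hc : s.Crs om p q b)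
    (hht : ∀ v g g', s.Inc v g → s.Inc v g' →
      lin (q g) (b g) (p v) = lin (q g') (b g') (p v)) (g0 : A)
    (hq : q g0 = (0, 0)) (hb : b g0 = 0) (hlo : lo ≤ 1) (hhi : 1 ≤ hi) (hD : D ≤ 1)
    (hB : B ≤ 1) :
    Real3 P.incO ((10 * hi * (Fintype.card V + Fintype.card A) / (lo * D * B)) ^ 7) := by
  have hlo0 : 0 < lo := hd.lo_pos
  have hD0 : 0 < D := hd.A_pos
  have hB0 : 0 < B := hd.B_pos
  have hV4 : (4 : ℝ) ≤ Fintype.card V := by
    obtain ⟨v, hv⟩ := P.Tc_exists_inn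
    have h1 : Function.Injective (fun k : Option (Fin 3) => k.elim v P.a) := by
      intro i j hij
      rcases i with _ | i <;> rcases j with _ | j
      · rfl
      · exact absurd hij (hv j)
      · exact absurd hij.symm (hv i)
      · exact congrArg some (P.a_inj hij)
    have h2 := Fintype.card_le_of_injective _ h1
    simp only [Fintype.card_option, Fintype.card_fin] at h2
    exact_mod_cast h2
  have hA0 : (0 : ℝ) ≤ Fintype.card A := Nat.cast_nonneg _
  set M : ℝ := 10 * hi * (Fintype.card V + Fintype.card A) / (lo * D * B) with hMdef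
  have hden : 0 < lo * D * B := mul_pos (mul_pos hlo0 hD0) hB0
  have hDB : D * B ≤ 1 := mul_le_one₀ hD hB0.le hB
  have hloD : lo * D ≤ 1 := mul_le_one₀ hlo hD0.le hD
  have hloB : lo * B ≤ 1 := mul_le_one₀ hlo hB0.le hB
  have hden1 : lo * D * B ≤ 1 := mul_le_one₀ hloD hB0.le hB
  have hnum : 10 * hi * (Fintype.card V + Fintype.card A) ≤ M := by
    rw [hMdef, le_div_iff₀ hden]
    have : 0 ≤ 10 * hi * ((Fintype.card V : ℝ) + Fintype.card A) := by positivity
    nlinarith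
  have hM40 : 40 ≤ M := by nlinarith
  have hM : 1 ≤ M := by linarith
  have hM0 : 0 < M := by linarith
  have key : ∀ x : ℝ, 0 < x → lo * D * B ≤ x → 1 / M ≤ x := by
    intro x hx h
    rw [div_le_iff₀ hM0, hMdef, ← mul_div_assoc, le_div_iff₀ hden]
    have h1 : (1 : ℝ) ≤ 10 * hi * (Fintype.card V + Fintype.card A) := by nlinarith
    nlinarith
  have h1 : 1 / M ≤ lo := key lo hlo0 (by nlinarith)
  have h2 : 1 / M ≤ D := key D hD0 (by nlinarith)
  have h3 : 1 / M ≤ B := key B hB0 (by nlinarith)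
  have h4 : hi ≤ M := by nlinarith
  have h5 : (Fintype.card V : ℝ) ≤ M := by nlinarith
  have h6 : (Fintype.card A : ℝ) ≤ M := by nlinarith
  have h7 := SchPOf.real_of_crs hP hd hc hht g0 hq hb hM h1 h2 h3 h4 h5 h6
  refine Real3.mono (by positivity) ?_ h7
  have h8 : 0 < M ^ 6 := pow_pos hM0 6
  have h9 : M ^ 7 = M * M ^ 6 := by ring
  rw [h9]
  nlinarith

end Pool.RP
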