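import Pool.Agent.Lib.MP_9dcace_rp.TbC
import Pool.Agent.Lib.MP_9dcace_sx.T6

/-!
ROW Tc, part A (helper10): slack and height bound (port of T10).
-/

set_option autoImplicit false

open Classical

namespace Pool.RP

open Pool.SX

variable {V A : Type} [Fintype V] [Fintype A]

/-- crossing the side of a face away from a vertex which is not in the face -/
theorem SchP.cross_away {P : StP V A} {s : SchP V A} (hP : SchPOf P s) {om : V → V → ℝ}
    {p : V → ℝ × ℝ} {lo hi A' B : ℝ} (hd : s.DrwS om p lo hi A' B)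
    {q : A → ℝ × ℝ} {b : A → ℝ} (hc : s.Crs om p q b) (v : V) (g : A) (hv : ¬ s.Inc v g) :
    ∃ (g' : A) (w a : ℝ), lo ≤ w ∧ w ≤ hi ∧ 0 < a ∧ a ≤ 2 ∧
      lin (q g') (b g') (p v) - lin (q g) (b g) (p v) = w * a ∧ (s.Inc v g' → B ≤ a) := by
  have hd' : s.Drw om p lo hi A' := hd.toDrw
  obtain ⟨u, hu, hneg⟩ := SchP.not_closed hP hd' (fun f v hv => SchP.avg_side_pos hd hv) hc v g hv
  rcases s.opp_face hu with ⟨k, -, h2, h3⟩ | ⟨g', c, h1, h2, h3⟩
  · exfalso
    have h4 := SchP.outer_left hd' v k
    rw [h3, h2] at hneg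
    linarith
  · refine ⟨g', om u (s.nx g u), -ar (p u) (p (s.nx g u)) (p v), ?_, hd.whi _ _, by linarith,
      ?_, ?_, ?_⟩
    · rcases h3 with ⟨h4, h5⟩ | ⟨h4, h5⟩
      · rw [h5]
        exact hd.wlo c u h4
      · rw [hd.symm]
        have h6 := hd.wlo c _ h4
        rwa [← h5] at h6
    · have h4 := ar_le (p u) (p (s.nx g u)) (p v) (SchP.in_tri hd' _) (SchP.in_tri hd' _)
        (SchP.in_tri hd' _)
      have h5 := (abs_le.1 h4).1
      linarith
    · have h4 := hc g g' u hu h1 h2 (p v)
      linarith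
    · intro hv'
      have h5 : v ≠ s.nx g u := fun h => hv (h ▸ s.inc_nx hu)
      have h6 : v ≠ u := fun h => hv (h ▸ hu)
      have h7 := hd.side g' (s.nx g u) v h1 hv' h5 (by rw [h2]; exact h6)
      rw [h2] at h7
      have h8 : ar (p (s.nx g u)) (p u) (p v) = - ar (p u) (p (s.nx g u)) (p v) := by
        unfold ar
        ring
      linarith

theorem SchP.slack {P : StP V A} {s : SchP V A} (hP : SchPOf P s) {om : V → V → ℝ}
    {p : V → ℝ × ℝ} {lo hi A' B : ℝ} (hd : s.DrwS om p lo hi A' B)
    {q : A → ℝ × ℝ} {b : A → ℝ} (hc : s.Crs om p q b)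
    (hh : ∀ v g g', s.Inc v g → s.Inc v g' →
      lin (q g) (b g) (p v) = lin (q g') (b g') (p v)) (v : V) (g gv : A)
    (hv : ¬ s.Inc v g) (hgv : s.Inc v gv) :
    lo * B ≤ lin (q gv) (b gv) (p v) - lin (q g) (b g) (p v) := by
  obtain ⟨g1, hg1, hmax⟩ := Finset.exists_max_image
    (Finset.univ.filter (fun g => ¬ s.Inc v g)) (fun g => lin (q g) (b g) (p v))
    ⟨g, by simpa using hv⟩
  have hv1 : ¬ s.Inc v g1 := (Finset.mem_filter.1 hg1).2
  have h1 := hmax g (by simpa using hv)
  obtain ⟨g', w, a, hw1, -, ha, -, h2, h3⟩ := SchP.cross_away hP hd hc v g1 hv1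
  have hwa : 0 < w * a := mul_pos (hd.lo_pos.trans_le hw1) ha
  have hg' : s.Inc v g' := by
    by_contra h
    have h4 := hmax g' (by simpa using h)
    linarith
  have h5 := hh v gv g' hgv hg'
  have h6 : lo * B ≤ w * a :=
    mul_le_mul hw1 (h3 hg') hd.B_pos.le (hd.lo_pos.trans_le hw1).le
  linarith

theorem SchP.height_le {P : StP V A} {s : SchP V A} (hP : SchPOf P s) {om : V → V → ℝ}
    {p : V → ℝ × ℝ} {lo hi A' B : ℝ} (hd : s.DrwS om p lo hi A' B) (hhi : 0 ≤ hi)
    {q : A → ℝ × ℝ} {b : A → ℝ} (hc : s.Crs om p q b)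
    (hh : ∀ v g g', s.Inc v g → s.Inc v g' →
      lin (q g) (b g) (p v) = lin (q g') (b g') (p v)) (g0 : A) (hq : q g0 = (0, 0))
    (hb : b g0 = 0) (v : V) (gv : A) (hgv : s.Inc v gv) :
    0 ≤ lin (q gv) (b gv) (p v) ∧ lin (q gv) (b gv) (p v) ≤ 2 * hi * Fintype.card A := by
  have h0 : lin (q g0) (b g0) (p v) = 0 := by
    rw [hq, hb, lin]
    simp
  constructor
  · by_cases h : s.Inc v g0
    · rw [hh v gv g0 hgv h, h0]
    · have h1 := SchP.slack hP hd hc hh v g0 gv h hgv
      have h2 : 0 < lo * B := mul_pos hd.lo_pos hd.B_pos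
      linarith
  · have key : ∀ (n : ℕ) (g : A), (Finset.univ.filter (fun g' =>
        lin (q g) (b g) (p v) < lin (q g') (b g') (p v))).card = n →
        lin (q gv) (b gv) (p v) - lin (q g) (b g) (p v) ≤ 2 * hi * n := by
      intro n
      induction n using Nat.strong_induction_on with
      | _ n ih =>
        intro g hn
        by_cases hg : s.Inc v g
        · rw [hh v gv g hgv hg, sub_self]
          positivity
        · obtain ⟨g', w, a, hw1, hw2, ha, ha2, h2, -⟩ := SchP.cross_away hP hd hc v g hg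
          have hwa : 0 < w * a := mul_pos (hd.lo_pos.trans_le hw1) ha
          have hlt : (Finset.univ.filter (fun g'' =>
              lin (q g') (b g') (p v) < lin (q g'') (b g'') (p v))).card < n := by
            rw [← hn]
            apply Finset.card_lt_card
            rw [Finset.ssubset_iff_of_subset]
            · refine ⟨g', ?_, ?_⟩
              · rw [Finset.mem_filter]
                exact ⟨Finset.mem_univ _, by linarith⟩
              · rw [Finset.mem_filter, not_and]
                exact fun _ => lt_irrefl _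
            · intro g'' hg''
              rw [Finset.mem_filter] at hg'' ⊢
              exact ⟨Finset.mem_univ _, by linarith [hg''.2]⟩
          have h5 := ih _ hlt g' rfl
          have h6 : w * a ≤ hi * 2 := mul_le_mul hw2 ha2 ha.le hhi
          have h7 : ((Finset.univ.filter (fun g'' =>
              lin (q g') (b g') (p v) < lin (q g'') (b g'') (p v))).card : ℝ) + 1 ≤ n := by
            exact_mod_cast hlt
          have h8 : 2 * hi * (((Finset.univ.filter (fun g'' =>
              lin (q g') (b g') (p v) < lin (q g'') (b g'') (p v))).card : ℝ) + 1) ≤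
              2 * hi * n := mul_le_mul_of_nonneg_left h7 (by positivity)
          linarith
    have h1 := key _ g0 rfl
    rw [h0, sub_zero] at h1
    refine h1.trans ?_
    refine mul_le_mul_of_nonneg_left ?_ (by positivity)
    exact_mod_cast Finset.card_le_univ _

end Pool.RP
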