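import Pool.Agent.Lib.MP_9dcace_rp.Tc
import Pool.Agent.Lib.MP_9dcace_rp.Ta

/-!
Section 7 of m3_REAL_h83.md, assembly: from a strictly convex equilibrium drawing to the realization with margins.
-/

set_option autoImplicit false

open Classical

namespace Pool.RP

open Pool.SX

theorem SchPOf.real3 : ∃ K : ℕ, ∀ {V A : Type} [Fintype V] [Fintype A] {P : StP V A}
    {s : SchP V A} (_ : SchPOf P s) {om : V → V → ℝ} {p : V → ℝ × ℝ} {lo hi D B : ℝ}
    (_ : s.DrwS om p lo hi D B) (_ : lo ≤ 1) (_ : 1 ≤ hi) (_ : D ≤ 1) (_ : B ≤ 1),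
    Real3 P.incO ((10 * hi * (Fintype.card V + Fintype.card A) / (lo * D * B)) ^ K) := by
  refine ⟨7, ?_⟩
  intro V A _ _ P s hP om p lo hi D B hd hlo hhi hD hB
  obtain ⟨k, g0, -⟩ := s.cov (s.a 0)
  obtain ⟨q, b, hc, hq, hb⟩ := SchP.crs_exists P s hP hd.toDrw g0
  exact hP.real3_of_crs hd hc (SchP.height P s hP hc) g0 hq hb hlo hhi hD hB

end Pool.RP
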