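import Pool.Agent.Lib.MP_9dcace_rp.Wc

/-!
ROW Wd (port of W4a, W4b: gluing of extensions, extension property of a region).
-/

set_option autoImplicit false

open Classical

namespace Pool.RP

open Pool.SX

namespace SchPS

variable {V F : Type} [Fintype V] [Fintype F] (s : SchPS V F)

theorem glue_ext {R : Finset F} {y : V} {τ : ℝ} {wk : Fin 3 → Fin 3 → V → ℝ}
    (hw : ∀ k c v, ¬ s.In c v (s.kid k y R) → wk k c v = 0)
    (he : ∀ k, ∀ x : V → ℝ, (∀ v, 0 ≤ x v ∧ x v ≤ 1) → ∃ x' : V → ℝ,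
      (∀ v, 0 ≤ x' v ∧ x' v ≤ 1) ∧ (∀ v, v ∉ s.IR (s.kid k y R) → x' v = x v) ∧
      s.enw (wk k) x' ≤ 4 * (τ / 12))
    (x1 : V → ℝ) (h1 : ∀ v, 0 ≤ x1 v ∧ x1 v ≤ 1) :
    ∃ x' : V → ℝ, (∀ v, 0 ≤ x' v ∧ x' v ≤ 1) ∧
      (∀ v, (∀ k, v ∉ s.IR (s.kid k y R)) → x' v = x1 v) ∧
      (∀ j v, s.Pth j y v → x' v = x1 v) ∧ ∑ k, s.enw (wk k) x' ≤ τ := by
  choose xk hxk01 hxkoff hxken using fun k => he k x1 h1
  let x' : V → ℝ := fun v => if h : ∃ k, v ∈ s.IR (s.kid k y R) then xk h.choose v else x1 v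
  have hin : ∀ k v, v ∈ s.IR (s.kid k y R) → x' v = xk k v := by
    intro k v hv
    have h : ∃ k, v ∈ s.IR (s.kid k y R) := ⟨k, hv⟩
    have hk : h.choose = k := s.IR_kid_disj h.choose_spec (s.IR_sub_VR hv)
    have h' : x' v = xk h.choose v := dif_pos h
    rw [h', hk]
  have hoff : ∀ v, (∀ k, v ∉ s.IR (s.kid k y R)) → x' v = x1 v := by
    intro v hv
    exact dif_neg (fun h => by
      obtain ⟨k, hk⟩ := h
      exact hv k hk)
  have hVR : ∀ k v, v ∈ s.VR (s.kid k y R) → x' v = xk k v := by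
    intro k v hv
    by_cases hv' : v ∈ s.IR (s.kid k y R)
    · exact hin k v hv'
    · rw [hoff v ?_, hxkoff k v hv']
      intro l hl
      have hlk : l = k := s.IR_kid_disj hl hv
      rw [hlk] at hl
      exact hv' hl
  have hen : ∀ k, s.enw (wk k) x' = s.enw (wk k) (xk k) := by
    intro k
    unfold SchP.enw
    refine Finset.sum_congr rfl fun c _ => Finset.sum_congr rfl fun v _ => ?_
    by_cases hI : s.In c v (s.kid k y R)
    · have h1 : v ∈ s.VR (s.kid k y R) := by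
        unfold SchPS.VR
        rw [Finset.mem_filter]
        exact ⟨Finset.mem_univ _, s.gL c v, hI.2.1, c + 2, s.lL c v hI.1⟩
      have h2 : s.out c v ∈ s.VR (s.kid k y R) := by
        unfold SchPS.VR
        rw [Finset.mem_filter]
        refine ⟨Finset.mem_univ _, s.gL c v, hI.2.1, ?_⟩
        rw [← s.nL c v hI.1]
        rcases s.nxL (s.lL c v hI.1) with h3 | h3
        · exact ⟨_, h3⟩
        · exact ⟨_, h3⟩
      rw [hVR k v h1, hVR k _ h2]
    · rw [hw k c v hI, zero_mul, zero_mul]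
  refine ⟨x', ?_, hoff, ?_, ?_⟩
  · intro v
    by_cases h : ∃ k, v ∈ s.IR (s.kid k y R)
    · obtain ⟨k, hk⟩ := h
      rw [hin k v hk]
      exact hxk01 k v
    · rw [hoff v (fun k hk => h ⟨k, hk⟩)]
      exact h1 v
  · intro j v hj
    exact hoff v (fun k hk => (s.IR_kid_sub hk).2 j hj)
  · calc ∑ k, s.enw (wk k) x' ≤ ∑ _k : Fin 3, 4 * (τ / 12) :=
          Finset.sum_le_sum fun k _ => by
            rw [hen k]
            exact hxken k
      _ = τ := by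
          rw [Finset.sum_const, Finset.card_univ, Fintype.card_fin, nsmul_eq_mul]
          push_cast
          ring

/-- the linear interpolation on a leg -/
noncomputable def W4b_val (R : Finset F) (y : V) (x : V → ℝ) (j : Fin 3) (i : ℕ) : ℝ :=
  x y + (∑ i' ∈ Finset.range i, s.rho R y j i') * (x (s.lp j y (s.legN j y R)) - x y)

/-- `v` is an interior vertex of a leg -/
def W4b_P (R : Finset F) (y : V) (v : V) (q : Fin 3 × ℕ) : Prop :=
  0 < q.2 ∧ q.2 < s.legN q.1 y R ∧ v = s.lp q.1 y q.2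

/-- the interpolated function -/
noncomputable def W4b_x1 (R : Finset F) (y : V) (x : V → ℝ) (v : V) : ℝ :=
  if h : ∃ q, s.W4b_P R y v q then s.W4b_val R y x h.choose.1 h.choose.2 else x v

theorem W4b_inj {R : Finset F} {y : V} {j : Fin 3} {i i' : ℕ} (hi : i ≤ s.legN j y R)
    (hi' : i' ≤ s.legN j y R) (h : s.lp j y i = s.lp j y i') : i = i' := by
  rcases lt_trichotomy i i' with h1 | h1 | h1
  · have := s.leg_lt h1 hi'
    rw [h] at this
    exact absurd this (lt_irrefl _)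
  · exact h1
  · have := s.leg_lt h1 hi
    rw [h] at this
    exact absurd this (lt_irrefl _)

theorem W4b_pth {R : Finset F} {y : V} {j : Fin 3} {i : ℕ} (hi : i ≤ s.legN j y R) :
    s.Pth j y (s.lp j y i) := by
  have := s.leg_Pth (j := j) (y := y) (R := R) (Nat.zero_le i) hi
  rwa [s.lp_zero] at this

theorem W4b_ne {R : Finset F} {y : V} {j : Fin 3} {i : ℕ} (h0 : 0 < i)
    (hi : i ≤ s.legN j y R) : s.lp j y i ≠ y := by
  intro h
  have h1 := s.W4b_inj (i' := 0) hi (Nat.zero_le _) (by rw [h, s.lp_zero])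
  omega

/-- a vertex of a leg (not an end) is an interior leg vertex of no other description -/
theorem W4b_uniq {R : Finset F} {y : V} {j j' : Fin 3} {i i' : ℕ} (h0 : 0 < i)
    (hi : i ≤ s.legN j y R) (hi' : i' ≤ s.legN j' y R) (h : s.lp j y i = s.lp j' y i') :
    j = j' ∧ i = i' := by
  by_cases hj : j = j'
  · subst hj
    exact ⟨rfl, s.W4b_inj hi hi' h⟩
  · exfalso
    have h1 := s.W4b_pth hi
    have h2 := s.W4b_pth hi'
    rw [← h] at h2
    exact s.W4b_ne h0 hi (s.leg_meet hj h1 h2)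

theorem W4b_x1_in {R : Finset F} {y : V} (x : V → ℝ) {j : Fin 3} {i : ℕ} (h0 : 0 < i)
    (hi : i < s.legN j y R) : s.W4b_x1 R y x (s.lp j y i) = s.W4b_val R y x j i := by
  have h : ∃ q, s.W4b_P R y (s.lp j y i) q := ⟨(j, i), h0, hi, rfl⟩
  rw [W4b_x1, dif_pos h]
  obtain ⟨h1, h2, h3⟩ := h.choose_spec
  obtain ⟨h4, h5⟩ := s.W4b_uniq h0 hi.le h2.le h3
  rw [← h4, ← h5]

theorem W4b_x1_out {R : Finset F} {y : V} (x : V → ℝ) {v : V}
    (h : ∀ j i, 0 < i → i < s.legN j y R → v ≠ s.lp j y i) : s.W4b_x1 R y x v = x v := by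
  rw [W4b_x1, dif_neg]
  rintro ⟨q, h1, h2, h3⟩
  exact h q.1 q.2 h1 h2 h3

theorem W4b_x1_eq {R : Finset F} {y : V} (hR : s.Reg R) (hy : s.Adm y R) (x : V → ℝ)
    {j : Fin 3} {i : ℕ} (hpos : 0 < s.legN j y R) (hi : i ≤ s.legN j y R) :
    s.W4b_x1 R y x (s.lp j y i) = s.W4b_val R y x j i := by
  rcases Nat.eq_zero_or_pos i with h0 | h0
  · subst h0
    rw [W4b_x1_out]
    · rw [W4b_val, Finset.range_zero, Finset.sum_empty, zero_mul, add_zero, s.lp_zero]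
    · intro j' i' h1 h2 h3
      rw [s.lp_zero] at h3
      exact s.W4b_ne h1 h2.le h3.symm
  · rcases hi.lt_or_eq with h1 | h1
    · exact s.W4b_x1_in x h0 h1
    · subst h1
      rw [W4b_x1_out]
      · rw [W4b_val, s.rho_sum hR hy hpos, one_mul, add_sub_cancel]
      · intro j' i' h2 h3 h4
        obtain ⟨h5, h6⟩ := s.W4b_uniq h0 le_rfl h3.le h4
        subst h5
        omega

theorem W4b_sum_mem {R : Finset F} {y : V} (hR : s.Reg R) (hy : s.Adm y R)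
    {j : Fin 3} {i : ℕ} (hi : i < s.legN j y R) :
    0 ≤ ∑ i' ∈ Finset.range i, s.rho R y j i' ∧ ∑ i' ∈ Finset.range i, s.rho R y j i' ≤ 1 := by
  constructor
  · exact Finset.sum_nonneg fun i' h => (s.rho_pos hR hy ((Finset.mem_range.1 h).trans hi)).le
  · rw [← s.rho_sum hR hy (lt_of_le_of_lt (Nat.zero_le _) hi)]
    refine Finset.sum_le_sum_of_subset_of_nonneg (Finset.range_mono hi.le) fun i' h _ => ?_
    exact (s.rho_pos hR hy (Finset.mem_range.1 h)).le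

theorem W4b_x1_mem {R : Finset F} {y : V} (hR : s.Reg R) (hy : s.Adm y R) {x : V → ℝ}
    (hx : ∀ v, 0 ≤ x v ∧ x v ≤ 1) (v : V) :
    0 ≤ s.W4b_x1 R y x v ∧ s.W4b_x1 R y x v ≤ 1 := by
  by_cases h : ∃ q, s.W4b_P R y v q
  · obtain ⟨q, h1, h2, h3⟩ := h
    rw [h3, s.W4b_x1_in x h1 h2, W4b_val]
    obtain ⟨h4, h5⟩ := s.W4b_sum_mem hR hy h2
    obtain ⟨h6, h7⟩ := hx y
    obtain ⟨h8, h9⟩ := hx (s.lp q.1 y (s.legN q.1 y R))
    generalize (∑ i' ∈ Finset.range q.2, s.rho R y q.1 i') = a at h4 h5 ⊢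
    generalize x y = b at h6 h7 ⊢
    generalize x (s.lp q.1 y (s.legN q.1 y R)) = c at h8 h9 ⊢
    constructor
    · nlinarith [mul_nonneg h4 h8, mul_nonneg (sub_nonneg.2 h5) h6]
    · nlinarith [mul_nonneg h4 (sub_nonneg.2 h9), mul_nonneg (sub_nonneg.2 h5) (sub_nonneg.2 h7)]
  · rw [W4b_x1, dif_neg h]
    exact hx v

/-- the energy of a leg -/
theorem W4b_leg {R : Finset F} {y : V} (hR : s.Reg R) (hy : s.Adm y R) {τ : ℝ} (hτ : 0 < τ)
    {x : V → ℝ} (hx : ∀ v, 0 ≤ x v ∧ x v ≤ 1) {x' : V → ℝ}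
    (h : ∀ j v, s.Pth j y v → x' v = s.W4b_x1 R y x v) (c : Fin 3) :
    ∑ i ∈ Finset.range (s.legN c y R),
      τ / s.rho R y c i * (x' (s.lp c y i) - x' (s.lp c y (i + 1))) ^ 2 ≤ τ := by
  rcases Nat.eq_zero_or_pos (s.legN c y R) with h0 | h0
  · rw [h0, Finset.range_zero, Finset.sum_empty]
    exact hτ.le
  · have key : ∀ i ∈ Finset.range (s.legN c y R),
        τ / s.rho R y c i * (x' (s.lp c y i) - x' (s.lp c y (i + 1))) ^ 2 =
        s.rho R y c i * (τ * (x (s.lp c y (s.legN c y R)) - x y) ^ 2) := by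
      intro i hi
      rw [Finset.mem_range] at hi
      have h1 := s.rho_pos hR hy hi
      rw [h c _ (s.W4b_pth hi.le), h c _ (s.W4b_pth (Nat.succ_le_of_lt hi)),
        s.W4b_x1_eq hR hy x h0 hi.le, s.W4b_x1_eq hR hy x h0 (Nat.succ_le_of_lt hi), W4b_val,
        W4b_val, Finset.sum_range_succ]
      field_simp
      ring
    rw [Finset.sum_congr rfl key, ← Finset.sum_mul, s.rho_sum hR hy h0, one_mul]
    obtain ⟨h6, h7⟩ := hx y
    obtain ⟨h8, h9⟩ := hx (s.lp c y (s.legN c y R))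
    have h10 : (x (s.lp c y (s.legN c y R)) - x y) ^ 2 ≤ 1 := by
      rw [sq_le_one_iff_abs_le_one, abs_le]
      constructor <;> linarith
    nlinarith

theorem ext_step {R : Finset F} {y : V} (hR : s.Reg R) (hy : s.Adm y R) {τ : ℝ} (hτ : 0 < τ)
    {wk : Fin 3 → Fin 3 → V → ℝ}
    (hw : ∀ k c v, ¬ s.In c v (s.kid k y R) → wk k c v = 0)
    (he : ∀ k, ∀ x : V → ℝ, (∀ v, 0 ≤ x v ∧ x v ≤ 1) → ∃ x' : V → ℝ,
      (∀ v, 0 ≤ x' v ∧ x' v ≤ 1) ∧ (∀ v, v ∉ s.IR (s.kid k y R) → x' v = x v) ∧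
      s.enw (wk k) x' ≤ 4 * (τ / 12))
    (x : V → ℝ) (hx : ∀ v, 0 ≤ x v ∧ x v ≤ 1) :
    ∃ x' : V → ℝ, (∀ v, 0 ≤ x' v ∧ x' v ≤ 1) ∧ (∀ v, v ∉ s.IR R → x' v = x v) ∧
      s.enw (s.wtS R y τ wk) x' ≤ 4 * τ := by
  obtain ⟨x', h1, h2, h3, h4⟩ := s.glue_ext hw he (s.W4b_x1 R y x) (s.W4b_x1_mem hR hy hx)
  refine ⟨x', h1, ?_, ?_⟩
  · intro v hv
    rw [h2 v fun k hk => hv (s.IR_kid_sub hk).1]
    refine s.W4b_x1_out x ?_
    intro j i h5 h6 h7
    exact hv (h7 ▸ s.leg_IR hR h5 h6)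
  · rw [s.enw_wtS hR hy hw x']
    have h5 : ∑ c : Fin 3, ∑ i ∈ Finset.range (s.legN c y R),
        τ / s.rho R y c i * (x' (s.lp c y i) - x' (s.lp c y (i + 1))) ^ 2 ≤ ∑ _c : Fin 3, τ :=
      Finset.sum_le_sum fun c _ => s.W4b_leg hR hy hτ hx h3 c
    rw [Finset.sum_const, Finset.card_univ, Fintype.card_fin, nsmul_eq_mul] at h5
    push_cast at h5
    linarith

end SchPS

end Pool.RP
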