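import Pool.Agent.Lib.MP_9dcace_rp.Wd
import Pool.Agent.Lib.MP_9dcace_sx.W4c

/-!
ROW We (port of SX W4c and W4d: positivity of D, the tripod and the kids, upper bound for D).
The weights of the edges are `om` (sum over the two names of a bidirected edge).
-/

set_option autoImplicit false

open Classical

namespace Pool.RP.SchPS

open Pool.SX

variable {V F : Type} [Fintype V] [Fintype F] (s : SchPS V F)

/-- the positivity hypotheses on the weights of the children -/
private def WeP (R : Finset F) (y : V) (wk : Fin 3 → Fin 3 → V → ℝ) : Prop :=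
  (∀ k c v, 0 ≤ wk k c v) ∧ ∀ k c v, s.In c v (s.kid k y R) → 0 < s.om (wk k) v (s.out c v)

theorem DF_pos {R : Finset F} {wt : Fin 3 → V → ℝ} (hn : ∀ c v, 0 ≤ wt c v)
    (hp : ∀ c v, s.In c v R → 0 < s.om wt v (s.out c v)) (I : Finset V) (hI : I ⊆ s.IR R) :
    0 < DF (s.om wt) I := by
  have hinn : ∀ v ∈ I, s.inn v := fun v hv => (Finset.mem_filter.1 (hI hv)).2.1
  apply DF_pos_of (s.om wt) (s.om_nonneg wt fun c v _ => hn c v) I (fun v => if v ∈ I then s.out 2 v else v)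
  · rw [For, Finset.mem_filter]
    refine ⟨Finset.mem_univ _, ?_, ?_⟩
    · intro v hv
      exact if_neg hv
    · intro v
      by_contra hcon
      push Not at hcon
      have hmono : StrictMono
          (fun n : ℕ => s.r 2 ((fun v => if v ∈ I then s.out 2 v else v)^[n] v)) := by
        apply strictMono_nat_of_lt_succ
        intro n
        have hstep : (fun v => if v ∈ I then s.out 2 v else v)^[n + 1] v =
            s.out 2 ((fun v => if v ∈ I then s.out 2 v else v)^[n] v) := by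
          rw [Function.iterate_succ_apply']
          exact if_pos (hcon n)
        rw [hstep]
        exact s.Ra_out_pot (hinn _ (hcon n))
      have hinj : Function.Injective
          (fun n : ℕ => (fun v => if v ∈ I then s.out 2 v else v)^[n] v) := by
        intro a b hab
        apply hmono.injective
        exact congrArg (s.r 2) hab
      exact not_injective_infinite_finite _ hinj
  · intro v hv
    have h1 : (if v ∈ I then s.out 2 v else v) = s.out 2 v := if_pos hv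
    change 0 < s.om wt v (if v ∈ I then s.out 2 v else v)
    rw [h1]
    exact hp 2 v (s.In_IR (hI hv) 2)

/-- the tripod and the kids -/
theorem IR_eq {R : Finset F} {y : V} :
    s.IR R = s.TT R y ∪ (s.IR (s.kid 0 y R) ∪ s.IR (s.kid 1 y R) ∪ s.IR (s.kid 2 y R)) := by
  ext v
  simp only [Finset.mem_union]
  constructor
  · intro hv
    by_cases hp : ∃ j, s.Pth j y v
    · exact Or.inl (Finset.mem_filter.2 ⟨hv, hp⟩)
    · right
      push Not at hp
      obtain ⟨k, hk⟩ := s.IR_kid_of hv hp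
      fin_cases k
      · exact Or.inl (Or.inl hk)
      · exact Or.inl (Or.inr hk)
      · exact Or.inr hk
  · rintro (h | (h | h) | h)
    · exact (Finset.mem_filter.1 h).1
    · exact (s.IR_kid_sub h).1
    · exact (s.IR_kid_sub h).1
    · exact (s.IR_kid_sub h).1

theorem TT_disj {R : Finset F} {y : V} (k : Fin 3) :
    Disjoint (s.TT R y) (s.IR (s.kid k y R)) := by
  rw [Finset.disjoint_left]
  intro v hv hk
  obtain ⟨j, hj⟩ := (Finset.mem_filter.1 hv).2
  exact (s.IR_kid_sub hk).2 j hj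

private theorem We_noedge {R : Finset F} {y : V} (wt : Fin 3 → V → ℝ) {k l : Fin 3}
    (hkl : k ≠ l) {u v : V} (hu : u ∈ s.IR (s.kid k y R)) (hv : v ∈ s.IR (s.kid l y R)) :
    s.om wt u v = 0 := by
  by_contra h
  have h1 := s.om_edge wt u v h
  have h2 := s.no_edge hu h1
  exact hkl (s.IR_kid_disj hv h2).symm

private theorem We_disj {R : Finset F} {y : V} {k l : Fin 3} (hkl : k ≠ l) :
    Disjoint (s.IR (s.kid k y R)) (s.IR (s.kid l y R)) := by
  rw [Finset.disjoint_left]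
  intro v hv hv'
  exact hkl (s.IR_kid_disj hv (s.IR_sub_VR hv'))

/-- D of the union of the kids -/
theorem DF_kids {R : Finset F} {y : V} {τ : ℝ} {wk : Fin 3 → Fin 3 → V → ℝ}
    (hw : ∀ k c v, ¬ s.In c v (s.kid k y R) → wk k c v = 0) :
    DF (s.om (s.wtS R y τ wk))
        (s.IR (s.kid 0 y R) ∪ s.IR (s.kid 1 y R) ∪ s.IR (s.kid 2 y R)) =
      ∏ k, DF (s.om (wk k)) (s.IR (s.kid k y R)) := by
  have hcongr : ∀ k, DF (s.om (s.wtS R y τ wk)) (s.IR (s.kid k y R)) =
      DF (s.om (wk k)) (s.IR (s.kid k y R)) := by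
    intro k
    apply DF_congr
    intro v hv u
    exact s.om_wtS hw hv u
  rw [DF_union, DF_union, hcongr, hcongr, hcongr, Fin.prod_univ_three]
  · exact s.We_disj (by decide)
  · exact s.om_symm _
  · intro u hu v hv
    exact s.We_noedge _ (by decide) hu hv
  · rw [Finset.disjoint_union_left]
    exact ⟨s.We_disj (by decide), s.We_disj (by decide)⟩
  · exact s.om_symm _
  · intro u hu v hv
    rcases Finset.mem_union.1 hu with h | h
    · exact s.We_noedge _ (by decide) h hv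
    · exact s.We_noedge _ (by decide) h hv

private theorem We_inj {R : Finset F} {y : V} {j : Fin 3} {i i' : ℕ}
    (hi : i ≤ s.legN j y R) (hi' : i' ≤ s.legN j y R) (h : s.lp j y i = s.lp j y i') :
    i = i' := by
  rcases lt_trichotomy i i' with h1 | h1 | h1
  · have h2 := s.leg_lt h1 hi'
    rw [h] at h2
    exact absurd h2 (lt_irrefl _)
  · exact h1
  · have h2 := s.leg_lt h1 hi
    rw [h] at h2
    exact absurd h2 (lt_irrefl _)

private theorem We_Pth {R : Finset F} {y : V} {j : Fin 3} {i : ℕ}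
    (hi : i ≤ s.legN j y R) : s.Pth j y (s.lp j y i) :=
  s.leg_Pth (Nat.zero_le i) hi

private theorem We_inj2 {R : Finset F} {y : V} {j j' : Fin 3} {i i' : ℕ}
    (hi : i ≤ s.legN j y R) (hi' : i' ≤ s.legN j' y R) (h : s.lp j y i = s.lp j' y i') :
    (j = j' ∧ i = i') ∨ (i = 0 ∧ i' = 0) := by
  by_cases hj : j = j'
  · subst hj
    exact Or.inl ⟨rfl, s.We_inj hi hi' h⟩
  · right
    have h1 : s.lp j y i = y := s.leg_meet hj (s.We_Pth hi) (by rw [h]; exact s.We_Pth hi')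
    have h2 : s.lp j' y i' = y := by rw [← h]; exact h1
    exact ⟨s.We_inj hi (Nat.zero_le _) h1, s.We_inj hi' (Nat.zero_le _) h2⟩

/-- the test function with the values `val j i` at `lp j y i` -/
private noncomputable def We_x (R : Finset F) (y : V) (val : Fin 3 → ℕ → ℝ) (v : V) : ℝ :=
  if h : ∃ p : Fin 3 × ℕ, p.2 ≤ s.legN p.1 y R ∧ v = s.lp p.1 y p.2 then
    val h.choose.1 h.choose.2 else 0

private theorem We_x_eq {R : Finset F} {y : V} {val : Fin 3 → ℕ → ℝ}
    (hv0 : ∀ j j', val j 0 = val j' 0) {j : Fin 3} {i : ℕ} (hi : i ≤ s.legN j y R) :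
    s.We_x R y val (s.lp j y i) = val j i := by
  have h : ∃ p : Fin 3 × ℕ, p.2 ≤ s.legN p.1 y R ∧ s.lp j y i = s.lp p.1 y p.2 :=
    ⟨(j, i), hi, rfl⟩
  unfold We_x
  rw [dif_pos h]
  obtain ⟨h1, h2⟩ := h.choose_spec
  generalize h.choose = p at h1 h2 ⊢
  rcases s.We_inj2 hi h1 h2 with ⟨h3, h4⟩ | ⟨h3, h4⟩
  · rw [← h3, ← h4]
  · rw [h3, h4]
    exact hv0 _ _

private theorem We_In_rev {R : Finset F} {c c' : Fin 3} {v w : V} (h : s.Rev c v c' w)
    (hI : s.In c v R) : s.In c' w R := by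
  have hc : c' = c + 1 ∨ c' = c + 2 := by
    have h1 := s.Ra_rev_ne h
    revert h1
    clear hI h
    revert c c'
    decide
  rcases hc with rfl | rfl
  · have h1 := s.Ra_rev_monoL h
    obtain ⟨hv, hw, h2, h3⟩ := h
    obtain ⟨-, -, h4, h5⟩ := s.Ra_monoL_rev hv h1
    rw [← h2] at h4 h5
    exact ⟨hw, by rw [h5]; exact hI.2.2, by rw [h4]; exact hI.2.1⟩
  · have h1 := s.Ra_rev_monoR h
    obtain ⟨hv, hw, h2, h3⟩ := h
    obtain ⟨-, -, h4, h5⟩ := s.Ra_monoR_rev hv h1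
    rw [← h2] at h4 h5
    exact ⟨hw, by rw [h4]; exact hI.2.2, by rw [h5]; exact hI.2.1⟩

private theorem We_nonneg {R : Finset F} {y : V} (hR : s.Reg R) (hy : s.Adm y R) {τ : ℝ}
    (hτ : 0 < τ) {wk : Fin 3 → Fin 3 → V → ℝ}
    (_hw : ∀ k c v, ¬ s.In c v (s.kid k y R) → wk k c v = 0)
    (hp : s.WeP R y wk) (c : Fin 3) (v : V)
    (_ : s.inn v) : 0 ≤ s.wtS R y τ wk c v :=
  s.wtS_nn hR hy hτ hp.1 c v

private theorem We_pos {R : Finset F} {y : V} (hR : s.Reg R) (hy : s.Adm y R) {τ : ℝ}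
    (hτ : 0 < τ) {wk : Fin 3 → Fin 3 → V → ℝ}
    (hw : ∀ k c v, ¬ s.In c v (s.kid k y R) → wk k c v = 0)
    (hp : s.WeP R y wk) (c : Fin 3) (v : V)
    (h : s.In c v R) : 0 < s.om (s.wtS R y τ wk) v (s.out c v) := by
  have hn := s.We_nonneg hR hy hτ hw hp
  have hleg : ∀ c v, s.In c v R → s.Pth c y v → 0 < s.wtS R y τ wk c v := by
    intro c v h hP
    obtain ⟨i, hi, rfl⟩ := s.leg_edges hR hy hP h
    rw [s.wtS_leg hi]
    exact div_pos hτ (s.rho_pos hR hy hi)
  by_cases hP : s.Pth c y v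
  · exact lt_of_lt_of_le (hleg c v h hP) (s.le_om _ hn c v h.1)
  · by_cases hr : ∃ c' w, s.Rev c v c' w ∧ s.Pth c' y w
    · obtain ⟨c', w, hr, hP'⟩ := hr
      have h1 := hleg c' w (s.We_In_rev hr h) hP'
      have h2 := s.le_om (s.wtS R y τ wk) hn c' w hr.2.1
      rw [← hr.2.2.2, s.om_symm] at h2
      rw [← hr.2.2.1]
      exact lt_of_lt_of_le h1 h2
    · push Not at hr
      obtain ⟨k, hk⟩ := s.kid_In h hP hr
      have h1 := hp.2 k c v hk
      have h2 : s.om (s.wtS R y τ wk) v (s.out c v) = s.om (wk k) v (s.out c v) := by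
        apply s.om_congr
        · intro c1 hv h3
          have h4 := s.Wa_out_ne hv h3
          subst h4
          exact s.wtS_kid hw hk
        · intro c1 hv1 h3
          exact s.wtS_kid hw (s.We_In_rev ⟨h.1, hv1, rfl, h3⟩ hk)
      rw [h2]
      exact h1

private theorem We_pivot {R : Finset F} {y : V} (hR : s.Reg R) (hy : s.Adm y R) {τ : ℝ}
    (hτ : 0 < τ) {wk : Fin 3 → Fin 3 → V → ℝ}
    (hw : ∀ k c v, ¬ s.In c v (s.kid k y R) → wk k c v = 0)
    (hp : s.WeP R y wk)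
    (he : ∀ k, ∀ x : V → ℝ, (∀ v, 0 ≤ x v ∧ x v ≤ 1) → ∃ x' : V → ℝ,
      (∀ v, 0 ≤ x' v ∧ x' v ≤ 1) ∧ (∀ v, v ∉ s.IR (s.kid k y R) → x' v = x v) ∧
      s.enw (wk k) x' ≤ 4 * (τ / 12))
    (val : Fin 3 → ℕ → ℝ) (hv0 : ∀ j j', val j 0 = val j' 0)
    (hv1 : ∀ j i, i ≤ s.legN j y R → 0 ≤ val j i ∧ val j i ≤ 1) (I : Finset V)
    (hI : I ⊆ s.IR R) (hJ : ∀ k, s.IR (s.kid k y R) ⊆ I) {j0 : Fin 3} {i0 : ℕ}
    (hi0 : i0 ≤ s.legN j0 y R) (hz : s.lp j0 y i0 ∈ I) (hz1 : val j0 i0 = 1)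
    (hoff : ∀ j i, i ≤ s.legN j y R → s.lp j y i ∉ I → val j i = 0) :
    DF (s.om (s.wtS R y τ wk)) I ≤ DF (s.om (s.wtS R y τ wk)) (I.erase (s.lp j0 y i0)) *
      (∑ j, ∑ i ∈ Finset.range (s.legN j y R),
        τ / s.rho R y j i * (val j i - val j (i + 1)) ^ 2 + τ) := by
  have hn := s.We_nonneg hR hy hτ hw hp
  have hpp := s.We_pos hR hy hτ hw hp
  have h01 : ∀ v, 0 ≤ s.We_x R y val v ∧ s.We_x R y val v ≤ 1 := by
    intro v
    by_cases h : ∃ p : Fin 3 × ℕ, p.2 ≤ s.legN p.1 y R ∧ v = s.lp p.1 y p.2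
    · obtain ⟨p, h1, rfl⟩ := h
      rw [s.We_x_eq hv0 h1]
      exact hv1 _ _ h1
    · unfold We_x
      rw [dif_neg h]
      exact ⟨le_rfl, zero_le_one⟩
  obtain ⟨x', -, hxoff, hxP, hxE⟩ := s.glue_ext hw he (s.We_x R y val) h01
  have hx0 : ∀ v, v ∉ I → x' v = 0 := by
    intro v hv
    rw [hxoff v (fun k hk => hv (hJ k hk))]
    by_cases h : ∃ p : Fin 3 × ℕ, p.2 ≤ s.legN p.1 y R ∧ v = s.lp p.1 y p.2
    · obtain ⟨p, h1, rfl⟩ := h
      rw [s.We_x_eq hv0 h1]
      exact hoff _ _ h1 hv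
    · unfold We_x
      rw [dif_neg h]
  have hxl : ∀ j i, i ≤ s.legN j y R → x' (s.lp j y i) = val j i := by
    intro j i hi
    rw [hxP j _ (s.We_Pth hi), s.We_x_eq hv0 hi]
  have hD : 0 < DF (s.om (s.wtS R y τ wk)) (I.erase (s.lp j0 y i0)) :=
    s.DF_pos (s.wtS_nn hR hy hτ hp.1) hpp _ ((Finset.erase_subset _ _).trans hI)
  refine (DF_pivot (s.om (s.wtS R y τ wk)) (s.om_symm _) (s.om_nonneg _ hn) I (s.lp j0 y i0) hz
    hD x' hx0 (by rw [hxl _ _ hi0, hz1])).trans ?_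
  refine mul_le_mul_of_nonneg_left ?_ hD.le
  rw [s.En_om, s.enw_wtS hR hy hw x']
  refine add_le_add (le_of_eq ?_) hxE
  refine Finset.sum_congr rfl fun j _ => Finset.sum_congr rfl fun i hi => ?_
  have hi' : i < s.legN j y R := Finset.mem_range.1 hi
  rw [hxl j i hi'.le, hxl j (i + 1) hi']

/-- tail sums of `rho` -/
private noncomputable def We_sg (R : Finset F) (y : V) (j : Fin 3) (i : ℕ) : ℝ :=
  ∑ i' ∈ Finset.Ico i (s.legN j y R), s.rho R y j i'

private theorem We_sg_succ {R : Finset F} {y : V} {j : Fin 3} {i : ℕ} (hi : i < s.legN j y R) :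
    s.We_sg R y j i = s.rho R y j i + s.We_sg R y j (i + 1) :=
  Finset.sum_eq_sum_Ico_succ_bot hi _

private theorem We_sg_end {R : Finset F} {y : V} {j : Fin 3} :
    s.We_sg R y j (s.legN j y R) = 0 := by
  unfold We_sg
  simp

private theorem We_sg_nonneg {R : Finset F} {y : V} (hR : s.Reg R) (hy : s.Adm y R)
    (j : Fin 3) (i : ℕ) : 0 ≤ s.We_sg R y j i :=
  Finset.sum_nonneg fun _ hi => (s.rho_pos hR hy (Finset.mem_Ico.1 hi).2).le

private theorem We_sg_pos {R : Finset F} {y : V} (hR : s.Reg R) (hy : s.Adm y R)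
    {j : Fin 3} {i : ℕ} (hi : i < s.legN j y R) : 0 < s.We_sg R y j i := by
  rw [s.We_sg_succ hi]
  exact add_pos_of_pos_of_nonneg (s.rho_pos hR hy hi) (s.We_sg_nonneg hR hy _ _)

private theorem We_sg_anti {R : Finset F} {y : V} (hR : s.Reg R) (hy : s.Adm y R)
    {j : Fin 3} {i i' : ℕ} (hi : i ≤ i') : s.We_sg R y j i' ≤ s.We_sg R y j i := by
  refine Finset.sum_le_sum_of_subset_of_nonneg (Finset.Ico_subset_Ico_left hi) ?_
  intro k hk _
  exact (s.rho_pos hR hy (Finset.mem_Ico.1 hk).2).le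

private theorem We_sg_zero {R : Finset F} {y : V} (hR : s.Reg R) (hy : s.Adm y R)
    {j : Fin 3} (h0 : 0 < s.legN j y R) : s.We_sg R y j 0 = 1 := by
  have h := s.rho_sum hR hy h0
  rw [Finset.range_eq_Ico] at h
  exact h

private theorem We_term {τ a b : ℝ} (ha : 0 < a) (hb : b ≠ 0) :
    τ / a * (a / b) ^ 2 = τ / b ^ 2 * a := by
  have := ha.ne'
  field_simp

/-- energy of the tail trial function -/
private theorem We_energy {R : Finset F} {y : V} (hR : s.Reg R) (hy : s.Adm y R) {τ : ℝ}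
    {j : Fin 3} {a : ℕ} (ha : a + 1 < s.legN j y R) :
    ∑ j', ∑ i ∈ Finset.range (s.legN j' y R), τ / s.rho R y j' i *
      ((if j' = j ∧ a + 1 ≤ i then s.We_sg R y j i / s.We_sg R y j (a + 1) else 0) -
        (if j' = j ∧ a + 1 ≤ i + 1 then s.We_sg R y j (i + 1) / s.We_sg R y j (a + 1)
          else 0)) ^ 2 = τ / s.rho R y j a + τ / s.We_sg R y j (a + 1) := by
  have hs0 := s.We_sg_pos hR hy ha
  rw [Finset.sum_eq_single j]
  · rw [← Finset.sum_range_add_sum_Ico _ ha.le, Finset.sum_range_succ]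
    have e1 : ∑ i ∈ Finset.range a, τ / s.rho R y j i *
      ((if j = j ∧ a + 1 ≤ i then s.We_sg R y j i / s.We_sg R y j (a + 1) else 0) -
        (if j = j ∧ a + 1 ≤ i + 1 then s.We_sg R y j (i + 1) / s.We_sg R y j (a + 1)
          else 0)) ^ 2 = 0 := by
      refine Finset.sum_eq_zero fun i hi => ?_
      have hi' := Finset.mem_range.1 hi
      rw [if_neg (by omega), if_neg (by omega)]
      ring
    have e2 : ∑ i ∈ Finset.Ico (a + 1) (s.legN j y R), τ / s.rho R y j i *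
      ((if j = j ∧ a + 1 ≤ i then s.We_sg R y j i / s.We_sg R y j (a + 1) else 0) -
        (if j = j ∧ a + 1 ≤ i + 1 then s.We_sg R y j (i + 1) / s.We_sg R y j (a + 1)
          else 0)) ^ 2 = τ / s.We_sg R y j (a + 1) ^ 2 * s.We_sg R y j (a + 1) := by
      conv_rhs => rw [We_sg, Finset.mul_sum]
      refine Finset.sum_congr rfl fun i hi => ?_
      have hi' := Finset.mem_Ico.1 hi
      rw [if_pos ⟨rfl, hi'.1⟩, if_pos ⟨rfl, by omega⟩, ← sub_div, s.We_sg_succ hi'.2,
        add_sub_cancel_right]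
      exact We_term (s.rho_pos hR hy hi'.2) hs0.ne'
    rw [e1, e2, if_neg (by omega), if_pos ⟨rfl, le_rfl⟩, div_self hs0.ne']
    have := hs0.ne'
    field_simp
    ring
  · intro j' _ hj'
    refine Finset.sum_eq_zero fun i _ => ?_
    rw [if_neg (fun h => hj' h.1), if_neg (fun h => hj' h.1)]
    ring
  · intro h
    exact absurd (Finset.mem_univ j) h

private theorem We_step {R : Finset F} {y : V} (hR : s.Reg R) (hy : s.Adm y R) {τ : ℝ}
    (hτ : 0 < τ) {wk : Fin 3 → Fin 3 → V → ℝ}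
    (hw : ∀ k c v, ¬ s.In c v (s.kid k y R) → wk k c v = 0)
    (hp : s.WeP R y wk)
    (he : ∀ k, ∀ x : V → ℝ, (∀ v, 0 ≤ x v ∧ x v ≤ 1) → ∃ x' : V → ℝ,
      (∀ v, 0 ≤ x' v ∧ x' v ≤ 1) ∧ (∀ v, v ∉ s.IR (s.kid k y R) → x' v = x v) ∧
      s.enw (wk k) x' ≤ 4 * (τ / 12))
    {j : Fin 3} {a : ℕ} (ha : a + 1 < s.legN j y R) (I : Finset V)
    (hI : I ⊆ s.IR R) (hJ : ∀ k, s.IR (s.kid k y R) ⊆ I)
    (hL : ∀ i, a + 1 ≤ i → i < s.legN j y R → s.lp j y i ∈ I) :
    DF (s.om (s.wtS R y τ wk)) I ≤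
      DF (s.om (s.wtS R y τ wk)) (I.erase (s.lp j y (a + 1))) *
      (τ * (1 / s.rho R y j a + 1 / s.We_sg R y j (a + 1) + 1)) := by
  have hs0 := s.We_sg_pos hR hy ha
  have h := s.We_pivot hR hy hτ hw hp he
    (fun j' i => if j' = j ∧ a + 1 ≤ i then s.We_sg R y j i / s.We_sg R y j (a + 1) else 0)
    (by
      intro j1 j2
      rw [if_neg (by omega), if_neg (by omega)])
    (by
      intro j' i hi
      split_ifs with h
      · exact ⟨div_nonneg (s.We_sg_nonneg hR hy _ _) hs0.le,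
          div_le_one_of_le₀ (s.We_sg_anti hR hy h.2) hs0.le⟩
      · exact ⟨le_rfl, zero_le_one⟩)
    I hI hJ ha.le (hL _ le_rfl ha)
    (by
      rw [if_pos ⟨rfl, le_rfl⟩, div_self hs0.ne'])
    (by
      intro j' i hi hni
      split_ifs with h
      · obtain ⟨rfl, h2⟩ := h
        rcases hi.lt_or_eq with h3 | h3
        · exact absurd (hL i h2 h3) hni
        · rw [h3, s.We_sg_end, zero_div]
      · rfl)
  refine h.trans (le_of_eq ?_)
  rw [s.We_energy hR hy ha]
  ring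

private theorem We_erase {R : Finset F} {y : V} {j : Fin 3} {a : ℕ} (ha : a + 1 < s.legN j y R)
    (X : Finset V) (hX : ∀ i, 0 < i → i < s.legN j y R → s.lp j y i ∉ X) :
    (X ∪ (Finset.Ico (a + 1) (s.legN j y R)).image (s.lp j y)).erase (s.lp j y (a + 1)) =
      X ∪ (Finset.Ico (a + 1 + 1) (s.legN j y R)).image (s.lp j y) := by
  ext v
  simp only [Finset.mem_erase, Finset.mem_union, Finset.mem_image, Finset.mem_Ico]
  constructor
  · rintro ⟨h1, h2 | ⟨i, hi, rfl⟩⟩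
    · exact Or.inl h2
    · refine Or.inr ⟨i, ⟨?_, hi.2⟩, rfl⟩
      rcases hi.1.lt_or_eq with h | h
      · exact h
      · rw [h] at h1
        exact absurd rfl h1
  · rintro (h | ⟨i, hi, rfl⟩)
    · refine ⟨?_, Or.inl h⟩
      rintro rfl
      exact hX _ (Nat.succ_pos a) ha h
    · refine ⟨fun h => ?_, Or.inr ⟨i, ⟨by omega, hi.2⟩, rfl⟩⟩
      have := s.We_inj hi.2.le ha.le h
      omega

private theorem We_elim {R : Finset F} {y : V} (hR : s.Reg R) (hy : s.Adm y R) {τ : ℝ}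
    (hτ : 0 < τ) {wk : Fin 3 → Fin 3 → V → ℝ}
    (hw : ∀ k c v, ¬ s.In c v (s.kid k y R) → wk k c v = 0)
    (hp : s.WeP R y wk)
    (he : ∀ k, ∀ x : V → ℝ, (∀ v, 0 ≤ x v ∧ x v ≤ 1) → ∃ x' : V → ℝ,
      (∀ v, 0 ≤ x' v ∧ x' v ≤ 1) ∧ (∀ v, v ∉ s.IR (s.kid k y R) → x' v = x v) ∧
      s.enw (wk k) x' ≤ 4 * (τ / 12))
    {j : Fin 3} (X : Finset V) (hXR : X ⊆ s.IR R) (hJ : ∀ k, s.IR (s.kid k y R) ⊆ X)
    (hX : ∀ i, 0 < i → i < s.legN j y R → s.lp j y i ∉ X) (n : ℕ) :
    ∀ a, a + n + 1 = s.legN j y R →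
      DF (s.om (s.wtS R y τ wk)) (X ∪ (Finset.Ico (a + 1) (s.legN j y R)).image (s.lp j y)) ≤
        DF (s.om (s.wtS R y τ wk)) X * ∏ i ∈ Finset.Ico a (s.legN j y R - 1),
          (τ * (1 / s.rho R y j i + 1 / s.We_sg R y j (i + 1) + 1)) := by
  induction n with
  | zero =>
    intro a ha
    rw [← ha]
    simp
  | succ n ih =>
    intro a ha
    have ha' : a + 1 < s.legN j y R := by omega
    have hsub : X ∪ (Finset.Ico (a + 1) (s.legN j y R)).image (s.lp j y) ⊆ s.IR R := by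
      refine Finset.union_subset hXR ?_
      intro v hv
      obtain ⟨i, hi, rfl⟩ := Finset.mem_image.1 hv
      have hi' := Finset.mem_Ico.1 hi
      exact s.leg_IR hR (by omega) hi'.2
    have h1 := s.We_step hR hy hτ hw hp he ha'
      (X ∪ (Finset.Ico (a + 1) (s.legN j y R)).image (s.lp j y)) hsub
      (fun k => (hJ k).trans Finset.subset_union_left)
      (fun i h2 h3 => Finset.mem_union_right _
        (Finset.mem_image_of_mem _ (Finset.mem_Ico.2 ⟨h2, h3⟩)))
    rw [s.We_erase ha' X hX] at h1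
    refine h1.trans ?_
    have h2 := ih (a + 1) (by omega)
    have hr := s.rho_pos hR hy (show a < s.legN j y R by omega)
    have hs0 := s.We_sg_pos hR hy ha'
    have h3 : 0 ≤ τ * (1 / s.rho R y j a + 1 / s.We_sg R y j (a + 1) + 1) := by positivity
    refine (mul_le_mul_of_nonneg_right h2 h3).trans (le_of_eq ?_)
    have h4 : a < s.legN j y R - 1 := by omega
    rw [Finset.prod_eq_prod_Ico_succ_bot h4]
    ring

private theorem We_leg {R : Finset F} {y : V} (hR : s.Reg R) (hy : s.Adm y R) {τ : ℝ}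
    (hτ : 0 < τ) {wk : Fin 3 → Fin 3 → V → ℝ}
    (hw : ∀ k c v, ¬ s.In c v (s.kid k y R) → wk k c v = 0)
    (hp : s.WeP R y wk)
    (he : ∀ k, ∀ x : V → ℝ, (∀ v, 0 ≤ x v ∧ x v ≤ 1) → ∃ x' : V → ℝ,
      (∀ v, 0 ≤ x' v ∧ x' v ≤ 1) ∧ (∀ v, v ∉ s.IR (s.kid k y R) → x' v = x v) ∧
      s.enw (wk k) x' ≤ 4 * (τ / 12))
    (j : Fin 3) (X : Finset V) (hXR : X ⊆ s.IR R) (hJ : ∀ k, s.IR (s.kid k y R) ⊆ X)
    (hX : ∀ i, 0 < i → i < s.legN j y R → s.lp j y i ∉ X) :
    DF (s.om (s.wtS R y τ wk)) (X ∪ (Finset.Ico 1 (s.legN j y R)).image (s.lp j y)) ≤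
      DF (s.om (s.wtS R y τ wk)) X * (3 * s.legw R y τ j) := by
  have hD := DF_nonneg (s.om (s.wtS R y τ wk)) (s.om_nonneg _ (s.We_nonneg hR hy hτ hw hp)) X
  by_cases h0 : s.legN j y R = 0
  · have h1 : s.legw R y τ j = 1 := if_pos h0
    rw [h0, h1]
    simp only [Finset.Ico_eq_empty_of_le (Nat.zero_le 1), Finset.image_empty,
      Finset.union_empty]
    linarith
  · have hm : 0 < s.legN j y R := Nat.pos_of_ne_zero h0
    have h1 : s.legw R y τ j = τ ^ (s.legN j y R - 1) /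
      ∏ i ∈ Finset.range (s.legN j y R), s.rho R y j i := if_neg h0
    have h2 := s.We_elim hR hy hτ hw hp he X hXR hJ hX (s.legN j y R - 1) 0 (by omega)
    refine h2.trans ?_
    refine mul_le_mul_of_nonneg_left ?_ hD
    rw [← Finset.range_eq_Ico, Finset.prod_mul_distrib, Finset.prod_const, Finset.card_range, h1]
    have h3 := prod_elim (s.legN j y R) hm (fun i => s.rho R y j i)
      (fun i hi => s.rho_pos hR hy hi) (s.rho_sum hR hy hm)
    calc τ ^ (s.legN j y R - 1) * ∏ i ∈ Finset.range (s.legN j y R - 1),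
          (1 / s.rho R y j i + 1 / s.We_sg R y j (i + 1) + 1)
        ≤ τ ^ (s.legN j y R - 1) *
          (3 / ∏ i ∈ Finset.range (s.legN j y R), s.rho R y j i) :=
          mul_le_mul_of_nonneg_left h3 (by positivity)
      _ = _ := by ring

/-- the energy of the first trial function -/
private theorem We_first {R : Finset F} {y : V} (hR : s.Reg R) (hy : s.Adm y R) {τ : ℝ}
    (hτ : 0 < τ) {wk : Fin 3 → Fin 3 → V → ℝ}
    (hw : ∀ k c v, ¬ s.In c v (s.kid k y R) → wk k c v = 0)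
    (hp : s.WeP R y wk)
    (he : ∀ k, ∀ x : V → ℝ, (∀ v, 0 ≤ x v ∧ x v ≤ 1) → ∃ x' : V → ℝ,
      (∀ v, 0 ≤ x' v ∧ x' v ≤ 1) ∧ (∀ v, v ∉ s.IR (s.kid k y R) → x' v = x v) ∧
      s.enw (wk k) x' ≤ 4 * (τ / 12)) :
    DF (s.om (s.wtS R y τ wk)) (s.IR R) ≤
      DF (s.om (s.wtS R y τ wk)) ((s.IR R).erase y) * (4 * (if y ∈ s.IR R then τ else 1)) := by
  have hD := DF_nonneg (s.om (s.wtS R y τ wk)) (s.om_nonneg _ (s.We_nonneg hR hy hτ hw hp))
    ((s.IR R).erase y)
  by_cases hI : y ∈ s.IR R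
  · have hpos : ∀ j, 0 < s.legN j y R := fun j => s.leg_pos hI
    have hz0 : ∀ j, s.We_sg R y j 0 = 1 := fun j => s.We_sg_zero hR hy (hpos j)
    have h := s.We_pivot hR hy hτ hw hp he (fun j i => s.We_sg R y j i)
      (by intro j1 j2; rw [hz0, hz0])
      (by
        intro j i hi
        refine ⟨s.We_sg_nonneg hR hy _ _, ?_⟩
        rw [← hz0 j]
        exact s.We_sg_anti hR hy (Nat.zero_le i))
      (s.IR R) subset_rfl (fun k v hv => (s.IR_kid_sub hv).1) (j0 := 0) (i0 := 0)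
      (Nat.zero_le _) hI (hz0 0)
      (by
        intro j i hi hni
        rcases hi.lt_or_eq with h3 | h3
        · rcases Nat.eq_zero_or_pos i with rfl | h4
          · exact absurd hI hni
          · exact absurd (s.leg_IR hR h4 h3) hni
        · subst h3
          exact s.We_sg_end)
    refine h.trans ?_
    refine mul_le_mul_of_nonneg_left (le_of_eq ?_) hD
    rw [if_pos hI]
    have e : ∀ j : Fin 3, ∑ i ∈ Finset.range (s.legN j y R), τ / s.rho R y j i *
        (s.We_sg R y j i - s.We_sg R y j (i + 1)) ^ 2 = τ := by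
      intro j
      have e1 : ∑ i ∈ Finset.range (s.legN j y R), τ / s.rho R y j i *
        (s.We_sg R y j i - s.We_sg R y j (i + 1)) ^ 2 =
          ∑ i ∈ Finset.range (s.legN j y R), τ * s.rho R y j i := by
        refine Finset.sum_congr rfl fun i hi => ?_
        have hi' := Finset.mem_range.1 hi
        rw [s.We_sg_succ hi', add_sub_cancel_right]
        have := (s.rho_pos hR hy hi').ne'
        field_simp
      rw [e1, ← Finset.mul_sum, s.rho_sum hR hy (hpos j), mul_one]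
    rw [Finset.sum_congr rfl (fun j _ => e j)]
    simp
    ring
  · rw [Finset.erase_eq_of_notMem hI] at hD ⊢
    rw [if_neg hI]
    linarith

private theorem We_set {R : Finset F} {y : V} (hR : s.Reg R) (hy : s.Adm y R) :
    (s.IR R).erase y =
      (((s.IR (s.kid 0 y R) ∪ s.IR (s.kid 1 y R) ∪ s.IR (s.kid 2 y R)) ∪
        (Finset.Ico 1 (s.legN 0 y R)).image (s.lp 0 y)) ∪
        (Finset.Ico 1 (s.legN 1 y R)).image (s.lp 1 y)) ∪
        (Finset.Ico 1 (s.legN 2 y R)).image (s.lp 2 y) := by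
  have hkid : ∀ k v, v ∈ s.IR (s.kid k y R) → v ≠ y ∧ v ∈ s.IR R := by
    intro k v hv
    refine ⟨?_, (s.IR_kid_sub hv).1⟩
    rintro rfl
    exact (s.IR_kid_sub hv).2 0 Relation.ReflTransGen.refl
  have hleg : ∀ j v, v ∈ (Finset.Ico 1 (s.legN j y R)).image (s.lp j y) →
      v ≠ y ∧ v ∈ s.IR R := by
    intro j v hv
    obtain ⟨i, hi, rfl⟩ := Finset.mem_image.1 hv
    have hi' := Finset.mem_Ico.1 hi
    refine ⟨fun h => ?_, s.leg_IR hR (by omega) hi'.2⟩
    have := s.We_inj hi'.2.le (Nat.zero_le _) h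
    omega
  ext v
  constructor
  · intro hv
    obtain ⟨hvy, hvI⟩ := Finset.mem_erase.1 hv
    rw [s.IR_eq (y := y)] at hvI
    rcases Finset.mem_union.1 hvI with h | h
    · obtain ⟨h1, j, h2⟩ := Finset.mem_filter.1 h
      obtain ⟨i, hi, rfl⟩ := s.leg_ret hR hy h2 h1
      have hi0 : i ≠ 0 := by
        rintro rfl
        exact hvy rfl
      have hm : s.lp j y i ∈ (Finset.Ico 1 (s.legN j y R)).image (s.lp j y) :=
        Finset.mem_image_of_mem _ (Finset.mem_Ico.2 ⟨by omega, hi⟩)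
      simp only [Finset.mem_union]
      have hj : j = 0 ∨ j = 1 ∨ j = 2 := by
        clear hm hi hvy hv hvI h h2 h1 hi0
        revert j
        decide
      rcases hj with rfl | rfl | rfl
      · exact Or.inl (Or.inl (Or.inr hm))
      · exact Or.inl (Or.inr hm)
      · exact Or.inr hm
    · simp only [Finset.mem_union]
      simp only [Finset.mem_union] at h
      exact Or.inl (Or.inl (Or.inl h))
  · intro hv
    refine Finset.mem_erase.2 ?_
    rcases Finset.mem_union.1 hv with h | h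
    · rcases Finset.mem_union.1 h with h | h
      · rcases Finset.mem_union.1 h with h | h
        · rcases Finset.mem_union.1 h with h | h
          · rcases Finset.mem_union.1 h with h | h
            · exact hkid 0 v h
            · exact hkid 1 v h
          · exact hkid 2 v h
        · exact hleg 0 v h
      · exact hleg 1 v h
    · exact hleg 2 v h

theorem upper {R : Finset F} {y : V} (hR : s.Reg R) (hy : s.Adm y R) {τ : ℝ} (hτ : 0 < τ)
    {wk : Fin 3 → Fin 3 → V → ℝ}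
    (hw : ∀ k c v, ¬ s.In c v (s.kid k y R) → wk k c v = 0)
    (hn : ∀ k c v, 0 ≤ wk k c v)
    (hp : ∀ k c v, s.In c v (s.kid k y R) → 0 < s.om (wk k) v (s.out c v))
    (he : ∀ k, ∀ x : V → ℝ, (∀ v, 0 ≤ x v ∧ x v ≤ 1) → ∃ x' : V → ℝ,
      (∀ v, 0 ≤ x' v ∧ x' v ≤ 1) ∧ (∀ v, v ∉ s.IR (s.kid k y R) → x' v = x v) ∧
      s.enw (wk k) x' ≤ 4 * (τ / 12)) :
    DF (s.om (s.wtS R y τ wk)) (s.IR R) ≤
      108 * s.wT R y τ * ∏ k, DF (s.om (wk k)) (s.IR (s.kid k y R)) := by
  have hp : s.WeP R y wk := ⟨hn, hp⟩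
  have hlw : ∀ j, 0 ≤ s.legw R y τ j := by
    intro j
    unfold legw
    split_ifs with h
    · exact zero_le_one
    · exact div_nonneg (by positivity) (Finset.prod_nonneg fun i hi =>
        (s.rho_pos hR hy (Finset.mem_range.1 hi)).le)
  have hJR : s.IR (s.kid 0 y R) ∪ s.IR (s.kid 1 y R) ∪ s.IR (s.kid 2 y R) ⊆ s.IR R := by
    intro v hv
    simp only [Finset.mem_union] at hv
    rcases hv with (h | h) | h
    · exact (s.IR_kid_sub h).1
    · exact (s.IR_kid_sub h).1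
    · exact (s.IR_kid_sub h).1
  have hJk : ∀ k : Fin 3, s.IR (s.kid k y R) ⊆
      s.IR (s.kid 0 y R) ∪ s.IR (s.kid 1 y R) ∪ s.IR (s.kid 2 y R) := by
    intro k v hv
    simp only [Finset.mem_union]
    have hk : k = 0 ∨ k = 1 ∨ k = 2 := by
      clear hv
      revert k
      decide
    rcases hk with rfl | rfl | rfl
    · exact Or.inl (Or.inl hv)
    · exact Or.inl (Or.inr hv)
    · exact Or.inr hv
  have hLR : ∀ j, (Finset.Ico 1 (s.legN j y R)).image (s.lp j y) ⊆ s.IR R := by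
    intro j v hv
    obtain ⟨i, hi, rfl⟩ := Finset.mem_image.1 hv
    have hi' := Finset.mem_Ico.1 hi
    exact s.leg_IR hR (by omega) hi'.2
  have hnJ : ∀ j i, i ≤ s.legN j y R →
      s.lp j y i ∉ s.IR (s.kid 0 y R) ∪ s.IR (s.kid 1 y R) ∪ s.IR (s.kid 2 y R) := by
    intro j i hi hv
    simp only [Finset.mem_union] at hv
    rcases hv with (h | h) | h
    · exact (s.IR_kid_sub h).2 j (s.We_Pth hi)
    · exact (s.IR_kid_sub h).2 j (s.We_Pth hi)
    · exact (s.IR_kid_sub h).2 j (s.We_Pth hi)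
  have hnL : ∀ j j', j ≠ j' → ∀ i, 0 < i → i < s.legN j y R →
      s.lp j y i ∉ (Finset.Ico 1 (s.legN j' y R)).image (s.lp j' y) := by
    intro j j' hjj i hi0 hi hv
    obtain ⟨i', hi', h⟩ := Finset.mem_image.1 hv
    have hi'' := Finset.mem_Ico.1 hi'
    rcases s.We_inj2 hi''.2.le hi.le h with h1 | h1
    · exact hjj h1.1.symm
    · omega
  have f0 := s.We_first hR hy hτ hw hp he
  rw [s.We_set hR hy] at f0
  have f1 := s.We_leg hR hy hτ hw hp he 0
    (s.IR (s.kid 0 y R) ∪ s.IR (s.kid 1 y R) ∪ s.IR (s.kid 2 y R)) hJR hJk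
    (fun i _ hi => hnJ 0 i hi.le)
  have f2 := s.We_leg hR hy hτ hw hp he 1
    ((s.IR (s.kid 0 y R) ∪ s.IR (s.kid 1 y R) ∪ s.IR (s.kid 2 y R)) ∪
      (Finset.Ico 1 (s.legN 0 y R)).image (s.lp 0 y))
    (Finset.union_subset hJR (hLR 0)) (fun k => (hJk k).trans Finset.subset_union_left)
    (by
      intro i hi0 hi h
      rcases Finset.mem_union.1 h with h | h
      · exact hnJ 1 i hi.le h
      · exact hnL 1 0 (by decide) i hi0 hi h)
  have f3 := s.We_leg hR hy hτ hw hp he 2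
    (((s.IR (s.kid 0 y R) ∪ s.IR (s.kid 1 y R) ∪ s.IR (s.kid 2 y R)) ∪
      (Finset.Ico 1 (s.legN 0 y R)).image (s.lp 0 y)) ∪
      (Finset.Ico 1 (s.legN 1 y R)).image (s.lp 1 y))
    (Finset.union_subset (Finset.union_subset hJR (hLR 0)) (hLR 1))
    (fun k => ((hJk k).trans Finset.subset_union_left).trans Finset.subset_union_left)
    (by
      intro i hi0 hi h
      rcases Finset.mem_union.1 h with h | h
      · rcases Finset.mem_union.1 h with h | h
        · exact hnJ 2 i hi.le h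
        · exact hnL 2 0 (by decide) i hi0 hi h
      · exact hnL 2 1 (by decide) i hi0 hi h)
  rw [s.DF_kids hw] at f1
  have hc : (0 : ℝ) ≤ if y ∈ s.IR R then τ else 1 := by
    split_ifs
    · exact hτ.le
    · exact zero_le_one
  have h0 := hlw 0
  have h1 := hlw 1
  have h2 := hlw 2
  have g2 := f2.trans (mul_le_mul_of_nonneg_right f1 (by positivity))
  have g3 := f3.trans (mul_le_mul_of_nonneg_right g2 (by positivity))
  have g4 := f0.trans (mul_le_mul_of_nonneg_right g3 (by positivity))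
  refine g4.trans (le_of_eq ?_)
  rw [wT, Fin.prod_univ_three (fun j => s.legw R y τ j)]
  ring

end Pool.RP.SchPS
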