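import Pool.Agent.Lib.MP_9dcace_rp.Wh
import Pool.Agent.Lib.MP_9dcace_rp.Sd
import Pool.Agent.Lib.MP_9dcace_sx.W8

/-!
ROW Wi (port of SX W8: weights with large areas).  The area statement is in terms of forests:
`DF / (3 |F|)^18 ≤ ZF` for all triples `p` of vertices of a face with the labels 0, 1, 2
(row Fa turns `ZF` into a determinant). `exists_depth` and `w8_solve` are imported from SX W8.
-/

set_option autoImplicit false

open Classical

namespace Pool.RP

open Pool.SX

namespace SchP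

variable {V F : Type} [Fintype V] [Fintype F]

/-- MAIN RESULT of the sections 3, 4, 5: nonnegative weights with polynomially bounded sums on all inner
edges, for which all triples of labels have polynomially large forest areas. -/
theorem exists_weights (s : SchP V F) : ∃ (wt : Fin 3 → V → ℝ) (H : V → Fin 3 → ℝ),
    (∀ c v, 0 ≤ wt c v) ∧
    (∀ c v, s.inn v → 1 / (3 * (Fintype.card F : ℝ)) ^ 7 ≤ s.om wt v (s.out c v)) ∧
    (∀ c v, s.inn v → wt c v ≤ 2 * Fintype.card F) ∧
    (∀ k j, H (s.a k) j = if k = j then 1 else 0) ∧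
    (∀ v, s.inn v → ∀ k, lap (s.om wt) (fun u => H u k) v = 0) ∧
    0 < DF (s.om wt) s.VI ∧
    (∀ χ : V → Fin 3, (∀ k, χ (s.a k) = k) → ∀ g p, s.Tp g p →
      1 / (3 * (Fintype.card F : ℝ)) ^ 18 * DF (s.om wt) s.VI ≤ ZF (s.om wt) s.VI χ p) := by
  obtain ⟨s', hs'⟩ := s.exists_SchPS
  subst hs'
  have hVI : ∀ v, v ∈ s'.VI ↔ s'.inn v := fun v => by simp [SchP.VI]
  have hN : 1 ≤ Fintype.card F := Fintype.card_pos_iff.mpr ⟨s'.o 0⟩
  have hNr : (1 : ℝ) ≤ (Fintype.card F : ℝ) := by exact_mod_cast hN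
  obtain ⟨d, hd1, hd2, hd3⟩ := exists_depth (Fintype.card F) hN
  obtain ⟨wt, hG⟩ := s'.main_induction d Finset.univ 1 one_pos s'.Reg_univ
    (by rw [Finset.card_univ]; exact hd1)
  have hIn : ∀ c v, s'.inn v → s'.In c v Finset.univ :=
    fun c v hv => ⟨hv, Finset.mem_univ _, Finset.mem_univ _⟩
  have hIR : s'.IR Finset.univ = s'.VI := by
    ext v
    simp [SchPS.IR, SchP.VI]
  have hn : ∀ c v, 0 ≤ wt c v := hG.nn
  have hlo : ∀ c v, s'.inn v → 1 / (12 : ℝ) ^ d ≤ s'.om wt v (s'.out c v) :=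
    fun c v hv => hG.lo c v (hIn c v hv)
  have hpos : ∀ c v, s'.inn v → 0 < s'.om wt v (s'.out c v) := fun c v hv =>
    lt_of_lt_of_le (by positivity) (hlo c v hv)
  have hDp : 0 < DF (s'.om wt) s'.VI := by
    rw [← hIR]
    exact s'.DF_pos (R := Finset.univ) hn (fun c v hI => hpos c v hI.1) _ (Finset.Subset.refl _)
  have haVI : ∀ k, s'.a k ∉ s'.VI := fun k hk => (hVI _).mp hk k rfl
  choose Hk hH1 hH2 using fun k => w8_solve (s'.om wt) s'.VI hDp.ne' (s'.a k) (haVI k)
  have hb : ∀ k j, Hk j (s'.a k) = if k = j then 1 else 0 := by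
    intro k j
    rw [hH1 j (s'.a k) (haVI k)]
    by_cases h : k = j
    · rw [if_pos h, if_pos (by rw [h])]
    · rw [if_neg h, if_neg (fun hh => h (s'.a_inj hh))]
  refine ⟨wt, fun v k => Hk k v, hn, ?_, ?_, hb, ?_, hDp, ?_⟩
  · intro c v hv
    refine le_trans ?_ (hlo c v hv)
    exact one_div_le_one_div_of_le (by positivity) hd2
  · intro c v hv
    have h1 := hG.hi c v (hIn c v hv)
    rwa [one_mul] at h1
  · intro v hv k
    exact hH2 k v ((hVI v).mpr hv)
  · intro χ hχ g p hp
    have hout : ∀ u, u ∈ s'.VI ∨ u ∈ Finset.univ.image s'.a := by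
      intro u
      by_cases hu : s'.inn u
      · exact Or.inl ((hVI u).mpr hu)
      · right
        unfold SchP.inn at hu
        push Not at hu
        obtain ⟨k, hk⟩ := hu
        exact Finset.mem_image.mpr ⟨k, Finset.mem_univ _, hk.symm⟩
    have hchi : ∀ (gg : Fin 3 → F) k, s'.chi Finset.univ gg (s'.a k) = k := by
      intro gg k
      have hne : k + 1 ≠ k := by revert k; decide
      have hd : Disjoint (s'.S (k + 1) (s'.a k)) Finset.univ := by
        rw [s'.outer1 (k + 1) k hne.symm]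
        exact Finset.disjoint_empty_left _
      rw [s'.chi_eq (fun _ => Finset.mem_univ _) hd]
      apply s'.ix_eq
      rw [s'.outer0 k]
      exact Finset.mem_univ _
    have hZ : ∀ gg : Fin 3 → F,
        ZF (s'.om wt) (s'.IR Finset.univ) (s'.chi Finset.univ gg) p =
          ZF (s'.om wt) s'.VI χ p := by
      intro gg
      rw [hIR]
      refine ZF_chi _ (fun u v => s'.toSchP.om_nonneg wt (fun c v _ => hn c v) u v)
        s'.VI (Finset.univ.image s'.a) ?_ (fun v _ u _ => hout u) _ _ ?_ _ (fun j => hout _)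
      · intro v hv
        obtain ⟨k, _, rfl⟩ := Finset.mem_image.mp hv
        exact haVI k
      · intro v hv
        obtain ⟨k, _, rfl⟩ := Finset.mem_image.mp hv
        rw [hchi, hχ]
    have hNR : s'.NR wt Finset.univ p =
        (Fintype.card F : ℝ) ^ 3 * ZF (s'.om wt) s'.VI χ p := by
      unfold SchPS.NR
      rw [Finset.sum_congr rfl fun gg _ => hZ gg, Finset.sum_const, nsmul_eq_mul,
        Fintype.card_piFinset]
      simp
    have hbd := hG.bd g (Finset.mem_univ _) p hp
    rw [hNR, hIR] at hbd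
    generalize ZF (s'.om wt) s'.VI χ p = X at hbd ⊢
    generalize DF (s'.om wt) s'.VI = D at hbd hDp ⊢
    have hN0 : (0 : ℝ) < (Fintype.card F : ℝ) := by linarith
    have h3 : 1 / (3 * (Fintype.card F : ℝ)) ^ 15 ≤ (1 / 432 : ℝ) ^ d := by
      rw [one_div_pow]
      exact one_div_le_one_div_of_le (by positivity) hd3
    have h4 : 1 / (3 * (Fintype.card F : ℝ)) ^ 18 =
        (1 / (3 * (Fintype.card F : ℝ)) ^ 15) * (1 / (27 * (Fintype.card F : ℝ) ^ 3)) := by
      rw [one_div_mul_one_div]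
      congr 1
      ring
    have hX : 1 / (3 * (Fintype.card F : ℝ)) ^ 15 * D ≤ (Fintype.card F : ℝ) ^ 3 * X :=
      (mul_le_mul_of_nonneg_right h3 hDp.le).trans hbd
    have hXp : 0 ≤ X := by
      by_contra hcon
      push Not at hcon
      have h5 : 0 < 1 / (3 * (Fintype.card F : ℝ)) ^ 15 * D := by positivity
      have h6 := mul_neg_of_pos_of_neg
        (by positivity : (0 : ℝ) < (Fintype.card F : ℝ) ^ 3) hcon
      linarith
    rw [h4]
    calc 1 / (3 * (Fintype.card F : ℝ)) ^ 15 * (1 / (27 * (Fintype.card F : ℝ) ^ 3)) * D =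
          (1 / (3 * (Fintype.card F : ℝ)) ^ 15 * D) * (1 / (27 * (Fintype.card F : ℝ) ^ 3)) := by
          ring
      _ ≤ ((Fintype.card F : ℝ) ^ 3 * X) * (1 / (27 * (Fintype.card F : ℝ) ^ 3)) :=
          mul_le_mul_of_nonneg_right hX (by positivity)
      _ = X / 27 := by field_simp
      _ ≤ X := by linarith

end SchP

end Pool.RP
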